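import Mathlib

/-! Quotients of unital C*-algebras by closed two-sided ideals. -/

set_option autoImplicit false

namespace Pool.Agent.H75.AF

section
variable {E : Type} [CStarAlgebra E]

theorem approx (y : E) {ε : ℝ} (hε : 0 < ε) :
    ∃ g k : E, star g = g ∧ ‖g‖ ≤ 1 ∧ 1 - g = k * (star y * y) ∧ ‖y * g‖ ≤ ε := by
  have hε2 : 0 < ε ^ 2 := by positivity
  obtain ⟨h, hh⟩ : ∃ h, h = star y * y := ⟨_, rfl⟩
  have sh : IsSelfAdjoint h := hh ▸ IsSelfAdjoint.star_mul_self y
  have sp : ∀ t ∈ spectrum ℝ h, 0 ≤ t := fun t ht => by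
    rw [hh] at ht; exact spectrum_star_mul_self_nonneg t ht
  have c1 : ContinuousOn (fun t : ℝ => (ε ^ 2 + t)⁻¹) (spectrum ℝ h) :=
    ContinuousOn.inv₀ (by fun_prop) fun t ht => by have := sp t ht; positivity
  have c2 : ContinuousOn (fun t : ℝ => ε ^ 2 * (ε ^ 2 + t)⁻¹) (spectrum ℝ h) :=
    continuousOn_const.mul c1
  have sg : star (cfc (fun t : ℝ => ε ^ 2 * (ε ^ 2 + t)⁻¹) h) =
      cfc (fun t : ℝ => ε ^ 2 * (ε ^ 2 + t)⁻¹) h := (cfc_predicate _ h : IsSelfAdjoint _).star_eq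
  refine ⟨cfc (fun t : ℝ => ε ^ 2 * (ε ^ 2 + t)⁻¹) h, cfc (fun t : ℝ => (ε ^ 2 + t)⁻¹) h, sg,
    ?_, ?_, ?_⟩
  · refine norm_cfc_le zero_le_one fun t ht => ?_
    have := sp t ht
    rw [Real.norm_eq_abs, abs_of_nonneg (by positivity), ← div_eq_mul_inv,
      div_le_one (by positivity)]
    linarith
  · rw [← hh]
    nth_rewrite 3 [← cfc_id' ℝ h]
    rw [← cfc_mul _ _ h, ← cfc_const_one ℝ h, ← cfc_sub _ _ h]
    refine cfc_congr fun t ht => ?_
    have := sp t ht
    field_simp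
    ring
  · refine (sq_le_sq₀ (norm_nonneg _) hε.le).1 ?_
    rw [sq, ← CStarRing.norm_star_mul_self, star_mul, sg, mul_assoc, ← mul_assoc (star y), ← hh]
    nth_rewrite 2 [← cfc_id' ℝ h]
    rw [← cfc_mul _ _ h, ← cfc_mul _ _ h]
    refine norm_cfc_le hε2.le fun t ht => ?_
    have := sp t ht
    rw [Real.norm_eq_abs, abs_of_nonneg (by positivity)]
    have e : ε ^ 2 * (ε ^ 2 + t)⁻¹ * (t * (ε ^ 2 * (ε ^ 2 + t)⁻¹)) =
        ε ^ 2 * ((ε ^ 2 * t) / (ε ^ 2 + t) ^ 2) := by field_simp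
    rw [e]
    refine mul_le_of_le_one_right hε2.le ((div_le_one (by positivity)).2 ?_)
    nlinarith [mul_nonneg hε2.le this]

theorem star_mem_ideal (I : Ideal E) [I.IsTwoSided] (hI : IsClosed (I : Set E)) {y : E}
    (hy : y ∈ I) : star y ∈ I := by
  refine hI.closure_subset (Metric.mem_closure_iff.2 fun ε hε => ?_)
  obtain ⟨g, k, h1, h2, h3, h4⟩ := approx y (half_pos hε)
  refine ⟨(1 - g) * star y, ?_, ?_⟩
  · rw [h3]; exact I.mul_mem_right _ (I.mul_mem_left _ (I.mul_mem_left _ hy))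
  · rw [dist_eq_norm, sub_mul, one_mul, sub_sub_cancel, ← h1, ← star_mul, norm_star]
    linarith

/-- The quotient algebra. -/
def Q (I : Ideal E) : Type := E ⧸ I

variable (I : Ideal E) [I.IsTwoSided] [hI : IsClosed (I : Set E)]

theorem q_lt (x : E ⧸ I) {ε : ℝ} (hε : 0 < ε) :
    ∃ r : E, Ideal.Quotient.mk I r = x ∧ ‖r‖ < ‖x‖ + ε :=
  Submodule.Quotient.norm_mk_lt x hε

theorem q_le (r : E) : ‖Ideal.Quotient.mk I r‖ ≤ ‖r‖ := Submodule.Quotient.norm_mk_le I r

noncomputable instance : NormedRing (Q I) :=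
  { (inferInstance : Ring (E ⧸ I)), Submodule.Quotient.normedAddCommGroup I with
    norm_mul_le := fun (x y : E ⧸ I) => le_of_forall_pos_le_add fun ε hε => by
      have := ((Metric.nhds_basis_ball.prod_nhds Metric.nhds_basis_ball).tendsto_iff
        Metric.nhds_basis_ball).mp (continuous_mul.tendsto (‖x‖, ‖y‖)) ε hε
      simp only [Set.mem_prod, Metric.mem_ball, and_imp, Prod.forall, Prod.exists] at this
      rcases this with ⟨ε₁, ε₂, ⟨h₁, h₂⟩, h⟩
      obtain ⟨a, rfl, ha⟩ := q_lt I x h₁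
      obtain ⟨b, rfl, hb⟩ := q_lt I y h₂
      simp only [dist, abs_sub_lt_iff] at h
      specialize h ‖a‖ ‖b‖ ⟨by linarith, by linarith [q_le I a]⟩
        ⟨by linarith, by linarith [q_le I b]⟩
      calc
        _ ≤ ‖a‖ * ‖b‖ := (q_le I (a * b)).trans (norm_mul_le a b)
        _ ≤ _ := (sub_lt_iff_lt_add'.mp h.1).le }

noncomputable instance : NormedAlgebra ℂ (Q I) :=
  { Submodule.Quotient.normedSpace I ℂ, Ideal.Quotient.algebra ℂ (I := I) with }

/-- The quotient map. -/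
noncomputable def mk : E →ₐ[ℂ] Q I := Ideal.Quotient.mkₐ ℂ I

theorem mk_surj : Function.Surjective (mk I) := Ideal.Quotient.mk_surjective

theorem mk_zero {x : E} : mk I x = 0 ↔ x ∈ I := Ideal.Quotient.eq_zero_iff_mem

theorem mk_le (r : E) : ‖mk I r‖ ≤ ‖r‖ := q_le I r

theorem mk_lt (x : Q I) {ε : ℝ} (hε : 0 < ε) : ∃ r : E, mk I r = x ∧ ‖r‖ < ‖x‖ + ε := q_lt I x hε

noncomputable instance : Star (Q I) :=
  ⟨Quotient.map' star fun a b h => by
    rw [Submodule.quotientRel_def] at h ⊢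
    rw [← star_sub]; exact star_mem_ideal I hI h⟩

theorem star_mk (x : E) : star (mk I x) = mk I (star x) := rfl

noncomputable instance : StarRing (Q I) where
  star_involutive x := by obtain ⟨a, rfl⟩ := mk_surj I x; rw [star_mk, star_mk, star_star]
  star_mul x y := by
    obtain ⟨a, rfl⟩ := mk_surj I x; obtain ⟨b, rfl⟩ := mk_surj I y
    rw [← map_mul, star_mk, star_mk, star_mk, ← map_mul, star_mul]
  star_add x y := by
    obtain ⟨a, rfl⟩ := mk_surj I x; obtain ⟨b, rfl⟩ := mk_surj I y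
    rw [← map_add, star_mk, star_mk, star_mk, ← map_add, star_add]

instance : CompleteSpace (Q I) := Submodule.Quotient.completeSpace I

instance : StarModule ℂ (Q I) where
  star_smul c x := by
    obtain ⟨a, rfl⟩ := mk_surj I x
    rw [← map_smul, star_mk, star_mk, ← map_smul, star_smul]

instance : CStarRing (Q I) where
  norm_mul_self_le x := le_of_forall_pos_le_add fun ε hε => by
    obtain ⟨a, rfl⟩ := mk_surj I x
    obtain ⟨r, hr, hr'⟩ := mk_lt I (star (mk I a) * mk I a) (half_pos hε)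
    have hy : star a * a - r ∈ I := by
      rw [← mk_zero, map_sub, hr, map_mul, star_mk, sub_self]
    obtain ⟨g, k, h1, h2, h3, h4⟩ := approx (star a * a - r) (half_pos hε)
    have e1 : mk I a = mk I (a * g) := by
      rw [← sub_eq_zero, ← map_sub, mk_zero]
      nth_rewrite 1 [← mul_one a]
      rw [← mul_sub, h3]
      exact I.mul_mem_left _ (I.mul_mem_left _ (I.mul_mem_left _ hy))
    have e2 : ‖mk I a‖ ≤ ‖a * g‖ := e1 ▸ mk_le I _
    have e3 : ‖a * g‖ * ‖a * g‖ ≤ ‖r‖ + ε / 2 := by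
      rw [← CStarRing.norm_star_mul_self, star_mul, h1, mul_assoc, ← mul_assoc (star a)]
      have : star a * a * g = r * g + (star a * a - r) * g := by rw [sub_mul]; abel
      calc ‖g * (star a * a * g)‖ ≤ ‖g‖ * ‖star a * a * g‖ := norm_mul_le _ _
        _ ≤ ‖star a * a * g‖ := mul_le_of_le_one_left (norm_nonneg _) h2
        _ ≤ ‖r * g‖ + ‖(star a * a - r) * g‖ := this ▸ norm_add_le _ _
        _ ≤ ‖r‖ + ε / 2 := add_le_add ((norm_mul_le _ _).trans
          (mul_le_of_le_one_right (norm_nonneg _) h2)) h4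
    have := mul_le_mul e2 e2 (norm_nonneg _) (norm_nonneg _)
    linarith

noncomputable instance : CStarAlgebra (Q I) :=
  { (inferInstance : NormedRing (Q I)), (inferInstance : StarRing (Q I)),
    (inferInstance : CompleteSpace (Q I)), (inferInstance : CStarRing (Q I)),
    (inferInstance : NormedAlgebra ℂ (Q I)), (inferInstance : StarModule ℂ (Q I)) with }

end

theorem quot {E : Type} [CStarAlgebra E] (I : Ideal E) [I.IsTwoSided] (hI : IsClosed (I : Set E)) :
    ∃ (D : Type) (_ : CStarAlgebra D) (π : E →⋆ₐ[ℂ] D), Function.Surjective π ∧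
      ∀ x, π x = 0 ↔ x ∈ I :=
  ⟨Q I, inferInstance, { mk I with map_star' := fun x => (star_mk I x).symm }, mk_surj I,
    fun _ => mk_zero I⟩

end Pool.Agent.H75.AF
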