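import Pool.Agent.H75.AF1

/-! Consequence of having no unital quotients. -/

set_option autoImplicit false

namespace Pool.Agent.H75.AF

open Filter Topology

theorem closed_tend {X Y : Type} [NormedAddCommGroup X] [NormedAddCommGroup Y] (F : ℕ → X → Y)
    (f : X → Y) (hf : Continuous f) (K : ℝ) (hF : ∀ j x y, ‖F j x - F j y‖ ≤ K * ‖x - y‖) :
    IsClosed {x | Tendsto (fun j => F j x) atTop (𝓝 (f x))} := by
  refine Equicontinuous.isClosed_setOfPred_tendsto ?_ hf
  refine (LipschitzWith.uniformEquicontinuous F (Real.toNNReal K) fun j => ?_).equicontinuous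
  exact LipschitzWith.of_dist_le' fun x y => by rw [dist_eq_norm, dist_eq_norm]; exact hF j x y

theorem key {A : Type} [NonUnitalCStarAlgebra A] (S : ℕ → NonUnitalStarSubalgebra ℂ A)
    (hm : Monotone S) (hd : Dense (⋃ n, (S n : Set A)))
    (H : ∀ (D : Type) [CStarAlgebra D], Nontrivial D →
      ∀ φ : A →⋆ₙₐ[ℂ] D, ¬ Function.Surjective φ) (u : A) :
    ∃ j, ∀ e : A, u * e = e → (∀ t ∈ S j, u * (t * e) = t * e) → e = 0 := by
  by_contra hc
  push Not at hc
  choose e0 h1 h2 h3 using hc
  obtain ⟨e, n1, k1, k2⟩ : ∃ e : ℕ → A, (∀ j, ‖e j‖ = 1) ∧ (∀ j, u * e j = e j) ∧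
      ∀ j, ∀ t ∈ S j, u * (t * e j) = t * e j := by
    refine ⟨fun j => ((‖e0 j‖ : ℂ))⁻¹ • e0 j, fun j => ?_, fun j => ?_, fun j t ht => ?_⟩
    · have := norm_ne_zero_iff.2 (h3 j)
      rw [norm_smul, norm_inv, Complex.norm_real, norm_norm, inv_mul_cancel₀ this]
    · rw [mul_smul_comm, h1]
    · rw [mul_smul_comm, mul_smul_comm, h2 j t ht]
  have ne : ∀ j, ‖(e j : Unitization ℂ A)‖ = 1 := fun j => by rw [Unitization.norm_inr, n1]
  let I : Ideal (Unitization ℂ A) :=
    { carrier := {x | ∀ a, Tendsto (fun j => x * a * (e j : Unitization ℂ A)) atTop (𝓝 0)}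
      add_mem' := fun {x y} hx hy a => by
        have := (hx a).add (hy a)
        rw [add_zero] at this
        exact this.congr fun j => by rw [add_mul, add_mul]
      zero_mem' := fun a => by simp only [zero_mul]; exact tendsto_const_nhds
      smul_mem' := fun c x hx a => by
        have := (hx a).const_mul c
        rw [mul_zero] at this
        exact this.congr fun j => by rw [smul_eq_mul, mul_assoc c x a, mul_assoc c] }
  have mI : ∀ x, x ∈ I ↔
      ∀ a, Tendsto (fun j => x * a * (e j : Unitization ℂ A)) atTop (𝓝 0) := fun x => Iff.rfl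
  have : I.IsTwoSided := ⟨fun {x} b hx => (mI _).2 fun a => by
    rw [mul_assoc x b a]; exact (mI x).1 hx _⟩
  have hI : IsClosed (I : Set (Unitization ℂ A)) := by
    have : (I : Set (Unitization ℂ A)) = ⋂ a, {x | Tendsto
        (fun j => x * a * (e j : Unitization ℂ A)) atTop (𝓝 0)} := by
      ext x; rw [Set.mem_iInter]; exact mI x
    rw [this]
    refine isClosed_iInter fun a => closed_tend (fun j x => x * a * (e j : Unitization ℂ A))
      (fun _ => 0) continuous_const ‖a‖ fun j x y => ?_
    rw [← sub_mul, ← sub_mul]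
    refine (norm_mul_le _ _).trans ?_
    rw [ne, mul_one]
    exact (norm_mul_le _ _).trans (mul_comm _ _).le
  obtain ⟨D, _, π, hs, hk⟩ := quot I hI
  have n1 : (1 : Unitization ℂ A) ∉ I := fun h => by
    have := ((mI _).1 h 1).norm
    simp only [one_mul, ne, norm_zero] at this
    exact one_ne_zero (tendsto_nhds_unique tendsto_const_nhds this)
  have hu : 1 - (u : Unitization ℂ A) ∈ I := by
    have c : ∀ a : A, Tendsto (fun j => (1 - (u : Unitization ℂ A)) * (a : Unitization ℂ A) *
        (e j : Unitization ℂ A)) atTop (𝓝 0) := by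
      have cl := closed_tend (fun j (a : A) => (1 - (u : Unitization ℂ A)) *
        (a : Unitization ℂ A) * (e j : Unitization ℂ A)) (fun _ => 0) continuous_const
        ‖1 - (u : Unitization ℂ A)‖ fun j x y => by
          rw [← sub_mul, ← mul_sub, ← Unitization.inr_sub]
          refine (norm_mul_le _ _).trans ?_
          rw [ne, mul_one, ← Unitization.norm_inr (𝕜 := ℂ) (x - y)]
          exact norm_mul_le _ _
      intro a
      refine cl.closure_subset_iff.2 (fun t ht => ?_) (hd a)
      obtain ⟨k, hk⟩ := Set.mem_iUnion.1 ht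
      refine tendsto_const_nhds.congr' ?_
      filter_upwards [eventually_ge_atTop k] with j hj
      rw [mul_assoc, sub_mul, one_mul, ← Unitization.inr_mul, ← Unitization.inr_mul,
        k2 j t (hm hj hk), sub_self]
    refine (mI _).2 fun a => ?_
    induction a using Unitization.ind with
    | inl_add_inr r a =>
      refine (c a).congr fun j => ?_
      have : (1 - (u : Unitization ℂ A)) * Unitization.inl r * (e j : Unitization ℂ A) = 0 := by
        rw [mul_assoc, Unitization.inl_mul_inr, sub_mul, one_mul, ← Unitization.inr_mul,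
          mul_smul_comm, k1, sub_self]
      rw [mul_add, add_mul, this, zero_add]
  refine H D ⟨1, 0, fun h => n1 ((hk 1).1 (by rw [map_one, h]))⟩
    ((π : Unitization ℂ A →⋆ₙₐ[ℂ] D).comp (Unitization.inrNonUnitalStarAlgHom ℂ A)) fun d => ?_
  obtain ⟨a, rfl⟩ := hs d
  have h1 : π (u : Unitization ℂ A) = 1 := by
    have := (hk _).2 hu
    rw [map_sub, map_one, sub_eq_zero] at this
    exact this.symm
  induction a using Unitization.ind with
  | inl_add_inr r a =>
    refine ⟨r • u + a, ?_⟩
    change π ((r • u + a : A) : Unitization ℂ A) = _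
    rw [Unitization.inr_add, Unitization.inr_smul, map_add, map_add, map_smul, h1,
      ← Unitization.algebraMap_eq_inl, AlgHomClass.commutes, Algebra.algebraMap_eq_smul_one]

end Pool.Agent.H75.AF
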