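import Mathlib

/-! Finite-dimensional star subalgebras: eigenprojections and minimal projections. -/

set_option autoImplicit false

namespace Pool.Agent.H75.AF

/-- The set lies in a finite-dimensional subspace. -/
def FD {E : Type} [NonUnitalCStarAlgebra E] (S : Set E) : Prop :=
  ∃ V : Submodule ℂ E, FiniteDimensional ℂ V ∧ S ⊆ V

variable {E : Type} [NonUnitalCStarAlgebra E] {S : NonUnitalStarSubalgebra ℂ E}

theorem FD.mono {S T : Set E} (h : FD T) (hl : S ⊆ T) : FD S :=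
  let ⟨V, h1, h2⟩ := h; ⟨V, h1, hl.trans h2⟩

theorem FD.closed (h : FD (S : Set E)) : IsClosed (S : Set E) := by
  obtain ⟨V, h1, h2⟩ := h
  have : FiniteDimensional ℂ S.toNonUnitalSubalgebra.toSubmodule :=
    Submodule.finiteDimensional_of_le (S₂ := V) h2
  exact Submodule.closed_of_finiteDimensional S.toNonUnitalSubalgebra.toSubmodule

theorem FD.spec (hS : FD (S : Set E)) {h : E} (hh : h ∈ S) : (quasispectrum ℝ h).Finite := by
  obtain ⟨V, h1, h2⟩ := hS
  let W : Subalgebra ℂ (Unitization ℂ E) :=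
    { carrier := {x | x.snd ∈ S}
      mul_mem' := fun {x y} hx hy => by
        change (x * y).snd ∈ S
        rw [Unitization.snd_mul]
        exact add_mem (add_mem (SMulMemClass.smul_mem _ hy) (SMulMemClass.smul_mem _ hx))
          (mul_mem hx hy)
      add_mem' := fun {x y} hx hy => by
        change (x + y).snd ∈ S
        rw [Unitization.snd_add]; exact add_mem hx hy
      algebraMap_mem' := fun r => by
        change (Unitization.inl r : Unitization ℂ E).snd ∈ S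
        rw [Unitization.snd_inl]; exact zero_mem _ }
  have hW : W.toSubmodule ≤ (ℂ ∙ 1) ⊔ V.map (Unitization.inrHom ℂ ℂ E) := fun x hx => by
    rw [← Unitization.inl_fst_add_inr_snd_eq x]
    refine Submodule.add_mem_sup (Submodule.mem_span_singleton.2 ⟨x.fst, ?_⟩) ⟨x.snd, h2 hx, rfl⟩
    rw [← Algebra.algebraMap_eq_smul_one]; rfl
  have fd : FiniteDimensional ℂ W.toSubmodule := Submodule.finiteDimensional_of_le hW
  obtain ⟨p, hp, hp0⟩ := IsIntegral.of_mem_of_fg W (Module.Finite.iff_fg.1 fd)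
    (h : Unitization ℂ E) (by change (h : Unitization ℂ E).snd ∈ S; exact hh)
  have hf : (spectrum ℂ (h : Unitization ℂ E)).Finite := by
    refine (p.rootSet_finite ℂ).subset fun z hz => ?_
    have := spectrum.subset_polynomial_aeval (h : Unitization ℂ E) p ⟨z, hz, rfl⟩
    rw [Polynomial.aeval_def, hp0, spectrum.zero_eq] at this
    rw [Polynomial.mem_rootSet]
    exact ⟨hp.ne_zero, this⟩
  rw [Unitization.quasispectrum_eq_spectrum_inr' ℝ ℂ, ← spectrum.preimage_algebraMap ℂ]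
  exact hf.preimage (FaithfulSMul.algebraMap_injective ℝ ℂ).injOn

theorem eig (hS : FD (S : Set E)) {h : E} (hh : h ∈ S) (sa : IsSelfAdjoint h) (h0 : h ≠ 0) :
    ∃ (l : ℝ) (e : E), |l| = ‖h‖ ∧ e ∈ S ∧ IsStarProjection e ∧ e ≠ 0 ∧ h * e = (l : ℂ) • e := by
  classical
  obtain ⟨l, hl, hl'⟩ :=
    (NonUnitalIsometricContinuousFunctionalCalculus.isGreatest_norm_quasispectrum (𝕜 := ℝ) h sa).1
  have l0 : l ≠ 0 := fun h' => h0 (by rw [← norm_eq_zero, ← hl', h']; simp)
  have c : ∀ f : ℝ → ℝ, ContinuousOn f (quasispectrum ℝ h) := fun f => (hS.spec hh).continuousOn f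
  obtain ⟨f, hf⟩ : ∃ f : ℝ → ℝ, f = fun t => if t = l then 1 else 0 := ⟨_, rfl⟩
  have f0 : f 0 = 0 := by rw [hf]; simp [l0.symm]
  have := hS.closed
  refine ⟨l, cfcₙ f h, hl', cfcₙ_mem (𝕜' := ℂ) f hh, ⟨?_, cfcₙ_predicate f h⟩, fun h' => ?_, ?_⟩
  · rw [IsIdempotentElem, ← cfcₙ_mul f f h (c _) f0 (c _) f0]
    refine cfcₙ_congr fun t _ => ?_
    rw [hf]; by_cases ht : t = l <;> simp [ht]
  · have := norm_apply_le_norm_cfcₙ f h hl (c _) f0 sa
    rw [h', hf] at this
    norm_num at this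
  · nth_rewrite 1 [← cfcₙ_id' ℝ h]
    rw [← cfcₙ_mul _ f h (c _) rfl (c _) f0, Complex.coe_smul, ← cfcₙ_const_mul l f h (c _) f0]
    refine cfcₙ_congr fun t _ => ?_
    rw [hf]; by_cases ht : t = l <;> simp [ht]

theorem eig' (hS : FD (S : Set E)) {h : E} (hh : h ∈ S) (sa : IsSelfAdjoint h) (h0 : h ≠ 0) :
    ∃ (l : ℂ) (e : E), e ∈ S ∧ IsStarProjection e ∧ e ≠ 0 ∧ h * e = l • e ∧
      e = l⁻¹ • (h * e) := by
  obtain ⟨l, e, h1, h2, h3, h4, h5⟩ := eig hS hh sa h0
  have l0 : (l : ℂ) ≠ 0 := fun h' => h0 (by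
    rw [← norm_eq_zero, ← h1, Complex.ofReal_eq_zero.1 h', abs_zero])
  exact ⟨l, e, h2, h3, h4, h5, by rw [h5, smul_smul, inv_mul_cancel₀ l0, one_smul]⟩

/-- A finite family of nonzero orthogonal projections. -/
def Good (S : NonUnitalStarSubalgebra ℂ E) (F : Finset E) : Prop :=
  (∀ s ∈ F, s ∈ S ∧ IsStarProjection s ∧ s ≠ 0) ∧ ∀ s ∈ F, ∀ s' ∈ F, s ≠ s' → s * s' = 0

theorem orth_symm {p q : E} (hp : IsStarProjection p) (hq : IsStarProjection q) (h : p * q = 0) :
    q * p = 0 := by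
  rw [← hp.isSelfAdjoint.star_eq, ← hq.isSelfAdjoint.star_eq, ← star_mul, h, star_zero]

open Classical in
theorem Good.ins {F : Finset E} (hF : Good S F) {e : E} (h1 : e ∈ S) (h2 : IsStarProjection e)
    (h3 : e ≠ 0) (h4 : ∀ s ∈ F, s * e = 0) :
    Good S (insert e F) ∧ (insert e F).card = F.card + 1 := by
  refine ⟨⟨fun s hs => ?_, fun s hs s' hs' hne => ?_⟩, Finset.card_insert_of_notMem fun h => ?_⟩
  · rcases Finset.mem_insert.1 hs with rfl | hs
    exacts [⟨h1, h2, h3⟩, hF.1 s hs]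
  · rcases Finset.mem_insert.1 hs with rfl | k <;> rcases Finset.mem_insert.1 hs' with rfl | k'
    exacts [absurd rfl hne, orth_symm (hF.1 _ k').2.1 h2 (h4 _ k'), h4 _ k, hF.2 _ k _ k' hne]
  · exact h3 (h2.isIdempotentElem.eq.symm.trans (h4 e h))

theorem Good.mul_sum {F : Finset E} (hF : Good S F) {s : E} (hs : s ∈ F) :
    s * ∑ x ∈ F, x = s := by
  rw [Finset.mul_sum, Finset.sum_eq_single_of_mem s hs fun x hx hne => hF.2 s hs x hx hne.symm,
    (hF.1 s hs).2.1.isIdempotentElem.eq]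

theorem Good.card_le {F : Finset E} (hF : Good S F) (V : Submodule ℂ E) [FiniteDimensional ℂ V]
    (hV : (S : Set E) ⊆ V) : F.card ≤ Module.finrank ℂ V := by
  have : LinearIndependent ℂ fun s : F => (⟨s, hV (hF.1 s s.2).1⟩ : V) := by
    refine LinearIndependent.of_comp V.subtype (Fintype.linearIndependent_iff.2 fun g hg i => ?_)
    have := congrArg (fun x => (i : E) * x) hg
    simp only [Function.comp, Submodule.subtype_apply, mul_zero, Finset.mul_sum,
      mul_smul_comm] at this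
    rw [Finset.sum_eq_single i (fun j _ hj => by
      rw [hF.2 i i.2 j j.2 (fun h => hj (Subtype.ext h.symm)), smul_zero]) (by simp),
      (hF.1 i i.2).2.1.isIdempotentElem.eq] at this
    exact (smul_eq_zero.1 this).resolve_right (hF.1 i i.2).2.2
  simpa using this.fintype_card_le_finrank

theorem minfam (hS : FD (S : Set E)) : ∃ F : Finset E, Good S F ∧
    (∀ s ∈ F, ∀ t ∈ S, ∃ c : ℂ, s * t * s = c • s) ∧ ∀ t ∈ S, (∑ s ∈ F, s) * t = t := by
  classical
  obtain ⟨F, hF, hmax⟩ : ∃ F : Finset E, Good S F ∧ ∀ G, Good S G → G.card ≤ F.card := by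
    obtain ⟨V, _, hV⟩ := hS
    have bd : BddAbove {n | ∃ F : Finset E, Good S F ∧ F.card = n} :=
      ⟨Module.finrank ℂ V, fun n ⟨F, hF, hn⟩ => hn ▸ hF.card_le V hV⟩
    obtain ⟨F, hF, hn⟩ := Nat.sSup_mem (s := {n | ∃ F : Finset E, Good S F ∧ F.card = n})
      ⟨0, ∅, ⟨by simp, by simp⟩, rfl⟩ bd
    exact ⟨F, hF, fun G hG => hn ▸ le_csSup bd ⟨G, hG, rfl⟩⟩
  have m1 : ∀ s ∈ F, ∀ e ∈ S, IsStarProjection e → e ≠ 0 → s * e = e → e = s := by
    intro s hs e he pe e0 hse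
    by_contra hne
    obtain ⟨s1, s2, s3⟩ := hF.1 s hs
    have g0 : Good S (F.erase s) := ⟨fun x hx => hF.1 x (Finset.mem_of_mem_erase hx),
      fun x hx y hy => hF.2 x (Finset.mem_of_mem_erase hx) y (Finset.mem_of_mem_erase hy)⟩
    have o : ∀ x ∈ F.erase s, x * s = 0 := fun x hx =>
      hF.2 x (Finset.mem_of_mem_erase hx) s hs (Finset.ne_of_mem_erase hx)
    have oe : ∀ x ∈ F.erase s, x * e = 0 := fun x hx => by rw [← hse, ← mul_assoc, o x hx, zero_mul]
    obtain ⟨g1, c1⟩ := g0.ins (sub_mem s1 he) (pe.sub_of_mul_eq_right s2 hse)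
      (sub_ne_zero.2 (Ne.symm hne)) fun x hx => by rw [mul_sub, o x hx, oe x hx, sub_self]
    obtain ⟨g2, c2⟩ := g1.ins he pe e0 fun x hx => by
      rcases Finset.mem_insert.1 hx with rfl | hx
      · rw [sub_mul, hse, pe.isIdempotentElem.eq, sub_self]
      · exact oe x hx
    have := hmax _ g2
    rw [c2, c1, Finset.card_erase_add_one hs] at this
    omega
  have m2 : ∀ s ∈ F, ∀ h ∈ S, IsSelfAdjoint h → s * h = h → ∃ c : ℂ, h = c • s := by
    intro s hs h hh sa h1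
    by_cases h0 : h = 0
    · exact ⟨0, by rw [h0, zero_smul]⟩
    obtain ⟨l, e, e1, e2, e3, e4, e5⟩ := eig' hS hh sa h0
    have := m1 s hs e e1 e2 e3 (by rw [e5, mul_smul_comm, ← mul_assoc, h1])
    subst this
    refine ⟨l, ?_⟩
    have := congrArg star h1
    rw [star_mul, sa.star_eq, e2.isSelfAdjoint.star_eq] at this
    rw [← e4, this]
  refine ⟨F, hF, fun s hs t ht => ?_, fun t ht => ?_⟩
  · obtain ⟨s1, s2, s3⟩ := hF.1 s hs
    obtain ⟨x, hx⟩ : ∃ x, x = s * t * s := ⟨_, rfl⟩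
    have x1 : x ∈ S := hx ▸ mul_mem (mul_mem s1 ht) s1
    have x2 : s * x = x := by rw [hx, ← mul_assoc, ← mul_assoc, s2.isIdempotentElem.eq]
    have x3 : s * star x = star x := by
      rw [hx, star_mul, s2.isSelfAdjoint.star_eq, ← mul_assoc, s2.isIdempotentElem.eq]
    obtain ⟨a, ha⟩ := m2 s hs (x + star x) (add_mem x1 (star_mem x1)) (IsSelfAdjoint.add_star_self x)
      (by rw [mul_add, x2, x3])
    obtain ⟨b, hb⟩ := m2 s hs (Complex.I • (x - star x))
      (SMulMemClass.smul_mem _ (sub_mem x1 (star_mem x1)))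
      (by rw [IsSelfAdjoint, star_smul, star_sub, star_star, Complex.star_def, Complex.conj_I,
        neg_smul, ← smul_neg, neg_sub]) (by rw [mul_smul_comm, mul_sub, x2, x3])
    refine ⟨(2 : ℂ)⁻¹ * (a - Complex.I * b), ?_⟩
    rw [← hx, mul_smul, sub_smul, mul_smul, ← ha, ← hb, smul_smul, Complex.I_mul_I, neg_smul,
      one_smul, sub_neg_eq_add, add_add_sub_cancel, ← two_smul ℂ x, smul_smul]
    norm_num
  · by_contra hne
    obtain ⟨y, hy⟩ : ∃ y, y = t - (∑ s ∈ F, s) * t := ⟨_, rfl⟩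
    have y0 : y ≠ 0 := by rw [hy]; exact sub_ne_zero.2 (Ne.symm hne)
    have y1 : y ∈ S := hy ▸ sub_mem ht (mul_mem (sum_mem fun s hs => (hF.1 s hs).1) ht)
    obtain ⟨l, e, e1, e2, e3, e4, e5⟩ := eig' hS (mul_mem y1 (star_mem y1))
      (IsSelfAdjoint.mul_star_self y) (fun h => y0 ((CStarRing.mul_star_self_eq_zero_iff y).1 h))
    obtain ⟨g1, c1⟩ := hF.ins e1 e2 e3 fun s hs => by
      have : s * y = 0 := by rw [hy, mul_sub, ← mul_assoc, hF.mul_sum hs, sub_self]
      rw [e5, mul_smul_comm, ← mul_assoc, ← mul_assoc, this, zero_mul, zero_mul, smul_zero]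
    have := hmax _ g1
    omega

end Pool.Agent.H75.AF
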