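import Pool.Agent.H75.AF3

/-! Equivalence of minimal projections and matrix units. -/

set_option autoImplicit false

namespace Pool.Agent.H75.AF

variable {E : Type} [NonUnitalCStarAlgebra E] {S : NonUnitalStarSubalgebra ℂ E}

/-- Minimal projection of `S`. -/
def Min (S : NonUnitalStarSubalgebra ℂ E) (s : E) : Prop :=
  s ∈ S ∧ IsStarProjection s ∧ s ≠ 0 ∧ ∀ t ∈ S, ∃ c : ℂ, s * t * s = c • s

/-- Equivalence of projections inside `S`. -/
def Eqv (S : NonUnitalStarSubalgebra ℂ E) (p q : E) : Prop :=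
  ∃ v ∈ S, star v * v = q ∧ v * star v = p

theorem iso_right {v p : E} (hp : IsStarProjection p) (h : star v * v = p) : v * p = v := by
  have h1 := hp.isIdempotentElem.eq
  rw [← sub_eq_zero, ← CStarRing.star_mul_self_eq_zero_iff, star_sub, star_mul,
    hp.isSelfAdjoint.star_eq]
  simp only [sub_mul, mul_sub, mul_assoc, ← mul_assoc (star v), h, h1, sub_self]

theorem iso_left {v p q : E} (hp : IsStarProjection p) (h : star v * v = p) (h' : v * star v = q) :
    q * v = v := by rw [← h', mul_assoc, h, iso_right hp h]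

theorem Eqv.refl {p : E} (h : p ∈ S) (hp : IsStarProjection p) : Eqv S p p :=
  ⟨p, h, by rw [hp.isSelfAdjoint.star_eq, hp.isIdempotentElem.eq],
    by rw [hp.isSelfAdjoint.star_eq, hp.isIdempotentElem.eq]⟩

theorem Eqv.symm {p q : E} (h : Eqv S p q) : Eqv S q p :=
  let ⟨v, h1, h2, h3⟩ := h
  ⟨star v, star_mem h1, by rw [star_star, h3], by rw [star_star, h2]⟩

theorem Eqv.trans {p q r : E} (hq : IsStarProjection q) (h : Eqv S p q) (h' : Eqv S q r) :
    Eqv S p r := by
  obtain ⟨v, h1, h2, h3⟩ := h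
  obtain ⟨w, k1, k2, k3⟩ := h'
  have : q * w = w := by
    have := congrArg star (iso_right (v := star w) hq (by rw [star_star, k3]))
    rwa [star_mul, star_star, hq.isSelfAdjoint.star_eq] at this
  refine ⟨v * w, mul_mem h1 k1, ?_, ?_⟩
  · rw [star_mul, mul_assoc, ← mul_assoc (star v), h2, this, k2]
  · rw [star_mul, mul_assoc, ← mul_assoc w, k3, ← mul_assoc, iso_right hq h2, h3]

theorem Min.eqv {s s' t : E} (hs : Min S s) (hs' : Min S s') (ht : t ∈ S) (h : s * t * s' ≠ 0) :
    Eqv S s s' := by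
  obtain ⟨x, hx⟩ : ∃ x, x = s * t * s' := ⟨_, rfl⟩
  rw [← hx] at h
  have x1 : x ∈ S := hx ▸ mul_mem (mul_mem hs.1 ht) hs'.1
  have x2 : s * x = x := by rw [hx, ← mul_assoc, ← mul_assoc, hs.2.1.isIdempotentElem.eq]
  have x3 : x * s' = x := by rw [hx, mul_assoc, hs'.2.1.isIdempotentElem.eq]
  have x4 : s' * star x = star x := by
    rw [← hs'.2.1.isSelfAdjoint.star_eq, ← star_mul, x3]
  obtain ⟨c, hc⟩ := hs'.2.2.2 _ (mul_mem (star_mem x1) x1)
  rw [← mul_assoc, x4, mul_assoc, x3] at hc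
  have c1 : (c.re : ℂ) = c := by
    have := (IsSelfAdjoint.star_mul_self x).star_eq
    rw [hc, star_smul, hs'.2.1.isSelfAdjoint.star_eq, ← sub_eq_zero, ← sub_smul] at this
    exact Complex.conj_eq_iff_re.1 (sub_eq_zero.1 ((smul_eq_zero.1 this).resolve_right hs'.2.2.1))
  have c2 : 0 < c.re := by
    by_contra hn
    push Not at hn
    let := CStarAlgebra.spectralOrder E
    have := CStarAlgebra.spectralOrderedRing E
    have e : star x * x + star (((√(-c.re) : ℝ) : ℂ) • s') * (((√(-c.re) : ℝ) : ℂ) • s') = 0 := by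
      rw [star_smul, smul_mul_smul_comm, hs'.2.1.isSelfAdjoint.star_eq,
        hs'.2.1.isIdempotentElem.eq, Complex.star_def, Complex.conj_ofReal, ← Complex.ofReal_mul,
        Real.mul_self_sqrt (by linarith), hc, Complex.ofReal_neg, c1, neg_smul, add_neg_cancel]
    exact h ((CStarRing.star_mul_self_eq_zero_iff x).1
      ((add_eq_zero_iff_of_nonneg (star_mul_self_nonneg _) (star_mul_self_nonneg _)).1 e).1)
  obtain ⟨v, hv⟩ : ∃ v, v = (((√c.re)⁻¹ : ℝ) : ℂ) • x := ⟨_, rfl⟩
  have v1 : v ∈ S := hv ▸ SMulMemClass.smul_mem _ x1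
  have v2 : star v * v = s' := by
    rw [hv, star_smul, smul_mul_smul_comm, hc, smul_smul, Complex.star_def, Complex.conj_ofReal,
      ← Complex.ofReal_mul, ← mul_inv, Real.mul_self_sqrt c2.le]
    nth_rewrite 2 [← c1]
    rw [← Complex.ofReal_mul, inv_mul_cancel₀ c2.ne', Complex.ofReal_one, one_smul]
  have v3 : s * v = v := by rw [hv, mul_smul_comm, x2]
  have v4 : star v * s = star v := by rw [← hs.2.1.isSelfAdjoint.star_eq, ← star_mul, v3]
  obtain ⟨d, hd⟩ := hs.2.2.2 _ (mul_mem v1 (star_mem v1))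
  rw [← mul_assoc, v3, mul_assoc, v4] at hd
  have := iso_left hs'.2.1 v2 hd
  rw [smul_mul_assoc, v3, ← sub_eq_zero] at this
  nth_rewrite 2 [← one_smul ℂ v] at this
  rw [← sub_smul, smul_eq_zero, sub_eq_zero] at this
  rcases this with rfl | h0
  · exact ⟨v, v1, v2, by rw [hd, one_smul]⟩
  · exact absurd (by rw [← v2, h0, mul_zero]) hs'.2.2.1

theorem swap {a s : E} (ha : IsSelfAdjoint a) (hs : IsSelfAdjoint s) (h : a * s = s) :
    s * a = s := by
  have := congrArg star h
  rwa [star_mul, ha.star_eq, hs.star_eq] at this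

theorem unit (hS : FD (S : Set E)) : ∃ u ∈ S, IsStarProjection u ∧ ∀ t ∈ S, u * t = t := by
  obtain ⟨F, hF, -, h⟩ := minfam hS
  have m := sum_mem fun s hs => (hF.1 s hs).1
  exact ⟨_, m, ⟨h _ m, isSelfAdjoint_sum _ fun s hs => (hF.1 s hs).2.1.isSelfAdjoint⟩, h⟩

theorem minunder (hS : FD (S : Set E)) {a : E} (h1 : a ∈ S) (ha : IsStarProjection a) :
    ∃ F : Finset E, (∀ s ∈ F, Min S s ∧ a * s = s) ∧ (∀ s ∈ F, ∀ s' ∈ F, s ≠ s' → s * s' = 0) ∧
      ∑ s ∈ F, s = a := by
  have aa := ha.isIdempotentElem.eq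
  let T : NonUnitalStarSubalgebra ℂ E :=
    { carrier := {t | t ∈ S ∧ a * t = t ∧ t * a = t}
      add_mem' := fun {x y} hx hy => ⟨add_mem hx.1 hy.1, by rw [mul_add, hx.2.1, hy.2.1],
        by rw [add_mul, hx.2.2, hy.2.2]⟩
      zero_mem' := ⟨zero_mem _, mul_zero _, zero_mul _⟩
      mul_mem' := fun {x y} hx hy => ⟨mul_mem hx.1 hy.1, by rw [← mul_assoc, hx.2.1],
        by rw [mul_assoc, hy.2.2]⟩
      smul_mem' := fun c x hx => ⟨SMulMemClass.smul_mem _ hx.1, by rw [mul_smul_comm, hx.2.1],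
        by rw [smul_mul_assoc, hx.2.2]⟩
      star_mem' := fun {x} hx => ⟨star_mem hx.1,
        by rw [← ha.isSelfAdjoint.star_eq, ← star_mul, hx.2.2],
        by rw [← ha.isSelfAdjoint.star_eq, ← star_mul, hx.2.1]⟩ }
  obtain ⟨F, hF, h2, h3⟩ := minfam (S := T) (hS.mono fun x hx => hx.1)
  refine ⟨F, fun s hs => ?_, hF.2, ?_⟩
  · obtain ⟨⟨s1, s2, s3⟩, s4, s5⟩ := hF.1 s hs
    refine ⟨⟨s1, s4, s5, fun t ht => ?_⟩, s2⟩
    obtain ⟨c, hc⟩ := h2 s hs (a * t * a) ⟨mul_mem (mul_mem h1 ht) h1,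
      by rw [← mul_assoc, ← mul_assoc, aa], by rw [mul_assoc, aa]⟩
    exact ⟨c, by rw [← hc, ← mul_assoc, ← mul_assoc, s3, mul_assoc _ a s, s2]⟩
  · rw [← h3 a ⟨h1, aa, aa⟩, Finset.sum_mul]
    exact Finset.sum_congr rfl fun s hs => (hF.1 s hs).1.2.2.symm

/-- A system of matrix units. -/
structure Units' {Z : Type} [Fintype Z] (w : Z → Z → E) (q : E) : Prop where
  st : ∀ x y, star (w x y) = w y x
  mul : ∀ x y z, w x y * w y z = w x z
  orth : ∀ x y y' z, y ≠ y' → w x y * w y' z = 0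
  sum : ∑ x, w x x = q

/-- `q` is the unit of a system of matrix units. -/
def MU (Z : Type) [Fintype Z] (q : E) : Prop := ∃ w : Z → Z → E, Units' w q

variable {Z : Type} [Fintype Z]

theorem Units'.right {w : Z → Z → E} {q : E} (h : Units' w q) (x y : Z) : w x y * q = w x y := by
  rw [← h.sum, Finset.mul_sum, Finset.sum_eq_single y (fun z _ hz => h.orth _ _ _ _ hz.symm)
    (by simp), h.mul]

theorem Units'.left {w : Z → Z → E} {q : E} (h : Units' w q) (x y : Z) : q * w x y = w x y := by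
  rw [← h.sum, Finset.sum_mul, Finset.sum_eq_single x (fun z _ hz => h.orth _ _ _ _ hz)
    (by simp), h.mul]

theorem Units'.proj {w : Z → Z → E} {q : E} (h : Units' w q) : IsStarProjection q := by
  refine ⟨?_, h.sum ▸ isSelfAdjoint_sum _ fun x _ => h.st x x⟩
  rw [IsIdempotentElem]
  nth_rewrite 1 [← h.sum]
  rw [Finset.sum_mul, Finset.sum_congr rfl fun x _ => h.right x x, h.sum]

theorem MU.zero : MU Z (0 : E) :=
  ⟨fun _ _ => 0, fun _ _ => star_zero _, fun _ _ _ => mul_zero _, fun _ _ _ _ _ => mul_zero _,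
    Finset.sum_const_zero⟩

theorem MU.add {q q' : E} (h : MU Z q) (h' : MU Z q') (o : q * q' = 0) : MU Z (q + q') := by
  obtain ⟨w, h⟩ := h
  obtain ⟨w', h'⟩ := h'
  have o' := orth_symm h.proj h'.proj o
  have e1 : ∀ x y z t, w x y * w' z t = 0 := fun x y z t => by
    rw [← h.right, ← h'.left, mul_assoc, ← mul_assoc q, o, zero_mul, mul_zero]
  have e2 : ∀ x y z t, w' x y * w z t = 0 := fun x y z t => by
    rw [← h'.right, ← h.left, mul_assoc, ← mul_assoc q', o', zero_mul, mul_zero]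
  refine ⟨fun x y => w x y + w' x y, fun x y => ?_, fun x y z => ?_, fun x y y' z hy => ?_, ?_⟩
  · rw [star_add, h.st, h'.st]
  · rw [add_mul, mul_add, mul_add, e1, e2, h.mul, h'.mul, add_zero, zero_add]
  · rw [add_mul, mul_add, mul_add, e1, e2, h.orth _ _ _ _ hy, h'.orth _ _ _ _ hy]; simp
  · rw [Finset.sum_add_distrib, h.sum, h'.sum]

theorem MU.basic {T : Finset E} {s0 : E} (h0 : IsStarProjection s0)
    (hc : T.card = Fintype.card Z) (h1 : ∀ s ∈ T, Eqv S s s0)
    (h2 : ∀ s ∈ T, ∀ s' ∈ T, s ≠ s' → s * s' = 0) : MU Z (∑ s ∈ T, s) := by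
  obtain ⟨σ⟩ : Nonempty (Z ≃ T) := ⟨Fintype.equivOfCardEq (by rw [Fintype.card_coe, hc])⟩
  choose v _ v2 v3 using fun z : Z => h1 (σ z) (σ z).2
  refine ⟨fun x y => v x * star (v y), fun x y => ?_, fun x y z => ?_, fun x y y' z hy => ?_, ?_⟩
  · rw [star_mul, star_star]
  · rw [mul_assoc, ← mul_assoc (star (v y)), v2, ← mul_assoc, iso_right h0 (v2 x)]
  · have l1 := iso_left h0 (v2 y') (v3 y')
    have l2 : star (v y) * (σ y : E) = star (v y) := by
      have := congrArg star (iso_left h0 (v2 y) (v3 y))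
      rwa [star_mul, ← v3 y, (IsSelfAdjoint.mul_star_self (v y)).star_eq, v3 y] at this
    rw [mul_assoc, ← mul_assoc (star (v y)), ← l1, ← l2, mul_assoc (star (v y)),
      ← mul_assoc (σ y : E), h2 _ (σ y).2 _ (σ y').2 fun h => hy (σ.injective (Subtype.ext h))]
    simp
  · simp only [v3]
    rw [← Finset.sum_coe_sort T fun s => s]
    exact σ.sum_comp fun s => (s : E)

/-- The class of a projection. -/
def cl (S : NonUnitalStarSubalgebra ℂ E) (s : E) : Set E := {s' | Eqv S s s'}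

theorem cl_eq {p q : E} (hp : IsStarProjection p) (hq : IsStarProjection q) (h : Eqv S p q) :
    cl S p = cl S q :=
  Set.ext fun _ => ⟨fun h' => h.symm.trans hp h', fun h' => h.trans hq h'⟩

theorem eqv_of_cl {p q : E} (h1 : q ∈ S) (hq : IsStarProjection q) (h : cl S p = cl S q) :
    Eqv S p q := by
  have : q ∈ cl S q := Eqv.refl h1 hq
  rwa [← h] at this

open Classical in
theorem MU.all [Nonempty Z] (W : Finset E) (hW : Good S W)
    (hc : ∀ s ∈ W, Fintype.card Z ∣ (W.filter fun x => cl S x = cl S s).card) :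
    MU Z (∑ s ∈ W, s) := by
  induction W using Finset.strongInduction with
  | H W ih =>
    rcases W.eq_empty_or_nonempty with rfl | ⟨s, hs⟩
    · exact MU.zero
    have pos : 0 < (W.filter fun x => cl S x = cl S s).card :=
      Finset.card_pos.2 ⟨s, Finset.mem_filter.2 ⟨hs, rfl⟩⟩
    obtain ⟨T, hT, hT'⟩ := Finset.exists_subset_card_eq (Nat.le_of_dvd pos (hc s hs))
    have hTW : T ⊆ W := hT.trans (Finset.filter_subset _ _)
    have sub : W \ T ⊆ W := Finset.sdiff_subset
    rw [← Finset.sum_sdiff hTW]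
    refine MU.add (ih (W \ T) (Finset.sdiff_ssubset hTW
      (Finset.card_pos.1 (hT' ▸ Fintype.card_pos)))
      ⟨fun x hx => hW.1 x (sub hx), fun x hx y hy => hW.2 x (sub hx) y (sub hy)⟩ fun x hx => ?_)
      (MU.basic (S := S) (hW.1 s hs).2.1 hT' (fun x hx => eqv_of_cl (hW.1 s hs).1 (hW.1 s hs).2.1
        (Finset.mem_filter.1 (hT hx)).2) fun x hx y hy => hW.2 x (hTW hx) y (hTW hy)) ?_
    · by_cases h : cl S x = cl S s
      · have : ((W \ T).filter fun y => cl S y = cl S x) =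
            (W.filter fun y => cl S y = cl S s) \ T := by
          ext y; simp only [Finset.mem_filter, Finset.mem_sdiff, h]; tauto
        rw [this, Finset.card_sdiff_of_subset hT, hT']
        exact Nat.dvd_sub (hc s hs) dvd_rfl
      · have : ((W \ T).filter fun y => cl S y = cl S x) = W.filter fun y => cl S y = cl S x := by
          ext y
          simp only [Finset.mem_filter, Finset.mem_sdiff]
          exact ⟨fun h' => ⟨h'.1.1, h'.2⟩, fun h' => ⟨⟨h'.1, fun hy =>
            h (h'.2.symm.trans (Finset.mem_filter.1 (hT hy)).2)⟩, h'.2⟩⟩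
        rw [this]; exact hc x (sub hx)
    · rw [Finset.sum_mul_sum]
      refine Finset.sum_eq_zero fun x hx => Finset.sum_eq_zero fun y hy =>
        hW.2 x (sub hx) y (hTW hy) ?_
      rintro rfl
      exact (Finset.mem_sdiff.1 hx).2 hy

open Classical in
theorem pick {α β : Type} (f : α → β) {c : ℕ} (hc : 0 < c) (F K G : Finset α) (hFK : F ⊆ K)
    (hd : Disjoint F G) (hG : ∀ s ∈ K, c ≤ (G.filter fun x => f x = f s).card) :
    ∃ W, F ⊆ W ∧ W ⊆ F ∪ G ∧ (∀ s ∈ W, c ∣ (W.filter fun x => f x = f s).card) ∧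
      ∀ s ∈ K, ∃ g ∈ W, f g = f s := by
  have : ∀ b : β, ∃ T : Finset α, b ∈ K.image f → T ⊆ G.filter (fun x => f x = b) ∧
      T.card = c - (F.filter fun x => f x = b).card % c := fun b => by
    by_cases hb : b ∈ K.image f
    · obtain ⟨s, hs, rfl⟩ := Finset.mem_image.1 hb
      obtain ⟨T, hT⟩ := Finset.exists_subset_card_eq
        ((Nat.sub_le c ((F.filter fun x => f x = f s).card % c)).trans (hG s hs))
      exact ⟨T, fun _ => hT⟩
    · exact ⟨∅, fun h => absurd h hb⟩
  choose T hT using this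
  have k : ∀ b ∈ K.image f, ∀ x ∈ T b, x ∈ G ∧ f x = b := fun b hb x hx =>
    Finset.mem_filter.1 ((hT b hb).1 hx)
  refine ⟨F ∪ (K.image f).biUnion T, Finset.subset_union_left, Finset.union_subset_union_right
    (Finset.biUnion_subset.2 fun b hb x hx => (k b hb x hx).1), fun s hs => ?_, fun s hs => ?_⟩
  · have hb : f s ∈ K.image f := by
      rcases Finset.mem_union.1 hs with h | h
      · exact Finset.mem_image_of_mem f (hFK h)
      · obtain ⟨b, hb, hx⟩ := Finset.mem_biUnion.1 h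
        rw [(k b hb s hx).2]; exact hb
    have : ((F ∪ (K.image f).biUnion T).filter fun x => f x = f s) =
        (F.filter fun x => f x = f s) ∪ T (f s) := by
      ext y
      simp only [Finset.mem_filter, Finset.mem_union, Finset.mem_biUnion]
      constructor
      · rintro ⟨h | ⟨b, hb', hy⟩, h'⟩
        · exact Or.inl ⟨h, h'⟩
        · rw [← h', (k b hb' y hy).2]; exact Or.inr hy
      · rintro (h | h)
        · exact ⟨Or.inl h.1, h.2⟩
        · exact ⟨Or.inr ⟨_, hb, h⟩, (k _ hb y h).2⟩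
    rw [this, Finset.card_union_of_disjoint (Finset.disjoint_of_subset_left
      (Finset.filter_subset _ _) (Finset.disjoint_of_subset_right
        (fun x hx => (k _ hb x hx).1) hd)), (hT _ hb).2]
    generalize (F.filter fun x => f x = f s).card = n
    have h1 := Nat.mod_lt n hc
    have h2 := Nat.div_add_mod n c
    exact ⟨n / c + 1, by rw [mul_add, mul_one]; omega⟩
  · have hb := Finset.mem_image_of_mem f hs
    obtain ⟨g, hg⟩ : (T (f s)).Nonempty := Finset.card_pos.1 (by
      rw [(hT _ hb).2]; exact Nat.sub_pos_of_lt (Nat.mod_lt _ hc))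
    exact ⟨g, Finset.mem_union_right _ (Finset.mem_biUnion.2 ⟨_, hb, hg⟩), (k _ hb g hg).2⟩

end Pool.Agent.H75.AF
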