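import Pool.Agent.H75.AF4
import Pool.Agent.H75.AF2

/-! Matrix coefficients and the inductive step. -/

set_option autoImplicit false

namespace Pool.Agent.H75.AF

section
variable {C : Type} [CStarAlgebra C] {T : NonUnitalStarSubalgebra ℂ C}

/-- Matrix coefficients of a faithful unital representation. -/
structure Coef (T : NonUnitalStarSubalgebra ℂ C) {Z : Type} [Fintype Z]
    (κ : Z → Z → C →ₗ[ℂ] ℂ) : Prop where
  st : ∀ t ∈ T, ∀ x y, κ x y (star t) = star (κ y x t)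
  mul : ∀ t ∈ T, ∀ t' ∈ T, ∀ x z, κ x z (t * t') = ∑ y, κ x y t * κ y z t'
  one : ∀ x, κ x x 1 = 1
  one' : ∀ x y, x ≠ y → κ x y 1 = 0
  inj : ∀ t ∈ T, (∀ x y, κ x y t = 0) → t = 0

theorem rep [Nontrivial C] (hT : FD (T : Set C)) (h1 : (1 : C) ∈ T) :
    ∃ (Z : Type) (_ : Fintype Z) (_ : Nonempty Z) (κ : Z → Z → C →ₗ[ℂ] ℂ), Coef T κ := by
  obtain ⟨F, hF, ho, hs⟩ := minunder hT h1 (IsStarProjection.one C)
  have ex : ∀ b : Set C, ∃ r : C, (∃ s ∈ F, cl T s = b) → r ∈ F ∧ cl T r = b := fun b => by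
    by_cases h : ∃ s ∈ F, cl T s = b
    · obtain ⟨s, h⟩ := h; exact ⟨s, fun _ => h⟩
    · exact ⟨0, fun h' => absurd h' h⟩
  choose R hR using ex
  obtain ⟨r, hr⟩ : ∃ r : F → C, ∀ s, r s = R (cl T s) := ⟨_, fun _ => rfl⟩
  have r1 : ∀ s : F, r s ∈ F ∧ cl T (r s) = cl T s := fun s => hr s ▸ hR _ ⟨s, s.2, rfl⟩
  have rm : ∀ s : F, Min T (r s) := fun s => (hF _ (r1 s).1).1
  have sm : ∀ s : F, Min T s := fun s => (hF _ s.2).1
  choose y y1 y2 y3 using fun s : F => eqv_of_cl (rm s).1 (rm s).2.1 (r1 s).2.symm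
  choose g hg using fun s : F => Module.Projective.exists_dual_eq_one ℂ (rm s).2.2.1
  have yl : ∀ s : F, (s : C) * y s = y s := fun s => iso_left (rm s).2.1 (y2 s) (y3 s)
  have yr : ∀ s, y s * r s = y s := fun s => iso_right (rm s).2.1 (y2 s)
  have yl' : ∀ s : F, star (y s) * (s : C) = star (y s) := fun s => by
    have := congrArg star (yl s)
    rwa [star_mul, (sm s).2.1.isSelfAdjoint.star_eq] at this
  have yr' : ∀ s, r s * star (y s) = star (y s) := fun s => by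
    have := congrArg star (yr s)
    rwa [star_mul, (rm s).2.1.isSelfAdjoint.star_eq] at this
  obtain ⟨κ, hκ⟩ : ∃ κ : F → F → C →ₗ[ℂ] ℂ, ∀ a b t, κ a b t = g a (star (y a) * t * y b) :=
    ⟨fun a b => g a ∘ₗ LinearMap.mulRight ℂ (y b) ∘ₗ LinearMap.mulLeft ℂ (star (y a)),
      fun _ _ _ => rfl⟩
  have z0 : ∀ a b : F, r a ≠ r b → ∀ t ∈ T, star (y a) * t * y b = 0 := fun a b hab t ht => by
    have : (a : C) * t * b = 0 := by
      by_contra h
      exact hab (by rw [hr, hr, cl_eq (sm a).2.1 (sm b).2.1 ((sm a).eqv (sm b) ht h)])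
    rw [← yl b, ← yl' a, mul_assoc _ _ t, mul_assoc (star (y a)), ← mul_assoc _ (b : C), this,
      zero_mul, mul_zero]
  have z1 : ∀ a b : F, r a ≠ r b → ∀ t ∈ T, κ a b t = 0 := fun a b hab t ht => by
    rw [hκ, z0 a b hab t ht, map_zero]
  have ch : ∀ a b : F, ∀ t ∈ T, star (y a) * t * y b = κ a b t • r a := fun a b t ht => by
    by_cases hab : r a = r b
    · obtain ⟨c, hc⟩ := (rm a).2.2.2 _ (mul_mem (mul_mem (star_mem (y1 a)) ht) (y1 b))
      rw [← mul_assoc, ← mul_assoc, yr', mul_assoc _ (y b), hab, yr, ← hab] at hc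
      rw [hκ, hc, map_smul, hg, smul_eq_mul, mul_one]
    · rw [z1 a b hab t ht, z0 a b hab t ht, zero_smul]
  have can : ∀ (a : F) (c d : ℂ), c • r a = d • r a → c = d := fun a c d h =>
    smul_left_injective ℂ (rm a).2.2.1 h
  have s1 : ∑ a : F, y a * star (y a) = 1 := by
    simp only [y3]; rw [Finset.sum_coe_sort F fun s => s, hs]
  refine ⟨F, inferInstance, ?_, κ, fun t ht a b => ?_, fun t ht t' ht' a b => can a _ _ ?_,
    fun a => can a _ _ ?_, fun a b hab => can a _ _ ?_, fun t ht h => ?_⟩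
  · rcases F.eq_empty_or_nonempty with rfl | ⟨s, h⟩
    · exact absurd hs (by simp)
    · exact ⟨⟨s, h⟩⟩
  · by_cases hab : r a = r b
    · refine can a _ _ ?_
      rw [← ch a b _ (star_mem ht), hab, ← (rm b).2.1.isSelfAdjoint.star_eq, ← star_smul,
        ← ch b a t ht, star_mul, star_mul, star_star, mul_assoc]
    · rw [z1 a b hab _ (star_mem ht), z1 b a (Ne.symm hab) t ht, star_zero]
  · rw [← ch a b _ (mul_mem ht ht'), Finset.sum_smul]
    nth_rewrite 1 [← one_mul t']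
    rw [← s1, Finset.sum_mul, Finset.mul_sum, Finset.mul_sum, Finset.sum_mul]
    refine Finset.sum_congr rfl fun c _ => ?_
    have : star (y a) * (t * (y c * star (y c) * t')) * y b =
        (star (y a) * t * y c) * (star (y c) * t' * y b) := by simp only [mul_assoc]
    rw [this, ch a c t ht, ch c b t' ht', smul_mul_smul_comm]
    by_cases hac : r a = r c
    · rw [← hac, (rm a).2.1.isIdempotentElem.eq]
    · rw [z1 a c hac t ht, zero_mul, zero_smul, zero_smul]
  · rw [← ch a a 1 h1, mul_one, y2, one_smul]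
  · rw [← ch a b 1 h1, mul_one, zero_smul, ← yl b, ← yl' a, mul_assoc, ← mul_assoc (a : C),
      ho _ a.2 _ b.2 fun h => hab (Subtype.ext h), zero_mul, mul_zero]
  · rw [← one_mul t, ← mul_one (1 * t), ← s1, Finset.sum_mul, Finset.sum_mul_sum]
    refine Finset.sum_eq_zero fun a _ => Finset.sum_eq_zero fun b _ => ?_
    have : y a * star (y a) * t * (y b * star (y b)) =
        y a * (star (y a) * t * y b) * star (y b) := by simp only [mul_assoc]
    rw [this, ch a b t ht, h, zero_smul, mul_zero, zero_mul]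

variable {A : Type} [NonUnitalCStarAlgebra A]

/-- A linear map which is a star homomorphism on `T`. -/
structure Hom (T : NonUnitalStarSubalgebra ℂ C) (φ : C →ₗ[ℂ] A) : Prop where
  st : ∀ t ∈ T, φ (star t) = star (φ t)
  mul : ∀ t ∈ T, ∀ t' ∈ T, φ (t * t') = φ t * φ t'

theorem hom_of {Z : Type} [Fintype Z] {κ : Z → Z → C →ₗ[ℂ] ℂ} (hκ : Coef T κ) {q : A}
    (hq : MU Z q) : ∃ φ : C →ₗ[ℂ] A, Hom T φ ∧ φ 1 = q ∧
      ∀ J : TwoSidedIdeal A, ∀ t ∈ T, t ≠ 0 → φ t ∈ J → q ∈ J := by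
  obtain ⟨w, hw⟩ := hq
  obtain ⟨φ, hφ⟩ : ∃ φ : C →ₗ[ℂ] A, ∀ t, φ t = ∑ x, ∑ y, κ x y t • w x y :=
    ⟨∑ x, ∑ y, (κ x y).smulRight (w x y), fun t => by
      simp only [LinearMap.sum_apply, LinearMap.smulRight_apply]⟩
  have l : ∀ x y t, w x y * φ t = ∑ z, κ y z t • w x z := fun x y t => by
    rw [hφ, Finset.mul_sum, Finset.sum_eq_single y (fun z _ hz => by
      rw [Finset.mul_sum]
      exact Finset.sum_eq_zero fun u _ => by rw [mul_smul_comm, hw.orth _ _ _ _ hz.symm, smul_zero])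
      (by simp), Finset.mul_sum]
    exact Finset.sum_congr rfl fun z _ => by rw [mul_smul_comm, hw.mul]
  refine ⟨φ, ⟨fun t ht => ?_, fun t ht t' ht' => ?_⟩, ?_, fun J t ht t0 hJ => ?_⟩
  · rw [hφ, hφ, star_sum, Finset.sum_comm]
    refine Finset.sum_congr rfl fun x _ => ?_
    rw [star_sum]
    exact Finset.sum_congr rfl fun y _ => by rw [star_smul, hw.st, hκ.st t ht]
  · rw [hφ, hφ t, Finset.sum_mul]
    refine Finset.sum_congr rfl fun x _ => ?_
    simp only [hκ.mul t ht t' ht', Finset.sum_mul, smul_mul_assoc, l, Finset.smul_sum,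
      Finset.sum_smul, smul_smul]
    exact Finset.sum_comm
  · rw [hφ, ← hw.sum]
    refine Finset.sum_congr rfl fun x _ => ?_
    rw [Finset.sum_eq_single x (fun y _ hy => by rw [hκ.one' _ _ hy.symm, zero_smul]) (by simp),
      hκ.one, one_smul]
  · obtain ⟨x, y, h⟩ : ∃ x y, κ x y t ≠ 0 := by
      by_contra h; push Not at h; exact t0 (hκ.inj t ht h)
    rw [← hw.sum]
    refine sum_mem fun a _ => ?_
    have := J.mul_mem_right _ ((κ x y t)⁻¹ • w y a) (J.mul_mem_left (w a x) _ hJ)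
    rwa [l, Finset.sum_mul, Finset.sum_eq_single y (fun z _ hz => by
      rw [smul_mul_smul_comm, hw.orth _ _ _ _ hz, smul_zero]) (by simp), smul_mul_smul_comm,
      mul_inv_cancel₀ h, one_smul, hw.mul] at this

theorem Hom.norm_le {φ : C →ₗ[ℂ] A} (h : Hom T φ) (hT : FD (T : Set C)) {t : C} (ht : t ∈ T) :
    ‖φ t‖ ≤ ‖t‖ := by
  have := hT.closed
  let ψ : T →⋆ₙₐ[ℂ] A :=
    { toFun := fun t => φ t
      map_smul' := fun c t => map_smul φ c (t : C)
      map_zero' := map_zero φ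
      map_add' := fun s t => map_add φ (s : C) (t : C)
      map_mul' := fun s t => h.mul _ s.2 _ t.2
      map_star' := fun t => h.st _ t.2 }
  exact NonUnitalStarAlgHom.norm_apply_le ψ ⟨t, ht⟩

end

section
variable {A : Type} [NonUnitalCStarAlgebra A]

theorem stepA (S : ℕ → NonUnitalStarSubalgebra ℂ A) (hm : Monotone S) (hS : ∀ n, FD (S n : Set A))
    (hk : ∀ u : A, ∃ j, ∀ e : A, u * e = e → (∀ t ∈ S j, u * (t * e) = t * e) → e = 0)
    (Z : Type) [Fintype Z] [Nonempty Z] (m : ℕ) {p : A} (p1 : p ∈ S m) (hp : IsStarProjection p) :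
    ∃ j q, q ∈ S j ∧ p * q = 0 ∧ MU Z q ∧ (∀ t ∈ S m, (p + q) * t = t) ∧
      ∀ J : TwoSidedIdeal A, q ∈ J → ∀ t ∈ S m, t ∈ J := by
  classical
  choose u u1 u2 u3 using fun n => unit (hS n)
  choose nx hnx using fun n => hk (u n)
  obtain ⟨ns, ns0, ns1⟩ : ∃ ns : ℕ → ℕ, ns 0 = m ∧ ∀ k, ns (k + 1) = max (ns k) (nx (ns k)) :=
    ⟨fun k => Nat.rec m (fun _ a => max a (nx a)) k, rfl, fun _ => rfl⟩
  have mono : Monotone ns := monotone_nat_of_le_succ fun k => by rw [ns1]; exact le_max_left _ _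
  obtain ⟨c, hc⟩ : ∃ c, c = Fintype.card Z := ⟨_, rfl⟩
  obtain ⟨P, P0, P1, P2⟩ : ∃ P : ℕ → A, P 0 = 0 ∧ P 1 = p ∧ ∀ k, P (k + 2) = u (ns k) :=
    ⟨fun k => match k with | 0 => 0 | 1 => p | k + 2 => u (ns k), rfl, rfl, fun _ => rfl⟩
  have Pp : ∀ k, IsStarProjection (P k) ∧ P k ∈ S (ns (k - 2)) := fun k =>
    match k with
    | 0 => by rw [P0]; exact ⟨IsStarProjection.zero A, zero_mem _⟩
    | 1 => by rw [P1]; exact ⟨hp, ns0 ▸ p1⟩
    | k + 2 => by rw [P2]; exact ⟨u2 _, u1 _⟩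
  have Pl : ∀ k l, k ≤ l → P l * P k = P k := fun k l h =>
    match l with
    | 0 => by rw [Nat.le_zero.1 h, P0, mul_zero]
    | 1 => by
      rcases Nat.le_one_iff_eq_zero_or_eq_one.1 h with rfl | rfl
      exacts [by rw [P0, mul_zero], (Pp 1).1.isIdempotentElem.eq]
    | l + 2 => by rw [P2]; exact u3 _ _ (hm (mono (by omega)) (Pp k).2)
  have Pr : ∀ k l, k ≤ l → P k * P l = P k := fun k l h =>
    swap (Pp l).1.isSelfAdjoint (Pp k).1.isSelfAdjoint (Pl k l h)
  obtain ⟨a, ha⟩ : ∃ a : ℕ → A, ∀ k, a k = P (k + 1) - P k := ⟨_, fun _ => rfl⟩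
  have ap : ∀ k, IsStarProjection (a k) := fun k =>
    ha k ▸ (Pp k).1.sub_of_mul_eq_right (Pp _).1 (Pl _ _ (Nat.le_succ k))
  have ao : ∀ k l, k ≠ l → a k * a l = 0 := by
    have : ∀ k l, k < l → a k * a l = 0 := fun k l h => by
      rw [ha, ha, sub_mul, mul_sub, mul_sub, Pr _ _ (by omega), Pr _ _ (by omega),
        Pr _ _ (by omega), Pr _ _ (by omega), sub_self, sub_self, sub_self]
    intro k l h
    rcases lt_or_gt_of_ne h with h | h
    exacts [this k l h, orth_symm (ap l) (ap k) (this l k h)]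
  obtain ⟨R, hR⟩ : ∃ R, R = S (ns c) := ⟨_, rfl⟩
  have ex : ∀ k, ∃ F : Finset A, (∀ s ∈ F, Min R s ∧ a k * s = s) ∧
      (∀ s ∈ F, ∀ s' ∈ F, s ≠ s' → s * s' = 0) ∧ (k < c + 2 → ∑ s ∈ F, s = a k) := fun k => by
    by_cases h : k < c + 2
    · obtain ⟨F, h1, h2, h3⟩ := minunder (hS (ns c)) (a := a k) (by
        rw [ha]
        exact sub_mem (hm (mono (by omega)) (Pp _).2) (hm (mono (by omega)) (Pp _).2)) (ap k)
      exact ⟨F, hR ▸ h1, h2, fun _ => h3⟩
    · exact ⟨∅, by simp, by simp, fun h' => absurd h' h⟩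
  choose F F1 F2 F3 using ex
  have Fo : ∀ k l, k ≠ l → ∀ s ∈ F k, ∀ s' ∈ F l, s * s' = 0 := fun k l h s hs s' hs' => by
    rw [← (F1 l s' hs').2, ← swap (ap k).isSelfAdjoint (F1 k s hs).1.2.1.isSelfAdjoint
      (F1 k s hs).2, mul_assoc, ← mul_assoc (a k), ao k l h, zero_mul, mul_zero]
  have Fd : ∀ k l s, s ∈ F k → s ∈ F l → k = l := fun k l s hs hs' => by
    by_contra h
    exact (F1 k s hs).1.2.2.1 ((F1 k s hs).1.2.1.isIdempotentElem.eq.symm.trans
      (Fo k l h s hs s hs'))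
  have su : ∑ s ∈ F 0, s + ∑ s ∈ F 1, s = u m := by
    rw [F3 0 (by omega), F3 1 (by omega), ha, ha, P0, P2, ns0, sub_zero, add_sub_cancel]
  have Km : ∀ s ∈ F 0 ∪ F 1, Min R s ∧ u m * s = s := fun s hs => by
    have e : u m = P 2 := by rw [P2, ns0]
    rcases Finset.mem_union.1 hs with h | h
    all_goals
      refine ⟨(F1 _ s h).1, ?_⟩
      rw [← (F1 _ s h).2, ← mul_assoc, e, ha, mul_sub, Pl _ _ (by omega), Pl _ _ (by omega)]
  obtain ⟨W, W1, W2, W3, W4⟩ := pick (cl R) (c := c) (hc ▸ Fintype.card_pos) (F 1) (F 0 ∪ F 1)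
    ((Finset.range c).biUnion fun k => F (k + 2)) Finset.subset_union_right
    (Finset.disjoint_left.2 fun s hs hs' => by
      obtain ⟨k, -, hk⟩ := Finset.mem_biUnion.1 hs'
      have := Fd _ _ s hs hk
      omega) (fun s hs => by
      have ex : ∀ k, ∃ g, k < c → g ∈ F (k + 2) ∧ cl R g = cl R s := fun k => by
        by_cases h : k < c
        · by_contra hn
          push Not at hn
          refine (Km s hs).1.2.2.1 (hnx (ns k) s ?_ fun t ht => ?_)
          · rw [← (Km s hs).2, ← mul_assoc, u3 _ _ (hm (ns0 ▸ mono (Nat.zero_le k)) (u1 m))]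
          · have t1 : t ∈ S (ns (k + 1)) := hm (by rw [ns1]; exact le_max_right _ _) ht
            have t2 : t ∈ R := hR ▸ hm (mono h) t1
            have : a (k + 2) * t * s = 0 := by
              rw [← F3 _ (by omega), Finset.sum_mul, Finset.sum_mul]
              refine Finset.sum_eq_zero fun g hg => ?_
              by_contra h0
              exact (hn g).2 hg (cl_eq (F1 _ g hg).1.2.1 (Km s hs).1.2.1
                ((F1 _ g hg).1.eqv (Km s hs).1 t2 h0))
            rw [ha, P2 (k + 1), P2, sub_mul, u3 _ t t1, sub_mul, sub_eq_zero, mul_assoc] at this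
            exact this.symm
        · exact ⟨0, fun h' => absurd h' h⟩
      choose g hg using ex
      rw [← Finset.card_range c]
      refine Finset.card_le_card_of_injOn g (fun k hk => ?_) fun k hk l hl hkl => ?_
      · have hk' := Finset.mem_range.1 (Finset.mem_coe.1 hk)
        rw [Finset.card_range]
        exact Finset.mem_coe.2 (Finset.mem_filter.2
          ⟨Finset.mem_biUnion.2 ⟨k, Finset.mem_coe.1 hk, (hg k hk').1⟩, (hg k hk').2⟩)
      · have := Fd _ _ _ (hg k (Finset.mem_range.1 (Finset.mem_coe.1 hk))).1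
          (hkl ▸ (hg l (Finset.mem_range.1 (Finset.mem_coe.1 hl))).1)
        omega)
  have Wk : ∀ s ∈ W, ∃ k, k ≠ 0 ∧ s ∈ F k := fun s hs => by
    rcases Finset.mem_union.1 (W2 hs) with h | h
    · exact ⟨1, one_ne_zero, h⟩
    · obtain ⟨k, -, hk⟩ := Finset.mem_biUnion.1 h
      exact ⟨k + 2, by omega, hk⟩
  have Wg : Good R W := by
    refine ⟨fun s hs => ?_, fun s hs s' hs' hne => ?_⟩
    · obtain ⟨k, -, h⟩ := Wk s hs
      exact ⟨(F1 k s h).1.1, (F1 k s h).1.2.1, (F1 k s h).1.2.2.1⟩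
    · obtain ⟨k, -, h⟩ := Wk s hs
      obtain ⟨l, -, h'⟩ := Wk s' hs'
      by_cases hkl : k = l
      · subst hkl; exact F2 k s h s' h' hne
      · exact Fo k l hkl s h s' h'
  have e0 : p = ∑ s ∈ F 0, s := by rw [F3 0 (by omega), ha, P0, P1, sub_zero]
  have pq : p * ∑ s ∈ W, s = 0 := by
    rw [e0, Finset.sum_mul_sum]
    refine Finset.sum_eq_zero fun s hs => Finset.sum_eq_zero fun s' hs' => ?_
    obtain ⟨k, k0, h⟩ := Wk s' hs'
    exact Fo 0 k k0.symm s hs s' h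
  have mu : MU Z (∑ s ∈ W, s) := MU.all W Wg fun s hs => by
    rw [← hc]; convert W3 s hs
  obtain ⟨w, hw⟩ := id mu
  refine ⟨ns c, ∑ s ∈ W, s, hR ▸ sum_mem fun s hs => (Wg.1 s hs).1, pq, mu, fun t ht => ?_,
    fun J hJ t ht => ?_⟩
  · have : (p + ∑ s ∈ W, s) * u m = u m := by
      rw [← su, ← e0, mul_add, add_mul, add_mul, hp.isIdempotentElem.eq,
        orth_symm hp hw.proj pq, add_zero, Finset.mul_sum, Finset.mul_sum,
        ← Finset.sum_add_distrib]
      congr 1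
      refine Finset.sum_congr rfl fun s hs => ?_
      rw [e0, Finset.sum_mul,
        Finset.sum_eq_zero fun s' hs' => Fo 0 1 zero_ne_one s' hs' s hs, zero_add]
      have := congrArg star (Wg.mul_sum (W1 hs))
      rwa [star_mul, hw.proj.isSelfAdjoint.star_eq, (F1 _ s hs).1.2.1.isSelfAdjoint.star_eq]
        at this
    rw [← u3 m t ht, ← mul_assoc, this]
  · have : ∀ s ∈ F 0 ∪ F 1, s ∈ J := fun s hs => by
      obtain ⟨g, hg, h⟩ := W4 s hs
      obtain ⟨v, -, v2, v3⟩ := eqv_of_cl (Km s hs).1.1 (Km s hs).1.2.1 h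
      have g1 : g ∈ J := Wg.mul_sum hg ▸ J.mul_mem_left _ _ hJ
      rw [← v2, ← iso_left (Km s hs).1.2.1 v2 v3]
      exact J.mul_mem_left _ _ (J.mul_mem_right _ _ g1)
    rw [← u3 m t ht, ← su]
    exact J.mul_mem_right _ _ (add_mem (sum_mem fun s hs => this s (Finset.mem_union_left _ hs))
      (sum_mem fun s hs => this s (Finset.mem_union_right _ hs)))

end

end Pool.Agent.H75.AF
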