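import Pool.Agent.H75.AF5

/-! The multiplier algebra and the recursive construction. -/

set_option autoImplicit false

namespace Pool.Agent.H75.AF

open Filter Topology

variable {A : Type} [NonUnitalCStarAlgebra A]

theorem lim_clm (F : ℕ → A →L[ℂ] A) (K : ℝ) (hK : 0 ≤ K) (hF : ∀ N a, ‖F N a‖ ≤ K * ‖a‖)
    (h : ∀ a, ∃ l, Tendsto (fun N => F N a) atTop (𝓝 l)) :
    ∃ L : A →L[ℂ] A, ‖L‖ ≤ K ∧ ∀ a, Tendsto (fun N => F N a) atTop (𝓝 (L a)) := by
  choose L hL using h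
  refine ⟨continuousLinearMapOfTendsto F (tendsto_pi_nhds.2 hL),
    ContinuousLinearMap.opNorm_le_bound _ hK fun a => ?_, hL⟩
  exact le_of_tendsto' (hL a).norm fun N => hF N a

theorem cont {M : Type} [NonUnitalCStarAlgebra M] (ι : A →⋆ₙₐ[ℂ] M) : Continuous ι :=
  AddMonoidHomClass.continuous_of_bound ι 1 fun a => by
    rw [one_mul]; exact NonUnitalStarAlgHom.norm_apply_le ι a

theorem mult (A : Type) [NonUnitalCStarAlgebra A] :
    ∃ (M : Type) (_ : CStarAlgebra M) (ι : A →⋆ₙₐ[ℂ] M), Function.Injective ι ∧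
      (∀ m a, ∃ a', m * ι a = ι a') ∧ (∀ m, (∀ a, m * ι a = 0) → m = 0) ∧
      ∀ (x : ℕ → A) (K : ℝ), 0 ≤ K → (∀ N, ‖x N‖ ≤ K) →
        (∀ a, ∃ l, Tendsto (fun N => x N * a) atTop (𝓝 l)) →
        (∀ a, ∃ l, Tendsto (fun N => a * x N) atTop (𝓝 l)) →
        ∃ m, ‖m‖ ≤ K ∧ (∀ a, Tendsto (fun N => ι (x N * a)) atTop (𝓝 (m * ι a))) ∧
          ∀ a, Tendsto (fun N => ι (a * x N)) atTop (𝓝 (ι a * m)) := by
  have z : ∀ a : A, (∀ b, a * b = 0) → a = 0 := fun a h =>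
    (CStarRing.mul_star_self_eq_zero_iff a).1 (h _)
  have ext : ∀ m m' : DoubleCentralizer ℂ A, (∀ a, m.fst a = m'.fst a) → m = m' := fun m m' h => by
    rw [← sub_eq_zero, ← norm_eq_zero, ← DoubleCentralizer.norm_fst, norm_eq_zero,
      DoubleCentralizer.sub_fst, sub_eq_zero]
    exact ContinuousLinearMap.ext h
  obtain ⟨ι, hι⟩ : ∃ ι : A →⋆ₙₐ[ℂ] DoubleCentralizer ℂ A, ∀ a b, (ι a).fst b = a * b :=
    ⟨DoubleCentralizer.coeHom, fun _ _ => rfl⟩
  have fm : ∀ (m : DoubleCentralizer ℂ A) a b, m.fst (a * b) = m.fst a * b := fun m a b => by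
    rw [← sub_eq_zero, ← CStarRing.star_mul_self_eq_zero_iff]
    generalize star (m.fst (a * b) - m.fst a * b) = c
    rw [mul_sub, ← m.central, ← mul_assoc c, ← m.central, mul_assoc, sub_self]
  have l : ∀ (m : DoubleCentralizer ℂ A) a, m * ι a = ι (m.fst a) := fun m a => ext _ _ fun b => by
    rw [DoubleCentralizer.mul_fst, mul_apply_eq_comp, hι, hι, fm]
  have r : ∀ (m : DoubleCentralizer ℂ A) a, ι a * m = ι (m.snd a) := fun m a => ext _ _ fun b => by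
    rw [DoubleCentralizer.mul_fst, mul_apply_eq_comp, hι, hι, m.central]
  have inj : Function.Injective ι := (injective_iff_map_eq_zero ι).2 fun a h => z a fun b => by
    rw [← hι, h]; rfl
  refine ⟨DoubleCentralizer ℂ A, inferInstance, ι, inj, fun m a => ⟨_, l m a⟩,
    fun m h => ext _ _ fun a => inj (by rw [← l, h]; exact (map_zero ι).symm),
    fun x K hK hx h1 h2 => ?_⟩
  obtain ⟨L, L1, L2⟩ := lim_clm (fun N => ContinuousLinearMap.mul ℂ A (x N)) K hK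
    (fun N a => (norm_mul_le _ _).trans (mul_le_mul_of_nonneg_right (hx N) (norm_nonneg _))) h1
  obtain ⟨R, R1, R2⟩ := lim_clm (fun N => (ContinuousLinearMap.mul ℂ A).flip (x N)) K hK
    (fun N a => (norm_mul_le _ _).trans ((mul_comm _ _).le.trans
      (mul_le_mul_of_nonneg_right (hx N) (norm_nonneg _)))) h2
  have c : Continuous ι := cont ι
  refine ⟨⟨(L, R), fun a b => tendsto_nhds_unique ((R2 a).mul_const b)
    (((L2 b).const_mul a).congr fun N => (mul_assoc _ _ _).symm)⟩,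
    (DoubleCentralizer.norm_fst _).symm.le.trans L1, fun a => ?_, fun a => ?_⟩
  · rw [l]; exact (c.tendsto _).comp (L2 a)
  · rw [r]; exact (c.tendsto _).comp (R2 a)

variable {C : Type} [CStarAlgebra C]

theorem seq [Nontrivial C] (S : ℕ → NonUnitalStarSubalgebra ℂ A) (hm : Monotone S)
    (hS : ∀ n, FD (S n : Set A))
    (hk : ∀ u : A, ∃ j, ∀ e : A, u * e = e → (∀ t ∈ S j, u * (t * e) = t * e) → e = 0)
    (T : ℕ → NonUnitalStarSubalgebra ℂ C) (hT : ∀ n, FD (T n : Set C)) (h1 : ∀ n, (1 : C) ∈ T n) :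
    ∃ (p : ℕ → A) (φ : ℕ → C →ₗ[ℂ] A), p 0 = 0 ∧ (∀ i, IsStarProjection (p i)) ∧
      (∀ i, Hom (T i) (φ i)) ∧ (∀ i, p (i + 1) = p i + φ i 1) ∧ (∀ i, p i * φ i 1 = 0) ∧
      (∀ i, ∀ t ∈ S i, p (i + 1) * t = t) ∧
      ∀ i, ∀ J : TwoSidedIdeal A, ∀ t ∈ T i, t ≠ 0 → φ i t ∈ J → ∀ s ∈ S i, s ∈ J := by
  have step : ∀ (i : ℕ) (p : {p : A // IsStarProjection p ∧ ∃ m, p ∈ S m}), ∃ φ : C →ₗ[ℂ] A,
      (IsStarProjection (p + φ 1) ∧ ∃ m, p + φ 1 ∈ S m) ∧ Hom (T i) φ ∧ p * φ 1 = 0 ∧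
      (∀ t ∈ S i, (p + φ 1) * t = t) ∧
      ∀ J : TwoSidedIdeal A, ∀ t ∈ T i, t ≠ 0 → φ t ∈ J → ∀ s ∈ S i, s ∈ J := by
    rintro i ⟨p, hp, m, hpm⟩
    obtain ⟨Z, _, _, κ, hκ⟩ := rep (hT i) (h1 i)
    obtain ⟨j, q, q1, q2, q3, q4, q5⟩ := stepA S hm hS hk Z (max m i) (hm (le_max_left _ _) hpm) hp
    obtain ⟨φ, f1, rfl, f3⟩ := hom_of hκ q3
    obtain ⟨w, hw⟩ := q3
    exact ⟨φ, ⟨hp.add hw.proj q2, max m j, add_mem (hm (le_max_left _ _) hpm)
      (hm (le_max_right _ _) q1)⟩, f1, q2, fun t ht => q4 t (hm (le_max_right _ _) ht),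
      fun J t ht t0 hJ s hs => q5 J (f3 J t ht t0 hJ) s (hm (le_max_right _ _) hs)⟩
  choose φ f0 f1 f2 f3 f4 using step
  let p : ℕ → {p : A // IsStarProjection p ∧ ∃ m, p ∈ S m} := fun n =>
    Nat.rec ⟨0, IsStarProjection.zero A, 0, zero_mem _⟩ (fun i p => ⟨p + φ i p 1, f0 i p⟩) n
  exact ⟨fun i => (p i).1, fun i => φ i (p i), rfl, fun i => (p i).2.1, fun i => f1 i (p i),
    fun _ => rfl, fun i => f2 i (p i), fun i => f3 i (p i), fun i => f4 i (p i)⟩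

theorem Hom.mono {T T' : NonUnitalStarSubalgebra ℂ C} {φ : C →ₗ[ℂ] A} (h : Hom T φ)
    (hl : T' ≤ T) : Hom T' φ :=
  ⟨fun t ht => h.st t (hl ht), fun t ht t' ht' => h.mul t (hl ht) t' (hl ht')⟩

theorem bigPhi {M : Type} [CStarAlgebra M] (ι : A →⋆ₙₐ[ℂ] M)
    (idl : ∀ m a, ∃ a', m * ι a = ι a') (ess : ∀ m, (∀ a, m * ι a = 0) → m = 0)
    (str : ∀ (x : ℕ → A) (K : ℝ), 0 ≤ K → (∀ N, ‖x N‖ ≤ K) →
        (∀ a, ∃ l, Tendsto (fun N => x N * a) atTop (𝓝 l)) →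
        (∀ a, ∃ l, Tendsto (fun N => a * x N) atTop (𝓝 l)) →
        ∃ m, ‖m‖ ≤ K ∧ (∀ a, Tendsto (fun N => ι (x N * a)) atTop (𝓝 (m * ι a))) ∧
          ∀ a, Tendsto (fun N => ι (a * x N)) atTop (𝓝 (ι a * m)))
    (T : ℕ → NonUnitalStarSubalgebra ℂ C) (hm : Monotone T) (hT : ∀ n, FD (T n : Set C))
    (h1 : ∀ n, (1 : C) ∈ T n) (p : ℕ → A) (φ : ℕ → C →ₗ[ℂ] A) (p0 : p 0 = 0)
    (pp : ∀ i, IsStarProjection (p i)) (hφ : ∀ i, Hom (T i) (φ i))
    (ps : ∀ i, p (i + 1) = p i + φ i 1) (po : ∀ i, p i * φ i 1 = 0)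
    (pa : ∀ a, Tendsto (fun N => p N * a) atTop (𝓝 a)) :
    ∃ Φ : ℕ → C → M, (∀ n, ∀ t ∈ T n, ‖Φ n t‖ ≤ ‖t‖) ∧
      (∀ n, ∀ t ∈ T n, ∀ t' ∈ T n, Φ n (t + t') = Φ n t + Φ n t') ∧
      (∀ n, ∀ t ∈ T n, ∀ c : ℂ, Φ n (c • t) = c • Φ n t) ∧
      (∀ n, ∀ t ∈ T n, ∀ t' ∈ T n, Φ n (t * t') = Φ n t * Φ n t') ∧
      (∀ n, ∀ t ∈ T n, Φ n (star t) = star (Φ n t)) ∧
      (∀ n n', n ≤ n' → ∀ t ∈ T n, ∃ a, Φ n t = ι a + Φ n' t) ∧ Φ 0 1 = 1 ∧
      ∀ n i, n ≤ i → ∀ t ∈ T n, ι (φ i 1) * Φ n t = ι (φ i t) := by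
  have qp : ∀ i, IsStarProjection (φ i 1) := fun i =>
    ⟨by rw [IsIdempotentElem, ← (hφ i).mul 1 (h1 i) 1 (h1 i), mul_one],
      by rw [IsSelfAdjoint, ← (hφ i).st 1 (h1 i), star_one]⟩
  have pl : ∀ k l, k ≤ l → p l * p k = p k := fun k l h => by
    induction l, h using Nat.le_induction with
    | base => exact (pp k).isIdempotentElem.eq
    | succ l h ih =>
      rw [ps, add_mul, ih, ← ih, ← mul_assoc, orth_symm (pp l) (qp l) (po l), zero_mul, add_zero]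
  have qo : ∀ i k, i ≠ k → φ i 1 * φ k 1 = 0 := by
    have : ∀ i k, i < k → φ k 1 * φ i 1 = 0 := fun i k h => by
      have e : p (i + 1) * φ i 1 = φ i 1 := by
        rw [ps, add_mul, po, zero_add, (qp i).isIdempotentElem.eq]
      rw [← e, ← pl (i + 1) k h, ← mul_assoc, ← mul_assoc, orth_symm (pp k) (qp k) (po k),
        zero_mul, zero_mul]
    intro i k h
    rcases lt_or_gt_of_ne h with h | h
    exacts [orth_symm (qp k) (qp i) (this i k h), this k i h]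
  have fo : ∀ i k, i ≠ k → ∀ t ∈ T i, ∀ t' ∈ T k, φ i t * φ k t' = 0 := fun i k h t ht t' ht' => by
    rw [← mul_one t, ← one_mul t', (hφ i).mul t ht 1 (h1 i), (hφ k).mul 1 (h1 k) t' ht', mul_assoc,
      ← mul_assoc (φ i 1), qo i k h, zero_mul, mul_zero]
  obtain ⟨X, hX⟩ : ∃ X : ℕ → ℕ → C →ₗ[ℂ] A, ∀ n N t, X n N t = ∑ i ∈ Finset.Ico n N, φ i t :=
    ⟨fun n N => ∑ i ∈ Finset.Ico n N, φ i, fun n N t => LinearMap.sum_apply _ _ _⟩
  have Xh : ∀ n N, Hom (T n) (X n N) := fun n N => by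
    refine ⟨fun t ht => ?_, fun t ht t' ht' => ?_⟩
    · rw [hX, hX, star_sum]
      exact Finset.sum_congr rfl fun i hi => (hφ i).st t (hm (Finset.mem_Ico.1 hi).1 ht)
    · rw [hX, hX, hX, Finset.sum_mul_sum]
      refine Finset.sum_congr rfl fun i hi => ?_
      have hi' := (Finset.mem_Ico.1 hi).1
      rw [Finset.sum_eq_single_of_mem i hi fun k hk hne =>
        fo i k hne.symm t (hm hi' ht) t' (hm (Finset.mem_Ico.1 hk).1 ht')]
      exact (hφ i).mul t (hm hi' ht) t' (hm hi' ht')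
  have Xa : ∀ n N N', n ≤ N → N ≤ N' → ∀ t, X n N' t = X n N t + X N N' t := fun n N N' h h' t => by
    rw [hX, hX, hX, Finset.sum_Ico_consecutive _ h h']
  have X1 : ∀ n N, n ≤ N → X n N 1 = p N - p n := fun n N h => by
    induction N, h using Nat.le_induction with
    | base => rw [hX, Finset.Ico_self, Finset.sum_empty, sub_self]
    | succ N h ih => rw [hX, Finset.sum_Ico_succ_top h, ← hX, ih, ps]; abel
  have Xn : ∀ n N, ∀ t ∈ T n, ‖X n N t‖ ≤ ‖t‖ := fun n N t ht => (Xh n N).norm_le (hT n) ht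
  have Xc : ∀ n, ∀ t ∈ T n, ∀ a, ∃ l, Tendsto (fun N => X n N t * a) atTop (𝓝 l) := by
    intro n t ht a
    refine cauchySeq_tendsto_of_complete (Metric.cauchySeq_iff'.2 fun ε hε => ?_)
    obtain ⟨N, hN⟩ := Metric.cauchySeq_iff.1 (pa a).cauchySeq (ε / (‖t‖ + 1)) (by positivity)
    refine ⟨max N n, fun k hk => ?_⟩
    have t1 : t ∈ T (max N n) := hm (le_max_right _ _) ht
    have := hN k ((le_max_left _ _).trans hk) (max N n) (le_max_left _ _)
    rw [dist_eq_norm, lt_div_iff₀ (by positivity), ← sub_mul] at this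
    rw [dist_eq_norm, ← sub_mul, Xa n _ k (le_max_right N n) hk, add_sub_cancel_left, ← mul_one t,
      (Xh _ _).mul t t1 1 (h1 _), X1 _ _ hk, mul_assoc]
    refine (norm_mul_le _ _).trans_lt (lt_of_le_of_lt ?_ this)
    rw [mul_comm]
    exact mul_le_mul_of_nonneg_left ((Xn _ _ t t1).trans (by linarith)) (norm_nonneg _)
  have ex : ∀ n t, ∃ m : M, t ∈ T n → ‖m‖ ≤ ‖t‖ ∧
      (∀ a, Tendsto (fun N => ι (X n N t * a)) atTop (𝓝 (m * ι a))) ∧
      ∀ a, Tendsto (fun N => ι (a * X n N t)) atTop (𝓝 (ι a * m)) := fun n t => by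
    by_cases ht : t ∈ T n
    · obtain ⟨m, hm⟩ := str (fun N => X n N t) ‖t‖ (norm_nonneg _) (fun N => Xn n N t ht)
        (Xc n t ht) fun a => by
          obtain ⟨l, hl⟩ := Xc n (star t) (star_mem ht) (star a)
          exact ⟨star l, hl.star.congr fun N => by
            rw [star_mul, star_star, (Xh n N).st t ht, star_star]⟩
      exact ⟨m, fun _ => hm⟩
    · exact ⟨0, fun h => absurd h ht⟩
  choose Φ hΦ using ex
  have uq : ∀ n, ∀ t ∈ T n, ∀ m : M,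
      (∀ a, Tendsto (fun N => ι (X n N t * a)) atTop (𝓝 (m * ι a))) → Φ n t = m :=
    fun n t ht m h => sub_eq_zero.1 (ess _ fun a => by
      rw [sub_mul, tendsto_nhds_unique ((hΦ n t ht).2.1 a) (h a), sub_self])
  have c : Continuous ι := cont ι
  refine ⟨Φ, fun n t ht => (hΦ n t ht).1, fun n t ht t' ht' => uq n _ (add_mem ht ht') _ fun a => ?_,
    fun n t ht c => uq n _ (SMulMemClass.smul_mem _ ht) _ fun a => ?_,
    fun n t ht t' ht' => uq n _ (mul_mem ht ht') _ fun a => ?_,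
    fun n t ht => uq n _ (star_mem ht) _ fun a => ?_,
    fun n n' h t ht => ⟨X n n' t, uq n _ ht _ fun a => ?_⟩, uq 0 1 (h1 0) _ fun a => ?_,
    fun n i h t ht => sub_eq_zero.1 (ess _ fun a => ?_)⟩
  · rw [add_mul]
    exact (((hΦ n t ht).2.1 a).add ((hΦ n t' ht').2.1 a)).congr fun N => by
      rw [map_add, add_mul, map_add]
  · rw [smul_mul_assoc]
    exact (((hΦ n t ht).2.1 a).const_smul c).congr fun N => by
      rw [map_smul, smul_mul_assoc, map_smul]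
  · obtain ⟨a', ha'⟩ := idl (Φ n t') a
    rw [mul_assoc, ha', ← add_zero (Φ n t * ι a')]
    have k : Tendsto (fun N => ι (X n N t) * (ι (X n N t' * a) - ι a')) atTop (𝓝 0) := by
      refine squeeze_zero_norm (a := fun N => ‖t‖ * ‖ι (X n N t' * a) - ι a'‖)
        (fun N => (norm_mul_le _ _).trans (mul_le_mul_of_nonneg_right
          ((NonUnitalStarAlgHom.norm_apply_le ι _).trans (Xn n N t ht)) (norm_nonneg _))) ?_
      have := (tendsto_iff_norm_sub_tendsto_zero.1 (ha' ▸ (hΦ n t' ht').2.1 a)).const_mul ‖t‖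
      rwa [mul_zero] at this
    exact (((hΦ n t ht).2.1 a').add k).congr fun N => by
      rw [mul_sub, ← map_mul, ← map_mul, add_sub_cancel, (Xh n N).mul t ht t' ht', mul_assoc]
  · have := ((hΦ n t ht).2.2 (star a)).star
    rw [star_mul, map_star, star_star] at this
    exact this.congr fun N => by rw [← map_star, star_mul, star_star, (Xh n N).st t ht]
  · rw [add_mul, ← map_mul]
    refine (((hΦ n' t (hm h ht)).2.1 a).const_add _).congr' ?_
    filter_upwards [eventually_ge_atTop n'] with N hN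
    rw [Xa n n' N h hN, add_mul, map_add]
  · rw [one_mul]
    exact ((c.tendsto a).comp (pa a)).congr fun N => by
      rw [X1 0 N (Nat.zero_le _), p0, sub_zero]; rfl
  · rw [sub_mul, sub_eq_zero, mul_assoc, ← map_mul]
    refine tendsto_nhds_unique (((hΦ n t ht).2.1 a).const_mul (ι (φ i 1)))
      (tendsto_const_nhds.congr' ?_)
    filter_upwards [eventually_gt_atTop i] with N hN
    rw [← map_mul, ← mul_assoc, hX, Finset.mul_sum,
      Finset.sum_eq_single_of_mem i (Finset.mem_Ico.2 ⟨h, hN⟩) fun k hk hne =>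
        fo i k hne.symm 1 (h1 i) t (hm (Finset.mem_Ico.1 hk).1 ht),
      ← (hφ i).mul 1 (h1 i) t (hm h ht), one_mul]

end Pool.Agent.H75.AF
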