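import Pool.Agent.H75.AF6

/-! The extension. -/

set_option autoImplicit false

namespace Pool.Agent.H75.AF

open Filter Topology

theorem final {A M C : Type} [NonUnitalCStarAlgebra A] [CStarAlgebra M] [CStarAlgebra C]
    (ι : A →⋆ₙₐ[ℂ] M) (inj : Function.Injective ι) (idl : ∀ m a, ∃ a', m * ι a = ι a')
    (T : ℕ → NonUnitalStarSubalgebra ℂ C) (hm : Monotone T) (hT : ∀ n, FD (T n : Set C))
    (h1 : ∀ n, (1 : C) ∈ T n) (hd : Dense (⋃ n, (T n : Set C))) (φ : ℕ → C →ₗ[ℂ] A)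
    (hφ : ∀ i, Hom (T i) (φ i)) (q0 : ∀ a, Tendsto (fun i => φ i 1 * a) atTop (𝓝 0))
    (full : ∀ J : TwoSidedIdeal A, IsClosed (J : Set A) →
      (∀ᶠ i in atTop, ∃ t ∈ T i, t ≠ 0 ∧ φ i t ∈ J) → ∀ a, a ∈ J)
    (Φ : ℕ → C → M) (Pn : ∀ n, ∀ t ∈ T n, ‖Φ n t‖ ≤ ‖t‖)
    (Pa : ∀ n, ∀ t ∈ T n, ∀ t' ∈ T n, Φ n (t + t') = Φ n t + Φ n t')
    (Ps : ∀ n, ∀ t ∈ T n, ∀ c : ℂ, Φ n (c • t) = c • Φ n t)
    (Pm : ∀ n, ∀ t ∈ T n, ∀ t' ∈ T n, Φ n (t * t') = Φ n t * Φ n t')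
    (Pt : ∀ n, ∀ t ∈ T n, Φ n (star t) = star (Φ n t))
    (Pu : ∀ n n', n ≤ n' → ∀ t ∈ T n, ∃ a, Φ n t = ι a + Φ n' t) (P1 : Φ 0 1 = 1)
    (Pq : ∀ n i, n ≤ i → ∀ t ∈ T n, ι (φ i 1) * Φ n t = ι (φ i t)) :
    ∃ (B : Type) (_ : CStarAlgebra B) (ι : A →⋆ₙₐ[ℂ] B) (π : B →⋆ₐ[ℂ] C),
      Function.Injective ι ∧ Function.Surjective π ∧
      Set.range ι = {b : B | π b = 0} ∧
      ∀ I : TwoSidedIdeal B, IsClosed (I : Set B) →
        Set.range ι ⊆ (I : Set B) ∨ (I : Set B) ⊆ Set.range ι := by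
  have idr : ∀ m a, ∃ a', ι a * m = ι a' := fun m a => by
    obtain ⟨a', h⟩ := idl (star m) (star a)
    exact ⟨star a', by rw [map_star, ← h, star_mul, map_star, star_star, star_star]⟩
  have up : ∀ (z : M × C) n n', n ≤ n' → (z.2 ∈ T n ∧ ∃ a, z.1 = ι a + Φ n z.2) →
      z.2 ∈ T n' ∧ ∃ a, z.1 = ι a + Φ n' z.2 := by
    rintro z n n' h ⟨h2, a, ha⟩
    obtain ⟨a', ha'⟩ := Pu n n' h _ h2
    exact ⟨hm h h2, a + a', by rw [ha, ha', map_add, add_assoc]⟩
  let B0 : StarSubalgebra ℂ (M × C) :=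
    { carrier := {z | ∃ n, z.2 ∈ T n ∧ ∃ a, z.1 = ι a + Φ n z.2}
      mul_mem' := by
        rintro y z ⟨n, hy⟩ ⟨n', hz⟩
        obtain ⟨y2, a, ha⟩ := up y n _ (le_max_left n n') hy
        obtain ⟨z2, b, hb⟩ := up z n' _ (le_max_right n n') hz
        obtain ⟨c, hc⟩ := idr (Φ (max n n') z.2) a
        obtain ⟨d, hd⟩ := idl (Φ (max n n') y.2) b
        refine ⟨_, mul_mem y2 z2, a * b + c + d, ?_⟩
        rw [Prod.fst_mul, Prod.snd_mul, ha, hb, Pm _ _ y2 _ z2, add_mul, mul_add, mul_add, hc, hd,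
          map_add, map_add, map_mul, add_assoc (_ + _)]
      add_mem' := by
        rintro y z ⟨n, hy⟩ ⟨n', hz⟩
        obtain ⟨y2, a, ha⟩ := up y n _ (le_max_left n n') hy
        obtain ⟨z2, b, hb⟩ := up z n' _ (le_max_right n n') hz
        refine ⟨_, add_mem y2 z2, a + b, ?_⟩
        rw [Prod.fst_add, Prod.snd_add, ha, hb, Pa _ _ y2 _ z2, map_add]
        abel
      algebraMap_mem' := fun r => by
        rw [Algebra.algebraMap_eq_smul_one]
        refine ⟨0, SMulMemClass.smul_mem _ (h1 0), 0, ?_⟩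
        rw [Prod.smul_fst, Prod.smul_snd, Prod.fst_one, Prod.snd_one, Ps _ _ (h1 0), P1, map_zero,
          zero_add]
      star_mem' := by
        rintro y ⟨n, y2, a, ha⟩
        refine ⟨n, star_mem y2, star a, ?_⟩
        rw [Prod.fst_star, Prod.snd_star, ha, star_add, map_star, Pt _ _ y2] }
  obtain ⟨B, hB, b1, b2⟩ : ∃ B : StarSubalgebra ℂ (M × C), IsClosed (B : Set (M × C)) ∧
      (∀ n, ∀ t ∈ T n, ∀ a, (ι a + Φ n t, t) ∈ B) ∧ ∀ z ∈ B, ∀ ε > 0, ∃ n, ∃ t ∈ T n, ∃ a,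
        ‖z.1 - (ι a + Φ n t)‖ < ε ∧ ‖z.2 - t‖ < ε := by
    refine ⟨B0.topologicalClosure, B0.isClosed_topologicalClosure,
      fun n t ht a => B0.le_topologicalClosure ⟨n, ht, a, rfl⟩, fun z hz ε hε => ?_⟩
    obtain ⟨y, ⟨n, y2, a, ha⟩, hy⟩ := Metric.mem_closure_iff.1 hz ε hε
    rw [Prod.dist_eq, max_lt_iff, dist_eq_norm, dist_eq_norm, ha] at hy
    exact ⟨n, _, y2, a, hy⟩
  have P0 : Φ 0 0 = 0 := norm_le_zero_iff.1 ((Pn 0 0 (zero_mem _)).trans norm_zero.le)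
  have b0 : ∀ a, (ι a, (0 : C)) ∈ B := fun a => by
    have := b1 0 0 (zero_mem _) a
    rwa [P0, add_zero] at this
  obtain ⟨j, hj⟩ : ∃ j : A →⋆ₙₐ[ℂ] B, ∀ a, (j a : M × C) = (ι a, 0) :=
    ⟨{ toFun := fun a => ⟨(ι a, 0), b0 a⟩
       map_smul' := fun c a => Subtype.ext (Prod.ext (map_smul ι c a) (smul_zero c).symm)
       map_zero' := Subtype.ext (Prod.ext (map_zero ι) rfl)
       map_add' := fun a b => Subtype.ext (Prod.ext (map_add ι a b) (add_zero _).symm)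
       map_mul' := fun a b => Subtype.ext (Prod.ext (map_mul ι a b) (mul_zero _).symm)
       map_star' := fun a => Subtype.ext (Prod.ext (map_star ι a) (star_zero _).symm) },
      fun _ => rfl⟩
  obtain ⟨π, hπ⟩ : ∃ π : B →⋆ₐ[ℂ] C, ∀ z, π z = (z : M × C).2 :=
    ⟨(StarAlgHom.snd ℂ M C).comp B.subtype, fun _ => rfl⟩
  have ker : Set.range j = {b : B | π b = 0} := by
    ext z
    constructor
    · rintro ⟨a, rfl⟩
      rw [Set.mem_ofPred_eq, hπ, hj]
    · intro hz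
      rw [Set.mem_ofPred_eq, hπ] at hz
      obtain ⟨a, ha⟩ : (z : M × C).1 ∈ Set.range ι := by
        refine (NonUnitalStarAlgHom.isometry ι inj).isClosedEmbedding.isClosed_range.closure_subset
          (Metric.mem_closure_iff.2 fun ε hε => ?_)
        obtain ⟨n, t, ht, a, k1, k2⟩ := b2 z z.2 _ (half_pos hε)
        rw [hz, zero_sub, norm_neg] at k2
        refine ⟨ι a, ⟨a, rfl⟩, ?_⟩
        have := norm_add_le ((z : M × C).1 - (ι a + Φ n t)) (Φ n t)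
        rw [dist_eq_norm, show (z : M × C).1 - ι a = (z : M × C).1 - (ι a + Φ n t) + Φ n t by abel]
        linarith [Pn n t ht]
      exact ⟨a, Subtype.ext (by rw [hj]; exact Prod.ext ha hz.symm)⟩
  refine ⟨B, inferInstance, j, π, fun a b h => inj ?_, fun c => ?_, ker, fun I hI => ?_⟩
  · have := congrArg (fun z : B => (z : M × C).1) h
    simpa only [hj] using this
  · let f : NormedAddGroupHom B C := ⟨π, map_add π, 1, fun z => by
      rw [one_mul]; exact NonUnitalStarAlgHom.norm_apply_le π z⟩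
    let K : AddSubgroup C :=
      { carrier := ⋃ n, (T n : Set C)
        add_mem' := fun {x y} hx hy => by
          obtain ⟨n, hn⟩ := Set.mem_iUnion.1 hx
          obtain ⟨k, hk⟩ := Set.mem_iUnion.1 hy
          exact Set.mem_iUnion.2 ⟨max n k, add_mem (hm (le_max_left _ _) hn)
            (hm (le_max_right _ _) hk)⟩
        zero_mem' := Set.mem_iUnion.2 ⟨0, zero_mem _⟩
        neg_mem' := fun {x} hx => by
          obtain ⟨n, hn⟩ := Set.mem_iUnion.1 hx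
          exact Set.mem_iUnion.2 ⟨n, neg_mem hn⟩ }
    have : f.SurjectiveOnWith K 1 := fun t ht => by
      obtain ⟨n, hn⟩ := Set.mem_iUnion.1 ht
      refine ⟨⟨_, b1 n t hn 0⟩, hπ _, ?_⟩
      change ‖(ι 0 + Φ n t, t)‖ ≤ _
      rw [map_zero, zero_add, one_mul, Prod.norm_mk]
      exact max_le (Pn n t hn) le_rfl
    obtain ⟨g, hg, -⟩ := controlled_closure_of_complete one_pos one_pos this c (hd c)
    exact ⟨g, hg⟩
  · rw [or_iff_not_imp_right, Set.not_subset]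
    rintro ⟨x, hx, x0⟩ _ ⟨a0, rfl⟩
    rw [ker, Set.mem_ofPred_eq, hπ, ← ne_eq, ← norm_pos_iff] at x0
    refine (TwoSidedIdeal.mem_comap j).1 (full (I.comap j) ?_ ?_ a0)
    · have : (I.comap j : Set A) = j ⁻¹' I := Set.ext fun a => TwoSidedIdeal.mem_comap j
      rw [this]; exact hI.preimage (cont j)
    obtain ⟨ε, hε⟩ : ∃ ε, ε = ‖(x : M × C).2‖ / 3 := ⟨_, rfl⟩
    have ε0 : 0 < ε := by rw [hε]; positivity
    obtain ⟨n, t, ht, a, k1, k2⟩ := b2 x x.2 ε ε0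
    have t2 : 2 * ε < ‖t‖ := by
      have := norm_add_le ((x : M × C).2 - t) t
      rw [sub_add_cancel] at this
      linarith
    have t0 : t ≠ 0 := norm_pos_iff.1 (by linarith)
    obtain ⟨l, e, l1, e1, e2, e3, e4⟩ := eig (hT n) (mul_mem (star_mem ht) ht)
      (IsSelfAdjoint.star_mul_self t) fun h => t0 ((CStarRing.star_mul_self_eq_zero_iff t).1 h)
    rw [CStarRing.norm_star_mul_self] at l1
    have l0 : (l : ℂ) ≠ 0 := fun h => by
      rw [Complex.ofReal_eq_zero.1 h, abs_zero] at l1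
      nlinarith
    filter_upwards [eventually_ge_atTop n, (NormedAddGroup.tendsto_nhds_zero.1 (q0 a)) ε ε0]
      with i hi hq
    refine ⟨e, hm hi e1, e3, (TwoSidedIdeal.mem_comap j).2 ?_⟩
    have nφ : ∀ s ∈ T n, ‖j (φ i s)‖ ≤ ‖s‖ := fun s hs =>
      (NonUnitalStarAlgHom.norm_apply_le j _).trans ((hφ i).norm_le (hT i) (hm hi hs))
    have d1 : ‖j (φ i t) - j (φ i 1) * x‖ ≤ 2 * ε := by
      have : ((j (φ i t) - j (φ i 1) * x : B) : M × C) =
          (-(ι (φ i 1) * ((x : M × C).1 - (ι a + Φ n t)) + ι (φ i 1 * a)), 0) := by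
        rw [AddSubgroupClass.coe_sub, MulMemClass.coe_mul, hj, hj]
        refine Prod.ext ?_ (by simp)
        rw [Prod.fst_sub, Prod.fst_mul, mul_sub, mul_add, Pq n i hi t ht, map_mul]
        abel_nf
      change ‖((j (φ i t) - j (φ i 1) * x : B) : M × C)‖ ≤ _
      rw [this, Prod.norm_mk, norm_zero, norm_neg]
      refine max_le ((norm_add_le _ _).trans ?_) (by linarith)
      have n1 : ‖ι (φ i 1)‖ ≤ 1 := (NonUnitalStarAlgHom.norm_apply_le ι _).trans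
        (IsStarProjection.norm_le _
          ⟨by rw [IsIdempotentElem, ← (hφ i).mul 1 (h1 i) 1 (h1 i), mul_one],
            by rw [IsSelfAdjoint, ← (hφ i).st 1 (h1 i), star_one]⟩)
      have n2 := (norm_mul_le (ι (φ i 1)) ((x : M × C).1 - (ι a + Φ n t))).trans
        (mul_le_of_le_one_left (norm_nonneg _) n1)
      have n3 := NonUnitalStarAlgHom.norm_apply_le ι (φ i 1 * a)
      linarith
    obtain ⟨r, hr⟩ : ∃ r : B, r = (l : ℂ)⁻¹ • (j (φ i (star t)) * (j (φ i t) - j (φ i 1) * x)) :=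
      ⟨_, rfl⟩
    have r1 : ‖r‖ < 1 := by
      rw [hr, norm_smul, norm_inv, Complex.norm_real, Real.norm_eq_abs, l1,
        inv_mul_lt_iff₀ (by nlinarith), mul_one]
      refine (norm_mul_le _ _).trans_lt ((mul_le_mul ((nφ _ (star_mem ht)).trans (norm_star t).le)
        d1 (norm_nonneg _) (norm_nonneg _)).trans_lt ?_)
      nlinarith
    have r2 : (1 - r) * j (φ i e) =
        ((l : ℂ)⁻¹ • (j (φ i (star t)) * j (φ i 1))) * x * j (φ i e) := by
      have : j (φ i (star t)) * j (φ i t) * j (φ i e) = (l : ℂ) • j (φ i e) := by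
        rw [← map_mul, ← map_mul, ← (hφ i).mul _ (hm hi (star_mem ht)) _ (hm hi ht),
          ← (hφ i).mul _ (hm hi (mul_mem (star_mem ht) ht)) _ (hm hi e1), e4, map_smul, map_smul]
      rw [hr, sub_mul, one_mul, mul_sub, smul_sub, sub_mul, smul_mul_assoc, this, smul_smul,
        inv_mul_cancel₀ l0, one_smul, sub_sub_cancel, smul_mul_assoc _ _ x, mul_assoc _ _ x]
    have := I.mul_mem_left (↑(Units.oneSub r r1)⁻¹) _
      (r2 ▸ I.mul_mem_right _ (j (φ i e)) (I.mul_mem_left _ _ hx))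
    rwa [← Units.val_oneSub r r1, ← mul_assoc, Units.inv_mul, one_mul] at this

end Pool.Agent.H75.AF
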