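import Pool.Agent.H75.CQDefs

set_option linter.unusedSectionVars false
set_option linter.deprecated false

namespace Pool.Agent.H75.CQ
open Filter Topology
open scoped BoundedContinuousFunction

variable {Γ : Type} [AddCommGroup Γ] [TopologicalSpace Γ] [DiscreteTopology Γ]

noncomputable def t (γ : Γ) : Module.End ℝ (Γ →ᵇ ℝ) where
  toFun f := f.compContinuous ⟨fun x => x - γ, continuous_of_discreteTopology⟩
  map_add' _ _ := rfl
  map_smul' _ _ := rfl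

@[simp] theorem t_apply (γ : Γ) (f : Γ →ᵇ ℝ) (x : Γ) : t γ f x = f (x - γ) := rfl

noncomputable def S (γ : Γ) : Module.End ℝ (Γ →ᵇ ℝ) := (1 / 2 : ℝ) • (1 + t γ)

@[simp] theorem S_apply (γ : Γ) (f : Γ →ᵇ ℝ) (x : Γ) :
    S γ f x = 1 / 2 * (f x + f (x - γ)) := rfl

theorem S_comm (γ δ : Γ) : S γ * S δ = S δ * S γ := by
  ext f x
  simp only [Module.End.mul_apply, S_apply, sub_right_comm x γ δ]
  ring

structure RM (ρ : (Γ →ᵇ ℝ) →ₗ[ℝ] ℝ) : Prop where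
  pos : ∀ u : Γ →ᵇ ℝ, (∀ x, 0 ≤ u x) → 0 ≤ ρ u
  one : ρ 1 = 1
  inv : ∀ γ u, ρ (t γ u) = ρ u

def Erg (ρ : (Γ →ᵇ ℝ) →ₗ[ℝ] ℝ) : Prop :=
  ∀ φ : (Γ →ᵇ ℝ) →ₗ[ℝ] ℝ, (∀ u : Γ →ᵇ ℝ, (∀ x, 0 ≤ u x) → 0 ≤ φ u ∧ φ u ≤ ρ u) →
    (∀ γ u, φ (t γ u) = φ u) → ∀ u, φ u = φ 1 * ρ u

variable {ρ : (Γ →ᵇ ℝ) →ₗ[ℝ] ℝ}

theorem RM.mono (h : RM ρ) {u v : Γ →ᵇ ℝ} (e : ∀ x, u x ≤ v x) : ρ u ≤ ρ v := by
  have := h.pos (v - u) fun x => sub_nonneg.2 (e x)
  rwa [map_sub, sub_nonneg] at this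

theorem RM.sq (h : RM ρ) (u : Γ →ᵇ ℝ) : 0 ≤ ρ (u * u) := h.pos _ fun _ => mul_self_nonneg _

theorem RM.tadj (h : RM ρ) (γ : Γ) (a b : Γ →ᵇ ℝ) : ρ (t γ a * b) = ρ (a * t (-γ) b) := by
  rw [← h.inv γ (a * t (-γ) b)]
  congr 1
  ext x
  simp

theorem RM.adj (h : RM ρ) (γ : Γ) (a b : Γ →ᵇ ℝ) : ρ (S γ a * b) = ρ (a * S (-γ) b) := by
  simp only [S, LinearMap.smul_apply, LinearMap.add_apply, Module.End.one_apply, smul_mul_assoc,
    mul_smul_comm, add_mul, mul_add, map_smul, map_add, h.tadj]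

theorem RM.par (h : RM ρ) (γ : Γ) (a : Γ →ᵇ ℝ) :
    ρ (a * a) - ρ (S γ a * S γ a) = 1 / 4 * ρ ((a - t γ a) * (a - t γ a)) := by
  have e : S γ a * S γ a + (1 / 4 : ℝ) • ((a - t γ a) * (a - t γ a)) =
      (1 / 2 : ℝ) • (a * a + t γ (a * a)) := by
    ext x
    simp
    ring
  have := congrArg ρ e
  simp only [map_add, map_smul, h.inv, smul_eq_mul] at this
  linarith

theorem RM.con (h : RM ρ) (γ : Γ) (a : Γ →ᵇ ℝ) : ρ (S γ a * S γ a) ≤ ρ (a * a) := by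
  linarith [h.par γ a, h.sq (a - t γ a)]

theorem RM.cs (h : RM ρ) (a b : Γ →ᵇ ℝ) : |ρ (a * b)| ≤ √(ρ (a * a) * ρ (b * b)) := by
  have := discrim_le_zero (a := ρ (a * a)) (b := 2 * ρ (a * b)) (c := ρ (b * b)) fun s => by
    have h1 := h.sq (s • a + b)
    simp only [add_mul, mul_add, smul_mul_assoc, mul_smul_comm, map_add, map_smul, smul_eq_mul,
      mul_comm b a] at h1
    linarith
  rw [discrim] at this
  exact Real.abs_le_sqrt (by linarith)

/-- iterated symmetric averages -/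
noncomputable def w (e : ℕ → Γ) (f : Γ →ᵇ ℝ) : ℕ → Γ →ᵇ ℝ
  | 0 => f
  | n + 1 => S (e n) (S (-e n) (w e f n))

theorem RM.good (h : RM ρ) (e : ℕ → Γ) (f : Γ →ᵇ ℝ) (m n : ℕ) :
    ρ (w e f (m + n) * w e f (m + n)) ≤ ρ (w e f m * w e f (m + n)) := by
  have : ∃ P P' : Module.End ℝ (Γ →ᵇ ℝ), w e f (m + n) = P' (P (w e f m)) ∧
      (∀ a b, ρ (P' a * b) = ρ (a * P b)) ∧ (∀ a, ρ (P' a * P' a) ≤ ρ (a * a)) ∧
      (∀ γ a, P (S γ a) = S γ (P a)) ∧ ∀ γ a, P' (S γ a) = S γ (P' a) := by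
    have hc : ∀ γ δ (a : Γ →ᵇ ℝ), S γ (S δ a) = S δ (S γ a) := fun γ δ a =>
      congrArg (fun x : Module.End ℝ (Γ →ᵇ ℝ) => x a) (S_comm γ δ)
    induction n with
    | zero => exact ⟨1, 1, rfl, fun _ _ => rfl, fun _ => le_rfl, fun _ _ => rfl, fun _ _ => rfl⟩
    | succ n ih =>
      obtain ⟨P, P', h1, h2, h3, h4, h5⟩ := ih
      refine ⟨S (-e (m + n)) * P, S (e (m + n)) * P', ?_, fun a b => ?_,
        fun a => (h.con _ _).trans (h3 a), fun γ a => ?_, fun γ a => ?_⟩ <;>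
        simp only [Module.End.mul_apply]
      · rw [h5, ← h1]; rfl
      · rw [h.adj, h2, h4]
      · rw [h4, hc]
      · rw [h5, hc]
  obtain ⟨P, P', h1, h2, h3, -, -⟩ := this
  rw [mul_comm (w e f m), h1, h2 _ (w e f m)]
  exact h3 _

theorem w_mem (e : ℕ → Γ) {f : Γ →ᵇ ℝ} (hf : ∀ x, 0 ≤ f x ∧ f x ≤ 1) (n : ℕ) :
    ∀ x, 0 ≤ w e f n x ∧ w e f n x ≤ 1 := by
  have : ∀ γ (f : Γ →ᵇ ℝ), (∀ x, 0 ≤ f x ∧ f x ≤ 1) → ∀ x, 0 ≤ S γ f x ∧ S γ f x ≤ 1 :=
    fun γ f hf x => by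
      rw [S_apply]
      constructor <;> linarith [hf x, hf (x - γ)]
  induction n with
  | zero => exact hf
  | succ n ih => exact this _ _ (this _ _ ih)

theorem RM.wval (h : RM ρ) (e : ℕ → Γ) (f : Γ →ᵇ ℝ) (n : ℕ) : ρ (w e f n) = ρ f := by
  have : ∀ γ (f : Γ →ᵇ ℝ), ρ (S γ f) = ρ f := fun γ f => by
    simp only [S, LinearMap.smul_apply, LinearMap.add_apply, Module.End.one_apply, map_smul,
      map_add, h.inv, smul_eq_mul]
    ring
  induction n with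
  | zero => rfl
  | succ n ih => rw [w, this, this, ih]

theorem RM.erg (h : RM ρ) (he : Erg ρ) {e : ℕ → Γ} (hs : ∀ γ N, ∃ n ≥ N, e n = γ)
    {f : Γ →ᵇ ℝ} (hf : ∀ x, 0 ≤ f x ∧ f x ≤ 1) :
    Tendsto (fun n => ρ (w e f n * w e f n)) atTop (𝓝 (ρ f * ρ f)) := by
  have ha : Antitone fun n => ρ (w e f n * w e f n) :=
    antitone_nat_of_succ_le fun n => (h.con _ _).trans (h.con _ _)
  have hL := tendsto_atTop_ciInf ha ⟨0, by rintro _ ⟨n, rfl⟩; exact h.sq _⟩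
  set L := ⨅ n, ρ (w e f n * w e f n) with hLd
  have hd : ∀ γ, Tendsto (fun n => ρ ((w e f n - t γ (w e f n)) * (w e f n - t γ (w e f n))))
      atTop (𝓝 0) := fun γ => by
    have h1 : ∀ δ (a : Γ →ᵇ ℝ), ρ ((S δ a - t γ (S δ a)) * (S δ a - t γ (S δ a))) ≤
        ρ ((a - t γ a) * (a - t γ a)) := fun δ a => by
      have : S δ a - t γ (S δ a) = S δ (a - t γ a) := by
        ext x
        simp only [BoundedContinuousFunction.coe_sub, Pi.sub_apply, S_apply, t_apply,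
          sub_right_comm x γ δ]
        ring
      rw [this]
      exact h.con _ _
    have h2 : Antitone fun n => ρ ((w e f n - t γ (w e f n)) * (w e f n - t γ (w e f n))) :=
      antitone_nat_of_succ_le fun n => (h1 _ _).trans (h1 _ _)
    have h3 := (hL.sub (hL.comp (tendsto_add_atTop_nat 1))).const_mul 4
    rw [sub_self, mul_zero] at h3
    refine tendsto_order.2 ⟨fun a ha => Eventually.of_forall fun n => ha.trans_le (h.sq _),
      fun a ha => ?_⟩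
    obtain ⟨N, hN⟩ := eventually_atTop.1 ((tendsto_order.1 h3).2 a ha)
    obtain ⟨n, hn, rfl⟩ := hs γ N
    refine eventually_atTop.2 ⟨n + 1, fun k hk => (h2 hk).trans_lt (lt_of_le_of_lt ?_ (hN n hn))⟩
    have h4 := h.par (e n) (S (-e n) (w e f n))
    have h5 := h.con (-e n) (w e f n)
    have h6 := h1 (e n) (S (-e n) (w e f n))
    simp only [Function.comp, w]
    linarith
  have hle : (hyperfilter ℕ : Filter ℕ) ≤ atTop := by
    rw [← Nat.cofinite_eq_atTop]; exact hyperfilter_le_cofinite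
  have : ∀ g : Γ →ᵇ ℝ, ∃ l, Tendsto (fun n => ρ (g * w e f n)) (hyperfilter ℕ) (𝓝 l) := fun g => by
    obtain ⟨l, -, hl⟩ := (isCompact_closedBall (0 : ℝ)
      √(ρ (g * g) * ρ (f * f))).ultrafilter_le_nhds' ((hyperfilter ℕ).map fun n =>
        ρ (g * w e f n)) (Ultrafilter.mem_map.2 (univ_mem' fun n => mem_closedBall_zero_iff.2
          ((h.cs _ _).trans (Real.sqrt_le_sqrt
            (mul_le_mul_of_nonneg_left (ha (Nat.zero_le n)) (h.sq g))))))
    exact ⟨l, hl⟩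
  choose l hl using this
  let φ : (Γ →ᵇ ℝ) →ₗ[ℝ] ℝ :=
    { toFun := l
      map_add' := fun a b => tendsto_nhds_unique (hl _)
        (by simpa only [add_mul, map_add] using (hl a).add (hl b))
      map_smul' := fun c a => tendsto_nhds_unique (hl _)
        (by simpa only [smul_mul_assoc, map_smul, RingHom.id_apply] using (hl a).const_smul c) }
  have hφ := he φ (fun u hu => ⟨ge_of_tendsto' (hl u) fun n =>
      h.pos _ fun x => mul_nonneg (hu x) (w_mem e hf n x).1, le_of_tendsto' (hl u) fun n =>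
      h.mono fun x => mul_le_of_le_one_right (hu x) (w_mem e hf n x).2⟩) fun γ u => by
    refine tendsto_nhds_unique (hl _) ?_
    have h1 := (((hd (-γ)).const_mul (ρ (u * u))).sqrt).mono_left hle
    rw [mul_zero, Real.sqrt_zero] at h1
    have h2 := (hl u).sub (squeeze_zero_norm (fun n => h.cs u (w e f n - t (-γ) (w e f n))) h1)
    rw [sub_zero] at h2
    exact h2.congr fun n => by rw [h.tadj, mul_sub, map_sub, sub_sub_cancel]
  have h1 : φ 1 = ρ f := tendsto_nhds_unique (hl 1)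
    (tendsto_const_nhds.congr fun n => by rw [one_mul, h.wval])
  have h2 : L ≤ ρ f * ρ f := by
    have := hφ f
    rw [h1] at this
    rw [← this]
    exact le_of_tendsto_of_tendsto' (hL.mono_left hle) (hl f) fun n => by
      have := h.good e f 0 n
      rw [zero_add] at this
      exact this
  have h3 : ρ f * ρ f ≤ L := ge_of_tendsto' hL fun n => by
    have := h.sq (w e f n - ρ f • 1)
    simp only [mul_sub, sub_mul, smul_mul_assoc, mul_smul_comm, mul_one, one_mul, map_sub,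
      map_smul, h.wval, h.one, smul_eq_mul] at this
    linarith
  rwa [le_antisymm h2 h3] at hL

end Pool.Agent.H75.CQ
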