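import Pool.Agent.H75.CQ1

set_option linter.unusedSectionVars false
set_option linter.deprecated false

namespace Pool.Agent.H75.CQ
open Filter Topology MeasureTheory
open scoped BoundedContinuousFunction ComplexOrder

variable {Γ : Type} [AddCommGroup Γ] [TopologicalSpace Γ] [DiscreteTopology Γ]

noncomputable def c : (Γ →ᵇ ℝ) →L[ℝ] Γ →ᵇ ℂ := Complex.ofRealCLM.compLeftContinuousBounded Γ
noncomputable def re' : (Γ →ᵇ ℂ) →L[ℝ] Γ →ᵇ ℝ := Complex.reCLM.compLeftContinuousBounded Γ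
noncomputable def im' : (Γ →ᵇ ℂ) →L[ℝ] Γ →ᵇ ℝ := Complex.imCLM.compLeftContinuousBounded Γ

@[simp] theorem c_apply (u : Γ →ᵇ ℝ) (x : Γ) : c u x = (u x : ℂ) := rfl
@[simp] theorem re_apply (u : Γ →ᵇ ℂ) (x : Γ) : re' u x = (u x).re := rfl
@[simp] theorem im_apply (u : Γ →ᵇ ℂ) (x : Γ) : im' u x = (u x).im := rfl

noncomputable def rm (ν : Means Γ) : (Γ →ᵇ ℝ) →ₗ[ℝ] ℝ where
  toFun u := (ν.1 (c u)).re
  map_add' a b := by rw [map_add, ν.2.1.map_add, Complex.add_re]
  map_smul' r a := by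
    rw [show c (r • a) = (r : ℂ) • c a by ext x; simp, ν.2.1.map_smul]
    simp

theorem rm_c (ν : Means Γ) (u : Γ →ᵇ ℝ) : ν.1 (c u) = rm ν u := by
  have := ν.2.2.1 (c u + (‖u‖ : ℂ) • 1) fun x => by
    have h1 := (abs_le.1 (u.norm_coe_le_norm x)).1
    have : (c u + (‖u‖ : ℂ) • 1 : Γ →ᵇ ℂ) x = ((u x + ‖u‖ : ℝ) : ℂ) := by simp
    rw [this]
    exact Complex.zero_le_real.2 (by linarith)
  rw [ν.2.1.map_add, ν.2.1.map_smul, ν.2.2.2.1] at this
  exact Complex.ext rfl (by simpa using (Complex.nonneg_iff.1 this).2.symm)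

theorem rm_dec (ν : Means Γ) (f : Γ →ᵇ ℂ) :
    ν.1 f = rm ν (re' f) + Complex.I * rm ν (im' f) := by
  rw [← rm_c, ← rm_c, ← smul_eq_mul, ← ν.2.1.map_smul, ← ν.2.1.map_add]
  refine congrArg ν.1 ?_
  ext x
  simp [mul_comm Complex.I]

theorem rm_RM (ν : Means Γ) : RM (rm ν) where
  pos u hu := (Complex.nonneg_iff.1 (ν.2.2.1 (c u) fun x => Complex.zero_le_real.2 (hu x))).1
  one := by
    change (ν.1 (c 1)).re = 1
    rw [show (c 1 : Γ →ᵇ ℂ) = 1 by ext x; simp, ν.2.2.2.1, Complex.one_re]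
  inv γ u := congrArg Complex.re (ν.2.2.2.2 γ (c u))

theorem mk {ψ : (Γ →ᵇ ℝ) →ₗ[ℝ] ℝ} (h : RM ψ) :
    (fun f => (ψ (re' f) : ℂ) + Complex.I * ψ (im' f)) ∈ Means Γ := by
  refine ⟨⟨fun a b => ?_, fun z a => ?_⟩, fun f hf => ?_, ?_, fun γ f => ?_⟩
  · simp only [map_add]; push_cast; ring
  · rw [show re' (z • a) = z.re • re' a - z.im • im' a by ext x; simp,
      show im' (z • a) = z.re • im' a + z.im • re' a by ext x; simp]
    simp only [map_add, map_sub, map_smul, smul_eq_mul]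
    apply Complex.ext <;> simp
  · beta_reduce
    rw [show im' f = 0 by ext x; exact (Complex.nonneg_iff.1 (hf x)).2.symm]
    simpa using h.pos (re' f) fun x => (Complex.nonneg_iff.1 (hf x)).1
  · beta_reduce
    rw [show re' (1 : Γ →ᵇ ℂ) = 1 by ext x; simp, show im' (1 : Γ →ᵇ ℂ) = 0 by ext x; simp]
    simp [h.one]
  · change (ψ (t γ (re' f)) : ℂ) + Complex.I * ψ (t γ (im' f)) = _
    rw [h.inv, h.inv]

theorem rm_erg {ν : Means Γ} (h : ν ∈ Ext Γ) : Erg (rm ν) := fun φ h1 h2 u => by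
  have R := rm_RM ν
  have h0 := h1 1 fun _ => zero_le_one
  rw [R.one] at h0
  have a1 : RM ((1 - φ 1) • rm ν + φ) := ⟨fun u hu => add_nonneg
    (mul_nonneg (by linarith) (R.pos u hu)) (h1 u hu).1, by simp [R.one],
    fun γ u => by simp [R.inv, h2]⟩
  have a2 : RM ((1 + φ 1) • rm ν - φ) := ⟨fun u hu => by
    have := mul_nonneg h0.1 (R.pos u hu)
    have := (h1 u hu).2
    simp only [LinearMap.sub_apply, LinearMap.smul_apply, smul_eq_mul]
    linarith, by simp [R.one], fun γ u => by simp [R.inv, h2]⟩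
  have := (mem_extremePoints.1 h).2 _ (mk a1) _ (mk a2) ⟨1 / 2, 1 / 2, by norm_num, by norm_num,
    by norm_num, funext fun f => by
      rw [rm_dec]
      simp only [Pi.add_apply, Pi.smul_apply, LinearMap.add_apply, LinearMap.sub_apply,
        LinearMap.smul_apply, smul_eq_mul, Complex.real_smul]
      push_cast
      ring⟩
  have h3 := congrArg Complex.re (congrFun this.1 (c u))
  rw [show re' (c u) = u by ext x; simp, show im' (c u) = 0 by ext x; simp, rm_c] at h3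
  simp at h3
  linarith

noncomputable def iR (C : Set Γ) : Γ →ᵇ ℝ := re' (ind C)

open Classical in
theorem iR_apply (C : Set Γ) (x : Γ) : iR C x = if x ∈ C then 1 else 0 := by
  change (C.indicator (fun _ => (1 : ℂ)) x).re = _
  rw [Set.indicator_apply]
  split_ifs <;> simp

theorem c_iR (C : Set Γ) : c (iR C) = ind C := by
  classical
  ext x
  rw [c_apply, iR_apply]
  change _ = C.indicator (fun _ => (1 : ℂ)) x
  rw [Set.indicator_apply]
  split_ifs <;> simp

variable {ρ : (Γ →ᵇ ℝ) →ₗ[ℝ] ℝ}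

theorem RM.i0 (h : RM ρ) (C : Set Γ) : 0 ≤ ρ (iR C) :=
  h.pos _ fun x => by rw [iR_apply]; split_ifs <;> norm_num

theorem RM.ic (h : RM ρ) (C : Set Γ) : ρ (iR Cᶜ) = 1 - ρ (iR C) := by
  rw [← h.one, ← map_sub]
  congr 1
  ext x
  by_cases hx : x ∈ C <;> simp [iR_apply, hx]

theorem RM.i1 (h : RM ρ) (C : Set Γ) : ρ (iR C) ≤ 1 := by linarith [h.ic C, h.i0 Cᶜ]

theorem RM.iu (h : RM ρ) {C D E : Set Γ} (e : E ⊆ C ∪ D) : ρ (iR E) ≤ ρ (iR C) + ρ (iR D) := by
  rw [← map_add]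
  refine h.mono fun x => ?_
  have := @e x
  by_cases h1 : x ∈ C <;> by_cases h2 : x ∈ D <;> by_cases h3 : x ∈ E <;>
    simp_all [iR_apply]

theorem RM.im (h : RM ρ) {C D : Set Γ} (e : C ⊆ D) : ρ (iR C) ≤ ρ (iR D) := h.mono fun x => by
  have := @e x
  by_cases h1 : x ∈ C <;> by_cases h2 : x ∈ D <;> simp_all [iR_apply]

theorem RM.cheb (h : RM ρ) (v : Γ →ᵇ ℝ) {a d : ℝ} (hv : ρ v = a) (hd : 0 < d) {C : Set Γ}
    (hC : ∀ x ∈ C, d ≤ |v x - a|) : ρ (iR C) ≤ (ρ (v * v) - a * a) / (d * d) := by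
  have h1 : ρ ((d * d) • iR C) ≤ ρ ((v - a • 1) * (v - a • 1)) := h.mono fun x => by
    change d * d * iR C x ≤ (v x - a * 1) * (v x - a * 1)
    rw [iR_apply, mul_one]
    split_ifs with hx
    · rw [mul_one, ← abs_mul_abs_self (v x - a)]
      exact mul_self_le_mul_self hd.le (hC x hx)
    · rw [mul_zero]; exact mul_self_nonneg _
  simp only [mul_sub, sub_mul, smul_mul_assoc, mul_smul_comm, mul_one, one_mul, map_sub,
    map_smul, hv, h.one, smul_eq_mul] at h1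
  rw [le_div_iff₀ (mul_pos hd hd)]
  linarith

variable {Ω : Type} {m0 : MeasurableSpace Ω} {σ : Measure Ω} [IsProbabilityMeasure σ]
  {ν : Ω → Means Γ}

noncomputable def ee (ν : Ω → Means Γ) (E : Set Ω) (C : Set Γ) (ω : Ω) : ℝ :=
  |E.indicator 1 ω - rm (ν ω) (iR C)|

theorem ee_in {E : Set Ω} (C : Set Γ) {ω : Ω} (h : ω ∈ E) : ee ν E C ω = rm (ν ω) (iR Cᶜ) := by
  rw [ee, Set.indicator_of_mem h, (rm_RM _).ic, Pi.one_apply,
    abs_of_nonneg (sub_nonneg.2 ((rm_RM _).i1 C))]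

theorem ee_out {E : Set Ω} (C : Set Γ) {ω : Ω} (h : ω ∉ E) : ee ν E C ω = rm (ν ω) (iR C) := by
  rw [ee, Set.indicator_of_notMem h, zero_sub, abs_neg, abs_of_nonneg ((rm_RM _).i0 C)]

theorem ee_le (E : Set Ω) (C : Set Γ) (ω : Ω) : ‖ee ν E C ω‖ ≤ 1 := by
  rw [Real.norm_of_nonneg (show 0 ≤ ee ν E C ω from abs_nonneg _)]
  by_cases h : ω ∈ E
  · rw [ee_in C h]; exact (rm_RM _).i1 _
  · rw [ee_out C h]; exact (rm_RM _).i1 _

theorem ee_meas (hm : ∀ u, Measurable fun ω => rm (ν ω) u) {E : Set Ω} (hE : MeasurableSet E)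
    (C : Set Γ) : Measurable (ee ν E C) :=
  ((measurable_one.indicator hE).sub (hm _)).abs

theorem ee_int (hm : ∀ u, Measurable fun ω => rm (ν ω) u) {E : Set Ω} (hE : MeasurableSet E)
    (C : Set Γ) : Integrable (ee ν E C) σ :=
  .of_bound (ee_meas hm hE C).aestronglyMeasurable 1 (ae_of_all _ (ee_le E C))

def DD (σ : Measure Ω) (ν : Ω → Means Γ) (E : Set Ω) : Prop :=
  MeasurableSet E ∧ ∀ ε > 0, ∃ C, ∫ ω, ee ν E C ω ∂σ < ε

theorem DD.of_lim (hm : ∀ u, Measurable fun ω => rm (ν ω) u) {E : Set Ω} (hE : MeasurableSet E)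
    (C : ℕ → Set Γ) (h : ∀ᵐ ω ∂σ, Tendsto (fun n => ee ν E (C n) ω) atTop (𝓝 0)) : DD σ ν E := by
  have := tendsto_integral_of_dominated_convergence (fun _ => (1 : ℝ))
    (fun n => (ee_meas hm hE (C n)).aestronglyMeasurable) (integrable_const _)
    (fun n => ae_of_all _ (ee_le E (C n))) h
  rw [integral_zero] at this
  exact ⟨hE, fun ε hε => ((tendsto_order.1 this).2 ε hε).exists.imp' C fun _ h => h⟩

theorem DD.union (hm : ∀ u, Measurable fun ω => rm (ν ω) u) {E F : Set Ω} (hE : DD σ ν E)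
    (hF : DD σ ν F) : DD σ ν (E ∪ F) := by
  refine ⟨hE.1.union hF.1, fun ε hε => ?_⟩
  obtain ⟨C, hC⟩ := hE.2 (ε / 2) (by linarith)
  obtain ⟨D, hD⟩ := hF.2 (ε / 2) (by linarith)
  refine ⟨C ∪ D, lt_of_le_of_lt (integral_mono (ee_int hm (hE.1.union hF.1) _)
    ((ee_int hm hE.1 C).add (ee_int hm hF.1 D)) fun ω => ?_) ?_⟩
  · change ee ν (E ∪ F) (C ∪ D) ω ≤ ee ν E C ω + ee ν F D ω
    by_cases h1 : ω ∈ E
    · rw [ee_in (E := E ∪ F) _ (Or.inl h1), ee_in _ h1]
      exact ((rm_RM _).im (Set.compl_subset_compl.2 Set.subset_union_left)).trans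
        (le_add_of_nonneg_right (abs_nonneg _))
    by_cases h2 : ω ∈ F
    · rw [ee_in (E := E ∪ F) _ (Or.inr h2), ee_in _ h2]
      exact ((rm_RM _).im (Set.compl_subset_compl.2 Set.subset_union_right)).trans
        (le_add_of_nonneg_left (abs_nonneg _))
    · rw [ee_out (E := E ∪ F) _ (not_or.2 ⟨h1, h2⟩), ee_out _ h1, ee_out _ h2]
      exact (rm_RM _).iu le_rfl
  · have := integral_add (ee_int (σ := σ) hm hE.1 C) (ee_int hm hF.1 D)
    simp only [Pi.add_apply]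
    linarith

theorem DD.univ (hm : ∀ u, Measurable fun ω => rm (ν ω) u) {E : Set Ω} (hE : MeasurableSet E)
    (h : ∀ᵐ ω ∂σ, ω ∈ E) : DD σ ν E :=
  DD.of_lim hm hE (fun _ => Set.univ) (h.mono fun ω hω => by
    have := (rm_RM (ν ω)).ic ∅
    have h2 : iR (∅ : Set Γ) = 0 := by ext x; simp [iR_apply]
    simp only [ee_in _ hω, Set.compl_univ, h2, map_zero, tendsto_const_nhds])

theorem DD.compl {E : Set Ω} (hE : DD σ ν E) : DD σ ν Eᶜ :=
  ⟨hE.1.compl, fun ε hε => by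
    obtain ⟨C, hC⟩ := hE.2 ε hε
    refine ⟨Cᶜ, lt_of_eq_of_lt (integral_congr_ae (ae_of_all _ fun ω => ?_)) hC⟩
    by_cases h : ω ∈ E
    · simp only [ee_in _ h, ee_out (E := Eᶜ) _ (fun h' => h' h)]
    · simp only [ee_out _ h, ee_in (E := Eᶜ) _ h, compl_compl]⟩

/-- the σ-algebra of sets that can be approximated -/
def msD (σ : Measure Ω) [IsProbabilityMeasure σ] (hm : ∀ u, Measurable fun ω => rm (ν ω) u) :
    MeasurableSpace Ω where
  MeasurableSet' := DD σ ν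
  measurableSet_empty := by
    simpa using (DD.univ (σ := σ) hm .univ (ae_of_all _ fun _ => trivial)).compl
  measurableSet_compl _ h := h.compl
  measurableSet_iUnion f hf := by
    have h1 : ∀ n, DD σ ν (⋃ k < n, f k) := fun n => by
      induction n with
      | zero => simpa using (DD.univ (σ := σ) hm .univ (ae_of_all _ fun _ => trivial)).compl
      | succ n ih => rw [Set.biUnion_lt_succ]; exact ih.union hm (hf n)
    have hE := MeasurableSet.iUnion fun n => (hf n).1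
    refine ⟨hE, fun ε hε => ?_⟩
    have hi : ∀ n, Measurable fun ω => |(⋃ k, f k).indicator (1 : Ω → ℝ) ω -
        (⋃ k < n, f k).indicator 1 ω| := fun n =>
      ((measurable_one.indicator hE).sub (measurable_one.indicator (h1 n).1)).abs
    have hb : ∀ n ω, ‖|(⋃ k, f k).indicator (1 : Ω → ℝ) ω - (⋃ k < n, f k).indicator 1 ω|‖ ≤ 1 :=
      fun n ω => by
        classical
        rw [Set.indicator_apply, Set.indicator_apply]
        split_ifs <;> simp
    have := tendsto_integral_of_dominated_convergence (μ := σ) (f := fun _ => 0) (fun _ => (1 : ℝ))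
      (fun n => (hi n).aestronglyMeasurable) (integrable_const _) (fun n => ae_of_all _ (hb n))
      (ae_of_all _ fun ω => tendsto_const_nhds.congr' (by
        by_cases h : ω ∈ ⋃ k, f k
        · obtain ⟨k, hk⟩ := Set.mem_iUnion.1 h
          refine (eventually_gt_atTop k).mono fun n hn => ?_
          have h' : ω ∈ ⋃ k < n, f k := Set.mem_iUnion₂.2 ⟨k, hn, hk⟩
          simp only [Set.indicator_of_mem h, Set.indicator_of_mem h', sub_self, abs_zero]
        · refine Eventually.of_forall fun n => ?_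
          have h' : ω ∉ ⋃ k < n, f k := fun h' => h (Set.iUnion₂_subset_iUnion _ _ h')
          simp only [Set.indicator_of_notMem h, Set.indicator_of_notMem h', sub_self, abs_zero]))
    rw [integral_zero] at this
    obtain ⟨n, hn⟩ := ((tendsto_order.1 this).2 (ε / 2) (by linarith)).exists
    obtain ⟨C, hC⟩ := (h1 n).2 (ε / 2) (by linarith)
    have hI : Integrable (fun ω => |(⋃ k, f k).indicator (1 : Ω → ℝ) ω -
        (⋃ k < n, f k).indicator 1 ω|) σ :=
      .of_bound (hi n).aestronglyMeasurable 1 (ae_of_all _ (hb n))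
    refine ⟨C, lt_of_le_of_lt (integral_mono (ee_int hm hE _) (hI.add (ee_int hm (h1 n).1 C))
      fun ω => abs_sub_le _ _ _) ?_⟩
    have := integral_add hI (ee_int (σ := σ) hm (h1 n).1 C)
    simp only [Pi.add_apply]
    linarith

theorem msD_ev [Countable Γ] (hm : ∀ u, Measurable fun ω => rm (ν ω) u)
    (hx : ∀ᵐ ω ∂σ, ν ω ∈ Ext Γ) (u : Γ →ᵇ ℝ) : Measurable[msD σ hm] fun ω => rm (ν ω) u := by
  obtain ⟨e0, he0⟩ := exists_surjective_nat Γ
  have hs : ∀ γ N, ∃ n ≥ N, e0 (Nat.unpair n).1 = γ := fun γ N => by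
    obtain ⟨k, rfl⟩ := he0 γ
    exact ⟨Nat.pair k N, Nat.right_le_pair k N, by simp⟩
  have key : ∀ f : Γ →ᵇ ℝ, (∀ x, 0 ≤ f x ∧ f x ≤ 1) →
      Measurable[msD σ hm] fun ω => rm (ν ω) f := fun f hf => by
    refine @measurable_of_Ioi _ _ _ _ _ (msD σ hm) _ _ _ _ fun a => ?_
    obtain ⟨s, -, h1, h2⟩ := ((Measure.countable_meas_level_set_pos (μ := σ)
      (hm f)).dense_compl ℝ).exists_seq_strictAnti_tendsto a
    have : (fun ω => rm (ν ω) f) ⁻¹' Set.Ioi a = ⋃ k, {ω | s k < rm (ν ω) f} := by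
      ext ω
      simp only [Set.mem_preimage, Set.mem_Ioi, Set.mem_iUnion, Set.mem_setOf_eq]
      exact ⟨fun h => ((tendsto_order.1 h2).2 _ h).exists, fun ⟨k, hk⟩ => (h1 k).1.trans hk⟩
    rw [this]
    refine @MeasurableSet.iUnion _ _ (msD σ hm) _ _ fun k => ?_
    have h3 : ∀ᵐ ω ∂σ, rm (ν ω) f ≠ s k := by
      rw [ae_iff]
      simpa using (h1 k).2
    refine DD.of_lim hm (measurableSet_lt measurable_const (hm f))
      (fun n => {x | s k < w (fun n => e0 (Nat.unpair n).1) f n x}) ?_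
    filter_upwards [hx, h3] with ω h4 h5
    have R := rm_RM (ν ω)
    have h6 := ((R.erg (rm_erg h4) hs hf).sub_const (rm (ν ω) f * rm (ν ω) f)).div_const
      (|rm (ν ω) f - s k| * |rm (ν ω) f - s k|)
    rw [sub_self, zero_div] at h6
    have h7 := abs_pos.2 (sub_ne_zero.2 h5)
    refine squeeze_zero (fun n => abs_nonneg _) (fun n => ?_) h6
    by_cases h8 : s k < rm (ν ω) f
    · rw [ee_in (E := {ω | s k < rm (ν ω) f}) _ h8]
      refine R.cheb _ (R.wval _ f n) h7 fun x hx => ?_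
      simp only [Set.mem_compl_iff, Set.mem_setOf_eq, not_lt] at hx
      rw [abs_of_pos (sub_pos.2 h8), abs_of_neg (by linarith)]
      linarith
    · rw [ee_out (E := {ω | s k < rm (ν ω) f}) _ h8]
      refine R.cheb _ (R.wval _ f n) h7 fun x hx => ?_
      simp only [Set.mem_setOf_eq] at hx
      rw [abs_of_nonpos (by linarith), abs_of_pos (by linarith)]
      linarith
  have hp : 0 < 2 * ‖u‖ + 1 := by positivity
  have := ((key ((2 * ‖u‖ + 1)⁻¹ • (u + ‖u‖ • 1)) fun x => by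
    have h1 := abs_le.1 (u.norm_coe_le_norm x)
    change 0 ≤ (2 * ‖u‖ + 1)⁻¹ * (u x + ‖u‖ * 1) ∧ (2 * ‖u‖ + 1)⁻¹ * (u x + ‖u‖ * 1) ≤ 1
    exact ⟨mul_nonneg (inv_pos.2 hp).le (by linarith), by
      rw [inv_mul_le_iff₀ hp]; linarith⟩).const_mul (2 * ‖u‖ + 1)).sub_const ‖u‖
  convert this using 2 with ω
  simp only [map_smul, map_add, (rm_RM _).one, smul_eq_mul]
  field_simp
  ring

end Pool.Agent.H75.CQ
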