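import Pool.Agent.H75.CQ2

set_option linter.unusedSectionVars false
set_option linter.deprecated false

namespace Pool.Agent.H75.CQ
open Filter Topology MeasureTheory
open scoped BoundedContinuousFunction ComplexOrder

variable {Γ : Type} [AddCommGroup Γ] [TopologicalSpace Γ] [DiscreteTopology Γ]

theorem RM.abs_le {ρ : (Γ →ᵇ ℝ) →ₗ[ℝ] ℝ} (h : RM ρ) {u v : Γ →ᵇ ℝ} (e : ∀ x, |u x| ≤ v x) :
    |ρ u| ≤ ρ v := by
  have := h.mono (u := -v) (v := u) fun x => (_root_.abs_le.1 (e x)).1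
  rw [map_neg] at this
  exact _root_.abs_le.2 ⟨this, h.mono fun x => (_root_.abs_le.1 (e x)).2⟩

theorem bd (ν : Means Γ) (f : Γ →ᵇ ℂ) (C : Set Γ) :
    ‖ν.1 (f * ind C)‖ ≤ 2 * ‖f‖ * rm ν (iR C) := by
  have h0 : ∀ x, ‖(f * ind C) x‖ ≤ (‖f‖ • iR C) x := fun x => by
    rw [← c_iR]
    change ‖f x * (iR C x : ℂ)‖ ≤ ‖f‖ * iR C x
    rw [iR_apply]
    split_ifs
    · simpa using f.norm_coe_le_norm x
    · simp
  have h1 := (rm_RM ν).abs_le (u := re' (f * ind C)) fun x =>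
    (Complex.abs_re_le_norm _).trans (h0 x)
  have h2 := (rm_RM ν).abs_le (u := im' (f * ind C)) fun x =>
    (Complex.abs_im_le_norm _).trans (h0 x)
  rw [map_smul, smul_eq_mul] at h1 h2
  rw [rm_dec]
  refine (norm_add_le _ _).trans ?_
  rw [norm_mul, Complex.norm_I, one_mul, Complex.norm_real, Complex.norm_real]
  simp only [Real.norm_eq_abs]
  linarith

theorem ind_add (f : Γ →ᵇ ℂ) (C : Set Γ) : f * ind C + f * ind Cᶜ = f := by
  rw [← c_iR, ← c_iR]
  ext x
  by_cases h : x ∈ C <;> simp [iR_apply, h]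

theorem bd1 (ν : Means Γ) (f : Γ →ᵇ ℂ) : ‖ν.1 f‖ ≤ 4 * ‖f‖ := by
  have h1 := bd ν f ∅
  have h2 := bd ν f ∅ᶜ
  have h3 := norm_add_le (ν.1 (f * ind ∅)) (ν.1 (f * ind ∅ᶜ))
  rw [← ν.2.1.map_add, ind_add] at h3
  nlinarith [(rm_RM ν).i1 ∅, (rm_RM ν).i1 ∅ᶜ, norm_nonneg f]

theorem compact : CompactSpace (Means Γ) := by
  refine isCompact_iff_compactSpace.1 ((isCompact_univ_pi fun f : Γ →ᵇ ℂ =>
    isCompact_closedBall (0 : ℂ) (4 * ‖f‖)).of_isClosed_subset ?_
      fun m hm f _ => mem_closedBall_zero_iff.2 (bd1 ⟨m, hm⟩ f))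
  have : Means Γ = ((⋂ a, ⋂ b, {m | m (a + b) = m a + m b}) ∩
      ⋂ z : ℂ, ⋂ a, {m | m (z • a) = z • m a}) ∩
      ((⋂ f : Γ →ᵇ ℂ, ⋂ (_ : ∀ x, 0 ≤ f x), {m | 0 ≤ m f}) ∩
        ({m | m 1 = 1} ∩ ⋂ γ, ⋂ f, {m | m (tr γ f) = m f})) := by
    ext m
    simp only [Means, Set.mem_setOf_eq, Set.mem_inter_iff, Set.mem_iInter]
    exact and_congr_left' ⟨fun h => ⟨h.1, h.2⟩, fun h => ⟨h.1, h.2⟩⟩
  rw [this]
  refine ((isClosed_iInter fun a => isClosed_iInter fun b => ?_).inter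
    (isClosed_iInter fun a => isClosed_iInter fun b => ?_)).inter
    ((isClosed_iInter fun a => isClosed_iInter fun b => isClosed_le (by fun_prop)
      (by fun_prop)).inter (IsClosed.inter ?_
        (isClosed_iInter fun a => isClosed_iInter fun b => ?_))) <;>
    exact isClosed_eq (by fun_prop) (by fun_prop)

theorem ev_cont (u : Γ →ᵇ ℝ) : Continuous fun ν : Means Γ => rm ν u :=
  Complex.continuous_re.comp ((continuous_apply (c u)).comp continuous_subtype_val)

theorem ev_meas (u : Γ →ᵇ ℝ) : Measurable[alg Γ] fun ν : Means Γ => rm ν u :=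
  Measurable.of_comap_le (le_sup_of_le_left
    (le_iSup (fun g : C(Means Γ, ℝ) => (borel ℝ).comap g) ⟨_, ev_cont u⟩))

theorem cont_meas (D : MeasurableSpace (Means Γ))
    (h : ∀ u, Measurable[D] fun ν : Means Γ => rm ν u) (g : C(Means Γ, ℝ)) : Measurable[D] g := by
  haveI := compact (Γ := Γ)
  let T : Subalgebra ℝ C(Means Γ, ℝ) :=
    { carrier := {g | Measurable[D] g}
      mul_mem' := fun ha hb => Measurable.mul ha hb
      add_mem' := fun ha hb => Measurable.add ha hb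
      algebraMap_mem' := fun r => (measurable_const : Measurable[D] fun _ => algebraMap ℝ ℝ r) }
  have hs : T.SeparatesPoints := fun x y hxy => by
    by_contra hc
    push Not at hc
    have : ∀ u, rm x u = rm y u := fun u => hc _ ⟨⟨_, ev_cont u⟩, h u, rfl⟩
    exact hxy (Subtype.ext (funext fun f => by rw [rm_dec, rm_dec, this, this]))
  obtain ⟨x, hx, hl⟩ := mem_closure_iff_seq_limit.1
    (ContinuousMap.continuousMap_mem_subalgebra_closure_of_separatesPoints T hs g)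
  exact measurable_of_tendsto_metrizable hx (tendsto_pi_nhds.2 fun ν =>
    ((continuous_eval_const ν).tendsto g).comp hl)

theorem fin {Ω : Type} {m0 : MeasurableSpace Ω} {σ : Measure Ω} [IsProbabilityMeasure σ]
    {ν : Ω → Means Γ} (hm : ∀ u, Measurable fun ω => rm (ν ω) u) {m : (Γ →ᵇ ℂ) → ℂ}
    (hσ : ∀ f, m f = ∫ ω, (ν ω).1 f ∂σ) {E : Set Ω} (hE : DD σ ν E) :
    ∃ C : ℕ → Set Γ,
      Tendsto (fun p : ℕ × ℕ => m (star (ind (C p.1) - ind (C p.2)) * (ind (C p.1) - ind (C p.2))))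
        atTop (𝓝 0) ∧
      (∀ γ, Tendsto (fun n => m (star (tr γ (ind (C n)) - ind (C n)) *
        (tr γ (ind (C n)) - ind (C n)))) atTop (𝓝 0)) ∧
      ∀ f, Tendsto (fun n => m (f * ind (C n))) atTop (𝓝 (∫ ω in E, (ν ω).1 f ∂σ)) := by
  choose C hC using fun n : ℕ => hE.2 (1 / ((n : ℝ) + 1)) (by positivity)
  have h0 : Tendsto (fun n => ∫ ω, ee ν E (C n) ω ∂σ) atTop (𝓝 0) :=
    squeeze_zero (fun n => integral_nonneg fun ω => abs_nonneg _) (fun n => (hC n).le)
      tendsto_one_div_add_atTop_nhds_zero_nat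
  have hI : ∀ f, Integrable (fun ω => (ν ω).1 f) σ := fun f => by
    refine .of_bound (Measurable.aestronglyMeasurable ?_) _ (ae_of_all _ fun ω => bd1 _ f)
    simp only [rm_dec]
    exact (Complex.measurable_ofReal.comp (hm _)).add
      ((Complex.measurable_ofReal.comp (hm _)).const_mul _)
  have h1 : ∀ A B : Set Γ, ‖m (star (ind A - ind B) * (ind A - ind B))‖ ≤
      ∫ ω, ee ν E A ω ∂σ + ∫ ω, ee ν E B ω ∂σ := fun A B => by
    have e : star (ind A - ind B) * (ind A - ind B) = c (iR (symmDiff A B)) := by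
      rw [← c_iR, ← c_iR]
      ext x
      by_cases h1 : x ∈ A <;> by_cases h2 : x ∈ B <;> simp [iR_apply, h1, h2, Set.mem_symmDiff]
    rw [hσ, e, ← integral_add (ee_int hm hE.1 A) (ee_int hm hE.1 B)]
    refine norm_integral_le_of_norm_le ((ee_int hm hE.1 A).add (ee_int hm hE.1 B))
      (ae_of_all _ fun ω => ?_)
    rw [rm_c, Complex.norm_real, Real.norm_of_nonneg ((rm_RM _).i0 _)]
    by_cases h : ω ∈ E
    · rw [ee_in _ h, ee_in _ h]
      exact (rm_RM _).iu fun x hx => by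
        simp only [Set.mem_symmDiff, Set.mem_union, Set.mem_compl_iff] at hx ⊢
        tauto
    · rw [ee_out _ h, ee_out _ h]
      exact (rm_RM _).iu fun x hx => by
        simp only [Set.mem_symmDiff, Set.mem_union] at hx ⊢
        tauto
  refine ⟨C, squeeze_zero_norm (fun p => h1 _ _) ?_, fun γ => ?_, fun f => ?_⟩
  · rw [← prod_atTop_atTop_eq]
    simpa using (h0.comp tendsto_fst).add (h0.comp tendsto_snd)
  · refine squeeze_zero_norm (fun n => ?_) (by simpa using h0.add h0)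
    have := h1 ((fun x => x - γ) ⁻¹' C n) (C n)
    have e : ee ν E ((fun x => x - γ) ⁻¹' C n) = ee ν E (C n) := funext fun ω => by
      rw [ee, ee, ← (rm_RM _).inv γ (iR (C n))]
      rfl
    rw [e, ← two_mul] at this
    rw [← two_mul]
    exact this
  · rw [tendsto_iff_norm_sub_tendsto_zero]
    refine squeeze_zero (fun _ => norm_nonneg _) (fun n => ?_)
      (by simpa using h0.const_mul (2 * ‖f‖))
    rw [hσ, ← integral_indicator hE.1, ← integral_sub (hI _) ((hI f).indicator hE.1),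
      ← integral_const_mul]
    refine norm_integral_le_of_norm_le ((ee_int hm hE.1 _).const_mul _) (ae_of_all _ fun ω => ?_)
    by_cases h : ω ∈ E
    · rw [ee_in _ h, Set.indicator_of_mem h]
      nth_rewrite 2 [← ind_add f (C n)]
      rw [(ν ω).2.1.map_add, sub_add_cancel_left, norm_neg]
      exact bd _ _ _
    · rw [ee_out _ h, Set.indicator_of_notMem h, sub_zero]
      exact bd _ _ _

theorem main [Countable Γ] (m : (Γ →ᵇ ℂ) → ℂ) (σ : @Measure (Means Γ) (alg Γ))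
    (h1 : IsProbabilityMeasure σ) (h2 : σ (Ext Γ) = 1) (hσ : ∀ f, m f = ∫ ν, ν.1 f ∂σ)
    (E : Set (Means Γ)) (hE : @NullMeasurableSet _ (alg Γ) E σ) :
    ∃ C : ℕ → Set Γ,
      Tendsto (fun p : ℕ × ℕ => m (star (ind (C p.1) - ind (C p.2)) * (ind (C p.1) - ind (C p.2))))
        atTop (𝓝 0) ∧
      (∀ γ, Tendsto (fun n => m (star (tr γ (ind (C n)) - ind (C n)) *
        (tr γ (ind (C n)) - ind (C n)))) atTop (𝓝 0)) ∧
      ∀ f, Tendsto (fun n => m (f * ind (C n))) atTop (𝓝 (∫ ν in E, ν.1 f ∂σ)) := by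
  letI : MeasurableSpace (Means Γ) := alg Γ
  have hX : MeasurableSet (Ext Γ) :=
    (le_sup_right : _ ≤ alg Γ) _ (MeasurableSpace.measurableSet_generateFrom rfl)
  have hx : ∀ᵐ ω ∂σ, id ω ∈ Ext Γ := (mem_ae_iff_prob_eq_one hX).2 h2
  have hm : ∀ u, Measurable fun ω : Means Γ => rm (id ω) u := ev_meas
  have hle : alg Γ ≤ msD σ hm := sup_le (iSup_le fun g =>
    (cont_meas _ (msD_ev hm hx) g).comap_le) (MeasurableSpace.generateFrom_le (by
      rintro _ rfl
      exact DD.univ hm hX hx))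
  have := fin hm hσ (hle _ (measurableSet_toMeasurable σ E))
  simp only [setIntegral_congr_set hE.toMeasurable_ae_eq] at this
  exact this

end Pool.Agent.H75.CQ
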