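import Mathlib

namespace Pool.Agent.H75.CQ
open scoped BoundedContinuousFunction ComplexOrder

variable {Γ : Type} [AddCommGroup Γ] [TopologicalSpace Γ] [DiscreteTopology Γ]

/-- the translate `x ↦ f (x - γ)` -/
noncomputable def tr (γ : Γ) (f : Γ →ᵇ ℂ) : Γ →ᵇ ℂ :=
  f.compContinuous ⟨fun x => x - γ, continuous_of_discreteTopology⟩

/-- the indicator function of `C` -/
noncomputable def ind (C : Set Γ) : Γ →ᵇ ℂ :=
  BoundedContinuousFunction.ofNormedAddCommGroupDiscrete (C.indicator fun _ => 1) 1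
    fun x => (norm_indicator_le_norm_self _ x).trans norm_one.le

variable (Γ)

/-- the invariant means, as functions on `ℓ^∞(Γ)` (the product topology is the weak-* topology) -/
def Means : Set ((Γ →ᵇ ℂ) → ℂ) :=
  {m | IsLinearMap ℂ m ∧ (∀ f : Γ →ᵇ ℂ, (∀ x, 0 ≤ f x) → 0 ≤ m f) ∧ m 1 = 1 ∧
    ∀ γ f, m (tr γ f) = m f}

/-- the extreme invariant means -/
def Ext : Set (Means Γ) := {ν | ν.1 ∈ (Means Γ).extremePoints ℝ}

/-- the σ-algebra generated by the Baire sets and the set of extreme points -/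
noncomputable def alg : MeasurableSpace (Means Γ) :=
  (⨆ g : C(Means Γ, ℝ), (borel ℝ).comap g) ⊔ MeasurableSpace.generateFrom {Ext Γ}

end Pool.Agent.H75.CQ
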