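import Mathlib

/-! Murray-von Neumann equivalence along paths of projections. -/

set_option autoImplicit false

namespace Pool.Agent.H75.CV

open unitInterval Topology Filter

/-- `v` is a partial isometry from `p` to `q`. -/
def Iso {E : Type} [Mul E] [Star E] (v p q : E) : Prop := star v * v = p ∧ v * star v = q

section
variable {E : Type} [CStarAlgebra E] {p q r v w : E}

theorem Iso.symm (h : Iso v p q) : Iso (star v) q p := ⟨by rw [star_star, h.2], by
  rw [star_star, h.1]⟩

theorem Iso.right (hp : IsStarProjection p) (h : Iso v p q) : v * p = v := by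
  have h1 := hp.isIdempotentElem.eq
  rw [← sub_eq_zero, ← CStarRing.star_mul_self_eq_zero_iff, star_sub, star_mul,
    hp.isSelfAdjoint.star_eq]
  simp only [sub_mul, mul_sub, mul_assoc, ← mul_assoc (star v), h.1, h1, sub_self]

theorem Iso.left (hp : IsStarProjection p) (h : Iso v p q) : q * v = v := by
  rw [← h.2, mul_assoc, h.1, h.right hp]

theorem Iso.proj (hp : IsStarProjection p) (h : Iso v p q) : IsStarProjection q :=
  ⟨by rw [IsIdempotentElem]; nth_rewrite 2 [← h.2]; rw [← mul_assoc, h.left hp, h.2],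
    by rw [← h.2]; exact IsSelfAdjoint.mul_star_self v⟩

theorem Iso.trans (hp : IsStarProjection p) (h : Iso v p q) (h' : Iso w q r) :
    Iso (w * v) p r := by
  constructor
  · rw [star_mul, mul_assoc, ← mul_assoc (star w), h'.1, h.left hp, h.1]
  · rw [star_mul, mul_assoc, ← mul_assoc v, h.2, ← mul_assoc, h'.right (h.proj hp), h'.2]

theorem Iso.refl (hp : IsStarProjection p) : Iso p p p :=
  ⟨by rw [hp.isSelfAdjoint.star_eq, hp.isIdempotentElem.eq],
    by rw [hp.isSelfAdjoint.star_eq, hp.isIdempotentElem.eq]⟩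

theorem close (hp : IsStarProjection p) (hq : IsStarProjection q) (h : ‖p - q‖ < 1) :
    ∃ v, Iso v p q := by
  rcases subsingleton_or_nontrivial E with _ | _
  · exact ⟨0, Subsingleton.elim _ _, Subsingleton.elim _ _⟩
  have h1 := hp.isIdempotentElem.eq
  have h2 := hq.isIdempotentElem.eq
  obtain ⟨y, hy⟩ : ∃ y, y = (p - q) * (p - q) := ⟨_, rfl⟩
  have sy : IsSelfAdjoint y := by
    rw [hy, ← sq]; exact (hp.isSelfAdjoint.sub hq.isSelfAdjoint).pow 2
  have ny : ‖y‖ < 1 := by
    rw [hy]; exact (norm_mul_le _ _).trans_lt (by nlinarith [norm_nonneg (p - q)])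
  have sp : ∀ t ∈ spectrum ℝ y, 0 < 1 - t := fun t ht => by
    have := (spectrum.norm_le_norm_of_mem ht).trans_lt ny
    rw [Real.norm_eq_abs, abs_lt] at this; linarith [this.2]
  have e1 : p * (1 - y) = p * q * p := by
    rw [hy]; simp only [mul_sub, sub_mul, mul_one, ← mul_assoc, h1, mul_assoc p q q, h2]; abel
  have e2 : (1 - y) * p = p * q * p := by
    rw [hy]; simp only [mul_sub, sub_mul, one_mul, mul_assoc, h1, ← mul_assoc q q p, h2]; abel
  have e3 : q * (1 - y) = q * p * q := by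
    rw [hy]; simp only [mul_sub, sub_mul, mul_one, ← mul_assoc, h2, mul_assoc q p p, h1]; abel
  have e4 : (1 - y) * q = q * p * q := by
    rw [hy]; simp only [mul_sub, sub_mul, one_mul, mul_assoc, h2, ← mul_assoc p p q, h1]; abel
  have c : ∀ {z : E}, z * (1 - y) = (1 - y) * z → Commute y z := fun {z} hz => by
    rw [mul_sub, sub_mul, mul_one, one_mul] at hz
    exact (sub_right_injective hz).symm
  obtain ⟨f, hf⟩ : ∃ f : ℝ → ℝ, f = fun t => (√(1 - t))⁻¹ := ⟨_, rfl⟩
  have cf : ContinuousOn f (spectrum ℝ y) := by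
    rw [hf]; exact ContinuousOn.inv₀ (by fun_prop) fun t ht => (Real.sqrt_pos.2 (sp t ht)).ne'
  have cp := (c (e1.trans e2.symm)).cfc_real f
  have cq := (c (e3.trans e4.symm)).cfc_real f
  have cy : Commute (cfc f y) (1 - y) :=
    (Commute.one_right _).sub_right ((Commute.refl y).cfc_real f)
  have sb : star (cfc f y) = cfc f y := (cfc_predicate f y : IsSelfAdjoint _).star_eq
  have key : cfc f y * (1 - y) * cfc f y = 1 := by
    have : (1 - y : E) = cfc (fun t : ℝ => 1 - t) y := by
      rw [cfc_sub _ _ y, cfc_const_one ℝ y, cfc_id' ℝ y]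
    rw [this, ← cfc_mul _ _ y, ← cfc_mul _ _ y, ← cfc_const_one ℝ y]
    refine cfc_congr fun t ht => ?_
    have := Real.sqrt_pos.2 (sp t ht)
    have h3 := Real.mul_self_sqrt (sp t ht).le
    simp only [hf]; field_simp; nlinarith
  generalize cfc f y = b at *
  refine ⟨q * p * b, ?_, ?_⟩ <;>
    simp only [star_mul, sb, hp.isSelfAdjoint.star_eq, hq.isSelfAdjoint.star_eq]
  · calc b * (p * q) * (q * p * b) = b * (p * (q * q) * p) * b := by simp only [mul_assoc]
      _ = p * (b * (1 - y) * b) := by rw [h2, ← e1, ← mul_assoc b, cp.eq]; simp only [mul_assoc]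
      _ = p := by rw [key, mul_one]
  · calc q * p * b * (b * (p * q)) = q * (p * b) * (b * p) * q := by simp only [mul_assoc]
      _ = (q * b) * (p * p) * (b * q) := by rw [← cp.eq]; nth_rewrite 2 [cp.eq]; simp only [mul_assoc]
      _ = b * (q * p * q) * b := by rw [h1, ← cq.eq]; nth_rewrite 2 [cq.eq]; simp only [mul_assoc]
      _ = (b * (1 - y) * b) * q := by rw [← e4, mul_assoc _ b q, cq.eq]; simp only [mul_assoc]
      _ = q := by rw [key, one_mul]

theorem homot {P : I → E} (c : Continuous P) (h : ∀ t, IsStarProjection (P t)) (s t : I) :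
    ∃ v, Iso v (P s) (P t) := by
  refine PreconnectedSpace.induction₂' (fun s t => ∃ v, Iso v (P s) (P t)) (fun x => ?_)
    ⟨fun a b c ⟨v, hv⟩ ⟨w, hw⟩ => ⟨_, hv.trans (h a) hw⟩⟩ s t
  have : ∀ᶠ y in 𝓝 x, ‖P x - P y‖ < 1 :=
    (by fun_prop : Continuous fun y => ‖P x - P y‖).continuousAt.eventually_lt continuousAt_const
      (by simp)
  filter_upwards [this] with y hy
  exact ⟨close (h x) (h y) hy, close (h y) (h x) (by rwa [norm_sub_rev])⟩

/-- Trivialisation of a path of projections. -/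
theorem triv {P : I → E} (c : Continuous P) (h : ∀ t, IsStarProjection (P t)) :
    ∃ u : I → E, Continuous u ∧ ∀ t, Iso (u t) (P 0) (P t) := by
  let G : C(I × I, E) := ⟨fun x => P (x.1 * x.2), c.comp (Continuous.subtype_mk (by fun_prop) _)⟩
  obtain ⟨v, hv⟩ := homot (E := C(I, E)) (P := G.curry) G.curry.continuous
    (fun s => ⟨by ext t; exact (h _).isIdempotentElem.eq,
      by ext t; exact (h _).isSelfAdjoint.star_eq⟩) 0 1
  refine ⟨v, v.continuous, fun t => ⟨?_, ?_⟩⟩
  · simpa [G] using congrArg (fun f : C(I, E) => f t) hv.1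
  · simpa [G] using congrArg (fun f : C(I, E) => f t) hv.2

/-- The unitary group of the corner of `p` is path connected. -/
def Conn (p : E) : Prop :=
  ∀ y, Iso y p p → ∃ z : I → E, Continuous z ∧ (∀ t, Iso (z t) p p) ∧ z 0 = p ∧ z 1 = y

theorem lift {P Q : I → E} (cP : Continuous P) (hP : ∀ t, IsStarProjection (P t))
    (cQ : Continuous Q) (hQ : ∀ t, IsStarProjection (Q t)) (hc : Conn (P 0)) {a b : E}
    (ha : Iso a (P 0) (Q 0)) (hb : Iso b (P 1) (Q 1)) :
    ∃ W : I → E, Continuous W ∧ (∀ t, Iso (W t) (P t) (Q t)) ∧ W 0 = a ∧ W 1 = b := by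
  obtain ⟨u, cu, hu⟩ := triv cP hP
  obtain ⟨r, cr, hr⟩ := triv cQ hQ
  have z0 : Iso (star (r 0) * (a * u 0)) (P 0) (Q 0) :=
    ((hu 0).trans (hP 0) ha).trans (hP 0) (hr 0).symm
  have z1 : Iso (star (r 1) * (b * u 1)) (P 0) (Q 0) :=
    ((hu 1).trans (hP 0) hb).trans (hP 0) (hr 1).symm
  obtain ⟨z, cz, hz, e0, e1⟩ := hc _ (z1.trans (hP 0) z0.symm)
  refine ⟨fun t => r t * (star (r 0) * (a * u 0) * (z t * star (u t))), by fun_prop, fun t =>
    (((hu t).symm.trans (hP t) (hz t)).trans (hP t) z0).trans (hP t) (hr t), ?_, ?_⟩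
  · simp only [e0]
    rw [← mul_assoc _ (P 0), z0.right (hP 0), ← mul_assoc, ← mul_assoc, (hr 0).2, mul_assoc,
      mul_assoc, (hu 0).2, ha.right (hP 0), ha.left (hP 0)]
  · simp only [e1]
    rw [← mul_assoc _ _ (star (u 1)), ← mul_assoc _ (star _), z0.2, z1.left (hP 0), ← mul_assoc,
      ← mul_assoc, (hr 1).2, mul_assoc, mul_assoc, (hu 1).2, hb.right (hP 1), hb.left (hP 1)]

theorem conn_one (h : ∀ y : E, (spectrum ℂ y).Finite) : Conn (1 : E) := fun y hy => by
  have hu : y ∈ unitary E := hy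
  have inf : (Set.range fun t : Set.Ioo (0 : ℝ) 1 => -Complex.exp (t * Complex.I)).Infinite := by
    have := (Set.Ioo_infinite (zero_lt_one' ℝ)).to_subtype
    refine Set.infinite_range_of_injective fun s t hst => Subtype.ext ?_
    have := congrArg Complex.re (neg_injective hst)
    simp only [Complex.exp_ofReal_mul_I_re] at this
    have h3 := Real.pi_gt_three
    exact Real.injOn_cos ⟨s.2.1.le, by linarith [s.2.2]⟩ ⟨t.2.1.le, by linarith [t.2.2]⟩ this
  obtain ⟨_, ⟨t, rfl⟩, ht⟩ := inf.exists_notMem_finite ((h y).insert 1)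
  obtain ⟨l, hl⟩ : ∃ l, l = Complex.exp (t * Complex.I) := ⟨_, rfl⟩
  simp only [← hl, Set.mem_insert_iff, not_or] at ht
  have l1 : star l * l = 1 := by
    rw [Complex.star_def, Complex.conj_mul', hl, Complex.norm_exp_ofReal_mul_I]; simp
  have l2 : l * star l = 1 := by rw [mul_comm, l1]
  have lu : algebraMap ℂ E l ∈ unitary E :=
    ⟨by rw [← algebraMap_star_comm, ← map_mul, l1, map_one],
      by rw [← algebraMap_star_comm, ← map_mul, l2, map_one]⟩
  have j1 : Joined (1 : unitary E) ⟨_, lu⟩ := Unitary.joined _ _ (by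
    refine (Unitary.norm_sub_one_lt_two_iff lu).2 fun hh => ?_
    rcases subsingleton_or_nontrivial E with _ | _
    · simp at hh
    · rw [spectrum.scalar_eq] at hh
      exact ht.1 (by rw [← Set.mem_singleton_iff.1 hh, neg_neg]))
  have j2 : Joined (⟨_, lu⟩ : unitary E) ⟨y, hu⟩ := Unitary.joined _ _ (by
    rw [Unitary.norm_sub_eq]
    refine (Unitary.norm_sub_one_lt_two_iff (Subtype.prop _)).2 fun hh => ht.2 ?_
    rw [spectrum.mem_iff] at hh ⊢
    intro hv; apply hh
    have : algebraMap ℂ E (-1) - y * star (algebraMap ℂ E l) =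
        (algebraMap ℂ E (-l) - y) * star (algebraMap ℂ E l) := by
      rw [sub_mul, ← algebraMap_star_comm, ← map_mul, neg_mul, l2]
    exact this ▸ hv.mul (Unitary.toUnits (star ⟨_, lu⟩)).isUnit)
  obtain ⟨γ⟩ := j1.trans j2
  exact ⟨fun t => γ t, by fun_prop, fun t => (γ t).2, by simp, by simp⟩

end

end Pool.Agent.H75.CV
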