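import Pool.Agent.H75.CV1

/-! Compact operators on the Hilbert space of square summable sequences. -/

set_option autoImplicit false

namespace Pool.Agent.H75.CV

open unitInterval Topology Filter ContinuousLinearMap Module

abbrev H : Type := lp (fun _ : ℕ => ℂ) 2
abbrev B : Type := H →L[ℂ] H

def FR : Set B := {a | FiniteDimensional ℂ a.range ∧ FiniteDimensional ℂ (star a).range}

/-- The compact operators. -/
def D : Set B := closure FR

theorem fd_mul_left (b : B) {a : B} (h : FiniteDimensional ℂ a.range) :
    FiniteDimensional ℂ (b * a).range := by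
  have : (b * a).range = a.range.map (b : H →ₗ[ℂ] H) := LinearMap.range_comp _ _
  rw [this]; infer_instance

theorem fd_mul_right (b : B) {a : B} (h : FiniteDimensional ℂ a.range) :
    FiniteDimensional ℂ (a * b).range :=
  Submodule.finiteDimensional_of_le (S₂ := a.range) (LinearMap.range_comp_le_range _ _)

theorem fd_add {a b : B} (h : FiniteDimensional ℂ a.range) (h' : FiniteDimensional ℂ b.range) :
    FiniteDimensional ℂ (a + b).range :=
  Submodule.finiteDimensional_of_le (S₂ := a.range ⊔ b.range) (LinearMap.range_add_le _ _)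

theorem D_left (b : B) {a : B} (h : a ∈ D) : b * a ∈ D :=
  map_mem_closure (f := fun a => b * a) (by fun_prop) h fun _ h =>
    ⟨fd_mul_left b h.1, by rw [star_mul]; exact fd_mul_right _ h.2⟩

theorem D_right (b : B) {a : B} (h : a ∈ D) : a * b ∈ D :=
  map_mem_closure (f := fun a => a * b) (by fun_prop) h fun _ h =>
    ⟨fd_mul_right b h.1, by rw [star_mul]; exact fd_mul_left _ h.2⟩

theorem D_star {a : B} (h : a ∈ D) : star a ∈ D :=
  map_mem_closure (f := fun a => star a) (by fun_prop) h fun _ h => ⟨h.2, by rw [star_star]; exact h.1⟩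

theorem D_add {a b : B} (h : a ∈ D) (h' : b ∈ D) : a + b ∈ D :=
  map_mem_closure₂ (f := fun a b => a + b) (by fun_prop) h h' fun _ h _ h' =>
    ⟨fd_add h.1 h'.1, by rw [star_add]; exact fd_add h.2 h'.2⟩

theorem D_zero : (0 : B) ∈ D := by
  have : FiniteDimensional ℂ (0 : B).range := by
    have : (0 : B).range = ⊥ := LinearMap.range_zero
    rw [this]; infer_instance
  exact subset_closure ⟨this, by rwa [star_zero]⟩

theorem D_sum {ι : Type} (s : Finset ι) {f : ι → B} (h : ∀ i, f i ∈ D) : ∑ i ∈ s, f i ∈ D :=
  Finset.sum_induction f (· ∈ D) (fun _ _ => D_add) D_zero fun i _ => h i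

variable {p q v : B}

theorem fix (hp : IsStarProjection p) {x : H} (hx : x ∈ p.range) : p x = x := by
  obtain ⟨y, rfl⟩ := hx
  exact congrArg (fun a : B => a y) hp.isIdempotentElem.eq

theorem fd_of_D (hp : IsStarProjection p) (h : p ∈ D) : FiniteDimensional ℂ p.range := by
  obtain ⟨f, hf, d⟩ := Metric.mem_closure_iff.1 h 1 one_pos
  have := hf.1
  refine FiniteDimensional.of_injective
    (f.toLinearMap.rangeRestrict.comp p.range.subtype) ((injective_iff_map_eq_zero _).2 ?_)
  rintro ⟨x, hx⟩ h0
  have h1 : f x = 0 := congrArg Subtype.val h0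
  have h2 := (p - f).le_opNorm x
  rw [sub_apply, h1, fix hp hx, sub_zero, ← dist_eq_norm] at h2
  refine Subtype.ext (norm_eq_zero.1 ?_)
  by_contra hh
  have : 0 < ‖x‖ := lt_of_le_of_ne (norm_nonneg x) (Ne.symm hh)
  nlinarith

noncomputable def rk (a : B) : ℕ := finrank ℂ a.range

theorem rk_iso (hp : IsStarProjection p) (h : Iso v p q) : rk p = rk q := by
  have key : ∀ {p q v : B}, IsStarProjection p → Iso v p q →
      Module.rank ℂ q.range ≤ Module.rank ℂ p.range := fun {p q v} hp h => by
    have e : q = v * p * star v := by rw [h.right hp, h.2]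
    rw [e]
    exact (LinearMap.rank_comp_le_left (star v).toLinearMap (v * p).toLinearMap).trans
      (LinearMap.rank_comp_le_right p.toLinearMap v.toLinearMap)
  exact congrArg Cardinal.toNat (le_antisymm (key (h.proj hp) h.symm) (key hp h))

theorem rk_add (hp : IsStarProjection p) (hq : IsStarProjection q) (dp : p ∈ D) (dq : q ∈ D)
    (h : p * q = 0) : rk (p + q) = rk p + rk q := by
  have := fd_of_D hp dp
  have := fd_of_D hq dq
  have h' : q * p = 0 := by
    simpa [hp.isSelfAdjoint.star_eq, hq.isSelfAdjoint.star_eq] using congrArg star h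
  have k : ∀ {p q : B}, IsStarProjection q → p * q = 0 → ∀ x ∈ q.range, p x = 0 :=
    fun {p q} hq h x hx => by rw [← fix hq hx]; exact congrArg (fun a : B => a x) h
  have e1 : (p + q).range = p.range ⊔ q.range :=
    le_antisymm (LinearMap.range_add_le _ _) (sup_le
      (fun x hx => ⟨x, by simp [fix hp hx, k hp h' x hx]⟩)
      fun x hx => ⟨x, by simp [fix hq hx, k hq h x hx]⟩)
  have e2 : p.range ⊓ q.range = ⊥ :=
    eq_bot_iff.2 fun x hx => (fix hp hx.1).symm.trans (k hq h x hx.2)
  have := Submodule.finrank_sup_add_finrank_inf_eq p.range q.range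
  rw [e2, finrank_bot, add_zero] at this
  rw [rk, e1, this, rk, rk]

theorem frame (hp : IsStarProjection p) [CompleteSpace p.range] :
    adjoint p.range.subtypeL ∘L p.range.subtypeL = 1 ∧
      p.range.subtypeL ∘L adjoint p.range.subtypeL = p := by
  refine ⟨(norm_map_iff_adjoint_comp_self _).1 fun _ => rfl, ?_⟩
  obtain ⟨_, h⟩ := isStarProjection_iff_eq_starProjection_range.1 hp
  rw [Submodule.adjoint_subtypeL]
  exact h.symm

theorem iso_frame (hp : IsStarProjection p) (hq : IsStarProjection q) [CompleteSpace p.range]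
    [CompleteSpace q.range] {e : p.range →L[ℂ] q.range} (h1 : adjoint e ∘L e = 1)
    (h2 : e ∘L adjoint e = 1) : Iso (q.range.subtypeL ∘L e ∘L adjoint p.range.subtypeL) p q := by
  constructor <;> simp only [star_eq_adjoint, adjoint_comp, adjoint_adjoint, mul_def, comp_assoc]
  · rw [← comp_assoc (adjoint q.range.subtypeL), (frame hq).1, one_def, id_comp,
      ← comp_assoc (adjoint e), h1, one_def, id_comp, (frame hp).2]
  · rw [← comp_assoc (adjoint p.range.subtypeL), (frame hp).1, one_def, id_comp,
      ← comp_assoc e, h2, one_def, id_comp, (frame hq).2]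

theorem exists_iso (hp : IsStarProjection p) (hq : IsStarProjection q) (dp : p ∈ D) (dq : q ∈ D)
    (h : rk p = rk q) : ∃ v, Iso v p q := by
  have := fd_of_D hp dp
  have := fd_of_D hq dq
  have := FiniteDimensional.complete ℂ p.range
  have := FiniteDimensional.complete ℂ q.range
  let e := (stdOrthonormalBasis ℂ p.range).equiv (stdOrthonormalBasis ℂ q.range) (finCongr h)
  refine ⟨_, iso_frame hp hq (e := e) ?_ ?_⟩ <;> rw [LinearIsometryEquiv.adjoint_eq_symm] <;>
    ext x <;> simp

theorem conn (hp : IsStarProjection p) (dp : p ∈ D) : Conn p := fun y hy => by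
  have := fd_of_D hp dp
  have := FiniteDimensional.complete ℂ p.range
  obtain ⟨f1, f2⟩ := frame hp
  have f3 : p ∘L p.range.subtypeL = p.range.subtypeL := by ext1 x; exact fix hp x.2
  have l := hy.left hp
  have r := hy.right hp
  have u : Iso (adjoint p.range.subtypeL ∘L y ∘L p.range.subtypeL) 1 1 := by
    have h1 := hy.1
    have h2 := hy.2
    have r' := hy.symm.right hp
    have l' := hy.symm.left hp
    simp only [star_eq_adjoint, mul_def] at h1 h2 l r l' r'
    constructor <;> simp only [star_eq_adjoint, adjoint_comp, adjoint_adjoint, mul_def, comp_assoc]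
    · rw [← comp_assoc p.range.subtypeL, f2, ← comp_assoc p, l, ← comp_assoc (adjoint y), h1, f3, f1]
    · rw [← comp_assoc p.range.subtypeL, f2, ← comp_assoc p, l', ← comp_assoc y, h2, f3, f1]
  obtain ⟨z, cz, hz, z0, z1⟩ := conn_one (E := p.range →L[ℂ] p.range)
    (fun a => by rw [spectrum_eq]; exact Module.End.finite_spectrum _) _ u
  refine ⟨fun t => p.range.subtypeL ∘L z t ∘L adjoint p.range.subtypeL, by fun_prop,
    fun t => iso_frame hp hp (hz t).1 (hz t).2, ?_, ?_⟩
  · simp only [z0]; rw [one_def, id_comp, f2]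
  · simp only [z1, comp_assoc]; rw [f2, ← comp_assoc, f2]
    exact (congrArg (p * ·) r).trans l

theorem exists_one : ∃ e : B, IsStarProjection e ∧ e ∈ D ∧ rk e = 1 := by
  let b : HilbertBasis ℕ ℂ H := default
  have h := (ℂ ∙ b 0).range_starProjection
  have fd : FiniteDimensional ℂ (ℂ ∙ b 0).starProjection.range := by rw [h]; infer_instance
  refine ⟨(ℂ ∙ b 0).starProjection, isStarProjection_starProjection,
    subset_closure ⟨fd, by rwa [(isSelfAdjoint_starProjection _).star_eq]⟩, ?_⟩
  rw [rk, h, finrank_span_singleton (b.orthonormal.ne_zero 0)]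

theorem exists_t : ∃ t : ℕ → B, ∀ i j, star (t i) * t j = if i = j then 1 else 0 := by
  let b : HilbertBasis ℕ ℂ H := default
  have o : ∀ i, Orthonormal ℂ (b ∘ Nat.pair i) := fun i =>
    b.orthonormal.comp _ fun x y h => (Nat.pair_eq_pair.1 h).2
  refine ⟨fun i => (o i).orthogonalFamily.linearIsometry.toContinuousLinearMap, fun i j => ?_⟩
  split_ifs with h
  · subst h
    exact (norm_map_iff_adjoint_comp_self _).1 fun x => LinearIsometry.norm_map _ x
  · ext1 y
    refine ext_inner_left ℂ fun x => ?_
    rw [ContinuousLinearMap.mul_apply, star_eq_adjoint, adjoint_inner_right,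
      ContinuousLinearMap.zero_apply, inner_zero_right]
    have k : ∀ (i : ℕ) (z y : H), (∀ n, inner ℂ z (b (Nat.pair i n)) = 0) →
        inner ℂ z ((o i).orthogonalFamily.linearIsometry y) = 0 := fun i z y hz => by
      have := (innerSL ℂ z).hasSum ((o i).orthogonalFamily.hasSum_linearIsometry y)
      simp only [LinearIsometry.toSpanSingleton_apply, innerSL_apply_apply, inner_smul_right,
        Function.comp_apply, hz, mul_zero] at this
      exact this.unique hasSum_zero
    refine k j _ y fun n => ?_
    rw [inner_eq_zero_symm]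
    exact k i _ x fun m => b.orthonormal.2 fun hh => h (Nat.pair_eq_pair.1 hh).1.symm

end Pool.Agent.H75.CV
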