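import Pool.Agent.H75.CV2

/-! Matrices of operators as operators. -/

set_option autoImplicit false

namespace Pool.Agent.H75.CV

open Matrix

noncomputable def t : ℕ → B := exists_t.choose

theorem tt (i j : ℕ) : star (t i) * t j = if i = j then 1 else 0 := exists_t.choose_spec i j

theorem tt1 (i : ℕ) : star (t i) * t i = 1 := by rw [tt, if_pos rfl]

theorem norm_le {v p : B} (hp : IsStarProjection p) (h : star v * v = p) : ‖v‖ ≤ 1 := by
  have h1 := CStarRing.norm_star_mul_self (x := v)
  have h2 := hp.norm_le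
  rw [h] at h1
  nlinarith [norm_nonneg v]

theorem iso_conj {a p : B} (hp : IsStarProjection p) (h : star a * a * p = p) :
    Iso (a * p) p (a * p * star a) := by
  constructor <;> rw [star_mul, hp.isSelfAdjoint.star_eq]
  · rw [mul_assoc, ← mul_assoc (star a), h, hp.isIdempotentElem.eq]
  · rw [mul_assoc, ← mul_assoc p, hp.isIdempotentElem.eq, mul_assoc]

theorem rk_two {a b p q : B} (hp : IsStarProjection p) (hq : IsStarProjection q) (dp : p ∈ D)
    (dq : q ∈ D) (ha : star a * a * p = p) (hb : star b * b * q = q) (h : star a * b = 0) :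
    rk (a * p * star a + b * q * star b) = rk p + rk q := by
  rw [rk_add ((iso_conj hp ha).proj hp) ((iso_conj hq hb).proj hq) (D_right _ (D_left _ dp))
    (D_right _ (D_left _ dq)), ← rk_iso hp (iso_conj hp ha), ← rk_iso hq (iso_conj hq hb)]
  simp only [mul_assoc, ← mul_assoc (star a), h, zero_mul, mul_zero]

noncomputable def T (n : Type) [Fintype n] : Matrix Unit n B :=
  of fun _ i => t (Fintype.equivFin n i)

variable {n k l : Type} [Fintype n] [Fintype k] [Fintype l]

theorem TT [DecidableEq n] : (T n)ᴴ * T n = 1 := by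
  ext1 i j
  simp [T, mul_apply, tt, one_apply, Fin.val_inj]

noncomputable def io (a : Matrix n k B) : B := (T n * a * (T k)ᴴ) () ()

noncomputable def ka (n k : Type) [Fintype n] [Fintype k] (w : B) : Matrix n k B :=
  of fun i j => star (t (Fintype.equivFin n i)) * w * t (Fintype.equivFin k j)

theorem io_eq (a : Matrix n k B) :
    io a = ∑ j, (∑ i, t (Fintype.equivFin n i) * a i j) * star (t (Fintype.equivFin k j)) := by
  simp [io, T, mul_apply]

theorem io_mul (a : Matrix n k B) (b : Matrix k l B) : io (a * b) = io a * io b := by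
  classical
  have : T n * (a * b) * (T l)ᴴ = (T n * a * (T k)ᴴ) * (T k * b * (T l)ᴴ) := by
    simp only [Matrix.mul_assoc, ← Matrix.mul_assoc (T k)ᴴ, TT, Matrix.one_mul]
  rw [io, this, mul_apply]; simp [io]

theorem io_star (a : Matrix n k B) : io aᴴ = star (io a) := by
  rw [io, io, ← conjTranspose_apply (T n * a * (T k)ᴴ), conjTranspose_mul, conjTranspose_mul,
    conjTranspose_conjTranspose, Matrix.mul_assoc]

theorem io_add (a b : Matrix n k B) : io (a + b) = io a + io b := by
  simp [io, Matrix.mul_add, Matrix.add_mul]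

theorem io_D {a : Matrix n k B} (h : ∀ i j, a i j ∈ D) : io a ∈ D := by
  rw [io_eq]; exact D_sum _ fun j => D_right _ (D_sum _ fun i => D_left _ (h i j))

theorem ka_eq (w : B) : ka n k w = (T n)ᴴ * (of fun _ _ : Unit => w) * T k := by
  ext1 i j; simp [ka, T, mul_apply]

theorem ka_io (a : Matrix n k B) : ka n k (io a) = a := by
  classical
  have : (of fun _ _ : Unit => io a) = T n * a * (T k)ᴴ := rfl
  rw [ka_eq, this]
  simp only [Matrix.mul_assoc, ← Matrix.mul_assoc (T n)ᴴ, TT, Matrix.one_mul, Matrix.mul_one]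

theorem ka_star (w : B) : (ka n k w)ᴴ = ka k n (star w) := by
  ext1 i j; simp [ka, mul_assoc]

theorem ka_mul [DecidableEq k] (w w' : B) :
    ka n k w * ka k l w' = ka n l (w * io (1 : Matrix k k B) * w') := by
  have : (of fun _ _ : Unit => w * io (1 : Matrix k k B) * w') =
      (of fun _ _ : Unit => w) * (T k * (1 : Matrix k k B) * (T k)ᴴ) * of fun _ _ : Unit => w' := by
    ext1; simp [mul_apply, io]
  simp only [ka_eq, this, Matrix.mul_assoc, Matrix.one_mul]

def MP {R : Type} [NonUnitalNonAssocSemiring R] [Star R] (p : Matrix n n R) : Prop :=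
  p * p = p ∧ pᴴ = p

def MIso {R : Type} [NonUnitalNonAssocSemiring R] [Star R] (v : Matrix l k R) (p : Matrix k k R)
    (q : Matrix l l R) : Prop := vᴴ * v = p ∧ v * vᴴ = q

theorem MP.io {p : Matrix n n B} (h : MP p) : IsStarProjection (io p) :=
  ⟨by rw [IsIdempotentElem, ← io_mul, h.1], by rw [IsSelfAdjoint, ← io_star, h.2]⟩

theorem MIso.io {v : Matrix l k B} {p : Matrix k k B} {q : Matrix l l B} (h : MIso v p q) :
    Iso (io v) (io p) (io q) :=
  ⟨by rw [← io_star, ← io_mul, h.1], by rw [← io_star, ← io_mul, h.2]⟩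

theorem Iso.ka {w : B} {p : Matrix k k B} {q : Matrix l l B} (hp : MP p)
    (h : Iso w (io p) (io q)) : MIso (ka l k w) p q := by
  classical
  constructor <;> rw [ka_star, ka_mul]
  · rw [← h.left hp.io, mul_assoc, ← mul_assoc (io 1), ← io_mul, Matrix.one_mul, h.left hp.io, h.1,
      ka_io]
  · rw [← h.right hp.io, mul_assoc w, ← io_mul, Matrix.mul_one, h.right hp.io, h.2, ka_io]

theorem rk_two' [DecidableEq k] [DecidableEq l] {a : Matrix n k B} {b : Matrix n l B}
    {p : Matrix k k B} {q : Matrix l l B} (hp : MP p) (hq : MP q) (dp : ∀ i j, p i j ∈ D)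
    (dq : ∀ i j, q i j ∈ D) (ha : aᴴ * a = 1) (hb : bᴴ * b = 1) (h : aᴴ * b = 0) :
    rk (io (a * p * aᴴ + b * q * bᴴ)) = rk (io p) + rk (io q) := by
  rw [io_add, io_mul, io_mul, io_mul, io_mul, io_star, io_star]
  refine rk_two hp.io hq.io (io_D dp) (io_D dq) ?_ ?_ ?_
  · rw [← io_star, ← io_mul, ← io_mul, ha, Matrix.one_mul]
  · rw [← io_star, ← io_mul, ← io_mul, hb, Matrix.one_mul]
  · rw [← io_star, ← io_mul, h]; simp [io]

theorem rk_block {p : Matrix k k B} {q : Matrix l l B} (hp : MP p) (hq : MP q)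
    (dp : ∀ i j, p i j ∈ D) (dq : ∀ i j, q i j ∈ D) (e : k ⊕ l ≃ n) :
    rk (io (reindex e e (fromBlocks p 0 0 q))) = rk (io p) + rk (io q) := by
  classical
  have hm : MP (fromBlocks p 0 0 q) :=
    ⟨by simp [fromBlocks_multiply, hp.1, hq.1], by simp [fromBlocks_conjTranspose, hp.2, hq.2]⟩
  have h1 : MIso ((fromBlocks p 0 0 q).submatrix e.symm (Equiv.refl _)) (fromBlocks p 0 0 q)
      (reindex e e (fromBlocks p 0 0 q)) := by
    constructor <;> rw [conjTranspose_submatrix, submatrix_mul_equiv, hm.2, hm.1] <;> rfl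
  rw [← rk_iso hm.io h1.io, ← rk_two' (n := k ⊕ l) (a := fromRows 1 0) (b := fromRows 0 1) hp hq
    dp dq]
  · congr 2
    rw [fromRows_mul _ _ p, fromRows_mul _ _ q, conjTranspose_fromRows_eq_fromCols_conjTranspose,
      conjTranspose_fromRows_eq_fromCols_conjTranspose, fromRows_mul_fromCols,
      fromRows_mul_fromCols, fromBlocks_add]
    simp
  all_goals simp [conjTranspose_fromRows_eq_fromCols_conjTranspose, fromCols_mul_fromRows]

noncomputable def mu (a b : B) : B := t 0 * a * star (t 0) + t 1 * b * star (t 1)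

theorem mu_mul (a b c d : B) : mu a b * mu c d = mu (a * c) (b * d) := by
  simp [mu, mul_add, add_mul, mul_assoc, ← mul_assoc (star (t _)), tt]

theorem mu_star (a b : B) : star (mu a b) = mu (star a) (star b) := by simp [mu, mul_assoc]

theorem mu_add (a b c d : B) : mu a b + mu c d = mu (a + c) (b + d) := by
  simp only [mu, mul_add, add_mul]; abel

theorem mu_smul (c : ℂ) (a b : B) : c • mu a b = mu (c • a) (c • b) := by simp [mu]

noncomputable def muM (a b : Matrix n k B) : Matrix n k B := of fun i j => mu (a i j) (b i j)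

theorem muM_mul (a b : Matrix n k B) (c d : Matrix k l B) :
    muM a b * muM c d = muM (a * c) (b * d) := by
  ext1 i j
  simp only [muM, mul_apply, of_apply, mu_mul]
  simp only [mu, Finset.sum_add_distrib, Finset.mul_sum, Finset.sum_mul]

theorem muM_star (a b : Matrix n k B) : (muM a b)ᴴ = muM aᴴ bᴴ := by
  ext1 i j; simp [muM, mu_star]

theorem rk_muM {p q : Matrix k k B} (hp : MP p) (hq : MP q) (dp : ∀ i j, p i j ∈ D)
    (dq : ∀ i j, q i j ∈ D) : rk (io (muM p q)) = rk (io p) + rk (io q) := by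
  classical
  rw [← rk_two' (a := diagonal fun _ => t 0) (b := diagonal fun _ => t 1) hp hq dp dq]
  · congr 2; ext1 i j; simp [muM, mu, diagonal_conjTranspose]
  all_goals simp [diagonal_conjTranspose, tt]

theorem exists_rk (r : ℕ) : ∃ p : B, IsStarProjection p ∧ p ∈ D ∧ rk p = r := by
  obtain ⟨e, he, de, re⟩ := exists_one
  induction r with
  | zero => exact ⟨0, IsStarProjection.zero B, D_zero, by
      have : (0 : B).range = ⊥ := LinearMap.range_zero
      rw [rk, this, finrank_bot]⟩
  | succ r ih =>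
    obtain ⟨p, hp, dp, rp⟩ := ih
    refine ⟨mu p e, ⟨?_, ?_⟩, D_add (D_right _ (D_left _ dp)) (D_right _ (D_left _ de)), ?_⟩
    · rw [IsIdempotentElem, mu_mul, hp.isIdempotentElem.eq, he.isIdempotentElem.eq]
    · rw [IsSelfAdjoint, mu_star, hp.isSelfAdjoint.star_eq, he.isSelfAdjoint.star_eq]
    · rw [mu, rk_two hp he dp de (by simp [tt]) (by simp [tt]) (by simp [tt]), rp, re]

end Pool.Agent.H75.CV
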