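import Pool.Agent.H75.CV3

/-! The functor: a homotopy limit of copies of the compact operators. -/

set_option autoImplicit false

namespace Pool.Agent.H75.CV

open Matrix unitInterval BoundedContinuousFunction

def Du (n : ℕ) : Type := (Fin n → ℕ) →+ ℕ

instance (n : ℕ) : AddCommMonoid (Du n) := inferInstanceAs (AddCommMonoid ((Fin n → ℕ) →+ ℕ))
instance (n : ℕ) : TopologicalSpace (Du n) := ⊥
instance (n : ℕ) : DiscreteTopology (Du n) := ⟨rfl⟩

abbrev X (n : ℕ) : Type := Du n × Du n × I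

noncomputable def SA (n : ℕ) : NonUnitalStarSubalgebra ℂ (X n →ᵇ B) where
  carrier := {g | (∀ x, g x ∈ D) ∧ (∀ φ ψ, g (φ, ψ, 0) = g (φ + ψ, 0, 0)) ∧
    ∀ φ ψ, g (φ, ψ, 1) = mu (g (φ, 0, 0)) (g (ψ, 0, 0))}
  add_mem' := fun h h' => ⟨fun x => D_add (h.1 x) (h'.1 x),
    fun φ ψ => congrArg₂ (· + ·) (h.2.1 φ ψ) (h'.2.1 φ ψ),
    fun φ ψ => (congrArg₂ (· + ·) (h.2.2 φ ψ) (h'.2.2 φ ψ)).trans (mu_add _ _ _ _)⟩
  zero_mem' := ⟨fun _ => D_zero, fun _ _ => rfl, fun _ _ => by simp [mu]⟩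
  mul_mem' := fun h h' => ⟨fun x => D_right _ (h.1 x),
    fun φ ψ => congrArg₂ (· * ·) (h.2.1 φ ψ) (h'.2.1 φ ψ),
    fun φ ψ => (congrArg₂ (· * ·) (h.2.2 φ ψ) (h'.2.2 φ ψ)).trans (mu_mul _ _ _ _)⟩
  smul_mem' := fun c g h => ⟨fun x => by
      have := D_left (c • 1) (h.1 x); rwa [smul_mul_assoc, one_mul] at this,
    fun φ ψ => congrArg (c • ·) (h.2.1 φ ψ),
    fun φ ψ => (congrArg (c • ·) (h.2.2 φ ψ)).trans (mu_smul _ _ _)⟩
  star_mem' := fun h => ⟨fun x => D_star (h.1 x), fun φ ψ => congrArg star (h.2.1 φ ψ),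
    fun φ ψ => (congrArg star (h.2.2 φ ψ)).trans (mu_star _ _)⟩

instance (n : ℕ) : IsClosed (SA n : Set (X n →ᵇ B)) := by
  change IsClosed ({g : X n →ᵇ B | ∀ x, g x ∈ D} ∩ ({g | ∀ φ ψ, g (φ, ψ, 0) = g (φ + ψ, 0, 0)} ∩
    {g | ∀ φ ψ, g (φ, ψ, 1) = mu (g (φ, 0, 0)) (g (ψ, 0, 0))}))
  simp only [Set.ofPred_forall]
  refine (isClosed_iInter fun x => isClosed_closure.preimage (continuous_eval_const x)).inter
    ((isClosed_iInter fun φ => isClosed_iInter fun ψ => isClosed_eq ?_ ?_).inter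
      (isClosed_iInter fun φ => isClosed_iInter fun ψ => isClosed_eq ?_ ?_)) <;>
    (try unfold mu) <;> fun_prop

@[reducible] noncomputable def sub {E : Type} [CStarAlgebra E] (s : NonUnitalStarSubalgebra ℂ E)
    [IsClosed (s : Set E)] : NonUnitalCStarAlgebra s := inferInstance

/-- The algebra attached to the simplicial monoid of rank `n`. -/
def AA (n : ℕ) : Type := SA n

noncomputable instance (n : ℕ) : NonUnitalCStarAlgebra (AA n) :=
  (sub (E := X n →ᵇ B) (SA n) : NonUnitalCStarAlgebra (SA n))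

variable {m n : ℕ}

def du (f : (Fin m → ℕ) →+ (Fin n → ℕ)) (φ : Du n) : Du m := AddMonoidHom.comp φ f

def pb (f : (Fin m → ℕ) →+ (Fin n → ℕ)) : C(X n, X m) :=
  ⟨fun x => (du f x.1, du f x.2.1, x.2.2),
    continuous_prod_of_discrete_left.2 fun φ => continuous_prod_of_discrete_left.2 fun ψ =>
      (continuous_const (y := du f φ)).prodMk ((continuous_const (y := du f ψ)).prodMk
        continuous_id)⟩

noncomputable def FF (f : (Fin m → ℕ) →+ (Fin n → ℕ)) : AA m →⋆ₙₐ[ℂ] AA n where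
  toFun g := ⟨g.1.compContinuous (pb f), fun _ => g.2.1 _, fun φ ψ => g.2.2.1 (du f φ) (du f ψ),
    fun φ ψ => g.2.2.2 (du f φ) (du f ψ)⟩
  map_smul' _ _ := rfl
  map_zero' := rfl
  map_add' _ _ := rfl
  map_mul' _ _ := rfl
  map_star' _ := rfl

variable {k l r : Type} [Fintype k] [Fintype l] [Fintype r]

noncomputable def ev (x : X n) : AA n →ₙ+* B where
  toFun g := g.1 x
  map_zero' := rfl
  map_add' _ _ := rfl
  map_mul' _ _ := rfl

noncomputable def pe (x : X n) (p : Matrix k l (AA n)) : Matrix k l B := p.map (ev x)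

theorem pe_mul (x : X n) (p : Matrix k l (AA n)) (q : Matrix l r (AA n)) :
    pe x (p * q) = pe x p * pe x q := Matrix.map_mul

omit [Fintype k] [Fintype l] in
theorem pe_ext {p q : Matrix k l (AA n)} (h : ∀ x, pe x p = pe x q) : p = q := by
  ext1 i j
  exact Subtype.ext (BoundedContinuousFunction.ext fun x => congrFun (congrFun (h x) i) j)

theorem MP.pe {p : Matrix k k (AA n)} (h : MP p) (x : X n) : MP (pe x p) :=
  ⟨by rw [← pe_mul, h.1], congrArg (CV.pe x) h.2⟩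

theorem MIso.pe {v : Matrix l k (AA n)} {p : Matrix k k (AA n)} {q : Matrix l l (AA n)}
    (h : MIso v p q) (x : X n) : MIso (pe x v) (pe x p) (pe x q) :=
  ⟨(pe_mul x vᴴ v).symm.trans (congrArg _ h.1), (pe_mul x v vᴴ).symm.trans (congrArg _ h.2)⟩

theorem pe_D (p : Matrix k l (AA n)) (x : X n) : io (pe x p) ∈ D := io_D fun i j => (p i j).2.1 x

omit [Fintype k] [Fintype l] in
theorem pe0 (p : Matrix k l (AA n)) (φ ψ : Du n) : pe (φ, ψ, 0) p = pe (φ + ψ, 0, 0) p := by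
  ext1 i j; exact (p i j).2.2.1 φ ψ

theorem pe1 (p : Matrix k l (AA n)) (φ ψ : Du n) :
    pe (φ, ψ, 1) p = muM (pe (φ, 0, 0) p) (pe (ψ, 0, 0) p) := by
  ext1 i j; exact (p i j).2.2.2 φ ψ

theorem pe_cont (p : Matrix k l (AA n)) (φ ψ : Du n) :
    Continuous fun s : I => io (pe (φ, ψ, s) p) := by
  simp only [io_eq]
  refine continuous_finsetSum _ fun j _ => (continuous_finsetSum _ fun i _ =>
    continuous_const.mul ?_).mul continuous_const
  exact (p i j).1.continuous.comp (by fun_prop)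

noncomputable def rho (p : Matrix k k (AA n)) (φ : Du n) : ℕ := rk (io (pe (φ, 0, 0) p))

theorem rho_add {p : Matrix k k (AA n)} (h : MP p) (φ ψ : Du n) :
    rho p (φ + ψ) = rho p φ + rho p ψ := by
  obtain ⟨v, hv⟩ := homot (pe_cont p φ ψ) (fun s => (h.pe _).io) 0 1
  have := rk_iso (h.pe _).io hv
  rwa [pe0, pe1, rk_muM (h.pe _) (h.pe _) (fun i j => (p i j).2.1 _) fun i j => (p i j).2.1 _]
    at this

def co (i : Fin n) : Du n := Pi.evalAddMonoidHom (fun _ => ℕ) i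

noncomputable def cl (p : Matrix k k (AA n)) : Fin n → ℕ := fun i => rho p (co i)

theorem rho_eq {p : Matrix k k (AA n)} (h : MP p) (φ : (Fin n → ℕ) →+ ℕ) :
    rho p φ = φ (cl p) := by
  let R : Du n →+ ℕ := ⟨⟨rho p, by have := rho_add h 0 0; rw [add_zero] at this; omega⟩, rho_add h⟩
  have key : ∀ x, φ x = ∑ i, φ (Pi.single i 1) * x i := fun x => by
    nth_rewrite 1 [← Finset.univ_sum_single x]
    rw [map_sum]
    refine Finset.sum_congr rfl fun i _ => ?_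
    rw [mul_comm, ← smul_eq_mul, ← map_nsmul, ← Pi.single_smul', smul_eq_mul, mul_one]
  have : (φ : Du n) = ∑ i, φ (Pi.single i 1) • co i := by
    refine AddMonoidHom.ext fun x => (key x).trans ?_
    exact (AddMonoidHom.finsetSum_apply (fun i => φ (Pi.single i 1) • co i) _ x).symm
  rw [key]
  change R φ = _
  nth_rewrite 1 [this]
  rw [map_sum]
  exact Finset.sum_congr rfl fun i _ => map_nsmul R _ _

/-- Gluing paths to an element of the algebra. -/
noncomputable def glue (W : Du n → Du n → I → B) (c : ∀ φ ψ, Continuous (W φ ψ))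
    (b : ∀ φ ψ s, ‖W φ ψ s‖ ≤ 1) : X n →ᵇ B :=
  ofNormedAddCommGroup (fun x => W x.1 x.2.1 x.2.2) (continuous_prod_of_discrete_left.2 fun φ =>
    continuous_prod_of_discrete_left.2 fun ψ => c φ ψ) 1 fun _ => b _ _ _

theorem exists_miso {p : Matrix k k (AA n)} {q : Matrix l l (AA n)} (hp : MP p) (hq : MP q)
    (h : cl p = cl q) : ∃ v, MIso v p q := by
  choose w hw using fun φ : Du n => exists_iso (hp.pe (φ, 0, 0)).io (hq.pe (φ, 0, 0)).io
    (pe_D _ _) (pe_D _ _) ((rho_eq hp φ).trans (h ▸ (rho_eq hq φ).symm))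
  have hb : ∀ φ ψ, MIso (muM (ka l k (w φ)) (ka l k (w ψ))) (pe (φ, ψ, 1) p) (pe (φ, ψ, 1) q) :=
    fun φ ψ => by
      have h1 := (hw φ).ka (hp.pe _)
      have h2 := (hw ψ).ka (hp.pe _)
      constructor <;> rw [muM_star, muM_mul, pe1]
      · rw [h1.1, h2.1]
      · rw [h1.2, h2.2]
  choose W cW hW W0 W1 using fun φ ψ : Du n => lift (pe_cont p φ ψ) (fun s => (hp.pe _).io)
    (pe_cont q φ ψ) (fun s => (hq.pe _).io) (conn (hp.pe _).io (pe_D _ _))
    (a := w (φ + ψ)) (by rw [pe0 p φ ψ, pe0 q φ ψ]; exact hw _) (hb φ ψ).io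
  have nt : ∀ i, ‖t i‖ ≤ 1 := fun i => norm_le (IsStarProjection.one B) (tt1 i)
  let V : Matrix l k (AA n) := of fun i j => ⟨glue (fun φ ψ s => ka l k (W φ ψ s) i j)
    (fun φ ψ => (continuous_const.mul (cW φ ψ)).mul continuous_const) fun φ ψ s =>
      (norm_mul_le _ _).trans (mul_le_one₀ ((norm_mul_le _ _).trans (mul_le_one₀
        ((norm_star _).trans_le (nt _)) (norm_nonneg _) (norm_le (hp.pe _).io (hW φ ψ s).1)))
        (norm_nonneg _) (nt _)),
    fun x => D_right _ (D_left _ ((hW _ _ x.2.2).right (hp.pe _).io ▸ D_left _ (pe_D _ _))),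
    fun φ ψ => by
      change ka l k (W φ ψ 0) i j = ka l k (W (φ + ψ) 0 0) i j
      rw [W0, W0, add_zero],
    fun φ ψ => by
      change ka l k (W φ ψ 1) i j = mu (ka l k (W φ 0 0) i j) (ka l k (W ψ 0 0) i j)
      rw [W1, W0, W0, add_zero, add_zero, ka_io]; rfl⟩
  have hV := fun x : X n => (hW x.1 x.2.1 x.2.2).ka (hp.pe _)
  exact ⟨V, pe_ext fun x => (pe_mul x Vᴴ V).trans (hV x).1,
    pe_ext fun x => (pe_mul x V Vᴴ).trans (hV x).2⟩

theorem rot {d e v : B} (hd : IsStarProjection d) (h : Iso v d e) (o : d * v = 0) (s : I) :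
    star (((√(1 - s) : ℝ) : ℂ) • d + ((√s : ℝ) : ℂ) • v) *
      (((√(1 - s) : ℝ) : ℂ) • d + ((√s : ℝ) : ℂ) • v) = d := by
  have o' : star v * d = 0 := by simpa [hd.isSelfAdjoint.star_eq] using congrArg star o
  simp only [star_add, star_smul, Complex.star_def, Complex.conj_ofReal, hd.isSelfAdjoint.star_eq, add_mul, mul_add,
    smul_mul_smul_comm, hd.isIdempotentElem.eq, o, o', h.1, smul_zero, add_zero, zero_add]
  rw [← Complex.ofReal_mul, ← Complex.ofReal_mul, Real.mul_self_sqrt (sub_nonneg.2 s.2.2),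
    Real.mul_self_sqrt s.2.1, ← add_smul]
  simp

theorem exists_cl (x : Fin n → ℕ) : ∃ p : Matrix (Fin 1) (Fin 1) (AA n), MP p ∧ cl p = x := by
  choose P hP dP rP using exists_rk
  let a : Du n → ℕ := fun φ => (show (Fin n → ℕ) →+ ℕ from φ) x
  let d : Du n → B := fun φ => t 2 * P (a φ) * star (t 2)
  have id : ∀ φ, Iso _ _ (d φ) := fun φ => iso_conj (hP (a φ)) (by rw [tt1, one_mul])
  have hd : ∀ φ, IsStarProjection (d φ) := fun φ => (id φ).proj (hP _)
  have dd : ∀ φ, d φ ∈ D := fun φ => D_right _ (D_left _ (dP _))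
  have rd : ∀ φ, rk (d φ) = a φ := fun φ => (rk_iso (hP _) (id φ)).symm.trans (rP _)
  have hm : ∀ φ ψ, IsStarProjection (mu (d φ) (d ψ)) := fun φ ψ =>
    ⟨by rw [IsIdempotentElem, mu_mul, (hd _).isIdempotentElem.eq, (hd _).isIdempotentElem.eq],
      by rw [IsSelfAdjoint, mu_star, (hd _).isSelfAdjoint.star_eq, (hd _).isSelfAdjoint.star_eq]⟩
  choose v hv using fun φ ψ => exists_iso (hd (φ + ψ)) (hm φ ψ) (dd _)
    (D_add (D_right _ (D_left _ (dd _))) (D_right _ (D_left _ (dd _)))) (by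
      rw [mu, rk_two (hd _) (hd _) (dd _) (dd _) (by simp [tt]) (by simp [tt]) (by simp [tt]),
        rd, rd, rd]; rfl)
  have o : ∀ φ ψ, d (φ + ψ) * v φ ψ = 0 := fun φ ψ => by
    rw [← (hv φ ψ).left (hd _)]
    have k : ∀ i x, 2 ≠ i → star (t 2) * (t i * x) = 0 := fun i x hi => by
      rw [← mul_assoc, tt, if_neg hi, zero_mul]
    simp [d, mu, mul_add, add_mul, mul_assoc, k]
  let w : Du n → Du n → I → B := fun φ ψ s =>
    ((√(1 - s) : ℝ) : ℂ) • d (φ + ψ) + ((√s : ℝ) : ℂ) • v φ ψ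
  have hw : ∀ φ ψ s, Iso (w φ ψ s) (d (φ + ψ)) (w φ ψ s * star (w φ ψ s)) := fun φ ψ s =>
    ⟨rot (hd _) (hv φ ψ) (o φ ψ) s, rfl⟩
  have w0 : ∀ φ ψ, w φ ψ 0 * star (w φ ψ 0) = d (φ + ψ) := fun φ ψ => by
    have : w φ ψ 0 = d (φ + ψ) := by
      simp only [w, Set.Icc.coe_zero, sub_zero, Real.sqrt_one, Real.sqrt_zero, Complex.ofReal_one,
        Complex.ofReal_zero]
      rw [one_smul ℂ (d _), zero_smul ℂ (v _ _), add_zero]
    rw [this, (hd _).isSelfAdjoint.star_eq, (hd _).isIdempotentElem.eq]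
  let g : AA n := ⟨glue (fun φ ψ s => w φ ψ s * star (w φ ψ s)) (fun φ ψ => by fun_prop)
    fun φ ψ s => ((hw φ ψ s).proj (hd _)).norm_le,
    fun x => D_right _ ((hw _ _ x.2.2).right (hd _) ▸ D_left _ (dd _)),
    fun φ ψ => (w0 φ ψ).trans (by rw [← add_zero (φ + ψ)]; exact (w0 _ 0).symm),
    fun φ ψ => by
      change w φ ψ 1 * star (w φ ψ 1) = mu (w φ 0 0 * star (w φ 0 0)) (w ψ 0 0 * star (w ψ 0 0))
      have : w φ ψ 1 = v φ ψ := by
        simp only [w, Set.Icc.coe_one, sub_self, Real.sqrt_one, Real.sqrt_zero, Complex.ofReal_one,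
          Complex.ofReal_zero]
        rw [one_smul ℂ (v _ _), zero_smul ℂ (d _), zero_add]
      rw [w0, w0, add_zero, add_zero, ← (hv φ ψ).2, this]⟩
  have hg : ∀ x, IsStarProjection (g.1 x) := fun x => (hw _ _ _).proj (hd _)
  refine ⟨of fun _ _ => g, ⟨pe_ext fun x => ?_, pe_ext fun x => ?_⟩, funext fun i => ?_⟩
  · rw [pe_mul]; ext1; rw [Matrix.mul_apply, Fin.sum_univ_one]; exact (hg x).isIdempotentElem.eq
  · ext1; exact (hg x).isSelfAdjoint.star_eq
  · rw [cl, rho, io_eq, Fin.sum_univ_one, Fin.sum_univ_one]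
    refine (rk_iso (hg _) (iso_conj (hg _) (by rw [tt1, one_mul]))).symm.trans ?_
    exact (congrArg rk (w0 _ _)).trans ((rd _).trans (by rw [add_zero]; rfl))

end Pool.Agent.H75.CV
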