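import Mathlib

/-! Piecewise polynomial functions on a dense chain of affine lines, and primes detecting
divisibility of rational polynomials. -/

set_option autoImplicit false

namespace Pool.Agent.H75.Chain

open Polynomial Filter

/-- `D` witnesses that `F` is constant away from finitely many lines and glued along gaps. -/
def Wit (D : Finset ℚ) (F : ℚ → ℚ[X]) : Prop :=
  (∀ l ∉ D, F l = C ((F l).eval 0)) ∧
    ∀ l m, l < m → (∀ n ∈ D, ¬(l < n ∧ n < m)) → (F l).eval 1 = (F m).eval 0

theorem Wit.mono {D E : Finset ℚ} {F : ℚ → ℚ[X]} (h : Wit D F) (hE : D ⊆ E) : Wit E F :=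
  ⟨fun l hl => h.1 l fun e => hl (hE e), fun l m lm g => h.2 l m lm fun n hn => g n (hE hn)⟩

/-- The ring of piecewise polynomial functions. -/
def Ch : Subring (ℚ → ℚ[X]) where
  carrier := {F | (Set.range F).Finite ∧ ∃ D, Wit D F}
  mul_mem' := by
    rintro F G ⟨f1, D, f⟩ ⟨g1, E, g⟩
    have f := f.mono (Finset.subset_union_left (s₂ := E))
    have g := g.mono (Finset.subset_union_right (s₁ := D))
    refine ⟨(f1.mul g1).subset ?_, D ∪ E, fun l hl => ?_, fun l m lm h => ?_⟩
    · rintro _ ⟨l, rfl⟩; exact Set.mul_mem_mul ⟨l, rfl⟩ ⟨l, rfl⟩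
    · rw [Pi.mul_apply, eval_mul, C_mul, ← f.1 l hl, ← g.1 l hl]
    · simp [f.2 l m lm h, g.2 l m lm h]
  add_mem' := by
    rintro F G ⟨f1, D, f⟩ ⟨g1, E, g⟩
    have f := f.mono (Finset.subset_union_left (s₂ := E))
    have g := g.mono (Finset.subset_union_right (s₁ := D))
    refine ⟨(f1.add g1).subset ?_, D ∪ E, fun l hl => ?_, fun l m lm h => ?_⟩
    · rintro _ ⟨l, rfl⟩; exact Set.add_mem_add ⟨l, rfl⟩ ⟨l, rfl⟩
    · rw [Pi.add_apply, eval_add, C_add, ← f.1 l hl, ← g.1 l hl]
    · simp [f.2 l m lm h, g.2 l m lm h]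
  one_mem' := ⟨Set.finite_range_const, ∅, by simp, by simp⟩
  zero_mem' := ⟨Set.finite_range_const, ∅, by simp, by simp⟩
  neg_mem' := by
    rintro F ⟨f1, D, f⟩
    refine ⟨f1.neg.subset ?_, D, fun l hl => ?_, fun l m lm h => ?_⟩
    · rintro _ ⟨l, rfl⟩; simp
    · rw [Pi.neg_apply, eval_neg, C_neg, ← f.1 l hl]
    · simp [f.2 l m lm h]

theorem const_mem (c : ℚ) : (fun _ => C c) ∈ Ch := ⟨Set.finite_range_const, ∅, by simp, by simp⟩

/-- The polynomial `r` placed on the line `l`. -/
noncomputable def io (l : ℚ) (r : ℚ[X]) : ℚ → ℚ[X] :=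
  fun m => if m < l then C (r.eval 0) else if l < m then C (r.eval 1) else r

theorem io_mem (l : ℚ) (r : ℚ[X]) : io l r ∈ Ch := by
  refine ⟨(Set.toFinite {C (r.eval 0), C (r.eval 1), r}).subset ?_, {l}, fun m hm => ?_,
    fun a b ab h => ?_⟩
  · rintro _ ⟨m, rfl⟩
    unfold io; split_ifs <;> simp
  · rcases lt_or_gt_of_ne (by simpa using hm : m ≠ l) with h | h <;> simp [io, h, h.not_gt]
  · have := h l (by simp)
    unfold io
    split_ifs <;> first | (simp; done) | (exfalso; grind)

theorem io_comb (l : ℚ) (r s f g : ℚ[X]) :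
    io l (r * f + s * g) = io l r * io l f + io l s * io l g := by
  ext1 m
  simp only [io, Pi.add_apply, Pi.mul_apply]
  split_ifs <;> simp

theorem patch (D : Finset ℚ) : ∀ F G H : ℚ → ℚ[X], Wit D F → Wit D G → Wit D H →
    (∀ l, ∃ r s, H l = r * F l + s * G l) → ∃ r ∈ Ch, ∃ s ∈ Ch, H = r * F + s * G := by
  induction D using Finset.induction_on_max with
  | empty =>
    intro F G H f g h k
    obtain ⟨r, s, e⟩ := k 0
    have : ∀ F, Wit ∅ F → F = io 0 (F 0) := fun F f => by
      ext1 m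
      unfold io
      split_ifs with h1 h2
      · rw [f.1 m (by simp), ← f.2 m 0 h1 (by simp), f.1 m (by simp)]; simp
      · rw [f.1 m (by simp), f.2 0 m h2 (by simp)]
      · rw [show m = 0 by linarith]
    exact ⟨_, io_mem 0 r, _, io_mem 0 s, by rw [this H h, e, io_comb, ← this F f, ← this G g]⟩
  | insert l D hD ih =>
    intro F G H f g h k
    obtain ⟨m, ml, hm⟩ : ∃ m < l, ∀ x ∈ D, x < m := by
      rcases D.eq_empty_or_nonempty with rfl | hn
      · exact ⟨l - 1, by linarith, by simp⟩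
      · obtain ⟨m, h1, h2⟩ := exists_between (hD _ (D.max'_mem hn))
        exact ⟨m, h2, fun x hx => (D.le_max' x hx).trans_lt h1⟩
    have nm : ∀ x, m ≤ x → x ≠ l → x ∉ insert l D := fun x hx xl e => by
      rcases Finset.mem_insert.1 e with e | e
      exacts [xl e, (hm x e).not_ge hx]
    have tr : ∀ F, Wit (insert l D) F → Wit D fun n => F (min n m) := fun F f => by
      have c := f.1 m (nm m le_rfl ml.ne)
      refine ⟨fun n hn => f.1 _ fun e => ?_, fun a b ab e => ?_⟩
      · rcases Finset.mem_insert.1 e with e | e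
        · linarith [min_le_right n m]
        · have := hm _ e
          rw [min_eq_left (by grind)] at e
          exact hn e
      · by_cases h1 : a < m
        · refine f.2 _ _ (by grind) fun n hn => ?_
          rcases Finset.mem_insert.1 hn with rfl | hn
          · grind
          · have := e n hn; grind
        · beta_reduce
          rw [min_eq_right (not_lt.1 h1), min_eq_right ((not_lt.1 h1).trans ab.le), c]; simp
    have up : ∀ F, Wit (insert l D) F → ∀ n, m ≤ n → F n = io l (F l) n := fun F f n hn => by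
      have b : ∀ x ∈ insert l D, x = l ∨ x < m := fun x hx => (Finset.mem_insert.1 hx).imp id (hm x)
      unfold io
      split_ifs with h1 h2
      · rw [f.1 n (nm n hn h1.ne), ← f.2 n l h1 fun x hx => by have := b x hx; grind,
          f.1 n (nm n hn h1.ne)]
        simp
      · rw [f.1 n (nm n hn h2.ne'), f.2 l n h2 fun x hx => by have := b x hx; grind]
      · rw [show n = l by linarith]
    obtain ⟨r1, hr1, s1, hs1, e1⟩ := ih _ _ _ (tr F f) (tr G g) (tr H h) fun n => k _
    obtain ⟨r2, s2, e2⟩ := k l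
    have t := io_mem m X
    refine ⟨(1 - io m X) * r1 + io m X * io l r2,
      add_mem (mul_mem (sub_mem (one_mem _) t) hr1) (mul_mem t (io_mem _ _)),
      (1 - io m X) * s1 + io m X * io l s2,
      add_mem (mul_mem (sub_mem (one_mem _) t) hs1) (mul_mem t (io_mem _ _)), ?_⟩
    ext1 n
    have a1 : n ≤ m → H n = r1 n * F n + s1 n * G n := fun hn => by
      simpa [min_eq_left hn] using congrFun e1 n
    have a2 : m ≤ n → H n = io l r2 n * F n + io l s2 n * G n := fun hn => by
      rw [up H h n hn, up F f n hn, up G g n hn, e2, io_comb]; rfl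
    simp only [Pi.add_apply, Pi.mul_apply, Pi.sub_apply, Pi.one_apply]
    rcases lt_trichotomy n m with e | e | e
    · rw [a1 e.le]; simp [io, e]
    · linear_combination (1 - io m X n) * a1 e.le + io m X n * a2 e.ge
    · rw [a2 e.le]; simp [io, e, e.not_gt]

theorem bezout {F G H : ℚ → ℚ[X]} (f : F ∈ Ch) (g : G ∈ Ch) (h : H ∈ Ch)
    (k : ∀ l, ∃ r s, H l = r * F l + s * G l) : ∃ r ∈ Ch, ∃ s ∈ Ch, H = r * F + s * G := by
  obtain ⟨-, D1, f⟩ := f
  obtain ⟨-, D2, g⟩ := g
  obtain ⟨-, D3, h⟩ := h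
  exact patch (D1 ∪ D2 ∪ D3) F G H (f.mono (by grind)) (g.mono (by grind)) (h.mono (by grind)) k

theorem const_of (D : Finset ℚ) (c : ℚ → ℚ)
    (h : ∀ l m, l < m → (∀ n ∈ D, ¬(l < n ∧ n < m)) → c l = c m) : ∀ l m, l < m → c l = c m := by
  induction D using Finset.induction_on with
  | empty => exact fun l m lm => h l m lm (by simp)
  | insert x D _ ih =>
    refine ih fun l m lm e => ?_
    by_cases hx : l < x ∧ x < m
    · rw [h l x hx.1 (by grind), h x m hx.2 (by grind)]
    · exact h l m lm (by grind)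

theorem schur_int (F : ℤ[X]) (hF : 0 < F.natDegree) (N : ℕ) :
    ∃ p t : ℕ, p.Prime ∧ N < p ∧ N < t ∧ (p : ℤ) ∣ F.eval (t : ℤ) := by
  suffices ∃ (p : ℕ) (t : ℤ), p.Prime ∧ N < p ∧ (p : ℤ) ∣ F.eval t by
    obtain ⟨p, t, h1, h2, h3⟩ := this
    have p1 : (1 : ℤ) ≤ p := by exact_mod_cast h1.one_le
    obtain ⟨u, hu⟩ := Int.eq_ofNat_of_zero_le (show 0 ≤ t + p * (|t| + 1 + N) by
      nlinarith [neg_abs_le t, abs_nonneg t])
    refine ⟨p, u, h1, h2, ?_, ?_⟩
    · have : (N : ℤ) < u := by nlinarith [neg_abs_le t, abs_nonneg t]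
      exact_mod_cast this
    · have := sub_dvd_eval_sub (u : ℤ) t F
      rw [← hu, add_sub_cancel_left] at this
      simpa [hu] using dvd_add ((dvd_mul_right _ _).trans this) h3
  by_cases c : F.eval 0 = 0
  · obtain ⟨p, h1, h2⟩ := Nat.exists_infinite_primes (N + 1)
    exact ⟨p, 0, h2, h1, by simp [c]⟩
  have ne : ∀ a : ℤ, F - C a ≠ 0 := fun a e => by
    rw [sub_eq_zero.1 e] at hF; simp at hF
  have inj : Function.Injective fun k : ℤ => F.eval 0 * N.factorial * k :=
    mul_right_injective₀ (mul_ne_zero c (by exact_mod_cast N.factorial_ne_zero))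
  obtain ⟨_, ⟨k, rfl⟩, hk⟩ := (Set.infinite_range_of_injective inj).exists_notMem_finite
    (finite_setOfPred_isRoot (mul_ne_zero (ne (F.eval 0)) (ne (-F.eval 0))))
  obtain ⟨g, hg⟩ := sub_dvd_eval_sub (F.eval 0 * N.factorial * k) 0 F
  have e : F.eval (F.eval 0 * N.factorial * k) = F.eval 0 * (1 + N.factorial * k * g) := by
    linear_combination hg
  simp only [Set.mem_ofPred_eq, IsRoot, eval_mul, eval_sub, eval_C, e, mul_eq_zero, not_or] at hk
  obtain ⟨p, hp, hd⟩ := Nat.exists_prime_and_dvd (n := (1 + N.factorial * k * g : ℤ).natAbs)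
    fun h => by
      rcases Int.natAbs_eq_iff.1 h with h | h <;> simp [h] at hk
  rw [← Int.natCast_dvd] at hd
  refine ⟨p, _, hp, ?_, e ▸ hd.mul_left _⟩
  by_contra hN
  have : (p : ℤ) ∣ N.factorial := by exact_mod_cast hp.dvd_factorial.2 (not_lt.1 hN)
  have := (dvd_add_left ((this.mul_right k).mul_right g)).1 hd
  exact hp.one_lt.ne' (by exact_mod_cast Int.eq_one_of_dvd_one (by positivity) this)

theorem schur (F : ℚ[X]) (N : ℕ) : ∃ p t : ℕ, p.Prime ∧ N < p ∧ N < t ∧
    (0 < F.natDegree → padicNorm p (F.eval (t : ℚ)) < 1) := by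
  by_cases hF : 0 < F.natDegree
  swap
  · obtain ⟨p, h1, h2⟩ := Nat.exists_infinite_primes (N + 1)
    exact ⟨p, p, h2, h1, h1, fun h => absurd h hF⟩
  obtain ⟨b, hb, e⟩ := IsLocalization.integerNormalization_spec (nonZeroDivisors ℤ) F
  have b0 : b ≠ 0 := nonZeroDivisors.ne_zero hb
  set G := IsLocalization.integerNormalization (nonZeroDivisors ℤ) F
  have e' : G.map (algebraMap ℤ ℚ) = C (b : ℚ) * F := by rw [e]; simp
  have hG : 0 < G.natDegree := by
    rw [← natDegree_map_eq_of_injective (algebraMap ℤ ℚ).injective_int, e',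
      natDegree_C_mul (by exact_mod_cast b0)]
    exact hF
  obtain ⟨p, t, h1, h2, h3, h4⟩ := schur_int G hG (max N b.natAbs)
  haveI := Fact.mk h1
  refine ⟨p, t, h1, by omega, by omega, fun _ => ?_⟩
  have e2 : ((G.eval (t : ℤ) : ℤ) : ℚ) = b * F.eval (t : ℚ) := by
    have := congrArg (eval (t : ℚ)) e'
    rwa [eval_mul, eval_C, eval_natCast_map] at this
  have := (padicNorm.int_lt_one_iff _).2 h4
  rwa [e2, padicNorm.mul, (padicNorm.int_eq_one_iff b).2 fun h => by
    have := Nat.le_of_dvd (Int.natAbs_pos.2 b0) (Int.natCast_dvd.1 h); omega, one_mul] at this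

/-- A sequence of primes with evaluation points on the lines, detecting all polynomials. -/
structure Data where
  p : ℕ → ℕ
  t : ℕ → ℕ
  l : ℕ → ℚ
  hp : ∀ n, (p n).Prime
  mono : StrictMono p
  ht : ∀ n, n < t n
  hit : ∀ (m : ℚ) (F : ℚ[X]), 0 < F.natDegree →
    ∃ᶠ n in atTop, l n = m ∧ padicNorm (p n) (F.eval (t n : ℚ)) < 1

theorem data : Nonempty Data := by
  haveI : Countable ℚ[X] := Function.Injective.countable (f := fun F : ℚ[X] => F.toFinsupp.coeff)
    fun a b e => toFinsupp_injective (AddMonoidAlgebra.coeff_injective e)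
  obtain ⟨s, hs⟩ := exists_surjective_nat ((ℚ × ℚ[X]) × ℕ)
  choose p t h1 h2 h3 h4 using schur
  let q : ℕ → ℕ := fun n => Nat.rec 0 (fun k r => p (s k).1.2 r) n
  have hq : StrictMono q := strictMono_nat_of_lt_succ fun n => h2 _ _
  refine ⟨⟨fun n => q (n + 1), fun n => t (s n).1.2 (q n), fun n => (s n).1.1, fun n => h1 _ _,
    fun a b ab => hq (Nat.succ_lt_succ ab), fun n => (hq.le_apply).trans_lt (h3 _ _), fun m F hF => ?_⟩⟩
  rw [Nat.frequently_atTop_iff_infinite]
  choose g hg using hs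
  refine Set.infinite_of_injective_forall_mem (f := fun k : ℕ => g ((m, F), k))
    (fun a b e => by simpa [hg] using congrArg s e) fun k => ⟨by simp [hg], ?_⟩
  have := h4 (s (g ((m, F), k))).1.2 (q (g ((m, F), k))) (by rwa [hg])
  nth_rewrite 3 [hg] at this
  exact this

end Pool.Agent.H75.Chain
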