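import Mathlib

/-! Degrees of irreducible representations are bounded by the index of an abelian subgroup, and
the trace of an operator of prime order `p` vanishes only in dimension divisible by `p`. -/

set_option autoImplicit false

namespace Pool.Agent.H75.CharZ

open Polynomial Module

theorem roots_sum (p : ℕ) (hp : p.Prime) (s : Multiset ℂ) (h : ∀ μ ∈ s, μ ^ p = 1)
    (h0 : s.sum = 0) : p ∣ s.card := by
  haveI := Fact.mk hp
  have hζ := Complex.isPrimitiveRoot_exp p hp.ne_zero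
  have key : ∀ s : Multiset ℂ, (∀ μ ∈ s, μ ^ p = 1) → ∃ P : ℤ[X],
      aeval (Complex.exp (2 * Real.pi * Complex.I / p)) P = s.sum ∧ P.eval 1 = s.card := by
    intro s
    induction s using Multiset.induction_on with
    | empty => intro _; exact ⟨0, by simp⟩
    | cons a s ih =>
      intro h
      obtain ⟨P, h1, h2⟩ := ih fun μ hμ => h μ (Multiset.mem_cons_of_mem hμ)
      obtain ⟨i, _, hi⟩ := hζ.eq_pow_of_pow_eq_one (h a (Multiset.mem_cons_self _ _))
      exact ⟨X ^ i + P, by simp [h1, hi], by simp [h2, add_comm]⟩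
  obtain ⟨P, h1, h2⟩ := key s h
  have := minpoly.isIntegrallyClosed_dvd (hζ.isIntegral hp.pos) (h1.trans h0)
  rw [← cyclotomic_eq_minpoly hζ hp.pos] at this
  have := eval_dvd (x := 1) this
  rw [eval_one_cyclotomic_prime, h2] at this
  exact_mod_cast this

theorem trace_zero {V : Type} [AddCommGroup V] [Module ℂ V] [FiniteDimensional ℂ V] (p : ℕ)
    (hp : p.Prime) (f : End ℂ V) (hf : f ^ p = 1) (h0 : LinearMap.trace ℂ V f = 0) :
    p ∣ finrank ℂ V := by
  have hs := IsAlgClosed.splits f.charpoly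
  rw [End.trace_eq_sum_roots_charpoly_of_splits hs] at h0
  have := roots_sum p hp _ (fun μ hμ => ?_) h0
  · rwa [← hs.natDegree_eq_card_roots, LinearMap.charpoly_natDegree] at this
  · obtain ⟨v, hv⟩ := ((End.hasEigenvalue_iff_isRoot_charpoly f μ).2
      (isRoot_of_mem_roots hμ)).exists_hasEigenvector
    have h1 := hv.pow_apply p
    rw [hf] at h1
    have h2 : (μ ^ p - 1) • v = 0 := by rw [sub_smul, ← h1]; simp
    exact sub_eq_zero.1 ((smul_eq_zero.1 h2).resolve_right hv.2)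

theorem eigvec {G V : Type} [Group G] [AddCommGroup V] [Module ℂ V] [FiniteDimensional ℂ V]
    [Nontrivial V] (ρ : G →* End ℂ V) (A : Subgroup G) (hA : ∀ a ∈ A, ∀ b ∈ A, a * b = b * a) :
    ∃ w : V, w ≠ 0 ∧ ∀ a ∈ A, ∃ c : ℂ, ρ a w = c • w := by
  obtain ⟨U, ⟨hU, hi⟩, hm⟩ := WellFounded.has_min (wellFounded_lt (α := Submodule ℂ V))
    {U | U ≠ ⊥ ∧ ∀ a ∈ A, ∀ u ∈ U, ρ a u ∈ U} ⟨⊤, top_ne_bot, fun _ _ _ _ => trivial⟩
  obtain ⟨w, hw, hw0⟩ := (Submodule.ne_bot_iff U).1 hU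
  refine ⟨w, hw0, fun a ha => ?_⟩
  haveI := Submodule.nontrivial_iff_ne_bot.2 hU
  obtain ⟨c, hc⟩ := End.exists_eigenvalue ((ρ a).restrict (hi a ha))
  obtain ⟨v, hv⟩ := hc.exists_hasEigenvector
  refine ⟨c, ?_⟩
  by_contra hn
  refine hm (U ⊓ End.eigenspace (ρ a) c) ⟨(Submodule.ne_bot_iff _).2 ⟨v, ⟨v.2, ?_⟩, ?_⟩, ?_⟩
    (lt_of_le_of_ne inf_le_left fun h => hn ?_)
  · exact End.mem_eigenspace_iff.2 (congrArg Subtype.val hv.apply_eq_smul)
  · exact fun h => hv.2 (Subtype.ext h)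
  · rintro b hb u ⟨h1, h2⟩
    refine ⟨hi b hb u h1, End.mem_eigenspace_iff.2 ?_⟩
    have h3 : ρ a u = c • u := End.mem_eigenspace_iff.1 h2
    rw [← End.mul_apply, ← map_mul, hA a ha b hb, map_mul, End.mul_apply, h3, map_smul]
  · rw [← h] at hw
    exact End.mem_eigenspace_iff.1 hw.2

theorem dim_le {G V : Type} [Group G] [Finite G] [AddCommGroup V] [Module ℂ V]
    [FiniteDimensional ℂ V] [Nontrivial V] (ρ : G →* End ℂ V)
    (hρ : ∀ W : Submodule ℂ V, (∀ g, ∀ w ∈ W, ρ g w ∈ W) → W = ⊥ ∨ W = ⊤)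
    (A : Subgroup G) (hA : ∀ a ∈ A, ∀ b ∈ A, a * b = b * a) : finrank ℂ V ≤ A.index := by
  obtain ⟨w, hw0, hw⟩ := eigvec ρ A hA
  haveI := Fintype.ofFinite (G ⧸ A)
  have key : ∀ g, ρ g w ∈ Submodule.span ℂ (Set.range fun c : G ⧸ A => ρ c.out w) := fun g => by
    obtain ⟨a, ha⟩ := QuotientGroup.mk_out_eq_mul A g
    obtain ⟨c, hc⟩ := hw _ (inv_mem a.2)
    rw [eq_mul_inv_of_mul_eq ha.symm, map_mul, End.mul_apply, hc, map_smul]
    exact Submodule.smul_mem _ _ (Submodule.subset_span ⟨_, rfl⟩)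
  have := (hρ (Submodule.span ℂ (Set.range fun c : G ⧸ A => ρ c.out w)) fun g u hu => by
    rw [← Submodule.mem_comap]
    refine Submodule.span_le.2 ?_ hu
    rintro _ ⟨c, rfl⟩
    rw [SetLike.mem_coe, Submodule.mem_comap, ← End.mul_apply, ← map_mul]
    exact key _).resolve_left fun h => hw0 (by simpa [h] using key 1)
  rw [Subgroup.index_eq_card, Nat.card_eq_fintype_card, ← finrank_top, ← this]
  exact finrank_range_le_card _

end Pool.Agent.H75.CharZ
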