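import Mathlib

/-! Elimination for homogeneous systems and the dimension bound for determinantal cones. -/

set_option autoImplicit false

namespace Pool.Agent.H75.ConeOpen

open MvPolynomial

attribute [local instance] MvPolynomial.gradedAlgebra

/-- Having only the trivial common zero is a Zariski open condition on the parameters. -/
theorem open_lemma {σ τ ι : Type} [Finite σ] (f : ι → MvPolynomial σ (MvPolynomial τ ℂ))
    (e : ι → ℕ) (hf : ∀ i, (f i).IsHomogeneous (e i)) (p0 : τ → ℂ)
    (h0 : ∀ t : σ → ℂ, (∀ i, eval t (map (eval p0) (f i)) = 0) → t = 0) :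
    ∃ P : MvPolynomial τ ℂ, eval p0 P ≠ 0 ∧ ∀ p, eval p P ≠ 0 →
      ∀ t : σ → ℂ, (∀ i, eval t (map (eval p) (f i)) = 0) → t = 0 := by
  classical
  let J : Ideal (MvPolynomial σ (MvPolynomial τ ℂ)) := Ideal.span (Set.range f)
  have hJ : J.IsHomogeneous (homogeneousSubmodule σ (MvPolynomial τ ℂ)) :=
    Ideal.homogeneous_span _ _ (by
      rintro _ ⟨i, rfl⟩
      exact ⟨e i, hf i⟩)
  have hsurj : Function.Surjective (map (σ := σ) (eval p0 : MvPolynomial τ ℂ →+* ℂ)) :=
    map_surjective _ fun c => ⟨C c, eval_C c⟩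
  have h1 : idealOfVars σ ℂ ≤ (J.map (map (eval p0))).radical := by
    rw [← vanishingIdeal_zeroLocus_eq_radical (K := ℂ), idealOfVars, Ideal.span_le]
    rintro _ ⟨s, rfl⟩ t ht
    have : t = 0 := h0 t fun i => ht _ (Ideal.mem_map_of_mem _ (Ideal.subset_span ⟨i, rfl⟩))
    simp [this]
  obtain ⟨d, hd⟩ := Ideal.exists_pow_le_of_le_radical_of_fg h1 (idealOfVars_fg σ ℂ)
  have h2 : homogeneousSubmodule σ (MvPolynomial τ ℂ) d ≤
      J.restrictScalars (MvPolynomial τ ℂ) ⊔
        RingHom.ker (eval p0 : MvPolynomial τ ℂ →+* ℂ) •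
          homogeneousSubmodule σ (MvPolynomial τ ℂ) d := by
    intro φ hφ
    have h3 : map (eval p0) φ ∈ J.map (map (eval p0)) := by
      apply hd
      rw [mem_pow_idealOfVars_iff']
      intro x hx
      exact (IsHomogeneous.map hφ _).coeff_eq_zero hx.ne
    obtain ⟨j, hj, e1⟩ := (Ideal.mem_map_iff_of_surjective _ hsurj).1 h3
    have h4 : φ = homogeneousComponent d j + homogeneousComponent d (φ - j) := by
      rw [← map_add, add_sub_cancel, homogeneousComponent_eq_self hφ]
    rw [h4]
    refine Submodule.add_mem_sup (homogeneousComponent_mem_of_mem hJ hj d) ?_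
    rw [homogeneousComponent_apply]
    refine Submodule.sum_mem _ fun ν hν => ?_
    rw [← mul_one (coeff ν (φ - j)), ← smul_eq_mul, map_smul]
    refine Submodule.smul_mem_smul ?_ (isHomogeneous_monomial _ (Finset.mem_filter.1 hν).2)
    rw [RingHom.mem_ker, ← coeff_map, map_sub, e1, sub_self, coeff_zero]
  obtain ⟨P, hP1, hP2⟩ := Submodule.exists_sub_one_mem_and_smul_le_of_fg_of_le_sup
    (homogeneousSubmodule_fg σ _ d) le_rfl h2
  refine ⟨P, ?_, fun p hp t ht => ?_⟩
  · rw [RingHom.mem_ker, map_sub, map_one, sub_eq_zero] at hP1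
    rw [hP1]
    exact one_ne_zero
  · funext s
    have h5 : P • (X s : MvPolynomial σ (MvPolynomial τ ℂ)) ^ d ∈ J :=
      hP2 (Submodule.smul_mem_pointwise_smul _ _ _ (isHomogeneous_X_pow s d))
    have h6 : J ≤ RingHom.ker ((eval t).comp (map (eval p))) := by
      rw [Ideal.span_le]
      rintro _ ⟨i, rfl⟩
      exact ht i
    have h7 := h6 h5
    rw [RingHom.mem_ker, smul_eq_C_mul] at h7
    simp only [RingHom.comp_apply, map_mul, map_pow, map_C, map_X, eval_C, eval_X] at h7
    exact pow_eq_zero_iff' .. |>.1 ((mul_eq_zero.1 h7).resolve_left hp) |>.1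

theorem det_homogeneous {σ R n : Type} [CommRing R] [Fintype n] [DecidableEq n]
    (A : Matrix n n (MvPolynomial σ R)) (h : ∀ i j, (A i j).IsHomogeneous 1) :
    A.det.IsHomogeneous (Fintype.card n) := by
  rw [Matrix.det_apply']
  refine IsHomogeneous.sum _ _ _ fun π _ => ?_
  have h1 := IsHomogeneous.prod Finset.univ (fun i => A (π i) i) (fun _ => 1) fun i _ => h _ _
  simp only [Finset.sum_const, smul_eq_mul, mul_one, Finset.card_univ] at h1
  have h2 := h1.C_mul ((Equiv.Perm.sign π : ℤ) : R)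
  simpa using h2

theorem le_rank_of_minor {α β : Type} [Fintype β] (Y : Matrix α β ℂ) {n : ℕ} (u : Fin n → α)
    (v : Fin n → β) (h : (Y.submatrix u v).det ≠ 0) : n ≤ Y.rank := by
  have h1 := Matrix.rank_of_det_ne_zero h
  rw [Fintype.card_fin] at h1
  rw [← h1]
  exact Matrix.rank_submatrix_le Y u v

theorem exists_cols {α β : Type} [Fintype β] (Y : Matrix α β ℂ) {n : ℕ} (h : n ≤ Y.rank) :
    ∃ v : Fin n → β, LinearIndependent ℂ fun i => Y.col (v i) := by
  obtain ⟨κ, a, ha, hs, hl⟩ := exists_linearIndependent' ℂ Y.col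
  have : Finite κ := Finite.of_injective a ha
  let _ : Fintype κ := Fintype.ofFinite κ
  have h1 : Fintype.card κ = Y.rank := by
    rw [Matrix.rank_eq_finrank_span_cols, ← hs, finrank_span_eq_card hl]
  obtain ⟨g⟩ : Nonempty (Fin n ↪ κ) :=
    Function.Embedding.nonempty_of_card_le (by rw [Fintype.card_fin, h1]; exact h)
  exact ⟨a ∘ g, hl.comp g g.injective⟩

theorem exists_minor {α β : Type} [Fintype α] [Fintype β] (Y : Matrix α β ℂ) {n : ℕ}
    (h : n ≤ Y.rank) : ∃ (u : Fin n → α) (v : Fin n → β), (Y.submatrix u v).det ≠ 0 := by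
  obtain ⟨v, hv⟩ := exists_cols Y h
  have h1 : (Y.submatrix id v).transpose.rank = n := by
    have := LinearIndependent.rank_matrix (M := (Y.submatrix id v).transpose) hv
    rwa [Fintype.card_fin] at this
  obtain ⟨u, hu⟩ := exists_cols (Y.submatrix id v).transpose h1.ge
  refine ⟨u, v, ?_⟩
  have h2 : IsUnit (Y.submatrix u v) := Matrix.linearIndependent_rows_iff_isUnit.1 hu
  exact ((Matrix.isUnit_iff_isUnit_det _).1 h2).ne_zero

theorem alg_step {α β γ : Type} [Fintype α] [Fintype β] (r : ℕ) (L : Option γ → α × β → ℂ)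
    (h : ∀ Y : Matrix α β ℂ, Y.rank ≤ r → (∀ j, ∑ q, L (some j) q * Y q.1 q.2 = 0) → Y = 0) :
    ∃ P : MvPolynomial (Option γ) ℂ, eval (fun o => o.elim 1 fun _ => 0) P ≠ 0 ∧
      ∀ Y : Matrix α β ℂ, Y.rank ≤ r → eval (fun o => ∑ q, L o q * Y q.1 q.2) P = 0 := by
  let f : ((Fin (r + 1) → α) × (Fin (r + 1) → β)) ⊕ Option γ →
      MvPolynomial (Option (α × β)) (MvPolynomial (Option γ) ℂ) :=
    Sum.elim (fun uv => (Matrix.of fun i j => X (some (uv.1 i, uv.2 j))).det)
      (fun o => ∑ q, C (C (L o q)) * X (some q) - C (X o) * X none)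
  have e1 : ∀ (p : Option γ → ℂ) (t : Option (α × β) → ℂ) uv,
      eval t (map (eval p) (f (Sum.inl uv))) =
        ((Matrix.of fun i j => t (some (i, j))).submatrix uv.1 uv.2).det := by
    intro p t uv
    change ((eval t).comp (map (eval p))) (Matrix.det _) = _
    rw [RingHom.map_det]
    congr 1
    ext i j
    simp
  have e2 : ∀ (p : Option γ → ℂ) (t : Option (α × β) → ℂ) o,
      eval t (map (eval p) (f (Sum.inr o))) = ∑ q, L o q * t (some q) - p o * t none := by
    intro p t o
    simp [f]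
  obtain ⟨P, hP1, hP2⟩ := open_lemma f (Sum.elim (fun _ => Fintype.card (Fin (r + 1))) fun _ => 1)
    (by
      rintro (uv | o)
      · exact det_homogeneous _ fun i j => isHomogeneous_X _ _
      · exact (IsHomogeneous.sum _ _ _ fun q _ => isHomogeneous_C_mul_X _ _).sub
          (isHomogeneous_C_mul_X _ _))
    (fun o => o.elim 1 fun _ => 0)
    (by
      intro t ht
      have h1 : (Matrix.of fun i j => t (some (i, j))) = 0 := by
        apply h
        · by_contra hc
          obtain ⟨u, v, huv⟩ := exists_minor _ (Nat.succ_le_of_lt (not_le.1 hc))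
          exact huv ((e1 _ t (u, v)).symm.trans (ht _))
        · intro j
          have := (e2 _ t (some j)).symm.trans (ht _)
          simpa using this
      have h2 : ∀ q, t (some q) = 0 := fun q => congrFun (congrFun h1 q.1) q.2
      have h3 := (e2 _ t none).symm.trans (ht _)
      simp only [h2, mul_zero, Finset.sum_const_zero, Option.elim, one_mul, zero_sub,
        neg_eq_zero] at h3
      funext o
      cases o with
      | none => exact h3
      | some q => exact h2 q)
  refine ⟨P, hP1, fun Y hY => ?_⟩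
  by_contra hc
  have h4 := hP2 _ hc (fun o => o.elim 1 fun q => Y q.1 q.2) (by
    rintro (uv | o)
    · rw [e1]
      by_contra h5
      have := le_rank_of_minor Y uv.1 uv.2 h5
      omega
    · rw [e2]
      simp)
  exact one_ne_zero (congrFun h4 none)

theorem algebraic_entry {α β γ υ : Type} [Fintype α] [Fintype β] (r : ℕ) (L : γ → α × β → ℂ)
    (h : ∀ Y : Matrix α β ℂ, Y.rank ≤ r → (∀ j, ∑ q, L j q * Y q.1 q.2 = 0) → Y = 0)
    (φ : Matrix α β (MvPolynomial υ ℂ)) (hφ : ∀ u, (φ.map (eval u)).rank ≤ r)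
    (h0 : φ.map (eval 0) = 0) (a : α) (b : β) :
    IsAlgebraic (Algebra.adjoin ℂ (Set.range fun j => ∑ q, C (L j q) * φ q.1 q.2)) (φ a b) := by
  classical
  obtain ⟨P, hP1, hP2⟩ := alg_step r (fun o => o.elim (Pi.single (a, b) 1) L) h
  set R' := Algebra.adjoin ℂ (Set.range fun j => ∑ q, C (L j q) * φ q.1 q.2)
  let g : γ → R' := fun j => ⟨∑ q, C (L j q) * φ q.1 q.2, Algebra.subset_adjoin ⟨j, rfl⟩⟩
  let Q : MvPolynomial (Option γ) ℂ →ₐ[ℂ] Polynomial R' :=
    aeval fun o => o.elim Polynomial.X fun j => Polynomial.C (g j)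
  have key : ∀ (u : υ → ℂ) (z : MvPolynomial υ ℂ), eval u (Polynomial.aeval z (Q P)) =
      eval (fun o => o.elim (eval u z) fun j => ∑ q, L j q * eval u (φ q.1 q.2)) P := by
    intro u z
    have : ((eval u).comp ((Polynomial.aeval z : Polynomial R' →ₐ[R'] _).toRingHom.comp
        Q.toRingHom)) =
        eval (fun o => o.elim (eval u z) fun j => ∑ q, L j q * eval u (φ q.1 q.2)) := by
      apply MvPolynomial.ringHom_ext
      · intro c
        have h1 : Q (C c) = Polynomial.C (algebraMap ℂ R' c) := by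
          simp [Q]
        simp [h1]
      · rintro (_ | j)
        · simp [Q]
        · simp [Q, g]
    exact RingHom.congr_fun this P
  refine ⟨Q P, fun hQ => hP1 ?_, ?_⟩
  · have h1 := key 0 1
    rw [hQ, map_zero, map_zero, map_one] at h1
    have : ∀ q : α × β, eval 0 (φ q.1 q.2) = 0 := fun q => congrFun (congrFun h0 q.1) q.2
    simp only [this, mul_zero, Finset.sum_const_zero] at h1
    exact h1.symm
  · apply MvPolynomial.funext
    intro u
    rw [key, map_zero, ← hP2 _ (hφ u)]
    congr 2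
    funext o
    cases o with
    | none => simp [Pi.single_apply]
    | some j => rfl

theorem det_adj_mem {R n : Type} [CommRing R] [Fintype n] [DecidableEq n] (A : Subring R)
    (T : Matrix n n R) (h : ∀ i j, T i j ∈ A) : T.det ∈ A ∧ ∀ i j, T.adjugate i j ∈ A := by
  let T' : Matrix n n A := Matrix.of fun i t => ⟨T i t, h _ _⟩
  have hT' : A.subtype.mapMatrix T' = T := rfl
  refine ⟨?_, fun i j => ?_⟩
  · rw [← hT', ← RingHom.map_det]
    exact T'.det.2
  · rw [← hT', ← RingHom.map_adjugate]
    exact (T'.adjugate i j).2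

/-- The dimension bound: few linear equations cut out a nonzero point of the determinantal
cone. -/
theorem cone_bound {γ : Type} [Fintype γ] (a b r : ℕ) (ha : r ≤ a) (hb : r ≤ b)
    (L : γ → Fin a × Fin b → ℂ)
    (h : ∀ Y : Matrix (Fin a) (Fin b) ℂ, Y.rank ≤ r →
      (∀ j, ∑ q, L j q * Y q.1 q.2 = 0) → Y = 0) :
    a * r + r * (b - r) ≤ Fintype.card γ := by
  classical
  let υ : Type := (Fin a × Fin r) ⊕ (Fin r × {j : Fin b // r ≤ (j : ℕ)})
  let U : Matrix (Fin a) (Fin r) (MvPolynomial υ ℂ) := Matrix.of fun i t => X (Sum.inl (i, t))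
  let V : Matrix (Fin r) (Fin b) (MvPolynomial υ ℂ) := Matrix.of fun t j =>
    if hj : r ≤ (j : ℕ) then X (Sum.inr (t, ⟨j, hj⟩)) else if (t : ℕ) = j then 1 else 0
  have hent := algebraic_entry r L h (U * V)
    (fun u => by
      rw [Matrix.map_mul]
      exact (Matrix.rank_mul_le_left _ _).trans (Matrix.rank_le_width _))
    (by
      rw [Matrix.map_mul]
      have : U.map (eval 0) = 0 := by
        ext i t
        simp [U]
      rw [this, Matrix.zero_mul])
  set s := Set.range fun j => ∑ q : Fin a × Fin b, C (L j q) * (U * V) q.1 q.2 with hs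
  set R' := Algebra.adjoin ℂ s
  let A := Subalgebra.algebraicClosure R' (MvPolynomial υ ℂ)
  have hU : ∀ i t, U i t ∈ A := by
    intro i t
    have h1 : (U * V) i (Fin.castLE hb t) = U i t := by
      rw [Matrix.mul_apply, Finset.sum_eq_single t]
      · simp [V]
      · intro t' _ ht'
        have : (t' : ℕ) ≠ t := fun h => ht' (Fin.ext h)
        simp [V, this]
      · simp
    rw [← h1]
    exact hent _ _
  let T : Matrix (Fin r) (Fin r) (MvPolynomial υ ℂ) := U.submatrix (Fin.castLE ha) id
  have hdet : T.det ∈ A := (det_adj_mem A.toSubring T fun i t => hU _ _).1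
  have hadj : ∀ i t, T.adjugate i t ∈ A := (det_adj_mem A.toSubring T fun i t => hU _ _).2
  have hdet0 : T.det ≠ 0 := by
    intro h0
    have h1 := congrArg (eval (Sum.elim (fun q : Fin a × Fin r => if (q.1 : ℕ) = q.2 then (1 : ℂ) else 0)
      (fun _ => 0) : υ → ℂ)) h0
    rw [RingHom.map_det, map_zero] at h1
    have h2 : (eval (Sum.elim (fun q : Fin a × Fin r => if (q.1 : ℕ) = q.2 then (1 : ℂ) else 0)
      (fun _ => 0) : υ → ℂ)).mapMatrix T = 1 := by
      ext i t
      simp [T, U, Matrix.one_apply, Fin.ext_iff]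
    rw [h2, Matrix.det_one] at h1
    exact one_ne_zero h1
  have hV : ∀ t j, V t j ∈ A := by
    intro t j
    refine IsAlgebraic.of_mul (mem_nonZeroDivisors_of_ne_zero hdet0) hdet ?_
    have h1 : T.det * V t j = ∑ i, T.adjugate t i * (U * V) (Fin.castLE ha i) j := by
      have h2 : (T.adjugate * (T * V)) t j = T.det * V t j := by
        rw [← Matrix.mul_assoc, Matrix.adjugate_mul, Matrix.smul_mul, Matrix.one_mul]
        rfl
      rw [← h2, Matrix.mul_apply]
      rfl
    rw [h1]
    exact A.sum_mem fun i _ => A.mul_mem (hadj t i) (hent _ _)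
  have halg : Algebra.IsAlgebraic R' (MvPolynomial υ ℂ) := by
    refine ⟨fun p => ?_⟩
    change p ∈ A
    induction p using MvPolynomial.induction_on with
    | C c => exact A.algebraMap_mem (algebraMap ℂ R' c)
    | add p q hp hq => exact A.add_mem hp hq
    | mul_X p i hp =>
      refine A.mul_mem hp ?_
      rcases i with ⟨i, t⟩ | ⟨t, j⟩
      · exact hU i t
      · have := hV t j.1
        simpa [V, j.2] using this
  have h3 := Algebra.IsAlgebraic.trdeg_le_cardinalMk ℂ s (alg := halg)
  rw [MvPolynomial.trdeg_of_isDomain, Cardinal.lift_id] at h3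
  have h4 : Cardinal.mk υ ≤ Cardinal.mk γ := h3.trans Cardinal.mk_range_le
  rw [Cardinal.mk_fintype, Cardinal.mk_fintype, Nat.cast_le] at h4
  have h5 : Fintype.card {j : Fin b // r ≤ (j : ℕ)} = b - r := by
    have h6 := Fintype.card_subtype_compl (fun j : Fin b => (j : ℕ) < r)
    rw [Fintype.card_fin_lt_of_le hb, Fintype.card_fin] at h6
    simpa only [not_lt] using h6
  simpa [υ, h5] using h4

/-- A subspace of large dimension contains a nonzero matrix of small rank. -/
theorem exists_low_rank (a b r : ℕ) (ha : r ≤ a) (hb : r ≤ b)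
    (S : Submodule ℂ (Matrix (Fin a) (Fin b) ℂ))
    (hS : (a - r) * (b - r) < Module.finrank ℂ S) : ∃ Y ∈ S, Y ≠ 0 ∧ Y.rank ≤ r := by
  classical
  by_contra hc
  push Not at hc
  let B := Module.finBasis ℂ (Matrix (Fin a) (Fin b) ℂ ⧸ S)
  have h1 := cone_bound a b r ha hb
    (fun j q => B.repr (S.mkQ (Matrix.single q.1 q.2 1)) j) (fun Y hY h => by
      by_contra h0
      refine absurd hY (not_le.2 (hc Y ?_ h0))
      rw [← Submodule.Quotient.mk_eq_zero, ← S.mkQ_apply, ← B.repr.map_eq_zero_iff]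
      ext j
      rw [Finsupp.zero_apply, ← h j]
      conv_lhs => rw [Matrix.matrix_eq_sum_single Y]
      rw [Fintype.sum_prod_type]
      simp only [map_sum, Finsupp.coe_finsetSum, Finset.sum_apply]
      refine Finset.sum_congr rfl fun i _ => Finset.sum_congr rfl fun k _ => ?_
      rw [← mul_one (Y i k), ← smul_eq_mul, ← Matrix.smul_single, map_smul, map_smul]
      simp [mul_comm])
  have h2 := S.finrank_quotient_add_finrank
  rw [Module.finrank_matrix, Fintype.card_fin, Fintype.card_fin, Module.finrank_self] at h2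
  rw [Fintype.card_fin] at h1
  obtain ⟨a', rfl⟩ := Nat.exists_eq_add_of_le ha
  obtain ⟨b', rfl⟩ := Nat.exists_eq_add_of_le hb
  rw [Nat.add_sub_cancel_left] at h1 hS
  rw [Nat.add_sub_cancel_left] at hS
  nlinarith

end Pool.Agent.H75.ConeOpen
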