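import Mathlib

/-! Lifting equivalences of idempotents modulo the radical; idempotent matrices over fields. -/

set_option autoImplicit false

namespace Pool.Agent.H75.EX

open Matrix

section
variable {R S : Type} [Ring R] [Ring S] {π : R →+* S} {k l : Type} [Fintype k] [Fintype l]
  [DecidableEq k] [DecidableEq l]

theorem unit_mat (hJ : ∀ a, π a = 1 → IsUnit a) {W : Matrix k k R} (h : W.map π = 1) :
    IsUnit W := by
  have key : ∀ W : Matrix k k R, W.map π = 1 → ∃ Z, Z * W = 1 := fun W h => by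
    have : W - 1 ∈ (⊥ : TwoSidedIdeal (Matrix k k R)).jacobson := by
      rw [← TwoSidedIdeal.matrix_jacobson_bot, TwoSidedIdeal.mem_matrix]
      intro i j
      refine TwoSidedIdeal.mem_jacobson_iff.2 fun y => ?_
      have h1 : π ((W - 1) i j) = 0 := by
        have := congrFun (congrFun h i) j
        rw [map_apply] at this
        rw [Matrix.sub_apply, map_sub, this, one_apply, one_apply]; split_ifs <;> simp
      obtain ⟨z, hz⟩ := (hJ (y * (W - 1) i j + 1) (by rw [map_add, map_mul, h1]; simp)).exists_left_inv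
      exact ⟨z, by rw [mul_assoc, ← mul_add_one, hz, sub_self]; exact zero_mem _⟩
    obtain ⟨z, hz⟩ := TwoSidedIdeal.mem_jacobson_iff.1 this 1
    rw [TwoSidedIdeal.mem_bot, mul_one, ← mul_add_one, sub_add_cancel, sub_eq_zero] at hz
    exact ⟨z, hz⟩
  obtain ⟨Z, hZ⟩ := key W h
  obtain ⟨Y, hY⟩ := key Z (by
    have := congrArg π.mapMatrix hZ
    rwa [map_mul, map_one, π.mapMatrix_apply W, h, mul_one] at this)
  have : Y = W := by rw [← mul_one Y, ← hZ, ← mul_assoc, hY, one_mul]
  exact ⟨⟨W, Z, this ▸ hY, hZ⟩, rfl⟩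

theorem lift_equiv (hs : Function.Surjective π) (hJ : ∀ a, π a = 1 → IsUnit a)
    {p : Matrix k k R} {q : Matrix l l R} (hp : p * p = p) (hq : q * q = q)
    {x : Matrix k l S} {y : Matrix l k S} (h1 : x * y = p.map π) (h2 : y * x = q.map π) :
    ∃ (x : Matrix k l R) (y : Matrix l k R), x * y = p ∧ y * x = q := by
  choose g hg using hs
  have gx : (x.map g).map π = x := by ext; simp [hg]
  have gy : (y.map g).map π = y := by ext; simp [hg]
  have pp : p.map π * p.map π = p.map π := by rw [← Matrix.map_mul, hp]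
  have qq : q.map π * q.map π = q.map π := by rw [← Matrix.map_mul, hq]
  obtain ⟨a, ha⟩ : ∃ a, a = p * x.map g * q := ⟨_, rfl⟩
  obtain ⟨b, hb⟩ : ∃ b, b = q * y.map g * p := ⟨_, rfl⟩
  have pa : p * a = a := by rw [ha, ← Matrix.mul_assoc, ← Matrix.mul_assoc, hp]
  have aq : a * q = a := by rw [ha, Matrix.mul_assoc, hq]
  have qb : q * b = b := by rw [hb, ← Matrix.mul_assoc, ← Matrix.mul_assoc, hq]
  have bp : b * p = b := by rw [hb, Matrix.mul_assoc, hp]
  have xq : x * q.map π = p.map π * x := by rw [← h1, ← h2, Matrix.mul_assoc]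
  have yp : y * p.map π = q.map π * y := by rw [← h1, ← h2, Matrix.mul_assoc]
  have a' : a.map π = p.map π * x := by
    rw [ha, Matrix.map_mul, Matrix.map_mul, gx, Matrix.mul_assoc, xq, ← Matrix.mul_assoc, pp]
  have b' : b.map π = q.map π * y := by
    rw [hb, Matrix.map_mul, Matrix.map_mul, gy, Matrix.mul_assoc, yp, ← Matrix.mul_assoc, qq]
  have hW : π.mapMatrix (a * b + (1 - p)) = 1 := by
    rw [map_add, map_sub, map_one, π.mapMatrix_apply, π.mapMatrix_apply, Matrix.map_mul, a', b',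
      ← yp, Matrix.mul_assoc, ← Matrix.mul_assoc x, h1, pp, pp, add_sub_cancel]
  obtain ⟨Z, hZ⟩ := (unit_mat hJ hW).exists_right_inv
  have Z1 : Z.map π = 1 := by
    have := congrArg π.mapMatrix hZ
    rwa [map_mul, map_one, hW, one_mul] at this
  have e1 : a * (b * Z) = p := by
    have := congrArg (p * ·) hZ
    simp only [← Matrix.mul_assoc, mul_add, mul_sub, pa, hp, mul_one, sub_self, add_zero] at this
    rw [← Matrix.mul_assoc, this]
  refine ⟨a, b * Z, e1, ?_⟩
  have hV : π.mapMatrix (1 - (q - b * Z * a)) = 1 := by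
    rw [map_sub, map_sub, map_one, π.mapMatrix_apply, π.mapMatrix_apply, Matrix.map_mul,
      Matrix.map_mul, Z1, Matrix.mul_one, a', b', ← xq, Matrix.mul_assoc, ← Matrix.mul_assoc y, h2,
      qq, qq, sub_self, sub_zero]
  refine (sub_eq_zero.1 ((unit_mat hJ hV).mul_right_eq_zero.1 ?_)).symm
  have e2 : b * Z * a * (b * Z * a) = b * Z * a := by
    rw [Matrix.mul_assoc _ a, ← Matrix.mul_assoc a, e1, pa]
  have e3 : q * (b * Z * a) = b * Z * a := by rw [← Matrix.mul_assoc, ← Matrix.mul_assoc, qb]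
  have e4 : b * Z * a * q = b * Z * a := by rw [Matrix.mul_assoc, aq]
  simp only [sub_mul, mul_sub, one_mul, hq, e2, e3, e4]; abel

theorem exchange (hs : Function.Surjective π) (hJ : ∀ a, π a = 1 → IsUnit a)
    (hc : ∀ s : S, ∃ e : R, e * e = e ∧ IsUnit (s - π e)) (x : R) :
    ∃ e, e * e = e ∧ (∃ r, e = x * r) ∧ ∃ s, 1 - e = (1 - x) * s := by
  obtain ⟨e, he, ⟨v, hv⟩⟩ := hc (π x)
  obtain ⟨b, hb⟩ := hs ↑v⁻¹
  have h1 := hJ ((x - e) * b) (by rw [map_mul, map_sub, ← hv, hb]; simp)
  have h2 := hJ (b * (x - e)) (by rw [map_mul, map_sub, ← hv, hb]; simp)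
  obtain ⟨c, hc⟩ := h1.exists_right_inv
  obtain ⟨d, hd⟩ := h2.exists_left_inv
  rw [mul_assoc] at hc
  rw [← mul_assoc] at hd
  rw [left_inv_eq_right_inv hd hc] at hd
  generalize b * c = w at hc hd
  have k2 : (x - e) * (1 - e) * w = x - (x * x - x) * w := by
    have : (x - e) * (1 - e) = x * (x - e) - (x * x - x) := by
      simp only [sub_mul, mul_sub, mul_one, he]; abel
    rw [this, sub_mul, mul_assoc, hc, mul_one]
  refine ⟨(x - e) * (1 - e) * w, ?_, ⟨1 - (x - 1) * w, ?_⟩, ⟨1 - x * w, ?_⟩⟩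
  · have : (1 - e) * (1 - e) = 1 - e := by simp [sub_mul, mul_sub, he]
    calc _ = (x - e) * ((1 - e) * (w * (x - e)) * (1 - e)) * w := by simp only [mul_assoc]
      _ = _ := by rw [hd, mul_one, this]
  · rw [k2]; noncomm_ring
  · rw [k2]; noncomm_ring

end

section
variable {F : Type} [Field F] {k l : Type} [Fintype k] [Fintype l] [DecidableEq k] [DecidableEq l]

theorem proj {p : Matrix k k F} (hp : p * p = p) :
    LinearMap.IsProj (LinearMap.range (toLin' p)) (toLin' p) :=
  LinearMap.IsIdempotentElem.isProj_range _ (by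
    rw [IsIdempotentElem, Module.End.mul_eq_comp, ← toLin'_mul, hp])

theorem tr_eq {p : Matrix k k F} (hp : p * p = p) :
    p.trace = (Module.finrank F (LinearMap.range (toLin' p)) : ℕ) := by
  rw [← (proj hp).trace, trace_toLin'_eq]

theorem idem_equiv [CharZero F] {p : Matrix k k F} {q : Matrix l l F} (hp : p * p = p)
    (hq : q * q = q) (h : p.trace = q.trace) :
    ∃ (x : Matrix k l F) (y : Matrix l k F), x * y = p ∧ y * x = q := by
  rw [tr_eq hp, tr_eq hq, Nat.cast_inj] at h
  let e := LinearEquiv.ofFinrankEq _ _ h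
  refine ⟨LinearMap.toMatrix'
      ((LinearMap.range _).subtype ∘ₗ e.symm.toLinearMap ∘ₗ (toLin' q).rangeRestrict),
    LinearMap.toMatrix' ((LinearMap.range _).subtype ∘ₗ e.toLinearMap ∘ₗ (toLin' p).rangeRestrict),
    ?_, ?_⟩ <;> rw [← LinearMap.toMatrix'_comp, ← LinearEquiv.eq_symm_apply] <;>
    refine LinearMap.ext fun v => ?_
  · have : (toLin' q).rangeRestrict (e ((toLin' p).rangeRestrict v)) = _ :=
      Subtype.ext ((proj hq).map_id _ (Subtype.prop _))
    simp only [LinearMap.comp_apply, LinearEquiv.coe_coe, Submodule.subtype_apply, this,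
      LinearEquiv.symm_apply_apply]; rfl
  · have : (toLin' p).rangeRestrict (e.symm ((toLin' q).rangeRestrict v)) = _ :=
      Subtype.ext ((proj hp).map_id _ (Subtype.prop _))
    simp only [LinearMap.comp_apply, LinearEquiv.coe_coe, Submodule.subtype_apply, this,
      LinearEquiv.apply_symm_apply]; rfl

theorem idem_conj [CharZero F] {p q : Matrix k k F} (hp : p * p = p) (hq : q * q = q)
    (h : p.trace = q.trace) : ∃ c : Matrix k k F, IsUnit c ∧ c * q = p * c := by
  have hp' : (1 - p) * (1 - p) = 1 - p := by simp [sub_mul, mul_sub, hp]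
  have hq' : (1 - q) * (1 - q) = 1 - q := by simp [sub_mul, mul_sub, hq]
  obtain ⟨x, y, h1, h2⟩ := idem_equiv hp hq h
  obtain ⟨z, w, h3, h4⟩ := idem_equiv hp' hq' (by rw [trace_sub, trace_sub, h])
  have a1 : q * (1 - q) = 0 := by simp [mul_sub, hq]
  have a2 : (1 - q) * q = 0 := by simp [sub_mul, hq]
  have a3 : p * (1 - p) = 0 := by simp [mul_sub, hp]
  have xq : x * q = p * x := by rw [← h1, ← h2, mul_assoc]
  have zq : z * (1 - q) = (1 - p) * z := by rw [← h3, ← h4, mul_assoc]
  refine ⟨x * q + z * (1 - q), IsUnit.of_mul_eq_one (q * y + (1 - q) * w) ?_, ?_⟩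
  · simp only [add_mul, mul_add, mul_assoc, ← mul_assoc q, ← mul_assoc (1 - q), hq, hq', a1, a2,
      zero_mul, mul_zero, add_zero, zero_add]
    rw [← mul_assoc, ← mul_assoc, xq, zq, mul_assoc, mul_assoc, h1, h3, hp, hp', add_sub_cancel]
  · rw [add_mul, mul_assoc, mul_assoc, hq, a2, mul_zero, add_zero, xq, zq, mul_add, ← mul_assoc,
      ← mul_assoc, hp, a3, zero_mul, add_zero]

theorem clean_comm {C : Type} [CommRing C] [IsArtinianRing C] (x : C) :
    ∃ e, e * e = e ∧ IsUnit (x - e) := by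
  obtain ⟨n, b, h⟩ := IsArtinian.exists_pow_succ_smul_dvd x (1 : C)
  simp only [smul_eq_mul, Nat.succ_eq_add_one, mul_one] at h
  have h1 : ∀ j, x ^ n * (x * b) ^ j = x ^ n := fun j => by
    induction j with
    | zero => simp
    | succ j ih => linear_combination (x * b) * ih + h
  obtain ⟨f, hf⟩ : ∃ f, f = x ^ n * b ^ n := ⟨_, rfl⟩
  have h2 : x ^ n * f = x ^ n := by rw [hf, ← mul_pow, h1]
  have h3 : f * f = f := by rw [hf] at h2 ⊢; linear_combination b ^ n * h2
  have h4 : x * b * f = f := by rw [hf]; linear_combination b ^ n * h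
  have h5 : IsNilpotent (x * (1 - f)) := ⟨n + 1, by
    rw [mul_pow, pow_succ, pow_succ]; linear_combination (-x * (1 - f) ^ n) * h2⟩
  obtain ⟨w, hw⟩ := h5.isUnit_one_sub.exists_right_inv
  refine ⟨1 - f, by linear_combination h3, IsUnit.of_mul_eq_one (b * f - w * (1 - f)) ?_⟩
  linear_combination h4 + b * h3 + (1 - f) * hw + (w + w * x) * h3 - w * x * h3 + w * x * h3
    - w * h3 + w * h3 - w * x * h3 + w * x * h3

theorem clean (a : Matrix k k F) : ∃ e : Matrix k k F, e * e = e ∧ IsUnit (a - e) := by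
  let C := Algebra.adjoin F {a}
  have : IsArtinianRing C := IsArtinianRing.of_finite F C
  letI : CommRing C := { (inferInstance : Ring C) with mul_comm := mul_comm' }
  obtain ⟨e, h1, h2⟩ := clean_comm (⟨a, Algebra.self_mem_adjoin_singleton F a⟩ : C)
  exact ⟨e, congrArg Subtype.val h1, h2.map C.val⟩

end

end Pool.Agent.H75.EX
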