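import Pool.Agent.H75.EX1

/-! Rational function fields with places given by evaluation at points of the dual monoid. -/

set_option autoImplicit false

namespace Pool.Agent.H75.EX

open Matrix MvPolynomial

abbrev P (n : ℕ) : Type := MvPolynomial (ℕ × Fin n) ℚ
abbrev K (n : ℕ) : Type := FractionRing (P n)
abbrev N (n : ℕ) : Type := Fin n → ℕ

variable {m n : ℕ}

noncomputable abbrev io : P n →+* K n := algebraMap (P n) (K n)

theorem io_inj : Function.Injective (io (n := n)) := IsFractionRing.injective _ _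

noncomputable def ev (l : ℕ) (φ : N n) : P n →ₐ[ℚ] P n :=
  aeval fun x => if x.1 = l then C (φ x.2 : ℚ) else X x

/-- The graph of the place attached to `l` and `φ`. -/
noncomputable def G (l : ℕ) (φ : N n) : Subring (K n × K n) where
  carrier := {z | ∃ p q, ev l φ q ≠ 0 ∧ z.1 * io q = io p ∧ z.2 * io (ev l φ q) = io (ev l φ p)}
  mul_mem' := fun ⟨p, q, h, h1, h2⟩ ⟨p', q', h', h1', h2'⟩ =>
    ⟨p * p', q * q', by simp [h, h'], by
      simp only [map_mul, Prod.fst_mul, ← h1, ← h1']; ring, by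
      simp only [map_mul, Prod.snd_mul, ← h2, ← h2']; ring⟩
  one_mem' := ⟨1, 1, by simp, by simp, by simp⟩
  add_mem' := fun ⟨p, q, h, h1, h2⟩ ⟨p', q', h', h1', h2'⟩ =>
    ⟨p * q' + p' * q, q * q', by simp [h, h'], by
      simp only [map_mul, map_add, Prod.fst_add, ← h1, ← h1']; ring, by
      simp only [map_mul, map_add, Prod.snd_add, ← h2, ← h2']; ring⟩
  zero_mem' := ⟨0, 1, by simp, by simp, by simp⟩
  neg_mem' := fun ⟨p, q, h, h1, h2⟩ => ⟨-p, q, h, by simp [h1], by simp [h2]⟩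

variable {l : ℕ} {φ : N n} {a b : K n}

theorem G_poly (p : P n) : (io p, io (ev l φ p)) ∈ G l φ := ⟨p, 1, by simp, by simp, by simp⟩

theorem G_zero (h : (0, b) ∈ G l φ) : b = 0 := by
  obtain ⟨p, q, h, h1, h2⟩ := h
  obtain rfl : p = 0 := io_inj (by simpa using h1.symm)
  simpa [h] using h2

theorem G_inv (h : (a, b) ∈ G l φ) (hb : b ≠ 0) : a ≠ 0 ∧ (a⁻¹, b⁻¹) ∈ G l φ := by
  have ha : a ≠ 0 := by rintro rfl; exact hb (G_zero h)
  obtain ⟨p, q, h, h1, h2⟩ := h
  refine ⟨ha, q, p, fun h0 => ?_, ?_, ?_⟩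
  · simp [h0, h, hb] at h2
  · rw [← h1, ← mul_assoc, inv_mul_cancel₀ ha, one_mul]
  · rw [← h2, ← mul_assoc, inv_mul_cancel₀ hb, one_mul]

theorem G_nat {i j : ℕ} (h : ((i : K n), (j : K n)) ∈ G l φ) : i = j := by
  have h1 : ((i : K n), (i : K n)) ∈ G l φ := natCast_mem (G l φ) i
  have := G_zero (l := l) (φ := φ) (b := j - i) (by simpa using (G l φ).sub_mem h h1)
  exact (Nat.cast_injective (sub_eq_zero.1 this)).symm

noncomputable def Fx (n r : ℕ) : Subfield (K n) where
  carrier := {a | ∀ l, r < l → ∀ φ, (a, a) ∈ G l φ}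
  mul_mem' h h' l hl φ := (G l φ).mul_mem (h l hl φ) (h' l hl φ)
  one_mem' l _ φ := (G l φ).one_mem
  add_mem' h h' l hl φ := (G l φ).add_mem (h l hl φ) (h' l hl φ)
  zero_mem' l _ φ := (G l φ).zero_mem
  neg_mem' h l hl φ := (G l φ).neg_mem (h l hl φ)
  inv_mem' a h l hl φ := by
    by_cases ha : a = 0
    · subst ha; rw [_root_.inv_zero]; exact (G l φ).zero_mem
    · exact (G_inv (h l hl φ) ha).2

theorem eps (l : ℕ) (s : Finset (N n)) : ∃ ε : N n → K n, (∀ φ, ε φ ∈ Fx n l) ∧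
    ∀ φ, ∀ ψ ∈ s, (ε φ, if φ = ψ then 1 else 0) ∈ G l ψ := by
  have key : ∀ φ ψ : N n, ∃ p : P n, ev l φ p = 1 ∧ (φ ≠ ψ → ev l ψ p = 0) ∧
      ∀ l', l < l' → ∀ χ, ev l' χ p = p := fun φ ψ => by
    by_cases h : φ = ψ
    · exact ⟨1, by simp, fun h' => (h' h).elim, by simp⟩
    obtain ⟨i, hi⟩ := Function.ne_iff.1 h
    have : (φ i : ℚ) - ψ i ≠ 0 := sub_ne_zero.2 (by exact_mod_cast hi)
    refine ⟨C ((φ i : ℚ) - ψ i)⁻¹ * (X (l, i) - C (ψ i : ℚ)), ?_, fun _ => by simp [ev],
      fun l' hl χ => by simp [ev, hl.ne]⟩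
    simp only [ev, map_mul, map_sub, aeval_C, aeval_X, if_true, algebraMap_eq]
    rw [← map_sub, ← map_mul, inv_mul_cancel₀ this, map_one]
  choose p h1 h2 h3 using key
  refine ⟨fun φ => io (∏ ψ ∈ s, p φ ψ), fun φ l' hl χ => ?_, fun φ ψ hψ => ?_⟩
  · have := G_poly (l := l') (φ := χ) (∏ ψ ∈ s, p φ ψ)
    rwa [map_prod (ev l' χ), Finset.prod_congr rfl fun ψ _ => h3 φ ψ l' hl χ] at this
  · have := G_poly (l := l) (φ := ψ) (∏ ψ ∈ s, p φ ψ)
    rw [map_prod (ev l ψ)] at this
    split_ifs with h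
    · subst h; simpa [h1] using this
    · rwa [Finset.prod_eq_zero (f := fun x => ev l ψ (p φ x)) hψ (h2 _ _ h), map_zero] at this

variable {I : Type} [Fintype I] [DecidableEq I]

/-- Pairs of matrices related entrywise. -/
noncomputable def MG (I : Type) [Fintype I] [DecidableEq I] (l : ℕ) (φ : N n) :
    Subring (Matrix I I (K n) × Matrix I I (K n)) where
  carrier := {z | ∀ i j, (z.1 i j, z.2 i j) ∈ G l φ}
  mul_mem' {x y} h h' i j := by
    have := (G l φ).sum_mem (t := Finset.univ) fun c _ => (G l φ).mul_mem (h i c) (h' c j)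
    rwa [← prod_mk_sum] at this
  one_mem' i j := by
    simp only [Prod.fst_one, Prod.snd_one, one_apply]
    split_ifs; exacts [(G l φ).one_mem, (G l φ).zero_mem]
  add_mem' h h' i j := (G l φ).add_mem (h i j) (h' i j)
  zero_mem' _ _ := (G l φ).zero_mem
  neg_mem' h i j := (G l φ).neg_mem (h i j)

theorem MG_inv {A B : Matrix I I (K n)} (h : (A, B) ∈ MG I l φ) (hB : IsUnit B) :
    IsUnit A ∧ (A⁻¹, B⁻¹) ∈ MG I l φ := by
  let D : Matrix I I (G l φ) := of fun i j => ⟨_, h i j⟩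
  let f : G l φ →+* K n := (RingHom.fst _ _).comp (G l φ).subtype
  let g : G l φ →+* K n := (RingHom.snd _ _).comp (G l φ).subtype
  have h1 : f D.det = A.det := f.map_det D
  have h2 : g D.det = B.det := g.map_det D
  have hb := ((isUnit_iff_isUnit_det B).1 hB).ne_zero
  obtain ⟨ha, hi⟩ := G_inv (a := A.det) (b := B.det) (by rw [← h1, ← h2]; exact D.det.2) hb
  refine ⟨(isUnit_iff_isUnit_det A).2 ha.isUnit, fun i j => ?_⟩
  have h3 : f.mapMatrix D.adjugate = A.adjugate := f.map_adjugate D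
  have h4 : g.mapMatrix D.adjugate = B.adjugate := g.map_adjugate D
  simp only [inv_def, Ring.inverse_eq_inv', Matrix.smul_apply, ← h3, ← h4]
  exact (G l φ).mul_mem hi (D.adjugate i j).2

theorem interp (l : ℕ) (s : Finset (N n)) (B : N n → Matrix I I (K n))
    (h : ∀ φ i j, ∃ r, r < l ∧ B φ i j ∈ Fx n r) :
    ∃ A : Matrix I I (K n), (∀ i j, A i j ∈ Fx n l) ∧ ∀ φ ∈ s, (A, B φ) ∈ MG I l φ := by
  obtain ⟨ε, h1, h2⟩ := eps l s
  refine ⟨of fun i j => ∑ φ ∈ s, ε φ * B φ i j, fun i j => sum_mem fun φ _ => mul_mem (h1 φ) ?_,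
    fun ψ hψ i j => ?_⟩
  · obtain ⟨r, hr, h⟩ := h φ i j
    exact fun l' hl => h l' (hr.trans hl)
  · have := (G l ψ).sum_mem (t := s) fun φ _ => (G l ψ).mul_mem (h2 φ ψ hψ)
      ((h φ i j).choose_spec.2 l (h φ i j).choose_spec.1 ψ)
    rw [← prod_mk_sum] at this
    simpa [hψ] using this

/-- The transpose of a monoid homomorphism. -/
def du (f : N m →+ N n) (φ : N n) : N m := fun i => φ ⬝ᵥ f (Pi.single i 1)

theorem hom_eq {M : Type} [AddCommMonoid M] (f : N m →+ M) (x : N m) :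
    f x = ∑ i, x i • f (Pi.single i 1) := by
  nth_rewrite 1 [← Finset.univ_sum_single x]
  rw [map_sum]
  refine Finset.sum_congr rfl fun i _ => ?_
  rw [← map_nsmul, ← Pi.single_smul', smul_eq_mul, mul_one]

theorem du_dot (f : N m →+ N n) (φ : N n) (x : N m) : du f φ ⬝ᵥ x = φ ⬝ᵥ f x := by
  rw [hom_eq f x, dotProduct_sum]
  exact Finset.sum_congr rfl fun i _ => by rw [dotProduct_smul, smul_eq_mul, mul_comm]; rfl

noncomputable def fs (f : N m →+ N n) : P m →ₐ[ℚ] P n :=
  aeval fun x => ∑ j, C (f (Pi.single x.2 1) j : ℚ) * X (x.1, j)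

theorem ev_fs (f : N m →+ N n) (p : P m) : ev l φ (fs f p) = fs f (ev l (du f φ) p) := by
  have : (ev l φ).comp (fs f) = (fs f).comp (ev l (du f φ)) := by
    ext1 x
    by_cases h : x.1 = l <;> simp [ev, fs, h, du, dotProduct, mul_comm]
  exact congrArg (fun g => g p) this

theorem fs_inj {f : N m →+ N n} (hf : Function.Injective f) : Function.Injective (fs f) := by
  let A : Matrix (Fin n) (Fin m) ℤ := of fun j i => f (Pi.single i 1) j
  have h0 : ∀ x : N m, A.mulVec (fun i => (x i : ℤ)) = fun j => (f x j : ℤ) := fun x => by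
    ext j; rw [hom_eq f x]; simp [A, mulVec, dotProduct, mul_comm]
  have h1 : LinearIndependent ℤ A.col := by
    rw [← mulVec_injective_iff]
    refine (injective_iff_map_eq_zero A.mulVecLin).2 fun z hz => ?_
    have e : z = (fun i => ((z i).toNat : ℤ)) - fun i => ((-z i).toNat : ℤ) := by
      ext i; simp
    rw [e, map_sub, sub_eq_zero, mulVecLin_apply, mulVecLin_apply, h0, h0] at hz
    have := hf (funext fun j => Nat.cast_injective (congrFun hz j))
    ext i; have := congrFun this i; simp only [Pi.zero_apply]; omega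
  have h2 : LinearIndependent ℚ (A.map (Int.cast : ℤ → ℚ)).col :=
    (LinearIndependent.iff_fractionRing ℤ ℚ).1 (h1.map'
      ((Algebra.linearMap ℤ ℚ).compLeft _) (LinearMap.ker_eq_bot.2 fun x y h =>
        funext fun j => Int.cast_injective (α := ℚ) (congrFun h j)))
  obtain ⟨g, hg⟩ := (toLin' (A.map (Int.cast : ℤ → ℚ))).exists_leftInverse_of_injective
    (LinearMap.ker_eq_bot.2 (mulVec_injective_iff.2 h2))
  have h3 : LinearMap.toMatrix' g * A.map (Int.cast : ℤ → ℚ) = 1 := by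
    rw [← LinearMap.toMatrix'_id, ← hg, LinearMap.toMatrix'_comp, LinearMap.toMatrix'_toLin']
  let gs : P n →ₐ[ℚ] P m := aeval fun x => ∑ i, C (LinearMap.toMatrix' g i x.2) * X (x.1, i)
  have : gs.comp (fs f) = AlgHom.id ℚ _ := by
    ext1 x
    have h4 : ∀ i, ∑ j, (C (f (Pi.single x.2 1) j : ℚ) : P m) * C (LinearMap.toMatrix' g i j) =
        if i = x.2 then 1 else 0 := fun i => by
      have := congrArg (C : ℚ → P m) (congrFun (congrFun h3 i) x.2)
      rw [Matrix.mul_apply, map_sum, one_apply, apply_ite C, map_one, map_zero] at this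
      rw [← this]
      exact Finset.sum_congr rfl fun j _ => by rw [map_mul, mul_comm]; simp [A]
    simp only [fs, gs, AlgHom.comp_apply, aeval_X, map_sum, map_mul, aeval_C, algebraMap_eq,
      Finset.mul_sum, ← mul_assoc, AlgHom.id_apply]
    rw [Finset.sum_comm]
    simp only [← Finset.sum_mul, h4]; simp
  exact Function.LeftInverse.injective (g := gs) fun p => congrArg (fun g => g p) this

noncomputable def fk {f : N m →+ N n} (hf : Function.Injective f) : K m →+* K n :=
  IsFractionRing.map (j := (fs f).toRingHom) (fs_inj hf)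

theorem fk_io {f : N m →+ N n} (hf : Function.Injective f) (p : P m) :
    fk hf (io p) = io (fs f p) := by
  unfold fk IsFractionRing.map
  exact IsLocalization.map_eq _ _

theorem G_fk {f : N m →+ N n} (hf : Function.Injective f) {a b : K m}
    (h : (a, b) ∈ G l (du f φ)) : (fk hf a, fk hf b) ∈ G l φ := by
  obtain ⟨p, q, h, h1, h2⟩ := h
  refine ⟨fs f p, fs f q, ?_, ?_, ?_⟩
  · rw [ev_fs]; exact (map_ne_zero_iff _ (fs_inj hf)).2 h
  · rw [← fk_io hf, ← fk_io hf, ← h1, map_mul]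
  · rw [ev_fs, ev_fs, ← fk_io hf, ← fk_io hf, ← h2, map_mul]

theorem fk_id (h : Function.Injective (AddMonoidHom.id (N n))) : fk h = RingHom.id _ := by
  have : fs (AddMonoidHom.id (N n)) = AlgHom.id ℚ _ := by
    ext1 x; simp [fs, Pi.single_apply]
  exact IsLocalization.ringHom_ext (nonZeroDivisors (P n)) (RingHom.ext fun p => by
    simp [fk_io, this])

theorem fk_comp {k : ℕ} {f : N m →+ N n} {g : N n →+ N k} (hf : Function.Injective f)
    (hg : Function.Injective g) (h : Function.Injective (g.comp f)) :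
    fk h = (fk hg).comp (fk hf) := by
  have : fs (g.comp f) = (fs g).comp (fs f) := by
    ext1 x
    simp only [fs, AlgHom.comp_apply, aeval_X, map_sum, map_mul, aeval_C, algebraMap_eq,
      Finset.mul_sum, ← mul_assoc, AddMonoidHom.comp_apply]
    rw [Finset.sum_comm]
    refine Finset.sum_congr rfl fun j _ => ?_
    rw [hom_eq g]; simp [Finset.sum_mul]
  exact IsLocalization.ringHom_ext (nonZeroDivisors (P m)) (RingHom.ext fun p => by
    simp [fk_io, this])

end Pool.Agent.H75.EX
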