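import Pool.Agent.H75.EX2

/-! The semiperfect ring attached to a simplicial monoid with order unit. -/

set_option autoImplicit false

namespace Pool.Agent.H75.EX

open Matrix

theorem rec_ex {T : ℕ → Type} (Inv : ∀ r, T r → Prop) (Q : ∀ r, (∀ s, s < r → T s) → T r → Prop)
    (h : ∀ r (g : ∀ s, s < r → T s), (∀ s hs, Inv s (g s hs)) → ∃ t, Inv r t ∧ Q r g t) :
    ∃ g : ∀ r, T r, ∀ r, Inv r (g r) ∧ Q r (fun s _ => g s) (g r) := by
  choose F h1 h2 using h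
  let G : ∀ r, {t // Inv r t} := (Nat.lt_wfRel.wf).fix fun r g =>
    ⟨F r (fun s hs => (g s hs).1) fun s hs => (g s hs).2, h1 _ _ _⟩
  refine ⟨fun r => (G r).1, fun r => ⟨(G r).2, ?_⟩⟩
  have : G r = ⟨F r (fun s _ => (G s).1) fun s _ => (G s).2, h1 _ _ _⟩ := WellFounded.fix_eq _ _ _
  beta_reduce
  rw [this]; exact h2 _ _ _

section
variable {F : Type} [CommRing F] {r1 r2 r : ℕ}

def blk (h : r1 + r2 = r) :
    Matrix (Fin r1) (Fin r1) F × Matrix (Fin r2) (Fin r2) F →+* Matrix (Fin r) (Fin r) F :=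
  (reindexRingEquiv F (finSumFinEquiv.trans (finCongr h))).toRingHom.comp
    { toFun := fun z => fromBlocks z.1 0 0 z.2
      map_one' := fromBlocks_one
      map_mul' := fun x y => by simp [fromBlocks_multiply]
      map_zero' := fromBlocks_zero
      map_add' := fun x y => by simp [fromBlocks_add] }

theorem blk_apply (h : r1 + r2 = r) (z) (i j : Fin r) : blk (F := F) h z i j =
    fromBlocks z.1 0 0 z.2 ((finSumFinEquiv.trans (finCongr h)).symm i)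
      ((finSumFinEquiv.trans (finCongr h)).symm j) := rfl

theorem blk_mem (S : Subring F) (h : r1 + r2 = r) {A B} (hA : A ∈ S.matrix) (hB : B ∈ S.matrix) :
    blk h (A, B) ∈ S.matrix := fun i j => by
  rw [blk_apply]
  rcases (finSumFinEquiv.trans (finCongr h)).symm i with i | i <;>
    rcases (finSumFinEquiv.trans (finCongr h)).symm j with j | j
  exacts [hA i j, S.zero_mem, S.zero_mem, hB i j]

theorem blk_map {F' : Type} [CommRing F'] (f : F →+* F') (h : r1 + r2 = r) (A B) :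
    (blk h (A, B)).map f = blk h (A.map f, B.map f) := by
  ext i j
  rw [map_apply, blk_apply, blk_apply]
  rcases (finSumFinEquiv.trans (finCongr h)).symm i with i | i <;>
    rcases (finSumFinEquiv.trans (finCongr h)).symm j with j | j <;> simp

theorem blk_trace (h : r1 + r2 = r) (A B) : (blk (F := F) h (A, B)).trace = A.trace + B.trace := by
  simp only [trace, diag_apply, blk_apply]
  rw [(finSumFinEquiv.trans (finCongr h)).symm.sum_comp fun i => fromBlocks A 0 0 B i i]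
  simp

theorem blk_unit (h : r1 + r2 = r) {A B} (hA : IsUnit A) (hB : IsUnit B) :
    IsUnit (blk (F := F) h (A, B)) := (Prod.isUnit_iff.2 ⟨hA, hB⟩).map _

theorem blk_inv (h : r1 + r2 = r) {A B} (hA : IsUnit A) (hB : IsUnit B) :
    (blk (F := F) h (A, B))⁻¹ = blk h (A⁻¹, B⁻¹) := inv_eq_left_inv (by
  rw [← map_mul, Prod.mk_mul_mk, nonsing_inv_mul _ ((isUnit_iff_isUnit_det _).1 hA),
    nonsing_inv_mul _ ((isUnit_iff_isUnit_det _).1 hB)]
  exact map_one _)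

/-- The standard idempotent. -/
def St (F : Type) [CommRing F] (r m : ℕ) : Matrix (Fin r) (Fin r) F :=
  diagonal fun i => if i.1 < m then 1 else 0

theorem St_idem (r m : ℕ) : St F r m * St F r m = St F r m := by
  rw [St, diagonal_mul_diagonal]; congr; ext i; split_ifs <;> simp

theorem St_trace {r m : ℕ} (h : m ≤ r) : (St F r m).trace = m := by
  simp [St, Fin.card_filter_val_lt, h]

theorem St_map {F' : Type} [CommRing F'] (f : F →+* F') (r m : ℕ) :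
    (St F r m).map f = St F' r m := by
  rw [St, diagonal_map (map_zero f)]; congr; ext i; split_ifs <;> simp

end

variable {n : ℕ}

abbrev Lv (u : N n) (r : ℕ) : Type := {χ : N n // χ ⬝ᵥ u = r}
abbrev Mt (n r : ℕ) : Type := Matrix (Fin r) (Fin r) (K n)
abbrev Amb (u : N n) : Type := ∀ r, Lv u r → Mt n r
abbrev Twist (u : N n) : Type := ∀ r r1 r2, r1 + r2 = r → Lv u r1 → Lv u r2 → Mt n r
noncomputable abbrev MF (n r s : ℕ) : Subring (Mt n s) := (Fx n r).toSubring.matrix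

theorem MF_mono {r r' s : ℕ} (h : r ≤ r') {A : Mt n s} (hA : A ∈ MF n r s) : A ∈ MF n r' s :=
  fun i j l hl => hA i j l (h.trans_lt hl)

theorem MF_inv {r s : ℕ} {A : Mt n s} (hA : A ∈ MF n r s) (h : IsUnit A) : A⁻¹ ∈ MF n r s :=
  fun i j l hl φ => (MG_inv (fun i j => hA i j l hl φ) h).2 i j

theorem G_rat (q : ℚ) (l : ℕ) (φ : N n) : ((q : K n), (q : K n)) ∈ G l φ := by
  have := G_poly (l := l) (φ := φ) (MvPolynomial.C q)
  rwa [← MvPolynomial.algebraMap_eq, AlgHom.commutes, ← IsScalarTower.algebraMap_apply,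
    eq_ratCast] at this

variable {u : N n}

def Tw (c : Twist u) (g : Amb u) : Prop := (∀ r χ, g r χ ∈ MF n r r) ∧
  ∀ r r1 r2 (h : r1 + r2 = r) (χ : Lv u r) (φ : Lv u r1) (ψ : Lv u r2), 0 < r1 → 0 < r2 →
    χ.1 = φ.1 + ψ.1 → (g r χ, blk h (g r1 φ, g r2 ψ) * c r r1 r2 h φ ψ) ∈ MG (Fin r) r φ.1

theorem pos_ex {φ : N n} (h : 0 < φ ⬝ᵥ u) : ∃ j, 0 < φ j := by
  by_contra hh
  have : φ = 0 := funext fun j => Nat.eq_zero_of_not_pos fun h => hh ⟨j, h⟩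
  simp [this] at h

theorem extend (a : Amb u) (ha : ∀ r χ, a r χ ∈ MF n r r) (c : Twist u)
    (hc : ∀ r r1 r2 h φ ψ, c r r1 r2 h φ ψ ∈ MF n 0 r) :
    ∃ g, Tw c g ∧ ∀ r χ, (∃ i, χ.1 = Pi.single i 1) → g r χ = a r χ := by
  classical
  obtain ⟨g, hg⟩ := rec_ex (T := fun r => Lv u r → Mt n r) (fun r t => ∀ χ, t χ ∈ MF n r r)
    (fun r g t => ∀ χ, ((∃ i, χ.1 = Pi.single i 1) → t χ = a r χ) ∧
      ∀ r1 r2 (h : r1 + r2 = r) (φ : Lv u r1) (ψ : Lv u r2) (h1 : 0 < r1) (h2 : 0 < r2),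
        χ.1 = φ.1 + ψ.1 → (t χ, blk h (g r1 (by omega) φ, g r2 (by omega) ψ) * c r r1 r2 h φ ψ) ∈
          MG (Fin r) r φ.1) (fun r g hg => by
    simp only [← forall_and]
    suffices H : ∀ χ : Lv u r, ∃ A ∈ MF n r r, ((∃ i, χ.1 = Pi.single i 1) → A = a r χ) ∧
        ∀ r1 r2 (h : r1 + r2 = r) (φ : Lv u r1) (ψ : Lv u r2) (h1 : 0 < r1) (h2 : 0 < r2),
          χ.1 = φ.1 + ψ.1 → (A, blk h (g r1 (by omega) φ, g r2 (by omega) ψ) * c r r1 r2 h φ ψ) ∈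
            MG (Fin r) r φ.1 by
      choose t ht using H
      exact ⟨t, ht⟩
    intro χ
    by_cases hat : ∃ i, χ.1 = Pi.single i 1
    · refine ⟨a r χ, ha r χ, fun _ => rfl, fun r1 r2 h φ ψ h1 h2 e => ?_⟩
      obtain ⟨i, hi⟩ := hat
      obtain ⟨j, hj⟩ := pos_ex (φ.2 ▸ h1)
      obtain ⟨k, hk⟩ := pos_ex (ψ.2 ▸ h2)
      have e1 := congrFun (hi.symm.trans e) j
      have e2 := congrFun (hi.symm.trans e) k
      simp only [Pi.single_apply, Pi.add_apply] at e1 e2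
      split_ifs at e1 e2 with a b <;> (try subst a b) <;> omega
    have hs : ∀ φ, φ ≤ χ.1 → φ ⬝ᵥ u + (χ.1 - φ) ⬝ᵥ u = r := fun φ h => by
      rw [← add_dotProduct, add_tsub_cancel_of_le h, χ.2]
    obtain ⟨A, h1, h2⟩ := interp r (Finset.Iic χ.1) (fun φ =>
      if h : φ ≤ χ.1 ∧ 0 < φ ⬝ᵥ u ∧ 0 < (χ.1 - φ) ⬝ᵥ u then
        blk (hs φ h.1) (g _ (by have := hs φ h.1; omega) ⟨φ, rfl⟩,
          g _ (by have := hs φ h.1; omega) ⟨χ.1 - φ, rfl⟩) * c r _ _ (hs φ h.1)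
          ⟨φ, rfl⟩ ⟨χ.1 - φ, rfl⟩ else 0) (fun φ i j => ⟨r - 1, by have := i.2; omega, by
      split_ifs with h
      · have := hs φ h.1
        exact (MF n (r - 1) r).mul_mem (blk_mem _ _ (MF_mono (by omega) (hg _ _ _))
          (MF_mono (by omega) (hg _ _ _))) (MF_mono (by omega) (hc _ _ _ _ _ _)) i j
      · exact zero_mem _⟩)
    refine ⟨A, h1, fun h => (hat h).elim, ?_⟩
    rintro _ _ h ⟨φ, rfl⟩ ⟨ψ, rfl⟩ p1 p2 e
    obtain rfl : ψ = χ.1 - φ := by rw [e]; simp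
    have le : φ ≤ χ.1 := e ▸ le_self_add
    have := h2 φ (Finset.mem_Iic.2 le)
    rwa [dif_pos ⟨le, p1, p2⟩] at this)
  exact ⟨g, ⟨fun r => (hg r).1, fun r r1 r2 h χ => ((hg r).2 χ).2 r1 r2 h⟩,
    fun r χ => ((hg r).2 χ).1⟩

theorem Tw.unit (hu : ∀ i, 0 < u i) {c : Twist u} {g : Amb u} (h : Tw c g)
    (hc : ∀ r r1 r2 h φ ψ, IsUnit (c r r1 r2 h φ ψ))
    (ha : ∀ r χ, (∃ i, χ.1 = Pi.single i 1) → IsUnit (g r χ)) (r : ℕ) : ∀ χ, IsUnit (g r χ) := by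
  induction r using Nat.strong_induction_on with
  | _ r ih =>
  intro χ
  rcases r.eq_zero_or_pos with rfl | hr
  · exact isUnit_of_subsingleton _
  obtain ⟨i, hi⟩ := pos_ex (χ.2 ▸ hr)
  have le : Pi.single i 1 ≤ χ.1 := fun j => by
    rw [Pi.single_apply]; split_ifs with h; exacts [h ▸ hi, Nat.zero_le _]
  obtain ⟨ψ, e⟩ := exists_add_of_le le
  by_cases h0 : ψ = 0
  · exact ha r χ ⟨i, by rw [e, h0, add_zero]⟩
  have p1 : 0 < Pi.single i 1 ⬝ᵥ u := by simpa using hu i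
  have p2 : 0 < ψ ⬝ᵥ u := by
    obtain ⟨j, hj⟩ := Function.ne_iff.1 h0
    exact (Nat.mul_pos (Nat.pos_of_ne_zero hj) (hu j)).trans_le
      (Finset.single_le_sum (f := fun j => ψ j * u j) (fun _ _ => Nat.zero_le _) (Finset.mem_univ j))
  have hs : Pi.single i 1 ⬝ᵥ u + ψ ⬝ᵥ u = r := by rw [← add_dotProduct, ← e, χ.2]
  exact (MG_inv (h.2 r _ _ hs χ ⟨_, rfl⟩ ⟨ψ, rfl⟩ p1 p2 e)
    ((blk_unit hs (ih _ (by omega) _) (ih _ (by omega) _)).mul (hc _ _ _ _ _ _))).1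

/-- The ring attached to the order unit `u`. -/
noncomputable def RR (u : N n) : Subring (Amb u) where
  carrier := {g | (∀ r χ, g r χ ∈ MF n r r) ∧
    ∀ r r1 r2 (h : r1 + r2 = r) (χ : Lv u r) (φ : Lv u r1) (ψ : Lv u r2), 0 < r1 → 0 < r2 →
      χ.1 = φ.1 + ψ.1 → (g r χ, blk h (g r1 φ, g r2 ψ)) ∈ MG (Fin r) r φ.1}
  mul_mem' a b := ⟨fun r χ => mul_mem (a.1 r χ) (b.1 r χ), fun r r1 r2 h χ φ ψ p q e => by
    have := mul_mem (a.2 r r1 r2 h χ φ ψ p q e) (b.2 r r1 r2 h χ φ ψ p q e)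
    rwa [Prod.mk_mul_mk, ← map_mul] at this⟩
  one_mem' := ⟨fun r χ => one_mem _, fun r r1 r2 h χ φ ψ p q e => by
    have : blk h ((1 : Amb u) r1 φ, (1 : Amb u) r2 ψ) = 1 := map_one _
    rw [this]; exact one_mem _⟩
  add_mem' a b := ⟨fun r χ => add_mem (a.1 r χ) (b.1 r χ), fun r r1 r2 h χ φ ψ p q e => by
    have := add_mem (a.2 r r1 r2 h χ φ ψ p q e) (b.2 r r1 r2 h χ φ ψ p q e)
    rwa [Prod.mk_add_mk, ← map_add] at this⟩
  zero_mem' := ⟨fun r χ => zero_mem _, fun r r1 r2 h χ φ ψ p q e => by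
    have : blk h ((0 : Amb u) r1 φ, (0 : Amb u) r2 ψ) = 0 := map_zero _
    rw [this]; exact zero_mem _⟩
  neg_mem' a := ⟨fun r χ => neg_mem (a.1 r χ), fun r r1 r2 h χ φ ψ p q e => by
    have := neg_mem (a.2 r r1 r2 h χ φ ψ p q e)
    rwa [Prod.neg_mk, ← map_neg] at this⟩

theorem Tw_one {g : Amb u} : Tw (fun _ _ _ _ _ _ => 1) g ↔ g ∈ RR u := by
  simp only [Tw, mul_one]; rfl

def atm (u : N n) (i : Fin n) : Lv u (u i) := ⟨Pi.single i 1, by simp⟩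

abbrev SS (u : N n) : Type := ∀ i, Matrix (Fin (u i)) (Fin (u i)) (Fx n (u i))

noncomputable def pr (u : N n) : RR u →+* SS u where
  toFun g i := of fun a b => ⟨g.1 _ (atm u i) a b, g.2.1 _ _ a b⟩
  map_one' := by
    ext i a b
    simp only [of_apply, Pi.one_apply, OneMemClass.coe_one, one_apply]; split_ifs <;> rfl
  map_mul' x y := by ext i a b; simp [Matrix.mul_apply]
  map_zero' := rfl
  map_add' _ _ := rfl

theorem pr_map (g : RR u) (i : Fin n) : (pr u g i).map (Fx n (u i)).subtype = g.1 _ (atm u i) := rfl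

theorem atm_ind {T : ∀ r, Lv u r → Prop} (h : ∀ i, T _ (atm u i)) (r : ℕ) (χ : Lv u r) :
    (∃ i, χ.1 = Pi.single i 1) → T r χ := by
  obtain ⟨χ, e⟩ := χ
  rintro ⟨i, rfl⟩
  obtain rfl : u i = r := by simpa using e
  exact h i

theorem ext_atm (s : SS u) (c : Twist u) (hc : ∀ r r1 r2 h φ ψ, c r r1 r2 h φ ψ ∈ MF n 0 r) :
    ∃ g, Tw c g ∧ ∀ i, g _ (atm u i) = (s i).map (Fx n (u i)).subtype := by
  have : ∀ r (χ : Lv u r), ∃ A ∈ MF n r r, ∀ i (h : u i = r), χ.1 = Pi.single i 1 →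
      HEq A ((s i).map (Fx n (u i)).subtype) := fun r χ => by
    by_cases h : ∃ i, χ.1 = Pi.single i 1
    · refine atm_ind (T := fun r χ => ∃ A ∈ MF n r r, ∀ i (h : u i = r), χ.1 = Pi.single i 1 →
        HEq A ((s i).map (Fx n (u i)).subtype)) (fun i => ⟨(s i).map (Fx n (u i)).subtype,
          fun a b => (s i a b).2, fun j _ e => ?_⟩) r χ h
      obtain rfl : i = j := by
        by_contra hh
        simpa [atm, hh] using congrFun e i
      rfl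
    · exact ⟨0, zero_mem _, fun i _ e => (h ⟨i, e⟩).elim⟩
  choose a h1 h2 using this
  obtain ⟨g, hg, h⟩ := extend a h1 c hc
  exact ⟨g, hg, fun i => (h _ _ ⟨i, rfl⟩).trans (eq_of_heq (h2 _ _ i rfl rfl))⟩

theorem pr_surj : Function.Surjective (pr u) := fun s => by
  obtain ⟨g, hg, h⟩ := ext_atm s (fun _ _ _ _ _ _ => 1) fun _ _ _ _ _ _ => one_mem _
  refine ⟨⟨g, Tw_one.1 hg⟩, ?_⟩
  ext i a b
  exact congrFun (congrFun (h i) a) b

theorem pr_unit (hu : ∀ i, 0 < u i) (g : RR u) (h : pr u g = 1) : IsUnit g := by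
  have k := (Tw_one.2 g.2).unit hu (fun _ _ _ _ _ _ => isUnit_one) (atm_ind fun i => by
    rw [← pr_map, h]; exact (isUnit_one.map (Fx n (u i)).subtype.mapMatrix))
  have k' := fun r χ => (isUnit_iff_isUnit_det _).1 (k r χ)
  refine ⟨⟨g, ⟨fun r χ => (g.1 r χ)⁻¹, fun r χ => MF_inv (g.2.1 r χ) (k r χ),
    fun r r1 r2 h χ φ ψ p q e => ?_⟩, Subtype.ext (funext₂ fun r χ => mul_nonsing_inv _ (k' r χ)),
    Subtype.ext (funext₂ fun r χ => nonsing_inv_mul _ (k' r χ))⟩, rfl⟩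
  rw [← blk_inv h (k _ _) (k _ _)]
  exact (MG_inv (g.2.2 r r1 r2 h χ φ ψ p q e) (blk_unit h (k _ _) (k _ _))).2

theorem lift_idem (hu : ∀ i, 0 < u i) {x : N n} (hx : x ≤ u) (s : SS u) (hs : ∀ i, IsUnit (s i)) :
    ∃ E : RR u, E * E = E ∧ ∀ i, pr u E i * s i = s i * St _ (u i) (x i) := by
  have le : ∀ {r} (χ : Lv u r), χ.1 ⬝ᵥ x ≤ r := fun χ =>
    (Finset.sum_le_sum fun i _ => Nat.mul_le_mul_left _ (hx i)).trans_eq χ.2
  have : ∀ r r1 r2 (h : r1 + r2 = r) (φ : Lv u r1) (ψ : Lv u r2), ∃ c : Matrix _ _ ℚ, IsUnit c ∧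
      c * St ℚ r ((φ.1 + ψ.1) ⬝ᵥ x) = blk h (St ℚ r1 (φ.1 ⬝ᵥ x), St ℚ r2 (ψ.1 ⬝ᵥ x)) * c :=
    fun r r1 r2 h φ ψ => idem_conj (by rw [← map_mul, Prod.mk_mul_mk, St_idem, St_idem])
      (St_idem _ _) (by
        have := le φ; have := le ψ
        rw [blk_trace, add_dotProduct, St_trace, St_trace, St_trace, Nat.cast_add] <;> omega)
  choose c c1 c2 using this
  have rat : ∀ r l φ (A : Matrix (Fin r) (Fin r) ℚ),
      (A.map (Rat.castHom (K n)), A.map (Rat.castHom (K n))) ∈ MG (Fin r) l φ :=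
    fun r l φ A i j => G_rat _ _ _
  obtain ⟨g, hg, h⟩ := ext_atm s (fun r r1 r2 h φ ψ => (c r r1 r2 h φ ψ).map (Rat.castHom (K n)))
    fun _ _ _ _ _ _ i j l _ φ => G_rat _ _ _
  have cu := fun r r1 r2 h φ ψ => (c1 r r1 r2 h φ ψ).map (Rat.castHom (K n)).mapMatrix
  have k := hg.unit hu cu (atm_ind fun i => by
    rw [h]; exact (hs i).map (Fx n (u i)).subtype.mapMatrix)
  have k' := fun r χ => (isUnit_iff_isUnit_det _).1 (k r χ)
  refine ⟨⟨fun r χ => g r χ * St _ r (χ.1 ⬝ᵥ x) * (g r χ)⁻¹, fun r χ => mul_mem (mul_mem (hg.1 r χ)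
    fun i j l _ φ => St_map (Rat.castHom (K n)) r _ ▸ rat r l φ _ i j) (MF_inv (hg.1 r χ) (k r χ)),
    fun r r1 r2 h χ φ ψ p q e => ?_⟩, Subtype.ext (funext₂ fun r χ => ?_), fun i => ?_⟩
  · have b := blk_unit h (k _ φ) (k _ ψ)
    have m := hg.2 r r1 r2 h χ φ ψ p q e
    have := mul_mem (mul_mem m (rat r r φ.1 (St ℚ r (χ.1 ⬝ᵥ x))))
      (MG_inv m (b.mul (cu _ _ _ _ _ _))).2
    simp only [Prod.mk_mul_mk] at this
    nth_rewrite 2 [e] at this
    have ci := mul_nonsing_inv _ ((isUnit_iff_isUnit_det _).1 (cu r r1 r2 h φ ψ))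
    rw [RingHom.mapMatrix_apply] at ci
    rwa [mul_assoc (blk _ _), ← Matrix.map_mul, c2, Matrix.map_mul, Matrix.mul_inv_rev,
      mul_assoc (blk _ _), mul_assoc (Matrix.map (blk _ _) _),
      ← mul_assoc (Matrix.map (c _ _ _ _ _ _) _), ci, one_mul, blk_map,
      blk_inv h (k _ _) (k _ _), ← map_mul, ← map_mul, St_map, St_map, St_map, Prod.mk_mul_mk,
      Prod.mk_mul_mk, ← mul_assoc, ← mul_assoc] at this
  · change g r χ * St _ r (χ.1 ⬝ᵥ x) * (g r χ)⁻¹ * (g r χ * St _ r (χ.1 ⬝ᵥ x) * (g r χ)⁻¹) = _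
    simp only [mul_assoc]
    rw [← mul_assoc (g r χ)⁻¹, nonsing_inv_mul _ (k' r χ), one_mul, ← mul_assoc (St _ _ _), St_idem]
  · refine Matrix.map_injective (Fx n (u i)).subtype.injective ?_
    simp only [Matrix.map_mul, pr_map, St_map, ← h]
    rw [mul_assoc, nonsing_inv_mul _ (k' _ _), mul_one]; simp [atm]

end Pool.Agent.H75.EX
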