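import Pool.Agent.H75.EX3

/-! The functor and the classes of idempotent matrices. -/

set_option autoImplicit false

namespace Pool.Agent.H75.EX

open Matrix

variable {m n : ℕ} {u : N n} {k l j : Type} [Fintype k] [Fintype l] [Fintype j]

theorem cm_mul {F I : Type} [CommRing F] [Fintype I] (p : Matrix k l (Matrix I I F))
    (q : Matrix l j (Matrix I I F)) : comp k j I I F (p * q) = comp k l I I F p * comp l j I I F q := by
  ext ⟨a, b⟩ ⟨c, d⟩
  simp [Matrix.mul_apply, Fintype.sum_prod_type, Matrix.sum_apply]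

noncomputable def evR (r : ℕ) (χ : Lv u r) : RR u →+* Mt n r :=
  (Pi.evalRingHom _ χ).comp ((Pi.evalRingHom _ r).comp (RR u).subtype)

noncomputable def tau (p : Matrix k k (RR u)) (r : ℕ) (χ : Lv u r) : K n :=
  (comp k k _ _ _ (p.map (evR r χ))).trace

theorem tau_eq (p : Matrix k k (RR u)) (r : ℕ) (χ : Lv u r) :
    tau p r χ = ∑ a, ((p a a).1 r χ).trace := by
  simp only [tau, trace, Fintype.sum_prod_type]; rfl

theorem tau_comm (x : Matrix k l (RR u)) (y : Matrix l k (RR u)) (r : ℕ) (χ : Lv u r) :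
    tau (x * y) r χ = tau (y * x) r χ := by
  rw [tau, tau, Matrix.map_mul, Matrix.map_mul, cm_mul, cm_mul, trace_mul_comm]

noncomputable def nat (a : K n) : ℕ := Function.invFun Nat.cast a

theorem nat_cast (i : ℕ) : nat (i : K n) = i := Function.leftInverse_invFun Nat.cast_injective i

theorem tau_nat {p : Matrix k k (RR u)} (hp : p * p = p) (r : ℕ) (χ : Lv u r) :
    tau p r χ = nat (tau p r χ) := by
  classical
  rw [tau, tr_eq (by rw [← cm_mul, ← Matrix.map_mul, hp]), nat_cast]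

noncomputable def cl (p : Matrix k k (RR u)) : N n := fun i => nat (tau p _ (atm u i))

theorem tau_congr (p : Matrix k k (RR u)) {r s : ℕ} {χ : Lv u r} {ψ : Lv u s} (h : χ.1 = ψ.1) :
    tau p r χ = tau p s ψ := by
  obtain ⟨χ, rfl⟩ := χ
  obtain ⟨ψ, rfl⟩ := ψ
  subst h; rfl

theorem tau_cl (hu : ∀ i, 0 < u i) {p : Matrix k k (RR u)} (hp : p * p = p) (r : ℕ) (χ : Lv u r) :
    tau p r χ = (χ.1 ⬝ᵥ cl p : ℕ) := by
  have z : ∀ {φ : N n}, φ ⬝ᵥ u = 0 → φ = 0 := fun {φ} h => funext fun i =>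
    (Nat.mul_eq_zero.1 (Finset.sum_eq_zero_iff.1 h i (Finset.mem_univ i))).resolve_right (hu i).ne'
  let ρ : N n → ℕ := fun φ => nat (tau p _ ⟨φ, rfl⟩)
  have h0 : ρ 0 = 0 := by
    have := tau_congr p (χ := ⟨0, rfl⟩) (s := 0) (ψ := ⟨0, by simp⟩) rfl
    simp only [ρ]
    rw [this, tau_eq]; simpa [trace] using nat_cast 0
  have h1 : ∀ φ ψ, ρ (φ + ψ) = ρ φ + ρ ψ := fun φ ψ => by
    rcases (φ ⬝ᵥ u).eq_zero_or_pos with h1 | h1
    · rw [z h1, zero_add, h0, zero_add]
    rcases (ψ ⬝ᵥ u).eq_zero_or_pos with h2 | h2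
    · rw [z h2, add_zero, h0, add_zero]
    refine G_nat (l := (φ + ψ) ⬝ᵥ u) (φ := φ) ?_
    simp only [ρ]
    rw [Nat.cast_add, ← tau_nat hp, ← tau_nat hp, ← tau_nat hp, tau_eq, tau_eq, tau_eq,
      ← Finset.sum_add_distrib, prod_mk_sum]
    refine sum_mem fun a _ => ?_
    rw [← blk_trace (add_dotProduct φ ψ u).symm, trace, trace, prod_mk_sum]
    exact sum_mem fun i _ => (p a a).2.2 _ _ _ _ ⟨φ + ψ, rfl⟩ ⟨φ, rfl⟩ ⟨ψ, rfl⟩ h1 h2 rfl i i
  let R : N n →+ ℕ := ⟨⟨ρ, h0⟩, h1⟩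
  rw [tau_congr p (χ := χ) (ψ := ⟨χ.1, rfl⟩) rfl, tau_nat hp]
  refine congrArg _ ((hom_eq R χ.1).trans (Finset.sum_congr rfl fun i _ => ?_))
  exact congrArg (χ.1 i * nat ·) (tau_congr p rfl)

theorem tau_pr (p : Matrix k k (RR u)) (i : Fin n) : tau p _ (atm u i) =
    (Fx n (u i)).subtype (comp k k _ _ _ ((p.map (pr u)).map fun s => s i)).trace := by
  rw [AddMonoidHom.map_trace]; rfl

def cs (a : Matrix k l (SS u)) (i : Fin n) :
    Matrix (k × Fin (u i)) (l × Fin (u i)) (Fx n (u i)) := comp k l _ _ _ (a.map fun s => s i)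

theorem cs_mul (a : Matrix k l (SS u)) (b : Matrix l j (SS u)) (i : Fin n) :
    cs (a * b) i = cs a i * cs b i := by
  rw [cs, cs, cs, ← cm_mul]
  exact congrArg _ (Matrix.map_mul (f := Pi.evalRingHom _ i))

omit [Fintype k] [Fintype l] in
theorem cs_bij : Function.Bijective (cs (u := u) (k := k) (l := l)) :=
  ⟨fun _ _ h => Matrix.ext fun a b => funext fun i => Matrix.ext fun c d =>
    congrFun (congrFun (congrFun h i) (a, c)) (b, d),
    fun x => ⟨of fun a b i => of fun c d => x i (a, c) (b, d), rfl⟩⟩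

theorem equiv_of_cl [DecidableEq k] [DecidableEq l] (hu : ∀ i, 0 < u i) {p : Matrix k k (RR u)}
    {q : Matrix l l (RR u)} (hp : p * p = p) (hq : q * q = q) (h : cl p = cl q) :
    ∃ (x : Matrix k l (RR u)) (y : Matrix l k (RR u)), x * y = p ∧ y * x = q := by
  have : ∀ i, ∃ (x : Matrix (k × Fin (u i)) (l × Fin (u i)) (Fx n (u i)))
      (y : Matrix (l × Fin (u i)) (k × Fin (u i)) (Fx n (u i))), x * y = cs (p.map (pr u)) i ∧
      y * x = cs (q.map (pr u)) i := fun i => by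
    refine idem_equiv ?_ ?_ ((Fx n (u i)).subtype.injective ?_)
    · rw [← cs_mul, ← Matrix.map_mul, hp]
    · rw [← cs_mul, ← Matrix.map_mul, hq]
    · rw [cs, cs, ← tau_pr, ← tau_pr, tau_nat hp, tau_nat hq]; exact congrArg _ (congrFun h i)
  choose x y h1 h2 using this
  obtain ⟨a, ha⟩ := (cs_bij (u := u) (k := k) (l := l)).2 x
  obtain ⟨b, hb⟩ := (cs_bij (u := u) (k := l) (l := k)).2 y
  have e1 : a * b = p.map (pr u) := cs_bij.1 (funext fun i => by rw [cs_mul, ha, hb, h1])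
  have e2 : b * a = q.map (pr u) := cs_bij.1 (funext fun i => by rw [cs_mul, ha, hb, h2])
  exact lift_equiv (π := pr u) pr_surj (pr_unit hu) hp hq e1 e2

theorem cl_block {p : Matrix k k (RR u)} {q : Matrix l l (RR u)} (hp : p * p = p) (hq : q * q = q)
    (e : k ⊕ l ≃ j) : cl (reindex e e (fromBlocks p 0 0 q)) = cl p + cl q := funext fun i => by
  have : tau (reindex e e (fromBlocks p 0 0 q)) _ (atm u i) = tau p _ (atm u i) + tau q _ (atm u i) := by
    simp only [tau_eq, reindex_apply, submatrix_apply]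
    rw [e.symm.sum_comp fun a => ((fromBlocks p 0 0 q a a).1 _ (atm u i)).trace]
    simp
  rw [cl, this, tau_nat hp, tau_nat hq, ← Nat.cast_add, nat_cast]; rfl

theorem clean_pr (hu : ∀ i, 0 < u i) (s : SS u) : ∃ e : RR u, e * e = e ∧ IsUnit (s - pr u e) := by
  choose e he hs using fun i => clean (s i)
  choose x hx using fun i => (⟨_, tr_eq (he i)⟩ : ∃ x : ℕ, (e i).trace = x)
  have le : x ≤ u := fun i => by
    have := tr_eq (p := 1 - e i) (by simp [sub_mul, mul_sub, he])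
    rw [trace_sub, trace_one, hx, Fintype.card_fin, sub_eq_iff_eq_add, ← Nat.cast_add,
      Nat.cast_inj] at this
    change x i ≤ u i
    omega
  choose c c1 c2 using fun i => idem_conj (he i) (St_idem (u i) (x i)) (by rw [hx, St_trace (le i)])
  obtain ⟨E, h1, h2⟩ := lift_idem hu le c c1
  refine ⟨E, h1, Pi.isUnit_iff.2 fun i => ?_⟩
  rw [Pi.sub_apply, (c1 i).mul_right_cancel ((h2 i).trans (c2 i))]; exact hs i

theorem exists_cl (hu : ∀ i, 0 < u i) (x : N n) :
    ∃ (k : ℕ) (p : Matrix (Fin k) (Fin k) (RR u)), p * p = p ∧ cl p = x := by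
  let T : AddSubmonoid (N n) :=
    { carrier := {x | ∃ (k : ℕ) (p : Matrix (Fin k) (Fin k) (RR u)), p * p = p ∧ cl p = x}
      zero_mem' := ⟨0, 0, by simp, funext fun i => by simpa [cl, tau_eq] using nat_cast 0⟩
      add_mem' := by
        rintro _ _ ⟨k, p, hp, rfl⟩ ⟨l, q, hq, rfl⟩
        exact ⟨k + l, _, by simp [fromBlocks_multiply, hp, hq], cl_block hp hq finSumFinEquiv⟩ }
  have : ∀ i, Pi.single i 1 ∈ T := fun i => by
    have le : Pi.single i 1 ≤ u := fun j => by
      rw [Pi.single_apply]; split_ifs; exacts [hu j, Nat.zero_le _]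
    obtain ⟨E, h1, h2⟩ := lift_idem hu le 1 fun _ => isUnit_one
    refine ⟨1, of fun _ _ => E, by ext1; simp [Matrix.mul_apply, h1], funext fun j => ?_⟩
    have := h2 j
    rw [Pi.one_apply, mul_one, one_mul] at this
    rw [cl, tau_eq, Fin.sum_univ_one, of_apply, ← pr_map, this, St_map, St_trace (le j), nat_cast]
  have h := hom_eq (AddMonoidHom.id (N n)) x
  change x ∈ T
  rw [AddMonoidHom.id_apply] at h
  rw [h]; exact sum_mem fun i _ => nsmul_mem (this i) _

noncomputable def FR {u : N m} {v : N n} {f : N m →+ N n} (hf : Function.Injective f)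
    (h : f u = v) : RR u →+* RR v where
  toFun g := ⟨fun r χ => (g.1 r ⟨du f χ.1, by rw [du_dot, h, χ.2]⟩).map (fk hf),
    fun r χ i j l hl φ => G_fk hf (g.2.1 _ _ i j l hl _), fun r r1 r2 e χ φ ψ p q e' => by
      rw [← blk_map]
      exact fun i j => G_fk hf (g.2.2 r r1 r2 e _ ⟨du f φ.1, _⟩ ⟨du f ψ.1, _⟩ p q
        (funext fun i => by simp [du, e']) i j)⟩
  map_one' := Subtype.ext (funext₂ fun r χ => (fk hf).mapMatrix.map_one)
  map_mul' x y := Subtype.ext (funext₂ fun r χ => (fk hf).mapMatrix.map_mul _ _)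
  map_zero' := Subtype.ext (funext₂ fun r χ => (fk hf).mapMatrix.map_zero)
  map_add' x y := Subtype.ext (funext₂ fun r χ => (fk hf).mapMatrix.map_add _ _)

theorem FR_id (hf) (h) : FR (u := u) (v := u) (f := AddMonoidHom.id _) hf h = RingHom.id _ := by
  refine RingHom.ext fun g => Subtype.ext (funext₂ fun r χ => ?_)
  have : ∀ h, (⟨du (AddMonoidHom.id _) χ.1, h⟩ : Lv u r) = χ := fun h =>
    Subtype.ext (funext fun i => by simp [du])
  simp [FR, fk_id, this]

theorem FR_comp {s : ℕ} {u : N m} {v : N n} {w : N s} {f : N m →+ N n} {g : N n →+ N s} (hf) (hg)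
    (h) (a : f u = v) (b : g v = w) (c) :
    FR (f := g.comp f) h c = (FR hg b).comp (FR hf a) := by
  refine RingHom.ext fun x => Subtype.ext (funext₂ fun r χ => ?_)
  have : du (g.comp f) χ.1 = du f (du g χ.1) := funext fun i => by simp [du, du_dot]
  simp [FR, fk_comp hf hg, this, Matrix.map_map]

theorem cl_FR {u : N m} {v : N n} {f : N m →+ N n} (hu : ∀ i, 0 < u i) (hf : Function.Injective f)
    (h : f u = v) {p : Matrix k k (RR u)} (hp : p * p = p) : cl (p.map (FR hf h)) = f (cl p) := by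
  funext j
  have : tau (p.map (FR hf h)) _ (atm v j) =
      fk hf (tau p _ ⟨du f (atm v j).1, by rw [du_dot, h, (atm v j).2]⟩) := by
    simp only [tau_eq, map_sum, AddMonoidHom.map_trace]; rfl
  rw [cl, this, tau_cl hu hp, map_natCast, nat_cast, du_dot]; simp [atm]

end Pool.Agent.H75.EX
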