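import Mathlib

/-! The ring of Hurwitz series (binomial convolution), with derivation and integration. -/

set_option autoImplicit false

namespace Pool.Agent.H75.Hur

universe u

/-- Hurwitz series. -/
def Hur (F : Type u) : Type u := ℕ → F

variable {F : Type u} [Field F]

instance : AddCommGroup (Hur F) := inferInstanceAs (AddCommGroup (ℕ → F))
instance : Module F (Hur F) := inferInstanceAs (Module F (ℕ → F))

/-- Coefficients. -/
def co (n : ℕ) : Hur F →ₗ[F] F := LinearMap.proj (R := F) (φ := fun _ : ℕ => F) n

theorem ext' {a b : Hur F} (h : ∀ n, co n a = co n b) : a = b := funext h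

/-- The derivation. -/
def D : Hur F →ₗ[F] Hur F where
  toFun a := fun n => a (n + 1)
  map_add' _ _ := rfl
  map_smul' _ _ := rfl

/-- The integration. -/
def I : Hur F →ₗ[F] Hur F where
  toFun a := fun n => Nat.casesOn n 0 a
  map_add' a b := by
    funext n
    cases n with
    | zero => exact (add_zero (0 : F)).symm
    | succ n => rfl
  map_smul' r a := by
    funext n
    cases n with
    | zero => exact (mul_zero r).symm
    | succ n => rfl

theorem D_I (a : Hur F) : D (I a) = a := rfl
theorem co_I (a : Hur F) : co 0 (I a) = 0 := rfl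

/-- Coefficients of the product. -/
def hm : ℕ → Hur F → Hur F → F
  | 0, a, b => co 0 a * co 0 b
  | n + 1, a, b => hm n (D a) b + hm n a (D b)

theorem hm_add (n : ℕ) : ∀ a a' b : Hur F, hm n (a + a') b = hm n a b + hm n a' b := by
  induction n with
  | zero => intro a a' b; simp only [hm, map_add]; ring
  | succ n ih => intro a a' b; simp only [hm, map_add, ih]; ring

theorem hm_smul (n : ℕ) (r : F) : ∀ a b : Hur F, hm n (r • a) b = r * hm n a b := by
  induction n with
  | zero => intro a b; simp only [hm, map_smul, smul_eq_mul]; ring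
  | succ n ih => intro a b; simp only [hm, map_smul, ih]; ring

theorem hm_comm (n : ℕ) : ∀ a b : Hur F, hm n a b = hm n b a := by
  induction n with
  | zero => intro a b; simp only [hm]; ring
  | succ n ih => intro a b; simp only [hm]; rw [ih a, ih (D a)]; ring

instance : Mul (Hur F) := ⟨fun a b n => hm n a b⟩
instance : One (Hur F) := ⟨fun n => Nat.casesOn n 1 fun _ => 0⟩

theorem co_mul (n : ℕ) (a b : Hur F) : co n (a * b) = hm n a b := rfl
theorem D_mul (a b : Hur F) : D (a * b) = D a * b + a * D b := rfl
theorem D_one : D (1 : Hur F) = 0 := rfl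
theorem co_one : co 0 (1 : Hur F) = 1 := rfl

theorem hm_zero (n : ℕ) (b : Hur F) : hm n 0 b = 0 := by
  have := hm_smul n 0 0 b
  rwa [zero_smul, zero_mul] at this

theorem hm_one (n : ℕ) : ∀ b : Hur F, hm n 1 b = co n b := by
  induction n with
  | zero => intro b; simp only [hm, co_one, one_mul]
  | succ n ih => intro b; simp only [hm, D_one, hm_zero, ih, zero_add]; rfl

theorem hm_assoc (n : ℕ) : ∀ a b c : Hur F, hm n (a * b) c = hm n a (b * c) := by
  induction n with
  | zero => intro a b c; simp only [hm, co_mul]; ring
  | succ n ih =>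
    intro a b c
    simp only [hm, D_mul, hm_add, ih]
    rw [hm_comm n a (D b * c + b * D c), hm_add, hm_comm n (D b * c), hm_comm n (b * D c)]
    ring

instance : CommRing (Hur F) where
  mul_comm a b := ext' fun n => hm_comm n a b
  mul_assoc a b c := ext' fun n => hm_assoc n a b c
  one_mul a := ext' fun n => hm_one n a
  mul_one a := ext' fun n => (hm_comm n a 1).trans (hm_one n a)
  zero_mul a := ext' fun n => hm_zero n a
  mul_zero a := ext' fun n => (hm_comm n a 0).trans (hm_zero n a)
  right_distrib a b c := ext' fun n => hm_add n a b c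
  left_distrib a b c := ext' fun n => by
    rw [co_mul, hm_comm, hm_add, map_add, co_mul, co_mul, hm_comm n b, hm_comm n c]

noncomputable instance : Algebra F (Hur F) :=
  Algebra.ofModule (fun r a b => ext' fun n => hm_smul n r a b)
    (fun r a b => ext' fun n => by
      rw [co_mul, hm_comm, hm_smul, map_smul, co_mul, hm_comm, smul_eq_mul])

theorem co_zero_mul (a b : Hur F) : co 0 (a * b) = co 0 a * co 0 b := rfl

theorem eq_of_D {a b : Hur F} (h0 : co 0 a = co 0 b) (h : D a = D b) : a = b := by
  funext n
  cases n with
  | zero => exact h0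
  | succ n => exact congrFun h n

theorem iter_ne (k : ℕ) : (I : Hur F →ₗ[F] Hur F)^[k] 1 ≠ 0 := by
  induction k with
  | zero => intro h; exact one_ne_zero ((co_one (F := F)).symm.trans (by
      rw [show (1 : Hur F) = 0 from h, map_zero]))
  | succ k ih =>
    intro h
    rw [Function.iterate_succ_apply'] at h
    exact ih (by rw [← D_I (I^[k] 1), h, map_zero])

end Pool.Agent.H75.Hur
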