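import Mathlib

/-! Varieties of nonassociative algebras, local nilpotence, and generic Poisson brackets. -/

set_option autoImplicit false

namespace Pool.Agent.H75.Kokoris

universe u

/-- `IsProd s n x`: `x` is a product, in some bracketing, of `n` factors taken from `s`. -/
inductive IsProd {B : Type u} [Mul B] (s : Set B) : ℕ → B → Prop
  | one {x : B} : x ∈ s → IsProd s 1 x
  | mul {i j : ℕ} {x y : B} : IsProd s i x → IsProd s j y → IsProd s (i + j) (x * y)

/-- The algebra `B` satisfies all the identities in `Ids` (a set of nonassociative polynomials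
without constant term in countably many variables), i.e. lies in the variety they define. -/
def InVar {F : Type u} [Field F] (Ids : Set (FreeNonUnitalNonAssocAlgebra F ℕ))
    (B : Type u) [NonUnitalNonAssocRing B] [Module F B] [IsScalarTower F B B]
    [SMulCommClass F B B] : Prop :=
  ∀ f ∈ Ids, ∀ x : ℕ → B, FreeNonUnitalNonAssocAlgebra.lift F x f = 0

/-- Every finitely generated subalgebra of `B` is nilpotent. -/
def LocNil (F : Type u) [Field F] (B : Type u) [NonUnitalNonAssocRing B] [Module F B]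
    [IsScalarTower F B B] [SMulCommClass F B B] : Prop :=
  ∀ s : Finset B, ∃ n : ℕ, 1 ≤ n ∧
    ∀ x : B, IsProd (NonUnitalAlgebra.adjoin F (s : Set B) : Set B) n x → x = 0

/-- Every anticommutative algebra of the variety defined by `Ids` is locally nilpotent. -/
def LocAdm {F : Type u} [Field F] (Ids : Set (FreeNonUnitalNonAssocAlgebra F ℕ)) : Prop :=
  ∀ (B : Type u) [NonUnitalNonAssocRing B] [Module F B] [IsScalarTower F B B]
    [SMulCommClass F B B], InVar Ids B → (∀ x y : B, x * y = -(y * x)) → LocNil F B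

/-- The Kokoris identity `J(a,b,c) = 4 (a,b,c) - [[a,c],b]`. -/
def IsKokoris (A : Type u) [NonUnitalNonAssocRing A] : Prop :=
  ∀ a b c : A,
    ((a * b - b * a) * c - c * (a * b - b * a)) + ((b * c - c * b) * a - a * (b * c - c * b)) +
        ((c * a - a * c) * b - b * (c * a - a * c)) =
      4 • (a * b * c - a * (b * c)) - ((a * c - c * a) * b - b * (a * c - c * a))

/-- `A ^ 2 ≠ 0` and `A` has no ideals other than `0` and `A`. -/
def IsSimpleAlg (F : Type u) [Field F] (A : Type u) [NonUnitalNonAssocRing A] [Module F A] : Prop :=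
  (∃ a b : A, a * b ≠ 0) ∧
    ∀ I : Submodule F A, (∀ a ∈ I, ∀ b : A, a * b ∈ I ∧ b * a ∈ I) → I = ⊥ ∨ I = ⊤

section Prod
variable {B : Type u} [Mul B]

theorem IsProd.pos {s : Set B} {n : ℕ} {x : B} (h : IsProd s n x) : 1 ≤ n := by
  induction h with
  | one _ => exact le_rfl
  | mul _ _ h1 h2 => omega

theorem IsProd.mono {s t : Set B} (hst : s ⊆ t) {n : ℕ} {x : B} (h : IsProd s n x) :
    IsProd t n x := by
  induction h with
  | one h => exact .one (hst h)
  | mul _ _ h1 h2 => exact .mul h1 h2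

theorem IsProd.mem {s : Set B} (hs : ∀ x ∈ s, ∀ y ∈ s, x * y ∈ s) {n : ℕ} {x : B}
    (h : IsProd s n x) : x ∈ s := by
  induction h with
  | one h => exact h
  | mul _ _ h1 h2 => exact hs _ h1 _ h2

theorem IsProd.contract {s : Set B} (hs : ∀ x ∈ s, ∀ y ∈ s, x * y ∈ s) {k : ℕ} {x : B}
    (h : IsProd s k x) : ∀ n, 1 ≤ n → n ≤ k → IsProd s n x := by
  induction h with
  | one h =>
    intro n h1 h2
    obtain rfl : n = 1 := by omega
    exact .one h
  | @mul i j x y hx hy h1 h2 =>
    intro n hn1 hn2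
    by_cases hn : n = 1
    · subst hn
      exact .one (hs _ (hx.mem hs) _ (hy.mem hs))
    · have hi := hx.pos
      have hj := hy.pos
      obtain ⟨a, b, rfl, ha1, ha2, hb1, hb2⟩ :
          ∃ a b, n = a + b ∧ 1 ≤ a ∧ a ≤ i ∧ 1 ≤ b ∧ b ≤ j :=
        ⟨min i (n - 1), n - min i (n - 1), by omega, by omega, by omega, by omega, by omega⟩
      exact .mul (h1 a ha1 ha2) (h2 b hb1 hb2)

end Prod

section Var
variable {F : Type u} [Field F] {Ids : Set (FreeNonUnitalNonAssocAlgebra F ℕ)}
variable {B : Type u} [NonUnitalNonAssocRing B] [Module F B] [IsScalarTower F B B]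
  [SMulCommClass F B B]
variable {C : Type u} [NonUnitalNonAssocRing C] [Module F C] [IsScalarTower F C C]
  [SMulCommClass F C C]

theorem LocNil.words (h : LocNil F B) (s : Finset B) :
    ∃ n : ℕ, ∀ k x, n ≤ k → IsProd (s : Set B) k x → x = 0 := by
  obtain ⟨n, hn, h⟩ := h s
  refine ⟨n, fun k x hk hx => h x ?_⟩
  refine IsProd.contract (fun x hx y hy => mul_mem hx hy)
    (hx.mono (NonUnitalAlgebra.subset_adjoin F)) n hn hk

theorem lift_hom (φ : B →ₙₐ[F] C) (x : ℕ → B) (f : FreeNonUnitalNonAssocAlgebra F ℕ) :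
    φ (FreeNonUnitalNonAssocAlgebra.lift F x f) =
      FreeNonUnitalNonAssocAlgebra.lift F (φ ∘ x) f := by
  have : φ.comp (FreeNonUnitalNonAssocAlgebra.lift F x) =
      FreeNonUnitalNonAssocAlgebra.lift F (φ ∘ x) := by
    refine FreeNonUnitalNonAssocAlgebra.hom_ext F fun i => ?_
    simp
  exact DFunLike.congr_fun this f

theorem InVar.of_inj (h : InVar Ids C) (φ : B →ₙₐ[F] C) (hφ : Function.Injective φ) :
    InVar Ids B := by
  intro f hf x
  apply hφ
  rw [lift_hom, h f hf, map_zero]

theorem InVar.of_surj (h : InVar Ids B) (φ : B →ₙₐ[F] C) (hφ : Function.Surjective φ) :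
    InVar Ids C := by
  intro f hf x
  choose y hy using fun i => hφ (x i)
  have : x = φ ∘ y := funext fun i => (hy i).symm
  rw [this, ← lift_hom, h f hf, map_zero]

theorem InVar.pi (h : InVar Ids B) (I : Type u) : InVar Ids (I → B) := by
  intro f hf x
  funext i
  let φ : (I → B) →ₙₐ[F] B :=
    { toFun := fun g => g i
      map_smul' := fun _ _ => rfl
      map_zero' := rfl
      map_add' := fun _ _ => rfl
      map_mul' := fun _ _ => rfl }
  have := lift_hom φ x f
  rw [h f hf] at this
  exact this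

theorem InVar.sub (h : InVar Ids B) (S : NonUnitalSubalgebra F B) : InVar Ids S :=
  h.of_inj (NonUnitalSubalgebraClass.subtype S) Subtype.val_injective

/-- A simple algebra is not locally nilpotent. -/
theorem not_words (hs : IsSimpleAlg F B)
    (h : ∀ s : Finset B, ∃ n : ℕ, ∀ k x, n ≤ k → IsProd (s : Set B) k x → x = 0) : False := by
  classical
  obtain ⟨⟨a, b, hab⟩, hs⟩ := hs
  let W : Finset B → ℕ → Submodule F B := fun s k =>
    Submodule.span F {x | ∃ l, k ≤ l ∧ IsProd (s : Set B) l x}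
  have hR : ∀ (s : Finset B) k (c : B), c ∈ s → ∀ x ∈ W s k,
      x * c ∈ W s (k + 1) ∧ c * x ∈ W s (k + 1) := by
    intro s k c hc x hx
    induction hx using Submodule.span_induction with
    | mem x hx =>
      obtain ⟨l, hl, hx⟩ := hx
      exact ⟨Submodule.subset_span ⟨l + 1, by omega, hx.mul (.one hc)⟩,
        Submodule.subset_span ⟨1 + l, by omega, (IsProd.one hc).mul hx⟩⟩
    | zero => simp
    | add x y _ _ hx hy =>
      rw [add_mul, mul_add]
      exact ⟨add_mem hx.1 hy.1, add_mem hx.2 hy.2⟩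
    | smul r x _ hx =>
      rw [smul_mul_assoc, mul_smul_comm]
      exact ⟨Submodule.smul_mem _ _ hx.1, Submodule.smul_mem _ _ hx.2⟩
  have hanti : ∀ (s : Finset B) k, W s (k + 1) ≤ W s k := fun s k =>
    Submodule.span_mono fun x ⟨l, hl, hx⟩ => ⟨l, by omega, hx⟩
  let I : Submodule F B :=
    { carrier := {c | ∃ s : Finset B, ∀ s' : Finset B, s ⊆ s' → ∀ k, a ∈ W s' k → c ∈ W s' (k + 1)}
      zero_mem' := ⟨∅, fun _ _ _ _ => zero_mem _⟩
      add_mem' := by
        rintro x y ⟨s, hs⟩ ⟨t, ht⟩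
        exact ⟨s ∪ t, fun s' h k hk => add_mem
          (hs s' (Finset.subset_union_left.trans h) k hk)
          (ht s' (Finset.subset_union_right.trans h) k hk)⟩
      smul_mem' := by
        rintro r x ⟨s, hs⟩
        exact ⟨s, fun s' h k hk => Submodule.smul_mem _ _ (hs s' h k hk)⟩ }
  have hI : ∀ x ∈ I, ∀ c : B, x * c ∈ I ∧ c * x ∈ I := by
    rintro x ⟨s, hs⟩ c
    refine ⟨⟨insert c s, fun s' h k hk => ?_⟩, ⟨insert c s, fun s' h k hk => ?_⟩⟩
    · exact hanti _ _ (hR s' _ c (h (Finset.mem_insert_self _ _)) x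
        (hs s' ((Finset.subset_insert _ _).trans h) k hk)).1
    · exact hanti _ _ (hR s' _ c (h (Finset.mem_insert_self _ _)) x
        (hs s' ((Finset.subset_insert _ _).trans h) k hk)).2
  have habI : a * b ∈ I :=
    ⟨{b}, fun s' h k hk => (hR s' k b (h (Finset.mem_singleton_self _)) a hk).1⟩
  rcases hs I hI with h0 | h1
  · rw [h0] at habI
    exact hab habI
  · obtain ⟨s, hs⟩ : a ∈ I := h1 ▸ Submodule.mem_top
    have hall : ∀ k, a ∈ W (insert a s) (k + 1) := by
      intro k
      induction k with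
      | zero => exact Submodule.subset_span ⟨1, le_rfl, .one (by simp)⟩
      | succ k ih => exact hs _ (Finset.subset_insert _ _) _ ih
    obtain ⟨n, hn⟩ := h (insert a s)
    have hW : W (insert a s) (n + 1) ≤ ⊥ :=
      Submodule.span_le.2 fun x ⟨l, hl, hx⟩ => hn l x (by omega) hx
    have : a = 0 := hW (hall n)
    exact hab (by rw [this, zero_mul])

/-- Quotient of an algebra by an ideal. -/
def Quo (T : Submodule F B) (_ : ∀ x ∈ T, ∀ y : B, x * y ∈ T ∧ y * x ∈ T) : Type u := B ⧸ T

variable (T : Submodule F B) (hT : ∀ x ∈ T, ∀ y : B, x * y ∈ T ∧ y * x ∈ T)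

instance : AddCommGroup (Quo T hT) := inferInstanceAs (AddCommGroup (B ⧸ T))
instance : Module F (Quo T hT) := inferInstanceAs (Module F (B ⧸ T))

/-- The quotient map. -/
def Quo.mk : B →ₗ[F] Quo T hT := T.mkQ

theorem Quo.mk_surj : Function.Surjective (Quo.mk T hT) := T.mkQ_surjective

theorem Quo.mk_eq_zero (x : B) : Quo.mk T hT x = 0 ↔ x ∈ T := Submodule.Quotient.mk_eq_zero T

/-- The multiplication of the quotient. -/
noncomputable def Quo.mulL : Quo T hT →ₗ[F] Quo T hT →ₗ[F] Quo T hT :=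
  T.liftQ (LinearMap.flip (T.liftQ ((LinearMap.mul F B).flip.compr₂ T.mkQ)
    (fun x hx => by
      ext y
      exact (Submodule.Quotient.mk_eq_zero T).2 (hT x hx y).2)))
    (fun x hx => by
      refine LinearMap.ext fun y => ?_
      obtain ⟨y, rfl⟩ := T.mkQ_surjective y
      exact (Submodule.Quotient.mk_eq_zero T).2 (hT x hx y).1)

noncomputable instance : Mul (Quo T hT) := ⟨fun x y => Quo.mulL T hT x y⟩

theorem Quo.mk_mul (x y : B) : Quo.mk T hT (x * y) = Quo.mk T hT x * Quo.mk T hT y := rfl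

noncomputable instance : NonUnitalNonAssocRing (Quo T hT) where
  left_distrib x y z := map_add (Quo.mulL T hT x) y z
  right_distrib x y z := by
    change Quo.mulL T hT (x + y) z = Quo.mulL T hT x z + Quo.mulL T hT y z
    rw [map_add]; rfl
  zero_mul x := by
    change Quo.mulL T hT 0 x = 0
    rw [map_zero]; rfl
  mul_zero x := map_zero (Quo.mulL T hT x)

instance : IsScalarTower F (Quo T hT) (Quo T hT) := ⟨fun r x y => by
  change Quo.mulL T hT (r • x) y = r • Quo.mulL T hT x y
  rw [map_smul]; rfl⟩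

instance : SMulCommClass F (Quo T hT) (Quo T hT) := ⟨fun r x y =>
  (map_smul (Quo.mulL T hT x) r y).symm⟩

/-- The quotient map as an algebra homomorphism. -/
def Quo.hom : B →ₙₐ[F] Quo T hT where
  toFun := Quo.mk T hT
  map_smul' := map_smul _
  map_zero' := map_zero _
  map_add' := map_add _
  map_mul' := Quo.mk_mul T hT

/-- Local admissibility, used on an ideal containing all `x * y + y * x`. -/
theorem LocAdm.iter (hV : LocAdm Ids) (hB : InVar Ids B) (T : Submodule F B)
    (hT : ∀ x ∈ T, ∀ y : B, x * y ∈ T ∧ y * x ∈ T) (hc : ∀ x y : B, x * y + y * x ∈ T)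
    (X Y : B) : ∃ k, (fun z => z * Y)^[k] X ∈ T := by
  classical
  have h1 : LocNil F (Quo T hT) := by
    refine hV _ (hB.of_surj (Quo.hom T hT) (Quo.mk_surj T hT)) fun x y => ?_
    obtain ⟨x, rfl⟩ := Quo.mk_surj T hT x
    obtain ⟨y, rfl⟩ := Quo.mk_surj T hT y
    rw [eq_neg_iff_add_eq_zero, ← Quo.mk_mul, ← Quo.mk_mul, ← map_add, Quo.mk_eq_zero]
    exact hc x y
  obtain ⟨n, hn⟩ := h1.words {Quo.mk T hT X, Quo.mk T hT Y}
  have h2 : ∀ k, IsProd (({Quo.mk T hT X, Quo.mk T hT Y} : Finset (Quo T hT)) : Set (Quo T hT))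
      (k + 1) (Quo.mk T hT ((fun z => z * Y)^[k] X)) := by
    intro k
    induction k with
    | zero => exact .one (by simp)
    | succ k ih =>
      rw [Function.iterate_succ_apply', Quo.mk_mul]
      exact ih.mul (.one (by simp))
  exact ⟨n, (Quo.mk_eq_zero T hT _).1 (hn _ _ (Nat.le_succ n) (h2 n))⟩

end Var

end Pool.Agent.H75.Kokoris
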