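import Mathlib
import Pool.Agent.H75.Hurwitz
import Pool.Agent.H75.Kokoris1

/-! A two-generated anticommutative 3-Engel algebra in characteristic three that is not
nilpotent. -/

set_option autoImplicit false

namespace Pool.Agent.H75.Engel3

open Pool.Agent.H75.Hur Pool.Agent.H75.Kokoris

universe u

/-- The underlying space. -/
def Alg (F : Type u) : Type u := Hur F × Hur F × Hur F

variable {F : Type u} [Field F]

instance : AddCommGroup (Alg F) := inferInstanceAs (AddCommGroup (Hur F × Hur F × Hur F))
instance : Module F (Alg F) := inferInstanceAs (Module F (Hur F × Hur F × Hur F))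

instance : Mul (Alg F) := ⟨fun x y =>
  (I y.2.2 * x.1 - I x.2.2 * y.1, I y.2.2 * x.2.1 - I x.2.2 * y.2.1,
    x.2.1 * y.1 - x.1 * y.2.1 + x.2.2 * I y.2.2 - I x.2.2 * y.2.2)⟩

theorem mul_def (u v w a b c : Hur F) : (show Alg F from (u, v, w)) * (show Alg F from (a, b, c)) =
    (show Alg F from (I c * u - I w * a, I c * v - I w * b, v * a - u * b + w * I c - I w * c)) :=
  rfl

theorem add_def (u v w a b c : Hur F) : (show Alg F from (u, v, w)) + (show Alg F from (a, b, c)) =
    (show Alg F from (u + a, v + b, w + c)) := rfl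

theorem smul_def (r : F) (u v w : Hur F) : r • (show Alg F from (u, v, w)) =
    (show Alg F from (r • u, r • v, r • w)) := rfl

theorem zero_def : (0 : Alg F) = (show Alg F from (0, 0, 0)) := rfl

theorem mk_eq {u v w a b c : Hur F} (h1 : u = a) (h2 : v = b) (h3 : w = c) :
    (show Alg F from (u, v, w)) = (show Alg F from (a, b, c)) := by rw [h1, h2, h3]

instance : NonUnitalNonAssocRing (Alg F) where
  left_distrib := by
    rintro ⟨u, v, w⟩ ⟨a, b, c⟩ ⟨a', b', c'⟩
    simp only [mul_def, add_def, map_add]
    exact mk_eq (by ring) (by ring) (by ring)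
  right_distrib := by
    rintro ⟨u, v, w⟩ ⟨a, b, c⟩ ⟨a', b', c'⟩
    simp only [mul_def, add_def, map_add]
    exact mk_eq (by ring) (by ring) (by ring)
  zero_mul := by
    rintro ⟨u, v, w⟩
    simp only [zero_def, mul_def, map_zero]
    exact mk_eq (by ring) (by ring) (by ring)
  mul_zero := by
    rintro ⟨u, v, w⟩
    simp only [zero_def, mul_def, map_zero]
    exact mk_eq (by ring) (by ring) (by ring)

instance : IsScalarTower F (Alg F) (Alg F) := ⟨by
  rintro r ⟨u, v, w⟩ ⟨a, b, c⟩
  simp only [smul_eq_mul, mul_def, smul_def, map_smul]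
  simp only [Algebra.smul_def]
  exact mk_eq (by ring) (by ring) (by ring)⟩

instance : SMulCommClass F (Alg F) (Alg F) := ⟨by
  rintro r ⟨u, v, w⟩ ⟨a, b, c⟩
  simp only [smul_eq_mul, mul_def, smul_def, map_smul]
  simp only [Algebra.smul_def]
  exact mk_eq (by ring) (by ring) (by ring)⟩

theorem mul_self (x : Alg F) : x * x = 0 := by
  obtain ⟨u, v, w⟩ := x
  rw [mul_def, zero_def]
  exact mk_eq (by ring) (by ring) (by ring)

theorem engel [CharP F 3] (x y : Alg F) : x * y * y * y = 0 := by
  obtain ⟨u, v, w⟩ := x
  obtain ⟨a, b, c⟩ := y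
  have h3 : (3 : Hur F) = 0 := by
    rw [← map_ofNat (algebraMap F (Hur F)) 3]
    have : (3 : F) = 0 := CharP.cast_eq_zero F 3
    rw [this, map_zero]
  have hC : I c * I c * I c = 0 := eq_of_D (by simp [co_zero_mul, co_I]) (by
    simp only [D_mul, D_I, map_zero]
    linear_combination (c * I c * I c) * h3)
  rw [mul_def, mul_def]
  set w1 := v * a - u * b + w * I c - I w * c with hw1
  have hW : I ((I c * v - I w * b) * a - (I c * u - I w * a) * b + w1 * I c - I w1 * c) =
      -(I c * I w1) - I w * I c * I c := eq_of_D (by simp [co_zero_mul, co_I]) (by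
    simp only [D_mul, D_I, map_sub, map_neg]
    linear_combination (I c * w1 + I w * I c * c) * h3 - I c * hw1)
  rw [mul_def, hW, zero_def]
  refine mk_eq ?_ ?_ ?_
  · linear_combination u * hC
  · linear_combination v * hC
  · linear_combination (I c * I c * w1 + I w * I c * I c * c) * h3 - 2 * w * hC -
      2 * I c * I c * hw1

theorem not_locNil : ¬ LocNil F (Alg F) := by
  classical
  intro h
  let e : Alg F := (1, 0, 0)
  let f : Alg F := (0, 1, 0)
  obtain ⟨n, hn⟩ := h.words {e, f}
  have key : ∀ k, IsProd (({e, f} : Finset (Alg F)) : Set (Alg F)) (2 * k + 1)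
      (show Alg F from (I^[k] 1, 0, 0)) := by
    intro k
    induction k with
    | zero => exact .one (by simp [e])
    | succ k ih =>
      have := (ih.mul (.one (x := f) (by simp))).mul (.one (x := e) (by simp))
      have e1 : (show Alg F from (I^[k] 1, 0, 0)) * f * e =
          (show Alg F from (I^[k + 1] 1, 0, 0)) := by
        rw [mul_def, mul_def, Function.iterate_succ_apply']
        exact mk_eq (by simp) (by simp) (by simp)
      rw [e1] at this
      exact this
  exact iter_ne n (congrArg Prod.fst (hn _ _ (by omega) (key n)))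

end Pool.Agent.H75.Engel3
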