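import Pool.Agent.H75.IL1

set_option linter.unusedSectionVars false
set_option linter.deprecated false

namespace Pool.Agent.H75.FR
open Filter Topology Finset Pool.Agent.H86.Wu Pool.Agent.H75.IL
open scoped InnerProductSpace

variable {H : Type} [NormedAddCommGroup H] [InnerProductSpace ℂ H] [CompleteSpace H]
variable {C : StarSubalgebra ℂ (H →L[ℂ] H)}

def Orth (C : StarSubalgebra ℂ (H →L[ℂ] H)) (z : ℕ → H →L[ℂ] H) : Prop :=
  (∀ n, z n ∈ C ∧ IsSelfAdjoint (z n) ∧ ‖z n‖ = 1) ∧ ∀ n m, n ≠ m → z n * z m = 0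

theorem cmem (hC : IsClosed (C : Set (H →L[ℂ] H))) (f : ℝ → ℝ) {x : H →L[ℂ] H} (hx : x ∈ C) :
    cfc f x ∈ C := cfc_mem (𝕜' := ℂ) (hs := hC) f hx

theorem case1 (hC : IsClosed (C : Set (H →L[ℂ] H))) {x : H →L[ℂ] H} (hx : x ∈ C)
    (hs : IsSelfAdjoint x) (hi : (spectrum ℝ x).Infinite) : ∃ z, Orth C z := by
  haveI : Infinite (spectrum ℝ x) := hi.to_subtype
  obtain ⟨U, h1, h2, h3⟩ := exists_seq_infinite_isOpen_pairwise_disjoint (spectrum ℝ x)
  choose t ht using fun n => (h1 n).nonempty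
  choose f f0 f1 f2 using fun n => exists_continuous_zero_one_of_isClosed (h2 n).isClosed_compl
    (isClosed_singleton (x := t n)) (Set.disjoint_singleton_right.2 fun h => h (ht n))
  refine ⟨fun n => cfcHom hs (f n), fun n => ⟨?_, cfcHom_predicate hs _, ?_⟩, fun n m h => ?_⟩
  · beta_reduce
    rw [cfcHom_eq_cfc_extend 0 hs (f n)]
    exact cmem hC _ hx
  · rw [norm_cfcHom x (f n) hs]
    refine le_antisymm ((ContinuousMap.norm_le _ zero_le_one).2 fun s => ?_) ?_
    · rw [Real.norm_of_nonneg (f2 n s).1]; exact (f2 n s).2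
    · have := (f n).norm_coe_le_norm (t n)
      rwa [f1 n rfl, Pi.one_apply, norm_one] at this
  · have e : f n * f m = 0 := by
      ext s
      by_cases hn : s ∈ U n
      · simp [f0 m (Set.disjoint_left.1 (h3 h) hn)]
      · simp [f0 n hn]
    beta_reduce
    rw [← map_mul, e, map_zero]

/-- the corner `p C q` -/
def cor (C : StarSubalgebra ℂ (H →L[ℂ] H)) (p q : H →L[ℂ] H) : Submodule ℂ (H →L[ℂ] H) where
  carrier := {x | x ∈ C ∧ p * x = x ∧ x * q = x}
  add_mem' hx hy := ⟨add_mem hx.1 hy.1, by rw [mul_add, hx.2.1, hy.2.1],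
    by rw [add_mul, hx.2.2, hy.2.2]⟩
  zero_mem' := ⟨zero_mem _, mul_zero _, zero_mul _⟩
  smul_mem' c _ hx := ⟨C.smul_mem hx.1 c, by rw [mul_smul_comm, hx.2.1],
    by rw [smul_mul_assoc, hx.2.2]⟩

theorem cor_star {p q x : H →L[ℂ] H} (hp : IsStarProjection p) (hq : IsStarProjection q)
    (hx : x ∈ cor C p q) : star x ∈ cor C q p :=
  ⟨star_mem hx.1, by rw [← hq.isSelfAdjoint.star_eq, ← star_mul, hx.2.2],
    by rw [← hp.isSelfAdjoint.star_eq, ← star_mul, hx.2.1]⟩

theorem split (hC : IsClosed (C : Set (H →L[ℂ] H)))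
    (hf : ∀ x ∈ C, IsSelfAdjoint x → (spectrum ℝ x).Finite) {p : H →L[ℂ] H} (hpC : p ∈ C)
    (hp : IsStarProjection p) (hi : ¬ FiniteDimensional ℂ (cor C p p)) :
    ∃ q ∈ C, IsStarProjection q ∧ p * q = q ∧ q ≠ 0 ∧ q ≠ p := by
  classical
  by_contra hc
  push Not at hc
  have h1 : ∀ y ∈ cor C p p, IsSelfAdjoint y → y ∈ Submodule.span ℂ {p} := fun y hy hs => by
    have hfin := hf y hy.1 hs
    let e : ℝ → H →L[ℂ] H := fun t => cfc (fun s => if s = t then (1 : ℝ) else 0) y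
    have hcom : ∀ t, Commute (e t) p := fun t =>
      Commute.cfc_real (show Commute y p from hy.2.2.trans hy.2.1.symm) _
    have he : ∀ t, IsStarProjection (e t) := fun t => ⟨by
      change e t * e t = e t
      rw [← cfc_mul _ _ y (hfin.continuousOn _) (hfin.continuousOn _)]
      exact cfc_congr fun s _ => by by_cases h : s = t <;> simp [h], cfc_predicate _ _⟩
    have hsum : y = ∑ t ∈ hfin.toFinset, t • e t := by
      have : ∀ t, t • e t = cfc (fun s => t * if s = t then (1 : ℝ) else 0) y := fun t =>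
        (cfc_const_mul t _ y (hfin.continuousOn _)).symm
      simp only [this]
      rw [← cfc_sum _ y _ fun _ _ => hfin.continuousOn _]
      nth_rewrite 1 [← cfc_id' ℝ y]
      refine cfc_congr fun s hs => ?_
      simp [Finset.sum_apply, hs]
    rw [← hy.2.2, hsum, sum_mul]
    refine Submodule.sum_mem _ fun t _ => ?_
    rw [smul_mul_assoc]
    refine Submodule.smul_of_tower_mem _ t ?_
    by_cases h0 : e t * p = 0
    · rw [h0]; exact zero_mem _
    · rw [hc _ (mul_mem (cmem hC _ hy.1) hpC) ((he t).mul hp (hcom t))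
        (by rw [(hcom t).eq, ← mul_assoc, hp.isIdempotentElem.eq]) h0]
      exact Submodule.mem_span_singleton_self p
  refine hi (Submodule.finiteDimensional_of_le (S₂ := Submodule.span ℂ {p}) fun y hy => ?_)
  have hs := cor_star hp hp hy
  have a1 := h1 (y + star y) (add_mem hy hs) (by simp [IsSelfAdjoint, add_comm])
  have a2 := h1 (Complex.I • (y - star y)) (Submodule.smul_mem _ _ (sub_mem hy hs))
    (by simp [IsSelfAdjoint, ← smul_neg])
  have : y = (1 / 2 : ℂ) • ((y + star y) - Complex.I • Complex.I • (y - star y)) := by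
    rw [smul_smul, Complex.I_mul_I]
    module
  rw [this]
  exact Submodule.smul_mem _ _ (sub_mem a1 (Submodule.smul_mem _ _ a2))

theorem off {q r : H →L[ℂ] H} (hq : IsStarProjection q) (hr : IsStarProjection r)
    [FiniteDimensional ℂ (cor C q q)] [FiniteDimensional ℂ (cor C r r)] :
    FiniteDimensional ℂ (cor C q r) := by
  set T : Set (H →L[ℂ] H) := {y | ∃ b ∈ cor C q r, ∃ b' ∈ cor C q r, y = star b * b'} with hT
  have hle : Submodule.span ℂ T ≤ cor C r r := Submodule.span_le.2 (by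
    rintro _ ⟨b, hb, b', hb', rfl⟩
    have := cor_star hq hr hb
    exact ⟨mul_mem this.1 hb'.1, by rw [← mul_assoc, this.2.1], by rw [mul_assoc, hb'.2.2]⟩)
  haveI := Submodule.finiteDimensional_of_le hle
  obtain ⟨s, hsT, hs⟩ := (Submodule.fg_span_iff_fg_span_finset_subset T).1
    (Module.Finite.iff_fg.1 (inferInstance : Module.Finite ℂ (Submodule.span ℂ T)))
  choose b hb b' hb' hbb using fun y : s => hsT y.2
  let φ : cor C q r →ₗ[ℂ] (s → cor C q q) := LinearMap.pi fun y =>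
    ((LinearMap.mulRight ℂ (star (b y))).comp (cor C q r).subtype).codRestrict _ fun a => by
      have := cor_star hq hr (hb y)
      exact ⟨mul_mem a.2.1 this.1, by
        change q * (a * star (b y)) = a * star (b y)
        rw [← mul_assoc, a.2.2.1], by
        change a * star (b y) * q = a * star (b y)
        rw [mul_assoc, this.2.2]⟩
  refine FiniteDimensional.of_injective φ ((injective_iff_map_eq_zero φ).2 fun a ha => ?_)
  have h1 : ∀ y : s, (a : H →L[ℂ] H) * star (b y) = 0 := fun y =>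
    congrArg Subtype.val (congrFun ha y)
  have h2 : Submodule.span ℂ T ≤ LinearMap.ker (LinearMap.mulLeft ℂ (a : H →L[ℂ] H)) := by
    rw [hs, Submodule.span_le]
    intro y hy
    change (a : H →L[ℂ] H) * (⟨y, hy⟩ : s) = 0
    rw [hbb, ← mul_assoc, h1, zero_mul]
  have h3 : (a : H →L[ℂ] H) * (star (a : H →L[ℂ] H) * a) = 0 :=
    h2 (Submodule.subset_span ⟨a, a.2, a, a.2, rfl⟩)
  have h4 : star (star (a : H →L[ℂ] H) * a) * (star (a : H →L[ℂ] H) * a) = 0 := by
    rw [star_mul, star_star, mul_assoc, h3, mul_zero]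
  exact Subtype.ext ((CStarRing.star_mul_self_eq_zero_iff _).1
    ((CStarRing.star_mul_self_eq_zero_iff _).1 h4))

theorem step (hC : IsClosed (C : Set (H →L[ℂ] H)))
    (hf : ∀ x ∈ C, IsSelfAdjoint x → (spectrum ℝ x).Finite) {p : H →L[ℂ] H} (hpC : p ∈ C)
    (hp : IsStarProjection p) (hi : ¬ FiniteDimensional ℂ (cor C p p)) :
    ∃ q, (q ∈ C ∧ IsStarProjection q ∧ ¬ FiniteDimensional ℂ (cor C q q)) ∧ p * q = q ∧ q ≠ p := by
  obtain ⟨q, hqC, hq, hpq, hq0, hqp⟩ := split hC hf hpC hp hi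
  obtain ⟨h1, hr⟩ := psub hp hq hpq
  by_cases a1 : FiniteDimensional ℂ (cor C q q)
  · refine ⟨p - q, ⟨sub_mem hpC hqC, hr, fun a2 => hi ?_⟩,
      by rw [mul_sub, hp.isIdempotentElem.eq, hpq], fun h => hq0 (sub_eq_self.1 h)⟩
    haveI := off (C := C) hq hr
    haveI := off (C := C) hr hq
    refine Submodule.finiteDimensional_of_le (S₂ := cor C q q ⊔ cor C q (p - q) ⊔
      (cor C (p - q) q ⊔ cor C (p - q) (p - q))) fun x hx => ?_
    have hm : ∀ a b : H →L[ℂ] H, a ∈ C → b ∈ C → IsStarProjection a → IsStarProjection b →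
        a * x * b ∈ cor C a b := fun a b ha hb ha' hb' => ⟨mul_mem (mul_mem ha hx.1) hb,
      by rw [← mul_assoc, ← mul_assoc, ha'.isIdempotentElem.eq],
      by rw [mul_assoc, hb'.isIdempotentElem.eq]⟩
    have e : x = q * x * q + q * x * (p - q) + ((p - q) * x * q + (p - q) * x * (p - q)) := by
      rw [← mul_add, ← mul_add, add_sub_cancel, ← add_mul, ← add_mul, add_sub_cancel, hx.2.1,
        hx.2.2]
    rw [e]
    have hrC := sub_mem hpC hqC
    exact Submodule.add_mem_sup (Submodule.add_mem_sup (hm _ _ hqC hqC hq hq) (hm _ _ hqC hrC hq hr))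
      (Submodule.add_mem_sup (hm _ _ hrC hqC hr hq) (hm _ _ hrC hrC hr hr))
  · exact ⟨q, ⟨hqC, hq, a1⟩, hpq, hqp⟩

theorem exorth (hC : IsClosed (C : Set (H →L[ℂ] H))) (hi : ¬ FiniteDimensional ℂ (cor C 1 1)) :
    ∃ z, Orth C z := by
  by_cases hf : ∀ x ∈ C, IsSelfAdjoint x → (spectrum ℝ x).Finite
  swap
  · push Not at hf
    obtain ⟨x, hx, hs, h⟩ := hf
    exact case1 hC hx hs h
  let P := {q : H →L[ℂ] H // q ∈ C ∧ IsStarProjection q ∧ ¬ FiniteDimensional ℂ (cor C q q)}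
  choose g hg1 hg2 hg3 using fun p : P => step hC hf p.2.1 p.2.2.1 p.2.2.2
  let p : ℕ → P := fun n => (fun a : P => (⟨g a, hg1 a⟩ : P))^[n] ⟨1, one_mem _, .one _, hi⟩
  have hp : ∀ n, (p (n + 1) : H →L[ℂ] H) = g (p n) := fun n =>
    congrArg Subtype.val (Function.iterate_succ_apply' _ n _)
  have h1 : ∀ n, (p n : H →L[ℂ] H) * p (n + 1) = p (n + 1) := fun n => by rw [hp]; exact hg2 _
  have h2 : ∀ n m, n ≤ m → (p n : H →L[ℂ] H) * p m = p m := fun n m h => by
    induction m, h using Nat.le_induction with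
    | base => exact (p n).2.2.1.isIdempotentElem.eq
    | succ m _ ih => rw [← h1 m, ← mul_assoc, ih]
  have h3 : ∀ n, IsStarProjection ((p n : H →L[ℂ] H) - p (n + 1)) := fun n =>
    (psub (p n).2.2.1 (p (n + 1)).2.2.1 (h1 n)).2
  have h4 : ∀ n m, n < m → ((p n : H →L[ℂ] H) - p (n + 1)) * (p m - p (m + 1)) = 0 :=
    fun n m h => by
      rw [sub_mul, mul_sub, mul_sub, h2 n m h.le, h2 n (m + 1) (by omega), h2 (n + 1) m h,
        h2 (n + 1) (m + 1) (by omega), sub_self]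
  refine ⟨fun n => (p n : H →L[ℂ] H) - p (n + 1), fun n => ⟨sub_mem (p n).2.1 (p (n + 1)).2.1,
    (h3 n).isSelfAdjoint, ?_⟩, fun n m h => ?_⟩
  · have h5 : (p n : H →L[ℂ] H) - p (n + 1) ≠ 0 := sub_ne_zero.2 (by rw [hp]; exact (hg3 _).symm)
    have h6 := CStarRing.norm_star_mul_self (x := (p n : H →L[ℂ] H) - p (n + 1))
    rw [(h3 n).isSelfAdjoint.star_eq, (h3 n).isIdempotentElem.eq] at h6
    exact (mul_left_cancel₀ (norm_ne_zero_iff.2 h5) (by rw [mul_one]; exact h6)).symm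
  · rcases h.lt_or_gt with h | h
    · exact h4 n m h
    · exact stareq (h3 m).isSelfAdjoint (h3 n).isSelfAdjoint (IsSelfAdjoint.zero _) (h4 m n h)

/-- finite sums of squares of an orthogonal family are contractions -/
theorem Orth.sum {z : ℕ → H →L[ℂ] H} (h : Orth C z) (s : Finset ℕ) (v : H) :
    (⟪v, (∑ n ∈ s, z n * z n) v⟫_ℂ).re = ∑ n ∈ s, ‖z n v‖ ^ 2 ∧
      ‖(∑ n ∈ s, z n * z n) v‖ ≤ ‖v‖ ∧ ∑ n ∈ s, ‖z n v‖ ^ 2 ≤ ‖v‖ ^ 2 := by
  have rs : ∀ (x : H →L[ℂ] H) (v : H), IsSelfAdjoint x → (⟪v, (x * x) v⟫_ℂ).re = ‖x v‖ ^ 2 :=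
    fun x v hx => by
      change (⟪v, x (x v)⟫_ℂ).re = _
      nth_rewrite 1 [← hx.star_eq]
      rw [← ssym', inner_self_eq_norm_sq_to_K]
      simp [sq]
  have h1 : (⟪v, (∑ n ∈ s, z n * z n) v⟫_ℂ).re = ∑ n ∈ s, ‖z n v‖ ^ 2 := by
    rw [ContinuousLinearMap.sum_apply, inner_sum, Complex.re_sum]
    exact sum_congr rfl fun n _ => rs _ _ (h.1 n).2.1
  have hs : ∀ n, IsSelfAdjoint (z n * z n) := fun n => by
    rw [IsSelfAdjoint, star_mul, (h.1 n).2.1.star_eq]
  have h2 : ‖(∑ n ∈ s, z n * z n) v‖ ^ 2 ≤ ∑ n ∈ s, ‖z n v‖ ^ 2 := by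
    rw [← rs _ _ (isSelfAdjoint_sum s fun n _ => hs n), sum_mul_sum,
      ContinuousLinearMap.sum_apply, inner_sum, Complex.re_sum]
    refine sum_le_sum fun n hn => ?_
    rw [sum_eq_single n (fun m _ hm => by
      rw [mul_assoc, ← mul_assoc (z n) (z m), h.2 n m hm.symm, zero_mul, mul_zero])
      (fun h => absurd hn h), rs _ _ (hs n)]
    refine pow_le_pow_left₀ (norm_nonneg _) ?_ 2
    have := (z n).le_opNorm (z n v)
    rwa [(h.1 n).2.2, one_mul] at this
  have h3 := (Complex.re_le_norm _).trans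
    (norm_inner_le_norm (𝕜 := ℂ) v ((∑ n ∈ s, z n * z n) v))
  rw [h1] at h3
  have h4 : ‖(∑ n ∈ s, z n * z n) v‖ ≤ ‖v‖ := by
    rcases (norm_nonneg ((∑ n ∈ s, z n * z n) v)).eq_or_lt with h0 | h0
    · rw [← h0]; exact norm_nonneg _
    · nlinarith
  exact ⟨h1, h4, by nlinarith [norm_nonneg v]⟩

end Pool.Agent.H75.FR
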