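import Mathlib

namespace Pool.Agent.H75.FR

/-- the coefficient function `s ↦ ⟨λ(s) ξ, η⟩` of the left regular representation of a discrete
group, `(λ(s) ξ)(t) = ξ(s⁻¹ t)` -/
noncomputable def coef {G : Type} [Group G] (ξ η : lp (fun _ : G => ℂ) 2) (s : G) : ℂ :=
  ∑' t, ξ (s⁻¹ * t) * (starRingEnd ℂ) (η t)

variable {A : Type} [NonUnitalNormedCommRing A] [NormedSpace ℂ A] [IsScalarTower ℂ A A]
  [SMulCommClass ℂ A A]

/-- `ι` identifies the Banach algebra `A` with the Fourier algebra of the discrete group `G` -/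
structure IsFourier (G : Type) [Group G] (ι : A →ₙₐ[ℂ] (G → ℂ)) : Prop where
  inj : Function.Injective ι
  range : ∀ u : G → ℂ, (∃ a, ι a = u) ↔ ∃ ξ η, u = coef ξ η
  norm : ∀ a, ‖a‖ = sInf {r : ℝ | ∃ ξ η, ι a = coef ξ η ∧ r = ‖ξ‖ * ‖η‖}

/-- `⟨f · a, b⟩ = ⟨f, a b⟩` -/
noncomputable def fa (f : StrongDual ℂ A) (a : A) : StrongDual ℂ A :=
  f.comp (ContinuousLinearMap.mul ℂ A a)

theorem fa_le (f : StrongDual ℂ A) (a : A) : ‖fa f a‖ ≤ ‖f‖ * ‖a‖ :=
  (f.opNorm_comp_le _).trans (mul_le_mul_of_nonneg_left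
    (ContinuousLinearMap.opNorm_mul_apply_le ℂ A a) (norm_nonneg _))

/-- `⟨Ψ · f, a⟩ = ⟨Ψ, f · a⟩` -/
noncomputable def Pf (Ψ : StrongDual ℂ (StrongDual ℂ A)) (f : StrongDual ℂ A) : StrongDual ℂ A :=
  LinearMap.mkContinuous
    { toFun := fun a => Ψ (fa f a)
      map_add' := fun a b => by rw [← map_add]; congr 1; ext c; simp [fa]
      map_smul' := fun t a => by rw [RingHom.id_apply, ← map_smul]; congr 1; ext c; simp [fa] }
    (‖Ψ‖ * ‖f‖) fun a => (Ψ.le_opNorm _).trans (by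
      rw [mul_assoc]; exact mul_le_mul_of_nonneg_left (fa_le f a) (norm_nonneg _))

theorem Pf_le (Ψ : StrongDual ℂ (StrongDual ℂ A)) (f : StrongDual ℂ A) :
    ‖Pf Ψ f‖ ≤ ‖Ψ‖ * ‖f‖ := LinearMap.mkContinuous_norm_le _ (by positivity) _

/-- the first Arens product, `⟨Φ □ Ψ, f⟩ = ⟨Φ, Ψ · f⟩` -/
noncomputable def box (Φ Ψ : StrongDual ℂ (StrongDual ℂ A)) : StrongDual ℂ (StrongDual ℂ A) :=
  LinearMap.mkContinuous
    { toFun := fun f => Φ (Pf Ψ f)
      map_add' := fun f g => by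
        rw [← map_add]; congr 1; ext a
        change Ψ (fa (f + g) a) = Ψ (fa f a) + Ψ (fa g a)
        rw [← map_add]; rfl
      map_smul' := fun t f => by
        rw [RingHom.id_apply, ← map_smul]; congr 1; ext a
        change Ψ (fa (t • f) a) = t • Ψ (fa f a)
        rw [← map_smul]; rfl }
    (‖Φ‖ * ‖Ψ‖) fun f => (Φ.le_opNorm _).trans (by
      rw [mul_assoc]; exact mul_le_mul_of_nonneg_left (Pf_le Ψ f) (norm_nonneg _))

/-- a left ideal of `(A'', □)` -/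
def IsLeftIdeal (I : Submodule ℂ (StrongDual ℂ (StrongDual ℂ A))) : Prop :=
  ∀ Φ, ∀ Ψ ∈ I, box Φ Ψ ∈ I

/-- a maximal modular left ideal of `(A'', □)` -/
structure IsMaxModular (I : Submodule ℂ (StrongDual ℂ (StrongDual ℂ A))) : Prop where
  ideal : IsLeftIdeal I
  proper : I ≠ ⊤
  modular : ∃ u, ∀ Φ, Φ - box Φ u ∈ I
  maximal : ∀ J, IsLeftIdeal J → I ≤ J → J = I ∨ J = ⊤

/-- the Jacobson radical of `(A'', □)`: the intersection of the maximal modular left ideals -/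
def rad (A : Type) [NonUnitalNormedCommRing A] [NormedSpace ℂ A] [IsScalarTower ℂ A A]
    [SMulCommClass ℂ A A] : Set (StrongDual ℂ (StrongDual ℂ A)) :=
  {Ψ | ∀ I, IsMaxModular I → Ψ ∈ I}

end Pool.Agent.H75.FR
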