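import Pool.Agent.H75.FR1
import Pool.Agent.H75.FRDefs
import Pool.Agent.H99.GVN

set_option linter.unusedSectionVars false
set_option linter.deprecated false

namespace Pool.Agent.H75.FR
open Filter Topology Finset Pool.Agent.H86.Wu Pool.Agent.H75.IL Pool.Agent.H86.Roe
  Pool.Agent.H99.GVN
open scoped InnerProductSpace

variable {G : Type} [Group G]

theorem coef_eq (ξ η : H G) (s : G) : coef ξ η s = ⟪η, L s ξ⟫_ℂ := by
  rw [lp.inner_eq_tsum]
  exact tsum_congr fun t => by simp [H99.GVN.L_apply]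

/-- the weak operator closure of the span of the translations -/
def W (G : Type) [Group G] : StarSubalgebra ℂ (H G →L[ℂ] H G) where
  carrier := {T | ∀ ξ η : Fin 3 → H G, (∀ s, ∑ i, ⟪η i, L s (ξ i)⟫_ℂ = 0) →
    ∑ i, ⟪η i, T (ξ i)⟫_ℂ = 0}
  mul_mem' {a b} ha hb ξ η h := ha (fun i => b (ξ i)) η fun t => by
    have := hb ξ (fun i => star (L t) (η i)) fun s => by
      simp only [ssym]
      have h1 := h (t * s)
      rw [H99.GVN.L_mul] at h1
      exact h1
    simpa only [ssym] using this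
  add_mem' {a b} ha hb ξ η h := by
    simp only [ContinuousLinearMap.add_apply, inner_add_right, sum_add_distrib, ha ξ η h,
      hb ξ η h, add_zero]
  algebraMap_mem' c ξ η h := by
    have h1 := h 1
    rw [L_one] at h1
    simp only [Algebra.algebraMap_eq_smul_one, ContinuousLinearMap.smul_apply, inner_smul_right,
      ← mul_sum, h1, mul_zero]
  star_mem' {a} ha ξ η h := by
    have := ha η ξ fun s => by
      have h1 := congrArg (starRingEnd ℂ) (h s⁻¹)
      rw [map_sum, map_zero, ← L_star] at h1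
      simpa only [inner_conj_symm, ssym] using h1
    have h1 := congrArg (starRingEnd ℂ) this
    rw [map_sum, map_zero] at h1
    simpa only [inner_conj_symm, ssym'] using h1

theorem L_W (s : G) : L s ∈ W G := fun _ _ h => h s

theorem W_lim {α : Type} {F : Filter α} [F.NeBot] {x : α → H G →L[ℂ] H G} {T : H G →L[ℂ] H G}
    (hx : ∀ n, x n ∈ W G) (h : ∀ u v, Tendsto (fun n => ⟪u, x n v⟫_ℂ) F (𝓝 ⟪u, T v⟫_ℂ)) :
    T ∈ W G := fun ξ η h0 =>
  tendsto_nhds_unique (tendsto_finset_sum univ fun i _ => h (η i) (ξ i))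
    (tendsto_const_nhds.congr fun n => (hx n ξ η h0).symm)

theorem W_closed : IsClosed (W G : Set (H G →L[ℂ] H G)) :=
  IsSeqClosed.isClosed fun x T hx hT => W_lim hx fun u v =>
    ((by fun_prop : Continuous fun y : H G →L[ℂ] H G => ⟪u, y v⟫_ℂ).tendsto T).comp hT

theorem W_inf [Infinite G] : ¬ FiniteDimensional ℂ (cor (W G) 1 1) := fun h => by
  classical
  have h1 : Orthonormal ℂ (δ : G → H G) := ⟨norm_δ, fun x y hxy => by
    simp only [inner_δ, δ_apply, if_neg hxy]⟩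
  let φ : cor (W G) 1 1 →ₗ[ℂ] H G :=
    ((ContinuousLinearMap.apply ℂ (H G) (δ 1)).toLinearMap).comp (cor (W G) 1 1).subtype
  let v : G → cor (W G) 1 1 := fun s => ⟨L s, L_W s, one_mul _, mul_one _⟩
  have h2 : φ ∘ v = δ := funext fun s => lp.ext (funext fun t => by
    change L s (δ 1) t = δ s t
    rw [H99.GVN.L_apply, δ_apply, δ_apply]
    simp only [inv_mul_eq_one, eq_comm])
  have h3 : LinearIndependent ℂ v := LinearIndependent.of_comp φ (h2 ▸ h1.linearIndependent)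
  exact Module.Finite.not_linearIndependent_of_infinite v h3

theorem tri {T : H G →L[ℂ] H G} (hT : T ∈ W G) (c : ℂ) {ξ1 η1 ξ2 η2 ξ3 η3 : H G}
    (h : ∀ s, coef ξ3 η3 s = c * coef ξ1 η1 s + coef ξ2 η2 s) :
    ⟪η3, T ξ3⟫_ℂ = c * ⟪η1, T ξ1⟫_ℂ + ⟪η2, T ξ2⟫_ℂ := by
  have := hT ![ξ3, (-c) • ξ1, -ξ2] ![η3, η1, η2] fun s => by
    have h1 := h s
    simp only [coef_eq] at h1
    simp [Fin.sum_univ_three, inner_smul_right, h1]
  simp only [Fin.sum_univ_three, Matrix.cons_val_zero, Matrix.cons_val_one, Matrix.cons_val,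
    map_smul, map_neg, inner_smul_right, inner_neg_right] at this
  linear_combination this

variable {A : Type} [NonUnitalNormedCommRing A] [NormedSpace ℂ A] [IsScalarTower ℂ A A]
  [SMulCommClass ℂ A A] {ι : A →ₙₐ[ℂ] (G → ℂ)}

theorem IsFourier.exF (h : IsFourier G ι) {T : H G →L[ℂ] H G} (hT : T ∈ W G)
    (h1 : ∀ v, ‖T v‖ ≤ ‖v‖) :
    ∃ f : StrongDual ℂ A, ∀ a ξ η, ι a = coef ξ η → f a = ⟪η, T ξ⟫_ℂ := by
  choose x y hxy using fun a => (h.range (ι a)).1 ⟨a, rfl⟩
  have h0 : ∀ s : G, coef (0 : H G) 0 s = 0 := fun s => by rw [coef_eq, inner_zero_left]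
  have wd : ∀ a ξ η, ι a = coef ξ η → ⟪y a, T (x a)⟫_ℂ = ⟪η, T ξ⟫_ℂ := fun a ξ η e => by
    simpa using tri hT 1 (ξ2 := 0) (η2 := 0) (ξ1 := ξ) (η1 := η) (ξ3 := x a) (η3 := y a)
      fun s => by rw [h0, ← hxy, e, one_mul, add_zero]
  refine ⟨LinearMap.mkContinuous
    { toFun := fun a => ⟪y a, T (x a)⟫_ℂ
      map_add' := fun a b => ?_
      map_smul' := fun c a => ?_ } 1 fun a => ?_, wd⟩
  · simpa using tri hT 1 (ξ3 := x (a + b)) (η3 := y (a + b)) (ξ1 := x a) (η1 := y a) (ξ2 := x b)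
      (η2 := y b) fun s => by rw [← hxy, ← hxy, ← hxy, map_add, one_mul]; rfl
  · simpa using tri hT c (ξ3 := x (c • a)) (η3 := y (c • a)) (ξ1 := x a) (η1 := y a) (ξ2 := 0)
      (η2 := 0) fun s => by rw [h0, ← hxy, ← hxy, map_smul, add_zero]; rfl
  · rw [one_mul, h.norm]
    refine le_csInf ⟨_, x a, y a, hxy a, rfl⟩ ?_
    rintro _ ⟨ξ, η, e, rfl⟩
    change ‖⟪y a, T (x a)⟫_ℂ‖ ≤ _
    rw [wd a ξ η e, mul_comm]
    exact (norm_inner_le_norm _ _).trans (mul_le_mul_of_nonneg_left (h1 _) (norm_nonneg _))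

theorem IsFourier.le (h : IsFourier G ι) {a : A} {ξ η : H G} (e : ι a = coef ξ η) :
    ‖a‖ ≤ ‖ξ‖ * ‖η‖ := by
  rw [h.norm]
  exact csInf_le ⟨0, by rintro _ ⟨_, _, -, rfl⟩; positivity⟩ ⟨ξ, η, e, rfl⟩

theorem L_le (s : G) (v : H G) : ‖L s v‖ ≤ ‖v‖ :=
  ((L s).le_opNorm v).trans (mul_le_of_le_one_left (norm_nonneg _) (V_norm _))

theorem IsFourier.ev (h : IsFourier G ι) (s : G) : ∃ f : StrongDual ℂ A, ∀ a, f a = ι a s := by
  obtain ⟨f, hf⟩ := h.exF (L_W s) (L_le s)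
  refine ⟨f, fun a => ?_⟩
  obtain ⟨ξ, η, e⟩ := (h.range (ι a)).1 ⟨a, rfl⟩
  rw [hf a ξ η e, e, coef_eq]

theorem IsFourier.kill (h : IsFourier G ι) {Ψ : StrongDual ℂ (StrongDual ℂ A)}
    (hΨ : ∀ s (f : StrongDual ℂ A), (∀ a, f a = ι a s) → Ψ f = 0) (f : StrongDual ℂ A) :
    Pf Ψ f = 0 := by
  classical
  choose w hw using fun ξ η : H G => (h.range (coef ξ η)).2 ⟨ξ, η, rfl⟩
  set g := Pf Ψ f with hg
  have hb : ∀ ξ η, ‖g (w ξ η)‖ ≤ ‖g‖ * (‖ξ‖ * ‖η‖) := fun ξ η =>
    (g.le_opNorm _).trans (mul_le_mul_of_nonneg_left (h.le (hw ξ η)) (norm_nonneg _))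
  have h1 : ∀ x y, g (w (δ x) (δ y)) = 0 := fun x y => by
    obtain ⟨e, he⟩ := h.ev (y * x⁻¹)
    have : fa f (w (δ x) (δ y)) = f (w (δ x) (δ y)) • e := by
      ext b
      change f (w (δ x) (δ y) * b) = f (w (δ x) (δ y)) * e b
      rw [mul_comm (f _), ← smul_eq_mul (e b), ← map_smul, he]
      congr 1
      refine h.inj (funext fun s => ?_)
      rw [map_mul, map_smul, Pi.mul_apply, Pi.smul_apply, hw, coef_eq, inner_δ, H99.GVN.L_apply,
        δ_apply]
      split_ifs with hs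
      · rw [← hs]; simp
      · simp
    change Ψ (fa f _) = 0
    rw [this, map_smul, hΨ _ e he, smul_zero]
  have h2 : ∀ x η, g (w (δ x) η) = 0 := fun x η => by
    let ψ : H G →L[ℂ] ℂ := LinearMap.mkContinuous
      { toFun := fun η => (starRingEnd ℂ) (g (w (δ x) η))
        map_add' := fun a b => by
          rw [← map_add, ← map_add]
          congr 2
          exact h.inj (funext fun s => by simp [hw, coef_eq, inner_add_left])
        map_smul' := fun c a => by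
          have : w (δ x) (c • a) = (starRingEnd ℂ) c • w (δ x) a :=
            h.inj (funext fun s => by simp [hw, coef_eq, inner_smul_left, mul_comm])
          simp [this] } (‖g‖ * ‖(δ x : H G)‖) fun η => by
        change ‖(starRingEnd ℂ) (g (w (δ x) η))‖ ≤ _
        rw [RCLike.norm_conj, mul_assoc]
        exact hb _ _
    have : ψ = 0 := lp.ext_continuousLinearMap (by simp) fun y => ContinuousLinearMap.ext_ring (by
      change (starRingEnd ℂ) (g (w (δ x) (δ y))) = 0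
      rw [h1, map_zero])
    have h3 : (starRingEnd ℂ) (g (w (δ x) η)) = 0 := congrArg (fun t : H G →L[ℂ] ℂ => t η) this
    simpa using h3
  ext a
  obtain ⟨ξ, η, e⟩ := (h.range (ι a)).1 ⟨a, rfl⟩
  let ψ : H G →L[ℂ] ℂ := LinearMap.mkContinuous
    { toFun := fun ξ => g (w ξ η)
      map_add' := fun a b => by
        rw [← map_add]
        congr 1
        exact h.inj (funext fun s => by simp [hw, coef_eq, inner_add_right])
      map_smul' := fun c a => by
        have : w (c • a) η = c • w a η :=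
          h.inj (funext fun s => by simp [hw, coef_eq, inner_smul_right])
        simp [this] } (‖g‖ * ‖η‖) fun ξ => by
      change ‖g (w ξ η)‖ ≤ _
      rw [mul_assoc, mul_comm ‖η‖]
      exact hb _ _
  have : ψ = 0 := lp.ext_continuousLinearMap (by simp) fun y =>
    ContinuousLinearMap.ext_ring (h2 y η)
  rw [h.inj (e.trans (hw ξ η).symm)]
  exact congrArg (fun t : H G →L[ℂ] ℂ => t ξ) this

theorem coef_supp (ξ η : H G) : {s | coef ξ η s ≠ 0}.Countable := by
  have hc : ∀ ζ : H G, (Function.support ζ).Countable := fun ζ =>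
    ((lp.memℓp ζ).summable (by simp)).countable_support.mono fun t ht => by simpa using ht
  refine ((hc η).image2 (hc ξ) fun t r => t * r⁻¹).mono fun s hs => ?_
  by_contra hn
  refine hs ((tsum_congr fun t => ?_).trans tsum_zero)
  by_contra h0
  rw [← Ne, mul_ne_zero_iff] at h0
  exact hn ⟨t, by simpa using h0.2, s⁻¹ * t, h0.1, by simp⟩

theorem IsFourier.exP [Infinite G] (h : IsFourier G ι) : ∃ Ψ : StrongDual ℂ (StrongDual ℂ A),
    Ψ ≠ 0 ∧ ∀ s (f : StrongDual ℂ A), (∀ a, f a = ι a s) → Ψ f = 0 := by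
  classical
  obtain ⟨z, hz⟩ := exorth W_closed (W_inf (G := G))
  choose ξ hξ1 hξ using fun n => (z n).exists_lt_apply_of_lt_opNorm (r := 9 / 10)
    (by rw [(hz.1 n).2.2]; norm_num)
  choose a ha using fun n => (h.range (coef (ξ n) (ξ n))).2 ⟨_, _, rfl⟩
  have ha1 : ∀ n, ‖a n‖ ≤ 1 := fun n =>
    (h.le (ha n)).trans (mul_le_one₀ (hξ1 n).le (norm_nonneg _) (hξ1 n).le)
  set D := ⋃ n, {s | coef (ξ n) (ξ n) s ≠ 0} with hD
  haveI : Countable D := (Set.countable_iUnion fun n => coef_supp _ _).to_subtype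
  obtain ⟨l, -, φ, hφ, hl⟩ := (isCompact_univ_pi fun _ : D =>
    isCompact_closedBall (0 : ℂ) 1).tendsto_subseq (x := fun n (s : D) => ι (a n) s) fun n s _ => by
      beta_reduce
      rw [mem_closedBall_zero_iff, ha, coef_eq]
      exact (norm_inner_le_norm _ _).trans
        (mul_le_one₀ (hξ1 n).le (norm_nonneg _) ((L_le _ _).trans (hξ1 n).le))
  let b : ℕ → A := fun k => a (φ (2 * k)) - a (φ (2 * k + 1))
  have hb0 : ∀ s, Tendsto (fun k => ι (b k) s) atTop (𝓝 0) := fun s => by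
    simp only [b, map_sub, Pi.sub_apply]
    by_cases hs : s ∈ D
    · have h1 := tendsto_pi_nhds.1 hl ⟨s, hs⟩
      have h2 := (h1.comp (tendsto_atTop_mono (fun k => (by omega : k ≤ 2 * k)) tendsto_id)).sub
        (h1.comp (tendsto_atTop_mono (fun k => (by omega : k ≤ 2 * k + 1)) tendsto_id))
      rw [sub_self] at h2
      exact h2
    · have : ∀ n, ι (a n) s = 0 := fun n => by
        rw [ha]
        by_contra h0
        exact hs (Set.mem_iUnion.2 ⟨n, h0⟩)
      simp [this]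
  let x : ℕ → H G →L[ℂ] H G := fun k => ∑ n ∈ (Finset.range k).image fun j => φ (2 * j), z n * z n
  obtain ⟨T, hT⟩ := wlim ((hyperfilter ℕ).map x) (Ultrafilter.mem_map.2 (univ_mem' fun k =>
    (x k).opNorm_le_bound zero_le_one fun v => by rw [one_mul]; exact (hz.sum _ v).2.1))
  have hT' : ∀ u v, Tendsto (fun n => ⟪u, x n v⟫_ℂ) (hyperfilter ℕ) (𝓝 ⟪u, T v⟫_ℂ) := hT
  have hre : ∀ u v, Tendsto (fun n => (⟪u, x n v⟫_ℂ).re) (hyperfilter ℕ) (𝓝 (⟪u, T v⟫_ℂ).re) :=
    fun u v => (Complex.continuous_re.tendsto _).comp (hT' u v)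
  have hle : (hyperfilter ℕ : Filter ℕ) ≤ atTop := by
    rw [← Nat.cofinite_eq_atTop]; exact hyperfilter_le_cofinite
  obtain ⟨F, hF⟩ := h.exF (W_lim (fun k => sum_mem fun n _ => mul_mem (hz.1 n).1 (hz.1 n).1) hT')
    fun v => by
      have h1 := le_of_tendsto' (hre (T v) v) (b := ‖T v‖ * ‖v‖) fun n =>
        ((Complex.re_le_norm _).trans (norm_inner_le_norm _ _)).trans
          (mul_le_mul_of_nonneg_left (hz.sum _ v).2.1 (norm_nonneg _))
      rw [show (⟪T v, T v⟫_ℂ).re = ‖T v‖ ^ 2 from inner_self_eq_norm_sq (𝕜 := ℂ) _] at h1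
      rcases (norm_nonneg (T v)).eq_or_lt with h0 | h0
      · rw [← h0]; positivity
      · nlinarith
  have hFb : ∀ k, 1 / 2 ≤ (F (b k)).re := fun k => by
    have s1 : ∀ n, (9 / 10 : ℝ) ^ 2 ≤ ‖z n (ξ n)‖ ^ 2 := fun n =>
      pow_le_pow_left₀ (by norm_num) (hξ n).le 2
    have h1 := ge_of_tendsto (hre (ξ (φ (2 * k))) (ξ (φ (2 * k)))) (b := (9 / 10) ^ 2)
      (((eventually_gt_atTop k).filter_mono hle).mono
        fun j hj => by
          rw [(hz.sum _ _).1]
          exact (s1 _).trans (single_le_sum (f := fun n => ‖z n (ξ (φ (2 * k)))‖ ^ 2)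
            (fun _ _ => sq_nonneg _) (mem_image.2 ⟨k, mem_range.2 hj, rfl⟩)))
    have h2 := le_of_tendsto' (hre (ξ (φ (2 * k + 1))) (ξ (φ (2 * k + 1))))
      (b := 1 - (9 / 10) ^ 2) fun j => by
        rw [(hz.sum _ _).1]
        have h3 := (hz.sum (insert (φ (2 * k + 1)) ((Finset.range j).image fun j => φ (2 * j)))
          (ξ (φ (2 * k + 1)))).2.2
        rw [sum_insert (fun hm => by
          obtain ⟨i, -, hi⟩ := mem_image.1 hm
          have := hφ.injective hi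
          omega)] at h3
        have h4 := pow_le_one₀ (n := 2) (norm_nonneg _) (hξ1 (φ (2 * k + 1))).le
        linarith [s1 (φ (2 * k + 1))]
    simp only [b, map_sub, Complex.sub_re, hF _ _ _ (ha _)]
    linarith
  obtain ⟨Ψ, -, hΨ⟩ := (WeakDual.isCompact_closedBall
    (0 : StrongDual ℂ (StrongDual ℂ A)) 2).ultrafilter_le_nhds' ((hyperfilter ℕ).map fun k =>
      StrongDual.toWeakDual (NormedSpace.inclusionInDoubleDual ℂ A (b k)))
    (Ultrafilter.mem_map.2 (univ_mem' fun k => mem_closedBall_zero_iff.2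
      ((NormedSpace.double_dual_bound ℂ A (b k)).trans ((norm_sub_le _ _).trans
        (by linarith [ha1 (φ (2 * k)), ha1 (φ (2 * k + 1))])))))
  have hΨ' : ∀ f : StrongDual ℂ A, Tendsto (fun k => f (b k)) (hyperfilter ℕ) (𝓝 (Ψ f)) :=
    fun f => ((WeakDual.eval_continuous f).tendsto Ψ).comp hΨ
  refine ⟨WeakDual.toStrongDual Ψ, fun h0 => ?_, fun s f hf => tendsto_nhds_unique (hΨ' f) ?_⟩
  · have h1 := ge_of_tendsto' ((Complex.continuous_re.tendsto _).comp (hΨ' F)) hFb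
    have h2 : Ψ F = 0 := congrArg (fun t : StrongDual ℂ (StrongDual ℂ A) => t F) h0
    rw [h2] at h1
    norm_num at h1
  · simp only [hf]
    exact (hb0 s).mono_left hle

theorem box_add (Φ u v : StrongDual ℂ (StrongDual ℂ A)) :
    box Φ (u + v) = box Φ u + box Φ v := by
  ext f
  change Φ (Pf (u + v) f) = Φ (Pf u f) + Φ (Pf v f)
  rw [← map_add]
  rfl

theorem IsFourier.main [Infinite G] (h : IsFourier G ι) :
    ∃ Ψ : StrongDual ℂ (StrongDual ℂ A), Ψ ≠ 0 ∧ (∀ Φ, box Φ Ψ = 0) ∧ Ψ ∈ rad A := by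
  obtain ⟨Ψ, h0, hΨ⟩ := h.exP
  have h1 : ∀ (c : ℂ) Φ, box Φ (c • Ψ) = 0 := fun c Φ => by
    ext f
    change Φ (Pf (c • Ψ) f) = 0
    rw [h.kill (fun s f hf => by simp [hΨ s f hf]) f, map_zero]
  refine ⟨Ψ, h0, fun Φ => by simpa using h1 1 Φ, fun I hI => ?_⟩
  have hJ : ∀ v ∈ I ⊔ Submodule.span ℂ {Ψ}, ∀ Φ, box Φ v ∈ I := fun v hv Φ => by
    obtain ⟨l, hl, w, hw, rfl⟩ := Submodule.mem_sup.1 hv
    obtain ⟨c, rfl⟩ := Submodule.mem_span_singleton.1 hw
    rw [box_add, h1, add_zero]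
    exact hI.ideal Φ l hl
  rcases hI.maximal (I ⊔ Submodule.span ℂ {Ψ}) (fun Φ v hv => Submodule.mem_sup_left (hJ v hv Φ))
    le_sup_left with e | e
  · rw [← e]
    exact Submodule.mem_sup_right (Submodule.mem_span_singleton_self Ψ)
  · obtain ⟨u, hu⟩ := hI.modular
    have := I.add_mem (hu Ψ) (hJ u (by rw [e]; trivial) Ψ)
    have e2 : Ψ - box Ψ u + box Ψ u = Ψ := ContinuousLinearMap.ext fun f => sub_add_cancel _ _
    exact (congrArg (· ∈ I) e2).mp this

end Pool.Agent.H75.FR
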