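import Mathlib

/-! Free differential calculus: Jacobian matrices of endomorphisms of a free algebra. -/

set_option autoImplicit false

namespace Pool.Agent.H75.FreeJac

open scoped TensorProduct
open MulOpposite

variable (K : Type*) [Field K] (σ : Type*)

abbrev A := FreeAlgebra K σ
abbrev R := A K σ ⊗[K] (A K σ)ᵐᵒᵖ

variable {K σ}

abbrev x (i : σ) : A K σ := FreeAlgebra.ι K i

section homs
variable {S : Type*} [Ring S] [Algebra K S]

theorem op_ext {f g : (A K σ)ᵐᵒᵖ →ₐ[K] S} (h : ∀ i, f (op (x i)) = g (op (x i))) : f = g := by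
  apply AlgHom.opComm.symm.injective
  ext i
  simp [AlgHom.opComm, h]

theorem R_ext {f g : R K σ →ₐ[K] S} (h1 : ∀ i, f (x i ⊗ₜ 1) = g (x i ⊗ₜ 1))
    (h2 : ∀ i, f (1 ⊗ₜ op (x i)) = g (1 ⊗ₜ op (x i))) : f = g := by
  apply Algebra.TensorProduct.ext
  · ext i
    exact h1 i
  · exact op_ext h2

noncomputable def rl (b : σ → S) : (A K σ)ᵐᵒᵖ →ₐ[K] S :=
  AlgHom.opComm (FreeAlgebra.lift K fun i => op (b i))

theorem rl_x (b : σ → S) (i : σ) : rl (K := K) b (op (x i)) = b i := by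
  simp [rl, AlgHom.opComm]

theorem commute_lift (a b : σ → S) (h : ∀ i j, Commute (a i) (b j)) (p : A K σ)
    (q : (A K σ)ᵐᵒᵖ) : Commute (FreeAlgebra.lift K a p) (rl b q) := by
  have h1 : ∀ j, Commute (FreeAlgebra.lift K a p) (b j) := by
    intro j
    induction p using FreeAlgebra.induction with
    | grade0 c => rw [AlgHom.commutes]; exact Algebra.commutes c _
    | grade1 i => rw [FreeAlgebra.lift_ι_apply]; exact h i j
    | mul p q hp hq => rw [map_mul]; exact hp.mul_left hq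
    | add p q hp hq => rw [map_add]; exact hp.add_left hq
  induction q using MulOpposite.rec' with
  | h q =>
  induction q using FreeAlgebra.induction with
  | grade0 c =>
    rw [← MulOpposite.algebraMap_apply, AlgHom.commutes]; exact (Algebra.commutes c _).symm
  | grade1 i => rw [rl_x]; exact h1 i
  | mul p q hp hq => rw [op_mul, map_mul]; exact hq.mul_right hp
  | add p q hp hq => rw [op_add, map_add]; exact hp.add_right hq

noncomputable def mkR (a b : σ → S) (h : ∀ i j, Commute (a i) (b j)) : R K σ →ₐ[K] S :=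
  Algebra.TensorProduct.lift (FreeAlgebra.lift K a) (rl b) (commute_lift a b h)

theorem mkR_l (a b : σ → S) (h : ∀ i j, Commute (a i) (b j)) (i : σ) :
    mkR (K := K) a b h (x i ⊗ₜ 1) = a i := by simp [mkR]

theorem mkR_r (a b : σ → S) (h : ∀ i j, Commute (a i) (b j)) (i : σ) :
    mkR (K := K) a b h (1 ⊗ₜ op (x i)) = b i := by
  simp [mkR, rl_x]

theorem comm_lr (p q : A K σ) :
    Commute ((p ⊗ₜ 1 : R K σ)) (1 ⊗ₜ op q) := by
  simp [Commute, SemiconjBy]

theorem l_mul (p q : A K σ) : ((p * q) ⊗ₜ 1 : R K σ) = (p ⊗ₜ 1) * (q ⊗ₜ 1) := by simp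

theorem r_mul (p q : A K σ) :
    (1 ⊗ₜ op (p * q) : R K σ) = (1 ⊗ₜ op q) * (1 ⊗ₜ op p) := by simp

/-- Twisted derivations. -/
def IsDer (π : R K σ →ₐ[K] S) (D : A K σ →ₗ[K] S) : Prop :=
  ∀ p q, D (p * q) = π (p ⊗ₜ 1) * D q + π (1 ⊗ₜ op q) * D p

theorem IsDer.one {π : R K σ →ₐ[K] S} {D : A K σ →ₗ[K] S} (h : IsDer π D) : D 1 = 0 := by
  have := h 1 1
  rw [mul_one, op_one, ← Algebra.TensorProduct.one_def, map_one π, one_mul] at this
  simpa using this

theorem IsDer.alg {π : R K σ →ₐ[K] S} {D : A K σ →ₗ[K] S} (h : IsDer π D) (c : K) :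
    D (algebraMap K _ c) = 0 := by
  rw [Algebra.algebraMap_eq_smul_one, map_smul, h.one, smul_zero]

theorem IsDer.ext {π : R K σ →ₐ[K] S} {D D' : A K σ →ₗ[K] S} (h : IsDer π D) (h' : IsDer π D')
    (hx : ∀ i, D (x i) = D' (x i)) (p : A K σ) : D p = D' p := by
  induction p using FreeAlgebra.induction with
  | grade0 c => rw [h.alg, h'.alg]
  | grade1 i => exact hx i
  | mul p q hp hq => rw [h, h', hp, hq]
  | add p q hp hq => rw [map_add, map_add, hp, hq]

theorem exists_der (π : R K σ →ₐ[K] S) (d : σ → S) :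
    ∃ D : A K σ →ₗ[K] S, IsDer π D ∧ ∀ i, D (x i) = d i := by
  let ro : A K σ →ₗ[K] S := π.toLinearMap ∘ₗ
    (Algebra.TensorProduct.includeRight (R := K) (A := A K σ)).toLinearMap ∘ₗ
      (opLinearEquiv K).toLinearMap
  have hro : ∀ a, ro a = π (1 ⊗ₜ op a) := fun a => rfl
  let Θ : A K σ →ₐ[K] Module.End K (S × A K σ) := FreeAlgebra.lift K fun i =>
    LinearMap.prod ((LinearMap.mulLeft K (π (x i ⊗ₜ 1))) ∘ₗ LinearMap.fst _ _ _ +
      (LinearMap.mulRight K (d i)) ∘ₗ ro ∘ₗ LinearMap.snd _ _ _)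
      ((LinearMap.mulLeft K (x i)) ∘ₗ LinearMap.snd _ _ _)
  let D : A K σ →ₗ[K] S := LinearMap.fst K S (A K σ) ∘ₗ
    (LinearMap.applyₗ ((0 : S), (1 : A K σ))) ∘ₗ Θ.toLinearMap
  have hD : ∀ p, D p = (Θ p (0, 1)).1 := fun p => rfl
  have hx : ∀ i z a, Θ (x i) (z, a) = (π (x i ⊗ₜ 1) * z + π (1 ⊗ₜ op a) * d i, x i * a) := by
    intro i z a
    simp [Θ, hro]
  have key : ∀ p z a, Θ p (z, a) = (π (p ⊗ₜ 1) * z + π (1 ⊗ₜ op a) * D p, p * a) := by
    intro p
    induction p using FreeAlgebra.induction with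
    | grade0 c =>
      intro z a
      rw [hD, AlgHom.commutes, ← Algebra.TensorProduct.algebraMap_apply, AlgHom.commutes]
      simp [Algebra.smul_def]
    | grade1 i =>
      intro z a
      rw [hD, hx, hx]
      simp [← Algebra.TensorProduct.one_def]
    | mul p q hp hq =>
      intro z a
      rw [hD, map_mul, Module.End.mul_apply, Module.End.mul_apply, hq, hq, hp, hp, l_mul, r_mul,
        mul_one, op_one, ← Algebra.TensorProduct.one_def]
      simp only [map_mul, map_one, mul_zero, one_mul, zero_add, mul_add, mul_assoc, add_assoc]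
      rw [← mul_assoc (π (p ⊗ₜ 1)) (π (1 ⊗ₜ op a)), ((comm_lr p a).map π).eq, mul_assoc]
    | add p q hp hq =>
      intro z a
      rw [map_add, LinearMap.add_apply, hp, hq, map_add, TensorProduct.add_tmul, map_add]
      simp only [Prod.mk_add_mk, add_mul, mul_add]
      congr 1
      abel
  refine ⟨D, fun p q => ?_, fun i => ?_⟩
  · rw [hD, map_mul, Module.End.mul_apply, key q, key p]
    simp [← Algebra.TensorProduct.one_def]
  · rw [hD, hx]
    simp [← Algebra.TensorProduct.one_def]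

end homs

variable [DecidableEq σ]

/-- The free partial derivatives. -/
noncomputable def dd (j : σ) : A K σ →ₗ[K] R K σ :=
  (exists_der (AlgHom.id K (R K σ)) fun i => if i = j then 1 else 0).choose

theorem dd_der (j : σ) : IsDer (AlgHom.id K (R K σ)) (dd j) :=
  (exists_der (AlgHom.id K (R K σ)) fun i => if i = j then 1 else 0).choose_spec.1

theorem dd_x (j i : σ) : dd (K := K) j (x i) = if i = j then 1 else 0 :=
  (exists_der (AlgHom.id K (R K σ)) fun i => if i = j then 1 else 0).choose_spec.2 i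

variable [Fintype σ]

theorem IsDer.formula {S : Type*} [Ring S] [Algebra K S] {π : R K σ →ₐ[K] S}
    {D : A K σ →ₗ[K] S} (h : IsDer π D) (p : A K σ) :
    D p = ∑ j, π (dd j p) * D (x j) := by
  let D' : A K σ →ₗ[K] S := ∑ j, LinearMap.mulRight K (D (x j)) ∘ₗ π.toLinearMap ∘ₗ dd j
  have hD' : ∀ p, D' p = ∑ j, π (dd j p) * D (x j) := fun p => by simp [D']
  rw [← hD']
  refine h.ext (fun p q => ?_) (fun i => ?_) p
  · simp only [hD', Finset.mul_sum, ← Finset.sum_add_distrib]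
    refine Finset.sum_congr rfl fun j _ => ?_
    rw [dd_der j p q]
    simp [add_mul, mul_assoc]
  · simp [hD', dd_x, apply_ite π]

/-- The action of an endomorphism on the enveloping algebra. -/
noncomputable def env (φ : A K σ →ₐ[K] A K σ) : R K σ →ₐ[K] R K σ :=
  Algebra.TensorProduct.map φ (AlgHom.op φ)

omit [DecidableEq σ] [Fintype σ] in
theorem env_l (φ : A K σ →ₐ[K] A K σ) (p : A K σ) : env φ (p ⊗ₜ 1) = φ p ⊗ₜ 1 := by
  simp [env]

omit [DecidableEq σ] [Fintype σ] in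
theorem env_r (φ : A K σ →ₐ[K] A K σ) (p : A K σ) : env φ (1 ⊗ₜ op p) = 1 ⊗ₜ op (φ p) := by
  simp [env]

/-- The Jacobian matrix. -/
noncomputable def J (φ : A K σ →ₐ[K] A K σ) : Matrix σ σ (R K σ) :=
  Matrix.of fun k j => dd j (φ (x k))

theorem J_comp (ψ α : A K σ →ₐ[K] A K σ) : J (ψ.comp α) = (J α).map (env ψ) * J ψ := by
  ext k j
  have h : IsDer (env ψ) (dd j ∘ₗ ψ.toLinearMap) := fun p q => by
    simp only [LinearMap.comp_apply, AlgHom.toLinearMap_apply, map_mul, env_l, env_r]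
    exact dd_der j _ _
  simpa [J, Matrix.mul_apply] using h.formula (α (x k))

omit [Fintype σ] in
theorem J_id : J (AlgHom.id K (A K σ)) = 1 := by
  ext k j
  simp [J, dd_x, Matrix.one_apply]

theorem delta (p : A K σ) :
    (p ⊗ₜ 1 - 1 ⊗ₜ op p : R K σ) = ∑ j, dd j p * (x j ⊗ₜ 1 - 1 ⊗ₜ op (x j)) := by
  let D : A K σ →ₗ[K] R K σ :=
    (Algebra.TensorProduct.includeLeft (R := K) (S := K) (B := (A K σ)ᵐᵒᵖ)).toLinearMap -
    (Algebra.TensorProduct.includeRight (R := K) (A := A K σ)).toLinearMap ∘ₗ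
      (opLinearEquiv K).toLinearMap
  have hD : ∀ p, D p = p ⊗ₜ 1 - 1 ⊗ₜ op p := fun p => rfl
  have h : IsDer (AlgHom.id K _) D := fun p q => by
    rw [hD, hD, hD, l_mul, r_mul, AlgHom.id_apply, AlgHom.id_apply, mul_sub, mul_sub,
      (comm_lr p q).eq]
    abel
  simpa only [hD, AlgHom.id_apply] using h.formula p

end Pool.Agent.H75.FreeJac
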