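import Mathlib
import Pool.Agent.H75.FreeJac1

/-! Good endomorphisms have Jacobian determinant a unit in every matrix representation. -/

set_option autoImplicit false

namespace Pool.Agent.H75.FreeJac

open scoped TensorProduct
open MulOpposite Polynomial

variable {K : Type*} [Field K] {σ : Type*}

variable (K σ) in
/-- The span of the monomials of degree at least `m`. -/
def degGe (m : ℕ) : Submodule K (A K σ) :=
  Submodule.span K {p | ∃ w : List σ, m ≤ w.length ∧ p = (w.map (FreeAlgebra.ι K)).prod}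

def Good (φ : A K σ →ₐ[K] A K σ) : Prop :=
  ∀ m : ℕ, 1 ≤ m → ∃ (ψ : A K σ →ₐ[K] A K σ) (α : A K σ ≃ₐ[K] A K σ),
    (φ = ψ.comp α ∨ φ = (α : A K σ →ₐ[K] A K σ).comp ψ) ∧ ∀ i, ψ (x i) - x i ∈ degGe K σ m

theorem rl_comm {S : Type*} [CommRing S] [Algebra K S] (a : σ → S) (p : A K σ) :
    rl a (op p) = FreeAlgebra.lift K a p := by
  induction p using FreeAlgebra.induction with
  | grade0 c => rw [← MulOpposite.algebraMap_apply, AlgHom.commutes, AlgHom.commutes]
  | grade1 i => rw [rl_x, FreeAlgebra.lift_ι_apply]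
  | mul p q hp hq => rw [op_mul, map_mul, map_mul, hp, hq, mul_comm]
  | add p q hp hq => rw [op_add, map_add, map_add, hp, hq]

/-- Evaluation at a scalar point. -/
noncomputable def ee (a : σ → K) : R K σ →ₐ[K] K := mkR a a fun _ _ => Commute.all _ _

theorem ee_l (a : σ → K) (p : A K σ) : ee a (p ⊗ₜ 1) = FreeAlgebra.lift K a p := by
  simp [ee, mkR]

theorem ee_r (a : σ → K) (p : A K σ) : ee a (1 ⊗ₜ op p) = FreeAlgebra.lift K a p := by
  simp [ee, mkR, rl_comm]

variable [DecidableEq σ]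

theorem cong {C S : Type*} [CommRing C] [Algebra K C] [Ring S] [Algebra K S] [Algebra C S]
    [IsScalarTower K C S] (t : C) (π : R K σ →ₐ[K] S)
    (hl : ∀ i, ∃ z, π (x i ⊗ₜ 1) = t • z) (hr : ∀ i, ∃ z, π (1 ⊗ₜ op (x i)) = t • z)
    (m : ℕ) (j : σ) (p : A K σ) (hp : p ∈ degGe K σ (m + 1)) :
    ∃ z, π (dd j p) = t ^ m • z := by
  have h1 : ∀ w : List σ, ∃ z, π (1 ⊗ₜ op (w.map (FreeAlgebra.ι K)).prod) = t ^ w.length • z := by
    intro w
    induction w with
    | nil => exact ⟨_, by rw [List.length_nil, pow_zero, one_smul]⟩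
    | cons i w ih =>
      obtain ⟨z, hz⟩ := ih
      obtain ⟨y, hy⟩ := hr i
      refine ⟨z * y, ?_⟩
      rw [List.map_cons, List.prod_cons, r_mul, map_mul, hz, hy, smul_mul_smul_comm,
        List.length_cons, pow_succ]
  have h2 : ∀ (w : List σ) (i : σ),
      ∃ z, π (dd j (x i * (w.map (FreeAlgebra.ι K)).prod)) = t ^ w.length • z := by
    intro w
    induction w with
    | nil => exact fun i => ⟨_, by rw [List.length_nil, pow_zero, one_smul]⟩
    | cons k w ih =>
      intro i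
      obtain ⟨z, hz⟩ := ih k
      obtain ⟨y, hy⟩ := hl i
      obtain ⟨u, hu⟩ := h1 (k :: w)
      refine ⟨y * z + u * π (dd j (x i)), ?_⟩
      rw [dd_der j, map_add, map_mul, map_mul, AlgHom.id_apply, AlgHom.id_apply, hu, hy,
        List.map_cons, List.prod_cons, hz, smul_mul_smul_comm, smul_add, smul_mul_assoc,
        List.length_cons, pow_succ']
  induction hp using Submodule.span_induction with
  | mem p hp =>
    obtain ⟨w, hw, rfl⟩ := hp
    cases w with
    | nil => simp at hw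
    | cons i w =>
      obtain ⟨z, hz⟩ := h2 w i
      obtain ⟨d, hd⟩ := Nat.exists_eq_add_of_le (show m ≤ w.length by simpa using hw)
      exact ⟨t ^ d • z, by rw [List.map_cons, List.prod_cons, hz, hd, pow_add, mul_smul]⟩
  | zero => exact ⟨0, by simp⟩
  | add p q _ _ hp hq =>
    obtain ⟨y, hy⟩ := hp
    obtain ⟨z, hz⟩ := hq
    exact ⟨y + z, by rw [map_add, map_add, hy, hz, smul_add]⟩
  | smul c p _ hp =>
    obtain ⟨y, hy⟩ := hp
    exact ⟨c • y, by rw [map_smul, map_smul, hy, smul_comm]⟩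

variable [Fintype σ] {ι : Type*} [Fintype ι] [DecidableEq ι]

section det
variable {C : Type*} [CommRing C] [Algebra K C]

/-- The block matrix of a matrix over the enveloping algebra in a representation. -/
noncomputable def blk (π : R K σ →ₐ[K] Matrix ι ι C) :
    Matrix σ σ (R K σ) →+* Matrix (σ × ι) (σ × ι) C :=
  (Matrix.compRingEquiv σ ι C).toRingHom.comp π.toRingHom.mapMatrix

theorem blk_apply (π : R K σ →ₐ[K] Matrix ι ι C) (M : Matrix σ σ (R K σ)) (a b : σ × ι) :
    blk π M a b = π (M a.1 b.1) a.2 b.2 := rfl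

theorem blk_comp (π : R K σ →ₐ[K] Matrix ι ι C) (e : R K σ →ₐ[K] R K σ)
    (M : Matrix σ σ (R K σ)) : blk (π.comp e) M = blk π (M.map e) := rfl

theorem blk_map {F : Type*} [CommRing F] [Algebra K F] (π : R K σ →ₐ[K] Matrix ι ι C)
    (h : C →ₐ[K] F) (M : Matrix σ σ (R K σ)) :
    (blk (h.mapMatrix.comp π) M).det = h (blk π M).det := by
  rw [AlgHom.map_det]
  rfl

theorem unit_aut (π : R K σ →ₐ[K] Matrix ι ι C) (α : A K σ ≃ₐ[K] A K σ) :
    IsUnit (blk π (J (α : A K σ →ₐ[K] A K σ))).det := by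
  have h := J_comp (α : A K σ →ₐ[K] A K σ) (α.symm : A K σ →ₐ[K] A K σ)
  rw [AlgEquiv.comp_symm, J_id] at h
  have h2 := congrArg (fun M => (blk π M).det) h
  simp only [map_one, map_mul, Matrix.det_one, Matrix.det_mul] at h2
  exact IsUnit.of_mul_eq_one_right _ h2.symm

theorem det_cong (t : C) (π : R K σ →ₐ[K] Matrix ι ι C)
    (hl : ∀ i, ∃ z, π (x i ⊗ₜ 1) = t • z) (hr : ∀ i, ∃ z, π (1 ⊗ₜ op (x i)) = t • z)
    (m : ℕ) (ψ : A K σ →ₐ[K] A K σ) (hψ : ∀ i, ψ (x i) - x i ∈ degGe K σ (m + 1)) :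
    ∃ c, (blk π (J ψ)).det = 1 + t ^ m * c := by
  choose Z hZ using fun k j => cong t π hl hr m j _ (hψ k)
  have h1 : J ψ = 1 + Matrix.of fun k j => dd j (ψ (x k) - x k) := by
    rw [← J_id]
    ext k j
    simp [J]
  have h2 : blk π (J ψ) = 1 + t ^ m • Matrix.of fun a b : σ × ι => Z a.1 b.1 a.2 b.2 := by
    rw [h1, map_add, map_one]
    congr 1
    ext a b
    rw [blk_apply, Matrix.of_apply, hZ]
    rfl
  rw [h2, Matrix.det_one_add_smul]
  exact ⟨_, by rw [add_assoc, sq, ← mul_assoc, ← add_mul, mul_comm]⟩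

end det

section scale
variable {E : Type*} [CommRing E] [Algebra K E] {F : Type*} [CommRing F] [Algebra K F]

omit [DecidableEq σ] [Fintype σ] in
theorem comm_aux (a b s : F) (u v : Matrix ι ι F) (h : Commute u v) :
    Commute (a • (1 : Matrix ι ι F) + s • (u - a • 1)) (b • 1 + s • (v - b • 1)) := by
  have h1 : ∀ (c : F) (w : Matrix ι ι F), Commute (c • (1 : Matrix ι ι F)) w :=
    fun c w => (Commute.one_left w).smul_left c
  refine (h1 _ _).add_left (Commute.smul_left (Commute.sub_left ?_ (h1 _ _)) _)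
  exact (h1 _ _).symm.add_right (Commute.smul_right (h.sub_right (h1 _ _).symm) _)

/-- Rescaling a representation around a scalar point. -/
noncomputable def sc (π : R K σ →ₐ[K] Matrix ι ι E) (g : E →ₐ[K] F) (a : σ → F) (s : F) :
    R K σ →ₐ[K] Matrix ι ι F :=
  mkR (fun i => a i • 1 + s • (g.mapMatrix (π (x i ⊗ₜ 1)) - a i • 1))
    (fun i => a i • 1 + s • (g.mapMatrix (π (1 ⊗ₜ op (x i))) - a i • 1))
    fun _ _ => comm_aux _ _ _ _ _ (((comm_lr _ _).map π).map g.mapMatrix)

omit [DecidableEq σ] [Fintype σ] in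
theorem sc_map {F' : Type*} [CommRing F'] [Algebra K F'] (π : R K σ →ₐ[K] Matrix ι ι E)
    (g : E →ₐ[K] F) (a : σ → F) (s : F) (h : F →ₐ[K] F') :
    h.mapMatrix.comp (sc π g a s) = sc π (h.comp g) (fun i => h (a i)) (h s) := by
  apply R_ext <;> intro i <;> ext u v <;>
    simp [sc, mkR_l, mkR_r, Matrix.one_apply, apply_ite h]

omit [DecidableEq σ] [Fintype σ] in
theorem sc_one (π : R K σ →ₐ[K] Matrix ι ι E) (g : E →ₐ[K] E) (hg : ∀ y, g y = y) (a : σ → E) :
    sc π g a 1 = π := by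
  apply R_ext <;> intro i <;> ext u v <;> simp [sc, mkR_l, mkR_r, hg]

omit [DecidableEq σ] [Fintype σ] in
theorem sc_zero (π : R K σ →ₐ[K] Matrix ι ι E) (g : E →ₐ[K] F) (a : σ → K) :
    sc π g (fun i => algebraMap K F (a i)) 0 = (Algebra.ofId K _).comp (ee a) := by
  apply R_ext <;> intro i <;>
    simp [sc, mkR_l, mkR_r, ee_l, ee_r, Algebra.ofId_apply, Algebra.algebraMap_eq_smul_one]

omit [DecidableEq σ] [Fintype σ] in
theorem sc_dvd (π : R K σ →ₐ[K] Matrix ι ι E) (a : σ → K) (y : R K σ) (hy : ee a y = 0) :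
    ∃ z, sc π (CAlgHom : E →ₐ[K] E[X]) (fun i => algebraMap K _ (a i)) X y = (X : E[X]) • z := by
  let h : E[X] →ₐ[K] E := eval₂AlgHom (AlgHom.id K E) 0 fun _ => Commute.all _ _
  have h1 := AlgHom.congr_fun (sc_map π CAlgHom (fun i => algebraMap K E[X] (a i)) X h) y
  have h2 : h X = 0 := by simp [h]
  simp only [AlgHom.commutes, h2] at h1
  rw [sc_zero, AlgHom.comp_apply, AlgHom.comp_apply, hy, map_zero] at h1
  have h3 : ∀ u v, X ∣ sc π (CAlgHom : E →ₐ[K] E[X]) (fun i => algebraMap K _ (a i)) X y u v := by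
    intro u v
    have := congrFun (congrFun h1 u) v
    rw [X_dvd_iff, coeff_zero_eq_eval_zero]
    exact this
  choose z hz using h3
  exact ⟨Matrix.of z, by ext u v : 2; rw [hz]; rfl⟩

end scale

theorem unit_det {φ : A K σ →ₐ[K] A K σ} (hφ : Good φ) {E : Type*} [CommRing E] [IsDomain E]
    [Algebra K E] (π : R K σ →ₐ[K] Matrix ι ι E) : IsUnit (blk π (J φ)).det := by
  let g0 : E →ₐ[K] (MvPolynomial σ E)[X] :=
    (CAlgHom : MvPolynomial σ E →ₐ[K] _).comp (IsScalarTower.toAlgHom K E (MvPolynomial σ E))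
  let N := (blk (sc π g0 (fun i => C (MvPolynomial.X i)) X) (J φ)).det.natDegree
  let πa : (σ → K) → R K σ →ₐ[K] Matrix ι ι E[X] := fun a =>
    sc π (CAlgHom : E →ₐ[K] E[X]) (fun i => algebraMap K _ (a i)) X
  have hN : ∀ a, (blk (πa a) (J φ)).det.natDegree ≤ N := by
    intro a
    let h : (MvPolynomial σ E)[X] →ₐ[K] E[X] := Polynomial.mapAlgHom
      ((MvPolynomial.aeval fun i => algebraMap K E (a i)).restrictScalars K)
    have h1 : πa a = h.mapMatrix.comp (sc π g0 (fun i => C (MvPolynomial.X i)) X) := by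
      rw [sc_map]
      simp only [πa]
      congr 1
      · ext y : 1
        simp [h, g0]
      · ext i : 1
        simp [h]
      · simp [h]
    rw [h1, blk_map]
    exact natDegree_map_le
  have key : ∃ a u c, IsUnit u ∧ (blk (πa a) (J φ)).det = u * (1 + X ^ (N + 1) * c) := by
    obtain ⟨ψ, α, h | h, hψ⟩ := hφ (N + 1 + 1) (by omega)
    · obtain ⟨c, hc⟩ := det_cong X (πa 0) (fun i => sc_dvd π 0 _ (by simp [ee_l]))
        (fun i => sc_dvd π 0 _ (by simp [ee_r])) _ ψ hψ
      refine ⟨0, _, c, unit_aut ((πa 0).comp (env ψ)) α, ?_⟩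
      rw [h, J_comp, map_mul, Matrix.det_mul, hc, blk_comp]
    · let ε : A K σ →ₐ[K] K := FreeAlgebra.lift K 0
      let a : σ → K := fun i => ε (α.symm (x i))
      have ha : ∀ i, FreeAlgebra.lift K a (α (x i)) = 0 := by
        intro i
        have : FreeAlgebra.lift K a = ε.comp α.symm := by
          ext i
          simp [a]
        rw [this]
        simp [ε]
      obtain ⟨c, hc⟩ := det_cong X ((πa a).comp (env α))
        (fun i => sc_dvd π a (env α _) (by rw [env_l, ee_l]; exact ha i))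
        (fun i => sc_dvd π a (env α _) (by rw [env_r, ee_r]; exact ha i)) _ ψ hψ
      refine ⟨a, _, c, unit_aut (πa a) α, ?_⟩
      rw [h, J_comp, map_mul, Matrix.det_mul, ← blk_comp, hc, mul_comm]
  obtain ⟨a, u, c, hu, h⟩ := key
  have h0 : (blk (πa a) (J φ)).det - u = 0 := by
    apply eq_zero_of_dvd_of_natDegree_lt (p := X ^ (N + 1)) ⟨u * c, by rw [h]; ring⟩
    have := natDegree_sub_le (blk (πa a) (J φ)).det u
    rw [natDegree_eq_zero_of_isUnit hu] at this
    have := hN a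
    rw [natDegree_X_pow]
    omega
  rw [← sub_eq_zero.1 h0] at hu
  let e : E[X] →ₐ[K] E := eval₂AlgHom (AlgHom.id K E) 1 fun _ => Commute.all _ _
  have h1 := hu.map e
  rw [← blk_map, sc_map] at h1
  have h2 : e X = 1 := by simp [e]
  rwa [h2, sc_one π _ (fun y => by simp [e])] at h1

end Pool.Agent.H75.FreeJac
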