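import Mathlib
import Pool.Agent.H75.FreeJac2
import Pool.Agent.H75.SkewOre

/-! Separating elements of the enveloping algebra by division rings with matrix models. -/

set_option autoImplicit false

namespace Pool.Agent.H75.FreeJac

open scoped TensorProduct Kronecker nonZeroDivisors
open MulOpposite

theorem rec_bound {D : Type*} [DivisionRing D] {s : Type*} [Fintype s] [DecidableEq s] (e : ℕ)
    (P : ℕ → Matrix s s D) (hP : IsUnit (P 0)) (v : ℕ → s → D)
    (hrec : ∀ j, ∑ k ∈ Finset.range (e + 1), Matrix.vecMul (v (j + e - k)) (P k) = 0)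
    (j0 : ℕ) (h0 : ∀ j, j0 ≤ j → v j = 0) (j : ℕ) (hj : e * Fintype.card s ≤ j) : v j = 0 := by
  let W : Submodule D (ℕ → s → D) :=
    { carrier := {w | ∀ j, ∑ k ∈ Finset.range (e + 1), Matrix.vecMul (w (j + e - k)) (P k) = 0}
      add_mem' := fun {a b} ha hb j => by
        simp only [Pi.add_apply, Matrix.add_vecMul, Finset.sum_add_distrib, ha j, hb j, add_zero]
      zero_mem' := fun j => by simp
      smul_mem' := fun c a ha j => by
        simp only [Pi.smul_apply, Matrix.smul_vecMul, ← Finset.smul_sum, ha j, smul_zero] }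
  let r : W →ₗ[D] (Fin e → s → D) :=
    LinearMap.pi fun i => (LinearMap.proj (i : ℕ)) ∘ₗ W.subtype
  have hr : Function.Injective r := by
    rw [injective_iff_map_eq_zero]
    intro w hw
    ext1
    funext n
    induction n using Nat.strong_induction_on with
    | _ n ih =>
    by_cases hn : n < e
    · exact congrFun hw ⟨n, hn⟩
    · obtain ⟨j, rfl⟩ := Nat.exists_eq_add_of_le' (not_lt.1 hn)
      have h1 := w.2 j
      rw [Finset.sum_range_succ', Finset.sum_eq_zero, zero_add, Nat.sub_zero] at h1
      · obtain ⟨u, hu⟩ := hP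
        have := congrArg (fun y => Matrix.vecMul y (↑u⁻¹ : Matrix s s D)) h1
        simpa [Matrix.vecMul_vecMul, ← hu] using this
      · intro k hk
        rw [ih _ (by have := Finset.mem_range.1 hk; omega)]
        simp
  have : FiniteDimensional D W := FiniteDimensional.of_injective r hr
  have hd : Module.finrank D W ≤ e * Fintype.card s := by
    simpa [Module.finrank_pi_fintype] using LinearMap.finrank_le_finrank_of_injective hr
  let S : Module.End D W := LinearMap.codRestrict W
    ((LinearMap.funLeft D (s → D) Nat.succ) ∘ₗ W.subtype) fun w j => by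
      refine Eq.trans (Finset.sum_congr rfl fun k hk => ?_) (w.2 (j + 1))
      have := Finset.mem_range.1 hk
      change Matrix.vecMul (w.1 (j + e - k + 1)) _ = _
      rw [show j + e - k + 1 = j + 1 + e - k by omega]
  have hS : ∀ m (w : W) n, ((S ^ m) w).1 n = w.1 (n + m) := by
    intro m
    induction m with
    | zero => intro w n; rfl
    | succ m ih =>
      intro w n
      rw [pow_succ, Module.End.mul_apply, ih]
      rfl
  have h1 : (⟨v, hrec⟩ : W) ∈ LinearMap.ker (S ^ j0) := by
    rw [LinearMap.mem_ker]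
    ext1
    funext n
    rw [hS]
    exact h0 _ (by omega)
  have h2 := Module.End.ker_pow_le_ker_pow_finrank S j0 h1
  rw [← Module.End.ker_pow_eq_ker_pow_finrank_of_le (hd.trans hj), LinearMap.mem_ker] at h2
  have := hS j ⟨v, hrec⟩ 0
  rw [h2, zero_add] at this
  exact this.symm

theorem exists_kappa {K L Γ G : Type*} [Field K] [Field L] [Algebra K L] [CommGroup Γ]
    [MulSemiringAction Γ L] [SMulCommClass Γ K L] [AddCommGroup G] [Fintype G] [DecidableEq G]
    (q : Γ → G) (q1 : q 1 = 0) (qm : ∀ a b, q (a * b) = q a + q b) (θ : G → L →ₐ[K] L)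
    (θ0 : ∀ c, θ 0 c = c) (θq : ∀ g γ c, θ (g + q γ) c = θ g (γ • c)) :
    ∃ κ : SkewMonoidAlgebra L Γ →ₐ[K] Matrix G G (MonoidAlgebra L Γ),
      (∀ y, κ y = 0 → y = 0) ∧ ∀ γ c g h, κ (SkewMonoidAlgebra.single γ c) g h =
        if h = g + q γ then MonoidAlgebra.single γ (θ g c) else 0 := by
  let f : L →ₐ[K] Matrix G G (MonoidAlgebra L Γ) := (Matrix.diagonalAlgHom K).comp
    (AlgHom.pi fun g => (MonoidAlgebra.singleOneAlgHom).comp (θ g))
  have hf : ∀ c, f c = Matrix.diagonal fun g => MonoidAlgebra.single 1 (θ g c) := fun c => rfl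
  let gm : Γ →* Matrix G G (MonoidAlgebra L Γ) :=
    { toFun := fun γ => Matrix.of fun g h => if h = g + q γ then MonoidAlgebra.single γ 1 else 0
      map_one' := by
        ext g h : 2
        simp [q1, Matrix.one_apply, eq_comm, MonoidAlgebra.one_def]
      map_mul' := fun a b => by
        refine Matrix.ext fun g h => ?_
        rw [Matrix.mul_apply, Finset.sum_eq_single (g + q a) (fun b _ hb => by simp [hb]) (by simp)]
        simp [qm, add_assoc, MonoidAlgebra.single_mul_single] }
  have hg : ∀ γ g h, gm γ g h = if h = g + q γ then MonoidAlgebra.single γ 1 else 0 :=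
    fun _ _ _ => rfl
  let κ := SkewMonoidAlgebra.liftNCAlgHom f gm fun {c γ} => by
    ext g h : 2
    rw [hf, hf, Matrix.diagonal_mul, Matrix.mul_diagonal, hg]
    split_ifs with hh
    · rw [hh, θq, mul_comm]
    · simp
  have hκ : ∀ γ c g h, κ (SkewMonoidAlgebra.single γ c) g h =
      if h = g + q γ then MonoidAlgebra.single γ (θ g c) else 0 := by
    intro γ c g h
    have : κ (SkewMonoidAlgebra.single γ c) = f c * gm γ :=
      SkewMonoidAlgebra.liftNC_single _ _ _ _
    rw [this, hf, Matrix.diagonal_mul, hg]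
    split_ifs <;> simp [MonoidAlgebra.single_mul_single]
  refine ⟨κ, fun y hy => ?_, hκ⟩
  have key : ∀ y γ, (∑ h, κ y 0 h).coeff γ = y.coeff γ := by
    intro y γ
    induction y using SkewMonoidAlgebra.induction_on with
    | zero => simp
    | single g a => simp [hκ, θ0]
    | add f g hf hg =>
      simp only [map_add, Matrix.add_apply, Finset.sum_add_distrib, MonoidAlgebra.coeff_add,
        SkewMonoidAlgebra.coeff_add, Finsupp.add_apply, hf, hg]
  ext γ
  rw [← key, hy]
  simp

universe u
variable {K : Type u} [Field K] {σ : Type}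

section shift
variable {Z : Type} [Fintype Z] [DecidableEq Z] [Add Z] [One Z]
variable {C : Type*} [CommRing C] [Algebra K C]

/-- Weighted shift matrices. -/
def sh (α : σ → Z → C) (i : σ) : Matrix Z Z C :=
  Matrix.of fun g h => if h = g + 1 then α i g else 0

/-- The weighted shift representation. -/
noncomputable def W (α β : σ → Z → C) : R K σ →ₐ[K] Matrix (Z × Z) (Z × Z) C :=
  mkR (fun i => sh α i ⊗ₖ (1 : Matrix Z Z C)) (fun i => (1 : Matrix Z Z C) ⊗ₖ sh β i)
    fun i j => by simp [Commute, SemiconjBy, ← Matrix.mul_kronecker_mul]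

theorem W_map {F : Type*} [CommRing F] [Algebra K F] (α β : σ → Z → C) (h : C →ₐ[K] F) :
    h.mapMatrix.comp (W α β) = W (fun i z => h (α i z)) (fun i z => h (β i z)) := by
  apply R_ext <;> intro i <;> ext a b <;>
    simp [W, mkR_l, mkR_r, sh, Matrix.one_apply, apply_ite h]

theorem W_tmul (α β : σ → Z → K) (p q : A K σ) (a b : Z × Z) :
    W α β (p ⊗ₜ op q) a b = FreeAlgebra.lift K (sh α) p a.1 b.1 * rl (sh β) (op q) a.2 b.2 := by
  have : W α β = (Matrix.kroneckerAlgEquiv Z Z K).toAlgHom.comp
      (Algebra.TensorProduct.map (FreeAlgebra.lift K (sh α)) (rl (sh β))) := by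
    apply R_ext <;> intro i <;> simp [W, mkR_l, mkR_r, rl_x]
  rw [this]
  simp

end shift

theorem rl_word {S : Type*} [Ring S] [Algebra K S] (b : σ → S) (w : List σ) :
    rl b (op (w.map (FreeAlgebra.ι K)).prod) =
      FreeAlgebra.lift K b (w.reverse.map (FreeAlgebra.ι K)).prod := by
  induction w with
  | nil => simp
  | cons i w ih =>
    rw [List.map_cons, List.prod_cons, op_mul, map_mul, ih, rl_x]
    simp

theorem path [DecidableEq σ] (M : ℕ) [NeZero M] (u0 : List σ) (hM : u0.length < M) (u : List σ)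
    (k : ℕ) (hk : k ≤ u0.length) :
    FreeAlgebra.lift K (sh fun i (z : ZMod M) => if u0[z.val]? = some i then (1 : K) else 0)
      (u.map (FreeAlgebra.ι K)).prod (k : ZMod M) (u0.length : ZMod M) =
      if u = u0.drop k then 1 else 0 := by
  induction u generalizing k with
  | nil =>
    rw [List.map_nil, List.prod_nil, map_one, Matrix.one_apply]
    refine if_congr ?_ rfl rfl
    rw [eq_comm (a := ([] : List σ)), List.drop_eq_nil_iff]
    constructor
    · intro h
      have := congrArg ZMod.val h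
      rw [ZMod.val_cast_of_lt (by omega), ZMod.val_cast_of_lt hM] at this
      omega
    · intro h
      rw [le_antisymm hk h]
  | cons i u ih =>
    rw [List.map_cons, List.prod_cons, map_mul, FreeAlgebra.lift_ι_apply, Matrix.mul_apply]
    simp only [sh, Matrix.of_apply, ite_mul, zero_mul, Finset.sum_ite_eq', Finset.mem_univ,
      if_true, one_mul]
    rw [ZMod.val_cast_of_lt (by omega)]
    rcases hk.lt_or_eq with h | h
    · have := ih (k + 1) h
      rw [Nat.cast_succ] at this
      erw [this]
      rw [ List.drop_eq_getElem_cons h, List.getElem?_eq_getElem h]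
      simp only [Option.some.injEq, List.cons.injEq, ← ite_and]
      refine if_congr ?_ rfl rfl
      rw [eq_comm]
    · subst h
      simp

theorem basis_word (w : FreeMonoid σ) :
    FreeAlgebra.basisFreeMonoid K σ w = (w.toList.map (FreeAlgebra.ι K)).prod := by
  simp [FreeAlgebra.basisFreeMonoid, FreeAlgebra.equivMonoidAlgebraFreeMonoid,
    FreeMonoid.lift_apply]

theorem exists_W (y : R K σ) (hy : y ≠ 0) :
    ∃ (M : ℕ) (α β : σ → ZMod (M + 1) → K), W α β y ≠ 0 := by
  classical
  let b := (FreeAlgebra.basisFreeMonoid K σ).tensorProduct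
    ((FreeAlgebra.basisFreeMonoid K σ).map (opLinearEquiv K))
  obtain ⟨⟨u0, v0⟩, h⟩ : ∃ i, b.coord i y ≠ 0 := by
    by_contra! h
    exact hy (b.forall_coord_eq_zero_iff.1 h)
  let M := max u0.toList.length v0.toList.reverse.length
  let α : σ → ZMod (M + 1) → K := fun i z => if u0.toList[z.val]? = some i then 1 else 0
  let β : σ → ZMod (M + 1) → K := fun i z => if v0.toList.reverse[z.val]? = some i then 1 else 0
  refine ⟨M, α, β, fun h0 => h ?_⟩
  have : b.coord (u0, v0) = Matrix.entryLinearMap K K (((0 : ℕ), (0 : ℕ)) : ZMod (M + 1) × ZMod (M + 1))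
      ((u0.toList.length, v0.toList.reverse.length) : ZMod (M + 1) × ZMod (M + 1)) ∘ₗ
        (W α β).toLinearMap := by
    refine b.ext fun ⟨u, v⟩ => ?_
    rw [Module.Basis.coord_apply, b.repr_self, Finsupp.single_apply]
    simp only [b, Module.Basis.tensorProduct_apply, Module.Basis.map_apply, coe_opLinearEquiv,
      LinearMap.comp_apply, AlgHom.toLinearMap_apply, Matrix.entryLinearMap_apply, W_tmul,
      basis_word, rl_word]
    rw [path _ _ (by omega) _ _ (Nat.zero_le _), path _ _ (by omega) _ _ (Nat.zero_le _)]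
    simp only [List.drop_zero, List.reverse_inj, Prod.mk.injEq, ite_and,
      FreeMonoid.toList.injective.eq_iff]
    split_ifs <;> simp
  rw [this, LinearMap.comp_apply, AlgHom.toLinearMap_apply, h0]
  simp

section sep
variable (K σ) (M : ℕ)

abbrev VV : Type := (σ × ZMod (M + 1)) ⊕ (σ × ZMod (M + 1))
abbrev PP : Type u := MvPolynomial (VV σ M) K
abbrev GG : Type := ZMod (M + 1) × ZMod (M + 1)
abbrev Gam : Type := Multiplicative (ℤ × ℤ)

/-- A rational function field with a shift action. -/
def LL : Type u := FractionRing (PP K σ M)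

noncomputable instance : Field (LL K σ M) := inferInstanceAs (Field (FractionRing (PP K σ M)))
noncomputable instance : Algebra (PP K σ M) (LL K σ M) :=
  inferInstanceAs (Algebra (PP K σ M) (FractionRing (PP K σ M)))
noncomputable instance : Algebra K (LL K σ M) :=
  inferInstanceAs (Algebra K (FractionRing (PP K σ M)))
instance : IsScalarTower K (PP K σ M) (LL K σ M) :=
  inferInstanceAs (IsScalarTower K (PP K σ M) (FractionRing (PP K σ M)))
instance : IsFractionRing (PP K σ M) (LL K σ M) :=
  inferInstanceAs (IsFractionRing (PP K σ M) (FractionRing (PP K σ M)))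

variable {K σ M}

theorem LL_ext {f g : LL K σ M →ₐ[K] LL K σ M}
    (h : ∀ v, f (algebraMap (PP K σ M) _ (MvPolynomial.X v)) =
      g (algebraMap (PP K σ M) _ (MvPolynomial.X v))) : f = g := by
  apply AlgHom.coe_ringHom_injective
  refine IsLocalization.ringHom_ext (PP K σ M)⁰ (MvPolynomial.ringHom_ext (fun c => ?_) h)
  have : algebraMap (PP K σ M) (LL K σ M) (MvPolynomial.C c) = algebraMap K _ c :=
    (IsScalarTower.algebraMap_apply K (PP K σ M) (LL K σ M) c).symm
  simp [this]

def act (g : GG M) : VV σ M ≃ VV σ M :=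
  Equiv.sumCongr (Equiv.prodCongr (Equiv.refl σ) (Equiv.addRight g.1))
    (Equiv.prodCongr (Equiv.refl σ) (Equiv.addRight g.2))

noncomputable def th (g : GG M) : LL K σ M →ₐ[K] LL K σ M :=
  (IsFractionRing.algEquivOfAlgEquiv (MvPolynomial.renameEquiv K (act (σ := σ) g)) :
    LL K σ M ≃ₐ[K] LL K σ M)

theorem th_X (g : GG M) (v : VV σ M) :
    th g (algebraMap (PP K σ M) (LL K σ M) (MvPolynomial.X v)) =
      algebraMap (PP K σ M) _ (MvPolynomial.X (act g v)) := by
  simp [th]

theorem th_zero : th (0 : GG M) = AlgHom.id K (LL K σ M) :=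
  LL_ext fun v => by
    rw [th_X]
    rcases v with v | v <;> simp [act]

theorem th_add (g h : GG M) : th (g + h) = (th g).comp (th h : LL K σ M →ₐ[K] _) :=
  LL_ext fun v => by
    rw [AlgHom.comp_apply, th_X, th_X, th_X]
    rcases v with ⟨i, z⟩ | ⟨i, z⟩ <;> simp [act, add_assoc, add_comm g.1, add_comm g.2]

variable (M) in
def qq (γ : Gam) : GG M := ((γ.toAdd.1 : ZMod (M + 1)), (γ.toAdd.2 : ZMod (M + 1)))

theorem qq_mul (a b : Gam) : qq M (a * b) = qq M a + qq M b := by simp [qq]

theorem qq_one : qq M 1 = 0 := by simp [qq]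

noncomputable instance : MulSemiringAction Gam (LL K σ M) where
  smul g c := th (qq M g) c
  one_smul c := by
    change th (qq M 1) c = c
    rw [qq_one, th_zero]; rfl
  mul_smul g h c := by
    change th (qq M (g * h)) c = th (qq M g) (th (qq M h) c)
    rw [qq_mul, th_add]; rfl
  smul_zero g := map_zero (th _)
  smul_add g := map_add (th _)
  smul_one g := map_one (th _)
  smul_mul g := map_mul (th _)

theorem smul_def (g : Gam) (c : LL K σ M) : g • c = th (qq M g) c := rfl

instance : SMulCommClass Gam K (LL K σ M) where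
  smul_comm g k c := by rw [smul_def, smul_def, map_smul]

end sep

theorem sep (y : R K σ) (hy : y ≠ 0) :
    ∃ (D : Type u) (_ : DivisionRing D) (Ω : Type u) (_ : Field Ω) (_ : IsAlgClosed Ω)
      (_ : Algebra K Ω) (G : Type) (_ : Fintype G) (_ : DecidableEq G) (ρ : R K σ →+* D)
      (π : R K σ →ₐ[K] Matrix G G Ω), ρ y ≠ 0 ∧ ∀ z, π z = 0 → ρ z = 0 := by
  obtain ⟨M, α, β, h⟩ := exists_W y hy
  obtain ⟨κ, hκ, hκ'⟩ := exists_kappa (K := K) (L := LL K σ M) (qq M) qq_one qq_mul th
    (fun c => by rw [th_zero]; rfl) (fun g γ c => by rw [th_add]; rfl)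
  let e1 : Gam := Multiplicative.ofAdd (1, 0)
  let e2 : Gam := Multiplicative.ofAdd (0, 1)
  let a : PP K σ M →ₐ[K] LL K σ M := IsScalarTower.toAlgHom K _ _
  have ha : ∀ g v, th g (a (MvPolynomial.X v)) = a (MvPolynomial.X (act g v)) := th_X
  let ρ0 : R K σ →ₐ[K] SkewMonoidAlgebra (LL K σ M) Gam :=
    mkR (fun i => .single e1 (a (MvPolynomial.X (.inl (i, 0)))))
      (fun i => .single e2 (a (MvPolynomial.X (.inr (i, 0))))) fun i j => by
        simp [Commute, SemiconjBy, smul_def, ha, act, qq, e1, e2, mul_comm]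
  let C := MonoidAlgebra (LL K σ M) Gam
  let α0 : σ → ZMod (M + 1) → MonoidAlgebra (PP K σ M) Gam :=
    fun i z => .single e1 (MvPolynomial.X (.inl (i, z)))
  let β0 : σ → ZMod (M + 1) → MonoidAlgebra (PP K σ M) Gam :=
    fun i z => .single e2 (MvPolynomial.X (.inr (i, z)))
  have h1 : κ.comp ρ0 = (MonoidAlgebra.mapAlgHom Gam a).mapMatrix.comp (W α0 β0) := by
    rw [W_map]
    apply R_ext <;> intro i <;> refine Matrix.ext fun g h => ?_
    · simp [ρ0, mkR_l, hκ', W, sh, ha, act, qq, e1, α0, Matrix.one_apply, Prod.ext_iff, ite_and,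
        eq_comm (a := g.2)]
      split_ifs <;> rfl
    · simp [ρ0, mkR_r, hκ', W, sh, ha, act, qq, e2, β0, Matrix.one_apply, Prod.ext_iff, ite_and,
        eq_comm (a := g.1)]
      split_ifs <;> rfl
  let ev : MonoidAlgebra (PP K σ M) Gam →ₐ[K] K :=
    (MonoidAlgebra.lift K K Gam 1).comp (MonoidAlgebra.mapAlgHom Gam
      (MvPolynomial.aeval (Sum.elim (fun p => α p.1 p.2) (fun p => β p.1 p.2))))
  have h2 : ev.mapMatrix.comp (W α0 β0) = W α β := by
    rw [W_map]
    simp [ev, α0, β0]
  have h3 : ρ0 y ≠ 0 := by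
    intro h0
    have h4 := AlgHom.congr_fun h1 y
    rw [AlgHom.comp_apply, h0, map_zero, AlgHom.comp_apply] at h4
    have h5 : W α0 β0 y = 0 := Matrix.ext fun g h =>
      MonoidAlgebra.map_injective (M := Gam) (a : PP K σ M →+ LL K σ M)
        (IsFractionRing.injective (PP K σ M) (LL K σ M))
        (((congrFun (congrFun h4 g) h).symm).trans (map_zero (MonoidAlgebra.mapAlgHom Gam a)).symm)
    rw [← h2, AlgHom.comp_apply, h5, map_zero] at h
    exact h rfl
  let Ω := AlgebraicClosure (FractionRing C)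
  let j : C →ₐ[K] Ω := IsScalarTower.toAlgHom K C Ω
  have hj : Function.Injective j :=
    (algebraMap (FractionRing C) Ω).injective.comp (IsFractionRing.injective C (FractionRing C))
  refine ⟨OreLocalization (SkewMonoidAlgebra (LL K σ M) Gam)⁰ (SkewMonoidAlgebra (LL K σ M) Gam),
    inferInstance, Ω, inferInstance, inferInstance, inferInstance, GG M, inferInstance,
    inferInstance, OreLocalization.numeratorRingHom.comp ρ0.toRingHom,
    j.mapMatrix.comp (κ.comp ρ0), fun h0 => h3 (SkewOre.numerator_inj (h0.trans (map_zero _).symm)),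
    fun z hz => ?_⟩
  have : ρ0 z = 0 := hκ _ (Matrix.ext fun g h =>
    hj ((congrFun (congrFun hz g) h).trans (map_zero j).symm))
  change OreLocalization.numeratorRingHom (ρ0 z) = 0
  rw [this, map_zero]

theorem lemmaB {s : Type*} [Fintype s] [DecidableEq s] (e : ℕ)
    (P : ℕ → Matrix s s (R K σ)) (hP : IsUnit (P 0)) (v : ℕ → s → R K σ)
    (hrec : ∀ j, ∑ k ∈ Finset.range (e + 1), Matrix.vecMul (v (j + e - k)) (P k) = 0)
    (h0 : ∀ (Ω : Type u) [Field Ω] [IsAlgClosed Ω] [Algebra K Ω] (G : Type) [Fintype G]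
      [DecidableEq G] (π : R K σ →ₐ[K] Matrix G G Ω), ∃ j0, ∀ j, j0 ≤ j → ∀ a, π (v j a) = 0)
    (j : ℕ) (hj : e * Fintype.card s ≤ j) : v j = 0 := by
  funext a
  by_contra hne
  obtain ⟨D, _, Ω, _, _, _, G, _, _, ρ, π, h1, h2⟩ := sep _ hne
  obtain ⟨j0, hj0⟩ := h0 Ω G π
  refine h1 (congrFun (rec_bound e (fun k => ρ.mapMatrix (P k)) (hP.map _)
    (fun j a => ρ (v j a)) (fun j => ?_) j0 (fun j hj => funext fun a => h2 _ (hj0 j hj a)) j hj) a)
  funext b
  have := congrArg ρ (congrFun (hrec j) b)
  simpa [Finset.sum_apply, Matrix.vecMul, dotProduct] using this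

end Pool.Agent.H75.FreeJac

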