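import Mathlib
import Pool.Agent.H75.FreeJac3

/-! The Jacobian matrix of a good endomorphism is invertible over the enveloping algebra. -/

set_option autoImplicit false

namespace Pool.Agent.H75.FreeJac

open scoped TensorProduct
open MulOpposite Polynomial

universe u
variable {K : Type u} [Field K] {σ : Type}

/-- The scaling homomorphism. -/
noncomputable def tau : R K σ →ₐ[K] (R K σ)[X] :=
  mkR (S := (R K σ)[X]) (fun i => monomial 1 (x i ⊗ₜ 1)) (fun i => monomial 1 (1 ⊗ₜ op (x i)))
    fun i j => by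
    simp [Commute, SemiconjBy, monomial_mul_monomial]

theorem tau_one (y : R K σ) : (tau y).eval₂ (RingHom.id _) 1 = y := by
  have : (eval₂AlgHom (AlgHom.id K (R K σ)) 1 fun _ => Commute.one_right _).comp tau =
      AlgHom.id K _ := by
    apply R_ext <;> intro i <;> simp [tau, mkR_l, mkR_r]
  exact AlgHom.congr_fun this y

theorem tau_zero (y : R K σ) : (tau y).coeff 0 = algebraMap K _ (ee 0 y) := by
  have : (eval₂AlgHom (AlgHom.id K (R K σ)) 0 fun _ => Commute.zero_right _).comp tau =
      (Algebra.ofId K _).comp (ee 0) := by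
    apply R_ext <;> intro i <;> simp [tau, mkR_l, mkR_r, ee_l, ee_r]
  rw [coeff_zero_eq_eval_zero]
  exact AlgHom.congr_fun this y

theorem unit_of_series {T : Type*} [Ring T] (P U : PowerSeries T) (e N : ℕ)
    (hP : ∀ k, e ≤ k → P.coeff k = 0) (hU : ∀ k, N ≤ k → U.coeff k = 0)
    (h1 : P * U = 1) (h2 : U * P = 1) : IsUnit (∑ k ∈ Finset.range e, P.coeff k) := by
  have key : ∀ (Q : PowerSeries T) (n : ℕ), (∀ k, n ≤ k → Q.coeff k = 0) →
      ((Q.trunc n : T[X]) : PowerSeries T) = Q := by
    intro Q n h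
    ext k
    rw [coeff_coe, PowerSeries.coeff_trunc]
    split_ifs with hk
    · rfl
    · exact (h k (not_lt.1 hk)).symm
  have h3 : IsUnit (P.trunc e) := by
    refine ⟨⟨P.trunc e, U.trunc N, ?_, ?_⟩, rfl⟩
    · rw [← coe_eq_one_iff, coe_mul, key P e hP, key U N hU, h1]
    · rw [← coe_eq_one_iff, coe_mul, key P e hP, key U N hU, h2]
  have h4 := h3.map (eval₂RingHom' (RingHom.id T) 1 fun _ => Commute.one_right _)
  rw [eval₂RingHom'_apply, PowerSeries.eval₂_trunc_eq_sum_range] at h4
  simpa using h4

variable [DecidableEq σ] [Fintype σ]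

theorem J_unit {φ : A K σ →ₐ[K] A K σ} (hφ : Good φ) : IsUnit (J φ) := by
  let P : PowerSeries (Matrix σ σ (R K σ)) :=
    PowerSeries.mk fun k => Matrix.of fun a b => (tau (J φ a b)).coeff k
  have hPc : ∀ k a b, P.coeff k a b = (tau (J φ a b)).coeff k := fun k a b => by simp [P]
  obtain ⟨e, he⟩ : ∃ e, ∀ a b, (tau (J φ a b)).natDegree < e := by
    obtain ⟨e, he⟩ := (Set.finite_range fun p : σ × σ => (tau (J φ p.1 p.2)).natDegree).bddAbove
    exact ⟨e + 1, fun a b => Nat.lt_succ_of_le (he ⟨(a, b), rfl⟩)⟩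
  have hP : ∀ k, e ≤ k → P.coeff k = 0 := fun k hk => Matrix.ext fun a b => by
    rw [hPc]
    exact coeff_eq_zero_of_natDegree_lt ((he a b).trans_le hk)
  have hP0 : IsUnit (P.coeff 0) := by
    have h := (Matrix.isUnit_iff_isUnit_det _).2
      (unit_det hφ ((Algebra.ofId K (Matrix Unit Unit K)).comp (ee 0)))
    have h2 := (h.map (Matrix.reindexAlgEquiv K K (Equiv.prodUnique σ Unit))).map
      (algebraMap K (R K σ)).mapMatrix
    convert h2 using 1
    refine Matrix.ext fun a b => ?_
    rw [hPc, tau_zero]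
    simp [blk_apply, Algebra.ofId_apply, Matrix.algebraMap_matrix_apply]
  obtain ⟨u, hu⟩ := hP0
  have hu' : PowerSeries.constantCoeff P = u := by
    rw [hu, PowerSeries.coeff_zero_eq_constantCoeff]
  let U := PowerSeries.invOfUnit P u
  have h1 : P * U = 1 := PowerSeries.mul_invOfUnit P u hu'
  have h2 : U * P = 1 := PowerSeries.invOfUnit_mul P u hu'
  have hU : ∀ k, (e + 1) * Fintype.card σ ≤ k → U.coeff k = 0 := by
    intro k hk
    refine Matrix.ext fun a => congrFun ?_
    refine lemmaB (e + 1) (fun k => P.coeff k) ⟨u, hu⟩ (fun j => U.coeff j a) (fun j => ?_)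
      ?_ k hk
    · have h3 := congrArg (fun Q : PowerSeries (Matrix σ σ (R K σ)) =>
        PowerSeries.coeff (j + (e + 1)) Q a) h2
      simp only [PowerSeries.coeff_mul, PowerSeries.coeff_one] at h3
      rw [if_neg (by omega), Finset.Nat.sum_antidiagonal_swap.symm,
        Finset.Nat.sum_antidiagonal_eq_sum_range_succ_mk,
        ← Finset.sum_subset (Finset.range_subset_range.2 (show e + 1 + 1 ≤ _ by omega))
          (fun k _ hk => by
            rw [Prod.snd_swap, hP k (by simp at hk; omega), mul_zero])] at h3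
      funext b
      have h4 := congrFun h3 b
      rw [Matrix.sum_apply] at h4
      rw [Finset.sum_apply]
      exact h4
    · intro Ω _ _ _ G _ _ π
      let πt : R K σ →ₐ[K] Matrix G G (Polynomial Ω) :=
        ((matPolyEquiv (n := G) (R := Ω)).symm.toAlgHom.restrictScalars K).comp
          ((Polynomial.mapAlgHom π).comp tau)
      have h3 := ((Matrix.isUnit_iff_isUnit_det _).2 (unit_det hφ πt)).map matPolyEquiv
      obtain ⟨w, hw⟩ := h3.exists_right_inv
      have h4 : ((matPolyEquiv (blk πt (J φ)) : (Matrix (σ × G) (σ × G) Ω)[X]) :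
          PowerSeries (Matrix (σ × G) (σ × G) Ω)) = PowerSeries.map (blk π) P := by
        ext k a b
        simp [blk_apply, hPc, πt]
      have h5 : PowerSeries.map (blk π) U = w := by
        rw [← mul_one (PowerSeries.map (blk π) U), ← coe_one, ← hw, coe_mul, h4, ← mul_assoc,
          ← map_mul, h2, map_one, one_mul]
      refine ⟨w.natDegree + 1, fun j hj b => Matrix.ext fun g h => ?_⟩
      have h6 := congrArg (fun Q : PowerSeries (Matrix (σ × G) (σ × G) Ω) =>
        PowerSeries.coeff j Q (a, g) (b, h)) h5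
      simp only [PowerSeries.coeff_map, coeff_coe, blk_apply,
        coeff_eq_zero_of_natDegree_lt (show w.natDegree < j by omega)] at h6
      exact h6
  convert unit_of_series P U e _ hP hU h1 h2 using 1
  refine Matrix.ext fun a b => ?_
  rw [← tau_one (J φ a b), eval₂_eq_sum_range' _ (he a b), Matrix.sum_apply]
  simp [hPc]

end Pool.Agent.H75.FreeJac
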