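import Mathlib
import Pool.Agent.H75.FreeJac4

/-! An endomorphism of a free algebra with invertible Jacobian matrix is an automorphism. -/

set_option autoImplicit false

namespace Pool.Agent.H75.FreeJac

open scoped TensorProduct
open MulOpposite Matrix

universe u
variable {K : Type u} [Field K] {σ : Type}

/-- The augmentation. -/
noncomputable abbrev aug : A K σ →ₐ[K] K := FreeAlgebra.lift K 0

theorem lift_x (p : A K σ) : FreeAlgebra.lift K x p = p := by
  have : FreeAlgebra.lift K x = AlgHom.id K (A K σ) := by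
    ext i
    simp
  rw [this, AlgHom.id_apply]

theorem vanish (S : Set (A K σ))
    (hS : ∀ p ∈ S, p ∈ AddSubmonoid.closure {r | ∃ q ∈ S, ∃ g, aug g = 0 ∧ r = q * g})
    (p : A K σ) (hp : p ∈ S) : p = 0 := by
  have key : ∀ m, ∀ p ∈ S, ∀ k < m, (tau (p ⊗ₜ 1 : R K σ)).coeff k = 0 := by
    intro m
    induction m with
    | zero => intro p _ k hk; omega
    | succ m ih =>
      intro p hp k hk
      have h := hS p hp
      clear hp
      induction h using AddSubmonoid.closure_induction with
      | mem r hr =>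
        obtain ⟨q, hq, g, hg, rfl⟩ := hr
        rw [l_mul, map_mul, Polynomial.coeff_mul]
        refine Finset.sum_eq_zero fun ⟨a, b⟩ hab => ?_
        have : a + b = k := by simpa using hab
        rcases Nat.eq_zero_or_pos b with rfl | hb
        · rw [tau_zero, ee_l, hg, map_zero, mul_zero]
        · rw [ih q hq a (by omega), zero_mul]
      | zero => simp
      | add a b _ _ ha hb => rw [TensorProduct.add_tmul, map_add, Polynomial.coeff_add, ha, hb,
          add_zero]
  have h1 : tau (p ⊗ₜ 1 : R K σ) = 0 := Polynomial.ext fun k => key (k + 1) p hp k (by omega)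
  have h2 := tau_one (p ⊗ₜ 1 : R K σ)
  rw [h1, Polynomial.eval₂_zero] at h2
  have h3 := congrArg (mkR (K := K) x (fun _ => (0 : A K σ)) fun _ _ => Commute.zero_right _) h2
  simpa [mkR, lift_x] using h3.symm

/-- Augmenting the second tensor factor. -/
noncomputable def lam : R K σ →ₐ[K] A K σ := mkR x (fun _ => 0) fun _ _ => Commute.zero_right _

theorem lam_tmul (p q : A K σ) : lam (p ⊗ₜ op q) = aug q • p := by
  have : (rl fun _ => (0 : A K σ)) = (Algebra.ofId K _).comp (rl (0 : σ → K)) :=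
    op_ext fun i => by simp [rl_x]
  simp [lam, mkR, this, rl_comm, Algebra.ofId_apply, Algebra.smul_def, Algebra.commutes, lift_x]

theorem lam_l (p : A K σ) : lam (p ⊗ₜ 1) = p := by
  rw [← op_one, lam_tmul, map_one, one_smul]

theorem lam_r (q : A K σ) : lam (1 ⊗ₜ op q) = algebraMap K _ (aug q) := by
  rw [lam_tmul, Algebra.algebraMap_eq_smul_one]

theorem fin_left (z : R K σ) : ∃ V : Submodule K (A K σ), V.FG ∧
    ∀ L : (A K σ)ᵐᵒᵖ →ₗ[K] (A K σ)ᵐᵒᵖ, lam (L.lTensor (A K σ) z) ∈ V := by
  induction z using TensorProduct.induction_on with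
  | zero => exact ⟨⊥, Submodule.fg_bot, fun L => by simp⟩
  | tmul a b =>
    refine ⟨K ∙ a, Submodule.fg_span_singleton a, fun L => ?_⟩
    rw [LinearMap.lTensor_tmul, ← op_unop (L b), lam_tmul]
    exact Submodule.smul_mem _ _ (Submodule.mem_span_singleton_self a)
  | add y z hy hz =>
    obtain ⟨V, hV, h1⟩ := hy
    obtain ⟨V', hV', h2⟩ := hz
    refine ⟨V ⊔ V', hV.sup hV', fun L => ?_⟩
    rw [map_add, map_add]
    exact Submodule.add_mem_sup (h1 L) (h2 L)

variable [DecidableEq σ] [Fintype σ] {φ : A K σ →ₐ[K] A K σ} {U : Matrix σ σ (R K σ)}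

theorem delta_x (hU : U * J φ = 1) (j : σ) : (x j ⊗ₜ 1 - 1 ⊗ₜ op (x j) : R K σ) =
    ∑ k, U j k * (φ (x k) ⊗ₜ 1 - 1 ⊗ₜ op (φ (x k))) := by
  have h : ∀ i, ∑ k, U j k * dd i (φ (x k)) = if j = i then 1 else 0 := fun i => by
    have := congrFun (congrFun hU j) i
    rwa [Matrix.mul_apply, Matrix.one_apply] at this
  simp only [delta (φ _), Finset.mul_sum, ← mul_assoc]
  rw [Finset.sum_comm]
  simp [← Finset.sum_mul, h]

theorem inj_pts (hU : U * J φ = 1) {B : Type*} [Ring B] [Algebra K B] (χ χ' : A K σ →ₐ[K] B)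
    (h : ∀ k, χ (φ (x k)) = χ' (φ (x k))) (j : σ) : χ (x j) = χ' (x j) := by
  let π : R K σ →ₐ[K] Module.End K B :=
    (AlgHom.mulLeftRight K B).comp (Algebra.TensorProduct.map χ (AlgHom.op χ'))
  have h1 := congrArg (fun z => π z 1) (delta_x hU j)
  simp only [map_sum, map_mul, map_sub, LinearMap.sum_apply, Module.End.mul_apply,
    LinearMap.sub_apply, π, AlgHom.comp_apply, Algebra.TensorProduct.map_tmul,
    AlgHom.mulLeftRight_apply] at h1
  simpa [h, sub_eq_zero] using h1

theorem ax_surj (hU : U * J φ = 1) {F : Type*} [Field F] [IsAlgClosed F] [Algebra K F]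
    {κ : Type} [Fintype κ] [DecidableEq κ] (Y : σ → Matrix κ κ F) :
    ∃ χ : A K σ →ₐ[K] Matrix κ κ F, ∀ k, χ (φ (x k)) = Y k := by
  let gen : A K σ →ₐ[K] Matrix κ κ (MvPolynomial (σ × κ × κ) F) :=
    FreeAlgebra.lift K fun i => Matrix.of fun a b => MvPolynomial.X (i, a, b)
  let χ : (σ × κ × κ → F) → A K σ →ₐ[K] Matrix κ κ F := fun v =>
    ((MvPolynomial.aeval v).restrictScalars K).mapMatrix.comp gen
  have hχ : ∀ v p a b, χ v p a b = MvPolynomial.eval v (gen p a b) := fun v p a b => rfl
  have h := ax_grothendieck_univ (fun i : σ × κ × κ => gen (φ (x i.1)) i.2.1 i.2.2)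
    fun v w hvw => by
      funext ⟨i, a, b⟩
      have := inj_pts hU (χ v) (χ w)
        (fun k => Matrix.ext fun a b => congrFun hvw (k, a, b)) i
      simpa [hχ, gen] using congrFun (congrFun this a) b
  obtain ⟨v, hv⟩ := h fun i => Y i.1 i.2.1 i.2.2
  exact ⟨χ v, fun k => Matrix.ext fun a b => congrFun hv (k, a, b)⟩

theorem nilp (hU : U * J φ = 1) {s : Type} [Fintype s] [DecidableEq s] (v : s → A K σ)
    (e : s → K) (N : σ → s → s → K) (M : Matrix s s (A K σ))
    (hM : ∀ c a, M c a = ∑ k, N k a c • x k)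
    (hv : ∀ a, v a = algebraMap K _ (e a) + ∑ c, v c * φ (M c a))
    (m : ℕ) (hm : Fintype.card s ≤ m) : (fun a => algebraMap K _ (e a)) ᵥ* M ^ m = 0 := by
  let l : A K σ →+* R K σ := Algebra.TensorProduct.includeLeftRingHom
  have hl : ∀ p, l p = p ⊗ₜ 1 := fun p => rfl
  have h := lemmaB 1 (fun k => if k = 0 then 1 else -M.map l) (by simp)
    (fun j a => l (((fun a => algebraMap K _ (e a)) ᵥ* M ^ j) a)) (fun j => ?_) ?_ m (by omega)
  · funext a
    have := congrArg lam (congrFun h a)
    rwa [hl, lam_l, Pi.zero_apply, map_zero] at this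
  · funext a
    rw [Finset.sum_range_succ, Finset.sum_range_one, if_pos rfl, if_neg one_ne_zero,
      Matrix.vecMul_one, Matrix.vecMul_neg, Nat.sub_zero, pow_succ, ← Matrix.vecMul_vecMul]
    simp only [Pi.add_apply, Pi.neg_apply, Pi.zero_apply, Nat.add_sub_cancel]
    rw [RingHom.map_vecMul l M, add_neg_eq_zero]
    rfl
  · intro F _ _ _ G _ _ π
    let l' : A K σ →ₐ[K] Matrix G G F := π.comp Algebra.TensorProduct.includeLeft
    let Nn : Matrix s s (Matrix G G F) := M.map l'
    obtain ⟨n, hn⟩ := Filter.eventually_atTop.1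
      (LinearMap.eventually_iInf_range_pow_eq (LinearMap.mulLeft F Nn))
    obtain ⟨Gm, hG⟩ : Nn ^ n ∈ LinearMap.range (LinearMap.mulLeft F Nn ^ (n + 1)) := by
      rw [← hn (n + 1) (by omega), hn n le_rfl, LinearMap.pow_mulLeft]
      exact ⟨1, by simp⟩
    rw [LinearMap.pow_mulLeft, LinearMap.mulLeft_apply] at hG
    let Y : σ → Module.End F (s → Matrix G G F) := fun k =>
      (Matrix.vecMulLinear Gm).restrictScalars F ∘ₗ DistribSMul.toLinearMap F _ (l' (x k))
    have hY : ∀ k h, Y k h = (l' (x k) • h) ᵥ* Gm := fun k h => rfl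
    let E := LinearMap.toMatrixAlgEquiv (Module.finBasis F (s → Matrix G G F))
    obtain ⟨χ0, hχ0⟩ := ax_surj hU fun k => E (Y k)
    let χ : A K σ →ₐ[K] Module.End F (s → Matrix G G F) :=
      (E.symm.toAlgHom.restrictScalars K).comp χ0
    have hχ : ∀ k, χ (φ (x k)) = Y k := fun k => by simp [χ, hχ0]
    have h1 : ∀ c, ∑ a, χ (φ (M c a)) ((Nn ^ n) a) = (Nn ^ n) c := by
      intro c
      have h2 : ∀ a, χ (φ (M c a)) ((Nn ^ n) a) = (Nn c a • (Nn ^ n) a) ᵥ* Gm := by
        intro a
        simp only [Nn, Matrix.map_apply, hM c a, map_sum, map_smul, hχ, LinearMap.sum_apply,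
          LinearMap.smul_apply, hY, Finset.sum_smul, Matrix.sum_vecMul, smul_assoc,
          Matrix.smul_vecMul]
      simp only [h2]
      rw [← Matrix.sum_vecMul]
      conv_rhs => rw [← hG, pow_succ']
      congr 1
      funext b
      simp [Matrix.mul_apply]
    have h3 : ∑ a, e a • (Nn ^ n) a = 0 := by
      have h4 : ∑ a, χ (v a) ((Nn ^ n) a) = ∑ a, e a • (Nn ^ n) a +
          ∑ a, ∑ c, χ (v c) (χ (φ (M c a)) ((Nn ^ n) a)) := by
        rw [← Finset.sum_add_distrib]
        refine Finset.sum_congr rfl fun a _ => ?_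
        conv_lhs => rw [hv a]
        simp [Algebra.algebraMap_eq_smul_one]
      rw [Finset.sum_comm] at h4
      simp only [← map_sum, h1] at h4
      simpa using h4
    refine ⟨n, fun j hj a => ?_⟩
    obtain ⟨d, rfl⟩ := Nat.exists_eq_add_of_le hj
    change (l' : A K σ →+* Matrix G G F)
      (((fun a => algebraMap K (A K σ) (e a)) ᵥ* M ^ (n + d)) a) = 0
    rw [RingHom.map_vecMul, ← RingHom.mapMatrix_apply, map_pow, pow_add, ← Matrix.vecMul_vecMul]
    have : (((l' : A K σ →+* Matrix G G F) ∘ fun a => algebraMap K _ (e a)) ᵥ*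
        (l' : A K σ →+* Matrix G G F).mapMatrix M ^ n) = 0 := by
      rw [← h3]
      funext b
      simp [Matrix.vecMul, dotProduct, Nn, Algebra.smul_def]
    rw [this, Matrix.zero_vecMul, Pi.zero_apply]

omit [Fintype σ] in
theorem dd_alg (j : σ) (c : K) : dd j (algebraMap K (A K σ) c) = 0 := (dd_der j).alg c

theorem surj_core (hU : U * J φ = 1) (h0 : ∀ k, aug (φ (x k)) = 0) {s : Type} [Fintype s]
    [DecidableEq s] (v : s → A K σ) (e : s → K) (N : σ → s → s → K)
    (hv : ∀ a, v a = algebraMap K _ (e a) + ∑ k, (∑ c, N k a c • v c) * φ (x k)) (a : s) :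
    v a ∈ φ.range := by
  let M : Matrix s s (A K σ) := Matrix.of fun c a => ∑ k, N k a c • x k
  have hM : ∀ c a, M c a = ∑ k, N k a c • x k := fun _ _ => rfl
  have hv' : ∀ a, v a = algebraMap K _ (e a) + ∑ c, v c * φ (M c a) := by
    intro a
    rw [hv a]
    simp only [hM, map_sum, map_smul, Finset.sum_mul, Finset.mul_sum, smul_mul_assoc,
      mul_smul_comm]
    rw [Finset.sum_comm]
  let e' : s → A K σ := fun a => algebraMap K _ (e a)
  let Mf : Matrix s s (A K σ) := (φ : A K σ →+* A K σ).mapMatrix M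
  have h1 : v = e' + v ᵥ* Mf := funext hv'
  have h2 : ∀ m a, (e' ᵥ* Mf ^ m) a = φ ((e' ᵥ* M ^ m) a) := by
    intro m a
    have : e' = (φ : A K σ →+* A K σ) ∘ e' := funext fun a => (φ.commutes _).symm
    rw [← map_pow, RingHom.mapMatrix_apply]
    conv_lhs => rw [this]
    exact (RingHom.map_vecMul _ _ _ _).symm
  have h3 : ∀ m, v ᵥ* Mf ^ m = e' ᵥ* Mf ^ m + v ᵥ* Mf ^ (m + 1) := by
    intro m
    rw [pow_succ', ← Matrix.vecMul_vecMul, ← Matrix.add_vecMul, ← h1]
  have h4 : ∀ a, (v ᵥ* Mf ^ Fintype.card s) a = 0 := by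
    intro a
    refine vanish (Set.range (v ᵥ* Mf ^ Fintype.card s)) ?_ _ ⟨a, rfl⟩
    rintro _ ⟨a, rfl⟩
    have h6 : (v ᵥ* Mf ^ Fintype.card s) a = ((v ᵥ* Mf ^ Fintype.card s) ᵥ* Mf) a := by
      conv_lhs => rw [h3, Pi.add_apply, h2, nilp hU v e N M hM hv' _ le_rfl, Pi.zero_apply,
        map_zero, zero_add, pow_succ, ← Matrix.vecMul_vecMul]
    rw [h6]
    refine sum_mem fun c _ => AddSubmonoid.subset_closure ⟨_, ⟨c, rfl⟩, _, ?_, rfl⟩
    change aug (φ (M c a)) = 0
    simp [hM, h0]
  have h5 : ∀ m, (v ᵥ* Mf ^ m) a ∈ φ.range → v a ∈ φ.range := by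
    intro m
    induction m with
    | zero => simp
    | succ m ih =>
      intro h
      apply ih
      rw [h3, Pi.add_apply, h2]
      exact add_mem ⟨_, rfl⟩ h
  exact h5 _ (by rw [h4]; exact zero_mem _)

theorem bij_core (hU : U * J φ = 1) (hU' : J φ * U = 1) (h0 : ∀ k, aug (φ (x k)) = 0) :
    Function.Bijective φ := by
  let D : σ → A K σ →ₗ[K] R K σ := fun k => ∑ j, LinearMap.mulRight K (U j k) ∘ₗ dd j
  have hD : ∀ k p, D k p = ∑ j, dd j p * U j k := fun k p => by simp [D]
  have hder : ∀ k p q, D k (p * q) = (p ⊗ₜ 1) * D k q + (1 ⊗ₜ op q) * D k p := by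
    intro k p q
    simp only [hD, dd_der _ p q, AlgHom.id_apply, add_mul, Finset.sum_add_distrib, Finset.mul_sum,
      mul_assoc]
  have hDf : ∀ k m, D k (φ (x m)) = if m = k then 1 else 0 := by
    intro k m
    rw [hD, ← Matrix.one_apply, ← hU', Matrix.mul_apply]
    rfl
  have hD1 : ∀ k c, D k (algebraMap K _ c) = 0 := fun k c => by simp [hD, dd_alg]
  let T : σ → Module.End K (A K σ) := fun k => lam.toLinearMap ∘ₗ D k
  have hT : ∀ k p, T k p = lam (D k p) := fun _ _ => rfl
  have T1 : ∀ p, p = algebraMap K _ (aug p) + ∑ k, T k p * φ (x k) := by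
    intro p
    have h1 : (p ⊗ₜ 1 - 1 ⊗ₜ op p : R K σ) =
        ∑ k, D k p * (φ (x k) ⊗ₜ 1 - 1 ⊗ₜ op (φ (x k))) := by
      simp only [delta p, delta_x hU, hD, Finset.mul_sum, Finset.sum_mul, mul_assoc]
      rw [Finset.sum_comm]
    have h2 := congrArg lam h1
    simp only [map_sub, map_sum, map_mul, lam_l, lam_r, h0, map_zero, sub_zero] at h2
    rw [← sub_eq_iff_eq_add', h2]
    rfl
  have T2 : ∀ m k b, T m (b * φ (x k)) = if k = m then b else 0 := by
    intro m k b
    rw [hT, hder, map_add, map_mul, map_mul, lam_l, lam_r, h0, map_zero, zero_mul, add_zero, hDf]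
    split_ifs <;> simp
  have T0 : ∀ m c, T m (algebraMap K _ c) = 0 := fun m c => by rw [hT, hD1, map_zero]
  constructor
  · rw [injective_iff_map_eq_zero]
    refine vanish {p | φ p = 0} fun p hp => ?_
    have h1 : p = algebraMap K _ (aug p) + ∑ k, lam (dd k p) * x k := by
      have h2 := congrArg lam (delta p)
      simp only [map_sub, map_sum, map_mul, lam_l, lam_r, FreeAlgebra.lift_ι_apply, Pi.zero_apply,
        map_zero, sub_zero] at h2
      rw [← sub_eq_iff_eq_add', h2]
    have h2 := congrArg φ h1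
    rw [show φ p = 0 from hp, map_add, AlgHom.commutes, map_sum] at h2
    simp only [map_mul] at h2
    have h3 : aug p = 0 := by simpa [h0] using (congrArg aug h2).symm
    rw [h3, map_zero, zero_add] at h1
    rw [h1]
    refine sum_mem fun k _ => AddSubmonoid.subset_closure ⟨_, ?_, _, by simp, rfl⟩
    simpa [T0, T2] using (congrArg (T k) h2).symm
  · let Top : σ → (A K σ)ᵐᵒᵖ →ₗ[K] (A K σ)ᵐᵒᵖ := fun m =>
      (opLinearEquiv K).toLinearMap ∘ₗ T m ∘ₗ (opLinearEquiv K).symm.toLinearMap
    have hTop : ∀ m q, Top m (op q) = op (T m q) := fun _ _ => rfl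
    have T3 : ∀ j m p, D j (T m p) = (Top m).lTensor (A K σ) (D j p) := by
      intro j m p
      have h1 : ∀ k z, (Top m).lTensor (A K σ) ((1 ⊗ₜ op (φ (x k)) : R K σ) * z) =
          if k = m then z else 0 := by
        intro k z
        induction z using TensorProduct.induction_on with
        | zero => simp
        | tmul a b =>
          rw [Algebra.TensorProduct.tmul_mul_tmul, one_mul, LinearMap.lTensor_tmul, ← op_unop b,
            ← op_mul, hTop, T2]
          split_ifs <;> simp
        | add y z hy hz =>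
          rw [mul_add, map_add, hy, hz]
          split_ifs <;> simp
      have h2 : ∀ a : A K σ, (Top m).lTensor (A K σ) (a ⊗ₜ 1) = 0 := by
        intro a
        rw [LinearMap.lTensor_tmul, ← op_one, hTop, ← map_one (algebraMap K (A K σ)), T0]
        simp
      conv_rhs => rw [T1 p]
      simp [hD1, hder, hDf, h1, h2, apply_ite ((Top m).lTensor (A K σ))]
    have T4 : ∀ w : List σ, ∃ L : (A K σ)ᵐᵒᵖ →ₗ[K] (A K σ)ᵐᵒᵖ, ∀ j p,
        D j ((w.map T).prod p) = L.lTensor (A K σ) (D j p) := by
      intro w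
      induction w with
      | nil => exact ⟨LinearMap.id, fun j p => by simp⟩
      | cons m w ih =>
        obtain ⟨L, hL⟩ := ih
        refine ⟨Top m ∘ₗ L, fun j p => ?_⟩
        rw [List.map_cons, List.prod_cons, Module.End.mul_apply, T3, hL,
          LinearMap.lTensor_comp _ (Top m), LinearMap.comp_apply]
    choose Wz hWz hW using fun p : σ × σ => fin_left (D p.1 (x p.2))
    let V : Submodule K (A K σ) := Submodule.span K {p | ∃ (w : List σ) (i : σ),
      p = (w.map T).prod (x i)}
    have hV : V ≤ Submodule.span K (Set.range x) ⊔ ⨆ p, Wz p := by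
      rw [Submodule.span_le]
      rintro _ ⟨w, i, rfl⟩
      cases w with
      | nil => exact Submodule.mem_sup_left (Submodule.subset_span ⟨i, rfl⟩)
      | cons m w =>
        obtain ⟨L, hL⟩ := T4 w
        rw [List.map_cons, List.prod_cons, Module.End.mul_apply, hT, hL]
        exact Submodule.mem_sup_right (Submodule.mem_iSup_of_mem (m, i) (hW (m, i) L))
    have hfg : (Submodule.span K (Set.range x) ⊔ ⨆ p, Wz p).FG :=
      (Submodule.fg_span (Set.finite_range _)).sup (Submodule.fg_iSup _ hWz)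
    have : FiniteDimensional K ↥(Submodule.span K (Set.range x) ⊔ ⨆ p, Wz p) :=
      Module.Finite.iff_fg.2 hfg
    have : FiniteDimensional K V := Submodule.finiteDimensional_of_le hV
    have hTV : ∀ k, ∀ p ∈ V, T k p ∈ V := by
      intro k
      change V ≤ V.comap (T k)
      rw [Submodule.span_le]
      rintro _ ⟨w, i, rfl⟩
      exact Submodule.subset_span ⟨k :: w, i, rfl⟩
    let b := Module.finBasis K V
    have hb : ∀ a, (b a : A K σ) ∈ φ.range := surj_core hU h0 (fun a => (b a : A K σ))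
      (fun a => aug (b a : A K σ)) (fun k a c => b.repr ⟨T k (b a), hTV k _ (b a).2⟩ c) fun a => by
        refine (T1 (b a)).trans (congrArg _ (Finset.sum_congr rfl fun k _ => ?_))
        congr 1
        have := congrArg V.subtype (b.sum_repr ⟨T k (b a), hTV k _ (b a).2⟩)
        simp only [map_sum, map_smul, Submodule.subtype_apply] at this
        exact this.symm
    have hx : ∀ i, x i ∈ φ.range := by
      intro i
      have := congrArg V.subtype (b.sum_repr ⟨x i, Submodule.subset_span ⟨[], i, rfl⟩⟩)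
      simp only [map_sum, map_smul, Submodule.subtype_apply] at this
      rw [← this]
      exact sum_mem fun a _ => Subalgebra.smul_mem _ (hb a) _
    intro p
    change p ∈ φ.range
    induction p using FreeAlgebra.induction with
    | grade0 c => exact algebraMap_mem _ c
    | grade1 i => exact hx i
    | mul p q hp hq => exact mul_mem hp hq
    | add p q hp hq => exact add_mem hp hq

theorem bij_of_unit (h : IsUnit (J φ)) : Function.Bijective φ := by
  let t : (σ → K) → A K σ →ₐ[K] A K σ := fun c =>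
    FreeAlgebra.lift K fun i => x i + algebraMap K _ (c i)
  have ht : ∀ c d, (∀ i, c i + d i = 0) → (t c).comp (t d) = AlgHom.id K _ := by
    intro c d hcd
    ext i
    simp only [t, AlgHom.coe_comp, Function.comp_apply, FreeAlgebra.lift_ι_apply, map_add,
      AlgHom.commutes, AlgHom.coe_id, id]
    rw [add_assoc, ← map_add, hcd, map_zero, add_zero]
  let c : σ → K := fun i => aug (φ (x i))
  have hJ : J (φ.comp (t (-c))) = J φ := by
    ext k j
    simp [J, t, dd_alg]
  obtain ⟨u, hu⟩ := h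
  have hb := bij_core (φ := φ.comp (t (-c))) (U := ↑u⁻¹) (by rw [hJ, ← hu, u.inv_mul])
    (by rw [hJ, ← hu, u.mul_inv]) (fun k => by simp [t, c])
  have : φ = (φ.comp (t (-c))).comp (t c) := by
    rw [AlgHom.comp_assoc, ht _ _ (by simp), AlgHom.comp_id]
  rw [this]
  refine hb.comp (Function.bijective_iff_has_inverse.2 ⟨t (-c), fun p => ?_, fun p => ?_⟩)
  · exact AlgHom.congr_fun (ht _ _ (by simp)) p
  · exact AlgHom.congr_fun (ht _ _ (by simp)) p

theorem good_bijective (hφ : Good φ) : Function.Bijective φ := bij_of_unit (J_unit hφ)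

end Pool.Agent.H75.FreeJac
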