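import Mathlib
import Pool.Agent.H64.Golod

/-! Golod-Shafarevich in the filtered quotients (copied from helper71). -/

namespace Pool.Agent.H75.Gol

open Module Pool.Agent.H64.Golod

section
variable {F : Type} [Field F] (r : ℕ → A F) (hr : ∀ k, r k ∈ J F (k + 2))

include hr in
lemma gs' (hf : ∀ m, FiniteDimensional F (A F ⧸ K r m)) (n : ℕ) :
    3 * c r (n + 1) ≤ c r (n + 2) + ∑ k ∈ Finset.range n, c r (n - k) := by
  choose d hd1 hd2 using fun k => mem_J_succ.1 (hr k)
  have hK : ∀ (j : Fin 3) a, a ∈ K r (n + 1) → x F j * a ∈ K r (n + 2) := by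
    intro j a ha
    obtain ⟨y, hy, z, hz, rfl⟩ := Submodule.mem_sup.1 ha
    rw [mul_add]
    exact Submodule.add_mem_sup (I_left r _ _ hy) (J_mul 1 (n + 1) _ _ (x_mem j) hz)
  let α : (Fin 3 → A F ⧸ K r (n + 1)) →ₗ[F] A F ⧸ K r (n + 2) :=
    ∑ j, ((K r (n + 1)).mapQ (K r (n + 2)) (LinearMap.mulLeft F (x F j)) (hK j)).comp
      (LinearMap.proj j)
  have hα : ∀ u : Fin 3 → A F, α (fun j => (K r (n + 1)).mkQ (u j)) = (K r (n + 2)).mkQ (D F u) := by
    intro u
    simp [α, D_apply]
  have hK' : ∀ (k : Fin n) (j : Fin 3) a, a ∈ K r (n - k) → d k j * a ∈ K r (n + 1) := by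
    intro k j a ha
    obtain ⟨y, hy, z, hz, rfl⟩ := Submodule.mem_sup.1 ha
    rw [mul_add]
    refine Submodule.add_mem_sup (I_left r _ _ hy) ?_
    have := J_mul _ _ _ _ (hd1 k j) hz
    rwa [show n - k + (k + 1) = n + 1 by omega] at this
  let β : ((k : Fin n) → A F ⧸ K r (n - k)) →ₗ[F] (Fin 3 → A F ⧸ K r (n + 1)) :=
    ∑ k : Fin n, (LinearMap.pi fun j => (K r (n - k)).mapQ (K r (n + 1))
      (LinearMap.mulLeft F (d k j)) (hK' k j)).comp (LinearMap.proj k)
  let π : (Fin 3 → A F) →ₗ[F] (Fin 3 → A F ⧸ K r (n + 1)) :=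
    LinearMap.pi fun j => (K r (n + 1)).mkQ.comp (LinearMap.proj j)
  let W : Submodule F (Fin 3 → A F) := (LinearMap.range β).comap π
  have hW0 : ∀ u : Fin 3 → A F, (∀ j, u j ∈ K r (n + 1)) → u ∈ W := by
    intro u hu
    have : π u = 0 := funext fun j => (Submodule.Quotient.mk_eq_zero _).2 (hu j)
    show π u ∈ LinearMap.range β
    rw [this]; exact Submodule.zero_mem _
  have hJ : J F (n + 2) ≤ W.map (D F) := by
    intro a ha
    obtain ⟨u, hu, rfl⟩ := mem_J_succ.1 ha
    exact ⟨u, hW0 u fun j => Submodule.mem_sup_right (hu j), rfl⟩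
  have hsub : K r (n + 2) ≤ W.map (D F) := by
    refine sup_le (Submodule.span_le.2 ?_) hJ
    rintro _ ⟨a, k, b, rfl⟩
    obtain ⟨e, v, rfl⟩ := decomp a
    rw [mul_assoc, add_mul, smul_mul_assoc, one_mul, D_mul]
    refine Submodule.add_mem _ (Submodule.smul_mem _ _ ?_) ⟨_, hW0 _ fun j =>
      Submodule.mem_sup_left (Submodule.subset_span ⟨v j, k, b, (mul_assoc _ _ _).symm⟩), rfl⟩
    by_cases hk : k < n
    · refine ⟨fun j => d k j * b, ⟨Pi.single ⟨k, hk⟩ ((K r _).mkQ b), ?_⟩, by rw [← D_mul, hd2]⟩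
      simp only [β, LinearMap.coe_sum, Finset.sum_apply]
      rw [Finset.sum_eq_single ⟨k, hk⟩]
      · funext j; simp [π]
      · intro i _ hi; simp [hi]
      · simp
    · exact hJ (J_right _ _ _ (J_anti' (by omega) (hr k)))
  have hker : LinearMap.ker α ≤ LinearMap.range β := by
    intro y hy
    choose u hu using fun j => (K r (n + 1)).mkQ_surjective (y j)
    obtain rfl : y = fun j => (K r (n + 1)).mkQ (u j) := funext fun j => (hu j).symm
    rw [LinearMap.mem_ker, hα, Submodule.mkQ_apply, Submodule.Quotient.mk_eq_zero] at hy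
    obtain ⟨w, hw, he⟩ := hsub hy
    rw [D_inj he] at hw
    exact hw
  have h1 := LinearMap.finrank_range_add_finrank_ker α
  have h2 := Submodule.finrank_le (LinearMap.range α)
  have h3 := Submodule.finrank_mono hker
  have h4 := LinearMap.finrank_range_le β
  rw [Module.finrank_pi_fintype, Finset.sum_const, Finset.card_univ, Fintype.card_fin,
    smul_eq_mul] at h1
  rw [Module.finrank_pi_fintype] at h4
  rw [← Fin.sum_univ_eq_sum_range (fun k => c r (n - k))]
  unfold c
  omega

include hr in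
theorem exists_ne_top (U : Submodule F (A F)) [FiniteDimensional F U] : ∃ n, K r n ⊔ U ≠ ⊤ := by
  by_contra h
  push Not at h
  have sj : ∀ n, Function.Surjective ((K r n).mkQ.comp U.subtype) := fun n y => by
    obtain ⟨y, rfl⟩ := (K r n).mkQ_surjective y
    obtain ⟨a, ha, b, hb, rfl⟩ := Submodule.mem_sup.1 ((h n).ge trivial : y ∈ _)
    exact ⟨⟨b, hb⟩, by simp [(Submodule.Quotient.mk_eq_zero _).2 ha]⟩
  have hf : ∀ m, FiniteDimensional F (A F ⧸ K r m) := fun m => Module.Finite.of_surjective _ (sj m)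
  have c1 : 1 ≤ c r 1 := by
    have : K r 1 ≠ ⊤ := fun h => one_not_mem (F := F) ((sup_le (Submodule.span_le.2 (by
      rintro _ ⟨a, k, b, rfl⟩
      exact J_right _ _ _ (J_left _ _ _ (J_anti' (by omega) (hr k))))) le_rfl : K r 1 ≤ J F 1)
        (h.ge trivial))
    have := Submodule.Quotient.nontrivial_iff.2 this
    exact Module.finrank_pos
  have key : ∀ n, ∑ k ∈ Finset.range n, c r (n - k) ≤ c r (n + 1) ∧ n + 1 ≤ c r (n + 1) := by
    intro n
    induction n with
    | zero => exact ⟨by simp, c1⟩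
    | succ n ih =>
      have := gs' r hr hf n
      rw [Finset.sum_range_succ']
      simp only [Nat.add_sub_add_right, Nat.sub_zero, add_assoc, Nat.reduceAdd]
      omega
  have h1 := (key (finrank F U)).2
  have h2 : c r (finrank F U + 1) ≤ finrank F U := LinearMap.finrank_le_finrank_of_surjective (sj _)
  omega

end

end Pool.Agent.H75.Gol
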