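import Mathlib

/-! An 8-dimensional Lie algebra `gl₂ ⋉ (V ⊕ V*)` with only scalar half-derivations. -/

set_option autoImplicit false

namespace Pool.Agent.H75.HalfDer

def br (x y : Fin 8 → ℂ) : Fin 8 → ℂ :=
  ![x 1 * y 2 - y 1 * x 2, x 0 * y 1 + x 1 * y 3 - y 0 * x 1 - y 1 * x 3,
    x 2 * y 0 + x 3 * y 2 - y 2 * x 0 - y 3 * x 2, x 2 * y 1 - y 2 * x 1,
    x 0 * y 4 + x 1 * y 5 - y 0 * x 4 - y 1 * x 5, x 2 * y 4 + x 3 * y 5 - y 2 * x 4 - y 3 * x 5,
    x 6 * y 0 + x 7 * y 2 - y 6 * x 0 - y 7 * x 2, x 6 * y 1 + x 7 * y 3 - y 6 * x 1 - y 7 * x 3]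

def ev : Fin 8 → Fin 8 → ℂ :=
  ![![1, 0, 0, 0, 0, 0, 0, 0], ![0, 1, 0, 0, 0, 0, 0, 0], ![0, 0, 1, 0, 0, 0, 0, 0],
    ![0, 0, 0, 1, 0, 0, 0, 0], ![0, 0, 0, 0, 1, 0, 0, 0], ![0, 0, 0, 0, 0, 1, 0, 0],
    ![0, 0, 0, 0, 0, 0, 1, 0], ![0, 0, 0, 0, 0, 0, 0, 1]]

theorem key (m : Fin 8 → Fin 8 → ℂ) (h : ∀ i j k, ∑ l, br (ev i) (ev j) l * m l k =
    1 / 2 * (br (m i) (ev j) k + br (ev i) (m j) k)) (i k : Fin 8) :
    m i k = m 0 0 * ev i k := by
  have h010 := h 0 1 0
  have h011 := h 0 1 1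
  have h012 := h 0 1 2
  have h013 := h 0 1 3
  have h014 := h 0 1 4
  have h015 := h 0 1 5
  have h016 := h 0 1 6
  have h017 := h 0 1 7
  have h020 := h 0 2 0
  have h021 := h 0 2 1
  have h022 := h 0 2 2
  have h023 := h 0 2 3
  have h024 := h 0 2 4
  have h025 := h 0 2 5
  have h026 := h 0 2 6
  have h027 := h 0 2 7
  have h031 := h 0 3 1
  have h032 := h 0 3 2
  have h034 := h 0 3 4
  have h035 := h 0 3 5
  have h036 := h 0 3 6
  have h037 := h 0 3 7
  have h040 := h 0 4 0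
  have h041 := h 0 4 1
  have h042 := h 0 4 2
  have h043 := h 0 4 3
  have h044 := h 0 4 4
  have h045 := h 0 4 5
  have h046 := h 0 4 6
  have h047 := h 0 4 7
  have h051 := h 0 5 1
  have h052 := h 0 5 2
  have h054 := h 0 5 4
  have h055 := h 0 5 5
  have h056 := h 0 5 6
  have h060 := h 0 6 0
  have h061 := h 0 6 1
  have h062 := h 0 6 2
  have h063 := h 0 6 3
  have h064 := h 0 6 4
  have h065 := h 0 6 5
  have h066 := h 0 6 6
  have h067 := h 0 6 7
  have h071 := h 0 7 1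
  have h072 := h 0 7 2
  have h074 := h 0 7 4
  have h076 := h 0 7 6
  have h120 := h 1 2 0
  have h121 := h 1 2 1
  have h122 := h 1 2 2
  have h123 := h 1 2 3
  have h124 := h 1 2 4
  have h125 := h 1 2 5
  have h126 := h 1 2 6
  have h127 := h 1 2 7
  have h151 := h 1 5 1
  have h154 := h 1 5 4
  have h160 := h 1 6 0
  have h163 := h 1 6 3
  have h165 := h 1 6 5
  have h167 := h 1 6 7
  have h240 := h 2 4 0
  have h247 := h 2 4 7
  simp only [br, ev, Fin.sum_univ_eight, Matrix.cons_val] at h010 h011 h012 h013 h014 h015 h016 h017 h020 h021 h022 h023 h024 h025 h026 h027 h031 h032 h034 h035 h036 h037 h040 h041 h042 h043 h044 h045 h046 h047 h051 h052 h054 h055 h056 h060 h061 h062 h063 h064 h065 h066 h067 h071 h072 h074 h076 h120 h121 h122 h123 h124 h125 h126 h127 h151 h154 h160 h163 h165 h167 h240 h247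
  have g00 : m 0 0 = m 0 0 := by rfl
  have g01 : m 0 1 = 0 := by linear_combination (2/3 : ℂ) * h121 + (-4/3 : ℂ) * h031 + (-1/3 : ℂ) * h023 + (1/3 : ℂ) * h020
  have g02 : m 0 2 = 0 := by linear_combination (2/3 : ℂ) * h122 + (4/3 : ℂ) * h032 + (1/3 : ℂ) * h013 + (-1/3 : ℂ) * h010
  have g03 : m 0 3 = 0 := by linear_combination (-2 : ℂ) * h055
  have g04 : m 0 4 = 0 := by linear_combination (4/3 : ℂ) * h124 + (-8/3 : ℂ) * h034 + (-2/3 : ℂ) * h025
  have g05 : m 0 5 = 0 := by linear_combination (2 : ℂ) * h035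
  have g06 : m 0 6 = 0 := by linear_combination (4/3 : ℂ) * h126 + (8/3 : ℂ) * h036 + (2/3 : ℂ) * h017
  have g07 : m 0 7 = 0 := by linear_combination (-2 : ℂ) * h037
  have g10 : m 1 0 = 0 := by linear_combination (7/6 : ℂ) * h010 + (-1/3 : ℂ) * h122 + (-2/3 : ℂ) * h032 + (-1/6 : ℂ) * h013
  have g11 : m 1 1 = m 0 0 := by linear_combination (2 : ℂ) * h011 + (2 : ℂ) * h055
  have g12 : m 1 2 = 0 := by linear_combination (2/3 : ℂ) * h012
  have g13 : m 1 3 = 0 := by linear_combination (7/6 : ℂ) * h013 + (1/3 : ℂ) * h122 + (2/3 : ℂ) * h032 + (-1/6 : ℂ) * h010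
  have g14 : m 1 4 = 0 := by linear_combination (2 : ℂ) * h014 + (-2 : ℂ) * h035
  have g15 : m 1 5 = 0 := by linear_combination (1 : ℂ) * h015
  have g16 : m 1 6 = 0 := by linear_combination (2/3 : ℂ) * h016
  have g17 : m 1 7 = 0 := by linear_combination (4/3 : ℂ) * h017 + (2/3 : ℂ) * h126 + (4/3 : ℂ) * h036
  have g20 : m 2 0 = 0 := by linear_combination (-7/6 : ℂ) * h020 + (-1/3 : ℂ) * h121 + (2/3 : ℂ) * h031 + (1/6 : ℂ) * h023
  have g21 : m 2 1 = 0 := by linear_combination (-2/3 : ℂ) * h021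
  have g22 : m 2 2 = m 0 0 := by linear_combination (-2 : ℂ) * h022 + (2 : ℂ) * h055
  have g23 : m 2 3 = 0 := by linear_combination (-7/6 : ℂ) * h023 + (1/3 : ℂ) * h121 + (-2/3 : ℂ) * h031 + (1/6 : ℂ) * h020
  have g24 : m 2 4 = 0 := by linear_combination (-2/3 : ℂ) * h024
  have g25 : m 2 5 = 0 := by linear_combination (-4/3 : ℂ) * h025 + (2/3 : ℂ) * h124 + (-4/3 : ℂ) * h034
  have g26 : m 2 6 = 0 := by linear_combination (-2 : ℂ) * h026 + (2 : ℂ) * h037
  have g27 : m 2 7 = 0 := by linear_combination (-1 : ℂ) * h027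
  have g30 : m 3 0 = 0 := by linear_combination (-1 : ℂ) * h120 + (1 : ℂ) * h022 + (-1 : ℂ) * h011 + (-2 : ℂ) * h055
  have g31 : m 3 1 = 0 := by linear_combination (-2/3 : ℂ) * h031 + (-2/3 : ℂ) * h121 + (1/3 : ℂ) * h023 + (-1/3 : ℂ) * h020
  have g32 : m 3 2 = 0 := by linear_combination (2/3 : ℂ) * h032 + (-2/3 : ℂ) * h122 + (-1/3 : ℂ) * h013 + (1/3 : ℂ) * h010
  have g33 : m 3 3 = m 0 0 := by linear_combination (-1 : ℂ) * h123 + (-1 : ℂ) * h022 + (1 : ℂ) * h011
  have g34 : m 3 4 = 0 := by linear_combination (-2 : ℂ) * h034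
  have g35 : m 3 5 = 0 := by linear_combination (-1 : ℂ) * h125 + (1 : ℂ) * h014 + (1 : ℂ) * h035
  have g36 : m 3 6 = 0 := by linear_combination (2 : ℂ) * h036
  have g37 : m 3 7 = 0 := by linear_combination (-1 : ℂ) * h127 + (-1 : ℂ) * h026 + (-1 : ℂ) * h037
  have g40 : m 4 0 = 0 := by linear_combination (1 : ℂ) * h040
  have g41 : m 4 1 = 0 := by linear_combination (2 : ℂ) * h041
  have g42 : m 4 2 = 0 := by linear_combination (2/3 : ℂ) * h042
  have g43 : m 4 3 = 0 := by linear_combination (1 : ℂ) * h043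
  have g44 : m 4 4 = m 0 0 := by linear_combination (2 : ℂ) * h044
  have g45 : m 4 5 = 0 := by linear_combination (1 : ℂ) * h045 + (1/3 : ℂ) * h122 + (2/3 : ℂ) * h032 + (1/6 : ℂ) * h013 + (-1/6 : ℂ) * h010
  have g46 : m 4 6 = 0 := by linear_combination (2/3 : ℂ) * h046
  have g47 : m 4 7 = 0 := by linear_combination (1 : ℂ) * h047
  have g50 : m 5 0 = 0 := by linear_combination (1 : ℂ) * h240 + (-1 : ℂ) * h041
  have g51 : m 5 1 = 0 := by linear_combination (-2 : ℂ) * h051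
  have g52 : m 5 2 = 0 := by linear_combination (2 : ℂ) * h052
  have g53 : m 5 3 = 0 := by linear_combination (-2 : ℂ) * h151 + (3 : ℂ) * h041 + (1 : ℂ) * h240
  have g54 : m 5 4 = 0 := by linear_combination (-2 : ℂ) * h054 + (-2/3 : ℂ) * h121 + (4/3 : ℂ) * h031 + (1/3 : ℂ) * h023 + (-1/3 : ℂ) * h020
  have g55 : m 5 5 = m 0 0 := by linear_combination (-2 : ℂ) * h154 + (4 : ℂ) * h044 + (-2 : ℂ) * h011 + (-2 : ℂ) * h055
  have g56 : m 5 6 = 0 := by linear_combination (2 : ℂ) * h056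
  have g57 : m 5 7 = 0 := by linear_combination (1 : ℂ) * h247
  have g60 : m 6 0 = 0 := by linear_combination (-1 : ℂ) * h060
  have g61 : m 6 1 = 0 := by linear_combination (-2/3 : ℂ) * h061
  have g62 : m 6 2 = 0 := by linear_combination (-2 : ℂ) * h062
  have g63 : m 6 3 = 0 := by linear_combination (-1 : ℂ) * h063
  have g64 : m 6 4 = 0 := by linear_combination (-2/3 : ℂ) * h064
  have g65 : m 6 5 = 0 := by linear_combination (-1 : ℂ) * h065
  have g66 : m 6 6 = m 0 0 := by linear_combination (-2 : ℂ) * h066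
  have g67 : m 6 7 = 0 := by linear_combination (-1 : ℂ) * h067 + (1/3 : ℂ) * h121 + (-2/3 : ℂ) * h031 + (-1/6 : ℂ) * h023 + (1/6 : ℂ) * h020
  have g70 : m 7 0 = 0 := by linear_combination (-1 : ℂ) * h160 + (1 : ℂ) * h062
  have g71 : m 7 1 = 0 := by linear_combination (-2 : ℂ) * h071
  have g72 : m 7 2 = 0 := by linear_combination (2 : ℂ) * h072
  have g73 : m 7 3 = 0 := by linear_combination (-1 : ℂ) * h163 + (-1 : ℂ) * h062
  have g74 : m 7 4 = 0 := by linear_combination (-2 : ℂ) * h074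
  have g75 : m 7 5 = 0 := by linear_combination (-1 : ℂ) * h165
  have g76 : m 7 6 = 0 := by linear_combination (2 : ℂ) * h076 + (-2/3 : ℂ) * h122 + (-4/3 : ℂ) * h032 + (-1/3 : ℂ) * h013 + (1/3 : ℂ) * h010
  have g77 : m 7 7 = m 0 0 := by linear_combination (-1 : ℂ) * h167 + (-1 : ℂ) * h066 + (1 : ℂ) * h011 + (1 : ℂ) * h055
  fin_cases i <;> fin_cases k <;> simp [ev, *]

/-- The underlying space. -/
def L : Type := Fin 8 → ℂ

instance : AddCommGroup L := inferInstanceAs (AddCommGroup (Fin 8 → ℂ))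
instance : Module ℂ L := inferInstanceAs (Module ℂ (Fin 8 → ℂ))
instance : FiniteDimensional ℂ L := inferInstanceAs (FiniteDimensional ℂ (Fin 8 → ℂ))

theorem add_ap (x y : L) (i : Fin 8) : (x + y) i = x i + y i := rfl
theorem smul_ap (c : ℂ) (x : L) (i : Fin 8) : (c • x) i = c * x i := rfl
theorem zero_ap (i : Fin 8) : (0 : L) i = 0 := rfl

instance : LieRing L where
  bracket x y := br x y
  add_lie x y z := by
    funext k; change br (x + y) z k = br x z k + br y z k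
    fin_cases k <;> simp [br, add_ap] <;> ring
  lie_add x y z := by
    funext k; change br x (y + z) k = br x y k + br x z k
    fin_cases k <;> simp [br, add_ap] <;> ring
  lie_self x := by
    funext k; change br x x k = 0
    fin_cases k <;> simp [br] <;> ring
  leibniz_lie x y z := by
    funext k; change br x (br y z) k = br (br x y) z k + br y (br x z) k
    fin_cases k <;> simp [br] <;> ring

instance : LieAlgebra ℂ L where
  lie_smul c x y := by
    funext k; change br x (c • y) k = c * br x y k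
    fin_cases k <;> simp [br, smul_ap] <;> ring

theorem lie_ap (x y : L) (k : Fin 8) : ⁅x, y⁆ k = br x y k := rfl

theorem expand (x : L) : x = ∑ i, x i • (show L from ev i) := by
  funext k
  simp only [Fin.sum_univ_eight, add_ap, smul_ap]
  fin_cases k <;> simp [ev]

theorem scalar (φ : L →ₗ[ℂ] L) (h : ∀ x y, φ ⁅x, y⁆ = (1 / 2 : ℂ) • (⁅φ x, y⁆ + ⁅x, φ y⁆)) :
    ∃ c : ℂ, φ = c • LinearMap.id := by
  have hφ : ∀ (x : L) k, φ x k = ∑ l, x l * φ (ev l) k := by
    intro x k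
    conv_lhs => rw [expand x]
    simp only [Fin.sum_univ_eight, map_add, map_smul, add_ap, smul_ap]
  have hk := key (fun i => φ (ev i)) (fun i j k => by
    have := congrFun (h (ev i) (ev j)) k
    rw [hφ] at this
    exact this)
  refine ⟨φ (ev 0) 0, LinearMap.ext fun x => funext fun k => ?_⟩
  rw [hφ]
  change _ = φ (ev 0) 0 * x k
  simp only [hk _ k, Fin.sum_univ_eight]
  fin_cases k <;> simp [ev] <;> ring

/-- The cocycle. -/
def om : L →ₗ[ℂ] L →ₗ[ℂ] ℂ :=
  LinearMap.mk₂ ℂ (fun x y => x 6 * y 4 + x 7 * y 5 - y 6 * x 4 - y 7 * x 5)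
    (fun x x' y => by simp only [add_ap]; ring) (fun c x y => by simp only [smul_ap, smul_eq_mul]; ring)
    (fun x y y' => by simp only [add_ap]; ring) (fun c x y => by simp only [smul_ap, smul_eq_mul]; ring)

theorem om_ap (x y : L) : om x y = x 6 * y 4 + x 7 * y 5 - y 6 * x 4 - y 7 * x 5 := rfl

/-- The trace. -/
def tr : L × ℂ →ₗ[ℂ] ℂ where
  toFun p := p.1 0 + p.1 3
  map_add' p q := by simp only [Prod.fst_add, add_ap]; ring
  map_smul' c p := by simp only [Prod.smul_fst, smul_ap, smul_eq_mul, RingHom.id_apply]; ring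

theorem tr_ap (p : L × ℂ) : tr p = p.1 0 + p.1 3 := rfl

end Pool.Agent.H75.HalfDer
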