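import Mathlib

namespace Pool.Agent.H75.IE
open scoped InnerProductSpace ENNReal

variable {H : Type} [NormedAddCommGroup H] [InnerProductSpace ℂ H] [CompleteSpace H]

/-- the orthogonal projection onto the closure of `V` -/
noncomputable def proj (V : Submodule ℂ H) : H →L[ℂ] H :=
  V.topologicalClosure.starProjection

/-- `H_F`, the closure of `F Ω` -/
noncomputable def cyc (F : VonNeumannAlgebra H) (Ω : H) : Submodule ℂ H :=
  (Submodule.span ℂ {v : H | ∃ f ∈ F, v = f Ω}).topologicalClosure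

/-- the basic construction `⟨A, e_F⟩`: the double commutant of `A ∪ {e_F}` -/
def basic (A F : VonNeumannAlgebra H) (Ω : H) : Set (H →L[ℂ] H) :=
  (insert (proj (cyc F Ω)) (A : Set (H →L[ℂ] H))).centralizer.centralizer

/-- a system in its GNS representation: `μ = ⟪Ω, · Ω⟫` is a faithful tracial state on `A`,
`Ω` is cyclic and separating, and `α = U · U*` with `U Ω = Ω` -/
structure IsSystem (A : VonNeumannAlgebra H) (Ω : H) (U : H →L[ℂ] H) : Prop where
  norm_one : ‖Ω‖ = 1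
  cyclic : cyc A Ω = ⊤
  separating : ∀ a ∈ A, a Ω = 0 → a = 0
  tracial : ∀ a ∈ A, ∀ b ∈ A, ⟪Ω, (a * b) Ω⟫_ℂ = ⟪Ω, (b * a) Ω⟫_ℂ
  unit : U ∈ unitary (H →L[ℂ] H)
  fix : U Ω = Ω
  aut : ∀ a : H →L[ℂ] H, a ∈ A ↔ U * a * star U ∈ A

/-- a subsystem: a von Neumann subalgebra `F ⊆ A` (with the same unit) and `α F = F` -/
structure IsSub (A F : VonNeumannAlgebra H) (U : H →L[ℂ] H) : Prop where
  le : ∀ f ∈ F, f ∈ A
  inv : ∀ f : H →L[ℂ] H, f ∈ F ↔ U * f * star U ∈ F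

/-- `τ` is, on the positive cone of `⟨A, e_F⟩`, a faithful normal trace (normal: a sum of vector
functionals) with `τ (a e_F a*) = μ (a a*)` -/
structure IsBar (A F : VonNeumannAlgebra H) (Ω : H) (τ : (H →L[ℂ] H) → ℝ≥0∞) : Prop where
  normal : ∃ (ι : Type) (ξ : ι → H), ∀ T ∈ basic A F Ω, 0 ≤ T →
    τ T = ∑' i, ENNReal.ofReal (⟪ξ i, T (ξ i)⟫_ℂ).re
  trace : ∀ x ∈ basic A F Ω, τ (star x * x) = τ (x * star x)
  faithful : ∀ x ∈ basic A F Ω, τ (star x * x) = 0 → x = 0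
  base : ∀ a ∈ A, τ (a * proj (cyc F Ω) * star a) = ENNReal.ofReal (⟪Ω, (a * star a) Ω⟫_ℂ).re

/-- a `U`-`τ`-module: a closed right `F`-module (its projection lies in `⟨A, e_F⟩`) inside
`H ⊖ H_F`, with `U V = V` and finite trace -/
structure IsMod (A F : VonNeumannAlgebra H) (Ω : H) (U : H →L[ℂ] H)
    (τ : (H →L[ℂ] H) → ℝ≥0∞) (V : Submodule ℂ H) : Prop where
  closed : IsClosed (V : Set H)
  mem : proj V ∈ basic A F Ω
  orth : V ≤ (cyc F Ω)ᗮ
  inv : V.map (U : H →ₗ[ℂ] H) = V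
  fin : τ (proj V) < ⊤

/-- `A` is an isometric extension of `F`: the closed span of all `U`-`τ`-modules is `H ⊖ H_F` -/
def Isometric (A F : VonNeumannAlgebra H) (Ω : H) (U : H →L[ℂ] H)
    (τ : (H →L[ℂ] H) → ℝ≥0∞) : Prop :=
  (sSup {V : Submodule ℂ H | IsMod A F Ω U τ V}).topologicalClosure = (cyc F Ω)ᗮ

end Pool.Agent.H75.IE
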