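import Pool.Agent.H75.IL1
import Pool.Agent.H75.IEDefs

set_option linter.unusedSectionVars false
set_option linter.deprecated false

namespace Pool.Agent.H75.IE
open Filter Topology Finset Pool.Agent.H86.Wu Pool.Agent.H75.IL
open scoped InnerProductSpace ENNReal

variable {H : Type} [NormedAddCommGroup H] [InnerProductSpace ℂ H] [CompleteSpace H]
variable {ι κ : Type}

noncomputable def N (ξ : ι → H) (x : H →L[ℂ] H) : ℝ≥0∞ := ∑' i, ENNReal.ofReal (‖x (ξ i)‖ ^ 2)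

theorem N_le (ξ : ι → H) {x y : H →L[ℂ] H} {c : ℝ} (hc : 0 ≤ c)
    (h : ∀ v, ‖x v‖ ^ 2 ≤ c * ‖y v‖ ^ 2) : N ξ x ≤ ENNReal.ofReal c * N ξ y := by
  rw [N, N, ← ENNReal.tsum_mul_left]
  refine ENNReal.tsum_le_tsum fun i => ?_
  rw [← ENNReal.ofReal_mul hc]
  exact ENNReal.ofReal_le_ofReal (h _)

theorem N_fin (ξ : ι → H) {x y : H →L[ℂ] H} {c : ℝ} (hc : 0 ≤ c)
    (h : ∀ v, ‖x v‖ ^ 2 ≤ c * ‖y v‖ ^ 2) (hy : N ξ y ≠ ⊤) : N ξ x ≠ ⊤ :=
  ne_top_of_le_ne_top (ENNReal.mul_ne_top ENNReal.ofReal_ne_top hy) (N_le ξ hc h)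

theorem N_toReal (ξ : ι → H) (x : H →L[ℂ] H) : (N ξ x).toReal = ∑' i, ‖x (ξ i)‖ ^ 2 := by
  rw [N, ENNReal.tsum_toReal_eq fun _ => ENNReal.ofReal_ne_top]
  exact tsum_congr fun i => ENNReal.toReal_ofReal (sq_nonneg _)

theorem N_summ (ξ : ι → H) {x : H →L[ℂ] H} (h : N ξ x ≠ ⊤) :
    Summable fun i => ‖x (ξ i)‖ ^ 2 :=
  (ENNReal.summable_toReal h).congr fun _ => ENNReal.toReal_ofReal (sq_nonneg _)

theorem N_of (ξ : ι → H) {x : H →L[ℂ] H} (h : Summable fun i => ‖x (ξ i)‖ ^ 2) :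
    N ξ x = ENNReal.ofReal (∑' i, ‖x (ξ i)‖ ^ 2) :=
  (ENNReal.ofReal_tsum_of_nonneg (fun _ => sq_nonneg _) h).symm

theorem resq (x : H →L[ℂ] H) (v : H) : (⟪v, (star x * x) v⟫_ℂ).re = ‖x v‖ ^ 2 := by
  change (⟪v, star x (x v)⟫_ℂ).re = _
  rw [← ssym', inner_self_eq_norm_sq_to_K]
  simp [sq]

theorem comm_proj (K : Submodule ℂ H) [K.HasOrthogonalProjection] {T : H →L[ℂ] H}
    (h1 : ∀ v ∈ K, T v ∈ K) (h2 : ∀ v ∈ K, star T v ∈ K) :
    K.starProjection * T = T * K.starProjection := by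
  ext v
  change K.starProjection (T v) = T (K.starProjection v)
  refine Submodule.eq_starProjection_of_mem_orthogonal (h1 _ (K.starProjection_apply_mem v)) ?_
  rw [← map_sub, Submodule.mem_orthogonal]
  intro u hu
  rw [← ssym]
  exact (Submodule.mem_orthogonal _ _).1 (K.sub_starProjection_mem_orthogonal v) _ (h2 u hu)

theorem clos_inv {K L : Submodule ℂ H} {T : H →L[ℂ] H} (hL : IsClosed (L : Set H))
    (h : ∀ v ∈ K, T v ∈ L) : ∀ v ∈ K.topologicalClosure, T v ∈ L := fun v hv =>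
  closure_minimal (s := (K : Set H)) (t := T ⁻¹' L) h (hL.preimage T.continuous) hv

theorem cyc_closed (F : VonNeumannAlgebra H) (Ω : H) : IsClosed (cyc F Ω : Set H) :=
  Submodule.isClosed_topologicalClosure _

theorem cyc_mem {F : VonNeumannAlgebra H} (Ω : H) {f : H →L[ℂ] H} (hf : f ∈ F) :
    f Ω ∈ cyc F Ω :=
  Submodule.le_topologicalClosure _ (Submodule.subset_span ⟨f, hf, rfl⟩)

/-- evaluation at `Ω` -/
def ev (A : VonNeumannAlgebra H) (w : H) : A.toStarSubalgebra →ₗ[ℂ] H where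
  toFun a := (a : H →L[ℂ] H) w
  map_add' _ _ := rfl
  map_smul' _ _ := rfl

theorem span_eq (F : VonNeumannAlgebra H) (Ω : H) :
    Submodule.span ℂ {v : H | ∃ f ∈ F, v = f Ω} = LinearMap.range (ev F Ω) := by
  refine le_antisymm (Submodule.span_le.2 ?_) ?_
  · rintro _ ⟨f, hf, rfl⟩
    exact ⟨⟨f, hf⟩, rfl⟩
  · rintro _ ⟨f, rfl⟩
    exact Submodule.subset_span ⟨f, f.2, rfl⟩

theorem cyc_ind {F : VonNeumannAlgebra H} {Ω : H} {s : Set H} (hs : IsClosed s)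
    (h : ∀ f ∈ F, f Ω ∈ s) : ∀ v ∈ cyc F Ω, v ∈ s := by
  intro v hv
  rw [cyc, span_eq] at hv
  refine closure_minimal ?_ hs hv
  rintro _ ⟨f, rfl⟩
  exact h f f.2

theorem cyc_inv {F : VonNeumannAlgebra H} {Ω : H} {L : Submodule ℂ H} {T : H →L[ℂ] H}
    (hL : IsClosed (L : Set H)) (h : ∀ f ∈ F, T (f Ω) ∈ L) : ∀ v ∈ cyc F Ω, T v ∈ L :=
  cyc_ind (s := T ⁻¹' L) (hL.preimage T.continuous) h

theorem proj_mem (V : Submodule ℂ H) (v : H) : proj V v ∈ V.topologicalClosure :=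
  Submodule.starProjection_apply_mem _ v

theorem proj_self {V : Submodule ℂ H} {v : H} (h : v ∈ V.topologicalClosure) : proj V v = v :=
  Submodule.starProjection_eq_self_iff.2 h

theorem proj_sp (V : Submodule ℂ H) : IsStarProjection (proj V) := isStarProjection_starProjection

theorem proj_comm {V : Submodule ℂ H} {T : H →L[ℂ] H} (h1 : ∀ v ∈ V, T v ∈ V)
    (h2 : ∀ v ∈ V, star T v ∈ V) : proj V * T = T * proj V :=
  comm_proj _ (clos_inv V.isClosed_topologicalClosure fun v hv =>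
    V.le_topologicalClosure (h1 v hv)) (clos_inv V.isClosed_topologicalClosure fun v hv =>
    V.le_topologicalClosure (h2 v hv))

theorem cyc_cl (F : VonNeumannAlgebra H) (Ω : H) : (cyc F Ω).topologicalClosure = cyc F Ω :=
  (cyc_closed F Ω).submodule_topologicalClosure_eq

variable {A F : VonNeumannAlgebra H} {Ω : H} {U : H →L[ℂ] H}

theorem IsSystem.ind (S : IsSystem A Ω U) {s : Set H} (hs : IsClosed s)
    (h : ∀ a ∈ A, a Ω ∈ s) (v : H) : v ∈ s := cyc_ind hs h v (by rw [S.cyclic]; trivial)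

theorem IsSystem.dense (S : IsSystem A Ω U) : DenseRange (ev A Ω) := fun v =>
  S.ind (s := closure (Set.range (ev A Ω))) isClosed_closure
    (fun a ha => subset_closure ⟨⟨a, ha⟩, rfl⟩) v

theorem IsSystem.nstar (S : IsSystem A Ω U) {a : H →L[ℂ] H} (ha : a ∈ A) :
    ‖star a Ω‖ ^ 2 = ‖a Ω‖ ^ 2 := by
  rw [← resq, ← resq, star_star, S.tracial _ ha _ (star_mem ha)]

theorem IsSystem.small (S : IsSystem A Ω U) {w : H} {c : ℝ} (hc : 0 ≤ c)
    (h : ∀ a ∈ A, ‖⟪w, a Ω⟫_ℂ‖ ≤ c * ‖a Ω‖) : ‖w‖ ≤ c := by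
  have := S.ind (s := {u | ‖⟪w, u⟫_ℂ‖ ≤ c * ‖u‖}) (isClosed_le (by fun_prop) (by fun_prop)) h w
  simp only [Set.mem_setOf_eq, inner_self_eq_norm_sq_to_K, norm_pow] at this
  rcases (norm_nonneg w).eq_or_lt with h0 | h0
  · rw [← h0]; exact hc
  · simp only [Complex.coe_algebraMap, Complex.norm_real, norm_norm] at this
    nlinarith

/-- an operator commuting with `A` and mapping `Ω` into `H_F` commutes with `e_F` -/
theorem IsSystem.comm (S : IsSystem A Ω U) (hF : ∀ f ∈ F, f ∈ A) {T : H →L[ℂ] H}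
    (hT : ∀ a ∈ A, a * T = T * a) (h : T Ω ∈ cyc F Ω) :
    proj (cyc F Ω) * T = T * proj (cyc F Ω) := by
  have hT' : ∀ a ∈ A, a * star T = star T * a := fun a ha => by
    have := congrArg star (hT _ (star_mem ha))
    rw [star_mul, star_mul, star_star] at this
    exact this.symm
  have key : ∀ T : H →L[ℂ] H, (∀ a ∈ A, a * T = T * a) → T Ω ∈ cyc F Ω →
      ∀ v ∈ cyc F Ω, T v ∈ cyc F Ω := fun T hT h =>
    cyc_inv (cyc_closed F Ω) fun f hf => by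
      have : T (f Ω) = f (T Ω) := (congrArg (fun x : H →L[ℂ] H => x Ω) (hT f (hF f hf))).symm
      rw [this]
      exact cyc_inv (cyc_closed F Ω) (fun g hg => cyc_mem Ω (mul_mem hf hg)) _ h
  refine proj_comm (key T hT h) (key _ hT' ?_)
  rw [← cyc_cl]
  refine Metric.mem_closure_iff.2 fun ε hε => ?_
  rw [cyc, span_eq] at h
  obtain ⟨_, ⟨f, rfl⟩, hf⟩ := Metric.mem_closure_iff.1 h ε hε
  have hfF : (f : H →L[ℂ] H) ∈ F := f.2
  refine ⟨star (f : H →L[ℂ] H) Ω, cyc_mem Ω (star_mem hfF), lt_of_le_of_lt ?_ hf⟩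
  rw [dist_eq_norm, dist_eq_norm]
  refine S.small (norm_nonneg _) fun a ha => ?_
  have e1 : ⟪star T Ω - star (f : H →L[ℂ] H) Ω, a Ω⟫_ℂ = ⟪star a Ω, T Ω - ev F Ω f⟫_ℂ := by
    rw [inner_sub_left, inner_sub_right, ssym, ssym, ssym, ssym]
    congr 1
    · exact congrArg (fun x : H →L[ℂ] H => ⟪Ω, x Ω⟫_ℂ) (hT a ha).symm
    · exact S.tracial _ (hF _ hfF) _ ha
  rw [e1, mul_comm]
  refine (norm_inner_le_norm _ _).trans (mul_le_mul_of_nonneg_right (le_of_eq ?_) (norm_nonneg _))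
  exact (pow_left_inj₀ (norm_nonneg _) (norm_nonneg _) two_ne_zero).1 (S.nstar ha)

theorem IsSystem.base (S : IsSystem A Ω U) (hF : ∀ f ∈ F, f ∈ A) (ξ : ι → H)
    (hN : ∀ a ∈ A, N ξ (a * proj (cyc F Ω)) = ENNReal.ofReal (‖a Ω‖ ^ 2)) {x : H →L[ℂ] H}
    (hx : x ∈ basic A F Ω) : N ξ (x * proj (cyc F Ω)) = ENNReal.ofReal (‖x Ω‖ ^ 2) := by
  set e := proj (cyc F Ω) with he
  have hb : ∀ i (a : A.toStarSubalgebra), ‖ev A (e (ξ i)) a‖ ≤ 1 * ‖ev A Ω a‖ := fun i a => by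
    have h1 : ENNReal.ofReal (‖((a : H →L[ℂ] H) * e) (ξ i)‖ ^ 2) ≤ _ :=
      (ENNReal.le_tsum i).trans (hN a a.2).le
    rw [ENNReal.ofReal_le_ofReal_iff (sq_nonneg _)] at h1
    rw [one_mul]
    exact (pow_le_pow_iff_left₀ (norm_nonneg _) (norm_nonneg _) two_ne_zero).1 h1
  let W : ι → H →L[ℂ] H := fun i => (ev A (e (ξ i))).extendOfNorm (ev A Ω)
  have hW : ∀ i, ∀ a ∈ A, W i (a Ω) = a (e (ξ i)) := fun i a ha =>
    LinearMap.extendOfNorm_eq S.dense ⟨1, hb i⟩ ⟨a, ha⟩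
  have hWA : ∀ i, ∀ a ∈ A, a * W i = W i * a := fun i a ha => by
    ext v
    refine S.ind (s := {v | (a * W i) v = (W i * a) v})
      (isClosed_eq (by fun_prop) (by fun_prop)) (fun b hb => ?_) v
    change a (W i (b Ω)) = W i ((a * b) Ω)
    rw [hW i b hb, hW i _ (mul_mem ha hb)]
    rfl
  have hW1 : ∀ i, W i Ω = e (ξ i) := fun i => hW i 1 (one_mem _)
  have hWx : ∀ i, (x * e) (ξ i) = W i (x Ω) := fun i => by
    have : W i * x = x * W i := hx _ (by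
      rintro m (rfl | hm)
      · exact S.comm hF (hWA i) (by rw [hW1, ← cyc_cl]; exact proj_mem _ _)
      · exact hWA i m hm)
    change x (e (ξ i)) = (W i * x) Ω
    rw [this, ← hW1]
    rfl
  have hA : ∀ a ∈ A, HasSum (fun i => ‖W i (a Ω)‖ ^ 2) (‖a Ω‖ ^ 2) := fun a ha => by
    have h1 := (N_summ ξ (x := a * e) (by rw [hN a ha]; exact ENNReal.ofReal_ne_top)).hasSum
    rw [← N_toReal, hN a ha, ENNReal.toReal_ofReal (sq_nonneg _)] at h1
    simp only [hW _ a ha]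
    exact h1
  have hS : ∀ (s : Finset ι) v, ∑ i ∈ s, ‖W i v‖ ^ 2 ≤ ‖v‖ ^ 2 := fun s v =>
    S.ind (s := {v | ∑ i ∈ s, ‖W i v‖ ^ 2 ≤ ‖v‖ ^ 2}) (isClosed_le (by fun_prop) (by fun_prop))
      (fun a ha => sum_le_hasSum s (fun _ _ => sq_nonneg _) (hA a ha)) v
  have hs : ∀ v, Summable fun i => ‖W i v‖ ^ 2 := fun v =>
    summable_of_sum_le (fun _ => sq_nonneg _) (hS · v)
  have hq : ∀ v, ∑' i, ‖W i v‖ ^ 2 = ‖v‖ ^ 2 := fun v => by
    refine le_antisymm ((hs v).tsum_le_of_sum_le (hS · v)) ?_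
    have := S.ind (s := {w | 2 * ‖w‖ ^ 2 - ‖w - (v - w)‖ ^ 2 ≤ ∑' i, ‖W i v‖ ^ 2})
      (isClosed_le (by fun_prop) (by fun_prop)) (fun a ha => ?_) v
    · simp only [Set.mem_setOf_eq, sub_self, sub_zero] at this
      linarith
    · have h1 := (hs (a Ω - (v - a Ω))).tsum_le_of_sum_le (hS · _)
      have h2 : 2 * ‖a Ω‖ ^ 2 ≤ ∑' i, ‖W i v‖ ^ 2 + ∑' i, ‖W i (a Ω - (v - a Ω))‖ ^ 2 := by
        refine hasSum_le (fun i => ?_) ((hA a ha).mul_left 2) ((hs _).hasSum.add (hs _).hasSum)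
        have h3 := parallelogram_law_with_norm ℂ (W i (a Ω)) (W i (v - a Ω))
        rw [← map_add, ← map_sub, add_sub_cancel] at h3
        nlinarith [sq_nonneg ‖W i (v - a Ω)‖]
      simp only [Set.mem_setOf_eq]
      linarith
  rw [N_of ξ ((hs (x Ω)).congr fun i => by rw [hWx]), ← hq]
  simp only [hWx]

end Pool.Agent.H75.IE
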