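import Pool.Agent.H75.IE1

set_option linter.unusedSectionVars false
set_option linter.deprecated false

namespace Pool.Agent.H75.IE
open Filter Topology Finset Pool.Agent.H86.Wu Pool.Agent.H75.IL
open scoped InnerProductSpace ENNReal

variable {H : Type} [NormedAddCommGroup H] [InnerProductSpace ℂ H] [CompleteSpace H]
variable {ι κ : Type} {A F G : VonNeumannAlgebra H} {Ω : H} {U : H →L[ℂ] H}

theorem cstar (A F : VonNeumannAlgebra H) (Ω : H) :
    ∀ T ∈ (insert (proj (cyc F Ω)) (A : Set (H →L[ℂ] H))).centralizer,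
      star T ∈ (insert (proj (cyc F Ω)) (A : Set (H →L[ℂ] H))).centralizer := fun T hT =>
  Set.star_mem_centralizer' (by
    rintro a (rfl | ha)
    · rw [(proj_sp _).isSelfAdjoint.star_eq]; exact Set.mem_insert _ _
    · exact Set.mem_insert_of_mem _ (star_mem ha)) hT

noncomputable def Bv (A F : VonNeumannAlgebra H) (Ω : H) : VonNeumannAlgebra H where
  toStarSubalgebra :=
    { Subalgebra.centralizer ℂ (insert (proj (cyc F Ω)) (A : Set (H →L[ℂ] H))).centralizer with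
      star_mem' := fun hx => Set.star_mem_centralizer' (cstar A F Ω) hx }
  centralizer_centralizer' := Set.centralizer_centralizer_centralizer _

theorem mem_Bv {x : H →L[ℂ] H} : x ∈ Bv A F Ω ↔ x ∈ basic A F Ω := Iff.rfl

theorem Bv_A {a : H →L[ℂ] H} (ha : a ∈ A) : a ∈ Bv A F Ω :=
  Set.subset_centralizer_centralizer (Set.mem_insert_of_mem _ ha)

theorem Bv_e : proj (cyc F Ω) ∈ Bv A F Ω :=
  Set.subset_centralizer_centralizer (Set.mem_insert _ _)

theorem e_om (F : VonNeumannAlgebra H) (Ω : H) : proj (cyc F Ω) Ω = Ω :=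
  proj_self (by rw [cyc_cl]; exact cyc_mem Ω (one_mem F))

theorem vsm {B : VonNeumannAlgebra H} (c : ℂ) {x : H →L[ℂ] H} (hx : x ∈ B) : c • x ∈ B :=
  B.toStarSubalgebra.smul_mem hx c

theorem exsq (B : VonNeumannAlgebra H) {y : H →L[ℂ] H} (hB : y ∈ B) (hy : 0 ≤ y) :
    ∃ c ∈ B, IsSelfAdjoint c ∧ c * y * c + c * c = 1 := by
  have hs : IsSelfAdjoint y := .of_nonneg hy
  have hp : ∀ t ∈ spectrum ℝ y, 0 < 1 + t := fun t ht => by
    have := spectrum_nonneg_of_nonneg hy ht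
    linarith
  have hc : ContinuousOn (fun t : ℝ => (Real.sqrt (1 + t))⁻¹) (spectrum ℝ y) :=
    ContinuousOn.inv₀ (by fun_prop) fun t ht => (Real.sqrt_pos.2 (hp t ht)).ne'
  refine ⟨cfc (fun t : ℝ => (Real.sqrt (1 + t))⁻¹) y, cfc_mem' B hB _, cfc_predicate _ _, ?_⟩
  nth_rewrite 2 [← cfc_id' ℝ y]
  have hi : ContinuousOn (fun t : ℝ => t) (spectrum ℝ y) := continuousOn_id
  have hd : ContinuousOn (fun t : ℝ => (Real.sqrt (1 + t))⁻¹ * t) (spectrum ℝ y) := hc.mul hi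
  rw [← cfc_mul _ _ y hc hi, ← cfc_mul _ _ y hd hc, ← cfc_mul _ _ y hc hc,
    ← cfc_add (a := y) _ _ (by exact hd.mul hc) (by exact hc.mul hc), ← cfc_one ℝ y]
  refine cfc_congr fun t ht => ?_
  have h1 := Real.mul_self_sqrt (hp t ht).le
  have h2 := (Real.sqrt_pos.2 (hp t ht)).ne'
  simp only [Pi.one_apply]
  field_simp
  nlinarith

theorem IsSystem.uniq (S : IsSystem A Ω U) (ξ : ι → H) (η : κ → H)
    (h : ∀ x ∈ Bv A F Ω, N ξ (proj (cyc F Ω) * star x) = N η (proj (cyc F Ω) * star x))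
    {z : H →L[ℂ] H} (hz : z ∈ Bv A F Ω) : N ξ z ≤ N η z := by
  set e := proj (cyc F Ω) with he
  have hp : IsStarProjection e := proj_sp _
  by_cases hf : N η z = ⊤
  · rw [hf]; exact le_top
  rw [N, ENNReal.tsum_eq_iSup_sum]
  refine iSup_le fun s => ?_
  rw [← ENNReal.ofReal_sum_of_nonneg fun _ _ => sq_nonneg _, ENNReal.ofReal_le_iff_le_toReal hf,
    N_toReal]
  have main : ∀ δ : ℝ, 0 < δ → ∑ i ∈ s, ‖z (ξ i)‖ ^ 2 ≤
      ∑' j, ‖z (η j)‖ ^ 2 + s.card * (2 * δ) ^ 2 := fun δ hδ => by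
    choose a ha using fun i => S.dense.exists_dist_lt (z (ξ i)) hδ
    let b : ι → H →L[ℂ] H := fun i => ((δ⁻¹ : ℝ) : ℂ) • (a i : H →L[ℂ] H)
    have hb : ∀ i, b i ∈ Bv A F Ω := fun i => vsm _ (Bv_A (a i).2)
    have he' : e ∈ Bv A F Ω := Bv_e
    obtain ⟨c, hcB, hc, hcy⟩ := exsq (Bv A F Ω) (y := ∑ k ∈ s, star (e * star (b k)) *
      (e * star (b k))) (sum_mem fun k _ => mul_mem (star_mem (mul_mem he' (star_mem (hb k))))
        (mul_mem he' (star_mem (hb k)))) (sum_nonneg fun k _ => star_mul_self_nonneg _)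
    obtain ⟨g, hgd⟩ : ∃ g : ι → H →L[ℂ] H, ∀ k, g k = e * star (b k) * c := ⟨_, fun _ => rfl⟩
    have hid : ∀ w, ∑ k ∈ s, ‖g k w‖ ^ 2 + ‖c w‖ ^ 2 = ‖w‖ ^ 2 := fun w => by
      have h1 : ∑ k ∈ s, star (g k) * g k + star c * c = star 1 * 1 := by
        rw [star_one, one_mul, ← hcy, mul_sum, sum_mul, hc.star_eq]
        congr 1
        refine sum_congr rfl fun k _ => ?_
        rw [hgd, star_mul (e * star (b k)) c, hc.star_eq]
        simp only [mul_assoc]
      have h2 := resq (1 : H →L[ℂ] H) w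
      rw [← h1, ContinuousLinearMap.add_apply, inner_add_right, Complex.add_re, resq,
        ContinuousLinearMap.sum_apply, inner_sum, Complex.re_sum] at h2
      simp only [resq] at h2
      exact h2
    have hg : ∀ w, ∑ k ∈ s, ‖g k w‖ ^ 2 ≤ ‖w‖ ^ 2 := fun w => by
      have := hid w
      nlinarith [sq_nonneg ‖c w‖]
    have hg1 : ∀ k ∈ s, ∀ w, ‖g k w‖ ^ 2 ≤ 1 * ‖w‖ ^ 2 := fun k hk w => by
      rw [one_mul]
      exact (single_le_sum (f := fun k => ‖g k w‖ ^ 2) (fun _ _ => sq_nonneg _) hk).trans (hg w)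
    have hc1 : ∀ w, ‖c w‖ ≤ ‖w‖ := fun w => by
      have h1 := hid w
      have h2 : 0 ≤ ∑ k ∈ s, ‖g k w‖ ^ 2 := sum_nonneg fun _ _ => sq_nonneg _
      exact (pow_le_pow_iff_left₀ (norm_nonneg _) (norm_nonneg _) two_ne_zero).1 (by linarith)
    have hcb : ∀ k ∈ s, ‖c (b k Ω)‖ ≤ 1 := fun k hk => by
      set w := c (b k Ω) with hw
      have h1 : ⟪w, w⟫_ℂ = ⟪Ω, g k w⟫_ℂ := by
        nth_rewrite 1 [hw, ← e_om F Ω]
        rw [ssym', ssym', ssym', hc.star_eq, hp.isSelfAdjoint.star_eq, hgd]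
        rfl
      have h2 := norm_inner_le_norm (𝕜 := ℂ) Ω (g k w)
      rw [← h1, inner_self_eq_norm_sq_to_K, S.norm_one] at h2
      simp only [norm_pow, Complex.coe_algebraMap, Complex.norm_real, norm_norm] at h2
      have h3 := hg1 k hk w
      rw [one_mul, pow_le_pow_iff_left₀ (norm_nonneg _) (norm_nonneg _) two_ne_zero] at h3
      nlinarith [norm_nonneg w]
    have hcv : ∀ k ∈ s, ‖c (z (ξ k))‖ ^ 2 ≤ (2 * δ) ^ 2 := fun k hk => by
      have h1 := hcb k hk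
      have h2 : c (b k Ω) = ((δ⁻¹ : ℝ) : ℂ) • c (ev A Ω (a k)) := map_smul c _ _
      rw [h2, norm_smul, Complex.norm_real, Real.norm_of_nonneg (inv_pos.2 hδ).le,
        inv_mul_le_iff₀ hδ] at h1
      have h3 := hc1 (z (ξ k) - ev A Ω (a k))
      have h4 := ha k
      rw [dist_eq_norm] at h4
      have h5 := norm_add_le (c (z (ξ k) - ev A Ω (a k))) (c (ev A Ω (a k)))
      rw [← map_add, sub_add_cancel] at h5
      exact pow_le_pow_left₀ (norm_nonneg _) (by linarith) 2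
    have hfin : ∀ k ∈ s, N η (g k * z) ≠ ⊤ := fun k hk =>
      N_fin η zero_le_one (fun v => hg1 k hk (z v)) hf
    have heq : ∀ k, N ξ (g k * z) = N η (g k * z) := fun k => by
      have := h (star z * c * b k) (mul_mem (mul_mem (star_mem hz) hcB) (hb k))
      simpa only [hgd, star_mul, star_star, hc.star_eq, mul_assoc] using this
    have h1 : ∑ i ∈ s, ∑ k ∈ s, ‖g k (z (ξ i))‖ ^ 2 ≤ ∑' j, ‖z (η j)‖ ^ 2 := by
      rw [sum_comm]
      calc ∑ k ∈ s, ∑ i ∈ s, ‖g k (z (ξ i))‖ ^ 2 ≤ ∑ k ∈ s, ∑' j, ‖(g k * z) (η j)‖ ^ 2 := by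
            refine sum_le_sum fun k hk => ?_
            rw [← N_toReal, ← heq, N_toReal]
            exact (N_summ ξ (x := g k * z) (by rw [heq]; exact hfin k hk)).sum_le_tsum s
              fun _ _ => sq_nonneg _
        _ ≤ _ := hasSum_le (fun j => by exact hg (z (η j)))
            (hasSum_sum fun k hk => (N_summ η (hfin k hk)).hasSum) (N_summ η hf).hasSum
    have h2 := sum_le_card_nsmul s _ _ hcv
    rw [nsmul_eq_mul] at h2
    rw [← sum_congr rfl fun i _ => hid (z (ξ i)), sum_add_distrib]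
    linarith
  have ht : Tendsto (fun δ : ℝ => ∑' j, ‖z (η j)‖ ^ 2 + s.card * (2 * δ) ^ 2) (𝓝[>] 0)
      (𝓝 (∑' j, ‖z (η j)‖ ^ 2 + s.card * (2 * 0) ^ 2)) :=
    (Continuous.tendsto (by fun_prop) 0).mono_left nhdsWithin_le_nhds
  simpa using ge_of_tendsto ht (eventually_mem_nhdsWithin.mono fun δ hδ => main δ hδ)

/-- the vector form of a trace on the basic construction -/
structure Tr (A F : VonNeumannAlgebra H) (Ω : H) (ξ : ι → H) : Prop where
  tr : ∀ x ∈ Bv A F Ω, N ξ x = N ξ (star x)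
  faith : ∀ x ∈ Bv A F Ω, N ξ x = 0 → x = 0
  base : ∀ x ∈ Bv A F Ω, N ξ (x * proj (cyc F Ω)) = ENNReal.ofReal (‖x Ω‖ ^ 2)

theorem IsBar.ex (S : IsSystem A Ω U) (hF : ∀ f ∈ F, f ∈ A) {τ : (H →L[ℂ] H) → ℝ≥0∞}
    (h : IsBar A F Ω τ) : ∃ (ι : Type) (ξ : ι → H), Tr A F Ω ξ ∧
      ∀ V, proj V ∈ Bv A F Ω → τ (proj V) = N ξ (proj V) := by
  obtain ⟨ι, ξ, hξ⟩ := h.normal
  have h1 : ∀ x ∈ Bv A F Ω, τ (star x * x) = N ξ x := fun x hx => by
    rw [hξ _ (mem_Bv.1 (mul_mem (star_mem hx) hx)) (star_mul_self_nonneg _)]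
    simp only [resq]
    rfl
  have h2 : ∀ x ∈ Bv A F Ω, N ξ x = N ξ (star x) := fun x hx => by
    rw [← h1 x hx, ← h1 _ (star_mem hx), star_star, h.trace x hx]
  refine ⟨ι, ξ, ⟨h2, fun x hx h0 => h.faithful x hx (by rw [h1 x hx, h0]),
    fun x hx => S.base hF ξ (fun a ha => ?_) hx⟩, fun V hV => ?_⟩
  · have hm : a * proj (cyc F Ω) ∈ Bv A F Ω := mul_mem (Bv_A ha) Bv_e
    rw [h2 _ hm, ← h1 _ (star_mem hm), star_star, star_mul, (proj_sp _).isSelfAdjoint.star_eq,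
      mul_assoc, ← mul_assoc (proj _), (proj_sp _).isIdempotentElem.eq, ← mul_assoc, h.base a ha,
      S.tracial _ ha _ (star_mem ha), resq]
  · rw [← h1 _ hV, (proj_sp _).isSelfAdjoint.star_eq, (proj_sp _).isIdempotentElem.eq]

theorem IsSystem.uu (S : IsSystem A Ω U) : star U * U = 1 := S.unit.1
theorem IsSystem.uu' (S : IsSystem A Ω U) : U * star U = 1 := S.unit.2

theorem IsSystem.nU (S : IsSystem A Ω U) (v : H) : ‖U v‖ ^ 2 = ‖v‖ ^ 2 := by
  rw [← resq, S.uu, ← star_one, ← mul_one (star 1), resq]; rfl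

theorem IsSystem.symm (S : IsSystem A Ω U) : IsSystem A Ω (star U) where
  norm_one := S.norm_one
  cyclic := S.cyclic
  separating := S.separating
  tracial := S.tracial
  unit := Unitary.star_mem S.unit
  fix := by
    nth_rewrite 1 [← S.fix]
    exact congrArg (fun x : H →L[ℂ] H => x Ω) S.uu
  aut a := by
    rw [S.aut (star U * a * star (star U)), star_star]
    simp only [← mul_assoc, S.uu', one_mul]
    rw [mul_assoc, S.uu', mul_one]

theorem IsSub.symm (S : IsSystem A Ω U) (hF : IsSub A F U) : IsSub A F (star U) where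
  le := hF.le
  inv a := by
    rw [hF.inv (star U * a * star (star U)), star_star]
    simp only [← mul_assoc, S.uu', one_mul]
    rw [mul_assoc, S.uu', mul_one]

theorem IsSub.cycU (S : IsSystem A Ω U) (hF : IsSub A F U) : ∀ v ∈ cyc F Ω, U v ∈ cyc F Ω :=
  cyc_inv (cyc_closed F Ω) fun f hf => by
    have := cyc_mem Ω ((hF.inv f).1 hf)
    change U (f (star U Ω)) ∈ _ at this
    rwa [S.symm.fix] at this

theorem IsSub.eU (S : IsSystem A Ω U) (hF : IsSub A F U) :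
    proj (cyc F Ω) * U = U * proj (cyc F Ω) := proj_comm (hF.cycU S) ((hF.symm S).cycU S.symm)

theorem conj_cent {s : Set (H →L[ℂ] H)} (h1 : star U * U = 1) (h2 : U * star U = 1)
    (hs : ∀ m ∈ s, star U * m * U ∈ s) {x : H →L[ℂ] H} (hx : x ∈ s.centralizer) :
    U * x * star U ∈ s.centralizer := fun m hm => by
  have := hx _ (hs m hm)
  calc m * (U * x * star U) = (U * star U) * m * (U * x * star U) := by rw [h2, one_mul]
    _ = U * (star U * m * U * x) * star U := by simp only [mul_assoc]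
    _ = U * x * star U * m * (U * star U) := by rw [this]; simp only [mul_assoc]
    _ = _ := by rw [h2, mul_one]

theorem IsSub.BU (S : IsSystem A Ω U) (hF : IsSub A F U) {x : H →L[ℂ] H} (hx : x ∈ Bv A F Ω) :
    U * x * star U ∈ Bv A F Ω := by
  refine conj_cent S.uu S.uu' (fun m hm => ?_) hx
  have := conj_cent (U := star U) (by rw [star_star, S.uu']) (by rw [star_star, S.uu]) ?_ hm
  · rwa [star_star] at this
  · rintro a (rfl | ha)
    · rw [star_star, ← hF.eU S, mul_assoc, S.uu', mul_one]; exact Set.mem_insert _ _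
    · rw [star_star]; exact Set.mem_insert_of_mem _ ((S.aut a).1 ha)

theorem Tr.inv (S : IsSystem A Ω U) (hF : IsSub A F U) {ξ : ι → H} (h : Tr A F Ω ξ)
    {z : H →L[ℂ] H} (hz : z ∈ Bv A F Ω) : N ξ (U * z * star U) = N ξ z := by
  have h1 : ∀ z : H →L[ℂ] H, N ξ (U * z * star U) = N (fun i => star U (ξ i)) z := fun z =>
    tsum_congr fun i => congrArg ENNReal.ofReal (S.nU _)
  have h0 : ∀ x ∈ Bv A F Ω, N ξ (proj (cyc F Ω) * star x) = ENNReal.ofReal (‖x Ω‖ ^ 2) :=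
    fun x hx => by
      rw [← h.base x hx, h.tr _ (mul_mem hx Bv_e), star_mul, (proj_sp _).isSelfAdjoint.star_eq]
  have h2 : ∀ x ∈ Bv A F Ω, N ξ (proj (cyc F Ω) * star x) =
      N (fun i => star U (ξ i)) (proj (cyc F Ω) * star x) := fun x hx => by
    have h3 := h0 _ (hF.BU S hx)
    rw [star_mul, star_mul, star_star, ← mul_assoc, ← mul_assoc, hF.eU S, mul_assoc U] at h3
    rw [← h1, h0 x hx, h3]
    change _ = ENNReal.ofReal (‖U (x (star U Ω))‖ ^ 2)
    rw [S.nU, S.symm.fix]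
  rw [h1]
  exact le_antisymm (S.uniq _ _ (fun x hx => (h2 x hx).symm) hz) (S.uniq _ _ h2 hz)

theorem Bv_le (hFG : ∀ f ∈ F, f ∈ G) (hG : ∀ g ∈ G, g ∈ A) {x : H →L[ℂ] H}
    (hx : x ∈ Bv A G Ω) : x ∈ Bv A F Ω := by
  have key : ∀ T ∈ (insert (proj (cyc F Ω)) (A : Set (H →L[ℂ] H))).centralizer,
      ∀ v ∈ cyc G Ω, T v ∈ cyc G Ω := fun T hT => cyc_inv (cyc_closed G Ω) fun g hg => by
    have h1 : T (g Ω) = g (T Ω) := (congrArg (fun x : H →L[ℂ] H => x Ω)
      (hT g (Set.mem_insert_of_mem _ (hG g hg)))).symm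
    have h2 : proj (cyc F Ω) (T Ω) = T (proj (cyc F Ω) Ω) :=
      congrArg (fun x : H →L[ℂ] H => x Ω) (hT _ (Set.mem_insert _ _))
    rw [e_om] at h2
    have h3 := proj_mem (cyc F Ω) (T Ω)
    rw [h2, cyc_cl] at h3
    rw [h1]
    exact cyc_inv (cyc_closed G Ω) (fun f hf => cyc_mem Ω (mul_mem hg (hFG f hf))) _ h3
  intro T hT
  refine hx T ?_
  rintro m (rfl | hm)
  · exact proj_comm (key T hT) (key _ (cstar A F Ω T hT))
  · exact hT m (Set.mem_insert_of_mem _ hm)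

end Pool.Agent.H75.IE
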