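import Pool.Agent.H75.IE2

set_option linter.unusedSectionVars false
set_option linter.deprecated false

namespace Pool.Agent.H75.IE
open Filter Topology Finset Pool.Agent.H86.Wu Pool.Agent.H75.IL
open scoped InnerProductSpace ENNReal

variable {H : Type} [NormedAddCommGroup H] [InnerProductSpace ℂ H] [CompleteSpace H]
variable {ι κ : Type} {A F G : VonNeumannAlgebra H} {Ω : H} {U : H →L[ℂ] H}

noncomputable def ph (p : ι → H) (x : H →L[ℂ] H) : ℝ := ∑' i, (⟪p i, x (p i)⟫_ℂ).re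

theorem hs_congr {f g : ι → ℝ} {a : ℝ} (h : HasSum f a) (e : ∀ i, g i = f i) :
    HasSum g a := (funext e : g = f) ▸ h

theorem ph_b (p : H) (x : H →L[ℂ] H) : ‖(⟪p, x p⟫_ℂ).re‖ ≤ ‖x‖ * ‖p‖ ^ 2 := by
  rw [sq]
  exact (Complex.abs_re_le_norm _).trans (bnd x p p)

theorem ph_s {p : ι → H} (hp : Summable fun i => ‖p i‖ ^ 2) (x : H →L[ℂ] H) :
    HasSum (fun i => (⟪p i, x (p i)⟫_ℂ).re) (ph p x) :=
  (Summable.of_norm_bounded (hp.mul_left ‖x‖) fun _ => ph_b _ x).hasSum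

theorem ph_add {p : ι → H} (hp : Summable fun i => ‖p i‖ ^ 2) (x y : H →L[ℂ] H) :
    ph p (x + y) = ph p x + ph p y := by
  refine (ph_s hp _).unique ?_
  simpa only [ContinuousLinearMap.add_apply, inner_add_right, Complex.add_re] using
    (ph_s hp x).add (ph_s hp y)

theorem ph_smul {p : ι → H} (t : ℝ) (x : H →L[ℂ] H) : ph p ((t : ℂ) • x) = t * ph p x := by
  rw [ph, ph, ← tsum_mul_left]
  simp only [ContinuousLinearMap.smul_apply, inner_smul_right, Complex.re_ofReal_mul]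

/-- existence of a maximiser -/
theorem exmax (B : VonNeumannAlgebra H) (r : H →L[ℂ] H) {p : ι → H}
    (hp : Summable fun i => ‖p i‖ ^ 2) (η : κ → H) :
    ∃ x, (x ∈ B ∧ ‖x‖ ≤ 1 ∧ r * x = x ∧ N η x ≠ ⊤) ∧
      ∀ y, (y ∈ B ∧ ‖y‖ ≤ 1 ∧ r * y = y ∧ N η y ≠ ⊤) →
        ph p y - (N η y).toReal ≤ ph p x - (N η x).toReal := by
  set K := {x : H →L[ℂ] H | x ∈ B ∧ ‖x‖ ≤ 1 ∧ r * x = x ∧ N η x ≠ ⊤} with hK
  have hb : ∀ x ∈ K, ∀ i, ‖(⟪p i, x (p i)⟫_ℂ).re‖ ≤ ‖p i‖ ^ 2 := fun x hx i =>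
    (ph_b _ x).trans (mul_le_of_le_one_left (sq_nonneg _) hx.2.1)
  have hbd : BddAbove ((fun x => ph p x - (N η x).toReal) '' K) := by
    refine ⟨∑' i, ‖p i‖ ^ 2, ?_⟩
    rintro _ ⟨x, hx, rfl⟩
    have h1 := hasSum_le (fun i => (le_abs_self _).trans (hb x hx i)) (ph_s hp x) hp.hasSum
    have h2 := ENNReal.toReal_nonneg (a := N η x)
    simp only
    linarith
  have hK0 : (0 : H →L[ℂ] H) ∈ K := ⟨zero_mem _, by simp, mul_zero _, by simp [N]⟩
  obtain ⟨u, -, hu, hmem⟩ := exists_seq_tendsto_sSup (Set.Nonempty.image _ ⟨0, hK0⟩) hbd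
  choose x hx hxu using hmem
  set M := sSup ((fun x => ph p x - (N η x).toReal) '' K) with hM
  obtain ⟨z, hz⟩ := wlim ((hyperfilter ℕ).map x) (Ultrafilter.mem_map.2
    (univ_mem' fun n => (hx n).2.1))
  have hz' : ∀ a b, Tendsto (fun n => ⟪a, x n b⟫_ℂ) (hyperfilter ℕ) (𝓝 ⟪a, z b⟫_ℂ) :=
    fun a b => hz a b
  have hre : ∀ a b, Tendsto (fun n => (⟪a, x n b⟫_ℂ).re) (hyperfilter ℕ) (𝓝 (⟪a, z b⟫_ℂ).re) :=
    fun a b => (Complex.continuous_re.tendsto _).comp (hz' a b)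
  have hl : ∀ a b : H →L[ℂ] H, (∀ n, a * x n = x n * b) → a * z = z * b := fun a b h => by
    ext v
    refine ext_inner_left ℂ fun w => tendsto_nhds_unique ?_ (hz' w (b v))
    have := hz' (star a w) v
    simp only [ssym] at this
    exact this.congr fun n => congrArg (fun t : H →L[ℂ] H => ⟪w, t v⟫_ℂ) (h n)
  have hph : Tendsto (fun n => ph p (x n)) (hyperfilter ℕ) (𝓝 (ph p z)) :=
    tendsto_tsum_of_dominated_convergence hp (fun i => hre _ _)
      (Eventually.of_forall fun n => hb _ (hx n))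
  have hu' : Tendsto u (hyperfilter ℕ) (𝓝 M) :=
    hu.mono_left (by rw [← Nat.cofinite_eq_atTop]; exact hyperfilter_le_cofinite)
  have hself : ∀ w : H, (⟪w, w⟫_ℂ).re = ‖w‖ ^ 2 := fun w => inner_self_eq_norm_sq (𝕜 := ℂ) w
  have hs : ∀ s : Finset κ, ∑ j ∈ s, ‖z (η j)‖ ^ 2 ≤ ph p z - M := fun s => by
    have h1 := le_of_tendsto_of_tendsto' (tendsto_finset_sum s fun j _ =>
      ((hre (z (η j)) (η j)).const_mul 2).sub_const (‖z (η j)‖ ^ 2)) (hph.sub hu') fun n => by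
        have h2 := (N_summ η (hx n).2.2.2).sum_le_tsum s fun _ _ => sq_nonneg _
        rw [← N_toReal] at h2
        have h3 : ph p (x n) - (N η (x n)).toReal = u n := hxu n
        refine (sum_le_sum fun j _ => ?_).trans (h2.trans (by linarith))
        have h4 := norm_sub_sq (𝕜 := ℂ) (z (η j)) (x n (η j))
        simp only [RCLike.re_to_complex] at h4
        nlinarith [sq_nonneg ‖z (η j) - x n (η j)‖]
    refine le_of_eq_of_le (sum_congr rfl fun j _ => ?_) h1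
    rw [hself]; ring
  have hsm := summable_of_sum_le (fun _ => sq_nonneg _) hs
  refine ⟨z, ⟨mem_of_comm B fun T hT => hl T T fun n => (comm_of_mem B (hx n).1 hT).symm.eq,
    ?_, ?_, ?_⟩, fun y hy => ?_⟩
  · refine z.opNorm_le_bound zero_le_one fun v => ?_
    have h1 := le_of_tendsto' (hre (z v) v) (b := ‖z v‖ * ‖v‖) fun n =>
      ((Complex.re_le_norm _).trans (bnd _ _ _)).trans
        (mul_le_of_le_one_left (by positivity) (hx n).2.1)
    rw [hself] at h1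
    rcases (norm_nonneg (z v)).eq_or_lt with h0 | h0
    · rw [← h0]; positivity
    · nlinarith
  · simpa using hl r 1 fun n => by rw [mul_one, (hx n).2.2.1]
  · rw [N_of η hsm]; exact ENNReal.ofReal_ne_top
  · have h1 : ph p y - (N η y).toReal ≤ M := le_csSup hbd ⟨y, hy, rfl⟩
    have h2 := hsm.tsum_le_of_sum_le hs
    rw [N_toReal η z]
    linarith

theorem unimax {B : VonNeumannAlgebra H} {r : H →L[ℂ] H} {p : ι → H}
    (hp : Summable fun i => ‖p i‖ ^ 2) {η : κ → H} (hf : ∀ x ∈ B, N η x = 0 → x = 0)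
    {x x' : H →L[ℂ] H} (hx : x ∈ B ∧ ‖x‖ ≤ 1 ∧ r * x = x ∧ N η x ≠ ⊤)
    (hx' : x' ∈ B ∧ ‖x'‖ ≤ 1 ∧ r * x' = x' ∧ N η x' ≠ ⊤)
    (hm : ∀ y, (y ∈ B ∧ ‖y‖ ≤ 1 ∧ r * y = y ∧ N η y ≠ ⊤) →
        ph p y - (N η y).toReal ≤ ph p x - (N η x).toReal)
    (he : ph p x' - (N η x').toReal = ph p x - (N η x).toReal) : x' = x := by
  set m : H →L[ℂ] H := (((1 / 2 : ℝ)) : ℂ) • (x + x') with hmd
  have hv : ∀ v, ‖m v‖ ^ 2 + 1 / 4 * ‖(x' - x) v‖ ^ 2 = 1 / 2 * (‖x v‖ ^ 2 + ‖x' v‖ ^ 2) :=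
    fun v => by
      have h1 := parallelogram_law_with_norm ℂ (x' v) (x v)
      have h2 : ‖m v‖ = 1 / 2 * ‖x' v + x v‖ := by
        rw [hmd, ContinuousLinearMap.smul_apply, norm_smul, ContinuousLinearMap.add_apply, add_comm]
        simp
      rw [h2, ContinuousLinearMap.sub_apply]
      nlinarith
  have hs := ((N_summ η hx.2.2.2).add (N_summ η hx'.2.2.2)).mul_left (1 / 2)
  have hs1 : Summable fun j => ‖m (η j)‖ ^ 2 := hs.of_nonneg_of_le (fun _ => sq_nonneg _)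
    fun j => by nlinarith [hv (η j), sq_nonneg ‖(x' - x) (η j)‖]
  have hs2 : Summable fun j => ‖(x' - x) (η j)‖ ^ 2 :=
    (hs.mul_left 4).of_nonneg_of_le (fun _ => sq_nonneg _)
      fun j => by nlinarith [hv (η j), sq_nonneg ‖m (η j)‖]
  have h1 := hm m ⟨vsm _ (add_mem hx.1 hx'.1), ?_, ?_, ?_⟩
  · have h2 := hs1.hasSum.add (hs2.hasSum.mul_left (1 / 4))
    simp only [hv] at h2
    have h3 := h2.unique (((N_summ η hx.2.2.2).hasSum.add
      (N_summ η hx'.2.2.2).hasSum).mul_left (1 / 2))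
    rw [hmd, ph_smul, ph_add hp, ← hmd] at h1
    simp only [N_toReal] at h1 he
    refine sub_eq_zero.1 (hf _ (sub_mem hx'.1 hx.1) ?_)
    rw [N_of η hs2, ENNReal.ofReal_eq_zero]
    linarith
  · rw [hmd, norm_smul]
    have := norm_add_le x x'
    simp only [one_div, Complex.norm_real, norm_inv, Real.norm_ofNat]
    linarith [hx.2.1, hx'.2.1]
  · rw [hmd, mul_smul_comm, mul_add, hx.2.2.1, hx'.2.2.1]
  · rw [N_of η hs1]; exact ENNReal.ofReal_ne_top

theorem opb (x y : H →L[ℂ] H) (v : H) : ‖(x * y) v‖ ^ 2 ≤ ‖x‖ ^ 2 * ‖y v‖ ^ 2 := by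
  rw [← mul_pow]
  exact pow_le_pow_left₀ (norm_nonneg _) (x.le_opNorm _) 2

theorem key (S : IsSystem A Ω U) (hF : IsSub A F U) (hG : IsSub A G U) (hFG : ∀ f ∈ F, f ∈ G)
    {ξ : ι → H} {η : κ → H} (hξ : Tr A F Ω ξ) (hη : Tr A G Ω η) {P r : H →L[ℂ] H}
    (hP : P ∈ Bv A F Ω) (hPU : P * U = U * P) (hPf : N ξ P ≠ ⊤) (hr : IsSelfAdjoint r)
    (hr2 : r * r = r) (hrB : r ∈ Bv A G Ω) (hrU : r * U = U * r)
    (h0 : ∀ x ∈ Bv A G Ω, r * x = x → U * x * star U = x → N η x ≠ ⊤ → x = 0) : r * P = 0 := by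
  have hp := N_summ ξ hPf
  have hfin : ∀ w : H →L[ℂ] H, N ξ (w * P) ≠ ⊤ := fun w => N_fin ξ (sq_nonneg _) (opb w P) hPf
  have hpol : ∀ w : H →L[ℂ] H, 4 * ph (fun i => P (ξ i)) w =
      (N ξ ((1 + w) * P)).toReal - (N ξ ((1 - w) * P)).toReal := fun w => by
    rw [N_toReal, N_toReal]
    refine ((ph_s hp w).mul_left 4).unique ?_
    refine hs_congr ((N_summ ξ (hfin (1 + w))).hasSum.sub (N_summ ξ (hfin (1 - w))).hasSum)
      fun i => ?_
    have h1 := norm_sub_sq (𝕜 := ℂ) (P (ξ i)) (w (P (ξ i)))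
    have h2 := norm_add_sq (𝕜 := ℂ) (P (ξ i)) (w (P (ξ i)))
    simp only [RCLike.re_to_complex] at h1 h2
    change _ = ‖P (ξ i) + w (P (ξ i))‖ ^ 2 - ‖P (ξ i) - w (P (ξ i))‖ ^ 2
    linarith
  have hcj : ∀ w : H →L[ℂ] H, U * w * star U * P = U * (w * P) * star U := fun w => by
    have : star U * P = P * star U := by
      calc star U * P = star U * P * (U * star U) := by rw [S.uu', mul_one]
        _ = star U * (P * U) * star U := by simp only [mul_assoc]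
        _ = _ := by rw [hPU, ← mul_assoc, S.uu, one_mul]
    simp only [mul_assoc, this]
  obtain ⟨x, hx, hm⟩ := exmax (Bv A G Ω) r hp η
  have hxF := Bv_le hFG hG.le hx.1
  have hinv : U * x * star U = x := by
    refine unimax hp hη.faith hx ⟨hG.BU S hx.1, ?_, ?_, ?_⟩ hm ?_
    · rw [CStarRing.norm_mul_mem_unitary _ (Unitary.star_mem S.unit),
        CStarRing.norm_mem_unitary_mul _ S.unit]
      exact hx.2.1
    · rw [← mul_assoc, ← mul_assoc, hrU, mul_assoc U, hx.2.2.1]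
    · rw [hη.inv S hG hx.1]; exact hx.2.2.2
    · rw [hη.inv S hG hx.1]
      have h1 := hpol x
      have h2 := hpol (U * x * star U)
      have e1 : 1 + U * x * star U = U * (1 + x) * star U := by
        rw [mul_add, add_mul, mul_one, S.uu']
      have e2 : 1 - U * x * star U = U * (1 - x) * star U := by
        rw [mul_sub, sub_mul, mul_one, S.uu']
      rw [e1, e2, hcj, hcj, hξ.inv S hF (mul_mem (add_mem (one_mem _) hxF) hP),
        hξ.inv S hF (mul_mem (sub_mem (one_mem _) hxF) hP)] at h2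
      linarith
  have hx0 := h0 x hx.1 hx.2.2.1 hinv hx.2.2.2
  subst hx0
  have hz : ∀ a ∈ A, star (r * (a * proj (cyc G Ω))) * P = 0 := fun a ha => by
    set z := r * (a * proj (cyc G Ω)) with hzd
    have hzB : z ∈ Bv A G Ω := mul_mem hrB (mul_mem (Bv_A ha) Bv_e)
    have h1 : N η (z * star z) ≠ ⊤ := by
      refine N_fin η (sq_nonneg _) (opb _ _) ?_
      rw [← hη.tr z hzB]
      refine N_fin η (sq_nonneg _) (opb _ _) ?_
      rw [hη.base a (Bv_A ha)]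
      exact ENNReal.ofReal_ne_top
    have h2 : ∀ t ∈ Set.Ioo (0 : ℝ) (1 / (‖z * star z‖ + 1)),
        ph (fun i => P (ξ i)) (z * star z) ≤ t * (N η (z * star z)).toReal := fun t ht => by
      have hn : ∀ v, ‖((t : ℂ) • (z * star z)) v‖ ^ 2 = t ^ 2 * ‖(z * star z) v‖ ^ 2 := fun v => by
        rw [ContinuousLinearMap.smul_apply, norm_smul, mul_pow]
        simp
      have h3 := hm ((t : ℂ) • (z * star z)) ⟨vsm _ (mul_mem hzB (star_mem hzB)), ?_, ?_,
        N_fin η (sq_nonneg t) (fun v => (hn v).le) h1⟩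
      · rw [ph_smul, N_toReal] at h3
        simp only [hn, tsum_mul_left] at h3
        rw [← N_toReal] at h3
        have h4 : ph (fun i => P (ξ i)) 0 - (N η 0).toReal = 0 := by simp [ph, N]
        rw [h4] at h3
        nlinarith [ht.1]
      · have h4 := ht.2
        rw [lt_div_iff₀ (by positivity)] at h4
        rw [norm_smul, Complex.norm_real, Real.norm_of_nonneg ht.1.le]
        nlinarith [ht.1]
      · rw [mul_smul_comm, ← mul_assoc, hzd, ← mul_assoc r r, hr2]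
    have ht : Tendsto (fun t : ℝ => t * (N η (z * star z)).toReal) (𝓝[>] 0)
        (𝓝 (0 * (N η (z * star z)).toReal)) :=
      (Continuous.tendsto (by fun_prop) 0).mono_left nhdsWithin_le_nhds
    have h3 := ge_of_tendsto ht (mem_of_superset (Ioo_mem_nhdsGT (by positivity)) h2)
    refine hξ.faith _ (mul_mem (star_mem (Bv_le hFG hG.le hzB)) hP) ?_
    rw [N_of ξ (N_summ ξ (hfin _)), ENNReal.ofReal_eq_zero]
    refine le_of_eq_of_le (tsum_congr fun i => ?_) (h3.trans (zero_mul _).le)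
    have := resq (star z) (P (ξ i))
    rw [star_star] at this
    exact this.symm
  ext v
  refine norm_le_zero_iff.1 (S.small le_rfl fun a ha => le_of_eq ?_)
  have h1 : ⟪(r * P) v, a Ω⟫_ℂ = ⟪(star (r * (a * proj (cyc G Ω))) * P) v, Ω⟫_ℂ := by
    change ⟪r (P v), a Ω⟫_ℂ = ⟪star (r * (a * proj (cyc G Ω))) (P v), Ω⟫_ℂ
    rw [ssym, ssym' r, hr.star_eq]
    change _ = ⟪P v, r (a (proj (cyc G Ω) Ω))⟫_ℂ
    rw [e_om]
  rw [h1, hz a ha]
  simp

end Pool.Agent.H75.IE
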