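import Pool.Agent.H75.IE3

set_option linter.unusedSectionVars false
set_option linter.deprecated false

namespace Pool.Agent.H75.IE
open Filter Topology Finset Pool.Agent.H86.Wu Pool.Agent.H75.IL
open scoped InnerProductSpace ENNReal

variable {H : Type} [NormedAddCommGroup H] [InnerProductSpace ℂ H] [CompleteSpace H]
variable {ι κ : Type} {A F G : VonNeumannAlgebra H} {Ω : H} {U : H →L[ℂ] H}

theorem IsSystem.us (S : IsSystem A Ω U) (v : H) : U (star U v) = v :=
  congrArg (fun x : H →L[ℂ] H => x v) S.uu'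

theorem IsSystem.su (S : IsSystem A Ω U) (v : H) : star U (U v) = v :=
  congrArg (fun x : H →L[ℂ] H => x v) S.uu

theorem IsSystem.map_iff (S : IsSystem A Ω U) {V : Submodule ℂ H} :
    V.map (U : H →ₗ[ℂ] H) = V ↔ (∀ v ∈ V, U v ∈ V) ∧ ∀ v ∈ V, star U v ∈ V := by
  constructor
  · intro h
    refine ⟨fun v hv => h ▸ Submodule.mem_map_of_mem hv, fun v hv => ?_⟩
    rw [← h] at hv
    obtain ⟨w, hw, rfl⟩ := hv
    change star U (U w) ∈ V
    rwa [S.su]
  · rintro ⟨h1, h2⟩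
    refine le_antisymm ?_ fun v hv => ⟨_, h2 v hv, S.us v⟩
    rintro _ ⟨w, hw, rfl⟩
    exact h1 w hw

theorem inv_of_comm {V : Submodule ℂ H} (hV : IsClosed (V : Set H)) {T : H →L[ℂ] H}
    (h : T * proj V = proj V * T) : ∀ v ∈ V, T v ∈ V := fun v hv => by
  have h1 : T (proj V v) = proj V (T v) := congrArg (fun x : H →L[ℂ] H => x v) h
  rw [proj_self (V.le_topologicalClosure hv)] at h1
  rw [h1, ← hV.submodule_topologicalClosure_eq]
  nth_rewrite 2 [hV.submodule_topologicalClosure_eq]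
  exact proj_mem _ _

theorem orth_inv {V : Submodule ℂ H} {T : H →L[ℂ] H} (h : ∀ v ∈ V, star T v ∈ V) :
    ∀ v ∈ Vᗮ, T v ∈ Vᗮ := fun v hv => (Submodule.mem_orthogonal _ _).2 fun u hu => by
  rw [← ssym]
  exact (Submodule.mem_orthogonal _ _).1 hv _ (h u hu)

theorem sup_inv {s : Set (Submodule ℂ H)} {T : H →L[ℂ] H} (h : ∀ V ∈ s, ∀ v ∈ V, T v ∈ V) :
    ∀ v ∈ (sSup s).topologicalClosure, T v ∈ (sSup s).topologicalClosure :=
  clos_inv (Submodule.isClosed_topologicalClosure _) fun v hv => by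
    have : sSup s ≤ (sSup s).comap (T : H →ₗ[ℂ] H) :=
      sSup_le fun V hV w hw => (le_sSup hV : V ≤ sSup s) (h V hV w hw)
    exact Submodule.le_topologicalClosure _ (this hv)

/-- spectral subspaces of an invariant element of finite trace are modules -/
theorem exmod (S : IsSystem A Ω U) {η : κ → H} (hη : Tr A G Ω η) {τ : (H →L[ℂ] H) → ℝ≥0∞}
    (hτ : ∀ V, proj V ∈ Bv A G Ω → τ (proj V) = N η (proj V)) {R : Submodule ℂ H}
    (hR : IsClosed (R : Set H)) (hRG : R ≤ (cyc G Ω)ᗮ) {x : H →L[ℂ] H} (hx : x ∈ Bv A G Ω)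
    (hxR : ∀ v, x v ∈ R) (hU : U * x * star U = x) (hf : N η x ≠ ⊤) (h0 : x ≠ 0) :
    ∃ V ≤ R, IsMod A G Ω U τ V ∧ ∃ v ∈ V, v ≠ 0 := by
  haveI : Nontrivial (H →L[ℂ] H) := nontrivial_of_ne x 0 h0
  obtain ⟨y, hy⟩ : ∃ y, y = x * star x := ⟨_, rfl⟩
  have hy0 : 0 ≤ y := hy ▸ mul_star_self_nonneg x
  have hys : IsSelfAdjoint y := .of_nonneg hy0
  have hyB : y ∈ Bv A G Ω := hy ▸ mul_mem hx (star_mem hx)
  have hn : 0 < ‖y‖ := by
    rw [hy, CStarRing.norm_self_mul_star]
    exact mul_pos (norm_pos_iff.2 h0) (norm_pos_iff.2 h0)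
  obtain ⟨ε, hε⟩ : ∃ ε, ε = ‖y‖ / 2 := ⟨_, rfl⟩
  have hε0 : 0 < ε := by rw [hε]; linarith
  obtain ⟨f, hfd⟩ : ∃ f : ℝ → ℝ, f = fun t => t * max (t - ε) 0 := ⟨_, rfl⟩
  have hfc : Continuous f := by rw [hfd]; fun_prop
  obtain ⟨g, hg⟩ : ∃ g, g = cfc f y := ⟨_, rfl⟩
  have hgs : IsSelfAdjoint g := hg ▸ cfc_predicate _ _
  have hgB : g ∈ Bv A G Ω := hg ▸ cfc_mem' _ hyB _
  have hgy : g = y * cfc (fun t => max (t - ε) 0) y := by
    rw [hg, hfd, cfc_mul _ _ y, cfc_id' ℝ y]
  have hU' : U * star x * star U = star x := by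
    have := congrArg star hU
    rwa [star_mul, star_mul, star_star, ← mul_assoc] at this
  have hyU : Commute y U := by
    have : U * y * star U = y := by
      calc U * y * star U = U * x * (star U * U) * star x * star U := by
            rw [S.uu, hy]; simp only [mul_assoc, one_mul]
        _ = (U * x * star U) * (U * star x * star U) := by simp only [mul_assoc]
        _ = y := by rw [hU, hU', hy]
    change y * U = U * y
    nth_rewrite 1 [← this]
    rw [mul_assoc, S.uu, mul_one]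
  have hyU' : Commute y (star U) := by simpa only [hys.star_eq] using hyU.star_star
  set V := (LinearMap.range (g : H →ₗ[ℂ] H)).topologicalClosure with hV
  have hVc : IsClosed (V : Set H) := Submodule.isClosed_topologicalClosure _
  have hinv : ∀ T : H →L[ℂ] H, Commute g T → ∀ v ∈ V, T v ∈ V := fun T hT =>
    clos_inv hVc (by
      rintro _ ⟨w, rfl⟩
      exact Submodule.le_topologicalClosure _ ⟨T w, congrArg (fun x : H →L[ℂ] H => x w) hT.eq⟩)
  have hVR : V ≤ R := Submodule.topologicalClosure_minimal _ (by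
    rintro _ ⟨w, rfl⟩
    rw [hgy, hy]
    exact hxR _) hR
  have hVB : proj V ∈ Bv A G Ω := fun T hT =>
    (proj_comm (hinv T (hgB T hT).symm) (hinv _ (hgB _ (cstar A G Ω T hT)).symm)).symm
  have hlow : ∀ u ∈ V, ‖u‖ ^ 2 ≤ ε⁻¹ * ‖star x u‖ ^ 2 := fun u hu => by
    refine closure_minimal (t := {u | ‖u‖ ^ 2 ≤ ε⁻¹ * ‖star x u‖ ^ 2}) ?_
      (isClosed_le (by fun_prop) (by fun_prop)) hu
    rintro _ ⟨w, rfl⟩
    have h1 : 0 ≤ cfc (fun t => f t * t * f t - ε * (f t * f t)) y := cfc_nonneg fun t _ => by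
      rw [hfd]
      rcases le_total (t - ε) 0 with h | h
      · simp [max_eq_right h]
      · simp only [max_eq_left h]
        nlinarith [mul_nonneg h (mul_self_nonneg (t * (t - ε)))]
    rw [cfc_sub _ _ y, cfc_mul _ _ y, cfc_mul _ _ y, cfc_const_mul _ _ y, cfc_mul _ _ y,
      cfc_id' ℝ y, ← hg] at h1
    have h2 := ((nn_iff _).1 h1 w).2
    have e1 : g * y * g = star (star x * g) * (star x * g) := by
      rw [star_mul, star_star, hgs.star_eq, hy]; simp only [mul_assoc]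
    have e2 : g * g = star g * g := by rw [hgs.star_eq]
    rw [e1, e2, ContinuousLinearMap.sub_apply, inner_sub_right, Complex.sub_re, resq,
      ContinuousLinearMap.smul_apply, ← Complex.coe_smul, inner_smul_right,
      Complex.re_ofReal_mul, resq] at h2
    change ‖g w‖ ^ 2 ≤ ε⁻¹ * ‖(star x * g) w‖ ^ 2
    rw [le_inv_mul_iff₀ hε0]
    linarith
  refine ⟨V, hVR, ⟨hVc, hVB, hVR.trans hRG, S.map_iff.2 ⟨hinv _ (hg ▸ hyU.cfc_real f),
    hinv _ (hg ▸ hyU'.cfc_real f)⟩, ?_⟩, ?_⟩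
  · rw [hτ V hVB, lt_top_iff_ne_top]
    refine N_fin η (y := star x * proj V) (inv_pos.2 hε0).le (fun v => hlow _ ?_) ?_
    · have := proj_mem V v
      rwa [hVc.submodule_topologicalClosure_eq] at this
    · rw [hη.tr _ (mul_mem (star_mem hx) hVB), star_mul, star_star]
      exact N_fin η (sq_nonneg _) (opb _ _) hf
  · by_contra hc
    push Not at hc
    have hg0 : g = 0 := ContinuousLinearMap.ext fun w =>
      hc _ (Submodule.le_topologicalClosure _ ⟨w, rfl⟩)
    have h1 := norm_apply_le_norm_cfc f y (CStarAlgebra.norm_mem_spectrum_of_nonneg hy0)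
      hfc.continuousOn hys
    rw [← hg, hg0, norm_zero, norm_le_zero_iff, hfd] at h1
    simp only [max_eq_left (show 0 ≤ ‖y‖ - ε by rw [hε]; linarith)] at h1
    rw [hε] at h1
    nlinarith

theorem main (S : IsSystem A Ω U) (hF : IsSub A F U) (hG : IsSub A G U) (hFG : ∀ f ∈ F, f ∈ G)
    {σ τ : (H →L[ℂ] H) → ℝ≥0∞} (hσ : IsBar A F Ω σ) (hτ : IsBar A G Ω τ)
    (h : Isometric A F Ω U σ) : Isometric A G Ω U τ := by
  obtain ⟨ι, ξ, hξ, hσ'⟩ := hσ.ex S hF.le
  obtain ⟨κ, η, hη, hτ'⟩ := hτ.ex S hG.le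
  unfold Isometric at h ⊢
  set E := (sSup {V : Submodule ℂ H | IsMod A G Ω U τ V}).topologicalClosure with hE
  have hEc : IsClosed (E : Set H) := Submodule.isClosed_topologicalClosure _
  have hEG : E ≤ (cyc G Ω)ᗮ := Submodule.topologicalClosure_minimal _
    (sSup_le fun V hV => hV.orth) (Submodule.isClosed_orthogonal _)
  set R := (cyc G Ω)ᗮ ⊓ Eᗮ with hR
  have hRc : IsClosed (R : Set H) :=
    (Submodule.isClosed_orthogonal _).inter (Submodule.isClosed_orthogonal _)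
  have hRi : ∀ T : H →L[ℂ] H, (∀ v ∈ cyc G Ω, star T v ∈ cyc G Ω) →
      (∀ V, IsMod A G Ω U τ V → ∀ v ∈ V, star T v ∈ V) → ∀ v ∈ R, T v ∈ R :=
    fun T h1 h2 v hv => ⟨orth_inv h1 v hv.1, orth_inv (sup_inv h2) v hv.2⟩
  have hC : ∀ T ∈ (insert (proj (cyc G Ω)) (A : Set (H →L[ℂ] H))).centralizer,
      ∀ v ∈ R, T v ∈ R := fun T hT => hRi T (inv_of_comm (cyc_closed G Ω)
        (cstar A G Ω T hT _ (Set.mem_insert _ _)).symm)
      fun V hV => inv_of_comm hV.closed (hV.mem _ (cstar A G Ω T hT))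
  have hrB : proj R ∈ Bv A G Ω := fun T hT =>
    (proj_comm (hC T hT) (hC _ (cstar A G Ω T hT))).symm
  have hrU : proj R * U = U * proj R :=
    proj_comm (hRi U ((hG.symm S).cycU S.symm) fun V hV => (S.map_iff.1 hV.inv).2)
      (hRi _ (by rw [star_star]; exact hG.cycU S) fun V hV => by
        rw [star_star]; exact (S.map_iff.1 hV.inv).1)
  have hrm : ∀ v, proj R v ∈ R := fun v => by
    have := proj_mem R v
    rwa [hRc.submodule_topologicalClosure_eq] at this
  have h0 : ∀ x ∈ Bv A G Ω, proj R * x = x → U * x * star U = x → N η x ≠ ⊤ → x = 0 :=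
    fun x hx h1 h2 h3 => by
      by_contra h4
      obtain ⟨V, hVR, hV, v, hv, hv0⟩ := exmod S hη hτ' hRc inf_le_left hx
        (fun v => by rw [← h1]; exact hrm _) h2 h3 h4
      have h5 : v ∈ E := Submodule.le_topologicalClosure _ ((le_sSup hV : V ≤ sSup _) hv)
      exact hv0 (inner_self_eq_zero.1 ((Submodule.mem_orthogonal _ _).1 (hVR hv).2 v h5))
  have h1 : (cyc F Ω)ᗮ ≤ LinearMap.ker (proj R : H →ₗ[ℂ] H) := by
    rw [← h]
    refine Submodule.topologicalClosure_minimal _ (sSup_le fun V hV v hv => ?_)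
      (proj R).isClosed_ker
    have := key S hF hG hFG hξ hη hV.mem
      (proj_comm (S.map_iff.1 hV.inv).1 (S.map_iff.1 hV.inv).2)
      (by rw [← hσ' V hV.mem]; exact hV.fin.ne) (proj_sp R).isSelfAdjoint
      (proj_sp R).isIdempotentElem.eq hrB hrU h0
    have h2 : proj R (proj V v) = 0 := congrArg (fun x : H →L[ℂ] H => x v) this
    rwa [proj_self (V.le_topologicalClosure hv)] at h2
  have hFG' : cyc F Ω ≤ cyc G Ω := cyc_ind (cyc_closed G Ω) fun f hf => cyc_mem Ω (hFG f hf)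
  refine le_antisymm hEG fun v hv => ?_
  haveI : CompleteSpace E := hEc.completeSpace_coe
  have h2 : v - E.starProjection v ∈ R :=
    ⟨sub_mem hv (hEG (E.starProjection_apply_mem v)), E.sub_starProjection_mem_orthogonal v⟩
  have h3 : proj R (v - E.starProjection v) = 0 := h1 (Submodule.orthogonal_le hFG' h2.1)
  rw [proj_self (R.le_topologicalClosure h2), sub_eq_zero] at h3
  rw [h3]
  exact E.starProjection_apply_mem v

end Pool.Agent.H75.IE
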