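import Pool.Agent.H86.WuB

set_option linter.unusedSectionVars false
set_option linter.deprecated false

namespace Pool.Agent.H75.IL
open Filter Topology Finset Pool.Agent.H86.Wu
open scoped InnerProductSpace

variable {H : Type*} [NormedAddCommGroup H] [InnerProductSpace ℂ H] [CompleteSpace H]

theorem bnd (x : H →L[ℂ] H) (u v : H) : ‖⟪u, x v⟫_ℂ‖ ≤ ‖x‖ * (‖u‖ * ‖v‖) := by
  refine (norm_inner_le_norm _ _).trans ?_
  have := mul_le_mul_of_nonneg_left (x.le_opNorm v) (norm_nonneg u)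
  linarith

theorem summ {ξ : ℕ → H} (hξ : Summable fun i => ‖ξ i‖ ^ 2) (x : H →L[ℂ] H) :
    Summable fun i => ⟪ξ i, x (ξ i)⟫_ℂ :=
  Summable.of_norm_bounded (hξ.mul_left ‖x‖) fun i => by rw [sq]; exact bnd x _ _

/-- the normal functional given by a square summable sequence of vectors -/
noncomputable def tr (ξ : ℕ → H) (hξ : Summable fun i => ‖ξ i‖ ^ 2) : (H →L[ℂ] H) →ₗ[ℂ] ℂ where
  toFun x := ∑' i, ⟪ξ i, x (ξ i)⟫_ℂ
  map_add' x y := by
    rw [← (summ hξ x).tsum_add (summ hξ y)]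
    simp [inner_add_right]
  map_smul' c x := by
    simp [inner_smul_right, tsum_mul_left]

theorem tr_apply (ξ : ℕ → H) (hξ : Summable fun i => ‖ξ i‖ ^ 2) (x : H →L[ℂ] H) :
    tr ξ hξ x = ∑' i, ⟪ξ i, x (ξ i)⟫_ℂ := rfl

theorem nn_iff (a : H →L[ℂ] H) :
    0 ≤ a ↔ ∀ v, (⟪v, a v⟫_ℂ).im = 0 ∧ 0 ≤ (⟪v, a v⟫_ℂ).re := by
  rw [ContinuousLinearMap.nonneg_iff_isPositive, ContinuousLinearMap.isPositive_iff_complex]
  refine forall_congr' fun v => ?_
  rw [← inner_conj_symm v (a v)]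
  simp only [RCLike.re_to_complex, Complex.conj_im, Complex.conj_re, neg_eq_zero]
  refine and_congr_left' ⟨fun h => by rw [← h]; simp, fun h => ?_⟩
  exact Complex.ext (by simp) (by simp [h])

theorem tr_pos (ξ : ℕ → H) (hξ : Summable fun i => ‖ξ i‖ ^ 2) {a : H →L[ℂ] H} (ha : 0 ≤ a) :
    0 ≤ (tr ξ hξ a).re := by
  rw [tr_apply, Complex.re_tsum (summ hξ a)]
  exact tsum_nonneg fun i => ((nn_iff a).1 ha _).2

theorem tr_star (ξ : ℕ → H) (hξ : Summable fun i => ‖ξ i‖ ^ 2) (a : H →L[ℂ] H) :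
    tr ξ hξ (star a) = star (tr ξ hξ a) := by
  rw [tr_apply, tr_apply, tsum_star]
  refine tsum_congr fun i => ?_
  rw [← ssym']
  exact (inner_conj_symm _ _).symm

theorem tr_bound (ξ : ℕ → H) (hξ : Summable fun i => ‖ξ i‖ ^ 2) (a w : H →L[ℂ] H) :
    ‖tr ξ hξ (star a * w * a)‖ ≤ ‖w‖ * (tr ξ hξ (star a * a)).re := by
  rw [tr_apply, tr_apply, Complex.re_tsum (summ hξ _), ← tsum_mul_left]
  have h1 : ∀ i, (⟪ξ i, (star a * a) (ξ i)⟫_ℂ).re = ‖a (ξ i)‖ * ‖a (ξ i)‖ := fun i => by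
    change (⟪ξ i, star a (a (ξ i))⟫_ℂ).re = _
    rw [← ssym', inner_self_eq_norm_sq_to_K]
    simp [sq]
  refine tsum_of_norm_bounded
    (((Complex.reCLM.summable (summ hξ (star a * a))).mul_left ‖w‖).hasSum) fun i => ?_
  change ‖⟪ξ i, star a (w (a (ξ i)))⟫_ℂ‖ ≤ ‖w‖ * (⟪ξ i, (star a * a) (ξ i)⟫_ℂ).re
  rw [← ssym', h1]
  exact bnd w _ _

theorem wlim (G : Ultrafilter (H →L[ℂ] H)) (hG : ∀ᶠ h in (G : Filter (H →L[ℂ] H)), ‖h‖ ≤ 1) :
    ∃ x : H →L[ℂ] H, ∀ u v, Tendsto (fun h : H →L[ℂ] H => ⟪u, h v⟫_ℂ) G (𝓝 ⟪u, x v⟫_ℂ) := by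
  have hb : ∀ v u, ∀ᶠ h in (G : Filter (H →L[ℂ] H)), ‖⟪h v, u⟫_ℂ‖ ≤ 1 * ‖v‖ * ‖u‖ :=
    fun v u => hG.mono fun h hh => by
      rw [← inner_conj_symm, RCLike.norm_conj]
      refine (bnd h u v).trans ?_
      have := mul_le_mul_of_nonneg_right hh (mul_nonneg (norm_nonneg u) (norm_nonneg v))
      linarith
  have : ∀ v u, ∃ l, Tendsto (fun h : H →L[ℂ] H => ⟪h v, u⟫_ℂ) G (𝓝 l) := fun v u => by
    obtain ⟨l, -, hl⟩ := (isCompact_closedBall (0 : ℂ) (1 * ‖v‖ * ‖u‖)).ultrafilter_le_nhds'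
      (G.map fun h => ⟪h v, u⟫_ℂ) (Ultrafilter.mem_map.2 ((hb v u).mono fun h hh =>
        mem_closedBall_zero_iff.2 hh))
    exact ⟨l, hl⟩
  choose l hl using this
  let B0 : H →ₛₗ[starRingEnd ℂ] H →ₗ[ℂ] ℂ := LinearMap.mk₂'ₛₗ (starRingEnd ℂ) (RingHom.id ℂ) l
    (fun a b c => tendsto_nhds_unique (hl _ _)
      (by simpa [inner_add_left] using (hl a c).add (hl b c)))
    (fun t a c => tendsto_nhds_unique (hl _ _)
      (by simpa [inner_smul_left, mul_comm] using (hl a c).const_mul ((starRingEnd ℂ) t)))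
    (fun a b c => tendsto_nhds_unique (hl _ _)
      (by simpa [inner_add_right] using (hl a b).add (hl a c)))
    (fun t a c => tendsto_nhds_unique (hl _ _)
      (by simpa [inner_smul_right] using (hl a c).const_mul t))
  let B1 : H →L⋆[ℂ] H →L[ℂ] ℂ := LinearMap.mkContinuous₂ B0 1 fun v u =>
    le_of_tendsto (hl v u).norm (hb v u)
  refine ⟨InnerProductSpace.continuousLinearMapOfBilin B1, fun u v => ?_⟩
  have h2 := (Complex.continuous_conj.tendsto _).comp (hl v u)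
  rw [← inner_conj_symm u, InnerProductSpace.continuousLinearMapOfBilin_apply]
  refine h2.congr fun h => ?_
  exact inner_conj_symm _ _

/-- no minimal projections -/
def Diffuse (N : VonNeumannAlgebra H) : Prop :=
  ∀ p ∈ N, IsStarProjection p → p ≠ 0 →
    ∃ q ∈ N, IsStarProjection q ∧ p * q = q ∧ q ≠ 0 ∧ q ≠ p

theorem psub {p q : H →L[ℂ] H} (hp : IsStarProjection p) (hq : IsStarProjection q)
    (h : p * q = q) : q * p = q ∧ IsStarProjection (p - q) := by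
  have h' := stareq hp.isSelfAdjoint hq.isSelfAdjoint hq.isSelfAdjoint h
  exact ⟨h', hq.sub_of_mul_eq_left hp h'⟩

theorem many {N : VonNeumannAlgebra H} (hd : Diffuse N) (D : ℕ) : ∀ p ∈ N, IsStarProjection p →
    p ≠ 0 → ∃ r : Fin D → H →L[ℂ] H, (∀ l, r l ∈ N ∧ IsStarProjection (r l) ∧ p * r l = r l ∧
      r l ≠ 0) ∧ ∀ l l', l ≠ l' → r l * r l' = 0 := by
  induction D with
  | zero => exact fun p _ _ _ => ⟨fun l => l.elim0, fun l => l.elim0, fun l => l.elim0⟩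
  | succ D ih =>
    intro p hpN hp h0
    obtain ⟨q, hqN, hq, hpq, hq0, hqp⟩ := hd p hpN hp h0
    obtain ⟨hqp', hs⟩ := psub hp hq hpq
    obtain ⟨r, hr, hrr⟩ := ih (p - q) (sub_mem hpN hqN) hs (sub_ne_zero.2 hqp.symm)
    have h1 : ∀ l, q * r l = 0 := fun l => by
      rw [← (hr l).2.2.1, ← mul_assoc, mul_sub, hqp', hq.isIdempotentElem.eq, sub_self, zero_mul]
    have h2 : ∀ l, p * r l = r l := fun l => by
      have := (hr l).2.2.1
      rwa [sub_mul, h1, sub_zero] at this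
    refine ⟨Fin.cons q r, fun l => Fin.cases ⟨hqN, hq, hpq, hq0⟩ (fun l => ⟨(hr l).1, (hr l).2.1,
      h2 l, (hr l).2.2.2⟩) l, fun l l' => ?_⟩
    refine Fin.cases ?_ (fun a => ?_) l <;> refine Fin.cases ?_ (fun b => ?_) l' <;> intro h
    · exact absurd rfl h
    · exact h1 b
    · exact stareq hq.isSelfAdjoint (hr a).2.1.isSelfAdjoint (IsSelfAdjoint.zero _) (h1 a)
    · exact hrr a b fun h' => h (by rw [h'])

theorem sqle {h : H →L[ℂ] H} (h0 : 0 ≤ h) (h1 : h ≤ 1) : h * h ≤ h := by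
  have := CStarAlgebra.pow_antitone h0 h1 (show 1 ≤ 2 by norm_num)
  simpa [sq] using this

theorem under {e h : H →L[ℂ] H} (he : IsStarProjection e) (h0 : 0 ≤ h) (h1 : h ≤ e) :
    h * e = h ∧ e * h = h := by
  have hle : h ≤ 1 := h1.trans he.le_one
  have h2 := star_left_conjugate_le_conjugate ((sqle h0 hle).trans h1) (1 - e)
  have h3 : star (1 - e) * e * (1 - e) = 0 := by
    rw [mul_assoc, mul_sub, mul_one, he.isIdempotentElem.eq, sub_self, mul_zero]
  have h4 : star (1 - e) * (h * h) * (1 - e) = star (h * (1 - e)) * (h * (1 - e)) := by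
    rw [star_mul, (IsSelfAdjoint.of_nonneg h0).star_eq]; simp only [mul_assoc]
  rw [h3, h4] at h2
  have h5 := (CStarRing.star_mul_self_eq_zero_iff _).1 (le_antisymm h2 (star_mul_self_nonneg _))
  rw [mul_sub, mul_one, sub_eq_zero] at h5
  exact ⟨h5.symm, stareq (IsSelfAdjoint.of_nonneg h0) he.isSelfAdjoint
    (IsSelfAdjoint.of_nonneg h0) h5.symm⟩

theorem le_one' {w : H →L[ℂ] H} (hw : IsSelfAdjoint w) (h : ‖w‖ ≤ 1) : w ≤ 1 := by
  refine hw.le_algebraMap_norm_self.trans ?_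
  rw [← map_one (algebraMap ℝ (H →L[ℂ] H)), ← sub_nonneg, ← map_sub, Algebra.algebraMap_eq_smul_one]
  exact smul_nonneg (sub_nonneg.2 h) zero_le_one

/-- a non-projection can be perturbed keeping finitely many functionals -/
theorem perturb {N : VonNeumannAlgebra H} (hd : Diffuse N) {κ : Type} [Fintype κ]
    (φ : κ → (H →L[ℂ] H) →ₗ[ℂ] ℂ) {e h : H →L[ℂ] H} (he : IsStarProjection e) (hN : h ∈ N)
    (h0 : 0 ≤ h) (h1 : h ≤ e) (hh : h * h ≠ h) :
    ∃ y ∈ N, y ≠ 0 ∧ (∀ c, φ c y = 0) ∧ 0 ≤ h + y ∧ h + y ≤ e ∧ 0 ≤ h - y ∧ h - y ≤ e := by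
  classical
  obtain ⟨hu1, hu2⟩ := under he h0 h1
  set d := h - h * h with hdd
  have hdN : d ∈ N := sub_mem hN (mul_mem hN hN)
  have hle : h ≤ 1 := h1.trans he.le_one
  have hd0 : 0 ≤ d := sub_nonneg.2 (sqle h0 hle)
  have hds := IsSelfAdjoint.of_nonneg hd0
  have hdh : d ≤ h := sub_le_self _ (by
    simpa [(IsSelfAdjoint.of_nonneg h0).star_eq] using star_mul_self_nonneg h)
  have hg0 : 0 ≤ e - h := sub_nonneg.2 h1
  have hdg : d ≤ e - h := by
    have : d = (e - h) - (e - h) * (e - h) := by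
      simp only [hdd, mul_sub, sub_mul, he.isIdempotentElem.eq, hu1, hu2]; abel
    rw [this]
    exact sub_le_self _ (by
      simpa [(IsSelfAdjoint.of_nonneg hg0).star_eq] using star_mul_self_nonneg (e - h))
  have hdd' : d * d ≤ d := sqle hd0 (hdh.trans hle)
  obtain ⟨s, hsN, hs, hsd, hsT⟩ := rangeProj N hdN
  have hs0 : s ≠ 0 := fun h' => hh (by
    rw [h', zero_mul] at hsd
    exact (sub_eq_zero.1 hsd.symm).symm)
  obtain ⟨r, hr, hrr⟩ := many hd (Fintype.card κ * 2 + 1) s hsN hs hs0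
  let W : (Fin (Fintype.card κ * 2 + 1) → ℝ) →ₗ[ℝ] (H →L[ℂ] H) :=
    Fintype.linearCombination ℝ r
  let L : (Fin (Fintype.card κ * 2 + 1) → ℝ) →ₗ[ℝ] (κ → ℂ) := LinearMap.pi fun c =>
    ((φ c).restrictScalars ℝ) ∘ₗ (LinearMap.mulLeftRight ℝ (d, d)) ∘ₗ W
  have hker : LinearMap.ker L ≠ ⊥ := LinearMap.ker_ne_bot_of_finrank_lt (by
    simp [Module.finrank_pi_fintype])
  obtain ⟨t, ht, ht0⟩ := Submodule.exists_mem_ne_zero_of_ne_bot hker
  have hWs : ∀ t, IsSelfAdjoint (W t) := fun t => by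
    simp only [W, Fintype.linearCombination_apply]
    exact isSelfAdjoint_sum _ fun l _ => (IsSelfAdjoint.all _).smul (hr l).2.1.isSelfAdjoint
  have hWN : ∀ t, W t ∈ N := fun t => by
    simp only [W, Fintype.linearCombination_apply]
    exact sum_mem fun l _ => smul_mem' N (t l : ℂ) (hr l).1
  set t' := (1 / (‖W t‖ + 1)) • t with ht'
  have hp : 0 < ‖W t‖ + 1 := by positivity
  have hn : ‖W t'‖ ≤ 1 := by
    rw [ht', map_smul, norm_smul, Real.norm_eq_abs, abs_of_pos (by positivity), div_mul_eq_mul_div,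
      div_le_one hp]
    linarith
  have ht'0 : t' ≠ 0 := smul_ne_zero (by positivity) ht0
  have hy1 : d * W t' * d ≤ d * d := by
    simpa [hds.star_eq] using star_left_conjugate_le_conjugate (le_one' (hWs t') hn) d
  have hy2 : -(d * W t' * d) ≤ d * d := by
    simpa [hds.star_eq] using star_left_conjugate_le_conjugate
      (le_one' (hWs t').neg (by rwa [norm_neg])) d
  refine ⟨d * W t' * d, mul_mem (mul_mem hdN (hWN _)) hdN, fun hy => ht'0 ?_, fun c => ?_, ?_, ?_,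
    ?_, ?_⟩
  · have a1 := hsT _ hy
    have a2 : s * W t' * d = 0 := by
      simpa [hds.star_eq, hs.isSelfAdjoint.star_eq, (hWs t').star_eq, mul_assoc]
        using congrArg star a1
    have a3 := hsT _ a2
    funext l
    have a4 : W t' * r l = t' l • r l := by
      simp only [W, Fintype.linearCombination_apply, sum_mul, smul_mul_assoc]
      rw [sum_eq_single l, (hr l).2.1.isIdempotentElem.eq]
      · intro l' _ h'
        rw [hrr l' l h', smul_zero]
      · simp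
    have a5 : s * W t' * s * r l = t' l • r l := by
      rw [mul_assoc, (hr l).2.2.1, mul_assoc, a4, mul_smul_comm, (hr l).2.2.1]
    rw [a3, zero_mul] at a5
    exact (smul_eq_zero.1 a5.symm).resolve_right (hr l).2.2.2
  · have : L t' = 0 := by rw [ht', map_smul, LinearMap.mem_ker.1 ht, smul_zero]
    exact congrFun this c
  · rw [← sub_neg_eq_add, sub_nonneg]; exact hy2.trans (hdd'.trans hdh)
  · rw [← le_sub_iff_add_le']; exact hy1.trans (hdd'.trans hdg)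
  · rw [sub_nonneg]; exact hy1.trans (hdd'.trans hdh)
  · rw [sub_eq_add_neg, ← le_sub_iff_add_le']; exact hy2.trans (hdd'.trans hdg)

/-- noncommutative Lyapunov theorem -/
theorem lyap {N : VonNeumannAlgebra H} (hd : Diffuse N) (ξ : ℕ → H)
    (hξ : Summable fun i => ‖ξ i‖ ^ 2) {κ : Type} [Fintype κ] (x : κ → H →L[ℂ] H)
    {e h : H →L[ℂ] H} (he : IsStarProjection e) (hN : h ∈ N) (h0 : 0 ≤ h) (h1 : h ≤ e) :
    ∃ r ∈ N, IsStarProjection r ∧ e * r = r ∧ ∀ c, tr ξ hξ (x c * r) = tr ξ hξ (x c * h) := by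
  let K0 : Set (H →L[ℂ] H) :=
    {g | g ∈ N ∧ 0 ≤ g ∧ g ≤ e ∧ ∀ c, tr ξ hξ (x c * g) = tr ξ hξ (x c * h)}
  have hc : IsCompact (Φ '' K0) := by
    refine isCompact_iff_ultrafilter_le_nhds'.2 fun F hF => ?_
    have : ∀ f : H × H → ℂ, ∃ g : H →L[ℂ] H, f ∈ Φ '' K0 → g ∈ K0 ∧ Φ g = f := fun f => by
      by_cases hf : f ∈ Φ '' K0
      · obtain ⟨g, hg, hg'⟩ := hf
        exact ⟨g, fun _ => ⟨hg, hg'⟩⟩
      · exact ⟨0, fun h => absurd h hf⟩
    choose g hg using this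
    have hG : ∀ᶠ a in (F.map g : Filter (H →L[ℂ] H)), a ∈ K0 :=
      Ultrafilter.mem_map.2 (mem_of_superset hF fun f hf => (hg f hf).1)
    have hG1 : ∀ᶠ a in (F.map g : Filter (H →L[ℂ] H)), ‖a‖ ≤ 1 := hG.mono fun a ha =>
      (CStarAlgebra.norm_le_one_iff_of_nonneg a ha.2.1).2 (ha.2.2.1.trans he.le_one)
    obtain ⟨z, hz⟩ := wlim (F.map g) hG1
    refine ⟨Φ z, ⟨z, ⟨mem_of_comm N fun y hy => ?_, ?_, ?_, fun c => ?_⟩, rfl⟩, ?_⟩
    · ext v
      refine ext_inner_left ℂ fun u => ?_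
      change ⟪u, y (z v)⟫_ℂ = ⟪u, z (y v)⟫_ℂ
      rw [← ssym]
      refine tendsto_nhds_unique_of_eventuallyEq (hz _ _) (hz _ _) (hG.mono fun a ha => ?_)
      simp only [ssym]
      exact congrArg (fun T : H →L[ℂ] H => ⟪u, T v⟫_ℂ) (comm_of_mem N ha.1 hy).eq.symm
    · rw [nn_iff]
      intro v
      refine ⟨tendsto_nhds_unique_of_eventuallyEq ((Complex.continuous_im.tendsto _).comp (hz v v))
        tendsto_const_nhds (hG.mono fun a ha => ((nn_iff a).1 ha.2.1 v).1),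
        ge_of_tendsto ((Complex.continuous_re.tendsto _).comp (hz v v))
          (hG.mono fun a ha => ((nn_iff a).1 ha.2.1 v).2)⟩
    · rw [← sub_nonneg, nn_iff]
      intro v
      have h3 : Tendsto (fun a : H →L[ℂ] H => ⟪v, (e - a) v⟫_ℂ) (F.map g)
          (𝓝 ⟪v, (e - z) v⟫_ℂ) := by
        simpa [inner_sub_right] using (hz v v).const_sub ⟪v, e v⟫_ℂ
      refine ⟨tendsto_nhds_unique_of_eventuallyEq ((Complex.continuous_im.tendsto _).comp h3)
        tendsto_const_nhds (hG.mono fun a ha => ((nn_iff _).1 (sub_nonneg.2 ha.2.2.1) v).1),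
        ge_of_tendsto ((Complex.continuous_re.tendsto _).comp h3)
          (hG.mono fun a ha => ((nn_iff _).1 (sub_nonneg.2 ha.2.2.1) v).2)⟩
    · have h3 : Tendsto (fun a : H →L[ℂ] H => tr ξ hξ (x c * a)) (F.map g)
          (𝓝 (tr ξ hξ (x c * z))) := by
        refine tendsto_tsum_of_dominated_convergence (hξ.mul_left ‖x c‖) (fun i => ?_)
          (hG1.mono fun a ha i => ?_)
        · simpa [ssym] using hz (star (x c) (ξ i)) (ξ i)
        · refine (bnd _ _ _).trans ?_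
          rw [sq]
          exact mul_le_mul_of_nonneg_right ((norm_mul_le _ _).trans
            (mul_le_of_le_one_right (norm_nonneg _) ha)) (by positivity)
      exact tendsto_nhds_unique_of_eventuallyEq h3 tendsto_const_nhds
        (hG.mono fun a ha => ha.2.2.2 c)
    · have h3 : Tendsto (fun f => Φ (g f)) F (𝓝 (Φ z)) :=
        tendsto_pi_nhds.2 fun p => hz p.1 p.2
      exact h3.congr' (mem_of_superset hF fun f hf => (hg f hf).2)
  obtain ⟨f, hf⟩ := hc.extremePoints_nonempty ⟨Φ h, h, ⟨hN, h0, h1, fun _ => rfl⟩, rfl⟩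
  obtain ⟨⟨r, hr, rfl⟩, hext⟩ := mem_extremePoints.1 hf
  refine ⟨r, hr.1, ⟨?_, IsSelfAdjoint.of_nonneg hr.2.1⟩, (under he hr.2.1 hr.2.2.1).2, hr.2.2.2⟩
  by_contra hne
  obtain ⟨y, hyN, hy0, hyc, a1, a2, a3, a4⟩ := perturb hd
    (fun c => tr ξ hξ ∘ₗ LinearMap.mulLeft ℂ (x c)) he hr.1 hr.2.1 hr.2.2.1 hne
  have hyc' : ∀ c, tr ξ hξ (x c * y) = 0 := hyc
  have := (hext (Φ (r + y)) ⟨r + y, ⟨add_mem hr.1 hyN, a1, a2, fun c => by
      rw [mul_add, map_add, hyc', add_zero, hr.2.2.2]⟩, rfl⟩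
    (Φ (r - y)) ⟨r - y, ⟨sub_mem hr.1 hyN, a3, a4, fun c => by
      rw [mul_sub, map_sub, hyc', sub_zero, hr.2.2.2]⟩, rfl⟩
    ⟨1 / 2, 1 / 2, by norm_num, by norm_num, by norm_num, by
      funext p
      simp only [Φ, Pi.add_apply, Pi.smul_apply, ContinuousLinearMap.add_apply,
        ContinuousLinearMap.sub_apply, inner_add_right, inner_sub_right, Complex.real_smul]
      push_cast; ring⟩).1
  refine hy0 (ContinuousLinearMap.ext fun v => ext_inner_left ℂ fun u => ?_)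
  simpa [Φ, inner_add_right] using congrFun this (u, v)

end Pool.Agent.H75.IL
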