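import Pool.Agent.H75.IL1

set_option linter.unusedSectionVars false
set_option linter.deprecated false

namespace Pool.Agent.H75.IL
open Filter Topology Finset Pool.Agent.H86.Wu
open scoped InnerProductSpace

variable {H : Type*} [NormedAddCommGroup H] [InnerProductSpace ℂ H] [CompleteSpace H]

/-- a faithful tracial state with the Lyapunov property -/
structure Ctx (N : VonNeumannAlgebra H) (T : (H →L[ℂ] H) →ₗ[ℂ] ℂ) : Prop where
  pos : ∀ a, 0 ≤ a → 0 ≤ (T a).re
  sta : ∀ a, T (star a) = star (T a)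
  bound : ∀ a w, ‖T (star a * w * a)‖ ≤ ‖w‖ * (T (star a * a)).re
  one : T 1 = 1
  trc : ∀ x ∈ N, ∀ y ∈ N, T (x * y) = T (y * x)
  faith : ∀ x ∈ N, T (star x * x) = 0 → x = 0
  lyap : ∀ {κ : Type} [Fintype κ] (x : κ → H →L[ℂ] H) {e h : H →L[ℂ] H}, IsStarProjection e →
    h ∈ N → 0 ≤ h → h ≤ e →
    ∃ r ∈ N, IsStarProjection r ∧ e * r = r ∧ ∀ c, T (x c * r) = T (x c * h)

/-- a partition of `e` into projections of `N` -/
structure PV (N : VonNeumannAlgebra H) {ι : Type} [Fintype ι] (e : H →L[ℂ] H)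
    (p : ι → H →L[ℂ] H) : Prop where
  mem : ∀ i, p i ∈ N
  proj : ∀ i, IsStarProjection (p i)
  orth : ∀ i j, i ≠ j → p i * p j = 0
  sum : ∑ i, p i = e

variable {N : VonNeumannAlgebra H} {T : (H →L[ℂ] H) →ₗ[ℂ] ℂ} {ι J κ : Type} [Fintype ι]
  [Fintype J] [Fintype κ]

theorem sum_mul_one {g : ι → H →L[ℂ] H} (hp : ∀ j, IsStarProjection (g j))
    (ho : ∀ i j, i ≠ j → g i * g j = 0) (j : ι) : (∑ i, g i) * g j = g j := by
  rw [sum_mul, sum_eq_single j, (hp j).isIdempotentElem.eq]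
  · exact fun i _ h => ho i j h
  · simp

theorem sum_proj {g : ι → H →L[ℂ] H} (hp : ∀ j, IsStarProjection (g j))
    (ho : ∀ i j, i ≠ j → g i * g j = 0) : IsStarProjection (∑ i, g i) :=
  ⟨by
    change _ * _ = _
    conv_lhs => rw [mul_sum]
    exact sum_congr rfl fun j _ => sum_mul_one hp ho j,
  isSelfAdjoint_sum _ fun j _ => (hp j).isSelfAdjoint⟩

theorem PV.tproj {e : H →L[ℂ] H} {p : ι → H →L[ℂ] H} (h : PV N e p) : IsStarProjection e :=
  h.sum ▸ sum_proj h.proj h.orth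

theorem PV.tmem {e : H →L[ℂ] H} {p : ι → H →L[ℂ] H} (h : PV N e p) : e ∈ N :=
  h.sum ▸ sum_mem fun i _ => h.mem i

theorem PV.le {e : H →L[ℂ] H} {p : ι → H →L[ℂ] H} (h : PV N e p) (i : ι) : e * p i = p i :=
  h.sum ▸ sum_mul_one h.proj h.orth i

theorem PV.le' {e : H →L[ℂ] H} {p : ι → H →L[ℂ] H} (h : PV N e p) (i : ι) : p i * e = p i :=
  (psub h.tproj (h.proj i) (h.le i)).1

theorem oth {e f a b : H →L[ℂ] H} (h1 : a * e = a) (h2 : f * b = b) (h : e * f = 0) :
    a * b = 0 := by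
  rw [← h1, ← h2, mul_assoc, ← mul_assoc e, h, zero_mul, mul_zero]

theorem zsym {e f : H →L[ℂ] H} (he : IsStarProjection e) (hf : IsStarProjection f)
    (h : e * f = 0) : f * e = 0 :=
  stareq he.isSelfAdjoint hf.isSelfAdjoint (IsSelfAdjoint.zero _) h

theorem PV.add {e f : H →L[ℂ] H} {a b : ι → H →L[ℂ] H} (ha : PV N e a) (hb : PV N f b)
    (h : e * f = 0) : PV N (e + f) fun i => a i + b i := by
  have h1 : ∀ i j, a i * b j = 0 := fun i j => oth (ha.le' i) (hb.le j) h
  refine ⟨fun i => add_mem (ha.mem i) (hb.mem i), fun i => (ha.proj i).add (hb.proj i) (h1 i i),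
    fun i j hij => ?_, by rw [sum_add_distrib, ha.sum, hb.sum]⟩
  simp only [mul_add, add_mul, ha.orth i j hij, hb.orth i j hij, h1,
    zsym (ha.proj j) (hb.proj i) (h1 j i), add_zero]

theorem PV.glue {e : H →L[ℂ] H} {a : ι → H →L[ℂ] H} (ha : PV N e a) {g : ι → J → H →L[ℂ] H}
    (hg : ∀ r, PV N (a r) (g r)) : PV N e fun j => ∑ r, g r j := by
  have h1 : ∀ r r' j j', r ≠ r' → g r j * g r' j' = 0 := fun r r' j j' h =>
    oth ((hg r).le' j) ((hg r').le j') (ha.orth r r' h)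
  refine ⟨fun j => sum_mem fun r _ => (hg r).mem j, fun j => sum_proj (fun r => (hg r).proj j)
    fun r r' h => h1 r r' j j h, fun i j hij => ?_, ?_⟩
  · rw [sum_mul_sum]
    refine sum_eq_zero fun r _ => sum_eq_zero fun r' _ => ?_
    by_cases h : r = r'
    · subst h; exact (hg r).orth i j hij
    · exact h1 r r' i j h
  · rw [sum_comm, ← ha.sum]
    exact sum_congr rfl fun r _ => (hg r).sum

theorem Ctx.scal (C : Ctx N T) (x : κ → H →L[ℂ] H) {e : H →L[ℂ] H} (he : IsStarProjection e)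
    (heN : e ∈ N) {θ : ℝ} (h0 : 0 ≤ θ) (h1 : θ ≤ 1) :
    ∃ r ∈ N, IsStarProjection r ∧ e * r = r ∧ ∀ c, T (x c * r) = θ * T (x c * e) := by
  obtain ⟨r, hrN, hr, her, hc⟩ := C.lyap x (h := θ • e) he (smul_mem' N (θ : ℂ) heN)
    (smul_nonneg h0 he.nonneg) (by
      rw [← sub_nonneg]
      have : e - θ • e = (1 - θ) • e := by rw [sub_smul, one_smul]
      rw [this]
      exact smul_nonneg (sub_nonneg.2 h1) he.nonneg)
  refine ⟨r, hrN, hr, her, fun c => ?_⟩
  rw [hc, ← Complex.coe_smul, mul_smul_comm, map_smul, smul_eq_mul]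

/-- adding one more projection to an orthogonal family -/
theorem upd [DecidableEq J] {e : H →L[ℂ] H} (he : IsStarProjection e) {g : J → H →L[ℂ] H}
    (hg : ∀ j, g j ∈ N ∧ IsStarProjection (g j) ∧ e * g j = g j)
    (ho : ∀ i j, i ≠ j → g i * g j = 0) {a : J} (ha : g a = 0) {r : H →L[ℂ] H} (hrN : r ∈ N)
    (hr : IsStarProjection r) (her : (e - ∑ j, g j) * r = r) :
    (∀ j, Function.update g a r j ∈ N ∧ IsStarProjection (Function.update g a r j) ∧
      e * Function.update g a r j = Function.update g a r j) ∧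
    (∀ i j, i ≠ j → Function.update g a r i * Function.update g a r j = 0) ∧
    ∑ j, Function.update g a r j = ∑ j, g j + r := by
  have hs := sum_proj (fun j => (hg j).2.1) ho
  have h1 : ∀ j, g j * r = 0 := fun j => by
    rw [← her, ← mul_assoc, mul_sub, (psub he (hg j).2.1 (hg j).2.2).1,
      (psub hs (hg j).2.1 (sum_mul_one (fun j => (hg j).2.1) ho j)).1, sub_self, zero_mul]
  have h2 : e * r = r := by
    have := her
    rwa [sub_mul, sum_mul, sum_eq_zero fun j _ => h1 j, sub_zero] at this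
  refine ⟨fun j => ?_, fun i j hij => ?_, ?_⟩
  · by_cases h : j = a
    · subst h; simpa using ⟨hrN, hr, h2⟩
    · simpa [h] using hg j
  · by_cases h : i = a <;> by_cases h' : j = a
    · exact absurd (h.trans h'.symm) hij
    · subst h; simpa [h'] using zsym (hg j).2.1 hr (h1 j)
    · subst h'; simpa [h] using h1 i
    · simpa [h, h'] using ho i j hij
  · rw [sum_update_of_mem (mem_univ a), ← sum_erase_add _ _ (mem_univ a), ha, add_zero, add_comm,
      sdiff_singleton_eq_erase]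

theorem rest {e : H →L[ℂ] H} (he : IsStarProjection e) {g : J → H →L[ℂ] H}
    (hg : ∀ j, g j ∈ N ∧ IsStarProjection (g j) ∧ e * g j = g j)
    (ho : ∀ i j, i ≠ j → g i * g j = 0) : IsStarProjection (e - ∑ j, g j) :=
  (psub he (sum_proj (fun j => (hg j).2.1) ho) (by
    rw [mul_sum]; exact sum_congr rfl fun j _ => (hg j).2.2)).2

theorem Ctx.split (C : Ctx N T) (x : κ → H →L[ℂ] H) {e : H →L[ℂ] H} (he : IsStarProjection e)
    (heN : e ∈ N) (w : J → ℝ) (h0 : ∀ j, 0 ≤ w j) (h1 : ∑ j, w j = 1) :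
    ∃ g, PV N e g ∧ ∀ c j, T (x c * g j) = w j * T (x c * e) := by
  classical
  have key : ∀ s : Finset J, ∃ g : J → H →L[ℂ] H,
      (∀ j, g j ∈ N ∧ IsStarProjection (g j) ∧ e * g j = g j) ∧ (∀ i j, i ≠ j → g i * g j = 0) ∧
      (∀ j ∉ s, g j = 0) ∧ ∀ (c : Option κ), ∀ j ∈ s,
        T (c.elim 1 x * g j) = w j * T (c.elim 1 x * e) := by
    intro s
    induction s using Finset.induction_on with
    | empty => exact ⟨0, fun j => ⟨zero_mem _, IsStarProjection.zero _, by simp⟩, by simp, by simp,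
        by simp⟩
    | insert a s ha ih =>
      obtain ⟨g, hg, ho, hz, hv⟩ := ih
      have hle : w a ≤ 1 - ∑ j ∈ s, w j := by
        have := sum_le_sum_of_subset_of_nonneg (subset_univ (insert a s)) fun j _ _ => h0 j
        rw [sum_insert ha, h1] at this
        linarith
      have hθ : w a / (1 - ∑ j ∈ s, w j) * (1 - ∑ j ∈ s, w j) = w a := by
        by_cases h : 1 - ∑ j ∈ s, w j = 0
        · rw [h, mul_zero]; exact le_antisymm (h0 a) (h ▸ hle)
        · exact div_mul_cancel₀ _ h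
      obtain ⟨r, hrN, hr, her, hc⟩ := C.scal (fun c : Option κ => c.elim 1 x) (rest he hg ho)
        (sub_mem heN (sum_mem fun j _ => (hg j).1)) (θ := w a / (1 - ∑ j ∈ s, w j))
        (div_nonneg (h0 a) ((h0 a).trans hle)) (div_le_one_of_le₀ hle ((h0 a).trans hle))
      obtain ⟨u1, u2, -⟩ := upd he hg ho (hz a ha) hrN hr her
      refine ⟨_, u1, u2, fun j hj => ?_, fun c j hj => ?_⟩
      · rw [mem_insert, not_or] at hj
        simpa [hj.1] using hz j hj.2
      · by_cases h : j = a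
        · subst h
          rw [Function.update_self, hc, mul_sub, map_sub, mul_sum, map_sum,
            ← sum_subset (subset_univ s) fun i _ hi => by rw [hz i hi, mul_zero, map_zero],
            sum_congr rfl fun i hi => hv c i hi, ← sum_mul]
          conv_rhs => rw [← hθ]
          push_cast; ring
        · rw [Function.update_of_ne h]
          exact hv c j ((mem_insert.1 hj).resolve_left h)
  obtain ⟨g, hg, ho, -, hv⟩ := key univ
  refine ⟨g, ⟨fun j => (hg j).1, fun j => (hg j).2.1, ho, ?_⟩, fun c j => hv (some c) j (mem_univ _)⟩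
  have hp := rest he hg ho
  refine (sub_eq_zero.1 (C.faith _ (sub_mem heN (sum_mem fun j _ => (hg j).1)) ?_)).symm
  rw [hp.isSelfAdjoint.star_eq, hp.isIdempotentElem.eq, map_sub, map_sum]
  have := fun j => hv none j (mem_univ _)
  simp only [Option.elim_none, one_mul] at this
  rw [sum_congr rfl fun j _ => this j, ← sum_mul, ← Complex.ofReal_sum, h1]
  simp

theorem Ctx.conv (C : Ctx N T) (x : κ → H →L[ℂ] H) {e : ι → H →L[ℂ] H} (he : PV N 1 e)
    (w : ι → J → ℝ) (h0 : ∀ r j, 0 ≤ w r j) (h1 : ∀ r, ∑ j, w r j = 1) :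
    ∃ p, PV N 1 p ∧ ∀ c j, T (x c * p j) = T (x c * ∑ r, (w r j : ℂ) • e r) := by
  choose g hg hv using fun r => C.split x (he.proj r) (he.mem r) (w r) (h0 r) (h1 r)
  refine ⟨_, he.glue hg, fun c j => ?_⟩
  simp only [mul_sum, map_sum, hv, mul_smul_comm, map_smul, smul_eq_mul]

theorem Ctx.small (C : Ctx N T) {F : H →L[ℂ] H} {b : J → H →L[ℂ] H} (hb : PV N F b)
    {w : H →L[ℂ] H} (hwN : w ∈ N) (hw : ‖w‖ ≤ 1) (μ : J → ℂ) (hμ : ∀ j, ‖μ j‖ ≤ 1) :
    ‖T (w * ∑ j, μ j • b j)‖ ≤ (T F).re := by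
  rw [mul_sum, map_sum, ← hb.sum, map_sum, Complex.re_sum]
  refine norm_sum_le_of_le _ fun j _ => ?_
  have h1 := C.bound (b j) w
  rw [(hb.proj j).isSelfAdjoint.star_eq, (hb.proj j).isIdempotentElem.eq, mul_assoc,
    C.trc _ (hb.mem j) _ (mul_mem hwN (hb.mem j)), mul_assoc, (hb.proj j).isIdempotentElem.eq] at h1
  have h2 := C.pos _ (hb.proj j).nonneg
  rw [mul_smul_comm, map_smul, norm_smul]
  exact (mul_le_of_le_one_left (norm_nonneg _) (hμ j)).trans
    (h1.trans (mul_le_of_le_one_left h2 hw))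

theorem Ctx.pp (C : Ctx N T) {x r a : H →L[ℂ] H} (hx : IsSelfAdjoint x) (hxN : x ∈ N)
    (hr : IsStarProjection r) (hrN : r ∈ N) (ha : 0 ≤ a) (haN : a ∈ N) :
    0 ≤ (T (x * r * x * a)).re := by
  have h1 : x * r * x * a = (x * r) * (r * x * a) := by
    conv_lhs => rw [← hr.isIdempotentElem.eq]
    simp only [mul_assoc]
  rw [h1, C.trc _ (mul_mem hxN hrN) _ (mul_mem (mul_mem hrN hxN) haN)]
  have := star_left_conjugate_nonneg ha (x * r)
  rw [star_mul, hx.star_eq, hr.isSelfAdjoint.star_eq] at this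
  exact C.pos _ this

theorem Ctx.drop (C : Ctx N T) {x e r : H →L[ℂ] H} (hx : IsSelfAdjoint x) (hxN : x ∈ N)
    (heN : e ∈ N) (hr : IsStarProjection r) (hrN : r ∈ N) {k : ℝ}
    (h : (T (x * e * x * r)).re ≤ k * (T (x * e * x * e)).re) :
    (1 - 2 * k) * (T (x * e * x * e)).re ≤ (T (x * (e - r) * x * (e - r))).re := by
  have h1 := C.pp hx hxN hr hrN hr.nonneg hrN
  have h2 : T (x * r * x * e) = T (x * e * x * r) := by
    rw [mul_assoc, C.trc _ (mul_mem hxN hrN) _ (mul_mem hxN heN), ← mul_assoc]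
  simp only [mul_sub, sub_mul, map_sub, Complex.sub_re, h2]
  linarith

theorem Ctx.real (C : Ctx N T) {a b : H →L[ℂ] H} (ha : IsSelfAdjoint a) (haN : a ∈ N)
    (hb : IsSelfAdjoint b) (hbN : b ∈ N) : (((T (a * b)).re : ℝ) : ℂ) = T (a * b) := by
  have := C.sta (a * b)
  rw [star_mul, ha.star_eq, hb.star_eq, C.trc _ hbN _ haN] at this
  exact Complex.conj_eq_iff_re.1 this.symm

end Pool.Agent.H75.IL
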