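import Pool.Agent.H75.IL2

set_option linter.unusedSectionVars false
set_option linter.deprecated false

namespace Pool.Agent.H75.IL
open Filter Topology Finset Pool.Agent.H86.Wu
open scoped InnerProductSpace

variable {H : Type*} [NormedAddCommGroup H] [InnerProductSpace ℂ H] [CompleteSpace H]
variable {N : VonNeumannAlgebra H} {T : (H →L[ℂ] H) →ₗ[ℂ] ℂ} {I J : Type} [Fintype I]
  [Fintype J]

/-- real combination of a partition -/
noncomputable def X (p : I → H →L[ℂ] H) (l : I → ℝ) : H →L[ℂ] H := ∑ i, (l i : ℂ) • p i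

variable {p : I → H →L[ℂ] H}

theorem X_mem (hp : PV N 1 p) (l : I → ℝ) : X p l ∈ N :=
  sum_mem fun i _ => smul_mem' N _ (hp.mem i)

theorem X_sa (hp : PV N 1 p) (l : I → ℝ) : IsSelfAdjoint (X p l) :=
  isSelfAdjoint_sum _ fun i _ => by
    rw [Complex.coe_smul]
    exact (IsSelfAdjoint.all _).smul (hp.proj i).isSelfAdjoint

theorem X_nn (hp : PV N 1 p) {l : I → ℝ} (h : ∀ i, 0 ≤ l i) : 0 ≤ X p l :=
  sum_nonneg fun i _ => by
    rw [Complex.coe_smul]
    exact smul_nonneg (h i) (hp.proj i).nonneg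

theorem X_add (hp : PV N 1 p) (l : I → ℝ) (c : ℝ) :
    X p (fun i => l i + c) = X p l + (c : ℂ) • 1 := by
  simp only [X, Complex.ofReal_add, add_smul, sum_add_distrib, ← smul_sum, hp.sum]

theorem X_sub (hp : PV N 1 p) (l : I → ℝ) (c : ℝ) :
    X p (fun i => c - l i) = (c : ℂ) • 1 - X p l := by
  simp only [X, Complex.ofReal_sub, sub_smul, sum_sub_distrib, ← smul_sum, hp.sum]

theorem quad (l : I → ℝ) (e y : H →L[ℂ] H) : T (X p l * e * X p l * y) =
    ∑ i, ∑ i', (l i : ℂ) * (l i' * T (p i * e * p i' * y)) := by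
  simp only [X, sum_mul, mul_sum, map_sum, smul_mul_assoc, mul_smul_comm, map_smul, smul_eq_mul]
  rw [sum_comm]
  exact sum_congr rfl fun i _ => sum_congr rfl fun i' _ => by ring

theorem Ctx.shrink (C : Ctx N T) (hp : PV N 1 p) {q : J → H →L[ℂ] H} (hq : PV N 1 q) {a : ℝ}
    (ha : ∀ i, a ≤ (T (p i)).re) (R : ℕ) : ∃ (F : H →L[ℂ] H) (c : J → H →L[ℂ] H), PV N F c ∧
      (∀ j, q j * c j = c j) ∧ (∀ i j, T (p i * c j) = (2 / 3) ^ R * T (p i * q j)) ∧
      ∀ l : I → ℝ, (1 / 3) ^ R * a * ∑ i, l i ^ 2 ≤ (T (X p l * F * X p l * F)).re := by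
  induction R with
  | zero =>
    refine ⟨1, q, hq, fun j => (hq.proj j).isIdempotentElem.eq, by simp, fun l => ?_⟩
    rw [quad, Complex.re_sum, pow_zero, one_mul, mul_sum]
    refine sum_le_sum fun i _ => ?_
    rw [sum_eq_single i]
    · simp only [mul_one, (hp.proj i).isIdempotentElem.eq, Complex.re_ofReal_mul]
      nlinarith [ha i, sq_nonneg (l i)]
    · intro j _ h
      simp [hp.orth i j h.symm]
    · simp
  | succ R ih =>
    obtain ⟨F, c, hc, hqc, hv, hQ⟩ := ih
    choose d hdN hd hcd hdv using fun j => C.scal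
      (Sum.elim p fun ii : I × I => p ii.1 * F * p ii.2) (hc.proj j) (hc.mem j)
      (θ := 1 / 3) (by norm_num) (by norm_num)
    have hs := fun j => psub (hc.proj j) (hd j) (hcd j)
    have hdo : ∀ i j, i ≠ j → d i * d j = 0 := fun i j h => oth (hs i).1 (hcd j) (hc.orth i j h)
    have hcc := fun j => (hc.proj j).isIdempotentElem.eq
    refine ⟨F - ∑ j, d j, fun j => c j - d j, ⟨fun j => sub_mem (hc.mem j) (hdN j),
      fun j => (hs j).2, fun i j h => oth (e := c i) (f := c j) ?_ ?_ (hc.orth i j h), ?_⟩,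
      fun j => ?_, fun i j => ?_, fun l => ?_⟩
    · rw [sub_mul, hcc, (hs i).1]
    · rw [mul_sub, hcc, hcd]
    · rw [sum_sub_distrib, hc.sum]
    · rw [mul_sub, hqc, ← hcd j, ← mul_assoc, hqc, hcd]
    · have := hdv j (Sum.inl i)
      simp only [Sum.elim_inl] at this
      rw [mul_sub, map_sub, this, hv]
      push_cast; ring
    · have h1 : T (X p l * F * X p l * ∑ j, d j) = ((1 / 3 : ℝ) : ℂ) * T (X p l * F * X p l * F) := by
        rw [quad, quad, mul_sum]
        refine sum_congr rfl fun i _ => ?_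
        rw [mul_sum]
        refine sum_congr rfl fun i' _ => ?_
        have := fun j => hdv j (Sum.inr (i, i'))
        simp only [Sum.elim_inr] at this
        rw [mul_sum, map_sum, sum_congr rfl fun j _ => this j, ← mul_sum, ← map_sum, ← mul_sum,
          hc.sum]
        ring
      have h2 := C.drop (X_sa hp l) (X_mem hp l) hc.tmem (sum_proj hd hdo)
        (sum_mem fun j _ => hdN j) (k := 1 / 3) (by rw [h1, Complex.re_ofReal_mul])
      have := hQ l
      rw [pow_succ]
      linarith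

theorem Ctx.psplit (C : Ctx N T) (hp : PV N 1 p) {e : H →L[ℂ] H} (he : IsStarProjection e)
    (heN : e ∈ N) {ρ : ℝ} (hρ : 0 < ρ)
    (hQ : ∀ l : I → ℝ, ρ * ∑ i, l i ^ 2 ≤ (T (X p l * e * X p l * e)).re) (ν : I → ℝ)
    (hν : ∑ i, ν i ^ 2 ≤ (ρ / 8) ^ 2) : ∃ r ∈ N, IsStarProjection r ∧ e * r = r ∧
      (∀ i, T (p i * r) = (1 / 8) * T (p i * e) + ν i) ∧
      ∀ l : I → ℝ, ρ / 2 * ∑ i, l i ^ 2 ≤ (T (X p l * (e - r) * X p l * (e - r))).re := by
  classical
  let G : (I → ℝ) →ₗ[ℝ] (I → ℝ) :=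
    { toFun := fun l i => (T (p i * (e * X p l * e))).re
      map_add' := fun l l' => funext fun i => by
        simp [X, add_smul, sum_add_distrib, mul_add, add_mul]
      map_smul' := fun t l => funext fun i => by
        have : X p (t • l) = (t : ℂ) • X p l := by
          simp only [X, smul_sum, smul_smul, Pi.smul_apply, smul_eq_mul, Complex.ofReal_mul]
        simp [this] }
  have hG : ∀ l, ∑ i, l i * G l i = (T (X p l * e * X p l * e)).re := fun l => by
    have : X p l * e * X p l * e = ∑ i, (l i : ℂ) • (p i * (e * X p l * e)) := by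
      rw [mul_assoc, mul_assoc, ← mul_assoc e]
      conv_lhs => rw [X, sum_mul]
      simp only [smul_mul_assoc]
      rfl
    rw [this, map_sum, Complex.re_sum]
    refine sum_congr rfl fun i _ => ?_
    rw [map_smul, smul_eq_mul, Complex.re_ofReal_mul]
    rfl
  have hinj : Function.Injective G := by
    rw [injective_iff_map_eq_zero]
    intro l hl
    have h1 := hQ l
    rw [← hG, hl] at h1
    simp only [Pi.zero_apply, mul_zero, sum_const_zero] at h1
    have h2 : ∑ i, l i ^ 2 = 0 :=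
      le_antisymm (by by_contra h; nlinarith) (sum_nonneg fun i _ => sq_nonneg _)
    funext i
    exact pow_eq_zero_iff two_ne_zero |>.1
      ((sum_eq_zero_iff_of_nonneg fun i _ => sq_nonneg _).1 h2 i (mem_univ _))
  obtain ⟨μ, hμ⟩ := LinearMap.injective_iff_surjective.1 hinj ν
  have hS : ∑ i, μ i ^ 2 ≤ (1 / 8) ^ 2 := by
    have h1 := hQ μ
    rw [← hG, hμ] at h1
    have h2 := sum_mul_sq_le_sq_mul_sq univ μ ν
    have h3 : 0 ≤ ∑ i, μ i ^ 2 := sum_nonneg fun i _ => sq_nonneg _
    set S := ∑ i, μ i ^ 2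
    have h4 : (ρ * S) ^ 2 ≤ S * (ρ / 8) ^ 2 :=
      (pow_le_pow_left₀ (by positivity) h1 2).trans (h2.trans (mul_le_mul_of_nonneg_left hν h3))
    by_contra h
    rw [not_le] at h
    have h5 : 0 < ρ ^ 2 * S * (S - (1 / 8) ^ 2) := by
      have : 0 < S := lt_trans (by norm_num) h
      have : 0 < S - (1 / 8) ^ 2 := by linarith
      positivity
    nlinarith
  have hμ' : ∀ i, |μ i| ≤ 1 / 8 := fun i => abs_le_of_sq_le_sq' ((single_le_sum
    (fun i _ => sq_nonneg (μ i)) (mem_univ i)).trans hS) (by norm_num) |> abs_le.2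
  have hee := he.isIdempotentElem.eq
  have cj : ∀ {y : H →L[ℂ] H}, 0 ≤ y → 0 ≤ e * y * e := fun {y} hy => by
    simpa [he.isSelfAdjoint.star_eq] using star_left_conjugate_nonneg hy e
  set h := e * X p μ * e + ((1 / 8 : ℝ) : ℂ) • e with hh
  have hN : h ∈ N := add_mem (mul_mem (mul_mem heN (X_mem hp μ)) heN) (smul_mem' N _ heN)
  have h0 : 0 ≤ h := by
    have := cj (X_nn hp (l := fun i => μ i + 1 / 8) fun i => by linarith [abs_le.1 (hμ' i)])
    rwa [X_add hp, mul_add, add_mul, mul_smul_comm, mul_one, smul_mul_assoc, hee] at this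
  have h1 : 0 ≤ ((1 / 4 : ℝ) : ℂ) • e - h := by
    have := cj (X_nn hp (l := fun i => 1 / 8 - μ i) fun i => by linarith [abs_le.1 (hμ' i)])
    rw [X_sub hp, mul_sub, sub_mul, mul_smul_comm, mul_one, smul_mul_assoc, hee] at this
    convert this using 1
    rw [hh]; push_cast; module
  have h2 : h ≤ e := by
    rw [← sub_nonneg]
    have : e - h = (((1 / 4 : ℝ) : ℂ) • e - h) + (3 / 4 : ℝ) • e := by
      rw [← Complex.coe_smul]; push_cast; module
    rw [this]
    exact add_nonneg h1 (smul_nonneg (by norm_num) he.nonneg)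
  obtain ⟨r, hrN, hr, her, hc⟩ := C.lyap (Sum.elim p fun ii : I × I => p ii.1 * e * p ii.2) he hN
    h0 h2
  refine ⟨r, hrN, hr, her, fun i => ?_, fun l => ?_⟩
  · have := hc (Sum.inl i)
    simp only [Sum.elim_inl] at this
    rw [this, hh, mul_add, map_add, mul_smul_comm, map_smul, ← hμ, ← C.real (hp.proj i).isSelfAdjoint
      (hp.mem i) (by simp [IsSelfAdjoint, he.isSelfAdjoint.star_eq, (X_sa hp μ).star_eq, mul_assoc])
      (mul_mem (mul_mem heN (X_mem hp μ)) heN)]
    simp only [smul_eq_mul, G, LinearMap.coe_mk, AddHom.coe_mk]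
    push_cast; ring
  · have a1 : T (X p l * e * X p l * r) = T (X p l * e * X p l * h) := by
      rw [quad, quad]
      refine sum_congr rfl fun i _ => sum_congr rfl fun i' _ => ?_
      have := hc (Sum.inr (i, i'))
      simp only [Sum.elim_inr] at this
      rw [this]
    have a2 := C.pp (X_sa hp l) (X_mem hp l) he heN h1 (sub_mem (smul_mem' N _ heN) hN)
    rw [mul_sub, map_sub, mul_smul_comm, map_smul, smul_eq_mul, Complex.sub_re,
      Complex.re_ofReal_mul, ← a1] at a2
    have a3 := C.drop (X_sa hp l) (X_mem hp l) heN hr hrN (k := 1 / 4) (by linarith)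
    have := hQ l
    linarith

theorem Ctx.fill (C : Ctx N T) (hp : PV N 1 p) {F : H →L[ℂ] H} (hF : IsStarProjection F)
    (hFN : F ∈ N) {ρ η : ℝ} (hρ : 0 < ρ)
    (hQ : ∀ l : I → ℝ, ρ * ∑ i, l i ^ 2 ≤ (T (X p l * F * X p l * F)).re) (t0 : ℂ)
    (ht : ∀ i, T (p i * F) = t0 * T (p i)) (d : I → J → ℝ) (hd : ∀ i j, |d i j| ≤ η)
    (hη : Fintype.card I * ((Fintype.card J + 1) * η) ^ 2 ≤ (ρ / 2 ^ Fintype.card J / 8) ^ 2) :
    ∃ (r : J → H →L[ℂ] H) (t : J → ℂ), (∀ j, r j ∈ N ∧ IsStarProjection (r j) ∧ F * r j = r j) ∧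
      (∀ i j, i ≠ j → r i * r j = 0) ∧ ∀ i j, T (p i * r j) = t j * T (p i) - d i j := by
  classical
  have key : ∀ s : Finset J, ∃ (r : J → H →L[ℂ] H) (t : J → ℂ),
      (∀ j, r j ∈ N ∧ IsStarProjection (r j) ∧ F * r j = r j) ∧ (∀ i j, i ≠ j → r i * r j = 0) ∧
      (∀ j ∉ s, r j = 0) ∧ (∀ i, ∀ j ∈ s, T (p i * r j) = t j * T (p i) - d i j) ∧
      ∀ l : I → ℝ, ρ / 2 ^ s.card * ∑ i, l i ^ 2 ≤
        (T (X p l * (F - ∑ j, r j) * X p l * (F - ∑ j, r j))).re := by
    intro s
    induction s using Finset.induction_on with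
    | empty => exact ⟨0, 0, fun j => ⟨zero_mem _, IsStarProjection.zero _, by simp⟩, by simp,
        by simp, by simp, by simpa using hQ⟩
    | insert a s ha ih =>
      obtain ⟨g, t, hg, ho, hz, hv, hq⟩ := ih
      obtain ⟨r, hrN, hr, her, hc, hq'⟩ := C.psplit hp (rest hF hg ho)
        (sub_mem hFN (sum_mem fun j _ => (hg j).1)) (by positivity) hq
        (fun i => -d i a - 1 / 8 * ∑ j ∈ s, d i j) (by
          have h1 : ∀ i, (-d i a - 1 / 8 * ∑ j ∈ s, d i j) ^ 2 ≤ ((Fintype.card J + 1) * η) ^ 2 :=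
            fun i => by
              have h0 : 0 ≤ η := (abs_nonneg _).trans (hd i a)
              have h2 : |∑ j ∈ s, d i j| ≤ Fintype.card J * η := by
                refine (abs_sum_le_sum_abs _ _).trans ((sum_le_card_nsmul _ _ η
                  fun j _ => hd i j).trans ?_)
                rw [nsmul_eq_mul]
                exact mul_le_mul_of_nonneg_right (by exact_mod_cast card_le_univ s) h0
              have h3 := abs_le.1 h2
              have h4 := abs_le.1 (hd i a)
              have h5 : 0 ≤ Fintype.card J * η := by positivity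
              exact sq_le_sq' (by linarith) (by linarith)
          refine (sum_le_card_nsmul _ _ _ fun i _ => h1 i).trans ?_
          rw [nsmul_eq_mul, card_univ]
          refine hη.trans (pow_le_pow_left₀ (by positivity) ?_ 2)
          gcongr
          · norm_num
          · exact card_le_univ s)
      obtain ⟨u1, u2, u3⟩ := upd hF hg ho (hz a ha) hrN hr her
      refine ⟨_, Function.update t a (1 / 8 * (t0 - ∑ j ∈ s, t j)), u1, u2, fun j hj => ?_,
        fun i j hj => ?_, fun l => ?_⟩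
      · rw [mem_insert, not_or] at hj
        simpa [hj.1] using hz j hj.2
      · by_cases h : j = a
        · subst h
          rw [Function.update_self, Function.update_self, hc, mul_sub, map_sub, mul_sum, map_sum,
            ← sum_subset (subset_univ s) fun i _ hi => by rw [hz i hi, mul_zero, map_zero],
            sum_congr rfl fun k hk => hv i k hk, ht, sum_sub_distrib, ← sum_mul]
          push_cast; ring
        · rw [Function.update_of_ne h, Function.update_of_ne h]
          exact hv i j ((mem_insert.1 hj).resolve_left h)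
      · rw [u3, ← sub_sub, card_insert_of_notMem ha, pow_succ, ← div_div]
        exact hq' l
  obtain ⟨r, t, h1, h2, -, h3, -⟩ := key univ
  exact ⟨r, t, h1, h2, fun i j => h3 i j (mem_univ _)⟩

/-- almost independent partitions are close to independent ones -/
theorem Ctx.corr (C : Ctx N T) (I J : Type) [Fintype I] [Fintype J] [Nonempty J] {a ε : ℝ}
    (ha : 0 < a) (hε : 0 < ε) : ∃ δ > 0, ∀ (p : I → H →L[ℂ] H) (q : J → H →L[ℂ] H), PV N 1 p →
      PV N 1 q → (∀ i, a ≤ (T (p i)).re) → (∀ i j, ‖T (p i * q j) - T (p i) * T (q j)‖ ≤ δ) →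
      ∃ q', PV N 1 q' ∧ (∀ i j, T (p i * q' j) = T (p i) * T (q' j)) ∧
        ∀ w ∈ N, ‖w‖ ≤ 1 → ∀ μ : J → ℂ, (∀ j, ‖μ j‖ ≤ 1) →
          ‖T (w * ∑ j, μ j • q' j) - T (w * ∑ j, μ j • q j)‖ ≤ ε := by
  classical
  obtain ⟨R, hR⟩ := exists_pow_lt_of_lt_one (half_pos hε) (show (2 / 3 : ℝ) < 1 by norm_num)
  set ρ := (1 / 3 : ℝ) ^ R * a with hρ
  have hρ0 : 0 < ρ := by positivity
  set z := ρ / 2 ^ Fintype.card J / 8 with hz
  have hz0 : 0 < z := by positivity
  refine ⟨z / ((Fintype.card I + 1) * (Fintype.card J + 1)), by positivity,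
    fun p q hp hq hpa hδ => ?_⟩
  obtain ⟨F, c, hc, hqc, hv, hQ⟩ := C.shrink hp hq hpa R
  have hsum : ∀ y, ∑ i, T (p i * y) = T y := fun y => by
    rw [← map_sum, ← sum_mul, hp.sum, one_mul]
  have hsum' : ∀ y, ∑ j, T (y * q j) = T y := fun y => by
    rw [← map_sum, ← mul_sum, hq.sum, mul_one]
  have hα : ∑ i, T (p i) = 1 := by rw [← map_sum, hp.sum, C.one]
  have hβ : ∑ i, T (q i) = 1 := by rw [← map_sum, hq.sum, C.one]
  have ht : ∀ i, T (p i * F) = (2 / 3) ^ R * T (p i) := fun i => by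
    rw [← hc.sum, mul_sum, map_sum, sum_congr rfl fun j _ => hv i j, ← mul_sum, hsum']
  have hTF : T F = (((2 / 3) ^ R : ℝ) : ℂ) := by
    rw [← hsum, sum_congr rfl fun i _ => ht i, ← mul_sum, hα]; push_cast; ring
  have hre : ∀ i j, (((T (p i * q j) - T (p i) * T (q j)).re : ℝ) : ℂ) =
      T (p i * q j) - T (p i) * T (q j) := fun i j => by
    have h1 := C.real (hp.proj i).isSelfAdjoint (hp.mem i) (hq.proj j).isSelfAdjoint (hq.mem j)
    have h2 := C.real (hp.proj i).isSelfAdjoint (hp.mem i) (IsSelfAdjoint.one _) (one_mem _)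
    have h3 := C.real (hq.proj j).isSelfAdjoint (hq.mem j) (IsSelfAdjoint.one _) (one_mem _)
    rw [mul_one] at h2 h3
    rw [← h1, ← h2, ← h3, ← Complex.ofReal_mul, ← Complex.ofReal_sub, Complex.ofReal_re]
  have hR1 : (2 / 3 : ℝ) ^ R ≤ 1 := pow_le_one₀ (by norm_num) (by norm_num)
  obtain ⟨r, t, hr, hro, hrv⟩ := C.fill hp hc.tproj hc.tmem hρ0 hQ _ ht
    (fun i j => (1 - (2 / 3) ^ R) * (T (p i * q j) - T (p i) * T (q j)).re)
    (η := z / ((Fintype.card I + 1) * (Fintype.card J + 1))) (fun i j => by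
      rw [abs_mul, abs_of_nonneg (sub_nonneg.2 hR1)]
      refine (mul_le_of_le_one_left (abs_nonneg _) ?_).trans
        ((Complex.abs_re_le_norm _).trans (hδ i j))
      have : (0 : ℝ) < (2 / 3) ^ R := by positivity
      linarith) (by
      rw [← hz]
      have : ((Fintype.card J : ℝ) + 1) * (z / ((Fintype.card I + 1) * (Fintype.card J + 1))) =
          z / (Fintype.card I + 1) := by field_simp
      rw [this, div_pow, ← mul_div_assoc, div_le_iff₀ (by positivity)]
      have h0 : (0 : ℝ) ≤ Fintype.card I := by positivity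
      nlinarith [mul_nonneg (sq_nonneg z) h0, mul_nonneg (sq_nonneg z) (sq_nonneg (Fintype.card I : ℝ))])
  obtain ⟨j0⟩ := ‹Nonempty J›
  have hF' := rest hc.tproj hr hro
  have P1 : PV N (∑ j, r j) r := ⟨fun j => (hr j).1, fun j => (hr j).2.1, hro, rfl⟩
  have P2 : PV N (F - ∑ j, r j) fun j => if j = j0 then F - ∑ j, r j else 0 :=
    ⟨fun j => by split_ifs; exacts [sub_mem hc.tmem P1.tmem, zero_mem _],
      fun j => by split_ifs; exacts [hF', IsStarProjection.zero _],
      fun i j h => by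
        split_ifs with h1 h2
        exacts [absurd (h1.trans h2.symm) h, mul_zero _, zero_mul _, zero_mul _], by simp⟩
  have hFr : F * ∑ j, r j = ∑ j, r j := by
    rw [mul_sum]; exact sum_congr rfl fun j _ => (hr j).2.2
  have P3 := P1.add P2 (by
    rw [mul_sub, (psub hc.tproj P1.tproj hFr).1, P1.tproj.isIdempotentElem.eq, sub_self])
  rw [add_sub_cancel] at P3
  have hs := fun j => psub (hq.proj j) (hc.proj j) (hqc j)
  have hqq := fun j => (hq.proj j).isIdempotentElem.eq
  have P4 : PV N (1 - F) fun j => q j - c j := ⟨fun j => sub_mem (hq.mem j) (hc.mem j),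
    fun j => (hs j).2, fun i j h => oth (e := q i) (f := q j) (by rw [sub_mul, hqq, (hs i).1])
      (by rw [mul_sub, hqq, hqc]) (hq.orth i j h), by rw [sum_sub_distrib, hq.sum, hc.sum]⟩
  have P5 := P4.add P3 (by rw [sub_mul, one_mul, hc.tproj.isIdempotentElem.eq, sub_self])
  rw [sub_add_cancel] at P5
  refine ⟨_, P5, ?_, fun w hwN hw μ hμ => ?_⟩
  · have hl : ∀ i, T (p i * (F - ∑ j, r j)) = ((2 / 3) ^ R - ∑ j, t j) * T (p i) := fun i => by
      rw [mul_sub, map_sub, mul_sum, map_sum, sum_congr rfl fun k _ => hrv i k, ht,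
        sum_sub_distrib, ← sum_mul]
      simp only [Complex.ofReal_mul, hre]
      rw [← mul_sum, sum_sub_distrib, hsum', ← mul_sum, hβ]
      ring
    have key : ∀ j, ∃ s : ℂ, ∀ i, T (p i * (q j - c j + (r j +
        if j = j0 then F - ∑ j, r j else 0))) = T (p i) * s := fun j => by
      refine ⟨(1 - (2 / 3) ^ R) * T (q j) + t j +
        if j = j0 then (2 / 3) ^ R - ∑ j, t j else 0, fun i => ?_⟩
      rw [mul_add, mul_add, map_add, map_add, mul_sub, map_sub, hv, hrv, Complex.ofReal_mul, hre]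
      split_ifs
      · rw [hl]; push_cast; ring
      · rw [mul_zero, map_zero]; push_cast; ring
    intro i j
    obtain ⟨s, hs⟩ := key j
    rw [← hsum (q j - c j + _), sum_congr rfl fun i _ => hs i, ← sum_mul, hα, one_mul, hs]
  · have h1 := C.small P3 hwN hw μ hμ
    have h2 := C.small hc hwN hw μ hμ
    rw [hTF, Complex.ofReal_re] at h1 h2
    refine le_trans (le_of_eq ?_) ((norm_sub_le _ _).trans ((add_le_add h1 h2).trans (by linarith)))
    congr 1
    simp only [smul_add, smul_sub, sum_add_distrib, sum_sub_distrib, mul_add, mul_sub, map_add,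
      map_sub]
    ring

end Pool.Agent.H75.IL
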