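import Pool.Agent.H75.IL3

set_option linter.unusedSectionVars false
set_option linter.deprecated false

namespace Pool.Agent.H75.IL
open Filter Topology Finset Pool.Agent.H86.Wu
open scoped InnerProductSpace

variable {H : Type*} [NormedAddCommGroup H] [InnerProductSpace ℂ H] [CompleteSpace H]
variable {N : VonNeumannAlgebra H} {T : (H →L[ℂ] H) →ₗ[ℂ] ℂ} {I J : Type} [Fintype I]
  [Fintype J]

theorem blocknorm {e w : J → H →L[ℂ] H} (he : PV N 1 e) (h1 : ∀ j, e j * w j = w j)
    (h2 : ∀ j, w j * e j = w j) {η : ℝ} (hη : 0 ≤ η) (hw : ∀ j, ‖w j‖ ≤ η) :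
    ‖∑ j, w j‖ ≤ η := by
  have h3 : star (∑ j, w j) * ∑ j, w j = ∑ j, star (w j) * w j := by
    rw [star_sum, sum_mul_sum]
    refine sum_congr rfl fun i _ => ?_
    rw [sum_eq_single i]
    · intro j _ h
      refine oth ?_ (h1 j) (he.orth i j h.symm)
      simpa [(he.proj i).isSelfAdjoint.star_eq] using congrArg star (h1 i)
    · simp
  have h4 : ∑ j, star (w j) * w j ≤ algebraMap ℝ (H →L[ℂ] H) (η ^ 2) := by
    rw [Algebra.algebraMap_eq_smul_one, ← he.sum, smul_sum]
    refine sum_le_sum fun j _ => ?_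
    have := star_left_conjugate_le_conjugate
      (CStarAlgebra.star_mul_le_algebraMap_norm_sq (a := w j)) (e j)
    rw [← mul_assoc, ← star_mul, mul_assoc, h2, Algebra.algebraMap_eq_smul_one,
      (he.proj j).isSelfAdjoint.star_eq, mul_smul_comm, mul_one, smul_mul_assoc,
      (he.proj j).isIdempotentElem.eq] at this
    refine this.trans ?_
    rw [← sub_nonneg, ← sub_smul]
    exact smul_nonneg (sub_nonneg.2 (pow_le_pow_left₀ (norm_nonneg _) (hw j) 2)) (he.proj j).nonneg
  rw [← h3, ← CStarAlgebra.norm_le_iff_le_algebraMap _ (by positivity) (star_mul_self_nonneg _),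
    CStarRing.norm_star_mul_self, ← sq] at h4
  exact le_of_sq_le_sq h4 hη

theorem rp_comm {e a y : H →L[ℂ] H} (he : IsStarProjection e) (h1 : e * a = a)
    (h2 : ∀ S : H →L[ℂ] H, S * a = 0 → S * e = 0) (hy : Commute a y) (hy' : Commute a (star y)) :
    Commute e y := by
  have k : ∀ y, Commute a y → y * e = e * y * e := fun y hy => by
    have := h2 ((1 - e) * y) (by
      rw [mul_assoc, ← hy.eq, ← mul_assoc, sub_mul, one_mul, h1, sub_self, zero_mul])
    rwa [sub_mul, sub_mul, one_mul, sub_eq_zero] at this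
  have := congrArg star (k _ hy')
  simp only [star_mul, star_star, he.isSelfAdjoint.star_eq, ← mul_assoc] at this
  exact this.trans (k y hy).symm

/-- unitaries are norm limits of unitaries with finite spectrum -/
theorem specfin {u : H →L[ℂ] H} (hu : u ∈ unitary (H →L[ℂ] H)) (huN : u ∈ N) {η : ℝ}
    (hη : 0 < η) : ∃ (J : Type) (_ : Fintype J) (e : J → H →L[ℂ] H) (t : J → Circle),
      PV N 1 e ∧ ‖u - ∑ j, (t j : ℂ) • e j‖ ≤ η := by
  classical
  haveI : IsStarNormal u := isStarNormal_of_mem_unitary hu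
  obtain ⟨t, ht, hf, hcov⟩ := finite_cover_balls_of_compact (isCompact_sphere (0 : ℂ) 1) hη
  haveI := hf.fintype
  let ψ : t → ℂ → ℂ := fun z w => ((max 0 (η - ‖w - z‖) : ℝ) : ℂ)
  let g : t → ℂ → ℂ := fun z w => (w - z) * ((η / max η ‖w - z‖ : ℝ) : ℂ)
  have hψ : ∀ z, Continuous (ψ z) := fun z => by simp only [ψ]; fun_prop
  have hg : ∀ z, Continuous (g z) := fun z => by
    simp only [g]
    refine (continuous_id.sub continuous_const).mul (Complex.continuous_ofReal.comp ?_)
    exact continuous_const.div (by fun_prop) fun w => (lt_max_of_lt_left hη).ne'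
  have hxN : ∀ z, cfc (ψ z) u ∈ N := fun z => mem_of_comm N fun y hy =>
    ((comm_of_mem N huN hy).cfc (comm_of_mem N (star_mem huN) hy) _).symm
  choose s hsN hs hs1 hs2 using fun z => rangeProj N (hxN z)
  have hC : ∀ z y, Commute u y → Commute (star u) y → Commute (s z) y := fun z y h1 h2 =>
    rp_comm (hs z) (hs1 z) (hs2 z) (h1.cfc h2 _)
      ((by simpa using h2.star_star : Commute u (star y)).cfc h1.star_star _)
  have hn : Commute (star u) u := star_comm_self
  have hsu : ∀ z, Commute u (s z) := fun z => (hC z u (Commute.refl u) hn).symm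
  have hsu' : ∀ z, Commute (star u) (s z) := fun z => (hC z _ hn.symm (Commute.refl _)).symm
  have hb : ∀ z : t, ‖(u - (z : ℂ) • 1) * s z‖ ≤ η := fun z => by
    have h1 : (u - (z : ℂ) • 1 - cfc (g z) u) * cfc (ψ z) u = 0 := by
      have h2 : u - (z : ℂ) • 1 = cfc (fun w : ℂ => w - z) u := by
        rw [cfc_sub _ _ u, cfc_id' ℂ u, cfc_const _ u, Algebra.algebraMap_eq_smul_one]
      rw [h2, ← cfc_sub _ _ u (by fun_prop) (hg z).continuousOn,
        ← cfc_mul (fun w : ℂ => w - z - g z w) _ u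
        ((by fun_prop : Continuous fun w : ℂ => w - z).sub (hg z)).continuousOn
        (hψ z).continuousOn, ← cfc_zero ℂ u]
      congr 1
      funext w
      simp only [g, ψ, Pi.zero_apply]
      by_cases h : ‖w - z‖ ≤ η
      · rw [max_eq_left h, div_self hη.ne']; simp
      · rw [max_eq_left (by linarith : η - ‖w - z‖ ≤ 0)]; simp
    have h2 := hs2 z _ h1
    rw [sub_mul, sub_eq_zero] at h2
    rw [h2]
    refine (norm_mul_le _ _).trans ((mul_le_of_le_one_right (norm_nonneg _) (hs z).norm_le).trans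
      (norm_cfc_le hη.le fun w _ => ?_))
    simp only [g]
    have h3 : 0 < max η ‖w - z‖ := lt_max_of_lt_left hη
    rw [norm_mul, Complex.norm_real, Real.norm_eq_abs, abs_of_pos (by positivity), ← mul_div_assoc,
      div_le_iff₀ h3, mul_comm]
    exact mul_le_mul_of_nonneg_left (le_max_right _ _) hη.le
  have key : ∀ S : Finset t, ∃ e : t → H →L[ℂ] H,
      (∀ j, e j ∈ N ∧ IsStarProjection (e j) ∧ 1 * e j = e j) ∧ (∀ i j, i ≠ j → e i * e j = 0) ∧
      (∀ j ∉ S, e j = 0) ∧ (∀ j, Commute u (e j) ∧ Commute (star u) (e j) ∧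
        ‖(u - (j : ℂ) • 1) * e j‖ ≤ η) ∧ ∀ j ∈ S, (1 - ∑ i, e i) * s j = 0 := by
    intro S
    induction S using Finset.induction_on with
    | empty => exact ⟨0, fun j => ⟨zero_mem _, IsStarProjection.zero _, by simp⟩, by simp,
        by simp, by simp [hη.le], by simp⟩
    | insert a S ha ih =>
      obtain ⟨e, he, ho, hz, hc, hv⟩ := ih
      have hp := rest (IsStarProjection.one _) he ho
      have c1 : Commute u (1 - ∑ i, e i) :=
        (Commute.one_right u).sub_right (Commute.sum_right _ _ _ fun i _ => (hc i).1)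
      have c2 : Commute (star u) (1 - ∑ i, e i) :=
        (Commute.one_right _).sub_right (Commute.sum_right _ _ _ fun i _ => (hc i).2.1)
      have c3 := fun z => hC z _ c1 c2
      obtain ⟨u1, u2, u3⟩ := upd (IsStarProjection.one _) he ho (hz a ha)
        (r := (1 - ∑ i, e i) * s a)
        (mul_mem (sub_mem (one_mem _) (sum_mem fun j _ => (he j).1)) (hsN a))
        (hp.mul (hs a) (c3 a).symm) (by rw [← mul_assoc, hp.isIdempotentElem.eq])
      refine ⟨_, u1, u2, fun j hj => ?_, fun j => ?_, fun j hj => ?_⟩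
      · rw [mem_insert, not_or] at hj
        simpa [hj.1] using hz j hj.2
      · by_cases h : j = a
        · subst h
          rw [Function.update_self]
          refine ⟨c1.mul_right (hsu j), c2.mul_right (hsu' j), ?_⟩
          rw [← (c3 j).eq, ← mul_assoc]
          exact (norm_mul_le _ _).trans
            ((mul_le_of_le_one_right (norm_nonneg _) hp.norm_le).trans (hb j))
        · rw [Function.update_of_ne h]
          exact hc j
      · rw [u3, ← sub_sub, sub_mul]
        rcases mem_insert.1 hj with h | h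
        · subst h
          rw [mul_assoc, (hs j).isIdempotentElem.eq, sub_self]
        · rw [← (c3 a).eq, mul_assoc, hv j h, mul_zero, sub_self]
  obtain ⟨e, he, ho, -, hc, hv⟩ := key univ
  have hU : IsUnit (∑ z, cfc (ψ z) u) := by
    rw [← cfc_sum_univ ψ u fun z => (hψ z).continuousOn,
      isUnit_cfc_iff _ u (by rw [Finset.sum_fn]; fun_prop)]
    intro w hw
    obtain ⟨z, hz, hwz⟩ := Set.mem_iUnion₂.1 (hcov (spectrum.subset_circle_of_unitary hu hw))
    simp only [Finset.sum_apply, ψ, ← Complex.ofReal_sum, ne_eq, Complex.ofReal_eq_zero]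
    refine ne_of_gt (sum_pos' (fun i _ => le_max_left _ _) ⟨⟨z, hz⟩, mem_univ _, ?_⟩)
    rw [mem_ball_iff_norm] at hwz
    exact lt_max_of_lt_right (sub_pos.2 hwz)
  have P : PV N 1 e := ⟨fun j => (he j).1, fun j => (he j).2.1, ho, by
    refine (sub_eq_zero.1 (hU.mul_left_eq_zero.1 ?_)).symm
    rw [mul_sum]
    exact sum_eq_zero fun z _ => by rw [← hs1 z, ← mul_assoc, hv z (mem_univ _), zero_mul]⟩
  refine ⟨t, inferInstance, e, fun z => ⟨z, ht z.2⟩, P, ?_⟩
  have : u - ∑ j : t, (j : ℂ) • e j = ∑ j : t, (u - (j : ℂ) • 1) * e j := by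
    simp only [sub_mul, smul_mul_assoc, one_mul, sum_sub_distrib, ← mul_sum, P.sum, mul_one]
  change ‖u - ∑ j : t, (j : ℂ) • e j‖ ≤ η
  rw [this]
  refine blocknorm P (fun j => ?_) (fun j => ?_) hη.le fun j => (hc j).2.2
  · rw [← mul_assoc, ← ((hc j).1.sub_left ((Commute.one_left _).smul_left _)).eq, mul_assoc,
      (P.proj j).isIdempotentElem.eq]
  · rw [mul_assoc, (P.proj j).isIdempotentElem.eq]

theorem Y_mul {e : J → H →L[ℂ] H} (he : PV N 1 e) (a b : J → ℂ) :
    (∑ j, a j • e j) * ∑ j, b j • e j = ∑ j, (a j * b j) • e j := by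
  rw [sum_mul_sum]
  refine sum_congr rfl fun i _ => ?_
  rw [sum_eq_single i, smul_mul_smul_comm, (he.proj i).isIdempotentElem.eq]
  · intro j _ h
    rw [smul_mul_smul_comm, he.orth i j h.symm, smul_zero]
  · simp

theorem Y_star {e : J → H →L[ℂ] H} (he : PV N 1 e) (a : J → ℂ) :
    star (∑ j, a j • e j) = ∑ j, star (a j) • e j := by
  simp only [star_sum, star_smul, fun j => (he.proj j).isSelfAdjoint.star_eq]

/-- the unitary with given eigenvalues and eigenprojections -/
noncomputable def uni {e : J → H →L[ℂ] H} (he : PV N 1 e) :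
    (J → Circle) →* unitary (H →L[ℂ] H) where
  toFun t := ⟨∑ j, (t j : ℂ) • e j, by
    rw [Unitary.mem_iff, Y_star he, Y_mul he, Y_mul he]
    simp [Complex.conj_mul', Complex.mul_conj', he.sum]⟩
  map_one' := Subtype.ext (by simp [he.sum])
  map_mul' a b := Subtype.ext (by simp [Y_mul he])

theorem uni_coe {e : J → H →L[ℂ] H} (he : PV N 1 e) (t : J → Circle) :
    (uni he t : H →L[ℂ] H) = ∑ j, (t j : ℂ) • e j := rfl

theorem uni_zpow {e : J → H →L[ℂ] H} (he : PV N 1 e) (t : J → Circle) (k : ℤ) :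
    ((uni he t ^ k : unitary (H →L[ℂ] H)) : H →L[ℂ] H) = ∑ j, (t j : ℂ) ^ k • e j := by
  rw [← map_zpow, uni_coe]
  simp

theorem uni_mem {e : J → H →L[ℂ] H} (he : PV N 1 e) (t : J → Circle) :
    (uni he t : H →L[ℂ] H) ∈ N := sum_mem fun j _ => smul_mem' N _ (he.mem j)

theorem roots {m : ℕ} (hm : 0 < m) : ∃ l : Fin m → Circle, ∀ d : ℤ, |d| < m →
    ∑ i, (l i : ℂ) ^ d = if d = 0 then (m : ℂ) else 0 := by
  have h := Complex.isPrimitiveRoot_exp m hm.ne'
  set ω := Complex.exp (2 * Real.pi * Complex.I / m)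
  have hn : ‖ω‖ = 1 := h.norm'_eq_one hm.ne'
  refine ⟨fun i => ⟨ω ^ (i : ℕ), by simp [Submonoid.unitSphere, hn]⟩, fun d hd => ?_⟩
  change ∑ i : Fin m, (ω ^ (i : ℕ)) ^ d = _
  split_ifs with h0
  · simp [h0]
  · have h1 : ω ^ d ≠ 1 := fun h1 => h0 (Int.eq_zero_of_abs_lt_dvd
      ((h.zpow_eq_one_iff_dvd d).1 h1) hd)
    have h2 : ∀ i : ℕ, (ω ^ i) ^ d = (ω ^ d) ^ i := fun i => by
      rw [← zpow_natCast, ← zpow_natCast, ← zpow_mul, ← zpow_mul, mul_comm]
    simp only [h2]
    rw [Fin.sum_univ_eq_sum_range (fun i => (ω ^ d) ^ i), geom_sum_eq h1, ← h2, h.pow_eq_one]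
    simp

/-- a positive trigonometric partition of unity reproducing `z` up to a factor close to one -/
theorem fejer {ε : ℝ} (hε : 0 < ε) : ∃ (m : ℕ) (_ : 0 < m) (l : Fin m → Circle) (σ : Type)
    (_ : Fintype σ) (n : σ → ℤ) (c : Fin m → σ → ℂ) (φ : Circle → Fin m → ℝ) (a γ : ℝ), 0 < a ∧
    1 - ε ≤ γ ∧ (∀ z i, (φ z i : ℂ) = ∑ x, c i x * (z : ℂ) ^ n x) ∧ (∀ z i, a ≤ φ z i) ∧
    (∀ z, ∑ i, φ z i = 1) ∧ ∀ z, ∑ i, (l i : ℂ) * φ z i = γ * z := by
  obtain ⟨K, hK⟩ := exists_nat_one_div_lt (half_pos hε)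
  obtain ⟨l, hl⟩ := roots (show 0 < K + 2 by omega)
  set s : ℝ := 1 / (K + 1) with hs
  have hs0 : 0 < s := by positivity
  have hs1 : s ≤ 1 := by rw [hs, div_le_one (by positivity)]; linarith [K.cast_nonneg (α := ℝ)]
  set b : ℝ := (1 - s) / ((K + 2) * (K + 1)) with hb
  have hb0 : 0 ≤ b := div_nonneg (sub_nonneg.2 hs1) (by positivity)
  let φ : Circle → Fin (K + 2) → ℝ := fun z i =>
    b * Complex.normSq (∑ x : Fin (K + 1), ((z * (l i)⁻¹ : Circle) : ℂ) ^ (x : ℕ)) + s / (K + 2)
  have hφ : ∀ z i, (φ z i : ℂ) = b * ∑ x : Fin (K + 1), ∑ y : Fin (K + 1),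
      (l i : ℂ) ^ ((y : ℤ) - x) * (z : ℂ) ^ ((x : ℤ) - y) + s / (K + 2) := fun z i => by
    simp only [φ]
    push_cast
    rw [← Complex.mul_conj, map_sum, sum_mul_sum]
    congr 2
    refine sum_congr rfl fun x _ => sum_congr rfl fun y _ => ?_
    rw [map_pow, map_mul, map_inv₀, ← Circle.coe_inv_eq_conj, ← Circle.coe_inv_eq_conj,
      zpow_sub₀ (l i).coe_ne_zero, zpow_sub₀ z.coe_ne_zero]
    simp only [Circle.coe_inv, inv_inv, zpow_natCast, mul_pow, inv_pow]
    field_simp
  have hab : ∀ (x y : Fin (K + 1)) (k : ℤ), 0 ≤ k → k ≤ 1 →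
      |(y : ℤ) - x + k| < ((K + 2 : ℕ) : ℤ) := fun x y k h1 h2 => by
    have := x.2
    have := y.2
    rw [abs_lt]
    constructor <;> omega
  have hK1 : (K : ℂ) + 1 ≠ 0 := by exact_mod_cast K.succ_ne_zero
  have hK2 : (K : ℂ) + 2 ≠ 0 := by exact_mod_cast (K + 1).succ_ne_zero
  have main : ∀ (z : Circle) (k : ℤ), 0 ≤ k → k ≤ 1 → ∑ i, (l i : ℂ) ^ k * φ z i =
      b * ∑ x : Fin (K + 1), ∑ y : Fin (K + 1), (if (y : ℤ) - x + k = 0 then
        ((K + 2 : ℕ) : ℂ) else 0) * (z : ℂ) ^ ((x : ℤ) - y) +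
        (if k = 0 then ((K + 2 : ℕ) : ℂ) else 0) * (s / (K + 2)) := fun z k h1 h2 => by
    rw [← hl k (by rw [abs_lt]; constructor <;> omega), sum_mul]
    simp only [hφ, mul_add, sum_add_distrib, ← hl _ (hab _ _ k h1 h2), sum_mul, mul_sum]
    congr 1
    rw [sum_comm]
    refine sum_congr rfl fun x _ => ?_
    rw [sum_comm]
    refine sum_congr rfl fun y _ => sum_congr rfl fun i _ => ?_
    rw [zpow_add₀ (l i).coe_ne_zero]
    ring
  refine ⟨K + 2, by omega, l, Option (Fin (K + 1) × Fin (K + 1)), inferInstance,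
    fun x => x.elim 0 fun x => (x.1 : ℤ) - x.2,
    fun i x => x.elim (s / (K + 2)) fun x => b * (l i : ℂ) ^ ((x.2 : ℤ) - x.1), φ, s / (K + 2),
    (1 - s) * (1 - s), by positivity, by nlinarith, fun z i => ?_, fun z i => ?_, fun z => ?_,
    fun z => ?_⟩
  · rw [hφ, Fintype.sum_option, Fintype.sum_prod_type]
    simp only [Option.elim_none, Option.elim_some, zpow_zero, mul_one, mul_sum, mul_assoc]
    ring
  · exact le_add_of_nonneg_left (mul_nonneg hb0 (Complex.normSq_nonneg _))
  · have := main z 0 le_rfl zero_le_one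
    simp only [zpow_zero, one_mul, add_zero, sub_eq_zero, Nat.cast_inj, Fin.val_inj, ite_mul,
      zero_mul, sum_ite_eq', mem_univ, if_true, sub_self, mul_one, sum_const, card_univ,
      Fintype.card_fin, nsmul_eq_mul] at this
    rw [← Complex.ofReal_inj, Complex.ofReal_sum, this, hb]
    push_cast
    field_simp
    ring
  · have := main z 1 zero_le_one le_rfl
    simp only [zpow_one, one_ne_zero, if_false, zero_mul, add_zero] at this
    rw [this, Fin.sum_univ_succ, sum_eq_zero fun y _ => by rw [if_neg (by simp; omega), zero_mul],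
      zero_add, sum_congr rfl fun x _ => sum_eq_single x.castSucc (fun y _ hy => by
        rw [if_neg (fun h => hy (Fin.ext (by simp at h ⊢; omega))), zero_mul]) (by simp)]
    simp only [Fin.val_castSucc, Fin.val_succ, Nat.cast_add, Nat.cast_one, sub_add_cancel_left,
      neg_add_cancel, if_true, add_sub_cancel_left, zpow_one, sum_const, card_univ,
      Fintype.card_fin, nsmul_eq_mul]
    rw [hb, hs]
    push_cast
    field_simp
    ring

end Pool.Agent.H75.IL
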