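import Pool.Agent.H75.IL4

set_option linter.unusedSectionVars false
set_option linter.deprecated false

namespace Pool.Agent.H75.IL
open Filter Topology Finset Pool.Agent.H86.Wu
open scoped InnerProductSpace

variable {H : Type*} [NormedAddCommGroup H] [InnerProductSpace ℂ H] [CompleteSpace H]
variable {N : VonNeumannAlgebra H} {T : (H →L[ℂ] H) →ₗ[ℂ] ℂ}

theorem Ctx.le (C : Ctx N T) (w : H →L[ℂ] H) : ‖T w‖ ≤ ‖w‖ := by
  simpa [C.one] using C.bound 1 w

theorem unorm (u : unitary (H →L[ℂ] H)) : ‖(u : H →L[ℂ] H)‖ ≤ 1 := by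
  have h := CStarRing.norm_star_mul_self (x := (u : H →L[ℂ] H))
  rw [Unitary.coe_star_mul_self] at h
  have := (IsStarProjection.one (H →L[ℂ] H)).norm_le
  nlinarith [norm_nonneg (u : H →L[ℂ] H)]

theorem Ctx.near (C : Ctx N T) {u U : H →L[ℂ] H} (w : unitary (H →L[ℂ] H)) {η : ℝ}
    (h : ‖u - U‖ ≤ η) : (T (star U * w)).re - η ≤ (T (star u * w)).re := by
  have h1 := (Complex.abs_re_le_norm _).trans ((C.le (star (u - U) * w)).trans
    ((norm_mul_le _ _).trans (mul_le_of_le_one_right (norm_nonneg _) (unorm w))))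
  rw [norm_star, star_sub, sub_mul, map_sub, Complex.sub_re] at h1
  linarith [(abs_le.1 h1).1]

theorem Ctx.close (C : Ctx N T) (u w : unitary (H →L[ℂ] H)) {ε : ℝ}
    (h : 1 - ε ≤ (T (star (u : H →L[ℂ] H) * w)).re) :
    ‖T (star ((w : H →L[ℂ] H) - u) * ((w : H →L[ℂ] H) - u))‖ ≤ 2 * ε := by
  have h1 := C.sta (star (u : H →L[ℂ] H) * w)
  rw [star_mul, star_star] at h1
  have h2 : T (star ((w : H →L[ℂ] H) - u) * ((w : H →L[ℂ] H) - u)) =
      ((2 - 2 * (T (star (u : H →L[ℂ] H) * w)).re : ℝ) : ℂ) := by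
    simp only [star_sub, sub_mul, mul_sub, map_sub, Unitary.coe_star_mul_self, C.one, h1]
    apply Complex.ext <;> simp
    ring
  have h3 := C.pos _ (star_mul_self_nonneg ((w : H →L[ℂ] H) - u))
  rw [h2, Complex.ofReal_re] at h3
  rw [h2, Complex.norm_real, Real.norm_eq_abs, abs_of_nonneg h3]
  linarith

theorem Ctx.loc (C : Ctx N T) {ε : ℝ} (hε : 0 < ε) {α : Type} (F : Filter α)
    (u v : α → unitary (H →L[ℂ] H)) (hu : ∀ n, (u n : H →L[ℂ] H) ∈ N)
    (hv : ∀ n, (v n : H →L[ℂ] H) ∈ N)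
    (h : ∀ k l : ℤ, Tendsto (fun n => T (↑(u n ^ k) * ↑(v n ^ l)) - T ↑(u n ^ k) * T ↑(v n ^ l))
      F (𝓝 0)) :
    ∀ᶠ n in F, ∃ u' v' : unitary (H →L[ℂ] H), (u' : H →L[ℂ] H) ∈ N ∧ (v' : H →L[ℂ] H) ∈ N ∧
      (∀ k l : ℤ, T (↑(u' ^ k) * ↑(v' ^ l)) = T ↑(u' ^ k) * T ↑(v' ^ l)) ∧
      1 - ε ≤ (T (star (u n : H →L[ℂ] H) * u')).re ∧
      1 - ε ≤ (T (star (v n : H →L[ℂ] H) * v')).re := by
  have h3 : 0 < ε / 3 := by positivity
  obtain ⟨m, hm, l, σ, _, k, c, φ, a, γ, ha, hγ, hφ, hφa, hφ1, hφl⟩ := fejer h3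
  haveI : Nonempty (Fin m) := ⟨⟨0, hm⟩⟩
  obtain ⟨δ, hδ, hcorr⟩ := C.corr (Fin m) (Fin m) ha h3
  let A : Fin m → unitary (H →L[ℂ] H) → H →L[ℂ] H := fun i w =>
    ∑ x, c i x • ((w ^ k x : unitary (H →L[ℂ] H)) : H →L[ℂ] H)
  let β : Fin m × Fin m → unitary (H →L[ℂ] H) × unitary (H →L[ℂ] H) → ℂ := fun ij w =>
    T (A ij.1 w.1 * A ij.2 w.2) - T (A ij.1 w.1) * T (A ij.2 w.2)
  have hT : Continuous T := AddMonoidHomClass.continuous_of_bound T 1 (by simpa using C.le)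
  have hA : ∀ i, Continuous (A i) := fun i => continuous_finset_sum _ fun x _ =>
    (continuous_subtype_val.comp (continuous_zpow (k x))).const_smul (c i x)
  have hβ : ∀ ij, Continuous (β ij) := fun ij => by simp only [β]; fun_prop
  have hO : IsOpen (⋂ ij, {w | ‖β ij w‖ < δ}) :=
    isOpen_iInter_of_finite fun ij => isOpen_lt (hβ ij).norm continuous_const
  have hev : ∀ ij, ∀ᶠ n in F, ‖β ij (u n, v n)‖ < δ := fun ij => by
    have h1 : Tendsto (fun n => β ij (u n, v n)) F (𝓝 0) := by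
      have h2 := tendsto_finset_sum univ fun x _ => tendsto_finset_sum univ fun y _ =>
        (h (k x) (k y)).const_mul (c ij.1 x * c ij.2 y)
      simp only [mul_zero, sum_const_zero] at h2
      refine h2.congr fun n => ?_
      simp only [β, A, sum_mul_sum, map_sum, smul_mul_smul_comm, map_smul, smul_eq_mul,
        ← sum_sub_distrib]
      exact sum_congr rfl fun x _ => sum_congr rfl fun y _ => by ring
    simpa using h1.norm.eventually (gt_mem_nhds (by simpa using hδ))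
  filter_upwards [eventually_all.2 hev] with n hn
  obtain ⟨η, hη, hball⟩ := Metric.isOpen_iff.1 hO (u n, v n) (Set.mem_iInter.2 hn)
  have hη' : 0 < min (η / 2) (ε / 3) := lt_min (half_pos hη) h3
  obtain ⟨J, _, e, t, he, het⟩ := specfin (u n).2 (hu n) hη'
  obtain ⟨J', _, f, t', hf, hft⟩ := specfin (v n).2 (hv n) hη'
  have hUV := Set.mem_iInter.1 (hball (show (uni he t, uni hf t') ∈ Metric.ball (u n, v n) η by
    rw [Metric.mem_ball', Prod.dist_eq, max_lt_iff, Subtype.dist_eq, Subtype.dist_eq, dist_eq_norm,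
      dist_eq_norm]
    exact ⟨het.trans_lt ((min_le_left _ _).trans_lt (half_lt_self hη)),
      hft.trans_lt ((min_le_left _ _).trans_lt (half_lt_self hη))⟩))
  have hAe : ∀ {J : Type} [Fintype J] {e : J → H →L[ℂ] H} (he : PV N 1 e) (t : J → Circle) i,
      ∑ r, (φ (t r) i : ℂ) • e r = A i (uni he t) := fun he t i => by
    simp only [A, uni_zpow, smul_sum, smul_smul, hφ, sum_smul]
    exact sum_comm
  have hAN : ∀ {J : Type} [Fintype J] {e : J → H →L[ℂ] H} (he : PV N 1 e) (t : J → Circle) i,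
      A i (uni he t) ∈ N := fun he t i =>
    hAe he t i ▸ sum_mem fun r _ => smul_mem' N _ (he.mem r)
  have clo : ∀ {J : Type} [Fintype J] {e : J → H →L[ℂ] H} (he : PV N 1 e) (t : J → Circle)
      (p : Fin m → H →L[ℂ] H), (∀ i, T (star (uni he t : H →L[ℂ] H) * p i) =
        T (star (uni he t : H →L[ℂ] H) * A i (uni he t))) →
      (T (star (uni he t : H →L[ℂ] H) * ∑ i, (l i : ℂ) • p i)).re = γ := fun he t p hp => by
    have h1 : ∑ i, (l i : ℂ) • A i (uni he t) = (γ : ℂ) • (uni he t : H →L[ℂ] H) := by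
      simp only [← hAe he t, uni_coe, smul_sum, smul_smul, ← hφl, sum_smul]
      exact sum_comm
    have h2 : T (star (uni he t : H →L[ℂ] H) * ∑ i, (l i : ℂ) • p i) =
        T (star (uni he t : H →L[ℂ] H) * ∑ i, (l i : ℂ) • A i (uni he t)) := by
      simp only [mul_sum, map_sum, mul_smul_comm, map_smul, hp]
    rw [h2, h1, mul_smul_comm, Unitary.coe_star_mul_self, map_smul, C.one]
    simp
  obtain ⟨p, hp, hpv⟩ := C.conv (fun c : Option (Option (Fin m)) => c.elim 1 fun c =>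
    c.elim (star (uni he t : H →L[ℂ] H)) fun j => A j (uni hf t')) he (fun r => φ (t r))
    (fun r i => ha.le.trans (hφa _ _)) fun r => hφ1 _
  obtain ⟨q, hq, hqv⟩ := C.conv (fun c : Option (Option (Fin m)) => c.elim 1 fun c =>
    c.elim (star (uni hf t' : H →L[ℂ] H)) p) hf (fun r => φ (t' r))
    (fun r i => ha.le.trans (hφa _ _)) fun r => hφ1 _
  have p1 := fun i => hpv none i
  have p2 := fun i => hpv (some none) i
  have p3 := fun j i => hpv (some (some j)) i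
  have q1 := fun i => hqv none i
  have q2 := fun i => hqv (some none) i
  have q3 := fun j i => hqv (some (some j)) i
  simp only [Option.elim_none, Option.elim_some, one_mul] at p1 p2 p3 q1 q2 q3
  obtain ⟨q', hq', hind, hcl⟩ := hcorr p q hp hq (fun i => by
      rw [p1, map_sum, Complex.re_sum, ← mul_one a, ← Complex.one_re, ← C.one, ← he.sum, map_sum,
        Complex.re_sum, mul_sum]
      refine sum_le_sum fun r _ => ?_
      rw [map_smul, smul_eq_mul, Complex.re_ofReal_mul]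
      exact mul_le_mul_of_nonneg_right (hφa _ _) (C.pos _ (he.proj r).nonneg)) fun i j => by
    rw [q3, hAe hf, C.trc _ (hp.mem i) _ (hAN hf t' j), p3, p1, q1, hAe he, hAe hf,
      C.trc _ (hAN hf t' j) _ (hAN he t i)]
    exact (hUV (i, j)).le
  simp only [hAe he, hAe hf] at p2 q2
  refine ⟨uni hp l, uni hq' l, uni_mem _ _, uni_mem _ _, fun a b => ?_, ?_, ?_⟩
  · simp only [uni_zpow, sum_mul_sum, map_sum, smul_mul_smul_comm, map_smul, smul_eq_mul, hind]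
    exact sum_congr rfl fun x _ => sum_congr rfl fun y _ => by ring
  · have h1 := C.near (uni hp l) (het.trans (min_le_right _ _))
    have h2 := clo he t p p2
    simp only [uni_coe] at h1 h2 ⊢
    linarith
  · have h1 := C.near (uni hq' l) (hft.trans (min_le_right _ _))
    have h2 := clo hf t' q q2
    have h4 := (Complex.abs_re_le_norm _).trans (hcl _ (star_mem (uni_mem hf t'))
      (by rw [norm_star]; exact unorm _) (fun i => l i) fun i => (l i).norm_coe.le)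
    rw [Complex.sub_re] at h4
    simp only [uni_coe] at h1 h2 h4 ⊢
    linarith [(abs_le.1 h4).1]

theorem Ctx.lift (C : Ctx N T) (F : Filter ℕ) (hF : F ≤ cofinite)
    (u v : ℕ → unitary (H →L[ℂ] H)) (hu : ∀ n, (u n : H →L[ℂ] H) ∈ N)
    (hv : ∀ n, (v n : H →L[ℂ] H) ∈ N)
    (h : ∀ k l : ℤ, Tendsto (fun n => T (↑(u n ^ k) * ↑(v n ^ l)) - T ↑(u n ^ k) * T ↑(v n ^ l))
      F (𝓝 0)) :
    ∃ u' v' : ℕ → unitary (H →L[ℂ] H), (∀ n, (u' n : H →L[ℂ] H) ∈ N ∧ (v' n : H →L[ℂ] H) ∈ N) ∧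
      Tendsto (fun n => T (star ((u' n : H →L[ℂ] H) - u n) * ((u' n : H →L[ℂ] H) - u n))) F (𝓝 0) ∧
      Tendsto (fun n => T (star ((v' n : H →L[ℂ] H) - v n) * ((v' n : H →L[ℂ] H) - v n))) F (𝓝 0) ∧
      ∀ n (k l : ℤ), T (↑(u' n ^ k) * ↑(v' n ^ l)) = T ↑(u' n ^ k) * T ↑(v' n ^ l) := by
  classical
  let G : ℕ → ℕ → unitary (H →L[ℂ] H) → unitary (H →L[ℂ] H) → Prop := fun m n u' v' =>
    1 - 1 / ((m : ℝ) + 1) ≤ (T (star (u n : H →L[ℂ] H) * u')).re ∧
      1 - 1 / ((m : ℝ) + 1) ≤ (T (star (v n : H →L[ℂ] H) * v')).re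
  let D : unitary (H →L[ℂ] H) → unitary (H →L[ℂ] H) → Prop := fun u' v' =>
    ((u' : H →L[ℂ] H) ∈ N ∧ (v' : H →L[ℂ] H) ∈ N) ∧
      ∀ k l : ℤ, T (↑(u' ^ k) * ↑(v' ^ l)) = T ↑(u' ^ k) * T ↑(v' ^ l)
  let P : ℕ → ℕ → Prop := fun n m => ∃ u' v', D u' v' ∧ G m n u' v'
  have h1 : ∀ n, ∃ u' v', D u' v' ∧ ∀ m ≤ n, P n m → G m n u' v' := fun n => by
    by_cases h0 : ∃ m ≤ n, P n m
    · obtain ⟨m0, hm0, hP⟩ := h0
      obtain ⟨u', v', hD, hG⟩ := Nat.findGreatest_spec hm0 hP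
      refine ⟨u', v', hD, fun m hm hP => ?_⟩
      have h2 : 1 / ((Nat.findGreatest (P n) n : ℝ) + 1) ≤ 1 / ((m : ℝ) + 1) :=
        Nat.one_div_le_one_div (Nat.le_findGreatest hm hP)
      exact ⟨le_trans (by linarith) hG.1, le_trans (by linarith) hG.2⟩
    · exact ⟨1, 1, ⟨⟨one_mem _, one_mem _⟩, by simp [C.one]⟩, fun m hm hP =>
        absurd ⟨m, hm, hP⟩ h0⟩
  choose u' v' hD hG using h1
  have h2 : ∀ m, ∀ᶠ n in F, G m n (u' n) (v' n) := fun m => by
    filter_upwards [C.loc (Nat.one_div_pos_of_nat (n := m)) F u v hu hv h,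
      hF (Nat.cofinite_eq_atTop ▸ eventually_ge_atTop m)] with n ⟨a, b, h1, h2, h3, h4⟩ hn
    exact hG n m hn ⟨a, b, ⟨⟨h1, h2⟩, h3⟩, h4⟩
  refine ⟨u', v', fun n => (hD n).1, ?_, ?_, fun n => (hD n).2⟩ <;>
  · refine Metric.tendsto_nhds.2 fun ε hε => ?_
    obtain ⟨m, hm⟩ := exists_nat_one_div_lt (half_pos hε)
    filter_upwards [h2 m] with n hn
    rw [dist_zero_right]
    first
      | exact (C.close _ _ hn.1).trans_lt (by linarith)
      | exact (C.close _ _ hn.2).trans_lt (by linarith)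

theorem ctx (hd : Diffuse N) (ξ : ℕ → H) (hξ : Summable fun i => ‖ξ i‖ ^ 2)
    (h1 : tr ξ hξ 1 = 1) (h2 : ∀ x ∈ N, ∀ y ∈ N, tr ξ hξ (x * y) = tr ξ hξ (y * x))
    (h3 : ∀ x ∈ N, tr ξ hξ (star x * x) = 0 → x = 0) : Ctx N (tr ξ hξ) :=
  ⟨fun _ => tr_pos ξ hξ, tr_star ξ hξ, tr_bound ξ hξ, h1, h2, h3,
    fun x _ _ he hN h0 h1 => lyap hd ξ hξ x he hN h0 h1⟩

theorem zpow_mem' (u : unitary (H →L[ℂ] H)) (hu : (u : H →L[ℂ] H) ∈ N) (k : ℤ) :
    ((u ^ k : unitary (H →L[ℂ] H)) : H →L[ℂ] H) ∈ N := by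
  cases k with
  | ofNat n => simpa using pow_mem hu n
  | negSucc n => simpa [← Unitary.star_eq_inv] using pow_mem (star_mem hu) (n + 1)

end Pool.Agent.H75.IL
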