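import Mathlib

/-! A finitely generated domain with nonzero Jacobson radical, built inside the power series ring
over the endomorphism ring of a monoid algebra. -/

set_option autoImplicit false

namespace Pool.Agent.H75.JacDomain

open PowerSeries

universe u

section Cong

variable {T : Type u} [Ring T]

/-- Congruence modulo `X ^ n`. -/
def Cong (n : ℕ) (a b : T⟦X⟧) : Prop := ∃ c, a - b = X ^ n * c

theorem cong_iff {n : ℕ} {a b : T⟦X⟧} : Cong n a b ↔ ∀ m < n, coeff m a = coeff m b := by
  have := @X_pow_dvd_iff T _ n (a - b)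
  simp only [map_sub, sub_eq_zero] at this
  exact this

theorem Cong.refl (n : ℕ) (a : T⟦X⟧) : Cong n a a := ⟨0, by simp⟩

theorem Cong.add {n : ℕ} {a b c d : T⟦X⟧} (h1 : Cong n a b) (h2 : Cong n c d) :
    Cong n (a + c) (b + d) := by
  obtain ⟨x, hx⟩ := h1
  obtain ⟨y, hy⟩ := h2
  exact ⟨x + y, by rw [mul_add, ← hx, ← hy]; abel⟩

theorem Cong.mul {n : ℕ} {a b c d : T⟦X⟧} (h1 : Cong n a b) (h2 : Cong n c d) :
    Cong n (a * c) (b * d) := by
  obtain ⟨x, hx⟩ := h1
  obtain ⟨y, hy⟩ := h2
  refine ⟨x * c + b * y, ?_⟩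
  rw [mul_add, ← mul_assoc, ← hx, ← mul_assoc, ← (commute_X_pow b n).eq, mul_assoc, ← hy]
  noncomm_ring

theorem Cong.pow {n : ℕ} {a b : T⟦X⟧} (h1 : Cong n a b) (m : ℕ) : Cong n (a ^ m) (b ^ m) := by
  induction m with
  | zero => simpa using Cong.refl n 1
  | succ m ih => rw [pow_succ, pow_succ]; exact ih.mul h1

theorem Cong.X_mul {n : ℕ} {a b : T⟦X⟧} (h1 : Cong n a b) : Cong (n + 1) (X * a) (X * b) := by
  obtain ⟨x, hx⟩ := h1
  exact ⟨x, by rw [← mul_sub, hx, pow_succ', mul_assoc]⟩

/-- The inverse of `1 - X * P`. -/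
noncomputable def geom (P : T⟦X⟧) : T⟦X⟧ := invOfUnit (1 - X * P) 1

theorem geom_mul (P : T⟦X⟧) : geom P * (1 - X * P) = 1 := invOfUnit_mul _ _ (by simp)
theorem mul_geom (P : T⟦X⟧) : (1 - X * P) * geom P = 1 := mul_invOfUnit _ _ (by simp)

theorem Cong.geom {n : ℕ} {a b : T⟦X⟧} (h1 : Cong n a b) : Cong n (geom a) (geom b) := by
  obtain ⟨x, hx⟩ := h1
  refine ⟨JacDomain.geom a * (X * x) * JacDomain.geom b, ?_⟩
  have h2 : JacDomain.geom a - JacDomain.geom b =
      JacDomain.geom a * (X * (a - b)) * JacDomain.geom b := by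
    calc JacDomain.geom a - JacDomain.geom b
        = JacDomain.geom a * ((1 - X * b) * JacDomain.geom b) -
          (JacDomain.geom a * (1 - X * a)) * JacDomain.geom b := by
          rw [mul_geom, geom_mul, mul_one, one_mul]
      _ = _ := by noncomm_ring
  rw [h2, hx, ← mul_assoc X, (commute_X_pow X n).eq, mul_assoc (X ^ n), ← mul_assoc,
    (commute_X_pow _ n).eq]
  simp only [mul_assoc]

theorem geom_eq (P : T⟦X⟧) (n : ℕ) :
    geom P = (∑ j ∈ Finset.range n, (X * P) ^ j) + (X * P) ^ n * geom P := by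
  induction n with
  | zero => simp
  | succ n ih =>
    have h : geom P = 1 + X * P * geom P := by
      have := mul_geom P
      rw [sub_mul, one_mul] at this
      rw [← this]
      abel
    rw [Finset.sum_range_succ, pow_succ, add_assoc, mul_assoc ((X * P) ^ n)]
    conv_lhs => rw [ih]
    congr 1
    conv_lhs => rw [h]
    rw [mul_add, mul_one]

/-- A contraction on power series has a fixed point. -/
theorem exists_fixed (Φ : T⟦X⟧ → T⟦X⟧)
    (h : ∀ n a b, Cong n a b → Cong (n + 1) (Φ a) (Φ b)) : ∃ B, Φ B = B := by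
  have h1 : ∀ n, Cong n (Φ^[n] 0) (Φ^[n + 1] 0) := by
    intro n
    induction n with
    | zero => exact cong_iff.2 fun m hm => absurd hm (Nat.not_lt_zero m)
    | succ n ih =>
      rw [Function.iterate_succ_apply' Φ (n + 1), Function.iterate_succ_apply' Φ n]
      apply h
      rwa [Function.iterate_succ_apply' Φ n] at ih
  have h2 : ∀ m d, coeff m (Φ^[m + 1 + d] 0) = coeff m (Φ^[m + 1] 0) := by
    intro m d
    induction d with
    | zero => rfl
    | succ d ih =>
      rw [← ih, ← add_assoc]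
      exact (cong_iff.1 (h1 (m + 1 + d)) m (by omega)).symm
  let B : T⟦X⟧ := PowerSeries.mk fun m => coeff m (Φ^[m + 1] 0)
  have h3 : ∀ n, Cong n B (Φ^[n] 0) := by
    intro n
    refine cong_iff.2 fun m hm => ?_
    obtain ⟨d, rfl⟩ := Nat.exists_eq_add_of_le (Nat.succ_le_of_lt hm)
    simp only [B, coeff_mk]
    exact (h2 m d).symm
  refine ⟨B, ?_⟩
  ext m
  have h4 := cong_iff.1 (h m _ _ (h3 m)) m (Nat.lt_succ_self m)
  rw [h4, ← Function.iterate_succ_apply' Φ m]
  simp [B]

end Cong

/-- The monoid of words. -/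
abbrev Mo : Type := FreeMonoid ℕ × FreeMonoid Bool

variable (k : Type u) [Field k]

abbrev A0 : Type u := MonoidAlgebra k Mo
abbrev E0 : Type u := (Module.End k (A0 k))⟦X⟧

/-- Left multiplication by a word, as a constant series. -/
noncomputable def LW : Mo →* E0 k :=
  ((C (R := Module.End k (A0 k))).toMonoidHom.comp
    (Algebra.lmul k (A0 k)).toMonoidHom).comp (MonoidAlgebra.of k Mo)

theorem LW_apply (m : Mo) :
    LW k m = C (Algebra.lmul k (A0 k) (MonoidAlgebra.single m 1)) := rfl

variable {k}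

/-- The derivation on words with prescribed values on letters. -/
noncomputable def DW (q : ℕ → E0 k) : List ℕ → E0 k
  | [] => 0
  | i :: w => q i * LW k (FreeMonoid.ofList w, 1) + LW k (FreeMonoid.of i, 1) * DW q w

theorem DW_cong {n : ℕ} {q q' : ℕ → E0 k} (h : ∀ i, Cong n (q i) (q' i)) (w : List ℕ) :
    Cong n (DW q w) (DW q' w) := by
  induction w with
  | nil => exact Cong.refl _ _
  | cons i w ih => exact ((h i).mul (Cong.refl _ _)).add ((Cong.refl _ _).mul ih)

/-- The correction term. -/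
noncomputable def corr (q : ℕ → E0 k) : E0 k :=
  PowerSeries.mk fun n => (MonoidAlgebra.basis Mo k).constr k fun m =>
    coeff n (DW q m.1.toList) (MonoidAlgebra.single (1, m.2) 1)

theorem corr_apply (q : ℕ → E0 k) (n : ℕ) (m : Mo) :
    coeff n (corr q) (MonoidAlgebra.single m 1) =
      coeff n (DW q m.1.toList) (MonoidAlgebra.single (1, m.2) 1) := by
  rw [corr, coeff_mk, ← MonoidAlgebra.basis_apply, Module.Basis.constr_basis]

theorem corr_cong {n : ℕ} {q q' : ℕ → E0 k} (h : ∀ i, Cong n (q i) (q' i)) :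
    Cong n (corr q) (corr q') := by
  refine cong_iff.2 fun m hm => ?_
  simp only [corr, coeff_mk]
  congr 1
  funext w
  rw [cong_iff.1 (DW_cong h _) m hm]

theorem corr_comm (q : ℕ → E0 k) (i : ℕ) :
    corr q * LW k (FreeMonoid.of i, 1) = LW k (FreeMonoid.of i, 1) * corr q + q i := by
  ext1 n
  apply (MonoidAlgebra.basis Mo k).ext
  rintro ⟨w, v⟩
  rw [MonoidAlgebra.basis_apply, map_add, LW_apply, coeff_mul_C, coeff_C_mul]
  simp only [Module.End.mul_apply, LinearMap.add_apply, Algebra.coe_lmul_eq_mul,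
    LinearMap.mul_apply', MonoidAlgebra.single_mul_single, corr_apply, Prod.mk_mul_mk, one_mul,
    FreeMonoid.toList_of_mul, DW, map_add, LW_apply, coeff_mul_C, coeff_C_mul,
    FreeMonoid.ofList_toList, mul_one]
  rw [add_comm]

/-- The deformed left multiplication by the letter `z`. -/
noncomputable def Op (z : Bool) (q : ℕ → E0 k) : E0 k := LW k (1, FreeMonoid.of z) + corr q

theorem Op_comm (z : Bool) (q : ℕ → E0 k) (i : ℕ) :
    Op z q * LW k (FreeMonoid.of i, 1) = LW k (FreeMonoid.of i, 1) * Op z q + q i := by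
  rw [Op, add_mul, mul_add, corr_comm, ← map_mul, ← map_mul, add_assoc]
  simp

theorem Op_cong (z : Bool) {n : ℕ} {q q' : ℕ → E0 k} (h : ∀ i, Cong n (q i) (q' i)) :
    Cong n (Op z q) (Op z q') := (Cong.refl _ _).add (corr_cong h)

theorem DW_zero (w : List ℕ) : DW (fun _ => (0 : E0 k)) w = 0 := by
  induction w with
  | nil => rfl
  | cons i w ih => simp [DW, ih]

theorem Op_const (z : Bool) (q : ℕ → E0 k) :
    constantCoeff (Op z fun i => X * q i) = constantCoeff (LW k (1, FreeMonoid.of z)) := by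
  have h1 : Cong 1 (corr fun i => X * q i) (corr fun _ => 0) :=
    corr_cong fun i => ⟨q i, by simp⟩
  have h2 := cong_iff.1 h1 0 Nat.one_pos
  have h3 : coeff 0 (corr fun _ => (0 : E0 k)) = 0 := by
    apply (MonoidAlgebra.basis Mo k).ext
    intro m
    rw [MonoidAlgebra.basis_apply, corr_apply, DW_zero]
    simp
  rw [h3, coeff_zero_eq_constantCoeff_apply] at h2
  rw [Op, map_add, h2, add_zero]

variable (k) in
/-- The shift operator. -/
noncomputable def YY : E0 k := Op false fun i => X * LW k (FreeMonoid.of (i + 1), 1)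

/-- Evaluation of noncommutative polynomials in four variables. -/
noncomputable def ev (B : E0 k) : FreeAlgebra k (Fin 4) →ₐ[k] E0 k :=
  FreeAlgebra.lift k ![LW k (FreeMonoid.of 0, 1), YY k, B, X]

theorem ev_cong {n : ℕ} {B B' : E0 k} (h : Cong n B B') (p : FreeAlgebra k (Fin 4)) :
    Cong n (ev B p) (ev B' p) := by
  induction p using FreeAlgebra.induction with
  | grade0 r => simpa using Cong.refl _ _
  | grade1 i =>
    simp only [ev, FreeAlgebra.lift_ι_apply]
    fin_cases i
    · exact Cong.refl _ _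
    · exact Cong.refl _ _
    · exact h
    · exact Cong.refl _ _
  | mul a b ha hb => simpa using ha.mul hb
  | add a b ha hb => simpa using ha.add hb

theorem exists_B (p : ℕ → FreeAlgebra k (Fin 4)) :
    ∃ B : E0 k, B = Op true fun i => X * (ev B (p i) ^ (i + 1) * geom (ev B (p i))) := by
  obtain ⟨B, hB⟩ := exists_fixed
    (fun B : E0 k => Op true fun i => X * (ev B (p i) ^ (i + 1) * geom (ev B (p i))))
    (fun n a b hab => Op_cong true fun i =>
      (((ev_cong hab (p i)).pow _).mul (ev_cong hab (p i)).geom).X_mul)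
  exact ⟨B, hB.symm⟩

section Filtration

variable (O : Bool → E0 k)

/-- Ordered monomials. -/
noncomputable def mu : A0 k →ₗ[k] E0 k :=
  (MonoidAlgebra.basis Mo k).constr k fun m => LW k (m.1, 1) * FreeMonoid.lift O m.2

theorem mu_single (m : Mo) :
    mu O (MonoidAlgebra.single m 1) = LW k (m.1, 1) * FreeMonoid.lift O m.2 := by
  rw [mu, ← MonoidAlgebra.basis_apply, Module.Basis.constr_basis]

/-- The decreasing chain of subrings. -/
noncomputable def SS : ℕ → Submodule k (E0 k)
  | 0 => ⊤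
  | n + 1 => LinearMap.range (mu O) ⊔ (SS n).map (LinearMap.mulLeft k X)

theorem mem_SS_succ {n : ℕ} {r : E0 k} :
    r ∈ SS O (n + 1) ↔ ∃ a, ∃ s ∈ SS O n, r = mu O a + X * s := by
  simp only [SS, Submodule.mem_sup, LinearMap.mem_range, Submodule.mem_map,
    LinearMap.mulLeft_apply]
  constructor
  · rintro ⟨_, ⟨a, rfl⟩, _, ⟨s, hs, rfl⟩, rfl⟩
    exact ⟨a, s, hs, rfl⟩
  · rintro ⟨a, s, hs, rfl⟩
    exact ⟨_, ⟨a, rfl⟩, _, ⟨s, hs, rfl⟩, rfl⟩

theorem SS_mono (n : ℕ) : SS O (n + 1) ≤ SS O n := by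
  induction n with
  | zero => exact le_top
  | succ n ih => exact sup_le_sup_left (Submodule.map_mono ih) _

theorem mu_mem (n : ℕ) (a : A0 k) : mu O a ∈ SS O n :=
  SS_mono O n ((mem_SS_succ O).2 ⟨a, 0, zero_mem _, by simp⟩)

theorem X_mul_mem {n : ℕ} {s : E0 k} (hs : s ∈ SS O n) : X * s ∈ SS O (n + 1) :=
  (mem_SS_succ O).2 ⟨0, s, hs, by simp⟩

theorem X_pow_mem (n : ℕ) (c : E0 k) : X ^ n * c ∈ SS O n := by
  induction n with
  | zero => trivial
  | succ n ih => rw [pow_succ', mul_assoc]; exact X_mul_mem O ih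

theorem LW_mem (n : ℕ) (w : FreeMonoid ℕ) : LW k (w, 1) ∈ SS O n := by
  simpa [mu_single] using mu_mem O n (MonoidAlgebra.single (w, 1) 1)

theorem lift_mem (n : ℕ) (v : FreeMonoid Bool) : FreeMonoid.lift O v ∈ SS O n := by
  have := mu_mem O n (MonoidAlgebra.single (1, v) 1)
  rwa [mu_single, Prod.mk_one_one, map_one, one_mul] at this

theorem one_mem_SS (n : ℕ) : (1 : E0 k) ∈ SS O n := by simpa using lift_mem O n 1

theorem O_mem (n : ℕ) (z : Bool) : O z ∈ SS O n := by
  simpa using lift_mem O n (FreeMonoid.of z)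

theorem mul_mem_of_basis {S : Submodule k (E0 k)} (c : E0 k)
    (h : ∀ m : Mo, c * mu O (MonoidAlgebra.single m 1) ∈ S) (a : A0 k) : c * mu O a ∈ S := by
  induction a using MonoidAlgebra.induction_on with
  | of m => exact h m
  | add a b ha hb => rw [map_add, mul_add]; exact add_mem ha hb
  | smul r a ha => rw [map_smul, mul_smul_comm]; exact S.smul_mem r ha

theorem SS_step {n : ℕ} (hmul : ∀ a ∈ SS O n, ∀ b ∈ SS O n, a * b ∈ SS O n)
    (hO : ∀ z i, ∃ d ∈ SS O n,
      O z * LW k (FreeMonoid.of i, 1) = LW k (FreeMonoid.of i, 1) * O z + X * d) :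
    ∀ a ∈ SS O (n + 1), ∀ b ∈ SS O (n + 1), a * b ∈ SS O (n + 1) := by
  have h1 : ∀ z w, ∃ d ∈ SS O n, O z * LW k (w, 1) = LW k (w, 1) * O z + X * d := by
    intro z w
    induction w using FreeMonoid.inductionOn' with
    | one => exact ⟨0, zero_mem _, by rw [Prod.mk_one_one, map_one]; simp⟩
    | of_mul i w ih =>
      obtain ⟨d, hd, e⟩ := ih
      obtain ⟨d', hd', e'⟩ := hO z i
      refine ⟨LW k (FreeMonoid.of i, 1) * d + d' * LW k (w, 1),
        add_mem (hmul _ (LW_mem O n _) _ hd) (hmul _ hd' _ (LW_mem O n _)), ?_⟩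
      have h2 : LW k (FreeMonoid.of i * w, 1) = LW k (FreeMonoid.of i, 1) * LW k (w, 1) := by
        rw [← map_mul]
        simp
      rw [h2, ← mul_assoc, e', add_mul, mul_assoc, e, mul_add, mul_add,
        ← mul_assoc _ X d, (commute_X (LW k (FreeMonoid.of i, 1))).eq]
      simp only [mul_assoc, add_assoc]
  have h2 : ∀ c ∈ SS O n, (∀ m : Mo, c * mu O (MonoidAlgebra.single m 1) ∈ SS O (n + 1)) →
      ∀ b ∈ SS O (n + 1), c * b ∈ SS O (n + 1) := by
    intro c hc h b hb
    obtain ⟨a, s, hs, rfl⟩ := (mem_SS_succ O).1 hb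
    rw [mul_add, ← mul_assoc, (commute_X c).eq, mul_assoc]
    exact add_mem (mul_mem_of_basis O c h a) (X_mul_mem O (hmul _ hc _ hs))
  have h3 : ∀ z, ∀ b ∈ SS O (n + 1), O z * b ∈ SS O (n + 1) := by
    intro z
    refine h2 _ (O_mem O n z) fun m => ?_
    obtain ⟨d, hd, e⟩ := h1 z m.1
    rw [mu_single, ← mul_assoc, e, add_mul, mul_assoc, mul_assoc]
    refine add_mem ?_ (X_mul_mem O (hmul _ hd _ (lift_mem O n _)))
    have := mu_mem O (n + 1) (MonoidAlgebra.single (m.1, FreeMonoid.of z * m.2) 1)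
    simpa [mu_single] using this
  have h4 : ∀ w, ∀ b ∈ SS O (n + 1), LW k (w, 1) * b ∈ SS O (n + 1) := by
    intro w
    refine h2 _ (LW_mem O n w) fun m => ?_
    have := mu_mem O (n + 1) (MonoidAlgebra.single (w * m.1, m.2) 1)
    rw [mu_single] at this ⊢
    rw [← mul_assoc, ← map_mul]
    simpa using this
  have h5 : ∀ v : FreeMonoid Bool, ∀ b ∈ SS O (n + 1),
      FreeMonoid.lift O v * b ∈ SS O (n + 1) := by
    intro v
    induction v using FreeMonoid.inductionOn' with
    | one => intro b hb; simpa using hb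
    | of_mul z v ih =>
      intro b hb
      rw [map_mul, FreeMonoid.lift_eval_of, mul_assoc]
      exact h3 z _ (ih b hb)
  intro a ha b hb
  obtain ⟨a, s, hs, rfl⟩ := (mem_SS_succ O).1 ha
  rw [add_mul, mul_assoc]
  refine add_mem ?_ (X_mul_mem O (hmul _ hs _ (SS_mono O n hb)))
  induction a using MonoidAlgebra.induction_on with
  | of m =>
    have := mu_single O m
    rw [MonoidAlgebra.of_apply, mu_single, mul_assoc]
    exact h4 _ _ (h5 _ _ hb)
  | add a a' h h' =>
    rw [map_add, add_mul]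
    exact add_mem (h (add_mem (mu_mem O _ _) (X_mul_mem O hs)))
      (h' (add_mem (mu_mem O _ _) (X_mul_mem O hs)))
  | smul r a h =>
    rw [map_smul, smul_mul_assoc]
    exact Submodule.smul_mem _ r (h (add_mem (mu_mem O _ _) (X_mul_mem O hs)))

theorem const_mu (hO : ∀ z, constantCoeff (O z) = constantCoeff (LW k (1, FreeMonoid.of z)))
    (a : A0 k) : constantCoeff (mu O a) = Algebra.lmul k (A0 k) a := by
  have h1 : ∀ v : FreeMonoid Bool,
      constantCoeff (FreeMonoid.lift O v) = constantCoeff (LW k (1, v)) := by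
    intro v
    induction v using FreeMonoid.inductionOn' with
    | one => rw [Prod.mk_one_one, map_one (LW k), map_one (FreeMonoid.lift O)]
    | of_mul z v ih =>
      rw [map_mul, map_mul, FreeMonoid.lift_eval_of, hO, ih, ← map_mul, ← map_mul]
      simp
  induction a using MonoidAlgebra.induction_on with
  | of m =>
    rw [MonoidAlgebra.of_apply, mu_single, map_mul, h1, ← map_mul, ← map_mul, LW_apply]
    simp
  | add a b ha hb => rw [map_add, map_add, map_add, ha, hb]
  | smul r a ha =>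
    rw [map_smul (mu O), map_smul (Algebra.lmul k (A0 k)), ← ha, ← coeff_zero_eq_constantCoeff_apply,
      ← coeff_zero_eq_constantCoeff_apply]
    rfl

theorem lead (hO : ∀ z, constantCoeff (O z) = constantCoeff (LW k (1, FreeMonoid.of z)))
    (n : ℕ) (r : E0 k) (hr : X ^ n * r ∈ SS O (n + 1)) :
    ∃ a, constantCoeff r = Algebra.lmul k (A0 k) a := by
  induction n with
  | zero =>
    obtain ⟨a, s, -, e⟩ := (mem_SS_succ O).1 hr
    refine ⟨a, ?_⟩
    rw [pow_zero, one_mul] at e
    rw [e, map_add, const_mu O hO]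
    simp
  | succ n ih =>
    obtain ⟨a, s, hs, e⟩ := (mem_SS_succ O).1 hr
    have h1 := congrArg constantCoeff e
    rw [map_add, const_mu O hO] at h1
    have h2 : a = 0 := by
      apply Algebra.lmul_injective (R := k)
      simpa using h1.symm
    rw [h2, map_zero, zero_add, pow_succ', mul_assoc] at e
    exact ih (X_mul_cancel e ▸ hs)

theorem no_zero_div (hO : ∀ z, constantCoeff (O z) = constantCoeff (LW k (1, FreeMonoid.of z)))
    (r r' : E0 k) (hr : ∀ n, r ∈ SS O n) (hr' : ∀ n, r' ∈ SS O n) (h : r * r' = 0) :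
    r = 0 ∨ r' = 0 := by
  have key : ∀ s : E0 k, s ≠ 0 → (∀ n, s ∈ SS O n) →
      ∃ n s1 a, a ≠ 0 ∧ s = X ^ n * s1 ∧ constantCoeff s1 = Algebra.lmul k (A0 k) a := by
    intro s hs hS
    classical
    have hex : ∃ n, coeff n s ≠ 0 := by
      by_contra hc
      push Not at hc
      exact hs (PowerSeries.ext fun n => by simpa using hc n)
    obtain ⟨s1, e⟩ := (X_pow_dvd_iff (n := Nat.find hex) (φ := s)).2
      fun m hm => by simpa using Nat.find_min hex hm
    obtain ⟨a, ha⟩ := lead O hO (Nat.find hex) s1 (e ▸ hS _)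
    refine ⟨_, s1, a, ?_, e, ha⟩
    rintro rfl
    apply Nat.find_spec hex
    have := coeff_X_pow_mul s1 (Nat.find hex) 0
    rw [zero_add, ← e] at this
    rw [this, coeff_zero_eq_constantCoeff_apply, ha, map_zero]
  by_contra hc
  push Not at hc
  obtain ⟨n, s, a, ha, e, hs⟩ := key r hc.1 hr
  obtain ⟨n', s', a', ha', e', hs'⟩ := key r' hc.2 hr'
  rw [e, e', mul_assoc, ← mul_assoc s, (commute_X_pow s n').eq, mul_assoc] at h
  have h1 : s * s' = 0 := by
    apply X_pow_mul_cancel (k := n')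
    apply X_pow_mul_cancel (k := n)
    simpa using h
  have h2 := congrArg constantCoeff h1
  rw [map_mul, hs, hs', ← map_mul, map_zero] at h2
  have h3 : a * a' = 0 := by
    apply Algebra.lmul_injective (R := k)
    simpa using h2
  exact (mul_ne_zero ha ha') h3

end Filtration

section Main

variable (p : ℕ → FreeAlgebra k (Fin 4)) (B : E0 k)
  (hB : B = Op true fun i => X * (ev B (p i) ^ (i + 1) * geom (ev B (p i))))

/-- The two deformed letters. -/
noncomputable def OO (B : E0 k) : Bool → E0 k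
  | false => YY k
  | true => B

theorem ev_mem {n : ℕ} (hmul : ∀ a ∈ SS (OO B) n, ∀ b ∈ SS (OO B) n, a * b ∈ SS (OO B) n)
    (f : FreeAlgebra k (Fin 4)) : ev B f ∈ SS (OO B) n := by
  induction f using FreeAlgebra.induction with
  | grade0 r =>
    rw [AlgHom.commutes, Algebra.algebraMap_eq_smul_one]
    exact Submodule.smul_mem _ _ (one_mem_SS _ n)
  | grade1 i =>
    simp only [ev, FreeAlgebra.lift_ι_apply]
    fin_cases i
    · exact LW_mem _ n _
    · exact O_mem (OO B) n false
    · exact O_mem (OO B) n true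
    · have := SS_mono _ n (X_mul_mem _ (one_mem_SS (OO B) n))
      simpa using this
  | mul a b ha hb => rw [map_mul]; exact hmul _ ha _ hb
  | add a b ha hb => rw [map_add]; exact add_mem ha hb

include hB in
theorem SS_mul (n : ℕ) : ∀ a ∈ SS (OO B) n, ∀ b ∈ SS (OO B) n, a * b ∈ SS (OO B) n := by
  induction n with
  | zero => intro _ _ _ _; trivial
  | succ n ih =>
    apply SS_step _ ih
    intro z i
    cases z with
    | false => exact ⟨_, LW_mem _ n _, Op_comm _ _ i⟩
    | true =>
      refine ⟨ev B (p i) ^ (i + 1) * geom (ev B (p i)), ?_, ?_⟩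
      · apply ih
        · rw [← map_pow]
          exact ev_mem B ih _
        · have hX : ev B (FreeAlgebra.ι k 3) = X := by simp [ev]
          rw [geom_eq _ n]
          apply add_mem
          · rw [← hX]
            simp only [← map_mul, ← map_pow, ← map_sum]
            exact ev_mem B ih _
          · rw [(commute_X (ev B (p i))).symm.mul_pow, mul_assoc]
            exact X_pow_mem _ n _
      · have := Op_comm true (fun i => X * (ev B (p i) ^ (i + 1) * geom (ev B (p i)))) i
        rw [← hB] at this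
        exact this

include hB in
theorem OO_const (z : Bool) :
    constantCoeff (OO B z) = constantCoeff (LW k (1, FreeMonoid.of z)) := by
  cases z with
  | false => exact Op_const _ _
  | true =>
    have := Op_const true (fun i => ev B (p i) ^ (i + 1) * geom (ev B (p i)))
    rw [← hB] at this
    exact this

include hB in
theorem geom_mem (i : ℕ) : geom (ev B (p i)) ∈ (ev B).range := by
  have hX : (X : E0 k) ∈ (ev B).range := ⟨FreeAlgebra.ι k 3, by simp [ev]⟩
  have hY : YY k ∈ (ev B).range := ⟨FreeAlgebra.ι k 1, by simp [ev]⟩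
  have hB' : B ∈ (ev B).range := ⟨FreeAlgebra.ι k 2, by simp [ev]⟩
  have h1 : ∀ j, X ^ j * LW k (FreeMonoid.of j, 1) ∈ (ev B).range := by
    intro j
    induction j with
    | zero => exact ⟨FreeAlgebra.ι k 0, by simp [ev]⟩
    | succ j ih =>
      have h2 : YY k * LW k (FreeMonoid.of j, 1) = LW k (FreeMonoid.of j, 1) * YY k +
        X * LW k (FreeMonoid.of (j + 1), 1) := Op_comm _ _ j
      have h3 : X ^ (j + 1) * LW k (FreeMonoid.of (j + 1), 1) =
          YY k * (X ^ j * LW k (FreeMonoid.of j, 1)) -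
            X ^ j * LW k (FreeMonoid.of j, 1) * YY k := by
        rw [← mul_assoc, (commute_X_pow (YY k) j).eq, mul_assoc, h2, pow_succ]
        noncomm_ring
      rw [h3]
      exact sub_mem (mul_mem hY ih) (mul_mem ih hY)
  have h4 := Op_comm true (fun i => X * (ev B (p i) ^ (i + 1) * geom (ev B (p i)))) i
  rw [← hB] at h4
  have h5 : (X * ev B (p i)) ^ (i + 1) * geom (ev B (p i)) =
      B * (X ^ i * LW k (FreeMonoid.of i, 1)) - X ^ i * LW k (FreeMonoid.of i, 1) * B := by
    rw [← mul_assoc, (commute_X_pow B i).eq, mul_assoc, h4,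
      (commute_X (ev B (p i))).symm.mul_pow, pow_succ X]
    noncomm_ring
  rw [geom_eq _ (i + 1), h5]
  exact add_mem (sum_mem fun j _ => pow_mem (mul_mem hX ⟨p i, rfl⟩) j)
    (sub_mem (mul_mem hB' (h1 i)) (mul_mem (h1 i) hB'))

end Main

theorem main [Countable k] : ∃ B : E0 k, NoZeroDivisors (ev B).range ∧
    ∀ y ∈ (ev B).range, geom y ∈ (ev B).range := by
  have hc : Countable (FreeAlgebra k (Fin 4)) :=
    (FreeAlgebra.basisFreeMonoid k (Fin 4)).repr.toEquiv.countable_iff.2 inferInstance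
  obtain ⟨p, hp⟩ := exists_surjective_nat (FreeAlgebra k (Fin 4))
  obtain ⟨B, hB⟩ := exists_B p
  refine ⟨B, ⟨?_⟩, ?_⟩
  · rintro ⟨_, a, rfl⟩ ⟨_, b, rfl⟩ h
    have h1 : ev B a * ev B b = 0 := congrArg Subtype.val h
    rcases no_zero_div (OO B) (OO_const p B hB) _ _
      (fun n => ev_mem B (SS_mul p B hB n) a) (fun n => ev_mem B (SS_mul p B hB n) b) h1 with
      h2 | h2
    · exact Or.inl (Subtype.ext h2)
    · exact Or.inr (Subtype.ext h2)
  · rintro _ ⟨a, rfl⟩
    obtain ⟨i, rfl⟩ := hp a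
    exact geom_mem p B hB i

end Pool.Agent.H75.JacDomain
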