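import Mathlib
import Pool.Agent.H75.Kokoris1

/-! Generic Poisson brackets on commutative algebras and the key nilpotence lemma. -/

set_option autoImplicit false

namespace Pool.Agent.H75.Kokoris

universe u

/-- A skew biderivation on a commutative algebra. -/
structure GP (F : Type u) (P : Type u) [Field F] [CommRing P] [Algebra F P] where
  br : P →ₗ[F] P →ₗ[F] P
  skew : ∀ x, br x x = 0
  leib : ∀ x y z, br (x * y) z = x * br y z + y * br x z

namespace GP
variable {F P : Type u} [Field F] [CommRing P] [Algebra F P] (G : GP F P)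

theorem anti (x y : P) : G.br x y = -G.br y x := by
  have := G.skew (x + y)
  simp only [map_add, LinearMap.add_apply, G.skew] at this
  linear_combination this

theorem leib' (x y z : P) : G.br z (x * y) = x * G.br z y + y * G.br z x := by
  rw [G.anti, G.leib, G.anti y, G.anti x]; ring

theorem one_br (z : P) : G.br 1 z = 0 := by
  have := G.leib 1 1 z
  simp only [one_mul] at this
  linear_combination -this

theorem alg_br (r : F) (z : P) : G.br (algebraMap F P r) z = 0 := by
  rw [Algebra.algebraMap_eq_smul_one, map_smul, LinearMap.smul_apply, G.one_br, smul_zero]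

theorem pow_br (x z : P) (k : ℕ) : G.br (x ^ (k + 1)) z = (k + 1 : ℕ) * x ^ k * G.br x z := by
  induction k with
  | zero => simp
  | succ k ih => rw [pow_succ, G.leib, ih]; push_cast; ring

theorem pow_mem (J K : Ideal P) (z : P) (h : ∀ x, G.br x z ∈ K) (a : ℕ) :
    ∀ x ∈ J ^ (a + 1), G.br x z ∈ J ^ a * K := by
  induction a with
  | zero => intro x _; simpa using h x
  | succ a ih =>
    intro x hx
    rw [pow_succ] at hx
    refine Submodule.mul_induction_on hx (fun m hm n hn => ?_) (fun x y hx hy => ?_)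
    · rw [G.leib]
      refine add_mem (Ideal.mul_mem_mul hm (h n)) ?_
      have := Ideal.mul_mem_mul hn (ih m hm)
      rwa [← mul_assoc, ← pow_succ'] at this
    · rw [map_add, LinearMap.add_apply]; exact add_mem hx hy

theorem pow_mem1 (J : Ideal P) (a : ℕ) (x : P) (hx : x ∈ J ^ (a + 1)) (z : P) :
    G.br x z ∈ J ^ a := by
  simpa using G.pow_mem J ⊤ z (fun _ => Submodule.mem_top) a x hx

theorem pow_mem2 (J : Ideal P) (a b : ℕ) (x z : P) (hx : x ∈ J ^ (a + 1)) (hz : z ∈ J ^ (b + 1)) :
    G.br x z ∈ J ^ (a + b) := by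
  rw [pow_add]
  exact G.pow_mem J (J ^ b) z (fun x => by
    rw [G.anti]; exact neg_mem (G.pow_mem1 J b z hz x)) a x hx

end GP

section Core
variable {F : Type u} [Field F] {Ids : Set (FreeNonUnitalNonAssocAlgebra F ℕ)}
variable {P : Type u} [CommRing P] [Algebra F P]
variable {C : Type u} [NonUnitalNonAssocRing C] [Module F C] [IsScalarTower F C C]
  [SMulCommClass F C C]

theorem core (h2 : (2 : F) ≠ 0) (hV : LocAdm Ids) (hC : InVar Ids C) (G : GP F P)
    (j : C →ₗ[F] P) (hj : ∀ a b, j (a * b) = j a * j b + G.br (j a) (j b))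
    (J : Ideal P) (x y : C) (hx : j x ∈ J) (hy : j y ∈ J) :
    ∃ m, G.br (j x) (j y) ^ m ∈ J := by
  have h32 : J ^ 3 ≤ J ^ 2 := Ideal.pow_le_pow_right (by norm_num)
  have h43 : J ^ 4 ≤ J ^ 3 := Ideal.pow_le_pow_right (by norm_num)
  have hmul : ∀ (a b : ℕ) (v w : P), v ∈ J ^ a → w ∈ J ^ b → v * w ∈ J ^ (a + b) := by
    intro a b v w hv hw
    rw [pow_add]; exact Ideal.mul_mem_mul hv hw
  let S : NonUnitalSubalgebra F C :=
    { carrier := {c | j c ∈ J ^ 2}
      zero_mem' := by simp
      add_mem' := fun {a b} ha hb => by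
        simp only [Set.mem_ofPred_eq, map_add] at *; exact add_mem ha hb
      smul_mem' := fun r a ha => by
        simp only [Set.mem_ofPred_eq, map_smul, Algebra.smul_def] at *
        exact Ideal.mul_mem_left _ _ ha
      mul_mem' := fun {a b} ha hb => by
        simp only [Set.mem_ofPred_eq, hj] at *
        exact add_mem (Ideal.mul_mem_left _ _ hb) (G.pow_mem2 J 1 1 _ _ ha hb) }
  let T : Submodule F S :=
    { carrier := {c | j c ∈ J ^ 3}
      zero_mem' := by simp
      add_mem' := fun {a b} ha hb => by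
        change j (a + b) ∈ J ^ 3
        rw [map_add]; exact add_mem ha hb
      smul_mem' := fun r a ha => by
        change j (r • a) ∈ J ^ 3
        rw [map_smul, Algebra.smul_def]
        exact Ideal.mul_mem_left _ _ ha }
  have hT : ∀ a ∈ T, ∀ b : S, a * b ∈ T ∧ b * a ∈ T := by
    intro a ha b
    constructor
    · change j (a * b) ∈ J ^ 3
      rw [hj]
      exact add_mem (Ideal.mul_mem_right _ _ ha) (G.pow_mem2 J 2 1 _ _ ha b.2)
    · change j (b * a) ∈ J ^ 3
      rw [hj]
      exact add_mem (Ideal.mul_mem_left _ _ ha) (G.pow_mem2 J 1 2 _ _ b.2 ha)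
  have hc : ∀ a b : S, a * b + b * a ∈ T := by
    intro a b
    change j (a * b + b * a) ∈ J ^ 3
    rw [map_add, hj, hj, G.anti (j b)]
    have : j a * j b + G.br (j a) (j b) + (j b * j a + -G.br (j a) (j b)) = 2 * (j a * j b) := by
      ring
    rw [this]
    exact Ideal.mul_mem_left _ _ (h43 (hmul 2 2 _ _ a.2 b.2))
  have hX : j (x * x) = j x * j x := by rw [hj, G.skew, add_zero]
  have hY : j ((2 : F)⁻¹ • (x * y + y * x)) = j x * j y := by
    rw [map_smul, map_add, hj, hj, G.anti (j y)]
    have : j x * j y + G.br (j x) (j y) + (j y * j x + -G.br (j x) (j y)) =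
        (2 : F) • (j x * j y) := by
      rw [two_smul]; ring
    rw [this, smul_smul, inv_mul_cancel₀ h2, one_smul]
  have hxx : j x * j x ∈ J ^ 2 := by rw [pow_two]; exact Ideal.mul_mem_mul hx hx
  have hxy : j x * j y ∈ J ^ 2 := by rw [pow_two]; exact Ideal.mul_mem_mul hx hy
  let X : S := ⟨x * x, by change j _ ∈ J ^ 2; rwa [hX]⟩
  let Y : S := ⟨(2 : F)⁻¹ • (x * y + y * x), by change j _ ∈ J ^ 2; rwa [hY]⟩
  obtain ⟨k, hk⟩ := hV.iter (hC.sub S) T hT hc X Y
  set u := G.br (j x) (j y) with hu
  have key : ∀ k, j ((fun z => z * Y)^[k] X : S) - j x * j x * (2 * u) ^ k ∈ J ^ 3 := by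
    intro k
    induction k with
    | zero => simp [X, hX]
    | succ k ih =>
      rw [Function.iterate_succ_apply']
      set c : S := (fun z => z * Y)^[k] X
      have e1 : j ((c * Y : S) : C) = j c * (j x * j y) + G.br (j c) (j x * j y) := by
        rw [← hY, ← hj]; rfl
      have e2 : G.br (j c) (j x * j y) =
          G.br (j c - j x * j x * (2 * u) ^ k) (j x * j y) +
            j x * j x * G.br ((2 * u) ^ k) (j x * j y) + j x * j x * (2 * u) ^ (k + 1) := by
        rw [map_sub, LinearMap.sub_apply, G.leib, G.leib, G.leib' (j x) (j y) (j x), G.skew, ← hu]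
        ring
      rw [e1, e2]
      have : j c * (j x * j y) + (G.br (j c - j x * j x * (2 * u) ^ k) (j x * j y) +
            j x * j x * G.br ((2 * u) ^ k) (j x * j y) + j x * j x * (2 * u) ^ (k + 1)) -
            j x * j x * (2 * u) ^ (k + 1) = j c * (j x * j y) +
            G.br (j c - j x * j x * (2 * u) ^ k) (j x * j y) +
            j x * j x * G.br ((2 * u) ^ k) (j x * j y) := by ring
      rw [this]
      refine add_mem (add_mem (h43 (hmul 2 2 _ _ c.2 hxy)) (G.pow_mem2 J 2 1 _ _ ih hxy)) ?_
      refine hmul 2 1 _ _ hxx ?_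
      rw [G.anti]
      exact neg_mem (G.pow_mem1 J 1 _ hxy _)
  have h3 : j x * j x * (2 * u) ^ k ∈ J ^ 3 := by
    have := sub_mem (show j _ ∈ J ^ 3 from hk) (key k)
    simpa using this
  have h1 := G.pow_mem1 J 1 _ (G.pow_mem1 J 2 _ h3 (j y)) (j y)
  rw [pow_one] at h1
  set v := (2 * u) ^ k with hv
  have e : G.br (G.br (j x * j x * v) (j y)) (j y) =
      j x * (j x * G.br (G.br v (j y)) (j y) + 2 * G.br v (j y) * u +
        2 * G.br (v * u) (j y)) + 2 * v * u * u := by
    have e1 : G.br (j x * j x * v) (j y) = j x * j x * G.br v (j y) + (j x * (v * u) + j x * (v * u)) := by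
      rw [G.leib, G.leib, ← hu]; ring
    rw [e1]
    simp only [map_add, LinearMap.add_apply]
    rw [G.leib (j x * j x), G.leib (j x) (j x), G.leib (j x) (v * u), ← hu]
    ring
  rw [e] at h1
  have h4 : 2 * v * u * u ∈ J := by
    have := sub_mem h1 (Ideal.mul_mem_right (j x * G.br (G.br v (j y)) (j y) +
      2 * G.br v (j y) * u + 2 * G.br (v * u) (j y)) _ hx)
    simpa using this
  refine ⟨k + 2, ?_⟩
  have h5 : u ^ (k + 2) = algebraMap F P ((2 : F)⁻¹ ^ (k + 1)) * (2 * v * u * u) := by
    have : algebraMap F P (2 : F)⁻¹ * 2 = 1 := by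
      rw [← map_ofNat (algebraMap F P) 2, ← map_mul, inv_mul_cancel₀ h2, map_one]
    rw [map_pow, hv]
    calc u ^ (k + 2) = (algebraMap F P (2 : F)⁻¹ * 2) ^ (k + 1) * u ^ (k + 2) := by
          rw [this, one_pow, one_mul]
      _ = _ := by ring
  rw [h5]
  exact Ideal.mul_mem_left _ _ h4

/-- A polynomial vanishing on an infinite set with regular differences. -/
theorem poly_vanish (M : Ideal P) : ∀ (n : ℕ) (q : Polynomial P) (L : Set P), q.natDegree ≤ n →
    L.Infinite → (∀ a ∈ L, ∀ b ∈ L, a ≠ b → ∀ c ∈ M, (a - b) * c = 0 → c = 0) →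
    (∀ a ∈ L, ∀ c ∈ M, c * q.eval a = 0) → ∀ r, ∀ c ∈ M, c * q.eval r = 0 := by
  intro n
  induction n with
  | zero =>
    intro q L hq hL _ h r c hc
    obtain ⟨a, ha⟩ := hL.nonempty
    have := h a ha c hc
    rw [Polynomial.eq_C_of_natDegree_le_zero hq] at this ⊢
    simpa using this
  | succ n ih =>
    intro q L hq hL hreg h r c hc
    obtain ⟨a, ha⟩ := hL.nonempty
    have hdiv : ∀ t, q.eval t = q.eval a + (t - a) * (q /ₘ (Polynomial.X - Polynomial.C a)).eval t := by
      intro t
      have := congrArg (Polynomial.eval t)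
        (Polynomial.modByMonic_add_div q (Polynomial.X - Polynomial.C a))
      rw [Polynomial.modByMonic_X_sub_C_eq_C_eval] at this
      simpa using this.symm
    have hdeg : (q /ₘ (Polynomial.X - Polynomial.C a)).natDegree ≤ n := by
      rcases subsingleton_or_nontrivial P with hP | hP
      · rw [Subsingleton.elim (q /ₘ (Polynomial.X - Polynomial.C a)) 0]; simp
      rw [Polynomial.natDegree_divByMonic _ (Polynomial.monic_X_sub_C a),
        Polynomial.natDegree_X_sub_C]
      omega
    have := ih _ (L \ {a}) hdeg (hL.sdiff (Set.finite_singleton a))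
      (fun x hx y hy => hreg x hx.1 y hy.1) (fun b hb c hc => by
        refine hreg b hb.1 a ha hb.2 _ (Ideal.mul_mem_right _ _ hc) ?_
        have h1 := h b hb.1 c hc
        have h2 := h a ha c hc
        rw [hdiv b] at h1
        linear_combination h1 - h2) r c hc
    rw [hdiv r]
    linear_combination h a ha c hc + (r - a) * this

theorem mv_vanish (M : Ideal P) (L : Set P) (hL : L.Infinite)
    (hreg : ∀ a ∈ L, ∀ b ∈ L, a ≠ b → ∀ c ∈ M, (a - b) * c = 0 → c = 0)
    (p : MvPolynomial (Fin 2) P)
    (h : ∀ a ∈ L, ∀ b ∈ L, MvPolynomial.aeval ![a, b] p = 0) (r s : P) (c : P) (hc : c ∈ M) :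
    c * MvPolynomial.aeval ![r, s] p = 0 := by
  have e1 : ∀ a b : P, (MvPolynomial.aeval ![Polynomial.C a, Polynomial.X] p : Polynomial P).eval b =
      MvPolynomial.aeval ![a, b] p := by
    intro a b
    have : (Polynomial.aeval b).comp (MvPolynomial.aeval ![Polynomial.C a, Polynomial.X]) =
        MvPolynomial.aeval (R := P) ![a, b] := by
      refine MvPolynomial.algHom_ext fun i => ?_
      fin_cases i <;> simp
    simpa using DFunLike.congr_fun this p
  have e2 : ∀ a b : P, (MvPolynomial.aeval ![Polynomial.X, Polynomial.C b] p : Polynomial P).eval a =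
      MvPolynomial.aeval ![a, b] p := by
    intro a b
    have : (Polynomial.aeval a).comp (MvPolynomial.aeval ![Polynomial.X, Polynomial.C b]) =
        MvPolynomial.aeval (R := P) ![a, b] := by
      refine MvPolynomial.algHom_ext fun i => ?_
      fin_cases i <;> simp
    simpa using DFunLike.congr_fun this p
  rw [← e2]
  refine poly_vanish M _ _ L le_rfl hL hreg (fun a ha c hc => ?_) r c hc
  rw [e2, ← e1]
  refine poly_vanish M _ _ L le_rfl hL hreg (fun b hb c hc => ?_) s c hc
  rw [e1, h a ha b hb, mul_zero]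

end Core

end Pool.Agent.H75.Kokoris
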