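import Mathlib
import Pool.Agent.H75.Kokoris2

/-! Simple Kokoris algebras in locally admissible varieties are fields. -/

set_option autoImplicit false

namespace Pool.Agent.H75.Kokoris

universe u

section Main
variable {F : Type u} [Field F] {Ids : Set (FreeNonUnitalNonAssocAlgebra F ℕ)}
variable {R : Type u} [CommRing R] [Algebra F R]
variable {A : Type u} [NonUnitalNonAssocRing A] [Module F A] [IsScalarTower F A A]
  [SMulCommClass F A A]

/-- `A` sits as an ideal in a commutative algebra with bracket, `a b = a · b + {a, b}`. -/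
structure Emb (G : GP F R) (ι : A →ₗ[F] R) : Prop where
  inj : Function.Injective ι
  mul : ∀ a b, ι (a * b) = ι a * ι b + G.br (ι a) (ι b)
  ideal : ∀ r a, ∃ b, ι b = r * ι a

variable {G : GP F R} {ι : A →ₗ[F] R}

theorem Emb.br_mem (E : Emb G ι) (a b : A) : ∃ c, ι c = G.br (ι a) (ι b) := by
  obtain ⟨c, hc⟩ := E.ideal (ι a) b
  exact ⟨a * b - c, by rw [map_sub, E.mul, hc]; ring⟩

/-- The image of `A` as an ideal. -/
def Emb.im (E : Emb G ι) : Ideal R where
  carrier := Set.range ι
  zero_mem' := ⟨0, map_zero _⟩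
  add_mem' := by rintro _ _ ⟨a, rfl⟩ ⟨b, rfl⟩; exact ⟨a + b, map_add _ _ _⟩
  smul_mem' := by rintro r _ ⟨a, rfl⟩; exact E.ideal r a

theorem Emb.ideal_cases (E : Emb G ι) (hs : IsSimpleAlg F A) (K : Ideal R)
    (hK : ∀ a b, ι a ∈ K → G.br (ι a) (ι b) ∈ K) : (∀ a, ι a ∈ K → a = 0) ∨ ∀ a, ι a ∈ K := by
  have := hs.2 ((K.restrictScalars F).comap ι) (fun a ha b => by
    have ha' : ι a ∈ K := ha
    constructor
    · change ι (a * b) ∈ K
      rw [E.mul]; exact add_mem (Ideal.mul_mem_right _ _ ha') (hK a b ha')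
    · change ι (b * a) ∈ K
      rw [E.mul, G.anti]; exact add_mem (Ideal.mul_mem_left _ _ ha') (neg_mem (hK a b ha')))
  rcases this with h | h
  · left
    intro a ha
    have : a ∈ (K.restrictScalars F).comap ι := ha
    rwa [h] at this
  · right
    intro a
    have : a ∈ (K.restrictScalars F).comap ι := h ▸ Submodule.mem_top
    exact this

theorem Emb.central_case (E : Emb G ι) (h2 : (2 : F) ≠ 0) (hV : LocAdm Ids) (hA : InVar Ids A)
    (L : Set R) (hL : L.Infinite) (hcen : ∀ l ∈ L, ∀ z, G.br l z = 0)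
    (hreg : ∀ a ∈ L, ∀ b ∈ L, a ≠ b → ∀ c ∈ E.im, (a - b) * c = 0 → c = 0) (a b : A) :
    IsNilpotent (G.br (ι a) (ι b)) := by
  classical
  let ev : MvPolynomial (Fin 2) R →ₐ[R] ((Fin 2 → L) → R) :=
    MvPolynomial.aeval fun k i => (i k : R)
  have hev : ∀ p (i : Fin 2 → L), ev p i = MvPolynomial.aeval (fun k => (i k : R)) p := by
    intro p i
    have : (Pi.evalAlgHom R (fun _ : Fin 2 → L => R) i).comp ev =
        MvPolynomial.aeval (fun k => (i k : R)) := by
      refine MvPolynomial.algHom_ext fun k => ?_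
      simp [ev]
    exact DFunLike.congr_fun this p
  have hcl : ∀ f ∈ ev.range, ∀ g ∈ ev.range, (fun i => G.br (f i) (g i)) ∈ ev.range := by
    rintro _ ⟨p, rfl⟩ _ ⟨q, rfl⟩
    change (fun i => G.br (ev p i) (ev q i)) ∈ ev.range
    induction p using MvPolynomial.induction_on with
    | C r =>
      induction q using MvPolynomial.induction_on with
      | C r' => exact ⟨MvPolynomial.C (G.br r r'), by funext i; simp [ev]⟩
      | add q q' h h' =>
        have := add_mem h h'
        convert this using 1
        funext i; simp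
      | mul_X q k h =>
        have := mul_mem h (show ev (MvPolynomial.X k) ∈ ev.range from ⟨_, rfl⟩)
        convert this using 1
        funext i
        have e : ev (MvPolynomial.X k) i = i k := by simp [ev]
        simp only [map_mul, Pi.mul_apply, e]
        rw [G.leib', G.anti _ (i k : R), hcen _ (i k).2]; ring
    | add p p' h h' =>
      have := add_mem h h'
      convert this using 1
      funext i; simp
    | mul_X p k h =>
      have := mul_mem h (show ev (MvPolynomial.X k) ∈ ev.range from ⟨_, rfl⟩)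
      convert this using 1
      funext i
      have e : ev (MvPolynomial.X k) i = i k := by simp [ev]
      simp only [map_mul, Pi.mul_apply, e]
      rw [G.leib, hcen _ (i k).2]; ring
  let G' : GP F ev.range :=
    { br := LinearMap.mk₂ F (fun f g => ⟨fun i => G.br (f.1 i) (g.1 i), hcl _ f.2 _ g.2⟩)
        (fun f f' g => Subtype.ext (funext fun i => by simp))
        (fun r f g => Subtype.ext (funext fun i => by simp))
        (fun f g g' => Subtype.ext (funext fun i => by simp))
        (fun r f g => Subtype.ext (funext fun i => by simp))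
      skew := fun f => Subtype.ext (funext fun i => G.skew _)
      leib := fun f g h => Subtype.ext (funext fun i => G.leib _ _ _) }
  let C : NonUnitalSubalgebra F ((Fin 2 → L) → A) :=
    { carrier := {f | (fun i => ι (f i)) ∈ ev.range}
      zero_mem' := by
        change (fun i => ι 0) ∈ ev.range
        simp only [map_zero]; exact zero_mem _
      add_mem' := fun {f g} hf hg => by
        have := add_mem (show (fun i => ι (f i)) ∈ ev.range from hf)
          (show (fun i => ι (g i)) ∈ ev.range from hg)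
        change (fun i => ι (f i + g i)) ∈ ev.range
        simp only [map_add]; exact this
      smul_mem' := fun r f hf => by
        have := ev.range.smul_mem (show (fun i => ι (f i)) ∈ ev.range from hf) (algebraMap F R r)
        change (fun i => ι (r • f i)) ∈ ev.range
        convert this using 1
        funext i; simp [Algebra.smul_def]
      mul_mem' := fun {f g} hf hg => by
        have := add_mem (mul_mem (show (fun i => ι (f i)) ∈ ev.range from hf)
          (show (fun i => ι (g i)) ∈ ev.range from hg)) (hcl _ hf _ hg)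
        change (fun i => ι (f i * g i)) ∈ ev.range
        simp only [E.mul]; exact this }
  let j : C →ₗ[F] ev.range :=
    { toFun := fun f => ⟨fun i => ι (f.1 i), f.2⟩
      map_add' := fun f g => Subtype.ext (funext fun i => map_add ι _ _)
      map_smul' := fun r f => Subtype.ext (funext fun i => map_smul ι _ _) }
  have hj : ∀ f g, j (f * g) = j f * j g + G'.br (j f) (j g) :=
    fun f g => Subtype.ext (funext fun i => E.mul _ _)
  obtain ⟨c, hc⟩ := E.br_mem a b
  choose x hx using fun i : Fin 2 → L => E.ideal (ι a - i 0) c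
  choose y hy using fun i : Fin 2 → L => E.ideal (ι b - i 1) c
  have hxe : (fun i => ι (x i)) =
      ev ((MvPolynomial.C (ι a) - MvPolynomial.X 0) * MvPolynomial.C (ι c)) := by
    funext i; simp [ev, hx]
  have hye : (fun i => ι (y i)) =
      ev ((MvPolynomial.C (ι b) - MvPolynomial.X 1) * MvPolynomial.C (ι c)) := by
    funext i; simp [ev, hy]
  let X : C := ⟨x, by change (fun i => ι (x i)) ∈ ev.range; rw [hxe]; exact ⟨_, rfl⟩⟩
  let Y : C := ⟨y, by change (fun i => ι (y i)) ∈ ev.range; rw [hye]; exact ⟨_, rfl⟩⟩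
  let J : Ideal ev.range :=
    (RingHom.ker (MvPolynomial.aeval (R := R) ![ι a, ι b])).map ev.rangeRestrict
  have hXJ : j X ∈ J := by
    have : j X = ev.rangeRestrict
      ((MvPolynomial.C (ι a) - MvPolynomial.X 0) * MvPolynomial.C (ι c)) := Subtype.ext hxe
    rw [this]
    exact Ideal.mem_map_of_mem _ (by simp [RingHom.mem_ker])
  have hYJ : j Y ∈ J := by
    have : j Y = ev.rangeRestrict
      ((MvPolynomial.C (ι b) - MvPolynomial.X 1) * MvPolynomial.C (ι c)) := Subtype.ext hye
    rw [this]
    exact Ideal.mem_map_of_mem _ (by simp [RingHom.mem_ker])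
  obtain ⟨m, hm⟩ := core h2 hV ((hA.pi _).sub C) G' j hj J X Y hXJ hYJ
  obtain ⟨p, hp, hpe⟩ := (Ideal.mem_map_iff_of_surjective _ ev.rangeRestrict_surjective).1 hm
  rw [RingHom.mem_ker] at hp
  let U : MvPolynomial (Fin 2) R := MvPolynomial.C (ι c ^ 3) +
    (MvPolynomial.C (ι b) - MvPolynomial.X 1) * MvPolynomial.C (ι c * G.br (ι a) (ι c)) +
    (MvPolynomial.C (ι a) - MvPolynomial.X 0) * MvPolynomial.C (ι c * G.br (ι c) (ι b))
  have hvan := mv_vanish E.im L hL hreg (U ^ m - p) (fun l hl l' hl' => by
    have h1 := congrFun (congrArg Subtype.val hpe) ![⟨l, hl⟩, ⟨l', hl'⟩]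
    change ev p _ = G.br (ι (x _)) (ι (y _)) ^ m at h1
    rw [hev, hx, hy] at h1
    have e : (fun k => ((![⟨l, hl⟩, ⟨l', hl'⟩] : Fin 2 → L) k : R)) = ![l, l'] := by
      funext k; fin_cases k <;> rfl
    rw [e] at h1
    rw [map_sub, map_pow, h1, sub_eq_zero]
    congr 1
    simp only [Matrix.cons_val_zero, Matrix.cons_val_one]
    have e3 : ∀ z, G.br z l' = 0 := fun z => by rw [G.anti, hcen _ hl', neg_zero]
    rw [G.leib, G.leib', G.leib']
    simp only [map_sub, LinearMap.sub_apply, hcen _ hl, e3, G.skew, ← hc]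
    simp [U]
    ring) (ι a) (ι b) (ι c) ⟨c, rfl⟩
  rw [map_sub, hp, sub_zero, map_pow] at hvan
  simp [U] at hvan
  rw [← hc]
  exact ⟨3 * m + 1, by rw [pow_succ', pow_mul]; exact hvan⟩

theorem Emb.nil_case (E : Emb G ι) (hAA : ∀ a, ι a ∈ E.im * E.im) (hnil : ∀ a, IsNilpotent (ι a))
    (s : Finset A) : ∃ n : ℕ, ∀ k x, n ≤ k → IsProd (s : Set A) k x → x = 0 := by
  classical
  have hadd : ∀ I J : Ideal R, IsNilpotent I → IsNilpotent J → IsNilpotent (I ⊔ J) :=
    fun I J hI hJ => (Commute.all I J).isNilpotent_add hI hJ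
  have h1 : ∀ a, ∃ I : Ideal R, IsNilpotent I ∧ ι a ∈ I ^ 1 := by
    intro a
    obtain ⟨n, hn⟩ := hnil a
    exact ⟨Ideal.span {ι a}, ⟨n, by rw [Ideal.span_singleton_pow, hn]; simp⟩, by
      rw [pow_one]; exact Ideal.mem_span_singleton_self _⟩
  have step : ∀ k, (∀ a, ∃ I : Ideal R, IsNilpotent I ∧ ι a ∈ I ^ k) →
      ∀ a, ∃ I : Ideal R, IsNilpotent I ∧ ι a ∈ I ^ (k + 1) := by
    intro k hk a
    refine Submodule.mul_induction_on (C := fun r => ∃ I : Ideal R, IsNilpotent I ∧ r ∈ I ^ (k + 1))
      (hAA a) ?_ ?_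
    · rintro _ ⟨b, rfl⟩ _ ⟨c, rfl⟩
      obtain ⟨I, hI, hb⟩ := hk b
      obtain ⟨J, hJ, hc⟩ := h1 c
      refine ⟨I ⊔ J, hadd _ _ hI hJ, ?_⟩
      rw [pow_add]
      exact Ideal.mul_mem_mul (Ideal.pow_right_mono le_sup_left _ hb)
        (Ideal.pow_right_mono le_sup_right _ hc)
    · rintro r r' ⟨I, hI, hb⟩ ⟨J, hJ, hc⟩
      exact ⟨I ⊔ J, hadd _ _ hI hJ, add_mem (Ideal.pow_right_mono le_sup_left _ hb)
        (Ideal.pow_right_mono le_sup_right _ hc)⟩
  have h3 := step 2 (step 1 h1)
  obtain ⟨I, ⟨n, hn⟩, hI⟩ : ∃ I : Ideal R, IsNilpotent I ∧ ∀ a ∈ s, ι a ∈ I ^ 3 := by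
    induction s using Finset.induction_on with
    | empty => exact ⟨0, IsNilpotent.zero, by simp⟩
    | insert a s _ ih =>
      obtain ⟨I, hI, h⟩ := ih
      obtain ⟨J, hJ, h'⟩ := h3 a
      refine ⟨I ⊔ J, hadd _ _ hI hJ, fun b hb => ?_⟩
      rcases Finset.mem_insert.1 hb with rfl | hb
      · exact Ideal.pow_right_mono le_sup_right _ h'
      · exact Ideal.pow_right_mono le_sup_left _ (h b hb)
  have key : ∀ k x, IsProd (s : Set A) k x → ι x ∈ I ^ (k + 2) := by
    intro k x hx
    induction hx with
    | one h => exact hI _ h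
    | @mul i j x y _ _ hx hy =>
      rw [E.mul]
      refine add_mem ?_ ?_
      · have := Ideal.mul_mem_mul hx hy
        rw [← pow_add] at this
        exact Ideal.pow_le_pow_right (by omega) this
      · have := G.pow_mem2 I (i + 1) (j + 1) _ _ hx hy
        exact Ideal.pow_le_pow_right (by omega) this
  refine ⟨n, fun k x hk hx => E.inj ?_⟩
  have := Ideal.pow_le_pow_right (show n ≤ k + 2 by omega) (key k x hx)
  rw [hn] at this
  simpa using this

theorem mem_ann_single {r g : R} : r ∈ (Ideal.span {g}).annihilator ↔ r • g = 0 :=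
  Submodule.mem_annihilator_span_singleton g r

theorem Emb.main (E : Emb G ι) (h2 : (2 : F) ≠ 0) (hV : LocAdm Ids) (hA : InVar Ids A)
    (hs : IsSimpleAlg F A) :
    (∀ a b : A, a * b = b * a) ∧ (∀ a b c : A, a * b * c = a * (b * c)) ∧
      ∃ e : A, e ≠ 0 ∧ (∀ a, e * a = a) ∧ ∀ a : A, a ≠ 0 → ∃ b, a * b = e := by
  classical
  obtain ⟨a0, b0, hab0⟩ := hs.1
  have ha0 : a0 ≠ 0 := by rintro rfl; simp at hab0
  have hιa0 : ι a0 ≠ 0 := fun h => ha0 (E.inj (by rw [h, map_zero]))
  have hAA : ∀ a, ι a ∈ E.im * E.im := by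
    rcases E.ideal_cases hs (E.im * E.im) (fun a b ha => by
      refine Submodule.mul_induction_on (C := fun r => G.br r (ι b) ∈ E.im * E.im) ha ?_ ?_
      · rintro _ ⟨c, rfl⟩ _ ⟨d, rfl⟩
        rw [G.leib]
        exact add_mem (Ideal.mul_mem_mul ⟨c, rfl⟩ (E.br_mem d b))
          (Ideal.mul_mem_mul ⟨d, rfl⟩ (E.br_mem c b))
      · intro r r' h h'
        rw [map_add, LinearMap.add_apply]; exact add_mem h h') with h | h
    · exfalso
      refine not_words hs (hV A hA fun x y => ?_).words
      have h0 : ι x * ι y = 0 := by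
        obtain ⟨c, hc⟩ := E.ideal (ι x) y
        rw [← hc, h c (hc ▸ Ideal.mul_mem_mul ⟨x, rfl⟩ ⟨y, rfl⟩), map_zero]
      apply E.inj
      rw [map_neg, E.mul, E.mul, mul_comm (ι y), h0, G.anti (ι y)]; ring
    · exact h
  have hann : ∀ a, (∀ b, ι a * ι b = 0) → a = 0 := by
    rcases E.ideal_cases hs E.im.annihilator (fun a b ha => by
      rw [Submodule.mem_annihilator] at ha ⊢
      rintro _ ⟨c, rfl⟩
      have h1 := G.leib (ι a) (ι c) (ι b)
      have h2 := ha _ ⟨c, rfl⟩
      have h3 := ha _ (E.br_mem c b)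
      rw [smul_eq_mul] at *
      rw [h2, h3, map_zero, LinearMap.zero_apply] at h1
      linear_combination -h1) with h | h
    · intro a ha
      refine h a (Submodule.mem_annihilator.2 ?_)
      rintro _ ⟨c, rfl⟩
      exact ha c
    · exfalso
      refine hιa0 (Submodule.mul_induction_on (C := fun r => r = 0) (hAA a0) ?_ ?_)
      · rintro _ ⟨c, rfl⟩ n hn
        exact Submodule.mem_annihilator.1 (h c) n hn
      · rintro _ _ rfl rfl; simp
  have hbr : ∀ a b, IsNilpotent (G.br (ι a) (ι b)) := by
    intro a b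
    haveI : Nontrivial R := ⟨⟨ι a0, 0, hιa0⟩⟩
    rcases CharP.exists' F with h0 | ⟨p, hp, hchar⟩
    · refine E.central_case h2 hV hA (Set.range (algebraMap F R))
        (Set.infinite_range_of_injective (algebraMap F R).injective) ?_ ?_ a b
      · rintro _ ⟨r, rfl⟩ z; exact G.alg_br r z
      · rintro _ ⟨r, rfl⟩ _ ⟨r', rfl⟩ hne c _ hc
        have : r - r' ≠ 0 := fun h => hne (by rw [sub_eq_zero.1 h])
        rw [← map_sub, ← Algebra.smul_def] at hc
        exact (smul_eq_zero.1 hc).resolve_left this
    · haveI : CharP R p := charP_of_injective_algebraMap (algebraMap F R).injective p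
      obtain ⟨k, hk⟩ : ∃ k, p = k + 1 := ⟨p - 1, by have := hp.out.pos; omega⟩
      have hcen : ∀ d z : R, G.br (d ^ p) z = 0 := by
        intro d z
        rw [hk, G.pow_br, ← hk, CharP.cast_eq_zero]; ring
      have hpow : ∀ d : A, ∃ d', ι d' = ι d ^ p := fun d => by
        rw [hk, pow_succ]; exact E.ideal _ d
      let L : Set R := Set.range fun d : A => ι d ^ p
      have hreg : ∀ l ∈ L, ∀ l' ∈ L, l ≠ l' → ∀ c ∈ E.im, (l - l') * c = 0 → c = 0 := by
        rintro _ ⟨d, rfl⟩ _ ⟨d', rfl⟩ hne _ ⟨c, rfl⟩ hc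
        dsimp only at hne hc
        rw [← sub_pow_char, ← map_sub] at hc
        rcases E.ideal_cases hs (Ideal.span {ι (d - d') ^ p}).annihilator (fun a b ha => by
          rw [mem_ann_single] at ha ⊢
          have h1 := G.leib (ι a) (ι (d - d') ^ p) (ι b)
          rw [smul_eq_mul] at *
          rw [ha, hcen, map_zero, LinearMap.zero_apply] at h1
          linear_combination -h1) with h | h
        · rw [h c (mem_ann_single.2 (by rw [smul_eq_mul, mul_comm, hc])),
            map_zero]
        · exfalso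
          obtain ⟨e, he⟩ := hpow (d - d')
          have := hann e fun b => by
            rw [he, mul_comm]; exact mem_ann_single.1 (h b)
          rw [this, map_zero, map_sub, sub_pow_char] at he
          exact hne (sub_eq_zero.1 he.symm)
      rcases L.finite_or_infinite with hL | hL
      · have hmaps : Set.MapsTo (fun l => l ^ p) L L := by
          rintro _ ⟨d, rfl⟩
          obtain ⟨d', hd'⟩ := hpow d
          exact ⟨d', by simp only [hd']⟩
        have hinj : Set.InjOn (fun l => l ^ p) L := by
          intro l hl l' hl' h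
          by_contra hne
          have h0 : (l - l') ^ p = 0 := by rw [sub_pow_char]; exact sub_eq_zero.2 h
          have : ∀ n, (l - l') ^ n * ι a0 ≠ 0 := by
            intro n
            induction n with
            | zero => simpa using hιa0
            | succ n ih =>
              intro h
              rw [pow_succ', mul_assoc] at h
              exact ih (hreg l hl l' hl' hne _ (Ideal.mul_mem_left _ _ ⟨a0, rfl⟩) h)
          exact this p (by rw [h0, zero_mul])
        have hsurj := ((hL.injOn_iff_bijOn_of_mapsTo hmaps).1 hinj).surjOn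
        have hx : ∀ a : A, ∃ x : A, IsNilpotent (ι x) ∧ ∀ z, G.br (ι x) z = G.br (ι a) z := by
          intro a
          obtain ⟨_, ⟨d, rfl⟩, hd⟩ := hsurj (⟨a, rfl⟩ : ι a ^ p ∈ L)
          obtain ⟨d', hd'⟩ := hpow d
          refine ⟨a - d', ⟨p, ?_⟩, fun z => ?_⟩
          · rw [map_sub, sub_pow_char, hd']; exact sub_eq_zero.2 hd.symm
          · rw [map_sub, map_sub, LinearMap.sub_apply, hd', hcen, sub_zero]
        obtain ⟨x, hx1, hx2⟩ := hx a
        obtain ⟨y, hy1, hy2⟩ := hx b
        obtain ⟨m, hm⟩ := core h2 hV hA G ι E.mul (nilradical R) x y hx1 hy1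
        rw [hx2, G.anti, hy2, ← G.anti] at hm
        exact IsNilpotent.of_pow hm
      · exact E.central_case h2 hV hA L hL (by rintro _ ⟨d, rfl⟩ z; exact hcen _ z) hreg a b
  rcases E.ideal_cases hs (nilradical R) (fun a b _ => hbr a b) with h | h
  swap
  · exact (not_words hs (E.nil_case hAA h)).elim
  have hz : ∀ a b, G.br (ι a) (ι b) = 0 := by
    intro a b
    obtain ⟨c, hc⟩ := E.br_mem a b
    rw [← hc, h c (by rw [hc]; exact hbr a b), map_zero]
  have hm : ∀ a b, ι (a * b) = ι a * ι b := fun a b => by rw [E.mul, hz, add_zero]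
  have hsurj : ∀ a : A, a ≠ 0 → ∀ c, ∃ b, a * b = c := by
    intro a ha c
    rcases E.ideal_cases hs (Ideal.span {ι a} * E.im) (fun a b _ => by rw [hz]; exact zero_mem _)
      with h | h
    · exact (ha (hann a fun b => by
        rw [← hm, h (a * b) (by
          rw [hm]; exact Ideal.mul_mem_mul (Ideal.mem_span_singleton_self _) ⟨b, rfl⟩),
          map_zero])).elim
    · obtain ⟨_, ⟨b, rfl⟩, hb⟩ := Ideal.mem_span_singleton_mul.1 (h c)
      exact ⟨b, E.inj (by rw [hm, hb])⟩
  obtain ⟨e, he⟩ := hsurj a0 ha0 a0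
  refine ⟨fun a b => E.inj (by rw [hm, hm, mul_comm]),
    fun a b c => E.inj (by rw [hm, hm, hm, hm, mul_assoc]), e, ?_, fun a => ?_,
    fun a ha => hsurj a ha e⟩
  · rintro rfl
    exact ha0 (by rw [← he, mul_zero])
  · obtain ⟨d, rfl⟩ := hsurj a0 ha0 a
    apply E.inj
    have := congrArg ι he
    rw [hm] at this
    rw [hm, hm]
    linear_combination ι d * this

end Main

section Plus
variable (F : Type u) [Field F] (A : Type u) [NonUnitalNonAssocRing A] [Module F A]
  [IsScalarTower F A A] [SMulCommClass F A A]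

/-- The plus algebra. -/
def Plus (_ : Type u) (A : Type u) : Type u := A

instance : AddCommGroup (Plus F A) := inferInstanceAs (AddCommGroup A)
instance : Module F (Plus F A) := inferInstanceAs (Module F A)

/-- The identity map. -/
def toP : A ≃ₗ[F] Plus F A := LinearEquiv.refl F A

variable {F A}

theorem IsKokoris.flex (h2 : (2 : F) ≠ 0) (h : IsKokoris A) (a b : A) :
    a * b * a = a * (b * a) := by
  have := h a b a
  have h4 : (4 : F) ≠ 0 := by
    have : (4 : F) = 2 * 2 := by norm_num
    rw [this]; exact mul_ne_zero h2 h2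
  have e : (4 : F) • (a * b * a - a * (b * a)) = 0 := by
    rw [ofNat_smul_eq_nsmul]
    simp only [sub_mul, mul_sub, sub_self, zero_mul, mul_zero, sub_zero] at this
    rw [← this]; abel
  exact sub_eq_zero.1 ((smul_eq_zero.1 e).resolve_left h4)

theorem IsKokoris.flex' (h2 : (2 : F) ≠ 0) (h : IsKokoris A) (a b c : A) :
    a * b * c + c * b * a = a * (b * c) + c * (b * a) := by
  have := h.flex h2 (a + c) b
  simp only [add_mul, mul_add, h.flex h2 a b, h.flex h2 c b] at this
  linear_combination (norm := abel) this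

theorem IsKokoris.leib (h2 : (2 : F) ≠ 0) (h : IsKokoris A) (a b c : A) :
    (a * b + b * a) * c - c * (a * b + b * a) =
      (a * (b * c - c * b) + (b * c - c * b) * a) + (b * (a * c - c * a) + (a * c - c * a) * b) := by
  have h1 := h.flex' h2 a b c
  have h3 := h.flex' h2 b a c
  have h4 := h.flex' h2 a c b
  simp only [add_mul, mul_add, sub_mul, mul_sub]
  linear_combination (norm := abel) h1 + h3 - h4

theorem IsKokoris.assoc (h2 : (2 : F) ≠ 0) (h : IsKokoris A) (a b c : A) :
    (a * b + b * a) * c + c * (a * b + b * a) = a * (b * c + c * b) + (b * c + c * b) * a := by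
  have h0 := h a b c
  have h1 := h.flex' h2 a b c
  simp only [add_mul, mul_add, sub_mul, mul_sub, smul_sub] at h0 ⊢
  linear_combination (norm := abel) -h0 - h1 - h1

variable (F A) in
/-- Half the symmetrized product. -/
noncomputable def circ : A →ₗ[F] A →ₗ[F] A :=
  (2 : F)⁻¹ • (LinearMap.mul F A + (LinearMap.mul F A).flip)

variable (F A) in
/-- Half the commutator. -/
noncomputable def brk : A →ₗ[F] A →ₗ[F] A :=
  (2 : F)⁻¹ • (LinearMap.mul F A - (LinearMap.mul F A).flip)

theorem circ_apply (x y : A) : circ F A x y = (2 : F)⁻¹ • (x * y + y * x) := rfl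
theorem brk_apply (x y : A) : brk F A x y = (2 : F)⁻¹ • (x * y - y * x) := rfl

theorem circ_comm (x y : A) : circ F A x y = circ F A y x := by
  rw [circ_apply, circ_apply, add_comm]

theorem circ_assoc (h2 : (2 : F) ≠ 0) (h : IsKokoris A) (x y z : A) :
    circ F A (circ F A x y) z = circ F A x (circ F A y z) := by
  simp only [circ_apply, smul_mul_assoc, mul_smul_comm, ← smul_add]
  rw [h.assoc h2]

theorem brk_circ (h2 : (2 : F) ≠ 0) (h : IsKokoris A) (x y z : A) :
    brk F A (circ F A x y) z = circ F A x (brk F A y z) + circ F A y (brk F A x z) := by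
  simp only [circ_apply, brk_apply, smul_mul_assoc, mul_smul_comm, ← smul_add, ← smul_sub]
  rw [h.leib h2]

theorem circ_add_brk (h2 : (2 : F) ≠ 0) (x y : A) : x * y = circ F A x y + brk F A x y := by
  rw [circ_apply, brk_apply, ← smul_add]
  have : x * y + y * x + (x * y - y * x) = (2 : F) • (x * y) := by rw [two_smul]; abel
  rw [this, smul_smul, inv_mul_cancel₀ h2, one_smul]

/-- The commutative associative ring structure of the plus algebra. -/
@[reducible] noncomputable def plusRing (h2 : (2 : F) ≠ 0) (h : IsKokoris A) :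
    NonUnitalCommRing (Plus F A) where
  mul x y := circ F A x y
  left_distrib x y z := map_add (circ F A x) y z
  right_distrib x y z := LinearMap.map_add₂ (circ F A) x y z
  zero_mul x := LinearMap.map_zero₂ (circ F A) x
  mul_zero x := map_zero (circ F A x)
  mul_assoc := circ_assoc (A := A) h2 h
  mul_comm := circ_comm (F := F) (A := A)

theorem main {Ids : Set (FreeNonUnitalNonAssocAlgebra F ℕ)} (h2 : (2 : F) ≠ 0) (hV : LocAdm Ids)
    (hA : InVar Ids A) (hK : IsKokoris A) (hs : IsSimpleAlg F A) :
    (∀ a b : A, a * b = b * a) ∧ (∀ a b c : A, a * b * c = a * (b * c)) ∧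
      ∃ e : A, e ≠ 0 ∧ (∀ a, e * a = a) ∧ ∀ a : A, a ≠ 0 → ∃ b, a * b = e := by
  letI := plusRing h2 hK
  haveI : IsScalarTower F (Plus F A) (Plus F A) :=
    ⟨fun r x y => LinearMap.map_smul₂ (circ F A) r x y⟩
  haveI : SMulCommClass F (Plus F A) (Plus F A) :=
    ⟨fun r x y => (map_smul (circ F A x) r y).symm⟩
  let B : Plus F A →ₗ[F] Plus F A →ₗ[F] Plus F A := brk F A
  have hB : ∀ x y z : Plus F A, B (x * y) z = x * B y z + y * B x z :=
    brk_circ (A := A) h2 hK
  let G : GP F (Unitization F (Plus F A)) :=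
    { br := (B.compl₁₂ (Unitization.sndHom F F (Plus F A)) (Unitization.sndHom F F (Plus F A))).compr₂
        (Unitization.inrHom F F (Plus F A))
      skew := fun x => by
        have : ∀ a : A, brk F A a a = 0 := fun a => by rw [brk_apply, sub_self, smul_zero]
        have : B x.snd x.snd = 0 := this _
        simp [this]
      leib := fun x y z => by
        refine Unitization.ext (by simp) ?_
        simp [hB]
        abel }
  let ι : A →ₗ[F] Unitization F (Plus F A) :=
    (Unitization.inrHom F F (Plus F A)).comp (toP F A).toLinearMap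
  have E : Emb G ι :=
    { inj := Unitization.inr_injective
      mul := fun a b => by
        refine Unitization.ext (by simp [ι, G]) ?_
        simp [ι, G]
        exact circ_add_brk h2 a b
      ideal := fun r a => ⟨(toP F A).symm (r * ι a).snd, by
        refine Unitization.ext (by simp [ι]) ?_
        simp [ι]⟩ }
  exact E.main h2 hV hA hs

end Plus

end Pool.Agent.H75.Kokoris
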