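import Mathlib

/-! Lattice-ordered groups: automorphism groups of families of chains, sub-l-groups with a
conjugation bound, quotients by cones. -/

set_option autoImplicit false

namespace Pool.Agent.H75.LGroup

universe u v

section Chains

variable {α : Type u} [LinearOrder α]

/-- Pointwise maximum of two order automorphisms of a chain. -/
noncomputable def supIso (f g : α ≃o α) : α ≃o α :=
  StrictMono.orderIsoOfSurjective (fun x => max (f x) (g x))
    (fun _ _ h => max_lt_max (f.strictMono h) (g.strictMono h))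
    (fun y => ⟨min (f.symm y) (g.symm y), by
      simp only [f.monotone.map_min, g.monotone.map_min, OrderIso.apply_symm_apply]
      rcases le_total (f.symm y) (g.symm y) with h | h
      · have h1 : y ≤ f (g.symm y) := by simpa using f.monotone h
        rw [min_eq_left h1]
        exact max_eq_left (min_le_right _ _)
      · have h1 : y ≤ g (f.symm y) := by simpa using g.monotone h
        rw [min_eq_right h1]
        exact max_eq_right (min_le_left _ _)⟩)

/-- Pointwise minimum of two order automorphisms of a chain. -/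
noncomputable def infIso (f g : α ≃o α) : α ≃o α :=
  StrictMono.orderIsoOfSurjective (fun x => min (f x) (g x))
    (fun _ _ h => min_lt_min (f.strictMono h) (g.strictMono h))
    (fun y => ⟨max (f.symm y) (g.symm y), by
      simp only [f.monotone.map_max, g.monotone.map_max, OrderIso.apply_symm_apply]
      rcases le_total (f.symm y) (g.symm y) with h | h
      · have h1 : g (f.symm y) ≤ y := by simpa using g.monotone h
        rw [max_eq_right h1]
        exact min_eq_right (le_max_left _ _)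
      · have h1 : f (g.symm y) ≤ y := by simpa using f.monotone h
        rw [max_eq_left h1]
        exact min_eq_left (le_max_right _ _)⟩)

@[simp] theorem supIso_apply (f g : α ≃o α) (x : α) : supIso f g x = max (f x) (g x) := rfl
@[simp] theorem infIso_apply (f g : α ≃o α) (x : α) : infIso f g x = min (f x) (g x) := rfl

end Chains

/-- Families of order automorphisms of a family of chains. -/
@[ext] structure AF {ι : Type v} (α : ι → Type u) [∀ i, LinearOrder (α i)] where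
  e : ∀ i, α i ≃o α i

namespace AF

variable {ι : Type v} {α : ι → Type u} [∀ i, LinearOrder (α i)]

instance : Mul (AF α) := ⟨fun a b => ⟨fun i => (b.e i).trans (a.e i)⟩⟩
instance : One (AF α) := ⟨⟨fun _ => OrderIso.refl _⟩⟩
instance : Inv (AF α) := ⟨fun a => ⟨fun i => (a.e i).symm⟩⟩

@[simp] theorem mul_e (a b : AF α) (i : ι) (x : α i) : (a * b).e i x = a.e i (b.e i x) := rfl
@[simp] theorem one_e (i : ι) (x : α i) : (1 : AF α).e i x = x := rfl
@[simp] theorem inv_e (a : AF α) (i : ι) (x : α i) : (a⁻¹).e i x = (a.e i).symm x := rfl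

instance : Group (AF α) := Group.ofLeftAxioms
  (fun a b c => by ext i x; simp)
  (fun a => by ext i x; simp)
  (fun a => by ext i x; simp)

noncomputable instance : Lattice (AF α) where
  le a b := ∀ i x, a.e i x ≤ b.e i x
  le_refl _ _ _ := le_rfl
  le_trans _ _ _ h1 h2 i x := (h1 i x).trans (h2 i x)
  le_antisymm a b h1 h2 := by
    ext i x
    exact le_antisymm (h1 i x) (h2 i x)
  sup a b := ⟨fun i => supIso (a.e i) (b.e i)⟩
  inf a b := ⟨fun i => infIso (a.e i) (b.e i)⟩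
  le_sup_left _ _ _ _ := le_max_left _ _
  le_sup_right _ _ _ _ := le_max_right _ _
  sup_le _ _ _ h1 h2 i x := max_le (h1 i x) (h2 i x)
  inf_le_left _ _ _ _ := min_le_left _ _
  inf_le_right _ _ _ _ := min_le_right _ _
  le_inf _ _ _ h1 h2 i x := le_min (h1 i x) (h2 i x)

theorem le_def (a b : AF α) : a ≤ b ↔ ∀ i x, a.e i x ≤ b.e i x := Iff.rfl

instance : MulLeftMono (AF α) := ⟨fun c _ _ h i x => (c.e i).monotone (h i x)⟩
instance : MulRightMono (AF α) := ⟨fun c _ _ h i x => h i (c.e i x)⟩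

end AF

section Sub

variable {G : Type u} {K : Type v} [Group G] [Group K] [Lattice K] [MulLeftMono K]
  [MulRightMono K] (φ : G →* K)

/-- Products of conjugates of `k` by elements of the image of `G`. -/
def conjM (k : K) : Submonoid K := Submonoid.closure {y | ∃ g : G, y = (φ g)⁻¹ * k * φ g}

theorem one_le_of_conjM {k : K} (hk : 1 ≤ k) {m : K} (hm : m ∈ conjM φ k) : 1 ≤ m := by
  induction hm using Submonoid.closure_induction with
  | mem x hx =>
    obtain ⟨g, rfl⟩ := hx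
    calc (1 : K) = (φ g)⁻¹ * 1 * φ g := by simp
      _ ≤ (φ g)⁻¹ * k * φ g := by gcongr
  | one => exact le_rfl
  | mul x y _ _ hx hy => exact one_le_mul hx hy

omit [Lattice K] [MulLeftMono K] [MulRightMono K] in
theorem conj_mem_conjM {k m : K} (hm : m ∈ conjM φ k) (g : G) :
    (φ g)⁻¹ * m * φ g ∈ conjM φ k := by
  induction hm using Submonoid.closure_induction with
  | mem x hx =>
    obtain ⟨g', rfl⟩ := hx
    exact Submonoid.subset_closure ⟨g' * g, by simp [mul_assoc]⟩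
  | one => simp
  | mul x y _ _ hx hy =>
    have := (conjM φ k).mul_mem hx hy
    simpa [mul_assoc] using this

/-- `u` conjugates every product of `G`-conjugates of `k` below another such product. -/
def Bd (u : K) : Prop := ∀ k : K, 1 ≤ k → ∀ m ∈ conjM φ k, ∃ m' ∈ conjM φ k, u⁻¹ * m * u ≤ m'

theorem Bd.mul {u w : K} (hu : Bd φ u) (hw : Bd φ w) : Bd φ (u * w) := by
  intro k hk m hm
  obtain ⟨m1, h1, e1⟩ := hu k hk m hm
  obtain ⟨m2, h2, e2⟩ := hw k hk m1 h1
  refine ⟨m2, h2, le_trans ?_ e2⟩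
  calc (u * w)⁻¹ * m * (u * w) = w⁻¹ * (u⁻¹ * m * u) * w := by simp [mul_assoc]
    _ ≤ w⁻¹ * m1 * w := by gcongr

theorem Bd.sup {u w : K} (hu : Bd φ u) (hw : Bd φ w) : Bd φ (u ⊔ w) := by
  intro k hk m hm
  obtain ⟨m1, h1, e1⟩ := hu k hk m hm
  obtain ⟨m2, h2, e2⟩ := hw k hk m hm
  refine ⟨m1 * m2, (conjM φ k).mul_mem h1 h2, ?_⟩
  rw [mul_sup]
  apply sup_le
  · calc (u ⊔ w)⁻¹ * m * u ≤ u⁻¹ * m * u := by
          have : (u ⊔ w)⁻¹ ≤ u⁻¹ := inv_le_inv_iff.2 le_sup_left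
          gcongr
      _ ≤ m1 := e1
      _ ≤ m1 * m2 := le_mul_of_one_le_right' (one_le_of_conjM φ hk h2)
  · calc (u ⊔ w)⁻¹ * m * w ≤ w⁻¹ * m * w := by
          have : (u ⊔ w)⁻¹ ≤ w⁻¹ := inv_le_inv_iff.2 le_sup_right
          gcongr
      _ ≤ m2 := e2
      _ ≤ m1 * m2 := le_mul_of_one_le_left' (one_le_of_conjM φ hk h1)

theorem Bd.inf {u w : K} (hu : Bd φ u) (hw : Bd φ w) : Bd φ (u ⊓ w) := by
  intro k hk m hm
  obtain ⟨m1, h1, e1⟩ := hu k hk m hm
  obtain ⟨m2, h2, e2⟩ := hw k hk m hm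
  refine ⟨m1 * m2, (conjM φ k).mul_mem h1 h2, ?_⟩
  rw [inv_inf, sup_mul, sup_mul]
  apply sup_le
  · calc u⁻¹ * m * (u ⊓ w) ≤ u⁻¹ * m * u := by
          gcongr
          exact inf_le_left
      _ ≤ m1 := e1
      _ ≤ m1 * m2 := le_mul_of_one_le_right' (one_le_of_conjM φ hk h2)
  · calc w⁻¹ * m * (u ⊓ w) ≤ w⁻¹ * m * w := by
          gcongr
          exact inf_le_right
      _ ≤ m2 := e2
      _ ≤ m1 * m2 := le_mul_of_one_le_left' (one_le_of_conjM φ hk h1)

theorem bd_phi (g : G) : Bd φ (φ g) := fun _ _ _ hm => ⟨_, conj_mem_conjM φ hm g, le_rfl⟩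

/-- The sub-l-group of elements with a two-sided conjugation bound. -/
def bdSub : Subgroup K where
  carrier := {u | Bd φ u ∧ Bd φ u⁻¹}
  mul_mem' := fun ha hb => ⟨ha.1.mul φ hb.1, by rw [mul_inv_rev]; exact hb.2.mul φ ha.2⟩
  one_mem' := ⟨by simpa using bd_phi φ 1, by simpa using bd_phi φ 1⟩
  inv_mem' := fun ha => ⟨ha.2, by rw [inv_inv]; exact ha.1⟩

theorem sup_mem_bdSub {u w : K} (hu : u ∈ bdSub φ) (hw : w ∈ bdSub φ) : u ⊔ w ∈ bdSub φ :=
  ⟨hu.1.sup φ hw.1, by rw [inv_sup]; exact hu.2.inf φ hw.2⟩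

theorem inf_mem_bdSub {u w : K} (hu : u ∈ bdSub φ) (hw : w ∈ bdSub φ) : u ⊓ w ∈ bdSub φ :=
  ⟨hu.1.inf φ hw.1, by rw [inv_inf]; exact hu.2.sup φ hw.2⟩

theorem phi_mem_bdSub (g : G) : φ g ∈ bdSub φ :=
  ⟨bd_phi φ g, by rw [← map_inv]; exact bd_phi φ _⟩

theorem mem_bdSub_of_conjM {k m : K} (hk : k ∈ bdSub φ) (hm : m ∈ conjM φ k) :
    m ∈ bdSub φ := by
  induction hm using Submonoid.closure_induction with
  | mem x hx =>
    obtain ⟨g, rfl⟩ := hx
    exact mul_mem (mul_mem (inv_mem (phi_mem_bdSub φ g)) hk) (phi_mem_bdSub φ g)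
  | one => exact one_mem _
  | mul x y _ _ hx hy => exact mul_mem hx hy

end Sub

/-- An l-cone inside a sub-l-group `B`: the preimage of the positive cone of a quotient. -/
structure IsCone {K : Type v} [Group K] [Lattice K] (B : Subgroup K) (Q : Set K) : Prop where
  pos : ∀ x, 1 ≤ x → x ∈ Q
  mul : ∀ x y, x ∈ Q → y ∈ Q → x * y ∈ Q
  inf : ∀ x y, x ∈ Q → y ∈ Q → x ⊓ y ∈ Q
  conj : ∀ x, x ∈ Q → ∀ u ∈ B, u⁻¹ * x * u ∈ Q

section Quot

variable {K : Type v} [Group K] [Lattice K] [MulLeftMono K] [MulRightMono K]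

omit [MulRightMono K] in
theorem IsCone.up {B : Subgroup K} {Q : Set K} (h : IsCone B Q) {x y : K} (hx : x ∈ Q)
    (hxy : x ≤ y) : y ∈ Q := by
  have := h.mul x (x⁻¹ * y) hx (h.pos _ (by rwa [le_inv_mul_iff_mul_le, mul_one]))
  simpa using this

/-- The quotient of a sub-l-group by a cone is a lattice-ordered group. -/
theorem exists_quot (B : Subgroup K) (hs : ∀ u w, u ∈ B → w ∈ B → u ⊔ w ∈ B)
    (hi : ∀ u w, u ∈ B → w ∈ B → u ⊓ w ∈ B) (Q : Set K) (h : IsCone B Q) :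
    ∃ (H : Type v) (_ : Group H) (_ : Lattice H) (_ : MulLeftMono H) (_ : MulRightMono H)
      (π : B →* H), Function.Surjective π ∧
      ∀ x y : B, π x ≤ π y ↔ (x : K)⁻¹ * y ∈ Q := by
  let J : Subgroup B :=
    { carrier := {x | (x : K) ∈ Q ∧ (x : K)⁻¹ ∈ Q}
      mul_mem' := fun ha hb => ⟨h.mul _ _ ha.1 hb.1, by
        rw [Subgroup.coe_mul, mul_inv_rev]
        exact h.mul _ _ hb.2 ha.2⟩
      one_mem' := ⟨h.pos _ le_rfl, by simpa using h.pos 1 le_rfl⟩
      inv_mem' := fun ha => ⟨ha.2, by simpa using ha.1⟩ }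
  have hJ : J.Normal := ⟨fun x hx g => ⟨by
      simpa using h.conj _ hx.1 (g⁻¹ : B) (g⁻¹).2, by
      simpa [mul_assoc] using h.conj _ hx.2 (g⁻¹ : B) (g⁻¹).2⟩⟩
  let le : B ⧸ J → B ⧸ J → Prop := fun a b => ((a.out : B) : K)⁻¹ * (b.out : B) ∈ Q
  have hle : ∀ x y : B, le (x : B ⧸ J) (y : B ⧸ J) ↔ (x : K)⁻¹ * y ∈ Q := by
    intro x y
    obtain ⟨j, hj⟩ := QuotientGroup.mk_out_eq_mul J x
    obtain ⟨j', hj'⟩ := QuotientGroup.mk_out_eq_mul J y
    simp only [le]
    rw [hj, hj']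
    constructor
    · intro h1
      have := h.mul _ _ (h.mul _ _ j.2.1 h1) j'.2.2
      simpa [mul_assoc] using this
    · intro h1
      have := h.mul _ _ (h.mul _ _ j.2.2 h1) j'.2.1
      simpa [mul_assoc] using this
  have hle' : ∀ (a : B ⧸ J) (y : B), le a (y : B ⧸ J) ↔ ((a.out : B) : K)⁻¹ * y ∈ Q := by
    intro a y
    rw [← hle, QuotientGroup.out_eq']
  have hle'' : ∀ (x : B) (b : B ⧸ J), le (x : B ⧸ J) b ↔ (x : K)⁻¹ * (b.out : B) ∈ Q := by
    intro x b
    rw [← hle, QuotientGroup.out_eq']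
  let L : Lattice (B ⧸ J) :=
    { le := le
      le_refl := fun a => by simpa [le] using h.pos 1 le_rfl
      le_trans := fun a b c h1 h2 => by simpa [le, mul_assoc] using h.mul _ _ h1 h2
      le_antisymm := fun a b h1 h2 => by
        rw [← QuotientGroup.out_eq' a, ← QuotientGroup.out_eq' b, QuotientGroup.eq]
        exact ⟨h1, by simpa [le] using h2⟩
      sup := fun a b => ((⟨_, hs _ _ a.out.2 b.out.2⟩ : B) : B ⧸ J)
      inf := fun a b => ((⟨_, hi _ _ a.out.2 b.out.2⟩ : B) : B ⧸ J)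
      le_sup_left := fun a b => (hle' _ _).2 (h.pos _ (by simp))
      le_sup_right := fun a b => (hle' _ _).2 (h.pos _ (by simp))
      sup_le := fun a b c h1 h2 => (hle'' _ _).2 (by
        simp only [inv_sup, inf_mul]
        exact h.inf _ _ h1 h2)
      inf_le_left := fun a b => (hle'' _ _).2 (h.pos _ (by simp))
      inf_le_right := fun a b => (hle'' _ _).2 (h.pos _ (by simp))
      le_inf := fun a b c h1 h2 => (hle' _ _).2 (by
        simp only [mul_inf]
        exact h.inf _ _ h1 h2) }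
  refine ⟨B ⧸ J, inferInstance, L, ⟨?_⟩, ⟨?_⟩, QuotientGroup.mk' J, QuotientGroup.mk'_surjective J,
    hle⟩
  · intro c a b hab
    obtain ⟨c, rfl⟩ := QuotientGroup.mk_surjective c
    obtain ⟨a, rfl⟩ := QuotientGroup.mk_surjective a
    obtain ⟨b, rfl⟩ := QuotientGroup.mk_surjective b
    have h1 := (hle a b).1 hab
    exact (hle (c * a) (c * b)).2 (by simpa [mul_assoc] using h1)
  · intro c a b hab
    obtain ⟨c, rfl⟩ := QuotientGroup.mk_surjective c
    obtain ⟨a, rfl⟩ := QuotientGroup.mk_surjective a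
    obtain ⟨b, rfl⟩ := QuotientGroup.mk_surjective b
    have h1 := h.conj _ ((hle a b).1 hab) c c.2
    exact (hle (a * c) (b * c)).2 (by simpa [mul_assoc] using h1)

end Quot

section Max

variable {G : Type u} {K : Type v} [Group G] [PartialOrder G] [MulLeftMono G] [MulRightMono G]
  [Group K] [Lattice K] [MulLeftMono K] [MulRightMono K] (φ : G →* K)

/-- A maximal cone inducing the given order on `G` kills all spurious lower bounds. -/
theorem exists_max_cone (hφ : ∀ g : G, 1 ≤ φ g ↔ 1 ≤ g) :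
    ∃ Q : Set K, IsCone (bdSub φ) Q ∧ (∀ g : G, φ g ∈ Q ↔ 1 ≤ g) ∧
      ∀ S : Set G, IsGLB S 1 → ∀ h ∈ bdSub φ, (∀ s ∈ S, h⁻¹ * φ s ∈ Q) → h⁻¹ ∈ Q := by
  obtain ⟨Q, -, hQ⟩ := zorn_subset_nonempty
    {Q : Set K | IsCone (bdSub φ) Q ∧ ∀ g : G, φ g ∈ Q → 1 ≤ g} (fun c hc hch ⟨Q0, hQ0⟩ => by
      refine ⟨⋃₀ c, ⟨⟨fun x hx => ⟨Q0, hQ0, (hc hQ0).1.pos x hx⟩, ?_, ?_, ?_⟩, ?_⟩,
        fun s hs => Set.subset_sUnion_of_mem hs⟩
      · rintro x y ⟨A, hA, hx⟩ ⟨B, hB, hy⟩
        rcases hch.total hA hB with h | h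
        · exact ⟨B, hB, (hc hB).1.mul _ _ (h hx) hy⟩
        · exact ⟨A, hA, (hc hA).1.mul _ _ hx (h hy)⟩
      · rintro x y ⟨A, hA, hx⟩ ⟨B, hB, hy⟩
        rcases hch.total hA hB with h | h
        · exact ⟨B, hB, (hc hB).1.inf _ _ (h hx) hy⟩
        · exact ⟨A, hA, (hc hA).1.inf _ _ hx (h hy)⟩
      · rintro x ⟨A, hA, hx⟩ u hu
        exact ⟨A, hA, (hc hA).1.conj _ hx u hu⟩
      · rintro g ⟨A, hA, hx⟩
        exact (hc hA).2 g hx)
    {x | 1 ≤ x} ⟨⟨fun _ hx => hx, fun _ _ hx hy => one_le_mul hx hy,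
      fun _ _ hx hy => le_inf hx hy, fun x hx u _ => by
        calc (1 : K) = u⁻¹ * 1 * u := by simp
          _ ≤ u⁻¹ * x * u := by
            gcongr
            exact hx⟩, fun g hg => (hφ g).1 hg⟩
  have hC := hQ.prop.1
  refine ⟨Q, hC, fun g => ⟨hQ.prop.2 g, fun hg => hC.pos _ ((hφ g).2 hg)⟩, ?_⟩
  intro S hS h hB hh
  have hk : 1 ≤ h ⊔ 1 := le_sup_right
  have hkB : h ⊔ 1 ∈ bdSub φ := sup_mem_bdSub φ hB (one_mem _)
  have hks : ∀ s ∈ S, (h ⊔ 1)⁻¹ * φ s ∈ Q := by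
    intro s hs
    rw [inv_sup, inf_mul, inv_one, one_mul]
    exact hC.inf _ _ (hh s hs) (hC.pos _ ((hφ s).2 (hS.1 hs)))
  have key : ∀ m ∈ conjM φ (h ⊔ 1), ∀ g : G, φ g * m ∈ Q → 1 ≤ g := by
    intro m hm
    induction hm using Submonoid.closure_induction_left with
    | one => exact fun g hg => hQ.prop.2 g (by simpa using hg)
    | mul_left x hx y hy ih =>
      obtain ⟨a, rfl⟩ := hx
      intro g hg
      have h1 : ∀ s ∈ S, a * g⁻¹ * a⁻¹ ≤ s := by
        intro s hs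
        have h2 := hC.conj _ (hks s hs) _ (phi_mem_bdSub φ a)
        obtain ⟨y', hy', e⟩ : ∃ y' ∈ Q, φ (g * (a⁻¹ * s * a)) * y =
            φ g * ((φ a)⁻¹ * (h ⊔ 1) * φ a * y) * y' := by
          refine ⟨y⁻¹ * ((φ a)⁻¹ * ((h ⊔ 1)⁻¹ * φ s) * φ a) * y, ?_, ?_⟩
          · exact hC.conj _ h2 _ (mem_bdSub_of_conjM φ hkB hy)
          · simp [mul_assoc]
        have h3 := ih (g * (a⁻¹ * s * a)) (e ▸ hC.mul _ _ hg hy')
        calc a * g⁻¹ * a⁻¹ = a * g⁻¹ * 1 * a⁻¹ := by simp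
          _ ≤ a * g⁻¹ * (g * (a⁻¹ * s * a)) * a⁻¹ := by gcongr
          _ = s := by simp [mul_assoc]
      have h4 : a * g⁻¹ * a⁻¹ ≤ 1 := hS.2 h1
      calc (1 : G) = a⁻¹ * (a * g⁻¹ * a⁻¹) * (a * g) := by simp [mul_assoc]
        _ ≤ a⁻¹ * 1 * (a * g) := by gcongr
        _ = g := by simp
  have hQ' : IsCone (bdSub φ) {y | ∃ m ∈ conjM φ (h ⊔ 1), y * m ∈ Q} := by
    refine ⟨fun x hx => ⟨1, one_mem _, hC.pos _ (by simpa using hx)⟩, ?_, ?_, ?_⟩
    · rintro x y ⟨m, hm, hx⟩ ⟨m', hm', hy⟩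
      refine ⟨m' * m, mul_mem hm' hm, ?_⟩
      have := hC.mul _ _ hx (hC.conj _ hy m (mem_bdSub_of_conjM φ hkB hm))
      simpa [mul_assoc] using this
    · rintro x y ⟨m, hm, hx⟩ ⟨m', hm', hy⟩
      refine ⟨m * m', mul_mem hm hm', ?_⟩
      rw [inf_mul]
      apply hC.inf
      · apply hC.up hx
        gcongr
        exact le_mul_of_one_le_right' (one_le_of_conjM φ hk hm')
      · apply hC.up hy
        gcongr
        exact le_mul_of_one_le_left' (one_le_of_conjM φ hk hm)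
    · rintro x ⟨m, hm, hx⟩ u hu
      obtain ⟨m', hm', e⟩ := hu.1 _ hk m hm
      refine ⟨m', hm', hC.up (hC.conj _ hx u hu) ?_⟩
      calc u⁻¹ * (x * m) * u = u⁻¹ * x * u * (u⁻¹ * m * u) := by simp [mul_assoc]
        _ ≤ u⁻¹ * x * u * m' := by gcongr
  have hsub : Q ⊆ {y | ∃ m ∈ conjM φ (h ⊔ 1), y * m ∈ Q} :=
    fun y hy => ⟨1, one_mem _, by simpa using hy⟩
  have hle := hQ.le_of_ge ⟨hQ', fun g ⟨m, hm, hg⟩ => key m hm g hg⟩ hsub
  apply hle
  refine ⟨h ⊔ 1, Submonoid.subset_closure ⟨1, by simp⟩, hC.pos _ ?_⟩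
  simp

end Max

end Pool.Agent.H75.LGroup
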