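import Mathlib

/-! Orbits of `GL₂(ℤ)` on real symmetric `2 × 2` matrices: a geodesic ending at a cusp is a limit
of an orbit but not of the orbit of a cyclic subgroup. -/

set_option autoImplicit false

namespace Pool.Agent.H75.LimDir

open Matrix Filter Topology

abbrev V := Fin 3 → ℝ

def Ar (y : ℕ → V) (x : V) : Prop := (∀ i j, i ≠ j → ∀ t : ℝ, y i ≠ t • y j) ∧
  ∃ t : ℕ → ℝ, Tendsto (fun j => t j • y j) atTop (𝓝 x)

theorem lim (f : Matrix (Fin 3) (Fin 3) ℝ) {y : ℕ → V} {x : V} {t : ℕ → ℝ}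
    (h : Tendsto (fun j => t j • y j) atTop (𝓝 x)) :
    Tendsto (fun j => t j • f *ᵥ y j) atTop (𝓝 (f *ᵥ x)) := by
  have := ((continuous_const.matrix_mulVec continuous_id :
    Continuous fun v : V => f *ᵥ v).tendsto x).comp h
  simpa [Function.comp_def, mulVec_smul] using this

theorem Ar.map {y : ℕ → V} {x : V} (h : Ar y x) (f g : Matrix (Fin 3) (Fin 3) ℝ) (e : g * f = 1) :
    Ar (fun j => f *ᵥ y j) (f *ᵥ x) := by
  refine ⟨fun i j hij t ht => h.1 i j hij t ?_, h.2.imp fun t ht => lim f ht⟩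
  have := congrArg (g *ᵥ ·) ht
  simpa [mulVec_smul, e] using this

def Sy (a b c d : ℝ) : Matrix (Fin 3) (Fin 3) ℝ :=
  !![a ^ 2, 2 * a * b, b ^ 2; a * c, a * d + b * c, b * d; c ^ 2, 2 * c * d, d ^ 2]

theorem Sy_mul (a b c d a' b' c' d' : ℝ) : Sy a b c d * Sy a' b' c' d' =
    Sy (a * a' + b * c') (a * b' + b * d') (c * a' + d * c') (c * b' + d * d') := by
  ext i j
  fin_cases i <;> fin_cases j <;> simp [Sy, mul_apply, Fin.sum_univ_three] <;> ring

def Q (v : V) : ℝ := v 1 ^ 2 - v 0 * v 2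

theorem Q_Sy (a b c d : ℝ) (v : V) : Q (Sy a b c d *ᵥ v) = (a * d - b * c) ^ 2 * Q v := by
  simp [Q, Sy, mulVec, dotProduct, Fin.sum_univ_three]; ring

theorem cubic (a b c d : ℝ) (h : (a * d - b * c) ^ 2 = 1) :
    (Sy a b c d * Sy a b c d - ((a + d) ^ 2 - 2 * (a * d - b * c)) • Sy a b c d + 1) *
      (Sy a b c d - (a * d - b * c) • 1) = 0 := by
  have : (1 : Matrix (Fin 3) (Fin 3) ℝ) = (a * d - b * c) ^ 2 • 1 := by rw [h, one_smul]
  nth_rewrite 1 [this]
  ext i j
  fin_cases i <;> fin_cases j <;> simp [Sy, mul_apply, Fin.sum_univ_three, one_apply] <;> ring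

theorem noPow (a b c d : ℤ) (h : (a * d - b * c) ^ 2 = 1) (p : V) (m : ℕ → ℕ) (hm : StrictMono m)
    (β : ℝ) : ¬ Ar (fun j => Sy a b c d ^ m j *ᵥ p) ![2 * β, 1, 0] := by
  rintro ⟨hd, t, ht⟩
  have h' : ((a : ℝ) * d - b * c) ^ 2 = 1 := by exact_mod_cast h
  have cu := cubic _ _ _ _ h'
  set A := Sy a b c d with hA
  have hQ : ∀ k, Q (A ^ k *ᵥ p) = Q p := fun k => by
    induction k with
    | zero => simp
    | succ k ih => rw [pow_succ', ← mulVec_mulVec, hA, Q_Sy, h', one_mul, ih]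
  have h1 : Tendsto (fun j => t j ^ 2 * Q p) atTop (𝓝 1) := by
    have := ((by unfold Q; fun_prop : Continuous Q).tendsto _).comp ht
    have e : ∀ j, Q (t j • A ^ m j *ᵥ p) = t j ^ 2 * Q p := fun j => by
      rw [← hQ (m j)]; simp [Q]; ring
    have e0 : Q ![2 * β, 1, 0] = 1 := by simp [Q]
    simpa only [Function.comp_def, e, e0] using this
  have Z : ∀ q : V, Tendsto (fun j => t j • q) atTop (𝓝 0) → q = 0 := fun q hq => by
    funext i
    have h2 := ((tendsto_pi_nhds.1 hq i).pow 2).mul_const (Q p)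
    have h3 := h1.mul_const (q i ^ 2)
    have := tendsto_nhds_unique h3 (by simpa [mul_pow, mul_right_comm] using h2)
    simpa using this
  have hp : Q p ≠ 0 := fun h => by
    simp only [h, mul_zero] at h1
    exact zero_ne_one (tendsto_nhds_unique tendsto_const_nhds h1)
  have Bd : ∀ r : ℕ → ℝ, Tendsto r atTop (𝓝 0) → Tendsto (fun j => t j * r j) atTop (𝓝 0) := by
    intro r hr
    have := ((h1.mul (hr.pow 2)).mul_const (Q p)⁻¹).sqrt
    rw [tendsto_zero_iff_abs_tendsto_zero]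
    simp only [ne_eq, OfNat.ofNat_ne_zero, not_false_eq_true, zero_pow, mul_zero, zero_mul,
      Real.sqrt_zero] at this
    refine this.congr fun j => ?_
    rw [Function.comp, ← Real.sqrt_sq_eq_abs]
    congr 1
    field_simp
  have per : A ^ 6 ≠ 1 := fun h6 => by
    obtain ⟨i, j, hij, e⟩ := Finite.exists_ne_map_eq_of_infinite
      fun j => (⟨m j % 6, Nat.mod_lt _ (by norm_num)⟩ : Fin 6)
    refine hd i j hij 1 ?_
    simp only [one_smul]
    rw [pow_eq_pow_mod _ h6, pow_eq_pow_mod (m j) h6, Fin.mk.inj e]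
  have lin : ∀ f : Matrix (Fin 3) (Fin 3) ℝ, Commute f A → (A - 1) * ((A - 1) * f) = 0 →
      ((A - 1) * f) *ᵥ p = 0 := fun f hf h0 => by
    have e : ∀ k : ℕ, f * A ^ k = f + (k : ℝ) • ((A - 1) * f) := fun k => by
      induction k with
      | zero => simp
      | succ k ih =>
        have e1 : A * ((A - 1) * f) = (A - 1) * f := by rwa [sub_mul, one_mul, sub_eq_zero] at h0
        rw [pow_succ', ← mul_assoc, hf.eq, mul_assoc, ih, mul_add, mul_smul_comm, e1]
        simp only [Nat.cast_succ, add_smul, one_smul, sub_mul, one_mul]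
        abel
    have hi : Tendsto (fun j => ((m j : ℝ))⁻¹) atTop (𝓝 0) :=
      tendsto_inv_atTop_zero.comp (tendsto_natCast_atTop_atTop.comp hm.tendsto_atTop)
    have := (hi.smul (lim f ht)).sub ((Bd _ hi).smul_const (f *ᵥ p))
    rw [zero_smul, zero_smul, sub_zero] at this
    refine Z _ (this.congr' ?_)
    filter_upwards [hm.tendsto_atTop.eventually_gt_atTop 0] with j hj
    have : (m j : ℝ) ≠ 0 := by positivity
    rw [mulVec_mulVec, e, add_mulVec, smul_mulVec]
    funext i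
    simp only [Pi.sub_apply, Pi.smul_apply, Pi.add_apply, smul_eq_mul]
    field_simp
    ring
  have tr0 : a + d ≠ 0 := fun h0 => per (by
    have h0' : (d : ℝ) = -a := by exact_mod_cast (by omega : d = -a)
    have : A * A = 1 := by
      rw [h0'] at h'
      rw [hA, Sy_mul, h0', show (a : ℝ) * b + b * -a = 0 by ring,
        show (c : ℝ) * a + -a * c = 0 by ring]
      ext i j
      fin_cases i <;> fin_cases j <;> simp [Sy, -sq_eq_one_iff] <;>
        linear_combination h'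
    rw [show 6 = 2 * 3 from rfl, pow_mul, pow_two, this, one_pow])
  by_cases hτ : 3 ≤ (a + d) ^ 2 - 2 * (a * d - b * c)
  · have hτ' : (3 : ℝ) ≤ ((a : ℝ) + d) ^ 2 - 2 * (a * d - b * c) := by exact_mod_cast hτ
    generalize ((a : ℝ) + d) ^ 2 - 2 * (a * d - b * c) = τ at hτ' cu
    obtain ⟨L, l, hL, hl, hs⟩ : ∃ L l : ℝ, 1 < L ∧ L * l = 1 ∧ L + l = τ := by
      have := Real.sq_sqrt (show 0 ≤ τ ^ 2 - 4 by nlinarith)
      exact ⟨(τ + √(τ ^ 2 - 4)) / 2, (τ - √(τ ^ 2 - 4)) / 2,
        by linarith [Real.sqrt_nonneg (τ ^ 2 - 4)], by nlinarith, by ring⟩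
    have hi : Tendsto (fun j => l ^ m j) atTop (𝓝 0) :=
      (tendsto_pow_atTop_nhds_zero_of_lt_one (by nlinarith) (by nlinarith)).comp hm.tendsto_atTop
    set u := A - ((a : ℝ) * d - b * c) • 1 with hu
    have c1 : Commute u A := (Commute.refl A).sub_left ((Commute.one_left A).smul_left _)
    have c2 : Commute ((A - l • 1) * u) A :=
      ((Commute.refl A).sub_left ((Commute.one_left A).smul_left _)).mul_left c1
    have eig : ∀ (f : Matrix (Fin 3) (Fin 3) ℝ) (μ : ℝ), Commute f A →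
        A *ᵥ f *ᵥ p = μ • f *ᵥ p → ∀ k, f *ᵥ A ^ k *ᵥ p = μ ^ k • f *ᵥ p := fun f μ hf e k => by
      induction k with
      | zero => simp
      | succ k ih =>
        rw [pow_succ', mulVec_mulVec, ← mul_assoc, hf.eq, mul_assoc, ← mulVec_mulVec,
          ← mulVec_mulVec, ih, mulVec_smul, e, smul_smul, pow_succ]
    have e1 : A * ((A - l • 1) * u) = L • ((A - l • 1) * u) := by
      rw [← sub_eq_zero, ← cu, ← hs, ← mul_assoc, ← smul_mul_assoc, ← sub_mul]
      congr 1
      simp only [mul_sub, mul_smul_comm, mul_one, smul_sub, smul_smul, hl, one_smul, add_smul]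
      abel
    have e2 : ((A - l • 1) * u) *ᵥ p = 0 := by
      have := hi.smul (lim ((A - l • 1) * u) ht)
      rw [zero_smul] at this
      refine Z _ (this.congr fun j => ?_)
      rw [eig _ L c2 (by rw [mulVec_mulVec, e1, smul_mulVec]), smul_comm, smul_smul (l ^ m j),
        ← mul_pow, mul_comm l, hl, one_pow, one_smul]
    have e3 : u *ᵥ ![2 * β, 1, 0] = 0 := by
      have := (Bd _ hi).smul_const (u *ᵥ p)
      rw [zero_smul] at this
      refine tendsto_nhds_unique (lim u ht) (this.congr fun j => ?_)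
      rw [eig u l c1, smul_smul]
      rw [← mulVec_mulVec, sub_mulVec, smul_mulVec, one_mulVec, sub_eq_zero] at e2
      exact e2
    have f0 := congrFun e3 0
    have f1 := congrFun e3 1
    have f2 := congrFun e3 2
    simp [hu, hA, Sy, mulVec, dotProduct, Fin.sum_univ_three, one_apply] at f0 f1 f2
    by_cases hc : c = 0
    · subst hc
      have : (a * d) ^ 2 = 1 := by simpa using h
      have : a * a * (d * d) = 1 := by linarith
      have h5 := Int.eq_one_of_mul_eq_one_right (mul_self_nonneg a) this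
      have h6 := Int.eq_one_of_mul_eq_one_left (mul_self_nonneg d) this
      nlinarith
    · have hc' : (c : ℝ) ≠ 0 := by exact_mod_cast hc
      have : (c : ℝ) * (2 * (a * d - b * c)) = 0 := by linear_combination a * f2 - c * f1
      have := (mul_eq_zero.1 this).resolve_left hc'
      nlinarith
  have h0 := sq_pos_of_ne_zero tr0
  have hη : a * d - b * c = 1 := by
    rcases sq_eq_one_iff.1 h with h | h
    · exact h
    · omega
  have hη' : (a : ℝ) * d - b * c = 1 := by exact_mod_cast hη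
  rw [hη', one_smul] at cu
  have : (a + d) ^ 2 = 1 ∨ (a + d) ^ 2 = 4 := by
    have h1 : a + d < 3 := by nlinarith
    have h2 : -3 < a + d := by nlinarith
    generalize a + d = s at *
    interval_cases s <;> simp_all
  rcases this with h3 | h3
  · have h3' : ((a : ℝ) + d) ^ 2 = 1 := by exact_mod_cast h3
    refine per ?_
    have : A ^ 3 = 1 := by
      rw [← sub_eq_zero, ← cu, h3', show (1 : ℝ) - 2 * 1 = -1 by ring, neg_one_smul]
      noncomm_ring
    rw [show 6 = 3 * 2 from rfl, pow_mul, this, one_pow]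
  have h3' : ((a : ℝ) + d) ^ 2 = 4 := by exact_mod_cast h3
  rw [h3', show (4 : ℝ) - 2 * 1 = 2 by ring, two_smul] at cu
  have c1 : Commute (A - 1) A := (Commute.refl A).sub_left (Commute.one_left A)
  have e1 := lin (A - 1) c1 (by rw [← cu]; noncomm_ring)
  have e2 : ∀ k : ℕ, A ^ k *ᵥ p = p + (k : ℝ) • (A - 1) *ᵥ p := fun k => by
    induction k with
    | zero => simp
    | succ k ih =>
      have : A *ᵥ (A - 1) *ᵥ p = (A - 1) *ᵥ p := by
        rwa [← mulVec_mulVec, sub_mulVec, one_mulVec, sub_eq_zero] at e1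
      rw [pow_succ', ← mulVec_mulVec, ih, mulVec_add, mulVec_smul, this]
      simp only [Nat.cast_succ, add_smul, one_smul, sub_mulVec, one_mulVec]
      abel
  have hi : Tendsto (fun j => ((m j : ℝ))⁻¹) atTop (𝓝 0) :=
    tendsto_inv_atTop_zero.comp (tendsto_natCast_atTop_atTop.comp hm.tendsto_atTop)
  have := (hi.smul ht).sub ((Bd _ hi).smul_const p)
  rw [zero_smul, zero_smul, sub_zero] at this
  have e3 : (A - 1) *ᵥ p = 0 := by
    refine Z _ (this.congr' ?_)
    filter_upwards [hm.tendsto_atTop.eventually_gt_atTop 0] with j hj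
    have : (m j : ℝ) ≠ 0 := by positivity
    rw [e2]
    funext i
    simp only [Pi.sub_apply, Pi.smul_apply, Pi.add_apply, smul_eq_mul]
    field_simp
    ring
  exact hd 0 1 zero_ne_one 1 (by simp only [e2, e3, smul_zero, one_smul])

theorem appr {α : ℝ} (hα : Liouville α) (ε : ℝ) (hε : 0 < ε) : ∃ g : ℤ × ℤ × ℤ × ℤ,
    g.1 * g.2.2.2 - g.2.1 * g.2.2.1 = 1 ∧ 0 ≤ g.1 ∧ g.1 < g.2.2.1 ∧
    0 < |g.2.2.1 * (g.2.2.1 * α + g.2.2.2)| ∧ |g.2.2.1 * (g.2.2.1 * α + g.2.2.2)| < ε := by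
  obtain ⟨n, hn⟩ := exists_pow_lt_of_lt_one hε (by norm_num : (1 / 2 : ℝ) < 1)
  obtain ⟨u, v, hv, h1, h2⟩ := hα (n + 2)
  obtain ⟨k, c, d, hk, hc, rfl, rfl⟩ := Int.exists_gcd_one' (m := v) (n := u)
    (Int.gcd_pos_of_ne_zero_left _ (by omega))
  obtain ⟨x, y, hxy⟩ := Int.isCoprime_iff_gcd_eq_one.2 hc
  have c0 : 0 < c := by by_contra h; nlinarith
  have c1 : (0 : ℝ) < c := by exact_mod_cast c0
  have k1 : (1 : ℝ) ≤ k := by exact_mod_cast hk
  have v2 : (2 : ℝ) ≤ c * k := by exact_mod_cast hv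
  have e : (c : ℝ) * (c * α + (-d : ℤ)) = c ^ 2 * (α - (d * k : ℤ) / (c * k : ℤ)) := by
    push_cast; field_simp; ring
  refine ⟨(-y % c, -x - (-y / c) * (-d), c, -d), ?_, Int.emod_nonneg _ c0.ne',
    Int.emod_lt_of_pos _ c0, ?_, ?_⟩
  · simp only [Int.emod_def]; linear_combination hxy
  · simp only [e]
    exact abs_pos.2 (mul_ne_zero (by positivity) (sub_ne_zero.2 h1))
  · simp only [e, abs_mul, abs_of_pos (pow_pos c1 2)]
    refine lt_of_le_of_lt ((mul_le_mul_of_nonneg_left h2.le (by positivity)).trans ?_) hn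
    push_cast
    rw [_root_.one_div_pow, mul_one_div, div_le_div_iff₀ (by positivity) (by positivity), pow_add, one_mul,
      mul_comm]
    exact mul_le_mul (pow_le_pow_left₀ (by norm_num) v2 n) (pow_le_pow_left₀ c1.le (by nlinarith) 2)
      (by positivity) (by positivity)

theorem pos : ∃ (α β : ℝ) (a b c d : ℕ → ℤ), (∀ k, a k * d k - b k * c k = 1) ∧
    Ar (fun k => Sy (a k) (b k) (c k) (d k) *ᵥ ![2 * α, 1, 0]) ![2 * β, 1, 0] := by
  obtain ⟨α, hα⟩ : ∃ α, Liouville α := ⟨_, liouville_liouvilleNumber le_rfl⟩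
  choose g h1 h2 h3 h4 h5 using appr hα
  let e : ℕ → {x : ℝ // 0 < x} := fun n => Nat.rec ⟨1, one_pos⟩
    (fun _ x => ⟨|(g x.1 x.2).2.2.1 * ((g x.1 x.2).2.2.1 * α + (g x.1 x.2).2.2.2)| / 2,
      half_pos (h4 _ _)⟩) n
  obtain ⟨a, b, c, d, r, k1, k2, k3, k4, k5, k6⟩ : ∃ (a b c d : ℕ → ℤ) (r : ℕ → ℝ),
      (∀ k, a k * d k - b k * c k = 1) ∧ (∀ k, 0 ≤ a k) ∧ (∀ k, a k < c k) ∧
      (∀ k, r k = c k * (c k * α + d k)) ∧ (∀ k, 0 < |r k|) ∧ ∀ k, |r (k + 1)| < |r k| / 2 :=
    ⟨fun k => (g _ (e k).2).1, fun k => (g _ (e k).2).2.1, fun k => (g _ (e k).2).2.2.1,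
      fun k => (g _ (e k).2).2.2.2, _, fun _ => h1 _ _, fun _ => h2 _ _, fun _ => h3 _ _,
      fun _ => rfl, fun _ => h4 _ _, fun k => h5 _ (e (k + 1)).2⟩
  have c0 : ∀ k, (0 : ℝ) < c k := fun k => by exact_mod_cast (k2 k).trans_lt (k3 k)
  obtain ⟨β, _, φ, hφ, hβ⟩ := isCompact_Icc.tendsto_subseq (x := fun k => (a k : ℝ) / c k)
    (s := Set.Icc 0 1) fun k => ⟨div_nonneg (by exact_mod_cast k2 k) (c0 k).le,
      (div_le_one (c0 k)).2 (by exact_mod_cast (k3 k).le)⟩
  have an : StrictAnti fun k => |r k| := strictAnti_nat_of_succ_lt fun k => by linarith [k5 k, k6 k]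
  have r0 : Tendsto r atTop (𝓝 0) := by
    refine squeeze_zero_norm (fun k => ?_) (a := fun k => |r 0| * (1 / 2) ^ k) ?_
    · induction k with
      | zero => simp
      | succ k ih => rw [Real.norm_eq_abs] at *; rw [pow_succ]; linarith [k6 k]
    · simpa using (tendsto_pow_atTop_nhds_zero_of_lt_one (by norm_num : (0 : ℝ) ≤ 1 / 2)
        (by norm_num)).const_mul |r 0|
  have E : ∀ k, Sy (a k) (b k) (c k) (d k) *ᵥ ![2 * α, 1, 0] =
      ![2 * (a k / c k) * (a k / c k * r k - 1), 2 * (a k / c k) * r k - 1, 2 * r k] := fun k => by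
    have h : (a k : ℝ) * d k - b k * c k = 1 := by exact_mod_cast k1 k
    have := (c0 k).ne'
    funext i
    fin_cases i <;> simp [Sy, mulVec, dotProduct, Fin.sum_univ_three, k4] <;> field_simp
    · linear_combination -(a k : ℝ) * h
    · linear_combination -h
  refine ⟨α, β, a ∘ φ, b ∘ φ, c ∘ φ, d ∘ φ, fun k => k1 _, fun i j hij t ht => ?_, fun _ => -1, ?_⟩
  · have hq := congrArg Q ht
    have hq2 : ∀ v : V, Q (t • v) = t ^ 2 * Q v := fun v => by simp [Q]; ring
    have h : ∀ k, (a k : ℝ) * d k - b k * c k = 1 := fun k => by exact_mod_cast k1 k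
    simp only [hq2, Q_Sy, Function.comp, h] at hq
    have ht1 : |t| = 1 := by
      rw [← sq_eq_sq₀ (abs_nonneg _) zero_le_one, sq_abs]
      simpa [Q] using hq.symm
    simp only [Function.comp, E] at ht
    have := congrArg (fun v : V => |v 2|) ht
    simp [abs_mul, ht1] at this
    exact hij (hφ.injective (an.injective this))
  · simp only [Function.comp, E]
    have r1 := r0.comp hφ.tendsto_atTop
    rw [tendsto_pi_nhds]
    intro i
    fin_cases i
    · simpa using ((hβ.const_mul 2).mul ((hβ.mul r1).sub_const 1)).neg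
    · simpa using (((hβ.const_mul 2).mul r1).sub_const 1).neg
    · simpa using (r1.const_mul 2).neg

end Pool.Agent.H75.LimDir
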