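import Pool.Agent.H75.NMDefs
import Pool.Agent.H75.AF6

/-! Tracial states tending to zero give a proper nonmeagre ideal. -/

set_option autoImplicit false

namespace Pool.Agent.H75.NM

open Filter Topology MultiplierAlgebra

theorem thin (U : Ultrafilter ℕ) (hU : (U : Filter ℕ) ≤ atTop) (w : ℕ → ℕ → ℝ)
    (h1 : ∀ m (s : Finset ℕ), ∑ n ∈ s, w m n ≤ 1)
    (h2 : ∀ n, Tendsto (fun m => w m n) atTop (𝓝 0)) (h0 : ∀ m n, 0 ≤ w m n) :
    ∃ L : Set ℕ, L.Infinite ∧ ∀ ε > 0, ∀ᶠ m in U, ∀ s : Finset ℕ, (s : Set ℕ) ⊆ L →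
      ∑ n ∈ s, w m n ≤ ε := by
  classical
  let P : ℝ → Set ℕ → Prop := fun δ L => L.Infinite ∧ ∀ᶠ m in U, ∀ s : Finset ℕ,
    (s : Set ℕ) ⊆ L → ∑ n ∈ s, w m n ≤ δ
  have step : ∀ δ L, P δ L → ∃ L', L' ⊆ L ∧ P (δ / 2) L' := by
    rintro δ L ⟨hL, h⟩
    let f : ℕ → ℕ := fun n => hL.natEmbedding L n
    have fi : Function.Injective f := Subtype.val_injective.comp (hL.natEmbedding L).injective
    have fs : ∀ g : ℕ → ℕ, Set.range (f ∘ g) ⊆ L := by
      rintro g _ ⟨n, rfl⟩; exact (hL.natEmbedding L (g n)).2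
    by_contra hc
    push Not at hc
    have k : ∀ g : ℕ → ℕ, Function.Injective g → ∀ᶠ m in U, ∃ s : Finset ℕ,
        (s : Set ℕ) ⊆ Set.range (f ∘ g) ∧ δ / 2 < ∑ n ∈ s, w m n := fun g hg => by
      have := fun h' => hc _ (fs g) ⟨Set.infinite_range_of_injective (fi.comp hg), h'⟩
      rw [imp_false, ← Ultrafilter.eventually_not] at this
      exact this.mono fun m hm => by push Not at hm; exact hm
    obtain ⟨m, hm, ⟨s, s1, s2⟩, t, t1, t2⟩ := (h.and ((k (fun n => 2 * n) fun a b h => by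
      simp only at h; omega).and (k (fun n => 2 * n + 1) fun a b h => by
      simp only at h; omega))).exists
    have d : Disjoint s t := Finset.disjoint_left.2 fun x hx hx' => by
      obtain ⟨a, ha⟩ := s1 hx
      obtain ⟨b, hb⟩ := t1 hx'
      have := fi (ha.trans hb.symm)
      simp only at this
      omega
    have := hm (s ∪ t) (by rw [Finset.coe_union]; exact Set.union_subset (s1.trans (fs _)) (t1.trans (fs _)))
    rw [Finset.sum_union d] at this
    linarith
  choose! nx n1 n2 using step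
  obtain ⟨L, L0, L1⟩ : ∃ L : ℕ → Set ℕ, L 0 = Set.univ ∧ ∀ k, L (k + 1) = nx ((1 / 2) ^ k) (L k) :=
    ⟨fun k => Nat.rec Set.univ (fun k L => nx ((1 / 2) ^ k) L) k, rfl, fun _ => rfl⟩
  have hP : ∀ k, P ((1 / 2) ^ k) (L k) := fun k => by
    induction k with
    | zero => exact ⟨L0 ▸ Set.infinite_univ, Eventually.of_forall fun m s _ => h1 m s⟩
    | succ k ih =>
      rw [L1, show (1 / 2 : ℝ) ^ (k + 1) = (1 / 2) ^ k / 2 by ring]; exact n2 _ _ ih
  have an : Antitone L := antitone_nat_of_succ_le fun k => by rw [L1]; exact n1 _ _ (hP k)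
  choose x x1 x2 using fun k => (hP k).1.exists_gt k
  refine ⟨Set.range x, Set.infinite_of_not_bddAbove ?_, fun ε hε => ?_⟩
  · rintro ⟨b, hb⟩
    exact absurd (hb ⟨b, rfl⟩) (not_le.2 (x2 b))
  obtain ⟨k, hk⟩ := exists_pow_lt_of_lt_one (half_pos hε) (show (1 / 2 : ℝ) < 1 by norm_num)
  have : Tendsto (fun m => ∑ n ∈ (Finset.range k).image x, w m n) atTop (𝓝 0) := by
    simpa using tendsto_finsetSum ((Finset.range k).image x) fun n _ => h2 n
  filter_upwards [(hP k).2, hU (this.eventually (gt_mem_nhds (half_pos hε)))] with m hm hm' s hs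
  have e1 := hm (s \ (Finset.range k).image x) fun n hn => by
    obtain ⟨a, b⟩ := Finset.mem_sdiff.1 hn
    obtain ⟨j, rfl⟩ := hs a
    exact an (not_lt.1 fun h => b (Finset.mem_image_of_mem x (Finset.mem_range.2 h))) (x1 j)
  have e2 : ∑ n ∈ s, w m n ≤ ∑ n ∈ s \ (Finset.range k).image x, w m n +
      ∑ n ∈ (Finset.range k).image x, w m n := by
    rw [← Finset.sum_union Finset.sdiff_disjoint, Finset.sdiff_union_self_eq_union]
    exact Finset.sum_le_sum_of_subset_of_nonneg Finset.subset_union_left fun n _ _ => h0 m n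
  have e3 : ∑ n ∈ (Finset.range k).image x, w m n < ε / 2 := hm'
  linarith

variable {A : Type} [NonUnitalCStarAlgebra A]

theorem mext (m m' : 𝓜(ℂ, A)) (h : ∀ a, m.fst a = m'.fst a) : m = m' := by
  rw [← sub_eq_zero, ← norm_eq_zero, ← DoubleCentralizer.norm_fst, norm_eq_zero,
    DoubleCentralizer.sub_fst, sub_eq_zero]
  exact ContinuousLinearMap.ext h

theorem fst_mul (m : 𝓜(ℂ, A)) (a b : A) : m.fst (a * b) = m.fst a * b := by
  rw [← sub_eq_zero, ← CStarRing.star_mul_self_eq_zero_iff]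
  generalize star (m.fst (a * b) - m.fst a * b) = c
  rw [mul_sub, ← m.central, ← mul_assoc c, ← m.central, mul_assoc, sub_self]

theorem fst_le (m : 𝓜(ℂ, A)) (a : A) : ‖m.fst a‖ ≤ ‖m‖ * ‖a‖ :=
  DoubleCentralizer.norm_fst m ▸ m.fst.le_opNorm a

theorem star_fst_mul (m : 𝓜(ℂ, A)) (a b : A) :
    star (m.fst a) * b = star a * (star m).fst b := by
  rw [← star_star b, ← star_mul, ← m.central, star_mul, DoubleCentralizer.star_fst, star_star]

theorem sq_le (y : 𝓜(ℂ, A)) (u : A) :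
    ∃ v : A, star (y.fst u) * y.fst u + star v * v = ((‖y‖ ^ 2 : ℝ) : ℂ) • (star u * u) := by
  let := CStarAlgebra.spectralOrder 𝓜(ℂ, A)
  have := CStarAlgebra.spectralOrderedRing 𝓜(ℂ, A)
  obtain ⟨z, hz⟩ := CStarAlgebra.nonneg_iff_eq_star_mul_self.1
    (sub_nonneg.2 (CStarAlgebra.star_mul_le_algebraMap_norm_sq (a := y)))
  refine ⟨z.fst u, ?_⟩
  have e : star y * y + star z * z = ((‖y‖ ^ 2 : ℝ) : ℂ) • (1 : 𝓜(ℂ, A)) := by
    rw [← hz, add_sub_cancel, Algebra.algebraMap_eq_smul_one, Complex.coe_smul]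
  have := congrArg (fun m : 𝓜(ℂ, A) => star u * m.fst u) e
  simp only [DoubleCentralizer.add_fst, DoubleCentralizer.mul_fst, DoubleCentralizer.smul_fst,
    DoubleCentralizer.one_fst, _root_.add_apply, mul_apply_eq_comp,
    _root_.smul_apply, _root_.one_apply_eq_self, mul_add, mul_smul_comm] at this
  rw [star_fst_mul, star_fst_mul, this]

theorem strict (x : ℕ → A) (sa : ∀ N, IsSelfAdjoint (x N)) (hx : ∀ N, ‖x N‖ ≤ 1)
    (h1 : ∀ a, ∃ l, Tendsto (fun N => x N * a) atTop (𝓝 l)) :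
    ∃ m : 𝓜(ℂ, A), ∀ a, Tendsto (fun N => x N * a) atTop (𝓝 (m.fst a)) ∧
      Tendsto (fun N => a * x N) atTop (𝓝 (m.snd a)) := by
  obtain ⟨L, -, L2⟩ := AF.lim_clm (fun N => ContinuousLinearMap.mul ℂ A (x N)) 1 zero_le_one
    (fun N a => (norm_mul_le _ _).trans (mul_le_mul_of_nonneg_right (hx N) (norm_nonneg _))) h1
  obtain ⟨R, -, R2⟩ := AF.lim_clm (fun N => (ContinuousLinearMap.mul ℂ A).flip (x N)) 1 zero_le_one
    (fun N a => (norm_mul_le _ _).trans ((mul_comm _ _).le.trans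
      (mul_le_mul_of_nonneg_right (hx N) (norm_nonneg _)))) fun a => by
        obtain ⟨l, hl⟩ := h1 (star a)
        exact ⟨star l, hl.star.congr fun N => by
          rw [star_mul, star_star, (sa N).star_eq]; rfl⟩
  exact ⟨⟨(L, R), fun a b => tendsto_nhds_unique ((R2 a).mul_const b)
    (((L2 b).const_mul a).congr fun N => (mul_assoc _ _ _).symm)⟩, fun a => ⟨L2 a, R2 a⟩⟩

theorem abstract (τ : ℕ → A →L[ℂ] ℂ) (pos : ∀ m a, 0 ≤ (τ m (star a * a)).re)
    (tr : ∀ m a b, τ m (a * b) = τ m (b * a)) (nrm : ∀ m a, ‖τ m a‖ ≤ ‖a‖)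
    (zero : ∀ a, Tendsto (fun m => τ m a) atTop (𝓝 0))
    (big : ∀ m, ∃ a, ‖a‖ ≤ 1 ∧ 1 / 2 ≤ (τ m (star a * a)).re) :
    ∃ I : TwoSidedIdeal 𝓜(ℂ, A), IsClosed (I : Set 𝓜(ℂ, A)) ∧ I ≠ ⊤ ∧ Nonmeagre I := by
  classical
  obtain ⟨q, hq⟩ : ∃ q : ℕ → A → ℝ, ∀ m a, q m a = (τ m (star a * a)).re := ⟨_, fun _ _ => rfl⟩
  have q0 : ∀ m a, 0 ≤ q m a := fun m a => hq m a ▸ pos m a
  have q1 : ∀ m a, q m a ≤ ‖a‖ ^ 2 := fun m a => by
    rw [hq, sq, ← CStarRing.norm_star_mul_self]
    exact (Complex.re_le_norm _).trans (nrm _ _)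
  have qa : ∀ m a b, q m (a + b) ≤ 2 * q m a + 2 * q m b := fun m a b => by
    have : star (a + b) * (a + b) + star (a - b) * (a - b) =
        star a * a + star a * a + (star b * b + star b * b) := by
      rw [star_add, star_sub, add_mul, sub_mul, mul_add, mul_add, mul_sub, mul_sub]; abel
    have := congrArg (fun x => (τ m x).re) this
    simp only [map_add, Complex.add_re, ← hq] at this
    linarith [q0 m (a - b)]
  have ql : ∀ m (y : 𝓜(ℂ, A)) u, q m (y.fst u) ≤ ‖y‖ ^ 2 * q m u := fun m y u => by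
    obtain ⟨v, hv⟩ := sq_le y u
    have := congrArg (fun x => (τ m x).re) hv
    simp only [map_add, Complex.add_re, map_smul, smul_eq_mul, Complex.re_ofReal_mul, ← hq] at this
    linarith [q0 m v]
  have ql' : ∀ m b u, q m (b * u) ≤ ‖b‖ ^ 2 * q m u := fun m b u =>
    (ql m (DoubleCentralizer.coeHom b) u).trans (mul_le_mul_of_nonneg_right (pow_le_pow_left₀
      (norm_nonneg _) (NonUnitalStarAlgHom.norm_apply_le _ b) 2) (q0 m u))
  have qs : ∀ m u, q m (star u) = q m u := fun m u => by rw [hq, hq, star_star, tr]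
  have qr : ∀ m b u, q m (u * b) ≤ ‖b‖ ^ 2 * q m u := fun m b u => by
    rw [← qs, star_mul, ← qs m u, ← norm_star b]; exact ql' _ _ _
  let U : Ultrafilter ℕ := Ultrafilter.of atTop
  have hU : (U : Filter ℕ) ≤ atTop := Ultrafilter.of_le _
  obtain ⟨I, mI⟩ : ∃ I : TwoSidedIdeal 𝓜(ℂ, A), ∀ x, x ∈ I ↔
      ∀ ε > 0, ∀ᶠ m in U, ∀ a, q m (x.fst a) ≤ ε * ‖a‖ ^ 2 := by
    refine ⟨TwoSidedIdeal.mk' {x | ∀ ε > 0, ∀ᶠ m in U, ∀ a, q m (x.fst a) ≤ ε * ‖a‖ ^ 2}
      (fun ε hε => Eventually.of_forall fun m a => ?_) (fun {x y} hx hy ε hε => ?_)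
      (fun {x} hx ε hε => ?_) (fun {x y} hy ε hε => ?_) (fun {x y} hx ε hε => ?_),
      fun x => TwoSidedIdeal.mem_mk' _ _ _ _ _ _ x⟩
    · refine (q1 _ _).trans ?_
      rw [DoubleCentralizer.zero_fst, _root_.zero_apply, norm_zero]
      norm_num
      positivity
    · filter_upwards [hx (ε / 4) (by positivity), hy (ε / 4) (by positivity)] with m h1 h2 a
      rw [DoubleCentralizer.add_fst, _root_.add_apply]
      linarith [qa m (x.fst a) (y.fst a), h1 a, h2 a]
    · filter_upwards [hx ε hε] with m h1 a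
      rw [DoubleCentralizer.neg_fst, _root_.neg_apply, hq, star_neg, neg_mul_neg, ← hq]
      exact h1 a
    · filter_upwards [hy (ε / (‖x‖ ^ 2 + 1)) (by positivity)] with m h1 a
      rw [DoubleCentralizer.mul_fst, mul_apply_eq_comp]
      refine (ql _ _ _).trans ((mul_le_mul_of_nonneg_left (h1 a) (by positivity)).trans ?_)
      rw [← mul_assoc]
      refine mul_le_mul_of_nonneg_right ?_ (by positivity)
      rw [mul_div_assoc', div_le_iff₀ (by positivity)]
      nlinarith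
    · filter_upwards [hx (ε / (‖y‖ ^ 2 + 1)) (by positivity)] with m h1 a
      rw [DoubleCentralizer.mul_fst, mul_apply_eq_comp]
      refine (h1 _).trans ((mul_le_mul_of_nonneg_left (pow_le_pow_left₀ (norm_nonneg _)
        (fst_le y a) 2) (by positivity)).trans ?_)
      rw [mul_pow, ← mul_assoc]
      refine mul_le_mul_of_nonneg_right ?_ (by positivity)
      rw [div_mul_eq_mul_div, div_le_iff₀ (by positivity)]
      nlinarith
  refine ⟨I, ?_, fun h => ?_, fun b => (mI _).2 fun ε hε => ?_, fun e he c hc c0 => ?_⟩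
  · refine isClosed_of_closure_subset fun x hx => (mI x).2 fun ε hε => ?_
    obtain ⟨y, hy, hd⟩ := Metric.mem_closure_iff.1 hx √(ε / 4) (by positivity)
    rw [dist_eq_norm, Real.lt_sqrt (norm_nonneg _)] at hd
    filter_upwards [(mI y).1 hy (ε / 4) (by positivity)] with m h1 a
    have e1 : x.fst a = y.fst a + (x - y).fst a := by
      rw [DoubleCentralizer.sub_fst, _root_.sub_apply, add_sub_cancel]
    have e2 := (q1 m _).trans (pow_le_pow_left₀ (norm_nonneg _) (fst_le (x - y) a) 2)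
    rw [mul_pow] at e2
    rw [e1]
    nlinarith [qa m (y.fst a) ((x - y).fst a), h1 a, sq_nonneg ‖a‖]
  · obtain ⟨m, hm⟩ := ((mI 1).1 (h ▸ TwoSidedIdeal.mem_top _) (1 / 4) (by norm_num)).exists
    obtain ⟨a, a1, a2⟩ := big m
    have := hm a
    rw [DoubleCentralizer.one_fst, _root_.one_apply_eq_self, hq] at this
    nlinarith [norm_nonneg a]
  · have := (Complex.continuous_re.tendsto 0).comp (zero (star b * b))
    filter_upwards [hU (this.eventually (gt_mem_nhds (show (0 : ℂ).re < ε from hε)))] with m h1 a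
    refine (qr m a b).trans ?_
    rw [mul_comm, hq]
    exact mul_le_mul_of_nonneg_right (le_of_lt h1) (by positivity)
  let := CStarAlgebra.spectralOrder A
  have := CStarAlgebra.spectralOrderedRing A
  have tp : ∀ m y, 0 ≤ y → 0 ≤ (τ m y).re := fun m y hy => by
    obtain ⟨b, rfl⟩ := CStarAlgebra.nonneg_iff_eq_star_mul_self.1 hy
    exact pos m b
  have sq : ∀ y : A, 0 ≤ y → ‖y‖ ≤ 1 → y * y ≤ y := fun y hy h1 => by
    obtain ⟨b, rfl⟩ := CStarAlgebra.nonneg_iff_eq_star_mul_self.1 hy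
    have := CStarAlgebra.star_left_conjugate_le_norm_smul (a := b) (b := b * star b)
    rw [mul_assoc, mul_assoc, ← mul_assoc (star b), CStarRing.norm_self_mul_star,
      ← CStarRing.norm_star_mul_self] at this
    exact this.trans (smul_le_of_le_one_left hy h1)
  have e0 : ∀ n, 0 ≤ e n := fun n => by
    obtain ⟨b, hb⟩ := (he.1 n).1
    exact hb ▸ star_mul_self_nonneg b
  have em : Monotone e := monotone_nat_of_le_succ fun n => by
    have h1 := (he.1 n).2.2
    have h2 := AF.swap (IsSelfAdjoint.of_nonneg (e0 _)) (IsSelfAdjoint.of_nonneg (e0 _)) h1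
    have : e (n + 1) - e n = star (e (n + 1) - e n) * (e (n + 1) - e n) +
        (e (n + 1) - e (n + 1) * e (n + 1)) + (e n - e n * e n) := by
      rw [star_sub, (IsSelfAdjoint.of_nonneg (e0 _)).star_eq,
        (IsSelfAdjoint.of_nonneg (e0 _)).star_eq, sub_mul, mul_sub, mul_sub, h1, h2]
      abel
    rw [← sub_nonneg, this]
    exact add_nonneg (add_nonneg (star_mul_self_nonneg _)
      (sub_nonneg.2 (sq _ (e0 _) (he.1 _).2.1))) (sub_nonneg.2 (sq _ (e0 _) (he.1 _).2.1))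
  have pm : Monotone (prev e) := monotone_nat_of_le_succ fun n => by
    cases n with
    | zero => exact e0 0
    | succ n => exact em (Nat.le_succ n)
  obtain ⟨f, hf⟩ : ∃ f : ℕ → A, f = fun n => prev e (c n) := ⟨_, rfl⟩
  have fm : Monotone f := hf ▸ pm.comp hc.monotone
  have f0 : f 0 = 0 := by rw [hf]; simp only [c0]; rfl
  have f1 : ∀ n, ‖f n‖ ≤ 1 := fun n => by
    rw [hf]
    simp only
    cases c n with
    | zero => exact norm_zero.le.trans zero_le_one
    | succ k => exact (he.1 k).2.1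
  have fa : ∀ a, Tendsto (fun n => f n * a) atTop (𝓝 a) := fun a => by
    rw [hf]
    exact ((tendsto_add_atTop_iff_nat (f := fun n => prev e n * a) 1).1 (he.2 a).1).comp
      hc.tendsto_atTop
  obtain ⟨g, hg⟩ : ∃ g : ℕ → A, g = fun n => f (n + 1) - f n := ⟨_, rfl⟩
  have g0 : ∀ n, 0 ≤ g n := fun n => hg ▸ sub_nonneg.2 (fm (Nat.le_succ n))
  have gs : ∀ N N', N ≤ N' → ∑ n ∈ Finset.Ico N N', g n = f N' - f N := fun N N' h =>
    hg ▸ Finset.sum_Ico_sub f h
  have gn : ∀ s : Finset ℕ, ‖∑ n ∈ s, g n‖ ≤ 1 := fun s => by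
    obtain ⟨N, hN⟩ := s.exists_nat_subset_range
    refine (CStarAlgebra.norm_le_norm_of_nonneg_of_le (Finset.sum_nonneg fun n _ => g0 n)
      (Finset.sum_le_sum_of_subset_of_nonneg hN fun n _ _ => g0 n)).trans ?_
    rw [Finset.range_eq_Ico, gs 0 N (Nat.zero_le _), f0, sub_zero]
    exact f1 N
  obtain ⟨L, L1, L2⟩ := thin U hU (fun m n => (τ m (g n)).re) (fun m s => by
    rw [← Complex.re_sum, ← map_sum]
    exact (Complex.re_le_norm _).trans ((nrm _ _).trans (gn s)))
    (fun n => (Complex.continuous_re.tendsto 0).comp (zero (g n))) fun m n => tp m _ (g0 n)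
  have i0 : ∀ n, 0 ≤ L.indicator g n := fun n => Set.indicator_nonneg (fun n _ => g0 n) n
  have i1 : ∀ n, L.indicator g n ≤ g n := fun n => Set.indicator_le_self' (fun n _ => g0 n) n
  obtain ⟨y, hy⟩ : ∃ y : ℕ → A, ∀ N, y N = ∑ n ∈ Finset.range N, L.indicator g n :=
    ⟨_, fun _ => rfl⟩
  have ys : ∀ N, y N = ∑ n ∈ (Finset.range N).filter (· ∈ L), g n := fun N => by
    rw [hy, Finset.sum_filter]
    exact Finset.sum_congr rfl fun n _ => Set.indicator_apply _ _ _
  have y0 : ∀ N, 0 ≤ y N := fun N => hy N ▸ Finset.sum_nonneg fun n _ => i0 n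
  obtain ⟨m, hm⟩ := strict y (fun N => IsSelfAdjoint.of_nonneg (y0 N)) (fun N => ys N ▸ gn _)
    fun a => by
      refine cauchySeq_tendsto_of_complete (Metric.cauchySeq_iff'.2 fun ε hε => ?_)
      obtain ⟨N, hN⟩ := Metric.cauchySeq_iff'.1 (fa a).cauchySeq (ε ^ 2 / (‖a‖ + 1))
        (by positivity)
      refine ⟨N, fun k hk => ?_⟩
      have := hN k hk
      rw [dist_eq_norm, lt_div_iff₀ (by positivity), ← sub_mul, ← gs N k hk] at this
      rw [dist_eq_norm, ← sub_mul, hy, hy, ← Finset.sum_Ico_eq_sub _ hk]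
      have z0 : 0 ≤ ∑ n ∈ Finset.Ico N k, L.indicator g n := Finset.sum_nonneg fun n _ => i0 n
      have z1 : ∑ n ∈ Finset.Ico N k, L.indicator g n ≤ ∑ n ∈ Finset.Ico N k, g n :=
        Finset.sum_le_sum fun n _ => i1 n
      have z2 := (CStarAlgebra.norm_le_norm_of_nonneg_of_le z0 z1).trans (gn _)
      generalize ∑ n ∈ Finset.Ico N k, L.indicator g n = z at z0 z1 z2
      refine (sq_lt_sq₀ (norm_nonneg _) hε.le).1 (lt_of_le_of_lt ?_ this)
      rw [pow_two, ← CStarRing.norm_star_mul_self]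
      refine (CStarAlgebra.norm_le_norm_of_nonneg_of_le (star_mul_self_nonneg _)
        (b := star a * (∑ n ∈ Finset.Ico N k, g n) * a) ?_).trans ?_
      · rw [star_mul, (IsSelfAdjoint.of_nonneg z0).star_eq, ← mul_assoc, mul_assoc (star a)]
        exact star_left_conjugate_le_conjugate ((sq z z0 z2).trans z1) a
      · rw [mul_assoc, mul_comm]
        refine (norm_mul_le _ _).trans (mul_le_mul_of_nonneg_right ?_ (norm_nonneg _))
        rw [norm_star]; linarith
  refine ⟨L, L1, m, (mI m).2 fun ε hε => ?_, ?_⟩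
  · filter_upwards [L2 ε hε] with j hj a
    have ct : Continuous (q j) := by
      rw [show q j = fun a => (τ j (star a * a)).re from funext (hq j)]
      fun_prop
    refine le_of_tendsto' ((ct.tendsto _).comp (hm a).1) fun N => (qr j a _).trans ?_
    rw [mul_comm]
    refine mul_le_mul_of_nonneg_right ?_ (by positivity)
    have h1 := tp j _ (sub_nonneg.2 (sq _ (y0 N) (ys N ▸ gn _)))
    have h2 := hj ((Finset.range N).filter (· ∈ L)) fun n hn => (Finset.mem_filter.1 hn).2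
    rw [← Complex.re_sum, ← map_sum, ← ys] at h2
    rw [map_sub, Complex.sub_re] at h1
    rw [hq, (IsSelfAdjoint.of_nonneg (y0 N)).star_eq]
    linarith
  · intro a
    have := hm a
    simp only [hy, hg, hf] at this
    exact this

end Pool.Agent.H75.NM
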