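import Mathlib

/-! Path counting for a Bratteli diagram. -/

set_option autoImplicit false

namespace Pool.Agent.H75.NM

open Finset

/-- Classical filter. -/
noncomputable def flt {α : Type} (s : Finset α) (P : α → Prop) : Finset α :=
  @Finset.filter _ P (Classical.decPred P) s

theorem mem_flt {α : Type} {s : Finset α} {P : α → Prop} {x : α} : x ∈ flt s P ↔ x ∈ s ∧ P x :=
  @Finset.mem_filter _ P (Classical.decPred P) s x

open Classical in
theorem card_flt {α : Type} (s : Finset α) (P : α → Prop) :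
    (flt s P).card = ∑ x ∈ s, if P x then 1 else 0 := by
  rw [flt, @Finset.card_filter _ P (Classical.decPred P)]

open Classical in
/-- Finite paths of length `N`, extended by zero. -/
noncomputable def W : ℕ → Finset (ℕ → ℕ)
  | 0 => {0}
  | N + 1 => ((W N) ×ˢ range (2 ^ N * (W N).card + N + 2 + 2 ^ N)).image
      fun z => Function.update z.1 N z.2

/-- Number of diagonal edges. -/
noncomputable def M (N : ℕ) : ℕ := 2 ^ N * (W N).card

/-- End vertex of a path. -/
noncomputable def r : ℕ → (ℕ → ℕ) → ℕ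
  | 0, _ => 0
  | n + 1, x => if x n < M n then r n x else min (x n - M n) (n + 1)

/-- No restart from level `n` on. -/
def ok (n : ℕ) (x : ℕ → ℕ) : Prop := ∀ i, n ≤ i → x i < M i + i + 2

theorem mem_W {N : ℕ} {x : ℕ → ℕ} :
    x ∈ W N ↔ (∀ i < N, x i < M i + i + 2 + 2 ^ i) ∧ ∀ i, N ≤ i → x i = 0 := by
  induction N generalizing x with
  | zero => simp [W, funext_iff]
  | succ N ih =>
    classical
    rw [W, mem_image]
    constructor
    · rintro ⟨⟨y, l⟩, h, rfl⟩
      obtain ⟨h1, h2⟩ := mem_product.1 h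
      refine ⟨fun i hi => ?_, fun i hi => ?_⟩
      · rcases (Nat.le_of_lt_succ hi).eq_or_lt with rfl | hi
        · simpa [M] using h2
        · rw [Function.update_of_ne hi.ne]; exact (ih.1 h1).1 i hi
      · rw [Function.update_of_ne (by omega)]; exact (ih.1 h1).2 i (by omega)
    · rintro ⟨h1, h2⟩
      refine ⟨(Function.update x N 0, x N), mem_product.2 ⟨ih.2 ⟨fun i hi => ?_, fun i hi => ?_⟩,
        mem_range.2 (h1 N (by omega))⟩, by simp⟩
      · simp only [Function.update_of_ne hi.ne]; exact h1 i (by omega)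
      · rcases hi.eq_or_lt with rfl | hi
        · simp
        · simp only [Function.update_of_ne hi.ne']; exact h2 i hi

theorem upd_mem {N l : ℕ} {x : ℕ → ℕ} (hx : x ∈ W N) (hl : l < M N + N + 2 + 2 ^ N) :
    Function.update x N l ∈ W (N + 1) := by
  classical
  rw [W, mem_image]
  exact ⟨(x, l), mem_product.2 ⟨hx, mem_range.2 hl⟩, rfl⟩

theorem zero_mem_W (N : ℕ) : 0 ∈ W N := mem_W.2 ⟨fun i _ => by simp, fun _ _ => rfl⟩

theorem M_pos (N : ℕ) : 0 < M N := Nat.mul_pos (by positivity) (card_pos.2 ⟨0, zero_mem_W N⟩)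

theorem r_congr {n : ℕ} {x y : ℕ → ℕ} (h : ∀ i < n, x i = y i) : r n x = r n y := by
  induction n with
  | zero => rfl
  | succ n ih => rw [r, r, h n (by omega), ih fun i hi => h i (by omega)]

theorem r_le (n : ℕ) (x : ℕ → ℕ) : r n x ≤ n := by
  induction n with
  | zero => exact le_rfl
  | succ n ih => rw [r]; split_ifs <;> omega

theorem r_upd (N l : ℕ) (x : ℕ → ℕ) :
    r (N + 1) (Function.update x N l) = if l < M N then r N x else min (l - M N) (N + 1) := by
  rw [r, Function.update_self, r_congr (y := x) fun i hi => Function.update_of_ne hi.ne _ _]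

theorem card_W (N : ℕ) (P : (ℕ → ℕ) → Prop) : (flt (W (N + 1)) P).card =
    ∑ x ∈ W N, (flt (range (M N + N + 2 + 2 ^ N)) fun l => P (Function.update x N l)).card := by
  classical
  rw [card_flt, W, sum_image, sum_product]
  · exact sum_congr rfl fun x _ => by rw [card_flt]; rfl
  · rintro ⟨x, l⟩ h ⟨y, k⟩ h' e
    have e1 : l = k := by simpa using congrFun e N
    have hx := (mem_W.1 (mem_product.1 h).1).2 N le_rfl
    have hy := (mem_W.1 (mem_product.1 h').1).2 N le_rfl
    refine Prod.ext (funext fun i => ?_) e1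
    by_cases hi : i = N
    · rw [hi]; exact hx.trans hy.symm
    · simpa [Function.update_of_ne hi] using congrFun e i

/-- Number of paths ending at `m` and satisfying `Q`. -/
noncomputable def cnt (Q : (ℕ → ℕ) → Prop) (m N : ℕ) : ℕ :=
  (flt (W N) fun x => r N x = m ∧ Q x).card

theorem cnt_le {Q : (ℕ → ℕ) → Prop} {m N : ℕ} (hm : m ≤ N)
    (hQ : ∀ x l, x N = 0 → l < M N → Q (Function.update x N l) → Q x) :
    cnt Q m (N + 1) ≤ M N * cnt Q m N + (W N).card := by
  classical
  rw [cnt, card_W, cnt, card_flt, mul_sum, card_eq_sum_ones (W N), ← sum_add_distrib]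
  refine sum_le_sum fun x hx => ?_
  refine (card_le_card (t := insert (M N + m) (if r N x = m ∧ Q x then range (M N) else ∅))
    fun l hl => ?_).trans ((card_insert_le _ _).trans ?_)
  · obtain ⟨-, h1, h2⟩ := mem_flt.1 hl
    rw [r_upd] at h1
    split_ifs at h1 with h
    · rw [if_pos ⟨h1, hQ x l ((mem_W.1 hx).2 N le_rfl) h h2⟩]
      exact mem_insert_of_mem (mem_range.2 h)
    · exact mem_insert.2 (Or.inl (by omega))
  · split_ifs <;> simp

theorem le_cnt (m N : ℕ) : M N * cnt (fun _ => True) m N ≤ cnt (fun _ => True) m (N + 1) := by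
  classical
  rw [cnt, cnt, card_W, card_flt, mul_sum]
  refine sum_le_sum fun x hx => ?_
  split_ifs with h
  · rw [mul_one]
    nth_rewrite 1 [← card_range (M N)]
    refine card_le_card fun l hl => mem_flt.2 ⟨mem_range.2 ?_, ?_, trivial⟩
    · have := mem_range.1 hl
      have := Nat.two_pow_pos N
      omega
    · rw [r_upd, if_pos (mem_range.1 hl), h.1]
  · simp

theorem cnt_pos {m N : ℕ} (h : m ≤ N + 1) : 0 < cnt (fun _ => True) m (N + 1) := by
  classical
  refine card_pos.2 ⟨_, mem_flt.2 ⟨upd_mem (l := M N + m) (zero_mem_W N)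
    (by have := Nat.two_pow_pos N; omega), ?_, trivial⟩⟩
  rw [r_upd, if_neg (by omega)]
  omega

theorem ratio {Q : (ℕ → ℕ) → Prop} {m K : ℕ} (hm : m ≤ K + 1) {δ : ℝ} (hδ : 0 ≤ δ)
    (hQ : ∀ N, K + 1 ≤ N → ∀ x l, x N = 0 → l < M N → Q (Function.update x N l) → Q x)
    (h0 : (cnt Q m (K + 1) : ℝ) ≤ δ * cnt (fun _ => True) m (K + 1)) {N : ℕ} (hN : K + 1 ≤ N) :
    (cnt Q m N : ℝ) ≤ (δ + (1 / 2) ^ K) * cnt (fun _ => True) m N := by
  have : (cnt Q m N : ℝ) ≤ (δ + ((1 / 2) ^ K - 2 * (1 / 2) ^ N)) * cnt (fun _ => True) m N := by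
    induction N, hN using Nat.le_induction with
    | base => rw [pow_succ]; linarith
    | succ N hN ih =>
      have h1 : (cnt Q m (N + 1) : ℝ) ≤ M N * cnt Q m N + (W N).card := by
        exact_mod_cast cnt_le (hm.trans hN) (hQ N hN)
      have h2 : (M N : ℝ) * cnt (fun _ => True) m N ≤ cnt (fun _ => True) m (N + 1) := by
        exact_mod_cast le_cnt m N
      have h3 : (1 : ℝ) ≤ cnt (fun _ => True) m N := by
        obtain ⟨N, rfl⟩ := Nat.exists_eq_add_one_of_ne_zero (show N ≠ 0 by omega)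
        exact_mod_cast cnt_pos (hm.trans hN)
      have h4 : ((W N).card : ℝ) = (1 / 2) ^ N * M N := by
        rw [M]; push_cast; rw [← mul_assoc, ← mul_pow]; norm_num
      have h5 : (0 : ℝ) < M N := by exact_mod_cast M_pos N
      have h6 : (1 / 2 : ℝ) ^ N ≤ (1 / 2) ^ (K + 1) :=
        pow_le_pow_of_le_one (by norm_num) (by norm_num) hN
      have h7 : (0 : ℝ) < (1 / 2) ^ N := by positivity
      rw [pow_succ] at h6 ⊢
      refine le_trans ?_ (mul_le_mul_of_nonneg_left h2 (by linarith))
      have h8 := mul_le_mul_of_nonneg_left ih h5.le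
      have h9 := mul_le_mul_of_nonneg_left h3 (mul_pos h7 h5).le
      nlinarith
  refine this.trans (mul_le_mul_of_nonneg_right ?_ (Nat.cast_nonneg _))
  have : (0 : ℝ) < (1 / 2) ^ N := by positivity
  linarith

theorem est_big (m : ℕ) {N : ℕ} (hN : m + 2 ≤ N) :
    (cnt (fun x => ¬ ok (m + 2) x) m N : ℝ) ≤ 1 / 2 * cnt (fun _ => True) m N := by
  have a1 : ∀ N, m + 1 + 1 ≤ N → ∀ x l, x N = 0 → l < M N →
      ¬ ok (m + 2) (Function.update x N l) → ¬ ok (m + 2) x :=
    fun N hN x l h0 hl h h' => h fun i hi => by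
      by_cases e : i = N
      · rw [e, Function.update_self]; omega
      · rw [Function.update_of_ne e]; exact h' i hi
  have a2 : cnt (fun x => ¬ ok (m + 2) x) m (m + 1 + 1) = 0 :=
    card_eq_zero.2 (eq_empty_of_forall_notMem fun x hx => (mem_flt.1 hx).2.2 fun i hi => by
      rw [(mem_W.1 (mem_flt.1 hx).1).2 i hi]; omega)
  refine (ratio (K := m + 1) (δ := 0) (by omega) le_rfl a1 (by rw [a2]; simp) hN).trans
    (mul_le_mul_of_nonneg_right ?_ (Nat.cast_nonneg _))
  · rw [zero_add, pow_succ]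
    exact mul_le_of_le_one_left (by norm_num) (pow_le_one₀ (by norm_num) (by norm_num))

theorem est_small {k j N : ℕ} (hk : k ≤ j) (hN : j + 1 ≤ N) :
    (cnt (ok k) (j + 1) N : ℝ) ≤ 2 * (1 / 2) ^ j * cnt (fun _ => True) (j + 1) N := by
  classical
  rw [two_mul]
  refine ratio le_rfl (by positivity) (fun N hN x l h0 hl h i hi => ?_) ?_ hN
  · by_cases e : i = N
    · rw [e, h0]; omega
    · have := h i hi
      rwa [Function.update_of_ne e] at this
  have h1 : cnt (ok k) (j + 1) (j + 1) ≤ (W j).card := by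
    rw [cnt, card_W, card_eq_sum_ones (W j)]
    refine sum_le_sum fun x hx => (card_le_card (t := {M j + j + 1}) fun l hl => ?_).trans (by simp)
    obtain ⟨-, h1, h2⟩ := mem_flt.1 hl
    have := h2 j hk
    have := r_le j x
    rw [Function.update_self] at *
    rw [r_upd] at h1
    rw [mem_singleton]
    split_ifs at h1 <;> omega
  have h2 : 2 ^ j * (W j).card ≤ cnt (fun _ => True) (j + 1) (j + 1) := by
    rw [cnt, card_W, card_eq_sum_ones (W j), mul_sum]
    refine sum_le_sum fun x hx => le_trans ?_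
      (card_le_card (s := Ico (M j + j + 2) (M j + j + 2 + 2 ^ j)) fun l hl => ?_)
    · simp
    · have := mem_Ico.1 hl
      refine mem_flt.2 ⟨mem_range.2 this.2, ?_, trivial⟩
      rw [r_upd, if_neg (by omega)]
      omega
  have h1' : (cnt (ok k) (j + 1) (j + 1) : ℝ) ≤ (W j).card := by exact_mod_cast h1
  have h2' : (2 : ℝ) ^ j * (W j).card ≤ cnt (fun _ => True) (j + 1) (j + 1) := by exact_mod_cast h2
  refine h1'.trans (le_trans (le_of_eq ?_) (mul_le_mul_of_nonneg_left h2' (by positivity)))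
  rw [← mul_assoc, ← mul_pow]; norm_num

end Pool.Agent.H75.NM
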