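import Pool.Agent.H75.NM2
import Pool.Agent.H75.AF3

/-! Matrix units on the path space. -/

set_option autoImplicit false

namespace Pool.Agent.H75.NM

open Finset

/-- The Hilbert space over the path space. -/
noncomputable abbrev H := lp (fun _ : ℕ → ℕ => ℂ) 2

/-- Bounded operators. -/
abbrev B := H →L[ℂ] H

theorem sum_le (x : H) (s : Finset (ℕ → ℕ)) : ∑ i ∈ s, ‖x i‖ ^ 2 ≤ ‖x‖ ^ 2 := by
  have := lp.sum_rpow_le_norm_rpow (p := 2) (by norm_num) x s
  simpa using this

open Classical in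
theorem aux (P : (ℕ → ℕ) → Prop) (σ : (ℕ → ℕ) → ℕ → ℕ) (hσ : Set.InjOn σ {n | P n})
    (x : H) (s : Finset (ℕ → ℕ)) : ∑ i ∈ s, ‖if P i then x (σ i) else 0‖ ^ 2 ≤ ‖x‖ ^ 2 := by
  rw [← sum_filter_of_ne (p := P) (by intro i _ h; by_contra h0; simp [h0] at h)]
  refine le_trans ?_ (sum_le x ((s.filter P).image σ))
  rw [sum_image (s := s.filter P) (g := σ)
    (fun a ha b hb h => hσ (mem_filter.1 ha).2 (mem_filter.1 hb).2 h)]
  exact sum_le_sum fun i hi => by rw [if_pos (mem_filter.1 hi).2]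

open Classical in
/-- Composition operator of a map injective on `P`. -/
noncomputable def wc (P : (ℕ → ℕ) → Prop) (σ : (ℕ → ℕ) → ℕ → ℕ) (hσ : Set.InjOn σ {n | P n}) : B :=
  LinearMap.mkContinuous
    { toFun := fun x => ⟨fun n => if P n then x (σ n) else 0, memℓp_gen' (C := ‖x‖ ^ 2) fun s => by
        simpa using aux P σ hσ x s⟩
      map_add' := fun x y => by ext n; by_cases h : P n <;> simp [h]
      map_smul' := fun c x => by ext n; by_cases h : P n <;> simp [h] } 1 fun x => by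
    rw [one_mul]
    refine lp.norm_le_of_forall_sum_le (p := 2) (by norm_num) (norm_nonneg _) fun s => ?_
    simpa using aux P σ hσ x s

/-- Replace the first `n` coordinates of `x` by those of `p`. -/
def spl (n : ℕ) (p x : ℕ → ℕ) : ℕ → ℕ := fun i => if i < n then p i else x i

/-- Agreement below `n`. -/
def ag (n : ℕ) (p x : ℕ → ℕ) : Prop := ∀ i < n, x i = p i

/-- Matrix unit of level `n`. -/
noncomputable def E (n : ℕ) (p q : ℕ → ℕ) : B :=
  wc (fun x => ag n p x ∧ ok n x) (spl n q) fun x hx y hy h => funext fun i => by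
    by_cases hi : i < n
    · rw [hx.1 i hi, hy.1 i hi]
    · simpa [spl, hi] using congrFun h i

open Classical in
theorem E_apply (n : ℕ) (p q : ℕ → ℕ) (f : H) (x : ℕ → ℕ) :
    E n p q f x = if ag n p x ∧ ok n x then f (spl n q x) else 0 := by
  change (@ite _ (ag n p x ∧ ok n x) (Classical.propDecidable _) _ _) = _
  congr

theorem ok_spl {n : ℕ} {q x : ℕ → ℕ} : ok n (spl n q x) ↔ ok n x :=
  forall_congr' fun i => forall_congr' fun hi => by rw [spl, if_neg (not_lt.2 hi)]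

theorem ag_spl {n : ℕ} {p q x : ℕ → ℕ} : ag n p (spl n q x) ↔ ag n p q :=
  forall_congr' fun i => forall_congr' fun hi => by rw [spl, if_pos hi]

theorem spl_spl (n : ℕ) (p q x : ℕ → ℕ) : spl n p (spl n q x) = spl n p x :=
  funext fun i => by by_cases hi : i < n <;> simp [spl, hi]

theorem spl_ag {n : ℕ} {p x : ℕ → ℕ} (h : ag n p x) : spl n p x = x :=
  funext fun i => by
    by_cases hi : i < n
    · rw [spl, if_pos hi, h i hi]
    · rw [spl, if_neg hi]

theorem ag_refl (n : ℕ) (p : ℕ → ℕ) : ag n p p := fun _ _ => rfl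

theorem eq_of_ag {n : ℕ} {p q : ℕ → ℕ} (hp : p ∈ W n) (hq : q ∈ W n) (h : ag n p q) : p = q :=
  funext fun i => by
    rcases lt_or_ge i n with hi | hi
    · exact (h i hi).symm
    · rw [(mem_W.1 hp).2 i hi, (mem_W.1 hq).2 i hi]

theorem E_mul (n : ℕ) (p q s : ℕ → ℕ) : E n p q * E n q s = E n p s := by
  ext f x
  rw [mul_apply_eq_comp, E_apply, E_apply, E_apply]
  by_cases h : ag n p x ∧ ok n x
  · rw [if_pos h, if_pos h, if_pos ⟨ag_spl.2 (ag_refl _ _), ok_spl.2 h.2⟩, spl_spl]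
  · rw [if_neg h, if_neg h]

theorem E_mul_ne {n : ℕ} {q q' : ℕ → ℕ} (hq : q ∈ W n) (hq' : q' ∈ W n) (h : q ≠ q')
    (p s : ℕ → ℕ) : E n p q * E n q' s = 0 := by
  ext f x
  rw [mul_apply_eq_comp, E_apply, E_apply, if_neg (c := ag n q' _ ∧ _)
    fun h' => h (eq_of_ag hq' hq (ag_spl.1 h'.1)).symm, ite_self]
  rfl

open Classical in
/-- Basis vector. -/
noncomputable def dl (y : ℕ → ℕ) : H := lp.single 2 y 1

open Classical in
theorem dl_apply (y x : ℕ → ℕ) : dl y x = if x = y then 1 else 0 := by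
  rw [dl, lp.single_apply, Pi.single_apply]

theorem dl_norm (y : ℕ → ℕ) : ‖dl y‖ = 1 := by
  classical
  rw [dl, lp.norm_single (by norm_num), norm_one]

theorem inner_dl (x : ℕ → ℕ) (f : H) : inner ℂ (dl x) f = f x := by
  classical
  rw [dl, lp.inner_single_left]; simp

theorem ent_star (T : B) (x y : ℕ → ℕ) : star T (dl y) x = star (T (dl x) y) := by
  rw [← inner_dl, ← inner_dl y, ContinuousLinearMap.star_eq_adjoint,
    ContinuousLinearMap.adjoint_inner_right, ← inner_conj_symm]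
  rfl

theorem ent_ext {S T : B} (h : ∀ x y, S (dl y) x = T (dl y) x) : S = T := by
  classical
  refine lp.ext_continuousLinearMap (ENNReal.ofNat_ne_top (n := nat_lit 2)) fun y => ?_
  ext x
  exact h x y

open Classical in
theorem E_ent (n : ℕ) (p q x y : ℕ → ℕ) :
    E n p q (dl y) x = if ag n p x ∧ ok n x ∧ spl n q x = y then 1 else 0 := by
  rw [E_apply, dl_apply]
  by_cases h : ag n p x ∧ ok n x
  · simp [h]
  · rw [if_neg h, if_neg fun h' => h ⟨h'.1, h'.2.1⟩]

theorem E_star (n : ℕ) (p q : ℕ → ℕ) : star (E n p q) = E n q p := ent_ext fun x y => by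
  have k : ∀ p q x y, ag n p x ∧ ok n x ∧ spl n q x = y → ag n q y ∧ ok n y ∧ spl n p y = x := by
    rintro p q x _ ⟨h1, h2, rfl⟩
    exact ⟨ag_spl.2 (ag_refl _ _), ok_spl.2 h2, by rw [spl_spl, spl_ag h1]⟩
  rw [ent_star, E_ent, E_ent]
  by_cases h : ag n p y ∧ ok n y ∧ spl n q y = x
  · rw [if_pos h, if_pos (k _ _ _ _ h), star_one]
  · rw [if_neg h, if_neg fun h' => h (k _ _ _ _ h'), star_zero]

theorem ag_upd {n l : ℕ} {p x : ℕ → ℕ} :
    ag (n + 1) (Function.update p n l) x ↔ ag n p x ∧ x n = l :=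
  ⟨fun h => ⟨fun i hi => by rw [h i (by omega), Function.update_of_ne hi.ne],
    by rw [h n (by omega), Function.update_self]⟩, fun h i hi => by
      rcases (Nat.le_of_lt_succ hi).eq_or_lt with rfl | hi
      · rw [Function.update_self, h.2]
      · rw [Function.update_of_ne hi.ne, h.1 i hi]⟩

theorem ok_succ {n : ℕ} {x : ℕ → ℕ} : ok n x ↔ x n < M n + n + 2 ∧ ok (n + 1) x :=
  ⟨fun h => ⟨h n le_rfl, fun i hi => h i (by omega)⟩, fun h i hi => by
    rcases hi.eq_or_lt with rfl | hi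
    exacts [h.1, h.2 i hi]⟩

theorem E_ref (n : ℕ) (p q : ℕ → ℕ) : E n p q =
    ∑ l ∈ range (M n + n + 2), E (n + 1) (Function.update p n l) (Function.update q n l) := by
  ext f x
  rw [_root_.sum_apply, lp.coeFn_sum, Finset.sum_apply, E_apply]
  simp only [E_apply]
  by_cases h : ag n p x ∧ ok n x
  · rw [if_pos h, sum_eq_single_of_mem (x n) (mem_range.2 (ok_succ.1 h.2).1)
      fun l _ hl => if_neg fun h' => hl (ag_upd.1 h'.1).2.symm,
      if_pos ⟨ag_upd.2 ⟨h.1, rfl⟩, (ok_succ.1 h.2).2⟩]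
    refine congrArg f (funext fun i => ?_)
    rcases lt_trichotomy i n with hi | rfl | hi
    · simp [spl, hi, hi.ne, Nat.lt_succ_of_lt hi]
    · simp [spl]
    · simp [spl, hi.not_gt, show ¬ i < n + 1 by omega]
  · rw [if_neg h]
    refine (sum_eq_zero fun l hl => if_neg ?_).symm
    rintro ⟨h1, h2⟩
    exact h ⟨(ag_upd.1 h1).1, ok_succ.2 ⟨(ag_upd.1 h1).2 ▸ mem_range.1 hl, h2⟩⟩

theorem E_up {n l : ℕ} (hl : l < M n + n + 2) (p q : ℕ → ℕ) :
    E n p p * E (n + 1) (Function.update p n l) q = E (n + 1) (Function.update p n l) q := by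
  ext f x
  rw [mul_apply_eq_comp, E_apply]
  by_cases h : ag n p x ∧ ok n x
  · rw [if_pos h, spl_ag h.1]
  · rw [if_neg h, E_apply, if_neg]
    rintro ⟨h1, h2⟩
    exact h ⟨(ag_upd.1 h1).1, ok_succ.2 ⟨(ag_upd.1 h1).2 ▸ hl, h2⟩⟩

/-- Generators of level `n`. -/
def G (n : ℕ) : Set B := {a | ∃ p ∈ W n, ∃ q ∈ W n, r n p = r n q ∧ a = E n p q}

theorem G_fin (n : ℕ) : (G n).Finite :=
  (((W n ×ˢ W n).finite_toSet).image fun z => E n z.1 z.2).subset <| by
    rintro _ ⟨p, hp, q, hq, -, rfl⟩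
    exact ⟨(p, q), mem_coe.2 (mem_product.2 ⟨hp, hq⟩), rfl⟩

/-- The finite-dimensional algebra of level `n`. -/
noncomputable def S (n : ℕ) : NonUnitalStarSubalgebra ℂ B where
  carrier := Submodule.span ℂ (G n)
  add_mem' := add_mem
  zero_mem' := zero_mem _
  smul_mem' := fun c _ h => Submodule.smul_mem _ c h
  mul_mem' := fun {a b} ha hb => by
    have := Submodule.mul_mem_mul ha hb
    rw [Submodule.span_mul_span] at this
    refine Submodule.span_le.2 ?_ this
    rintro _ ⟨_, ⟨p, hp, q, hq, h, rfl⟩, _, ⟨p', hp', q', hq', h', rfl⟩, rfl⟩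
    by_cases e : q = p'
    · subst e
      exact Submodule.subset_span ⟨p, hp, q', hq', h.trans h', E_mul _ _ _ _⟩
    · simp only [E_mul_ne hq hp' e]; exact zero_mem _
  star_mem' := fun {a} ha => by
    induction ha using Submodule.span_induction with
    | mem x h =>
      obtain ⟨p, hp, q, hq, h, rfl⟩ := h
      exact Submodule.subset_span ⟨q, hq, p, hp, h.symm, E_star _ _ _⟩
    | zero => rw [star_zero]; exact zero_mem _
    | add x y _ _ hx hy => rw [star_add]; exact add_mem hx hy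
    | smul c x _ hx => rw [star_smul]; exact Submodule.smul_mem _ _ hx

theorem E_mem {n : ℕ} {p q : ℕ → ℕ} (hp : p ∈ W n) (hq : q ∈ W n) (h : r n p = r n q) :
    E n p q ∈ S n := Submodule.subset_span ⟨p, hp, q, hq, h, rfl⟩

theorem S_ind {n : ℕ} {P : B → Prop} (h1 : ∀ p ∈ W n, ∀ q ∈ W n, r n p = r n q → P (E n p q))
    (h0 : P 0) (ha : ∀ x y, P x → P y → P (x + y)) (hs : ∀ (c : ℂ) x, P x → P (c • x))
    {a : B} (h : a ∈ S n) : P a := by
  change a ∈ Submodule.span ℂ (G n) at h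
  induction h using Submodule.span_induction with
  | mem x h => obtain ⟨p, hp, q, hq, h, rfl⟩ := h; exact h1 p hp q hq h
  | zero => exact h0
  | add x y _ _ hx hy => exact ha _ _ hx hy
  | smul c x _ hx => exact hs _ _ hx

theorem S_mono : Monotone S := monotone_nat_of_le_succ fun n a ha => by
  refine S_ind (P := fun a => a ∈ S (n + 1)) (fun p hp q hq h => ?_) (zero_mem _)
    (fun _ _ => add_mem) (fun c _ h => SMulMemClass.smul_mem c h) ha
  rw [E_ref]
  refine sum_mem fun l hl => ?_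
  have : l < M n + n + 2 + 2 ^ n := Nat.lt_add_right _ (mem_range.1 hl)
  exact E_mem (upd_mem hp this) (upd_mem hq this) (by rw [r_upd, r_upd, h])

theorem S_fd (n : ℕ) : AF.FD (S n : Set B) :=
  ⟨_, FiniteDimensional.span_of_finite ℂ (G_fin n), subset_rfl⟩

/-- The unit of level `n`. -/
noncomputable def un (n : ℕ) : B := ∑ p ∈ W n, E n p p

theorem un_mem (n : ℕ) : un n ∈ S n := sum_mem fun _ hp => E_mem hp hp rfl

theorem un_star (n : ℕ) : star (un n) = un n := by
  rw [un, star_sum]; exact sum_congr rfl fun p _ => E_star _ _ _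

theorem un_mul {n : ℕ} {a : B} (h : a ∈ S n) : un n * a = a := by
  refine S_ind (P := fun a => un n * a = a) (fun p hp q hq h => ?_) (mul_zero _)
    (fun x y hx hy => by rw [mul_add, hx, hy]) (fun c x hx => by rw [mul_smul_comm, hx]) h
  rw [un, sum_mul, sum_eq_single_of_mem p hp fun s hs hne => E_mul_ne hs hp hne _ _, E_mul]

theorem mul_un {n : ℕ} {a : B} (h : a ∈ S n) : a * un n = a := by
  have := congrArg star (un_mul (star_mem h))
  rwa [star_mul, star_star, un_star] at this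

theorem compress {n : ℕ} {a : B} (h : a ∈ S n) {p q : ℕ → ℕ} (hp : p ∈ W n) (hq : q ∈ W n) :
    ∃ c : ℂ, E n p p * a * E n q q = c • E n p q ∧ (r n p ≠ r n q → c = 0) := by
  refine S_ind (P := fun a => ∃ c : ℂ, E n p p * a * E n q q = c • E n p q ∧
    (r n p ≠ r n q → c = 0)) (fun p' hp' q' hq' h => ?_) ⟨0, by simp, fun _ => rfl⟩ ?_ ?_ h
  · by_cases e : p = p'
    · subst e
      by_cases e' : q' = q
      · subst e'
        exact ⟨1, by rw [E_mul, E_mul, one_smul], fun h' => absurd h h'⟩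
      · exact ⟨0, by rw [E_mul, E_mul_ne hq' hq e', zero_smul], fun _ => rfl⟩
    · exact ⟨0, by rw [E_mul_ne hp hp' e, zero_mul, zero_smul], fun _ => rfl⟩
  · rintro x y ⟨c, h1, h2⟩ ⟨d, k1, k2⟩
    exact ⟨c + d, by rw [mul_add, add_mul, h1, k1, add_smul],
      fun h => by rw [h2 h, k2 h, add_zero]⟩
  · rintro d x ⟨c, h1, h2⟩
    exact ⟨d * c, by rw [mul_smul_comm, smul_mul_assoc, h1, smul_smul],
      fun h => by rw [h2 h, mul_zero]⟩

theorem full {n : ℕ} (J : B → Prop) (h0 : J 0) (ha : ∀ x y, J x → J y → J (x + y))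
    (hl : ∀ x y, x ∈ S (n + 1) → J y → J (x * y)) (hr : ∀ x y, J x → y ∈ S (n + 1) → J (x * y))
    {a : B} (h : a ∈ S n) (a0 : a ≠ 0) (hJ : J a) {s : B} (hs : s ∈ S (n + 1)) : J s := by
  have up : S n ≤ S (n + 1) := S_mono (Nat.le_succ n)
  obtain ⟨p, hp, q, hq, hne⟩ : ∃ p ∈ W n, ∃ q ∈ W n, E n p p * a * E n q q ≠ 0 := by
    by_contra hc
    push Not at hc
    refine a0 ?_
    rw [← mul_un h, ← un_mul h, un, sum_mul, sum_mul_sum]
    exact sum_eq_zero fun p hp => sum_eq_zero fun q hq => hc p hp q hq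
  obtain ⟨c, h1, h2⟩ := compress h hp hq
  have c0 : c ≠ 0 := fun h => hne (by rw [h1, h, zero_smul])
  have e : r n p = r n q := by_contra fun h => c0 (h2 h)
  have j1 : J (E n p p) := by
    have := hr _ _ (hr _ _ (hl _ _ (up (E_mem hp hp rfl)) hJ) (up (E_mem hq hq rfl)))
      (up (SMulMemClass.smul_mem c⁻¹ (E_mem hq hp e.symm)))
    rwa [h1, smul_mul_smul_comm, mul_inv_cancel₀ c0, one_smul, E_mul] at this
  rw [← un_mul hs]
  refine hr _ _ ?_ hs
  refine sum_induction _ J ha h0 fun p' hp' => ?_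
  have l1 : M n + r (n + 1) p' < M n + n + 2 := by have := r_le (n + 1) p'; omega
  have l2 := upd_mem hp (Nat.lt_add_right (2 ^ n) l1)
  have l3 : r (n + 1) (Function.update p n (M n + r (n + 1) p')) = r (n + 1) p' := by
    rw [r_upd, if_neg (by omega)]; omega
  have := hl _ _ (E_mem hp' l2 l3.symm) (hr _ _ j1 (E_mem l2 hp' l3))
  rwa [E_up l1, E_mul] at this

theorem ent_ok {n : ℕ} {a : B} (h : a ∈ S n) {x : ℕ → ℕ} (hx : ¬ ok n x) (y : ℕ → ℕ) :
    a (dl y) x = 0 := by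
  refine S_ind (P := fun a => a (dl y) x = 0) (fun p hp q hq h => ?_) rfl
    (fun a b ha hb => ?_) (fun c a ha => ?_) h
  · rw [E_ent, if_neg fun h => hx h.2.1]
  · rw [_root_.add_apply, lp.coeFn_add, Pi.add_apply, ha, hb, add_zero]
  · rw [_root_.smul_apply, lp.coeFn_smul, Pi.smul_apply, ha, smul_zero]

theorem ent_un {k N : ℕ} (hk : k ≤ N) {x : ℕ → ℕ} (hx : x ∈ W N) (ho : ok k x) :
    un k (dl x) x = 1 := by
  have m : spl k x 0 ∈ W k := mem_W.2 ⟨fun i hi => by
    rw [spl, if_pos hi]; exact (mem_W.1 hx).1 i (hi.trans_le hk), fun i hi => by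
    rw [spl, if_neg (not_lt.2 hi)]; rfl⟩
  have a : ag k (spl k x 0) x := fun i hi => by rw [spl, if_pos hi]
  rw [un, _root_.sum_apply, lp.coeFn_sum, Finset.sum_apply, sum_eq_single_of_mem _ m
    fun p hp hne => ?_, E_ent, if_pos ⟨a, ho, spl_ag a⟩]
  rw [E_ent, if_neg fun h => hne (eq_of_ag hp m (ag_spl.2 h.1))]

/-- Paths of length `N` ending at `m`. -/
noncomputable def F (m N : ℕ) : Finset (ℕ → ℕ) := flt (W N) fun x => r N x = m ∧ True

theorem inv {m N : ℕ} {a : B} (h : a ∈ S N) {y : ℕ → ℕ} (hy : y ∈ F m N) :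
    a (dl y) = ∑ z ∈ F m N, a (dl y) z • dl z := by
  classical
  have : ∀ x ∉ F m N, a (dl y) x = 0 := fun x hx => by
    refine S_ind (P := fun a => a (dl y) x = 0) (fun p hp q hq h => ?_) rfl
      (fun a b ha hb => ?_) (fun c a ha => ?_) h
    · rw [E_ent, if_neg]
      rintro ⟨h1, h2, rfl⟩
      obtain ⟨k1, k2, -⟩ := mem_flt.1 hy
      have e : x = p := funext fun i => by
        rcases lt_or_ge i N with hi | hi
        · exact h1 i hi
        · have := (mem_W.1 k1).2 i hi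
          rw [spl, if_neg (not_lt.2 hi)] at this
          rw [this, (mem_W.1 hp).2 i hi]
      refine hx (mem_flt.2 ⟨e ▸ hp, ?_, trivial⟩)
      rw [e, h, ← k2]
      exact r_congr fun i hi => by rw [spl, if_pos hi]
    · rw [_root_.add_apply, lp.coeFn_add, Pi.add_apply, ha, hb, add_zero]
    · rw [_root_.smul_apply, lp.coeFn_smul, Pi.smul_apply, ha, smul_zero]
  ext x
  rw [lp.coeFn_sum, Finset.sum_apply]
  simp only [lp.coeFn_smul, Pi.smul_apply, dl_apply, smul_eq_mul, mul_ite, mul_one, mul_zero,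
    sum_ite_eq]
  split_ifs with hx
  exacts [rfl, this x hx]

/-- Normalised trace over a finite set of basis vectors. -/
noncomputable def trF (s : Finset (ℕ → ℕ)) : B →ₗ[ℂ] ℂ where
  toFun a := ((s.card : ℝ)⁻¹ : ℝ) * ∑ x ∈ s, a (dl x) x
  map_add' a b := by
    simp only [_root_.add_apply, lp.coeFn_add, Pi.add_apply, sum_add_distrib, mul_add]
  map_smul' c a := by
    simp only [_root_.smul_apply, lp.coeFn_smul, Pi.smul_apply, smul_eq_mul, RingHom.id_apply,
      ← mul_sum]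
    ring

theorem trF_apply (s : Finset (ℕ → ℕ)) (a : B) :
    trF s a = ((s.card : ℝ)⁻¹ : ℝ) * ∑ x ∈ s, a (dl x) x := rfl

theorem ent_le (a : B) (x y : ℕ → ℕ) : ‖a (dl y) x‖ ≤ ‖a‖ :=
  (lp.norm_apply_le_norm (by norm_num) _ x).trans ((a.le_opNorm _).trans (by rw [dl_norm, mul_one]))

theorem trF_le' (s : Finset (ℕ → ℕ)) (a : B) (P : (ℕ → ℕ) → Prop)
    (h : ∀ x ∈ s, ¬ P x → a (dl x) x = 0) {δ : ℝ} (hδ : 0 ≤ δ)
    (hc : ((flt s P).card : ℝ) ≤ δ * s.card) : ‖trF s a‖ ≤ δ * ‖a‖ := by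
  classical
  have : ‖∑ x ∈ s, a (dl x) x‖ ≤ (flt s P).card * ‖a‖ := by
    rw [card_flt, Nat.cast_sum, sum_mul]
    refine (norm_sum_le _ _).trans (sum_le_sum fun x hx => ?_)
    split_ifs with h'
    · rw [Nat.cast_one, one_mul]; exact ent_le a x x
    · rw [h x hx h']; simp
  rw [trF_apply, norm_mul, Complex.norm_real, Real.norm_eq_abs, abs_of_nonneg (by positivity)]
  refine (mul_le_mul_of_nonneg_left (this.trans (mul_le_mul_of_nonneg_right hc (norm_nonneg _)))
    (by positivity)).trans ?_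
  rcases eq_or_ne (s.card : ℝ) 0 with h0 | h0
  · rw [h0]; simp; positivity
  · exact le_of_eq (by field_simp)

theorem trF_le (s : Finset (ℕ → ℕ)) (a : B) : ‖trF s a‖ ≤ ‖a‖ := by
  have := trF_le' s a (fun _ => True) (fun _ _ h => absurd trivial h) zero_le_one (by
    rw [one_mul]; exact_mod_cast card_le_card fun x hx => (mem_flt.1 hx).1)
  rwa [one_mul] at this

theorem trF_pos (s : Finset (ℕ → ℕ)) (a : B) : 0 ≤ (trF s (star a * a)).re := by
  rw [trF_apply, Complex.re_ofReal_mul, Complex.re_sum]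
  refine mul_nonneg (by positivity) (sum_nonneg fun x _ => ?_)
  rw [← inner_dl, mul_apply_eq_comp, ContinuousLinearMap.star_eq_adjoint,
    ContinuousLinearMap.adjoint_inner_right]
  exact inner_self_nonneg (𝕜 := ℂ)

theorem trF_comm {m N : ℕ} {a b : B} (ha : a ∈ S N) (hb : b ∈ S N) :
    trF (F m N) (a * b) = trF (F m N) (b * a) := by
  have k : ∀ {a b : B}, b ∈ S N → ∑ x ∈ F m N, (a * b) (dl x) x =
      ∑ x ∈ F m N, ∑ z ∈ F m N, b (dl x) z * a (dl z) x := fun {a b} hb =>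
    sum_congr rfl fun x hx => by
      rw [mul_apply_eq_comp, inv hb hx, map_sum, lp.coeFn_sum, Finset.sum_apply, ← inv hb hx]
      exact sum_congr rfl fun z _ => by rw [map_smul, lp.coeFn_smul, Pi.smul_apply, smul_eq_mul]
  rw [trF_apply, trF_apply, k hb, k ha, sum_comm]
  simp only [mul_comm]

theorem flt_F (m N : ℕ) (Q : (ℕ → ℕ) → Prop) : (flt (F m N) Q).card = cnt Q m N := by
  rw [cnt]
  congr 1
  ext x
  simp only [F, mem_flt, and_true, and_assoc]

theorem tr_small {k j N : ℕ} (hk : k ≤ j) (hN : j + 1 ≤ N) {a : B} (ha : a ∈ S k) :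
    ‖trF (F (j + 1) N) a‖ ≤ 2 * (1 / 2) ^ j * ‖a‖ :=
  trF_le' _ a (ok k) (fun x _ hx => ent_ok ha hx x) (by positivity)
    (by rw [flt_F]; exact est_small hk hN)

theorem tr_big (m : ℕ) {N : ℕ} (hN : m + 2 ≤ N) : 1 / 2 ≤ (trF (F m N) (un (m + 2))).re := by
  have h1 : ‖trF (F m N) (1 - un (m + 2))‖ ≤ 1 / 2 * ‖1 - un (m + 2)‖ :=
    trF_le' _ _ (fun x => ¬ ok (m + 2) x) (fun x hx h => by
      rw [_root_.sub_apply, lp.coeFn_sub, Pi.sub_apply, ent_un hN (mem_flt.1 hx).1 (not_not.1 h),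
        one_apply_eq_self, dl_apply, if_pos rfl, sub_self]) (by norm_num)
      (by rw [flt_F]; exact est_big m hN)
  have h2 : ‖1 - un (m + 2)‖ ≤ 1 := IsStarProjection.norm_le _
    (IsStarProjection.one_sub ⟨un_mul (un_mem _), un_star _⟩)
  have h3 : trF (F m N) 1 = 1 := by
    obtain ⟨N, rfl⟩ := Nat.exists_eq_add_one_of_ne_zero (show N ≠ 0 by omega)
    have : ((F m (N + 1)).card : ℂ) ≠ 0 := by exact_mod_cast (cnt_pos (m := m) (by omega)).ne'
    rw [trF_apply]
    simp only [one_apply_eq_self, dl_apply, if_true, sum_const, nsmul_eq_mul, mul_one]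
    push_cast
    exact inv_mul_cancel₀ this
  have h4 := (Complex.re_le_norm _).trans h1
  rw [map_sub, h3, Complex.sub_re, Complex.one_re] at h4
  linarith

end Pool.Agent.H75.NM
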