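import Pool.Agent.H75.NM1
import Pool.Agent.H75.NM3

/-! The simple AF algebra and its traces. -/

set_option autoImplicit false

namespace Pool.Agent.H75.NM

open Filter Topology MultiplierAlgebra

theorem simple_of {A : Type} [NonUnitalCStarAlgebra A] (T : ℕ → NonUnitalStarSubalgebra ℂ A)
    (hm : Monotone T) (hT : ∀ n, AF.FD (T n : Set A)) (hd : Dense (⋃ n, (T n : Set A)))
    (h : ∀ n, ∀ J : TwoSidedIdeal A, ∀ a ∈ T n, a ≠ 0 → a ∈ J → ∀ s ∈ T (n + 1), s ∈ J)
    (J : TwoSidedIdeal A) (hJ : IsClosed (J : Set A)) : J = ⊥ ∨ J = ⊤ := by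
  rw [or_iff_not_imp_left]
  intro h0
  obtain ⟨x, hx, x0⟩ : ∃ x ∈ J, x ≠ 0 := by
    by_contra hc
    push Not at hc
    exact h0 (eq_bot_iff.2 fun x hx => (TwoSidedIdeal.mem_bot _).2 (hc x hx))
  have x1 := norm_pos_iff.2 x0
  obtain ⟨t, ht, hd'⟩ := Metric.mem_closure_iff.1 (hd x) (‖x‖ / 2) (by positivity)
  obtain ⟨n, ht⟩ := Set.mem_iUnion.1 ht
  rw [dist_comm, dist_eq_norm] at hd'
  have t2 : ‖t - x‖ < ‖t‖ := by
    have := norm_sub_le t (t - x)
    rw [sub_sub_cancel] at this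
    linarith
  have t0 : 0 < ‖t‖ := (norm_nonneg _).trans_lt t2
  obtain ⟨l, e, l1, e1, e2, e3, e4⟩ := AF.eig (hT n) (mul_mem (star_mem ht) ht)
    (IsSelfAdjoint.star_mul_self t) fun h =>
      norm_pos_iff.1 t0 ((CStarRing.star_mul_self_eq_zero_iff t).1 h)
  rw [CStarRing.norm_star_mul_self] at l1
  have l0 : (l : ℂ) ≠ 0 := fun h => by
    rw [Complex.ofReal_eq_zero.1 h, abs_zero] at l1
    nlinarith
  obtain ⟨ρ, hρ⟩ : ∃ ρ : A, ρ = ((l : ℂ)⁻¹ • star t) * (t - x) := ⟨_, rfl⟩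
  have r1 : ‖ρ‖ < 1 := by
    rw [hρ, smul_mul_assoc, norm_smul, norm_inv, Complex.norm_real, Real.norm_eq_abs, l1,
      inv_mul_lt_iff₀ (by positivity), mul_one]
    refine (norm_mul_le _ _).trans_lt ?_
    rw [norm_star]
    exact mul_lt_mul_of_pos_left t2 t0
  have r2 : e - ρ * e ∈ J := by
    have : e - ρ * e = ((l : ℂ)⁻¹ • star t) * x * e := by
      rw [hρ, mul_sub, sub_mul, smul_mul_assoc _ _ t, smul_mul_assoc _ (star t * t), e4, smul_smul,
        inv_mul_cancel₀ l0, one_smul, sub_sub_cancel]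
    rw [this]
    exact J.mul_mem_right _ _ (J.mul_mem_left _ _ hx)
  have r3 : ∀ k, e - (fun y => ρ * y)^[k] e ∈ J ∧ ‖(fun y => ρ * y)^[k] e‖ ≤ ‖ρ‖ ^ k * ‖e‖ :=
    fun k => by
      induction k with
      | zero => simp
      | succ k ih =>
        rw [Function.iterate_succ_apply']
        refine ⟨?_, (norm_mul_le _ _).trans ?_⟩
        · have := J.add_mem r2 (J.mul_mem_left ρ _ ih.1)
          rwa [mul_sub, sub_add_sub_cancel] at this
        · rw [pow_succ', mul_assoc]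
          exact mul_le_mul_of_nonneg_left ih.2 (norm_nonneg _)
  have r4 : e ∈ J := by
    have : Tendsto (fun k => (fun y => ρ * y)^[k] e) atTop (𝓝 0) :=
      squeeze_zero_norm (fun k => (r3 k).2) (by
        simpa using (tendsto_pow_atTop_nhds_zero_of_lt_one (norm_nonneg ρ) r1).mul_const ‖e‖)
    refine hJ.mem_of_tendsto (f := fun k => e - (fun y => ρ * y)^[k] e) (b := atTop) ?_
      (Eventually.of_forall fun k => (r3 k).1)
    simpa using this.const_sub e
  refine eq_top_iff.2 fun a _ => hJ.closure_subset_iff.2 (fun s hs => ?_) (hd a)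
  obtain ⟨k, hk⟩ := Set.mem_iUnion.1 hs
  exact h (max n k) J e (hm (le_max_left _ _) e1) e3 r4 s
    (hm ((le_max_right _ _).trans (Nat.le_succ _)) hk)

theorem ulim {X : Type} [NormedAddCommGroup X] [NormedSpace ℂ X] (U : Ultrafilter ℕ)
    (f : ℕ → X →ₗ[ℂ] ℂ) (hf : ∀ N a, ‖f N a‖ ≤ ‖a‖) :
    ∃ τ : X →L[ℂ] ℂ, ∀ a, Tendsto (fun N => f N a) U (𝓝 (τ a)) := by
  have : ∀ a, ∃ l, Tendsto (fun N => f N a) U (𝓝 l) := fun a => by
    obtain ⟨l, -, hl⟩ := (isCompact_closedBall (0 : ℂ) ‖a‖).ultrafilter_le_nhds'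
      (U.map fun N => f N a) (Ultrafilter.mem_map.2 (Eventually.of_forall fun N =>
        mem_closedBall_zero_iff.2 (hf N a)))
    exact ⟨l, hl⟩
  choose l hl using this
  exact ⟨(linearMapOfTendsto l f (tendsto_pi_nhds.2 hl)).mkContinuous 1 fun a =>
    le_of_tendsto' (hl a).norm fun N => (hf N a).trans (one_mul _).ge, hl⟩

theorem exists_alg : ∃ (A : Type) (_ : NonUnitalCStarAlgebra A) (j : A →⋆ₙₐ[ℂ] B),
    Isometry j ∧ Set.range j = closure (⋃ n, (S n : Set B)) := by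
  let A := (⨆ n, S n).topologicalClosure
  have : IsClosed (A : Set B) := NonUnitalStarSubalgebra.isClosed_topologicalClosure _
  refine ⟨A, inferInstance, NonUnitalStarSubalgebraClass.subtype A, fun _ _ => rfl, ?_⟩
  rw [← NonUnitalStarSubalgebra.coe_iSup_of_directed S_mono.directed_le]
  exact Subtype.range_coe

theorem main : ∃ (A : Type) (_ : NonUnitalCStarAlgebra A), Nontrivial A ∧
    (∀ J : TwoSidedIdeal A, IsClosed (J : Set A) → J = ⊥ ∨ J = ⊤) ∧
    TopologicalSpace.SeparableSpace A ∧ (¬ ∃ u : A, ∀ a, u * a = a ∧ a * u = a) ∧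
    ∃ I : TwoSidedIdeal 𝓜(ℂ, A), IsClosed (I : Set 𝓜(ℂ, A)) ∧ I ≠ ⊤ ∧ Nonmeagre I := by
  obtain ⟨A, _, j, iso, hr⟩ := exists_alg
  have nj : ∀ a, ‖j a‖ = ‖a‖ := iso.norm_map_of_map_zero (map_zero j)
  have lift : ∀ n, ∀ s ∈ S n, ∃ a, j a = s := fun n s hs =>
    show s ∈ Set.range j from hr ▸ subset_closure (Set.mem_iUnion.2 ⟨n, hs⟩)
  let T : ℕ → NonUnitalStarSubalgebra ℂ A := fun n => (S n).comap j
  have Tm : Monotone T := fun n k h a ha => S_mono h ha
  have Tf : ∀ n, AF.FD (T n : Set A) := fun n => by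
    obtain ⟨V, _, hV⟩ := S_fd n
    refine ⟨V.comap (j : A →ₗ[ℂ] B), ?_, fun a ha => hV ha⟩
    exact FiniteDimensional.of_injective ((j : A →ₗ[ℂ] B).restrict fun _ h => h)
      fun a b h => Subtype.ext (iso.injective (congrArg Subtype.val h))
  have Td : Dense (⋃ n, (T n : Set A)) := fun a => Metric.mem_closure_iff.2 fun ε hε => by
    obtain ⟨s, hs, hd⟩ := Metric.mem_closure_iff.1 (hr ▸ Set.mem_range_self (f := j) a) ε hε
    obtain ⟨n, hs⟩ := Set.mem_iUnion.1 hs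
    obtain ⟨b, rfl⟩ := lift n s hs
    exact ⟨b, Set.mem_iUnion.2 ⟨n, hs⟩, iso.dist_eq a b ▸ hd⟩
  let U : Ultrafilter ℕ := Ultrafilter.of atTop
  have hU : (U : Filter ℕ) ≤ atTop := Ultrafilter.of_le _
  choose τ hτ using fun m => ulim U (fun N => trF (F m N) ∘ₗ (j : A →ₗ[ℂ] B))
    fun N a => (trF_le _ _).trans (nj a).le
  replace hτ : ∀ m a, Tendsto (fun N => trF (F m N) (j a)) U (𝓝 (τ m a)) := hτ
  have nrm : ∀ m a, ‖τ m a‖ ≤ ‖a‖ := fun m a =>
    le_of_tendsto' (hτ m a).norm fun N => (trF_le _ _).trans (nj a).le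
  have big : ∀ m, ∃ a : A, ‖a‖ ≤ 1 ∧ 1 / 2 ≤ (τ m (star a * a)).re := fun m => by
    obtain ⟨a, ha⟩ := lift _ _ (un_mem (m + 2))
    refine ⟨a, ?_, ge_of_tendsto ((Complex.continuous_re.tendsto _).comp (hτ m _)) ?_⟩
    · rw [← nj, ha]; exact IsStarProjection.norm_le _ ⟨un_mul (un_mem _), un_star _⟩
    · filter_upwards [hU (eventually_ge_atTop (m + 2))] with N hN
      rw [Function.comp_apply, map_mul, map_star, ha, un_star, un_mul (un_mem _)]
      exact tr_big m hN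
  obtain ⟨I, I1, I2, I3⟩ := abstract τ
    (fun m a => ge_of_tendsto' ((Complex.continuous_re.tendsto _).comp (hτ m _)) fun N => by
      rw [Function.comp_apply, map_mul, map_star]; exact trF_pos _ _)
    (fun m a b => by
      refine Td.induction (P := fun a => τ m (a * b) = τ m (b * a)) (fun a ha => ?_)
        (isClosed_eq (by fun_prop) (by fun_prop)) a
      refine Td.induction (P := fun b => τ m (a * b) = τ m (b * a)) (fun b hb => ?_)
        (isClosed_eq (by fun_prop) (by fun_prop)) b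
      obtain ⟨n, hn⟩ := Set.mem_iUnion.1 ha
      obtain ⟨k, hk⟩ := Set.mem_iUnion.1 hb
      refine tendsto_nhds_unique (hτ m _) ((hτ m _).congr' ?_)
      filter_upwards [hU (eventually_ge_atTop n), hU (eventually_ge_atTop k)] with N h1 h2
      rw [map_mul j, map_mul j]
      exact trF_comm (S_mono h2 hk) (S_mono h1 hn)) nrm
    (fun a => by
      refine (AF.closed_tend (fun m a => τ m a) (fun _ => 0) continuous_const 1 fun m x y => by
        rw [← map_sub, one_mul]; exact nrm _ _).closure_subset_iff.2 (fun t ht => ?_) (Td a)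
      obtain ⟨k, hk⟩ := Set.mem_iUnion.1 ht
      refine (tendsto_add_atTop_iff_nat 1).1 (squeeze_zero_norm'
        (a := fun i => 2 * (1 / 2) ^ i * ‖j t‖) ?_ ?_)
      · filter_upwards [eventually_ge_atTop k] with i hi
        refine le_of_tendsto (hτ _ t).norm ?_
        filter_upwards [hU (eventually_ge_atTop (i + 1))] with N hN
        exact tr_small hi hN hk
      · simpa using ((tendsto_pow_atTop_nhds_zero_of_lt_one (r := (1 / 2 : ℝ)) (by norm_num)
          (by norm_num)).const_mul 2).mul_const ‖j t‖) big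
  refine ⟨A, inferInstance, ?_, simple_of T Tm Tf Td fun n J a ha a0 hJ s hs => ?_, ?_, ?_,
    I, I1, I2, I3⟩
  · obtain ⟨a, -, ha⟩ := big 0
    refine ⟨a, 0, fun h => ?_⟩
    rw [h, mul_zero, map_zero] at ha
    norm_num at ha
  · obtain ⟨b, hb, e⟩ := full (n := n) (fun x => ∃ b ∈ J, j b = x) ⟨0, J.zero_mem, map_zero j⟩
      (by rintro _ _ ⟨x, hx, rfl⟩ ⟨y, hy, rfl⟩; exact ⟨x + y, J.add_mem hx hy, map_add j x y⟩)
      (by
        rintro x _ hx ⟨y, hy, rfl⟩
        obtain ⟨x, rfl⟩ := lift _ _ hx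
        exact ⟨x * y, J.mul_mem_left _ _ hy, map_mul j x y⟩)
      (by
        rintro _ y ⟨x, hx, rfl⟩ hy
        obtain ⟨y, rfl⟩ := lift _ _ hy
        exact ⟨x * y, J.mul_mem_right _ _ hx, map_mul j x y⟩)
      ha (fun h => a0 (iso.injective (h.trans (map_zero j).symm))) ⟨a, hJ, rfl⟩ hs
    exact iso.injective e ▸ hb
  · refine TopologicalSpace.isSeparable_univ_iff.1 (Td.closure_eq ▸
      (TopologicalSpace.IsSeparable.iUnion fun n => ?_).closure)
    obtain ⟨V, _, hV⟩ := Tf n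
    exact (TopologicalSpace.IsSeparable.of_subtype (V : Set A)).mono hV
  · rintro ⟨u, hu⟩
    refine I2 (I.eq_top ?_)
    have : (u : 𝓜(ℂ, A)) = 1 := mext _ _ fun a => (hu a).1
    exact this ▸ I3.1 u

end Pool.Agent.H75.NM
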