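import Mathlib

set_option autoImplicit false

namespace Pool.Agent.H75.NM

open Filter Topology MultiplierAlgebra

variable {A : Type} [NonUnitalCStarAlgebra A]

/-- An approximate identity of positive contractions with `e (n+1) * e n = e n`. -/
def Approx (e : ℕ → A) : Prop :=
  (∀ n, (∃ b, e n = star b * b) ∧ ‖e n‖ ≤ 1 ∧ e (n + 1) * e n = e n) ∧
    ∀ a, Tendsto (fun n => e n * a) atTop (𝓝 a) ∧ Tendsto (fun n => a * e n) atTop (𝓝 a)

/-- `prev e k` is `e (k - 1)`, with the convention that it is `0` for `k = 0`. -/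
def prev (e : ℕ → A) : ℕ → A
  | 0 => 0
  | k + 1 => e k

/-- `m` is the strict sum of the `g n` over `n ∈ L`. -/
def StrictSum (g : ℕ → A) (L : Set ℕ) (m : 𝓜(ℂ, A)) : Prop :=
  ∀ a, Tendsto (fun N => (∑ n ∈ Finset.range N, L.indicator g n) * a) atTop (𝓝 (m.fst a)) ∧
    Tendsto (fun N => a * ∑ n ∈ Finset.range N, L.indicator g n) atTop (𝓝 (m.snd a))

/-- Nonmeagre ideal; the `n`-th interval of the partition is `[c n, c (n+1))`. -/
def Nonmeagre (I : TwoSidedIdeal 𝓜(ℂ, A)) : Prop :=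
  (∀ a : A, (a : 𝓜(ℂ, A)) ∈ I) ∧
    ∀ e : ℕ → A, Approx e → ∀ c : ℕ → ℕ, StrictMono c → c 0 = 0 →
      ∃ L : Set ℕ, L.Infinite ∧ ∃ m ∈ I, StrictSum (fun n => prev e (c (n + 1)) - prev e (c n)) L m

end Pool.Agent.H75.NM
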