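import Mathlib

/-! No nontrivial polynomial takes values only in the right nucleus, the left nucleus or the
alternative center of right alternative rings. -/

set_option autoImplicit false

namespace Pool.Agent.H75.NoNuc

universe u

/-- The associator `(x, y, z)`. -/
def asc {A : Type u} [NonUnitalNonAssocRing A] (x y z : A) : A := x * y * z - x * (y * z)

def RightAlt (A : Type u) [NonUnitalNonAssocRing A] : Prop := ∀ x y : A, asc x y y = 0

def Nr (A : Type u) [NonUnitalNonAssocRing A] : Set A := {n | ∀ x y, asc x y n = 0}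

def Nl (A : Type u) [NonUnitalNonAssocRing A] : Set A := {n | ∀ x y, asc n x y = 0}

def Nalt (A : Type u) [NonUnitalNonAssocRing A] : Set A :=
  {a | ∀ x y, asc a x y = -asc x a y ∧ -asc x a y = asc x y a}

/-- Polynomials: the free nonassociative ring on countably many generators. -/
abbrev Poly := FreeNonUnitalNonAssocAlgebra ℤ ℕ

/-- The value of `f` at the sequence `a`. -/
noncomputable def ev {A : Type u} [NonUnitalNonAssocRing A] (a : ℕ → A) (f : Poly) : A :=
  FreeNonUnitalNonAssocAlgebra.lift ℤ a f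

def Nontrivial' (f : Poly) : Prop :=
  ∃ (A : Type u) (_ : NonUnitalNonAssocRing A), RightAlt A ∧ ∃ a : ℕ → A, ev a f ≠ 0

def TakesOnly (S : ∀ (A : Type u) [NonUnitalNonAssocRing A], Set A) (f : Poly) : Prop :=
  ∀ (A : Type u) [NonUnitalNonAssocRing A], RightAlt A → ∀ a : ℕ → A, ev a f ∈ S A

/-- The extension `U ⊕ End U ⊕ U`. -/
def Ext (U : Type u) [NonAssocRing U] : Type u := U × (U →+ U) × U

section
variable {U : Type u} [NonAssocRing U]

instance : AddCommGroup (Ext U) := inferInstanceAs (AddCommGroup (U × (U →+ U) × U))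

instance : Mul (Ext U) :=
  ⟨fun x y => (x.1 * y.1, x.2.1.comp (AddMonoidHom.mulRight y.1), y.2.1 x.1)⟩

theorem mul_def (x y : Ext U) :
    x * y = (x.1 * y.1, x.2.1.comp (AddMonoidHom.mulRight y.1), y.2.1 x.1) := rfl

instance : NonUnitalNonAssocRing (Ext U) where
  left_distrib x y z := by
    refine Prod.ext (mul_add _ _ _) (Prod.ext ?_ rfl)
    ext w
    change x.2.1 (w * (y.1 + z.1)) = x.2.1 (w * y.1) + x.2.1 (w * z.1)
    rw [mul_add, map_add]
  right_distrib x y z := Prod.ext (add_mul _ _ _) (Prod.ext rfl (map_add z.2.1 x.1 y.1))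
  zero_mul x := Prod.ext (zero_mul _) (Prod.ext rfl (map_zero x.2.1))
  mul_zero x := by
    refine Prod.ext (mul_zero _) (Prod.ext ?_ rfl)
    ext w
    change x.2.1 (w * 0) = 0
    rw [mul_zero, map_zero]

theorem ext_alt (h : RightAlt U) : RightAlt (Ext U) := fun x y => by
  refine sub_eq_zero.2 (Prod.ext (sub_eq_zero.1 (h _ _)) (Prod.ext ?_ rfl))
  ext w
  exact congrArg x.2.1 (sub_eq_zero.1 (h w y.1))

def phi : Ext U := (0, AddMonoidHom.id U, 0)
def inc (n : U) : Ext U := (n, 0, 0)

theorem zero3 : (0 : Ext U).2.2 = 0 := rfl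

theorem third (x y z : Ext U) : (asc x y z).2.2 = z.2.1 (x.1 * y.1) - y.2.1 (x.1 * z.1) := rfl

end

variable {A : Type u} [NonUnitalNonAssocRing A]

theorem unit_alt (h : RightAlt A) : RightAlt (Unitization ℤ A) := fun x y => by
  have := sub_eq_zero.1 (h x.snd y.snd)
  refine sub_eq_zero.2 (Unitization.ext (by simp [mul_assoc]) ?_)
  simp only [Unitization.snd_mul, Unitization.fst_mul, mul_add, add_mul, smul_add, smul_mul_assoc,
    mul_smul_comm, this, smul_smul, mul_comm]
  abel

/-- The embedding of `A` in the extension of its unital hull. -/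
def emb : A →ₙₐ[ℤ] Ext (Unitization ℤ A) where
  toFun a := inc (a : Unitization ℤ A)
  map_smul' c a := Prod.ext (Unitization.inr_smul ℤ c a) (Prod.ext (smul_zero c).symm
    (smul_zero c).symm)
  map_zero' := Prod.ext (Unitization.inr_zero ℤ) rfl
  map_add' a b := Prod.ext (Unitization.inr_add ℤ a b) (Prod.ext (add_zero _).symm
    (add_zero _).symm)
  map_mul' a b := Prod.ext (Unitization.inr_mul ℤ a b) rfl

theorem ev_emb (a : ℕ → A) (f : Poly) :
    ev (emb ∘ a) f = inc ((ev a f : A) : Unitization ℤ A) := by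
  have : FreeNonUnitalNonAssocAlgebra.lift ℤ (emb ∘ a) =
      emb.comp (FreeNonUnitalNonAssocAlgebra.lift ℤ a) :=
    FreeNonUnitalNonAssocAlgebra.hom_ext ℤ (by intro i; simp)
  exact congrArg (fun g => g f) this

theorem all : (¬∃ f, Nontrivial'.{u} f ∧ TakesOnly.{u} (@Nr) f) ∧
    (¬∃ f, Nontrivial'.{u} f ∧ TakesOnly.{u} (@Nl) f) ∧
    ¬∃ f, Nontrivial'.{u} f ∧ TakesOnly.{u} (@Nalt) f := by
  refine ⟨?_, ?_, ?_⟩ <;> rintro ⟨f, ⟨A, _, hA, a, ha⟩, h⟩ <;>
    have h1 := h _ (ext_alt (unit_alt hA)) (emb ∘ a) <;> rw [ev_emb] at h1 <;> apply ha <;>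
    apply Unitization.inr_injective (R := ℤ)
  · have := congrArg (fun t => t.2.2) (h1 (inc 1) phi)
    simp only [third, zero3] at this
    simpa [inc, phi] using this
  · have := congrArg (fun t => t.2.2) (h1 phi (inc 1))
    simp only [third, zero3] at this
    simpa [inc, phi] using this
  · have h2 := congrArg (fun t => t.2.2) (h1 phi (inc 1)).1
    have h3 : ∀ t : Ext (Unitization ℤ A), (-t).2.2 = -t.2.2 := fun _ => rfl
    simp only [h3, third] at h2
    simpa [inc, phi] using h2

end Pool.Agent.H75.NoNuc
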