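import Pool.Agent.H75.QPDefs
import Pool.Agent.H75.IE4

set_option linter.unusedSectionVars false
set_option linter.deprecated false

namespace Pool.Agent.H75.QP
open Filter Topology Finset Pool.Agent.H86.Wu Pool.Agent.H75.IL Pool.Agent.H75.IE
open scoped InnerProductSpace ComplexOrder

theorem magic {n : ℕ} {B : Type} [CStarAlgebra B] (σ : Fin n → Fin n) (hσ : ∀ i, σ (σ i) = i)
    (d : Fin n → B) (hd : ∀ i, IsStarProjection (d i)) (h : ∀ i, d (σ i) = d i) :
    Magic fun i j => (if j = i then d i else 0) + if j = σ i then 1 - d i else 0 where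
  proj i j := by
    split_ifs
    · rw [add_sub_cancel]; exact .one _
    · rw [add_zero]; exact hd i
    · rw [zero_add]; exact (hd i).one_sub
    · rw [add_zero]; exact .zero _
  row i := by simp [sum_add_distrib]
  col j := by
    have : ∀ k, j = σ k ↔ σ j = k := fun k => ⟨fun e => by rw [e, hσ], fun e => by rw [← e, hσ]⟩
    simp [sum_add_distrib, this, h]

variable {H : Type} [NormedAddCommGroup H] [InnerProductSpace ℂ H] [CompleteSpace H]
  {M : VonNeumannAlgebra H} {τ : (H →L[ℂ] H) → ℂ}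

theorem exlin (h : UC.Tr M τ) : ∃ T : (H →L[ℂ] H) →ₗ[ℂ] ℂ, (∀ x ∈ M, τ x = T x) ∧
    ∀ x y, x ≤ y → (T x).re ≤ (T y).re := by
  obtain ⟨ξ, hξ, h1⟩ := h.normal
  refine ⟨tr ξ hξ, fun x hx => (h1 x hx).tsum_eq.symm, fun x y e => ?_⟩
  have := tr_pos ξ hξ (sub_nonneg.2 e)
  rwa [map_sub, Complex.sub_re, sub_nonneg] at this

theorem rng {p : H →L[ℂ] H} (hp : IsStarProjection p) {v : H} :
    v ∈ LinearMap.range (p : H →ₗ[ℂ] H) ↔ p v = v :=
  ⟨by rintro ⟨w, rfl⟩; exact congrArg (fun x : H →L[ℂ] H => x w) hp.isIdempotentElem.eq,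
    fun h => ⟨v, h⟩⟩

theorem meet_sp {p q : H →L[ℂ] H} (hp : IsStarProjection p) (hq : IsStarProjection q)
    (hpM : p ∈ M) (hqM : q ∈ M) : IsStarProjection (meet p q) ∧ meet p q ∈ M ∧
      p * meet p q = meet p q ∧ q * meet p q = meet p q := by
  have hi : ∀ T ∈ M.commutant, ∀ v ∈ LinearMap.range (p : H →ₗ[ℂ] H) ⊓
      LinearMap.range (q : H →ₗ[ℂ] H), T v ∈ LinearMap.range (p : H →ₗ[ℂ] H) ⊓
        LinearMap.range (q : H →ₗ[ℂ] H) := by
    rintro T hT v ⟨⟨a, ha⟩, b, hb⟩
    exact ⟨⟨T a, ha ▸ congrArg (fun x : H →L[ℂ] H => x a) (comm_of_mem M hpM hT).eq⟩,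
      T b, hb ▸ congrArg (fun x : H →L[ℂ] H => x b) (comm_of_mem M hqM hT).eq⟩
  have h1 : ∀ v, p (meet p q v) = meet p q v ∧ q (meet p q v) = meet p q v := fun v =>
    closure_minimal (t := {w | p w = w ∧ q w = w}) (fun w hw => ⟨(rng hp).1 hw.1, (rng hq).1 hw.2⟩)
      ((isClosed_eq p.continuous continuous_id).inter (isClosed_eq q.continuous continuous_id))
      (proj_mem _ v)
  exact ⟨proj_sp _, mem_of_comm M fun T hT => (proj_comm (hi T hT) (hi _ (star_mem hT))).symm,
    ContinuousLinearMap.ext fun v => (h1 v).1, ContinuousLinearMap.ext fun v => (h1 v).2⟩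

/-- comparison of traces -/
theorem cmp (h : UC.Tr M τ) {e g : H →L[ℂ] H} (he : IsStarProjection e) (hg : IsStarProjection g)
    (heM : e ∈ M) (hgM : g ∈ M) {δ : ℝ} (hδ : 0 < δ) (hl : (δ : ℂ) • e ≤ e * g * e) :
    (τ e).re ≤ (τ g).re := by
  obtain ⟨T, hT, hm⟩ := exlin h
  have htr : ∀ x ∈ M, ∀ y ∈ M, T (x * y) = T (y * x) := fun x hx y hy => by
    rw [← hT _ (mul_mem hx hy), ← hT _ (mul_mem hy hx), h.trace x hx y hy]
  have h1 : T 1 = 1 := by rw [← hT _ (one_mem _), h.one]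
  rw [hT e heM, hT g hgM]
  refine le_of_forall_pos_le_add fun ε hε => ?_
  obtain ⟨k, hk⟩ : ∃ k : ℝ, k * k * δ * ε = 1 := ⟨√(δ * ε)⁻¹, by
    rw [Real.mul_self_sqrt (by positivity)]; field_simp⟩
  set x := (k : ℂ) • (g * e) with hx
  have hxM : x ∈ M := vsm _ (mul_mem hgM heM)
  obtain ⟨c, hcM, hc, hcy⟩ := exsq M (mul_mem (star_mem hxM) hxM) (star_mul_self_nonneg x)
  have a0 : c * (star x * x) * c = star (x * c) * (x * c) := by
    rw [star_mul, hc.star_eq]; simp only [mul_assoc]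
  have a1 : star (x * c) * (x * c) ≤ 1 := by
    rw [← a0, ← hcy]
    exact le_add_of_nonneg_right (by simpa [hc.star_eq] using star_mul_self_nonneg c)
  have a2 : x * c * star (x * c) ≤ 1 := by
    rw [← CStarAlgebra.norm_le_one_iff_of_nonneg _ (mul_star_self_nonneg _),
      CStarRing.norm_self_mul_star, ← CStarRing.norm_star_mul_self,
      CStarAlgebra.norm_le_one_iff_of_nonneg _ (star_mul_self_nonneg _)]
    exact a1
  have hgx : g * x = x := by rw [hx, mul_smul_comm, ← mul_assoc, hg.isIdempotentElem.eq]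
  have a3 : (T (star (x * c) * (x * c))).re ≤ (T g).re := by
    rw [htr _ (star_mem (mul_mem hxM hcM)) _ (mul_mem hxM hcM)]
    refine hm _ _ ?_
    have := star_left_conjugate_le_conjugate a2 g
    rw [hg.isSelfAdjoint.star_eq, mul_one, hg.isIdempotentElem.eq, ← mul_assoc, ← mul_assoc,
      hgx, mul_assoc (x * c)] at this
    nth_rewrite 1 [← hg.isSelfAdjoint.star_eq] at this
    rwa [← star_mul, ← mul_assoc, hgx] at this
  have a4 : (T (c * e * c)).re ≤ ε := by
    have b1 : star x * x = ((k * k : ℝ) : ℂ) • (e * g * e) := by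
      rw [hx, star_smul, star_mul, he.isSelfAdjoint.star_eq, hg.isSelfAdjoint.star_eq,
        smul_mul_smul_comm, mul_assoc e g, ← mul_assoc g g, hg.isIdempotentElem.eq, ← mul_assoc]
      simp
    have b2 := hm _ _ (star_left_conjugate_le_conjugate hl c)
    have b3 := hm _ _ a1
    rw [← a0, b1, h1] at b3
    simp only [hc.star_eq, mul_smul_comm, smul_mul_assoc, map_smul, smul_eq_mul,
      Complex.re_ofReal_mul, Complex.one_re] at b2 b3
    have b4 := mul_le_mul_of_nonneg_left b2 (mul_self_nonneg k)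
    have b5 : k * k * δ * (T (c * e * c)).re ≤ k * k * δ * ε := by rw [hk]; linarith
    exact le_of_mul_le_mul_left b5 (by
      by_contra h0
      have : k * k * δ = 0 := le_antisymm (not_lt.1 h0) (mul_nonneg (mul_self_nonneg k) hδ.le)
      rw [this] at hk
      simp at hk)
  have a5 : T e = T (star (x * c) * (x * c) * e) + T (c * e * c) := by
    rw [htr _ (mul_mem hcM heM) _ hcM, ← mul_assoc c c e, ← map_add, ← add_mul, ← a0, hcy, one_mul]
  have a6 : (T (star (x * c) * (x * c) * e)).re ≤ (T (star (x * c) * (x * c))).re := by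
    have hz := mul_mem hxM hcM
    rw [mul_assoc, htr _ (star_mem hz) _ (mul_mem hz heM), htr _ (star_mem hz) _ hz]
    refine hm _ _ ?_
    simpa only [mul_one] using star_right_conjugate_le_conjugate he.le_one (x * c)
  rw [a5, Complex.add_re]
  linarith

theorem two (h : UC.Tr M τ) {P Q R : H →L[ℂ] H} (hP : IsStarProjection P)
    (hQ : IsStarProjection Q) (hR : IsStarProjection R) (hPM : P ∈ M) (hQM : Q ∈ M) (hRM : R ∈ M)
    {t : ℝ} (ht : t < 1) (e : Q * R * Q = (t : ℂ) • Q) :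
    (τ (meet P Q)).re + (τ (meet P R)).re ≤ (τ P).re := by
  obtain ⟨a1, a2, a3, a4⟩ := meet_sp hP hQ hPM hQM
  obtain ⟨b1, b2, b3, b4⟩ := meet_sp hP hR hPM hRM
  set E := meet P Q
  set F := meet P R
  have a4' := stareq hQ.isSelfAdjoint a1.isSelfAdjoint a1.isSelfAdjoint a4
  have a3' := stareq hP.isSelfAdjoint a1.isSelfAdjoint a1.isSelfAdjoint a3
  have h1 : E * F * E ≤ (t : ℂ) • E := by
    have := star_left_conjugate_le_conjugate ((b1.le_iff_mul_eq_right hR).2 b4) E
    rw [a1.isSelfAdjoint.star_eq] at this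
    refine this.trans (le_of_eq ?_)
    calc E * R * E = (E * Q) * R * (Q * E) := by rw [a4, a4']
      _ = E * (Q * R * Q) * E := by simp only [mul_assoc]
      _ = _ := by rw [e, mul_smul_comm, smul_mul_assoc, a4', a1.isIdempotentElem.eq]
  have h2 := cmp h a1 (psub hP b1 b3).2 a2 (sub_mem hPM b2) (sub_pos.2 ht) (by
    rw [mul_sub, sub_mul, a3', a1.isIdempotentElem.eq, Complex.ofReal_sub, sub_smul,
      Complex.ofReal_one, one_smul]
    exact sub_le_sub_left h1 _)
  obtain ⟨T, hT, -⟩ := exlin h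
  rw [hT _ (sub_mem hPM b2), map_sub, Complex.sub_re, ← hT _ hPM, ← hT _ b2] at h2
  linarith

end Pool.Agent.H75.QP
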