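import Pool.Agent.H75.QP9

set_option linter.unusedSectionVars false
set_option linter.deprecated false

namespace Pool.Agent.H75.QP
open Filter Topology Finset Equiv Pool.Agent.H86.Roe Pool.Agent.H99.GVN
open scoped InnerProductSpace ComplexOrder

variable {n : ℕ} {A : Type} [CStarAlgebra A] {u : Fin n → Fin n → A}

/-- the rotation -/
noncomputable def BB (hn : 5 ≤ n) (u : Fin n → Fin n → A) (c : ℂ) : A :=
  (1 : ℂ) • ((1 : ℂ) • u ⟨2, by omega⟩ ⟨2, by omega⟩ + c ^ 2 • u ⟨2, by omega⟩ ⟨3, by omega⟩) +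
    c • u ⟨2, by omega⟩ ⟨4, by omega⟩

/-- the reflection -/
noncomputable def U0 (hn : 5 ≤ n) (u : Fin n → Fin n → A) : A :=
  (2 : ℂ) • u ⟨0, by omega⟩ ⟨0, by omega⟩ + (-1 : ℂ) • 1

/-- three reflections -/
noncomputable def UU (hn : 5 ≤ n) (u : Fin n → Fin n → A) : Fin 3 → A :=
  ![U0 hn u, BB hn u om * U0 hn u * BB hn u (om ^ 2), BB hn u (om ^ 2) * U0 hn u * BB hn u om]

theorem UU_lip (hn : 5 ≤ n) (hu : Magic u) (i : Fin 3) : Lip u (UU hn u i) := by
  have b : ∀ c, Lip u (BB hn u c) := fun c =>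
    ((Lip.gen hu _ _).comb (.gen hu _ _) _ _).comb (.gen hu _ _) _ _
  have a : Lip u (U0 hn u) := (Lip.gen hu _ _).comb .one _ _
  have m := fun {a b} => Lip.mul hu ⟨0, by omega⟩ (a := a) (b := b)
  fin_cases i
  exacts [a, m (m (b _) a) (b _), m (m (b _) a) (b _)]

theorem UU_star (hn : 5 ≤ n) (hu : Magic u) (i : Fin 3) : star (UU hn u i) = UU hn u i := by
  have p := fun i j => (hu.proj i j).isSelfAdjoint.star_eq
  have b : star (BB hn u om) = BB hn u (om ^ 2) := by
    simp only [BB, star_add, star_smul, star_pow, om_star, p, star_one]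
  have b' : star (BB hn u (om ^ 2)) = BB hn u om := by rw [← b, star_star]
  have a : star (U0 hn u) = U0 hn u := by simp [U0, p]
  fin_cases i <;> simp [UU, a, b, b', mul_assoc]

theorem rep5 (hn : 5 ≤ n) (hu : Universal u) (G : Type) [Group G] (r : Fin 3 → G) (b : G)
    (hr : ∀ i, r i * r i = 1) (hb3 : b * b * b = 1) (r1 : b * r 0 * (b * b) = r 1)
    (r2 : b * b * r 0 * b = r 2) : ∃ ψ : A →L[ℂ] ℂ, IsTrace ψ ∧ (∀ a, ‖ψ a‖ ≤ ‖a‖) ∧
      (∀ k (w w' : W k), ψ (star (ev (UU hn u) w) * ev (UU hn u) w') =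
        δ ((ev r w)⁻¹ * ev r w') 1) ∧
      ∀ i, ψ (star (UU hn u i * UU hn u i - 1) * (UU hn u i * UU hn u i - 1)) = 0 := by
  let c : Perm (Fin n) := ⟨fun i => ⟨if i.val = 0 then 1 else if i.val = 1 then 0 else
    if i.val = 2 then 3 else if i.val = 3 then 4 else if i.val = 4 then 2 else i.val,
      by have := i.2; split_ifs <;> omega⟩, fun i => ⟨if i.val = 0 then 1 else if i.val = 1 then 0
    else if i.val = 2 then 4 else if i.val = 3 then 2 else if i.val = 4 then 3 else i.val,
      by have := i.2; split_ifs <;> omega⟩,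
    fun i => Fin.ext (by dsimp only; split_ifs <;> first | omega | contradiction),
    fun i => Fin.ext (by dsimp only; split_ifs <;> first | omega | contradiction)⟩
  let p : H G →L[ℂ] H G := (1 / 2 : ℂ) • (1 + L (r 0))
  have pp : IsStarProjection p := by
    constructor
    · change _ * _ = _
      simp only [p]
      rw [smul_mul_smul_comm, add_mul, mul_add, mul_add, ← H99.GVN.L_mul, hr, L_one]
      simp only [one_mul, mul_one]
      module
    · change star _ = _
      simp only [p]
      rw [star_smul, star_add, L_star, inv_eq_of_mul_eq_one_right (hr _)]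
      simp
  have x3 : L b * L b * L b = 1 := by rw [← H99.GVN.L_mul, ← H99.GVN.L_mul, hb3, L_one]
  have xs : star (L b) = L b * L b := by
    rw [L_star, ← H99.GVN.L_mul, inv_eq_of_mul_eq_one_left hb3]
  let d : Fin n → Fin 3 → H G →L[ℂ] H G := fun i => if i.val < 2 then ![p, 1 - p, 0] else
    if i.val < 5 then ![E3 (L b) 1, E3 (L b) om, E3 (L b) (om ^ 2)] else ![1, 0, 0]
  have o3 : (om ^ 2) ^ 3 = 1 := by rw [← pow_mul, mul_comm, pow_mul, om_3, one_pow]
  obtain ⟨π, hπ⟩ := (hu.lift _ _ (magic3 ![1, c, c.symm] d (fun i t => by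
      simp only [d]
      split_ifs <;> fin_cases t
      exacts [pp, pp.one_sub, .zero _, E3_sp x3 xs (one_pow _) (by simp), E3_sp x3 xs om_3 om_star,
        E3_sp x3 xs o3 (by rw [star_pow, om_star]), .one _, .zero _, .zero _])
    (fun i => by
      simp only [d]
      split_ifs
      · simp [mul_sub, pp.isIdempotentElem.eq]
      · exact ⟨E3_or x3 (one_pow _) (by linear_combination om_eq),
          E3_or x3 (one_pow _) (by linear_combination om_eq + om * om_3),
          E3_or x3 om_3 (by linear_combination om ^ 2 * om_eq)⟩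
      · simp)
    (fun i => by
      simp only [d]
      split_ifs
      · simp [Fin.sum_univ_three]
      · rw [Fin.sum_univ_three]
        change E3 _ _ + E3 _ _ + E3 _ _ = _
        simp only [E3]
        match_scalars
        · ring
        · linear_combination (1 / 3 : ℂ) * om_eq
        · linear_combination (1 / 3 : ℂ) * om_eq + om / 3 * om_3
      · simp [Fin.sum_univ_three])
    fun t i => congrFun (by
      fin_cases t
      · rfl
      · exact if_congr (by simp [c]; split_ifs <;> omega) rfl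
          (if_congr (by simp [c]; split_ifs <;> omega) rfl rfl)
      · exact if_congr (by simp [c]; split_ifs <;> omega) rfl
          (if_congr (by simp [c]; split_ifs <;> omega) rfl rfl)) t)).exists
  have hM : ∀ a, π a ∈ M G := fun a => mem_M.2 fun g => comm_all hu π _ (fun i j => by
    have pm : p ∈ M G := smul_mem (add_mem (one_mem _) (L_mem _)) _
    have em : ∀ e, E3 (L b) e ∈ M G := fun e => smul_mem (add_mem (add_mem (one_mem _)
      (smul_mem (L_mem _) _)) (smul_mem (mul_mem (L_mem _) (L_mem _)) _)) _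
    refine mem_M.1 ?_ g
    rw [hπ]
    refine sum_mem fun t _ => ?_
    simp only [d]
    split_ifs <;> fin_cases t <;> first
      | exact zero_mem _ | exact one_mem _ | exact pm | exact sub_mem (one_mem _) pm | exact em _) a
  have hb : ∀ a, ‖UC.tau (π a)‖ ≤ ‖a‖ := fun a => by
    rw [UC.tau, inner_δ]
    exact (ent_le _ _ _).trans (NonUnitalStarAlgHom.norm_apply_le π a)
  let l : A →ₗ[ℂ] ℂ :=
    { toFun := fun a => UC.tau (π a)
      map_add' := fun a b => by simp [UC.tau, inner_add_right]
      map_smul' := fun c a => by simp [UC.tau, inner_smul_right] }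
  have e : ∀ a, l.mkContinuous 1 (fun a => by rw [one_mul]; exact hb a) a = UC.tau (π a) :=
    fun _ => rfl
  have v0 : π (U0 hn u) = L (r 0) := by
    rw [U0, map_add, map_smul, map_smul, map_one, hπ]
    simp [Fin.sum_univ_three, c, d, p, Fin.ext_iff]
  have vb : ∀ z, π (BB hn u z) = E3 (L b) 1 + z ^ 2 • E3 (L b) om + z • E3 (L b) (om ^ 2) :=
    fun z => by
      simp only [BB, map_add, map_smul, hπ]
      simp [Fin.sum_univ_three, c, d, Fin.ext_iff]
  have v1 : π (BB hn u om) = L b := by
    simp only [vb, E3]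
    match_scalars
    · linear_combination (1 / 3 : ℂ) * om_eq
    · linear_combination (2 / 3 : ℂ) * om_3
    · linear_combination (1 / 3 : ℂ) * om_eq + (om + om ^ 2) / 3 * om_3
  have v2 : π (BB hn u (om ^ 2)) = L b * L b := by
    simp only [vb, E3]
    match_scalars
    · linear_combination (1 / 3 : ℂ) * om_eq + om / 3 * om_3
    · linear_combination (1 / 3 : ℂ) * om_eq + (om + om ^ 2) / 3 * om_3
    · linear_combination (2 / 3 : ℂ) * (om ^ 3 + 1) * om_3
  have v : ∀ i, π (UU hn u i) = L (r i) := fun i => by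
    fin_cases i <;> simp [UU, v0, v1, v2, ← r1, ← r2, H99.GVN.L_mul]
  refine ⟨l.mkContinuous 1 fun a => by rw [one_mul]; exact hb a, ⟨?_, fun a => ?_,
    fun a b => ?_⟩, hb, fun k w w' => ?_, fun i => ?_⟩
  · rw [e, map_one]; exact UC.tr_tau.one
  · rw [e, map_mul, map_star, UC.tau_ss]; exact Complex.zero_le_real.2 (sq_nonneg _)
  · rw [e, e, map_mul, map_mul, UC.tau_comm (hM a) (hM b)]
  · let LH : G →* (H G →L[ℂ] H G) := ⟨⟨L, L_one⟩, H99.GVN.L_mul⟩
    rw [e, map_mul, map_star, ev_map, ev_map, show (fun i => π (UU hn u i)) = fun i => LH (r i)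
      from funext v, ← ev_map LH, ← ev_map LH]
    change UC.tau (star (L _) * L _) = _
    rw [L_star, ← H99.GVN.L_mul, UC.tau, inner_δ, L_δ]
  · rw [e, map_mul, map_sub, map_mul, v, ← H99.GVN.L_mul, hr, L_one, map_one, sub_self, mul_zero]
    simp [UC.tau]

/-- the cyclic shift -/
def bP (R : Type) : Perm (Fin 3 → R) := ⟨fun f j => f (j + 2), fun f j => f (j + 1),
  fun f => funext fun j => by fin_cases j <;> rfl, fun f => funext fun j => by fin_cases j <;> rfl⟩

theorem mainD (hn : 5 ≤ n) (hu : Universal u) : ∃ φ, IsTrace φ ∧ ∃ c > 0, ∀ (S : Finset A),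
    ∀ ε > 0, ∃ ψ, IsTrace ψ ∧ (∀ a ∈ S, ‖φ a - ψ a‖ < ε) ∧ ∀ r s, Cpl u φ ψ r s → c ≤ s := by
  classical
  choose ψ h1 h2 h3 h4 using fun m : ℕ => rep5 hn hu (Perm (Fin 3 → ZMod (m + 1))) (rP _) (bP _)
    (fun i => Equiv.ext fun x => (rP _ i).left_inv x)
    (Equiv.ext fun f => funext fun j => by fin_cases j <;> rfl)
    (Equiv.ext fun f => funext fun j => by fin_cases j <;> rfl)
    (Equiv.ext fun f => funext fun j => by fin_cases j <;> rfl)
  obtain ⟨φ, hφ, hl⟩ := ulim ψ h1 h2
  choose D D0 hD using UU_lip hn hu.magic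
  set U := UU hn u with hU
  have sU := UU_star hn hu.magic
  have K0 : 0 ≤ ∑ i, D i * ‖U i‖ := sum_nonneg fun i _ => mul_nonneg (D0 i) (norm_nonneg _)
  refine ⟨φ, hφ, 1 / 6 / (∑ i, D i * ‖U i‖ + 1), by positivity, fun S ε hε => ?_⟩
  obtain ⟨m, hm⟩ := ((eventually_all_finset S).2 fun a _ =>
    Metric.tendsto_nhds.1 (hl a) ε hε).exists
  refine ⟨ψ m, h1 m, fun a ha => by rw [← dist_eq_norm, dist_comm]; exact hm a ha, ?_⟩
  rintro r s ⟨K, _, _, _, N, τ, α, β, C, -, rfl⟩
  have qU : ∀ i, β (U i) * β (U i) = 1 := fun i => by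
    rw [← map_mul, ← map_one β, ← sub_eq_zero, ← map_sub]
    exact C.tr.faithful _ (C.mem _).2 (by rw [← map_star, ← map_mul, (C.val _).2, h4])
  have g := gapA C.tr (a := fun i => α (U i)) (b := fun i => β (U i)) (fun i => (C.mem _).1)
    (fun i => (C.mem _).2) (fun i => by rw [← map_star, sU]) (fun i => by rw [← map_star, sU])
    (fun i => by constructor <;> rw [← map_star, sU, qU])
    (fun w => ev (rP (ZMod (m + 1))) w) (fun k w w' hq => by
      rw [← ev_map β, ← ev_map β, ← sub_eq_zero, ← map_sub]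
      refine C.tr.faithful _ (C.mem _).2 ?_
      rw [← map_star, ← map_mul, (C.val _).2, star_sub, sub_mul, mul_sub, mul_sub, map_sub, map_sub,
        map_sub, h3, h3, h3, h3, hq]
      ring) (ρ := 17 / 6) (by norm_num) fun k F => count F _ (fun w w' => by
        rw [← ev_map α, ← ev_map α, ← map_star, ← map_mul, (C.val _).1]
        refine le_of_tendsto' ((Complex.continuous_re.tendsto _).comp (hl _)) fun j => ?_
        rw [Function.comp, h3, δ_apply]
        split_ifs <;> simp) fun w w' hw => by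
          rw [← ev_map α, ← ev_map α, ← map_star, ← map_mul, (C.val _).1]
          obtain ⟨i, hi⟩ := Function.ne_iff.1 (Subtype.coe_ne_coe.2 hw)
          refine le_of_tendsto ((Complex.continuous_re.tendsto _).comp (hl _))
            (Eventually.filter_mono (hyperfilter_le_cofinite.trans Nat.cofinite_eq_atTop.le) ?_)
          filter_upwards [eventually_ge_atTop ((ev sX w' x0).1 i - (ev sX w x0).1 i).natAbs]
            with j hj
          rw [Function.comp, h3, δ_apply, if_neg, Complex.zero_re]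
          intro h
          have := congrArg (fun g : Perm (Fin 3 → ZMod (j + 1)) => g (fun _ => 1) i)
            (inv_mul_eq_one.1 h.symm)
          simp only [modm] at this
          have := Int.natAbs_le_of_dvd_ne_zero ((ZMod.intCast_eq_intCast_iff_dvd_sub _ _ _).1 this)
            (sub_ne_zero.2 hi.symm)
          omega
  obtain ⟨T, hT, -⟩ := exlin C.tr
  have s0 := (cost_ge hu.magic C ⟨0, by omega⟩ ⟨0, by omega⟩).1
  have b2 : ∀ i, 1 - D i * ‖U i‖ * costOne u τ α β ≤ (τ (α (U i) * β (U i))).re := fun i => by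
    have a1 := hD i φ (ψ m) K N τ α β C _ (C.mem (U i)).2
    have a2 := mul_le_mul_of_nonneg_right (mul_le_mul_of_nonneg_left
      (NonUnitalStarAlgHom.norm_apply_le β (U i)) (D0 i)) s0
    have a3 : T 1 = 1 := by rw [← hT _ (one_mem _), C.tr.one]
    rw [mul_sub, qU, hT _ (sub_mem (mul_mem (C.mem _).2 (C.mem _).1) (one_mem _)), map_sub, a3,
      ← hT _ (mul_mem (C.mem _).2 (C.mem _).1), C.tr.trace _ (C.mem _).2 _ (C.mem _).1,
      norm_sub_rev] at a1
    have a4 := (Complex.re_le_norm _).trans a1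
    rw [Complex.sub_re, Complex.one_re] at a4
    linarith
  rw [div_le_iff₀ (by positivity)]
  rw [Fin.sum_univ_three] at g ⊢
  linarith [b2 0, b2 1, b2 2]

end Pool.Agent.H75.QP
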