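import Pool.Agent.H75.QP1

set_option linter.unusedSectionVars false
set_option linter.deprecated false

namespace Pool.Agent.H75.QP
open Filter Topology Finset Pool.Agent.H86.Wu Pool.Agent.H75.IL Pool.Agent.H75.IE
  InnerProductSpace
open scoped InnerProductSpace ComplexOrder

variable {n : ℕ} {A : Type} [CStarAlgebra A] {u : Fin n → Fin n → A}

theorem lower (hu : Magic u) {φ ψ : A →L[ℂ] ℂ} {i k : Fin n} (hik : i ≠ k) {t : ℝ} (ht : t < 1)
    (h1 : φ (star (u i i - u k k) * (u i i - u k k)) = 0) (h2 : (φ (u i i)).re = 1 / 2)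
    (h3 : ψ (star (u i i * u k k * u i i - (t : ℂ) • u i i) *
      (u i i * u k k * u i i - (t : ℂ) • u i i)) = 0) {r s : ℝ} (h : Cpl u φ ψ r s) :
    1 / n * (1 / 2) ≤ r := by
  obtain ⟨H, _, _, _, M, τ, α, β, C, rfl, -⟩ := h
  have pa : ∀ a b, IsStarProjection (α (u a b)) := fun a b => (hu.proj a b).map α
  have pb : ∀ a b, IsStarProjection (β (u a b)) := fun a b => (hu.proj a b).map β
  have e1 : α (u i i) = α (u k k) := by
    rw [← sub_eq_zero, ← map_sub]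
    exact C.tr.faithful _ (C.mem _).1 (by rw [← map_star, ← map_mul, (C.val _).1, h1])
  have e2 : β (u i i) * β (u k k) * β (u i i) = (t : ℂ) • β (u i i) := by
    rw [← sub_eq_zero, ← map_mul, ← map_mul, ← map_smul, ← map_sub]
    exact C.tr.faithful _ (C.mem _).2 (by rw [← map_star, ← map_mul, (C.val _).2, h3])
  have h4 := two C.tr (pa i i) (pb i i) (pb k k) (C.mem _).1 (C.mem _).2 (C.mem _).2 ht e2
  obtain ⟨T, hT, hm⟩ := exlin C.tr
  let a : Fin n → Fin n → ℝ := fun x y =>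
    (τ (α (u x y))).re - (τ (meet (α (u x y)) (β (u x y)))).re
  have ha : ∀ x y, 0 ≤ a x y := fun x y => by
    obtain ⟨b1, b2, b3, -⟩ := meet_sp (pa x y) (pb x y) (C.mem _).1 (C.mem _).2
    simp only [a]
    rw [hT _ b2, hT _ (C.mem _).1, sub_nonneg]
    exact hm _ _ ((b1.le_iff_mul_eq_right (pa x y)).2 b3)
  have hr : ∀ x, ∑ y, (τ (α (u x y))).re = 1 := fun x => by
    simp only [hT _ (C.mem _).1]
    rw [← Complex.re_sum, ← map_sum, ← map_sum, hu.row, map_one, ← hT _ (one_mem _), C.tr.one,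
      Complex.one_re]
  have h5 : ∑ x ∈ {i, k}, a x x ≤ ∑ x, ∑ y, a x y :=
    (sum_le_sum_of_subset_of_nonneg (subset_univ _) fun x _ _ => ha x x).trans
      (sum_le_sum fun x _ => single_le_sum (fun y _ => ha x y) (mem_univ x))
  rw [sum_pair hik] at h5
  simp only [a, sum_sub_distrib, hr, sum_const, card_univ, Fintype.card_fin, nsmul_eq_mul,
    mul_one, ← e1] at h5
  rw [(C.val _).1, h2] at h4 h5
  have hn : (0 : ℝ) < n := Nat.cast_pos.2 i.pos
  have h6 := mul_le_mul_of_nonneg_left (show 1 / 2 ≤ n - ∑ x, ∑ y,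
    (τ (meet (α (u x y)) (β (u x y)))).re by linarith) (one_div_pos.2 hn).le
  rw [mul_sub, one_div_mul_cancel hn.ne'] at h6
  exact h6

abbrev E2 := EuclideanSpace ℂ (Fin 2)

noncomputable def bb : OrthonormalBasis (Fin 2) ℂ E2 := EuclideanSpace.basisFun (Fin 2) ℂ

noncomputable def T2 : (E2 →L[ℂ] E2) →L[ℂ] ℂ :=
  (1 / 2 : ℂ) • ∑ i, (innerSL ℂ (bb i)).comp (ContinuousLinearMap.apply ℂ E2 (bb i))

theorem T2_apply (x : E2 →L[ℂ] E2) : T2 x = 1 / 2 * ∑ i, ⟪bb i, x (bb i)⟫_ℂ := by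
  simp [T2, mul_add]

theorem T2_tr (x y : E2 →L[ℂ] E2) : T2 (x * y) = T2 (y * x) := by
  have := LinearMap.trace_mul_comm ℂ (x : E2 →ₗ[ℂ] E2) (y : E2 →ₗ[ℂ] E2)
  rw [LinearMap.trace_eq_sum_inner _ bb, LinearMap.trace_eq_sum_inner _ bb] at this
  rw [T2_apply, T2_apply]
  exact congrArg _ this

theorem T2_ss (x : E2 →L[ℂ] E2) :
    T2 (star x * x) = ((1 / 2 * ∑ i, ‖x (bb i)‖ ^ 2 : ℝ) : ℂ) := by
  rw [T2_apply]
  push_cast
  refine congrArg _ (sum_congr rfl fun i _ => ?_)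
  change ⟪bb i, star x (x (bb i))⟫_ℂ = _
  rw [← ssym', inner_self_eq_norm_sq_to_K]
  rfl

theorem T2_one : T2 1 = 1 := by
  have := T2_ss 1
  simpa [bb.orthonormal.1] using this

noncomputable def M2 : VonNeumannAlgebra E2 where
  toStarSubalgebra := ⊤
  centralizer_centralizer' := Set.eq_univ_of_univ_subset Set.subset_centralizer_centralizer

theorem T2_Tr : UC.Tr M2 T2 := by
  let ξ : ℕ → E2 := fun i => if h : i < 2 then ((√(1 / 2) : ℝ) : ℂ) • bb ⟨i, h⟩ else 0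
  refine ⟨⟨ξ, summable_of_ne_finset_zero (s := Finset.range 2) (by simp +contextual [ξ]),
    fun x _ => ?_⟩, T2_one, fun x _ y _ => T2_tr x y, fun x _ h => ?_⟩
  · have h1 : ((√(1 / 2) : ℝ) : ℂ) * ((√(1 / 2) : ℝ) : ℂ) = 1 / 2 := by
      rw [← Complex.ofReal_mul, Real.mul_self_sqrt (by norm_num)]; simp
    have e : T2 x = ∑ i ∈ Finset.range 2, ⟪ξ i, x (ξ i)⟫_ℂ := by
      rw [T2_apply, Fin.sum_univ_two, sum_range_succ, sum_range_one]
      simp only [ξ, Nat.ofNat_pos, dif_pos, Nat.one_lt_ofNat, map_smul, inner_smul_left,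
        inner_smul_right, Complex.conj_ofReal, ← mul_assoc, h1, mul_add]
      rfl
    rw [e]
    exact hasSum_sum_of_ne_finset_zero fun b hb => by
      rw [show ξ b = 0 from dif_neg (by simpa using hb), inner_zero_left]
  · rw [T2_ss, Complex.ofReal_eq_zero, Fin.sum_univ_two] at h
    refine ContinuousLinearMap.coe_injective (bb.toBasis.ext fun i => ?_)
    have h0 : ‖x (bb 0)‖ ^ 2 = 0 := by nlinarith [sq_nonneg ‖x (bb 0)‖, sq_nonneg ‖x (bb 1)‖]
    have h1 : ‖x (bb 1)‖ ^ 2 = 0 := by nlinarith [sq_nonneg ‖x (bb 0)‖, sq_nonneg ‖x (bb 1)‖]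
    fin_cases i
    · simpa using h0
    · simpa using h1

theorem T2_le (x : E2 →L[ℂ] E2) : (T2 x).re ≤ ‖x‖ := by
  have h : ∀ i, (⟪bb i, x (bb i)⟫_ℂ).re ≤ ‖x‖ := fun i =>
    (Complex.re_le_norm _).trans (by simpa [bb.orthonormal.1] using bnd x (bb i) (bb i))
  rw [T2_apply, Fin.sum_univ_two]
  have := h 0
  have := h 1
  simp
  linarith

theorem RP {w : E2} (h : ‖w‖ = 1) : IsStarProjection (rankOne ℂ w w) :=
  ⟨by
    change rankOne ℂ w w ∘L rankOne ℂ w w = _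
    rw [rankOne_comp_rankOne, inner_self_eq_norm_sq_to_K, h]; simp,
    ContinuousLinearMap.isSelfAdjoint_iff_isSymmetric.2 (isSymmetric_rankOne_self w)⟩

noncomputable def ww (θ : ℝ) : E2 := (Real.cos θ : ℂ) • bb 0 + (Real.sin θ : ℂ) • bb 1

theorem ww_in (θ : ℝ) : ⟪bb 0, ww θ⟫_ℂ = Real.cos θ ∧ ⟪bb 1, ww θ⟫_ℂ = Real.sin θ := by
  simp [ww, inner_add_right, inner_smul_right, bb.orthonormal.1,
    bb.orthonormal.2 (show (0 : Fin 2) ≠ 1 by decide), bb.orthonormal.2 (show (1 : Fin 2) ≠ 0 by decide)]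

theorem ww_norm (θ : ℝ) : ‖ww θ‖ = 1 := by
  have := bb.sum_sq_norm_inner_right (ww θ)
  rw [Fin.sum_univ_two, (ww_in θ).1, (ww_in θ).2, Complex.norm_real, Complex.norm_real,
    Real.norm_eq_abs, Real.norm_eq_abs, sq_abs, sq_abs, Real.cos_sq_add_sin_sq] at this
  exact (pow_eq_one_iff_of_nonneg (norm_nonneg _) two_ne_zero).1 this.symm

/-- the trace attached to a representation on `ℂ²` -/
noncomputable def trOf (π : A →⋆ₐ[ℂ] (E2 →L[ℂ] E2)) : A →L[ℂ] ℂ :=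
  T2.comp ((π : A →ₗ[ℂ] (E2 →L[ℂ] E2)).mkContinuous 1 fun a => by
    rw [one_mul]; exact NonUnitalStarAlgHom.norm_apply_le π a)

theorem trOf_apply (π : A →⋆ₐ[ℂ] (E2 →L[ℂ] E2)) (a : A) : trOf π a = T2 (π a) := rfl

theorem trOf_tr (π : A →⋆ₐ[ℂ] (E2 →L[ℂ] E2)) : IsTrace (trOf π) :=
  ⟨by rw [trOf_apply, map_one, T2_one], fun a => by
    rw [trOf_apply, map_mul, map_star, T2_ss]
    exact Complex.zero_le_real.2 (by positivity), fun a b => by
    rw [trOf_apply, trOf_apply, map_mul π, map_mul π, T2_tr]⟩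

theorem mainA (hn : 4 ≤ n) (hu : Universal u) : ∃ φ, IsTrace φ ∧ ∃ c > 0, ∀ ε > 0, ∃ ψ,
    IsTrace ψ ∧ (∃ r s, Cpl u φ ψ r s ∧ s < ε) ∧ ∀ r s, Cpl u φ ψ r s → c ≤ r := by
  let σ : Fin n → Fin n := fun i => ⟨if i.val < 4 then (if i.val % 2 = 0 then i.val + 1
    else i.val - 1) else i.val, by have := i.2; split_ifs <;> omega⟩
  have hσ : ∀ i, σ (σ i) = i := fun i => Fin.ext (by simp only [σ]; split_ifs <;> omega)
  set p : E2 →L[ℂ] E2 := rankOne ℂ (bb 0) (bb 0) with hp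
  have hpp : IsStarProjection p := RP (bb.orthonormal.1 0)
  let d : (E2 →L[ℂ] E2) → Fin n → E2 →L[ℂ] E2 := fun q i => if i.val = 2 ∨ i.val = 3 then q else p
  have key : ∀ q, IsStarProjection q → ∃ π : A →⋆ₐ[ℂ] (E2 →L[ℂ] E2), ∀ i j, π (u i j) =
      (if j = i then d q i else 0) + if j = σ i then 1 - d q i else 0 := fun q hq =>
    (hu.lift _ _ (magic σ hσ (d q) (fun i => by simp only [d]; split_ifs; exacts [hq, hpp])
      fun i => if_congr (by simp only [σ]; split_ifs <;> omega) rfl rfl)).exists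
  let i0 : Fin n := ⟨0, by omega⟩
  let i2 : Fin n := ⟨2, by omega⟩
  have v : ∀ {q} {π : A →⋆ₐ[ℂ] (E2 →L[ℂ] E2)}, (∀ i j, π (u i j) = (if j = i then d q i else 0) +
      if j = σ i then 1 - d q i else 0) → π (u i0 i0) = p ∧ π (u i2 i2) = q := fun h => by
    rw [h, h]
    simp [d, σ, i0, i2, Fin.ext_iff]
  obtain ⟨π, hπ⟩ := key p hpp
  have hn' : (0 : ℝ) < n := Nat.cast_pos.2 (by omega)
  refine ⟨trOf π, trOf_tr π, 1 / n * (1 / 2), by positivity, fun ε hε => ?_⟩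
  have hc : Tendsto (fun θ => n * (2 * ‖bb 0 - ww θ‖)) (𝓝[>] 0) (𝓝 (n * (2 * ‖bb 0 - ww 0‖))) :=
    (Continuous.tendsto (by unfold ww; fun_prop) 0).mono_left nhdsWithin_le_nhds
  rw [show ww 0 = bb 0 by simp [ww], sub_self, norm_zero, mul_zero, mul_zero] at hc
  obtain ⟨θ, h1, h2⟩ := (((tendsto_order.1 hc).2 ε hε).and
    (Ioo_mem_nhdsGT Real.pi_pos)).exists
  obtain ⟨ρ, hρ⟩ := key _ (RP (ww_norm θ))
  refine ⟨trOf ρ, trOf_tr ρ, ⟨_, _, ⟨E2, _, _, _, M2, T2, π, ρ, ⟨T2_Tr, fun _ => ⟨trivial, trivial⟩,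
    fun _ => ⟨rfl, rfl⟩⟩, rfl, rfl⟩, lt_of_le_of_lt ?_ h1⟩, fun r s h => lower hu.magic
    (i := i0) (k := i2) (by simp [i0, i2, Fin.ext_iff]) (t := Real.cos θ ^ 2) ?_ ?_ ?_ ?_ h⟩
  · have b1 : ‖p - rankOne ℂ (ww θ) (ww θ)‖ ≤ 2 * ‖bb 0 - ww θ‖ := by
      have : p - rankOne ℂ (ww θ) (ww θ) =
          rankOne ℂ (bb 0 - ww θ) (bb 0) + rankOne ℂ (ww θ) (bb 0 - ww θ) := by
        simp [hp]
      rw [this]
      refine (norm_add_le _ _).trans ?_
      rw [norm_rankOne, norm_rankOne, ww_norm, bb.orthonormal.1]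
      linarith
    have b2 : ∀ i, ‖d p i - d (rankOne ℂ (ww θ) (ww θ)) i‖ ≤ 2 * ‖bb 0 - ww θ‖ := fun i => by
      simp only [d]
      split_ifs
      · exact b1
      · rw [sub_self, norm_zero]; positivity
    have b3 : ∀ i j, 1 / 2 * (T2 (CFC.abs (π (u i j) - ρ (u i j)))).re ≤ 2 * ‖bb 0 - ww θ‖ :=
      fun i j => by
        have := T2_le (CFC.abs (π (u i j) - ρ (u i j)))
        rw [CFC.norm_abs] at this
        have b4 : ‖π (u i j) - ρ (u i j)‖ ≤ 2 * ‖bb 0 - ww θ‖ := by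
          rw [hπ, hρ]
          split_ifs
          · simp
          · simpa using b2 i
          · rw [zero_add, zero_add, sub_sub_sub_cancel_left, norm_sub_rev]; exact b2 i
          · simp
        linarith [norm_nonneg (bb 0 - ww θ)]
    have b5 := sum_le_sum fun i (_ : i ∈ univ) => sum_le_sum fun j (_ : j ∈ univ) => b3 i j
    simp only [sum_const, card_univ, Fintype.card_fin, nsmul_eq_mul] at b5
    have := mul_le_mul_of_nonneg_left b5 (one_div_pos.2 hn').le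
    rwa [← mul_assoc, one_div_mul_cancel hn'.ne', one_mul] at this
  · have := Real.sin_pos_of_mem_Ioo h2
    nlinarith [Real.cos_sq_add_sin_sq θ]
  · rw [trOf_apply, map_mul, map_sub, (v hπ).1, (v hπ).2, sub_self, mul_zero, map_zero]
  · rw [trOf_apply, (v hπ).1, T2_apply, Fin.sum_univ_two]
    simp [hp, bb.orthonormal.1, bb.orthonormal.2 (show (0 : Fin 2) ≠ 1 by decide)]
  · have : p * rankOne ℂ (ww θ) (ww θ) * p = ((Real.cos θ ^ 2 : ℝ) : ℂ) • p := by
      ext1 x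
      simp only [hp, ContinuousLinearMap.mul_apply, rankOne_apply, map_smul, smul_smul,
        ContinuousLinearMap.smul_apply, (ww_in θ).1, ← inner_conj_symm (ww θ) (bb 0),
        Complex.conj_ofReal]
      congr 1
      push_cast
      ring
    rw [trOf_apply, map_mul ρ, map_sub ρ, map_mul ρ, map_mul ρ, map_smul ρ, (v hρ).1, (v hρ).2, this,
      sub_self, mul_zero, map_zero]

end Pool.Agent.H75.QP
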