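import Pool.Agent.H75.QP2
import Pool.Agent.H86.RoeD

set_option linter.unusedSectionVars false
set_option linter.deprecated false

namespace Pool.Agent.H75.QP
open Finset Equiv Pool.Agent.H86.Roe
open scoped InnerProductSpace ComplexOrder

/-- the commutant of the shift by `m` -/
noncomputable def Mz (m : ℕ) : VonNeumannAlgebra (H ℤ) where
  toStarSubalgebra := StarSubalgebra.centralizer ℂ
    (Set.range fun c : ℤ => V (Equiv.addRight (c * m)))
  centralizer_centralizer' := by simp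

theorem mem_Mz {m : ℕ} {x : H ℤ →L[ℂ] H ℤ} : x ∈ Mz m ↔
    ∀ c : ℤ, V (Equiv.addRight (c * m)) * x = x * V (Equiv.addRight (c * m)) := by
  change x ∈ StarSubalgebra.centralizer ℂ (Set.range _) ↔ _
  rw [StarSubalgebra.mem_centralizer_iff]
  refine ⟨fun h c => (h _ ⟨c, rfl⟩).1, ?_⟩
  rintro h _ ⟨c, rfl⟩
  refine ⟨h c, ?_⟩
  have : (Equiv.addRight (c * m))⁻¹ = Equiv.addRight ((-c) * m) := by ext; simp
  rw [V_star, this]
  exact h _

theorem V_δ (w : Perm ℤ) (a : ℤ) : V w (δ (w a)) = δ a :=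
  lp.ext (funext fun z => by rw [V_apply, δ_apply, δ_apply]; simp)

theorem ent {w : Perm ℤ} {x : H ℤ →L[ℂ] H ℤ} (h : V w * x = x * V w) (a b : ℤ) :
    x (δ (w a)) (w b) = x (δ a) b := by
  rw [← V_apply]
  change (V w * x) _ _ = _
  rw [h]
  change x (V w _) _ = _
  rw [V_δ]

/-- the trace -/
noncomputable def Tz (m : ℕ) : (H ℤ →L[ℂ] H ℤ) →L[ℂ] ℂ := (1 / m : ℂ) • ∑ i : Fin m,
  (innerSL ℂ (δ ((i : ℕ) : ℤ))).comp (ContinuousLinearMap.apply ℂ (H ℤ) (δ ((i : ℕ) : ℤ)))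

theorem Tz_apply (m : ℕ) (x : H ℤ →L[ℂ] H ℤ) :
    Tz m x = 1 / m * ∑ i : Fin m, x (δ ((i : ℕ) : ℤ)) ((i : ℕ) : ℤ) := by
  simp [Tz, inner_δ]

theorem hsz (x y : H ℤ →L[ℂ] H ℤ) (a : ℤ) :
    HasSum (fun k => x (δ k) a * y (δ a) k) ((x * y) (δ a) a) := by
  have := lp.hasSum_inner (𝕜 := ℂ) (ContinuousLinearMap.adjoint x (δ a)) (y (δ a))
  rw [ContinuousLinearMap.adjoint_inner_left, inner_δ] at this
  refine this.congr_fun fun k => ?_
  rw [adj_ent]
  simp [mul_comm]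

variable {m : ℕ} [NeZero m]

theorem Tz_tr {x y : H ℤ →L[ℂ] H ℤ} (hx : x ∈ Mz m) (hy : y ∈ Mz m) :
    Tz m (x * y) = Tz m (y * x) := by
  have h : ∀ (x y : H ℤ →L[ℂ] H ℤ) (a : ℤ), (x * y) (δ a) a = ∑ j : Fin m, ∑' l : ℤ,
      x (δ (l * m + ((j : ℕ) : ℤ))) a * y (δ a) (l * m + ((j : ℕ) : ℤ)) := fun x y a => by
    have := ((Equiv.prodComm _ _).trans (Int.divModEquiv m).symm).hasSum_iff.2 (hsz x y a)
    rw [← this.tsum_eq, this.summable.tsum_prod, tsum_fintype]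
    rfl
  rw [Tz_apply, Tz_apply]
  simp only [h]
  rw [sum_comm]
  refine congrArg _ (sum_congr rfl fun j _ => sum_congr rfl fun i _ => ?_)
  rw [← (Equiv.neg ℤ).tsum_eq]
  refine tsum_congr fun l => ?_
  rw [← ent (mem_Mz.1 hx l), ← ent (mem_Mz.1 hy l), mul_comm]
  simp [add_comm]

theorem Tz_ss (x : H ℤ →L[ℂ] H ℤ) : Tz m (star x * x) =
    ((1 / m * ∑ i : Fin m, ‖x (δ ((i : ℕ) : ℤ))‖ ^ 2 : ℝ) : ℂ) := by
  rw [Tz_apply]
  push_cast
  refine congrArg _ (sum_congr rfl fun i _ => ?_)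
  rw [← inner_δ]
  change ⟪_, ContinuousLinearMap.adjoint x (x _)⟫_ℂ = _
  rw [ContinuousLinearMap.adjoint_inner_right, inner_self_eq_norm_sq_to_K]
  rfl

theorem Tz_c {x : H ℤ →L[ℂ] H ℤ} {c : ℂ} (h : ∀ i : Fin m, x (δ ((i : ℕ) : ℤ)) ((i : ℕ) : ℤ) = c) :
    Tz m x = c := by
  have : (m : ℂ) ≠ 0 := Nat.cast_ne_zero.2 (NeZero.ne m)
  rw [Tz_apply]
  simp only [h, sum_const, card_univ, Fintype.card_fin, nsmul_eq_mul]
  field_simp

theorem Tz_Tr : UC.Tr (Mz m) (Tz m) := by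
  let ξ : ℕ → H ℤ := fun i => if i < m then ((√(1 / m) : ℝ) : ℂ) • δ (i : ℤ) else 0
  refine ⟨⟨ξ, summable_of_ne_finset_zero (s := Finset.range m) (fun b hb => by
    rw [show ξ b = 0 from if_neg (by simpa using hb)]; simp),
    fun x _ => ?_⟩, Tz_c fun i => by simp [δ_apply], fun x hx y hy => Tz_tr hx hy,
    fun x hx h => ?_⟩
  · have h1 : ((√(1 / m) : ℝ) : ℂ) * ((√(1 / m) : ℝ) : ℂ) = 1 / m := by
      rw [← Complex.ofReal_mul, Real.mul_self_sqrt (by positivity)]; simp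
    have e : Tz m x = ∑ i ∈ Finset.range m, ⟪ξ i, x (ξ i)⟫_ℂ := by
      rw [Tz_apply, mul_sum, sum_range]
      refine sum_congr rfl fun i _ => ?_
      simp only [ξ, i.2, if_true, map_smul, inner_smul_left, inner_smul_right,
        Complex.conj_ofReal, ← mul_assoc, h1, inner_δ]
    rw [e]
    exact hasSum_sum_of_ne_finset_zero fun b hb => by
      rw [show ξ b = 0 from if_neg (by simpa using hb), inner_zero_left]
  · rw [Tz_ss, Complex.ofReal_eq_zero, mul_eq_zero, or_iff_right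
      (one_div_ne_zero (Nat.cast_ne_zero.2 (NeZero.ne m))),
      sum_eq_zero_iff_of_nonneg fun _ _ => sq_nonneg _] at h
    refine ext_ent fun a b => ?_
    obtain ⟨⟨l, i⟩, rfl⟩ := (Int.divModEquiv m).symm.surjective a
    have h2 : x (δ ((i : ℕ) : ℤ)) = 0 := by simpa using h i (mem_univ _)
    have := ent (mem_Mz.1 hx l) ((i : ℕ) : ℤ) (b - l * m)
    rw [h2] at this
    simpa [add_comm] using this

end Pool.Agent.H75.QP
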