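import Pool.Agent.H75.QP3

set_option linter.unusedSectionVars false
set_option linter.deprecated false

namespace Pool.Agent.H75.QP
open Finset Equiv Pool.Agent.H86.Roe Pool.Agent.H75.IE
open scoped InnerProductSpace ComplexOrder

/-- swaps `2k` and `2k+1` -/
def sP : Perm ℤ := Function.Involutive.toPerm (fun x => if x % 2 = 0 then x + 1 else x - 1)
  fun x => by dsimp only; split_ifs <;> omega

open Classical in
/-- swaps `2k-1` and `2k` unless `B (2k)` -/
noncomputable def tP (B : ℤ → Prop) : Perm ℤ := Function.Involutive.toPerm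
  (fun x => if x % 2 = 0 then (if B x then x else x - 1) else if B (x + 1) then x else x + 1)
  fun x => by
    by_cases h : x % 2 = 0
    · by_cases h2 : B x
      · simp [h, h2]
      · simp [h, h2, show (x - 1) % 2 ≠ 0 by omega]
    · by_cases h2 : B (x + 1)
      · simp only [h, h2, if_true, if_false]
      · simp only [h, h2, show (x + 1) % 2 = 0 by omega, if_true, if_false, add_sub_cancel_right]

theorem sP_apply (x : ℤ) : sP x = if x % 2 = 0 then x + 1 else x - 1 := rfl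

open Classical in
theorem tP_apply (B : ℤ → Prop) (x : ℤ) : tP B x =
  if x % 2 = 0 then (if B x then x else x - 1) else if B (x + 1) then x else x + 1 := rfl

/-- the spectral projection of an involution -/
noncomputable def pr (w : Perm ℤ) : H ℤ →L[ℂ] H ℤ := (1 / 2 : ℂ) • (1 + V w)

theorem pr_sp {w : Perm ℤ} (h : w * w = 1) : IsStarProjection (pr w) := by
  constructor
  · change _ * _ = _
    rw [pr, smul_mul_smul_comm, add_mul, mul_add, mul_add, ← V_mul, h, V_one]
    simp only [one_mul, mul_one]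
    module
  · change star _ = _
    rw [pr, star_smul, star_add, V_star, inv_eq_of_mul_eq_one_right h]
    simp

theorem V_pow (w : Perm ℤ) (k : ℕ) : V w ^ k = V (w ^ k) := by
  induction k with
  | zero => rw [pow_zero, pow_zero, V_one]
  | succ k ih => rw [pow_succ', pow_succ, V_mul, ih]

variable {n : ℕ} {A : Type} [CStarAlgebra A] {u : Fin n → Fin n → A}

theorem comm_all (hu : Universal u) {B : Type} [CStarAlgebra B] (π : A →⋆ₐ[ℂ] B) (g : B)
    (h : ∀ i j, g * π (u i j) = π (u i j) * g) (a : A) : g * π a = π a * g := by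
  let S := StarSubalgebra.centralizer ℂ ({g} : Set B)
  haveI : IsClosed (S : Set B) := Set.isClosed_centralizer _
  have hp : ∀ i j, IsStarProjection (π (u i j)) := fun i j => (hu.magic.proj i j).map π
  have hm : ∀ i j, π (u i j) ∈ S := fun i j => (StarSubalgebra.mem_centralizer_iff ℂ).2 (by
    rintro _ rfl
    refine ⟨h i j, ?_⟩
    simpa [(hp i j).isSelfAdjoint.star_eq] using (congrArg star (h i j)).symm)
  have m1 : Magic fun i j => π (u i j) :=
    ⟨hp, fun i => by rw [← map_sum, hu.magic.row, map_one],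
      fun i => by rw [← map_sum, hu.magic.col, map_one]⟩
  obtain ⟨ρ, hρ⟩ := (hu.lift S (fun i j => ⟨_, hm i j⟩)
    ⟨fun i j => ⟨Subtype.ext (hp i j).1, Subtype.ext (hp i j).2⟩,
      fun i => Subtype.ext (by simpa using m1.row i),
      fun i => Subtype.ext (by simpa using m1.col i)⟩).exists
  have : π = S.subtype.comp ρ := (hu.lift B _ m1).unique (fun _ _ => rfl) fun i j => by
    simp [hρ]
  rw [this]
  exact ((StarSubalgebra.mem_centralizer_iff ℂ).1 (ρ a).2 g rfl).1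

/-- the trace attached to a representation -/
noncomputable def trz (m : ℕ) (π : A →⋆ₐ[ℂ] (H ℤ →L[ℂ] H ℤ)) : A →L[ℂ] ℂ :=
  (Tz m).comp ((π : A →ₗ[ℂ] (H ℤ →L[ℂ] H ℤ)).mkContinuous 1 fun a => by
    rw [one_mul]; exact NonUnitalStarAlgHom.norm_apply_le π a)

theorem trz_apply (m : ℕ) (π : A →⋆ₐ[ℂ] (H ℤ →L[ℂ] H ℤ)) (a : A) : trz m π a = Tz m (π a) := rfl

theorem trz_tr (m : ℕ) [NeZero m] (π : A →⋆ₐ[ℂ] (H ℤ →L[ℂ] H ℤ)) (h : ∀ a, π a ∈ Mz m) :
    IsTrace (trz m π) :=
  ⟨by rw [trz_apply, map_one]; exact Tz_Tr.one, fun a => by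
    rw [trz_apply, map_mul, map_star, Tz_ss]
    exact Complex.zero_le_real.2 (by positivity), fun a b => by
    rw [trz_apply, trz_apply, map_mul π, map_mul π, Tz_tr (h _) (h _)]⟩

theorem meet_eq {m : ℕ} {p q : H ℤ →L[ℂ] H ℤ} (hp : IsStarProjection p) (hq : IsStarProjection q)
    (hpM : p ∈ Mz m) (hqM : q ∈ Mz m) (w : H ℤ) :
    0 ≤ (⟪w, meet p q w⟫_ℂ).re ∧ (p w = q w → meet p q w = p w) := by
  obtain ⟨a1, -, a3, -⟩ := meet_sp hp hq hpM hqM
  refine ⟨((ContinuousLinearMap.nonneg_iff_isPositive _).1 a1.nonneg).re_inner_nonneg_right w,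
    fun h => ?_⟩
  have a4 : meet p q * p = meet p q := by
    simpa [a1.isSelfAdjoint.star_eq, hp.isSelfAdjoint.star_eq] using congrArg star a3
  rw [← a4]
  exact proj_self (subset_closure ⟨⟨w, rfl⟩, w, h.symm⟩)

theorem period (N : ℕ) : ∃ K : ℕ, 0 < K ∧ ∀ x : ℤ, 0 ≤ x → x < (2 * N : ℕ) →
    ((tP (fun x => ((2 * N : ℕ) : ℤ) ∣ x) * sP) ^ K) x = x := by
  have h1 : ∀ x, tP (fun x => ((2 * N : ℕ) : ℤ) ∣ x) x ∈ Ico (0 : ℤ) (2 * N : ℕ) ↔
      x ∈ Ico (0 : ℤ) (2 * N : ℕ) := fun x => by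
    have : ∀ y : ℤ, ¬((2 * N : ℕ) : ℤ) ∣ y → y ≠ 0 ∧ y ≠ (2 * N : ℕ) := fun y hy =>
      ⟨fun e => hy (e ▸ dvd_zero _), fun e => hy (e ▸ dvd_rfl)⟩
    rw [tP_apply, mem_Ico, mem_Ico]
    split_ifs with a b c
    · rfl
    · have := this _ b; omega
    · rfl
    · have := this _ c; omega
  have h : ∀ x, (tP (fun x => ((2 * N : ℕ) : ℤ) ∣ x) * sP) x ∈ Ico (0 : ℤ) (2 * N : ℕ) ↔
      x ∈ Ico (0 : ℤ) (2 * N : ℕ) := fun x => by
    rw [Perm.mul_apply, h1, sP_apply, mem_Ico, mem_Ico]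
    split_ifs <;> omega
  refine ⟨Nat.card (Perm (Ico (0 : ℤ) (2 * N : ℕ))), Nat.card_pos, fun x h0 h2 => ?_⟩
  have := pow_card_eq_one' (x := Perm.subtypePerm _ h)
  rw [Perm.subtypePerm_pow] at this
  exact congrArg (fun w : Perm (Ico (0 : ℤ) (2 * N : ℕ)) => (w ⟨x, mem_Ico.2 ⟨h0, h2⟩⟩).1) this

theorem drift (K : ℕ) : ((tP (fun _ => False) * sP) ^ K) 0 = 2 * K := by
  induction K with
  | zero => simp
  | succ K ih =>
    rw [pow_succ', Perm.mul_apply, ih, Perm.mul_apply, sP_apply, tP_apply]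
    simp only [if_false]
    split_ifs <;> omega

end Pool.Agent.H75.QP
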