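import Pool.Agent.H75.QP4

set_option linter.unusedSectionVars false
set_option linter.deprecated false

namespace Pool.Agent.H75.QP
open Finset Equiv Pool.Agent.H86.Roe Pool.Agent.H75.IE
open scoped InnerProductSpace ComplexOrder

variable {n : ℕ} {A : Type} [CStarAlgebra A] {u : Fin n → Fin n → A}

theorem pr_comm {g w : Perm ℤ} (h : g * w = w * g) : V g * pr w = pr w * V g := by
  rw [pr, mul_smul_comm, smul_mul_assoc, mul_add, add_mul, ← V_mul, ← V_mul, h, mul_one, one_mul]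

theorem tP_sq (B : ℤ → Prop) : tP B * tP B = 1 := Equiv.ext fun x => (tP B).left_inv x

theorem cost_le {m : ℕ} [NeZero m] (hu : Magic u) (hn : 0 < n) {α β : A →⋆ₐ[ℂ] (H ℤ →L[ℂ] H ℤ)}
    (ha : ∀ a, α a ∈ Mz m) (hb : ∀ a, β a ∈ Mz m) (j0 j1 : Fin m)
    (h : ∀ j : Fin m, j ≠ j0 → j ≠ j1 → ∀ i k, α (u i k) (δ ((j : ℕ) : ℤ)) =
      β (u i k) (δ ((j : ℕ) : ℤ))) : costMeet u (Tz m) α β ≤ 2 / m := by
  have hm : (0 : ℝ) < m := Nat.cast_pos.2 (NeZero.pos m)
  have hn' : (0 : ℝ) < n := Nat.cast_pos.2 hn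
  have h0 := fun i k => meet_eq ((hu.proj i k).map α) ((hu.proj i k).map β) (ha _) (hb _)
  have h1 : ∀ i (j : Fin m), 1 - (if j = j0 then 1 else 0) - (if j = j1 then 1 else 0) ≤
      ∑ k, (meet (α (u i k)) (β (u i k)) (δ ((j : ℕ) : ℤ)) ((j : ℕ) : ℤ)).re := fun i j => by
    have h2 : 0 ≤ ∑ k, (meet (α (u i k)) (β (u i k)) (δ ((j : ℕ) : ℤ)) ((j : ℕ) : ℤ)).re :=
      sum_nonneg fun k _ => by rw [← inner_δ]; exact (h0 i k _).1
    split_ifs with c0 c1 c1
    · linarith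
    · linarith
    · linarith
    · simp only [fun k => (h0 i k _).2 (h j c0 c1 i k), ← inner_δ]
      rw [← Complex.re_sum, ← inner_sum, ← ContinuousLinearMap.sum_apply, ← map_sum, hu.row,
        map_one]
      simp [norm_δ]
  have h3 : ∀ i, 1 - 2 / (m : ℝ) ≤ ∑ k, (Tz m (meet (α (u i k)) (β (u i k)))).re := fun i => by
    have h4 := sum_le_sum fun j (_ : j ∈ univ) => h1 i j
    have h5 : ∀ z : ℂ, (1 / (m : ℂ) * z).re = 1 / m * z.re := fun z => by
      rw [← Complex.re_ofReal_mul]; simp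
    simp only [sum_sub_distrib, sum_ite_eq', mem_univ, if_true, sum_const, card_univ,
      Fintype.card_fin, nsmul_eq_mul, mul_one] at h4
    simp only [Tz_apply, h5, Complex.re_sum]
    rw [← mul_sum, sum_comm]
    refine le_trans (le_of_eq ?_) (mul_le_mul_of_nonneg_left h4 (one_div_pos.2 hm).le)
    field_simp
    ring
  have h6 := mul_le_mul_of_nonneg_left (sum_le_sum fun i (_ : i ∈ univ) => h3 i)
    (one_div_pos.2 hn').le
  rw [sum_const, card_univ, Fintype.card_fin, nsmul_eq_mul, ← mul_assoc,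
    one_div_mul_cancel hn'.ne', one_mul] at h6
  unfold costMeet
  linarith

theorem mainB (hn : 4 ≤ n) (hu : Universal u) : ∃ φ, IsTrace φ ∧ ∀ ε > 0, ∃ ψ,
    IsTrace ψ ∧ (∃ r s, Cpl u φ ψ r s ∧ r < ε) ∧ 1 ≤ ‖φ - ψ‖ := by
  let σ : Fin n → Fin n := fun i => ⟨if i.val < 4 then (if i.val % 2 = 0 then i.val + 1
    else i.val - 1) else i.val, by have := i.2; split_ifs <;> omega⟩
  have hσ : ∀ i, σ (σ i) = i := fun i => Fin.ext (by simp only [σ]; split_ifs <;> omega)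
  have hs : sP * sP = 1 := Equiv.ext fun x => sP.left_inv x
  let d : Perm ℤ → Fin n → H ℤ →L[ℂ] H ℤ := fun w i =>
    pr (if i.val = 2 ∨ i.val = 3 then w else sP)
  let i0 : Fin n := ⟨0, by omega⟩
  let i2 : Fin n := ⟨2, by omega⟩
  let a : A := ((2 : ℂ) • u i0 i0 - 1) * ((2 : ℂ) • u i2 i2 - 1)
  have key : ∀ B, ∃ π : A →⋆ₐ[ℂ] (H ℤ →L[ℂ] H ℤ), (∀ i j, π (u i j) =
      (if j = i then d (tP B) i else 0) + if j = σ i then 1 - d (tP B) i else 0) ∧
      (∀ g : Perm ℤ, g * sP = sP * g → g * tP B = tP B * g → ∀ b, V g * π b = π b * V g) ∧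
      ∀ K : ℕ, π (a ^ K) = V ((tP B * sP) ^ K) := fun B => by
    obtain ⟨π, hπ⟩ := (hu.lift _ _ (magic σ hσ (d (tP B)) (fun i => pr_sp (by
      split_ifs; exacts [tP_sq B, hs])) fun i => congrArg pr
        (if_congr (by simp only [σ]; split_ifs <;> omega) rfl rfl))).exists
    refine ⟨π, hπ, fun g g1 g2 => comm_all hu π _ fun i j => ?_, fun K => ?_⟩
    · have : V g * d (tP B) i = d (tP B) i * V g := pr_comm (by split_ifs; exacts [g2, g1])
      rw [hπ]
      split_ifs <;> simp [mul_sub, sub_mul, this]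
    · have e : ∀ w, (2 : ℂ) • pr w - 1 = V w := fun w => by rw [pr]; module
      have v0 : π (u i0 i0) = pr sP := by rw [hπ]; simp [d, σ, i0, Fin.ext_iff]
      have v2 : π (u i2 i2) = pr (tP B) := by rw [hπ]; simp [d, σ, i2, Fin.ext_iff]
      rw [map_pow, map_mul, map_sub, map_sub, map_smul, map_smul, map_one, v0, v2, e, e, ← V_mul,
        V_pow]
  have sh : ∀ c : ℤ, c % 2 = 0 → Equiv.addRight c * sP = sP * Equiv.addRight c := fun c hc =>
    Equiv.ext fun x => by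
      simp only [Perm.mul_apply, coe_addRight, sP_apply]; split_ifs <;> omega
  obtain ⟨π, hπ, π1, π2⟩ := key fun _ => False
  have p1 : ∀ c : ℤ, c % 2 = 0 → ∀ b, V (Equiv.addRight c) * π b = π b * V (Equiv.addRight c) :=
    fun c hc => π1 _ (sh c hc) (Equiv.ext fun x => by
      simp only [Perm.mul_apply, coe_addRight, tP_apply, if_false]; split_ifs <;> omega)
  have p2 : ∀ b (j : ℤ), π b (δ j) j = π b (δ 0) 0 := fun b j => by
    by_cases hj : j % 2 = 0
    · simpa using ent (p1 j hj b) 0 0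
    · simpa using ent (π1 (Equiv.subLeft j) (Equiv.ext fun x => by
        simp only [Perm.mul_apply, subLeft_apply, sP_apply]; split_ifs <;> omega)
        (Equiv.ext fun x => by
          simp only [Perm.mul_apply, subLeft_apply, tP_apply, if_false]
          split_ifs <;> omega) b) 0 0
  have ev : ∀ (N : ℕ) (c : ℤ), (c * (2 * N : ℕ)) % 2 = 0 := fun N c => by
    push_cast
    rw [mul_left_comm, Int.mul_emod_right]
  have p3 : ∀ (N : ℕ) b, π b ∈ Mz (2 * N) := fun N b => mem_Mz.2 fun c => p1 _ (ev N c) b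
  refine ⟨trz (2 * 1) π, trz_tr _ π (p3 1), fun ε hε => ?_⟩
  obtain ⟨N, hN⟩ := exists_nat_one_div_lt hε
  haveI : NeZero (2 * (N + 1)) := ⟨by omega⟩
  obtain ⟨ρ, hρ, ρ1, ρ2⟩ := key fun x => ((2 * (N + 1) : ℕ) : ℤ) ∣ x
  have r3 : ∀ b, ρ b ∈ Mz (2 * (N + 1)) := fun b => mem_Mz.2 fun c => ρ1 _ (sh _ (ev _ c))
    (Equiv.ext fun x => by
      have := ev (N + 1) c
      have e : ∀ y : ℤ, ((2 * (N + 1) : ℕ) : ℤ) ∣ y + c * (2 * (N + 1) : ℕ) ↔
          ((2 * (N + 1) : ℕ) : ℤ) ∣ y := fun y => dvd_add_left (Dvd.intro_left c rfl)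
      simp only [Perm.mul_apply, coe_addRight, tP_apply]
      rw [add_right_comm x _ 1, e, e]
      split_ifs <;> omega) b
  refine ⟨trz _ ρ, trz_tr _ ρ r3, ⟨_, _, ⟨H ℤ, _, _, _, Mz _, Tz _, π, ρ, ⟨Tz_Tr,
    fun b => ⟨p3 _ b, r3 b⟩, fun b => ⟨?_, rfl⟩⟩, rfl, rfl⟩, lt_of_le_of_lt (cost_le hu.magic
      (by omega) (p3 _) r3 ⟨0, by omega⟩ ⟨2 * N + 1, by omega⟩ fun j j0 j1 i k => ?_) ?_⟩, ?_⟩
  · rw [trz_apply, Tz_c fun i => p2 b _, Tz_c fun i => p2 b _]
  · have e0 : ∀ B (x : ℤ), V (tP B) (δ x) = δ (tP B x) := fun B x => by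
      rw [← V_δ (tP B) (tP B x)]
      exact congrArg (fun y => V (tP B) (δ y)) ((tP B).left_inv x).symm
    have j2 := j.2
    simp only [ne_eq, Fin.ext_iff] at j0 j1
    have e1 : tP (fun _ => False) ((j : ℕ) : ℤ) =
        tP (fun x => ((2 * (N + 1) : ℕ) : ℤ) ∣ x) ((j : ℕ) : ℤ) := by
      simp only [tP_apply, if_false]
      rw [if_neg fun h : ((2 * (N + 1) : ℕ) : ℤ) ∣ _ => by
          have := Int.le_of_dvd (by omega) h; omega,
        if_neg fun h : ((2 * (N + 1) : ℕ) : ℤ) ∣ _ + 1 => by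
          have := Int.le_of_dvd (by omega) h; omega]
    have e2 : d (tP fun _ => False) i (δ ((j : ℕ) : ℤ)) =
        d (tP fun x => ((2 * (N + 1) : ℕ) : ℤ) ∣ x) i (δ ((j : ℕ) : ℤ)) := by
      simp only [d]
      split_ifs
      · simp only [pr, ContinuousLinearMap.smul_apply, ContinuousLinearMap.add_apply, e0, e1]
      · rfl
    rw [hπ, hρ]
    split_ifs <;> simp only [ContinuousLinearMap.add_apply, ContinuousLinearMap.sub_apply, e2]
  · refine lt_of_eq_of_lt ?_ hN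
    push_cast
    field_simp
  · obtain ⟨K, hK, hp⟩ := period (N + 1)
    have q1 : trz (2 * 1) π (a ^ K) = 0 := by
      rw [trz_apply, Tz_c fun i => p2 _ _, π2, V_apply, drift, δ_apply, if_neg (by omega)]
    have q2 : trz (2 * (N + 1)) ρ (a ^ K) = 1 := by
      rw [trz_apply]
      refine Tz_c fun i => ?_
      rw [ρ2, V_apply, hp _ (by omega) (by exact_mod_cast i.2), δ_apply, if_pos rfl]
    haveI : Nontrivial A := nontrivial_of_ne (a ^ K) 0 fun h => by
      rw [h, map_zero] at q2; exact zero_ne_one q2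
    have un : ∀ p : A, IsStarProjection p → (2 : ℂ) • p - 1 ∈ unitary A := fun p hp => by
      have e1 : star ((2 : ℂ) • p - 1) = (2 : ℂ) • p - 1 := by
        simp [hp.isSelfAdjoint.star_eq]
      have e2 : ((2 : ℂ) • p - 1) * ((2 : ℂ) • p - 1) = 1 := by
        rw [sub_mul, mul_sub, mul_sub, smul_mul_smul_comm, hp.isIdempotentElem.eq]
        simp only [mul_one, one_mul]
        module
      exact ⟨by rw [e1, e2], by rw [e1, e2]⟩
    have := (trz (2 * 1) π - trz (2 * (N + 1)) ρ).le_opNorm (a ^ K)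
    rwa [CStarRing.norm_of_mem_unitary (pow_mem (mul_mem (un _ (hu.magic.proj _ _))
      (un _ (hu.magic.proj _ _))) K), ContinuousLinearMap.sub_apply, q1, q2, zero_sub,
      norm_neg, norm_one, mul_one ‖_‖] at this

end Pool.Agent.H75.QP
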