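import Pool.Agent.H75.QP5

set_option linter.unusedSectionVars false
set_option linter.deprecated false

namespace Pool.Agent.H75.QP
open Finset Pool.Agent.H86.Wu Pool.Agent.H75.IL Pool.Agent.H75.IE
open scoped InnerProductSpace ComplexOrder

/-- words of length `k` in three letters -/
def W : ℕ → Type
  | 0 => Unit
  | k + 1 => Fin 3 × W k

instance finW : ∀ k, Fintype (W k)
  | 0 => inferInstanceAs (Fintype Unit)
  | k + 1 => haveI := finW k; inferInstanceAs (Fintype (Fin 3 × W k))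

/-- evaluation of a word -/
def ev {R : Type} [Monoid R] (x : Fin 3 → R) : ∀ {k : ℕ}, W k → R
  | 0, _ => 1
  | _ + 1, w => x w.1 * ev x w.2

theorem sum0 {R : Type} [AddCommMonoid R] (f : W 0 → R) : ∑ w, f w = f () :=
  Fintype.sum_unique (ι := Unit) f

theorem sumS {R : Type} [AddCommMonoid R] {k : ℕ} (f : W (k + 1) → R) :
    ∑ w, f w = ∑ i, ∑ w : W k, f (i, w) := Fintype.sum_prod_type (α₁ := Fin 3) (α₂ := W k) f

theorem ev_map {R S F : Type} [Monoid R] [Monoid S] [FunLike F R S] [MonoidHomClass F R S] (f : F)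
    (x : Fin 3 → R) : ∀ {k : ℕ} (w : W k), f (ev x w) = ev (fun i => f (x i)) w
  | 0, _ => map_one f
  | _ + 1, w => by rw [ev, ev, map_mul, ev_map f x w.2]

theorem ev_mem {R S : Type} [Monoid R] [SetLike S R] [SubmonoidClass S R] {s : S} {x : Fin 3 → R}
    (h : ∀ i, x i ∈ s) : ∀ {k : ℕ} (w : W k), ev x w ∈ s
  | 0, _ => one_mem s
  | _ + 1, w => mul_mem (h _) (ev_mem h w.2)

variable {H : Type} [NormedAddCommGroup H] [InnerProductSpace ℂ H] [CompleteSpace H]
  {M : VonNeumannAlgebra H} {τ : (H →L[ℂ] H) → ℂ}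

theorem pow_bd {t ρ C : ℝ} (hρ : 0 < ρ) (h : ∀ j : ℕ, t ^ (2 ^ j) ≤ C * ρ ^ (2 ^ j)) : t ≤ ρ := by
  by_contra hc
  have h1 : 1 < t / ρ := (one_lt_div hρ).2 (not_le.1 hc)
  obtain ⟨j, hj⟩ := pow_unbounded_of_one_lt C h1
  have h2 := pow_le_pow_right₀ h1.le (Nat.lt_two_pow_self (n := j)).le
  have h3 := h j
  rw [← div_le_iff₀ (by positivity), ← div_pow] at h3
  linarith

theorem gapA (h : UC.Tr M τ) {a b : Fin 3 → H →L[ℂ] H} (ha : ∀ i, a i ∈ M) (hb : ∀ i, b i ∈ M)
    (sa : ∀ i, star (a i) = a i) (sb : ∀ i, star (b i) = b i) (ub : ∀ i, b i ∈ unitary _)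
    {Q : Type} [Fintype Q] (q : ∀ {k : ℕ}, W k → Q)
    (hq : ∀ k (w w' : W k), q w = q w' → ev b w = ev b w') {ρ : ℝ} (hρ : 0 < ρ)
    (hc : ∀ k (F : Finset (W k)), ∑ w ∈ F, ∑ w' ∈ F, (τ (star (ev a w) * ev a w')).re ≤
      (ρ ^ k) ^ 2) : ∑ i, (τ (a i * b i)).re ≤ ρ := by
  classical
  obtain ⟨ξ, hξ, h1⟩ := h.normal
  set T := tr ξ hξ
  have hT : ∀ x ∈ M, τ x = T x := fun x hx => (h1 x hx).tsum_eq.symm
  have htr : ∀ x ∈ M, ∀ y ∈ M, T (x * y) = T (y * x) := fun x hx y hy => by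
    rw [← hT _ (mul_mem hx hy), ← hT _ (mul_mem hy hx), h.trace x hx y hy]
  have T1 : T 1 = 1 := by rw [← hT _ (one_mem _), h.one]
  have cs : ∀ x, (T x).re ^ 2 ≤ (T (star x * x)).re := fun x => by
    have := tr_pos ξ hξ (star_mul_self_nonneg (x - ((T x).re : ℂ) • 1))
    have e : (T (star x)).re = (T x).re := by rw [tr_star]; rfl
    change 0 ≤ (T _).re at this
    simp only [star_sub, star_smul, star_one, sub_mul, mul_sub, smul_mul_assoc, mul_smul_comm,
      one_mul, mul_one, map_sub, map_smul, T1, Complex.star_def, Complex.conj_ofReal, smul_eq_mul,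
      Complex.sub_re, Complex.re_ofReal_mul, Complex.ofReal_re, e] at this
    nlinarith
  let X : ℕ → H →L[ℂ] H := fun k => ∑ w : W k, ev a w * star (ev b w)
  have XM : ∀ k, X k ∈ M := fun k =>
    sum_mem fun w _ => mul_mem (ev_mem ha w) (star_mem (ev_mem hb w))
  have X0 : X 0 = 1 := by simp [X, sum0, ev]
  have XS : ∀ k, X (k + 1) = ∑ i, a i * X k * b i := fun k => by
    simp only [X, sumS, ev, star_mul, sb, mul_sum, sum_mul, mul_assoc]
  have XA : ∀ j k, T (star (X j) * X k) = T (X (j + k)) := fun j => by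
    induction j with
    | zero => intro k; rw [X0, star_one, one_mul, zero_add]
    | succ j ih =>
      intro k
      rw [show j + 1 + k = j + (k + 1) by omega, ← ih, XS, XS, star_sum, sum_mul, mul_sum, map_sum,
        map_sum]
      refine sum_congr rfl fun i _ => ?_
      rw [star_mul, star_mul, sa, sb, mul_assoc, htr _ (hb i) _
        (mul_mem (mul_mem (star_mem (XM j)) (ha i)) (XM k))]
      simp only [mul_assoc]
  have up : ∀ k, (T (X k)).re ≤ Fintype.card Q * ρ ^ k := fun k => by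
    simp only [X]
    rw [← sum_fiberwise univ (fun w : W k => q w), map_sum, Complex.re_sum, ← nsmul_eq_mul,
      ← card_univ]
    refine sum_le_card_nsmul _ _ _ fun y _ => ?_
    rcases (univ.filter fun w : W k => q w = y).eq_empty_or_nonempty with e | ⟨w0, e⟩
    · rw [e]; simp; positivity
    · set F := univ.filter fun w : W k => q w = y
      have hY : ∑ w ∈ F, ev a w ∈ M := sum_mem fun w _ => ev_mem ha w
      have hB : ev b w0 ∈ M := ev_mem hb w0
      rw [sum_congr rfl fun w hw => by rw [hq k w w0 ((mem_filter.1 hw).2.trans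
        (mem_filter.1 e).2.symm)], ← sum_mul]
      refine (le_abs_self _).trans (abs_le_of_sq_le_sq' ((cs _).trans ?_) (by positivity) |>
        abs_le.2)
      rw [star_mul, star_star, mul_assoc, htr _ hB _ (mul_mem (star_mem hY) (mul_mem hY
        (star_mem hB))), mul_assoc, mul_assoc, (ev_mem ub w0).1, mul_one, star_sum, sum_mul_sum]
      simp only [map_sum, Complex.re_sum]
      refine le_trans (le_of_eq (sum_congr rfl fun w _ => sum_congr rfl fun w' _ => ?_)) (hc k F)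
      rw [hT _ (mul_mem (star_mem (ev_mem ha w)) (ev_mem ha w'))]
  have e1 : ∑ i, (τ (a i * b i)).re = (T (X 1)).re := by
    rw [XS, X0, map_sum, Complex.re_sum]
    exact sum_congr rfl fun i _ => by rw [mul_one, hT _ (mul_mem (ha i) (hb i))]
  rw [e1]
  by_cases h0 : (T (X 1)).re ≤ 0
  · linarith
  refine pow_bd (C := Fintype.card Q) hρ fun j => le_trans ?_ (up _)
  induction j with
  | zero => simp
  | succ j ih =>
    rw [pow_succ, pow_mul, mul_two, ← XA]
    exact (pow_le_pow_left₀ (pow_nonneg (not_le.1 h0).le _) ih 2).trans (cs _)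

theorem absB (h : UC.Tr M τ) {p q : H →L[ℂ] H} (hp : IsStarProjection p) (hq : IsStarProjection q)
    (hpM : p ∈ M) (hqM : q ∈ M) : 0 ≤ (τ (CFC.abs (p - q))).re ∧
      1 - 4 * (τ (CFC.abs (p - q))).re ≤ (τ (((2 : ℂ) • p - 1) * ((2 : ℂ) • q - 1))).re := by
  obtain ⟨T, hT, hm⟩ := exlin h
  have hM : CFC.abs (p - q) ∈ M := mem_of_comm M fun y hy => Commute.cfcAbs_right
    (comm_of_mem M (sub_mem hpM hqM) hy) (comm_of_mem M (sub_mem hpM hqM) (star_mem hy))
  rw [hT _ hM, hT _ (mul_mem (sub_mem (vsm _ hpM) (one_mem _)) (sub_mem (vsm _ hqM) (one_mem _)))]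
  refine ⟨by simpa using hm _ _ (CFC.abs_nonneg (p - q)), ?_⟩
  have y0 : 0 ≤ (1 / 2 : ℝ) • CFC.abs (p - q) := smul_nonneg (by norm_num) (CFC.abs_nonneg _)
  have y1 : (1 / 2 : ℝ) • CFC.abs (p - q) ≤ 1 := by
    rw [← CStarAlgebra.norm_le_one_iff_of_nonneg _ y0, norm_smul, CFC.norm_abs]
    have := norm_sub_le p q
    have := hp.norm_le
    have := hq.norm_le
    rw [Real.norm_of_nonneg (by norm_num)]
    linarith
  have y2 := hm _ _ (CStarAlgebra.pow_antitone y0 y1 (show 1 ≤ 2 by norm_num))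
  have t1 : T 1 = 1 := by rw [← hT _ (one_mem _), h.one]
  have t2 : T (q * p) = T (p * q) := by
    rw [← hT _ (mul_mem hqM hpM), ← hT _ (mul_mem hpM hqM), h.trace q hqM p hpM]
  simp only [pow_one, smul_pow, CFC.abs_sq, ← Complex.coe_smul, map_smul, smul_eq_mul,
    ← Complex.ofReal_pow, Complex.re_ofReal_mul, star_sub, hp.isSelfAdjoint.star_eq,
    hq.isSelfAdjoint.star_eq, sub_mul, mul_sub, hp.isIdempotentElem.eq, hq.isIdempotentElem.eq, map_sub, t2, Complex.sub_re] at y2
  simp only [sub_mul, mul_sub, smul_mul_assoc, mul_smul_comm, one_mul, mul_one, map_sub, map_smul,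
    t1, smul_eq_mul, Complex.sub_re, Complex.mul_re, Complex.re_ofNat, Complex.im_ofNat,
    Complex.one_re, zero_mul, sub_zero, Complex.mul_im, add_zero]
  linarith

end Pool.Agent.H75.QP
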