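import Pool.Agent.H75.QP6

set_option linter.unusedSectionVars false
set_option linter.deprecated false

namespace Pool.Agent.H75.QP
open Finset Equiv Pool.Agent.H86.Roe
open scoped InnerProductSpace ComplexOrder

/-- three reflections -/
def rP (R : Type) [CommRing R] (i : Fin 3) : Perm (Fin 3 → R) := Function.Involutive.toPerm
  (fun f j => if j = i then -f i else f j + 2 * f i) fun f => funext fun j => by
    by_cases h : j = i <;> simp [h]

theorem rP_apply (R : Type) [CommRing R] (i : Fin 3) (f : Fin 3 → R) (j : Fin 3) :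
    rP R i f j = if j = i then -f i else f j + 2 * f i := rfl

/-- the invariant -/
def Pz (f : Fin 3 → ℤ) : Prop := (f 0 % 2 = 1 ∧ f 1 % 2 = 1 ∧ f 2 % 2 = 1) ∧
  (0 < f 0 + f 1 ∧ 0 < f 0 + f 2 ∧ 0 < f 1 + f 2) ∧ f 0 * f 1 + f 0 * f 2 + f 1 * f 2 = 3

theorem aux3 {x y z : ℤ} (hQ : x * y + x * z + y * z = 3) (h : 0 < x + y) :
    0 < y + z + 4 * x := by
  have : (x + y) * (y + z + 4 * x) = (y + 2 * x) ^ 2 + 3 := by rw [← hQ]; ring
  by_contra hc
  nlinarith [sq_nonneg (y + 2 * x)]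

theorem Pz_r (i : Fin 3) {f : Fin 3 → ℤ} (h : Pz f) : Pz (rP ℤ i f) := by
  obtain ⟨⟨a, b, c⟩, ⟨d, e, g⟩, q⟩ := h
  have h0 := aux3 q d
  have h1 := aux3 (x := f 1) (y := f 0) (z := f 2) (by linarith) (by linarith)
  have h2 := aux3 (x := f 2) (y := f 0) (z := f 1) (by linarith) (by linarith)
  fin_cases i <;> simp [Pz, rP_apply] <;> refine ⟨by omega, by omega, by linarith⟩

/-- the orbit space -/
abbrev XX : Type := {f : Fin 3 → ℤ // Pz f}

/-- the reflections on the orbit space -/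
def sX (i : Fin 3) : Perm XX := Function.Involutive.toPerm (fun x => ⟨rP ℤ i x.1, Pz_r i x.2⟩)
  fun x => Subtype.ext ((rP ℤ i).left_inv x.1)

/-- base point -/
def x0 : XX := ⟨fun _ => 1, by simp [Pz]⟩

theorem schur (ξ : H XX) : ‖∑ i, V (sX i) ξ‖ ≤ 17 / 6 * ‖ξ‖ := by
  classical
  let c : XX → Fin 3 → ℝ := fun x i => if x.1 i < 0 then 3 / 2 else 2 / 3
  have c0 : ∀ x i, 0 ≤ c x i := fun x i => by simp only [c]; split_ifs <;> norm_num
  have c1 : ∀ x, ∑ i, c x i ≤ 17 / 6 := fun x => by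
    obtain ⟨-, ⟨d, e, g⟩, -⟩ := x.2
    simp only [c, Fin.sum_univ_three]
    split_ifs <;> first | omega | norm_num
  have c2 : ∀ x i, c x i * c (sX i x) i = 1 := fun x i => by
    have e : (sX i x).1 i = -x.1 i := if_pos rfl
    have o : x.1 i % 2 = 1 := by
      obtain ⟨⟨a, b, c⟩, -⟩ := x.2
      fin_cases i
      exacts [a, b, c]
    simp only [c, e]
    split_ifs <;> first | omega | norm_num
  refine norm_le_of _ (by positivity) fun s => ?_
  have h1 : ∀ x, ‖(∑ i, V (sX i) ξ) x‖ ^ 2 ≤ 17 / 6 * ∑ i, c (sX i x) i * ‖ξ (sX i x)‖ ^ 2 :=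
    fun x => by
      have e : (∑ i, V (sX i) ξ) x = ∑ i, ξ (sX i x) := by
        simp [Fin.sum_univ_three, V_apply]
      rw [e]
      refine (pow_le_pow_left₀ (norm_nonneg _) (norm_sum_le _ _) 2).trans
        ((sum_sq_le_sum_mul_sum_of_sq_eq_mul _ (fun i _ => c0 x i) (fun i _ => mul_nonneg (c0 _ i)
          (sq_nonneg _)) fun i _ => by rw [← mul_assoc, c2, one_mul]).trans ?_)
      exact mul_le_mul_of_nonneg_right (c1 x) (sum_nonneg fun i _ => mul_nonneg (c0 _ i)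
        (sq_nonneg _))
  refine (sum_le_sum fun x _ => h1 x).trans ?_
  rw [← mul_sum, sum_comm, mul_pow, sq (17 / 6 : ℝ), mul_assoc]
  refine mul_le_mul_of_nonneg_left ?_ (by norm_num)
  let t := univ.biUnion fun i => s.image (sX i)
  have h2 : ∀ i, ∑ x ∈ s, c (sX i x) i * ‖ξ (sX i x)‖ ^ 2 ≤ ∑ y ∈ t, c y i * ‖ξ y‖ ^ 2 := fun i => by
    rw [← sum_image (g := sX i) (f := fun y => c y i * ‖ξ y‖ ^ 2) (sX i).injective.injOn]
    exact sum_le_sum_of_subset_of_nonneg (subset_biUnion_of_mem (fun i => s.image (sX i))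
      (mem_univ i)) fun y _ _ => mul_nonneg (c0 _ _) (sq_nonneg _)
  refine (sum_le_sum fun i _ => h2 i).trans ?_
  rw [sum_comm]
  refine le_trans (sum_le_sum fun y _ => ?_) ((mul_sum t (fun y => ‖ξ y‖ ^ 2) (17 / 6)).symm.trans_le
    (mul_le_mul_of_nonneg_left (sum_le_sq ξ t) (by norm_num)))
  rw [← sum_mul]
  exact mul_le_mul_of_nonneg_right (c1 y) (sq_nonneg _)

theorem walk (k : ℕ) : ‖∑ w : W k, δ (ev sX w x0)‖ ≤ (17 / 6) ^ k := by
  induction k with
  | zero => simp [sum0, norm_δ]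
  | succ k ih =>
    have e : ∀ i (y : XX), V (sX i) (δ y) = δ (sX i y) := fun i y => lp.ext (funext fun z => by
      rw [V_apply, δ_apply, δ_apply]
      have : sX i z = y ↔ z = sX i y := Equiv.apply_eq_iff_eq_symm_apply _
      simp [this])
    have := schur (∑ w : W k, δ (ev sX w x0))
    simp only [map_sum, e] at this
    rw [sumS, pow_succ']
    exact this.trans (mul_le_mul_of_nonneg_left ih (by norm_num))

theorem count {k : ℕ} (F : Finset (W k)) (g : W k → W k → ℝ) (h1 : ∀ w w', g w w' ≤ 1)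
    (h0 : ∀ w w', ev sX w x0 ≠ ev sX w' x0 → g w w' ≤ 0) :
    ∑ w ∈ F, ∑ w' ∈ F, g w w' ≤ ((17 / 6) ^ k) ^ 2 := by
  classical
  have p0 : ∀ w w' : W k, 0 ≤ (⟪δ (ev sX w x0), δ (ev sX w' x0)⟫_ℂ).re ∧
      g w w' ≤ (⟪δ (ev sX w x0), δ (ev sX w' x0)⟫_ℂ).re := fun w w' => by
    rw [inner_δ, δ_apply]
    split_ifs with h
    · exact ⟨zero_le_one, h1 _ _⟩
    · exact ⟨le_rfl, h0 _ _ h⟩
  refine le_trans ?_ (pow_le_pow_left₀ (norm_nonneg _) (walk k) 2)
  rw [← inner_self_eq_norm_sq (𝕜 := ℂ), sum_inner]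
  simp only [inner_sum, map_sum]
  refine (sum_le_sum fun w _ => (sum_le_sum fun w' _ => (p0 w w').2).trans
    (sum_le_sum_of_subset_of_nonneg (subset_univ F) fun w' _ _ => (p0 w w').1)).trans
    (sum_le_sum_of_subset_of_nonneg (subset_univ F) fun w _ _ => sum_nonneg fun w' _ => (p0 w w').1)

theorem modm (R : Type) [CommRing R] : ∀ {k : ℕ} (w : W k),
    ev (rP R) w (fun _ => 1) = fun j => (((ev sX w x0).1 j : ℤ) : R)
  | 0, _ => funext fun _ => by simp [ev, x0]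
  | _ + 1, w => funext fun j => by
    rw [ev, ev, Perm.mul_apply, Perm.mul_apply, modm R w.2, rP_apply]
    change _ = ((rP ℤ w.1 _ j : ℤ) : R)
    rw [rP_apply]
    split_ifs <;> simp

end Pool.Agent.H75.QP
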