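import Mathlib

namespace Pool.Agent.H75.UC
open Filter Topology
open scoped InnerProductSpace ComplexOrder

variable {H K : Type} [NormedAddCommGroup H] [InnerProductSpace ℂ H] [CompleteSpace H]
  [NormedAddCommGroup K] [InnerProductSpace ℂ K] [CompleteSpace K]

/-- `τ` is a faithful normal tracial state on `N`. -/
structure Tr (N : VonNeumannAlgebra H) (τ : (H →L[ℂ] H) → ℂ) : Prop where
  normal : ∃ ξ : ℕ → H, Summable (fun i => ‖ξ i‖ ^ 2) ∧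
    ∀ x ∈ N, HasSum (fun i => ⟪ξ i, x (ξ i)⟫_ℂ) (τ x)
  one : τ 1 = 1
  trace : ∀ x ∈ N, ∀ y ∈ N, τ (x * y) = τ (y * x)
  faithful : ∀ x ∈ N, τ (star x * x) = 0 → x = 0

/-- `M` is a type II one factor with trace `τ`. -/
structure II1 (M : VonNeumannAlgebra H) (τ : (H →L[ℂ] H) → ℂ) : Prop where
  tr : Tr M τ
  factor : ∀ z ∈ M, (∀ x ∈ M, z * x = x * z) → ∃ c : ℂ, z = c • 1
  infdim : ¬ FiniteDimensional ℂ M.toStarSubalgebra

/-- bounded sequences in `N` -/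
def Seq (N : VonNeumannAlgebra H) (x : ℕ → H →L[ℂ] H) : Prop :=
  (∀ n, x n ∈ N) ∧ ∃ C : ℝ, ∀ n, ‖x n‖ ≤ C

/-- the two sequences define the same element of the tracial ultrapower -/
def Eqv (τ : (H →L[ℂ] H) → ℂ) (U : Ultrafilter ℕ) (x y : ℕ → H →L[ℂ] H) : Prop :=
  Tendsto (fun n => τ (star (x n - y n) * (x n - y n))) U (𝓝 0)

/-- `π` is linear modulo null sequences -/
structure Lin (M : VonNeumannAlgebra H) (τ : (K →L[ℂ] K) → ℂ) (U : Ultrafilter ℕ)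
    (π : (H →L[ℂ] H) → ℕ → K →L[ℂ] K) : Prop where
  add : ∀ x ∈ M, ∀ y ∈ M, Eqv τ U (π (x + y)) fun n => π x n + π y n
  smul : ∀ (c : ℂ), ∀ x ∈ M, Eqv τ U (π (c • x)) fun n => c • π x n

/-- `π` is multiplicative, star preserving and unital modulo null sequences -/
structure Mult (M : VonNeumannAlgebra H) (τ : (K →L[ℂ] K) → ℂ) (U : Ultrafilter ℕ)
    (π : (H →L[ℂ] H) → ℕ → K →L[ℂ] K) : Prop where
  mul : ∀ x ∈ M, ∀ y ∈ M, Eqv τ U (π (x * y)) fun n => π x n * π y n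
  adj : ∀ x ∈ M, Eqv τ U (π (star x)) fun n => star (π x n)
  one : Eqv τ U (π 1) fun _ => 1

/-- `π` lifts a unital trace preserving star homomorphism from `M` to the ultrapower of `N`. -/
structure Emb (M : VonNeumannAlgebra H) (σ : (H →L[ℂ] H) → ℂ) (N : VonNeumannAlgebra K)
    (τ : (K →L[ℂ] K) → ℂ) (U : Ultrafilter ℕ) (π : (H →L[ℂ] H) → ℕ → K →L[ℂ] K) : Prop where
  seq : ∀ x ∈ M, Seq N (π x)
  lin : Lin M τ U π
  mult : Mult M τ U π
  trace : ∀ x ∈ M, Tendsto (fun n => τ (π x n)) U (𝓝 (σ x))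

/-- the sequence `u` defines a unitary of the ultrapower of `N` -/
structure Uni (N : VonNeumannAlgebra K) (τ : (K →L[ℂ] K) → ℂ) (U : Ultrafilter ℕ)
    (u : ℕ → K →L[ℂ] K) : Prop where
  seq : Seq N u
  left : Eqv τ U (fun n => star (u n) * u n) fun _ => 1
  right : Eqv τ U (fun n => u n * star (u n)) fun _ => 1

/-- the two embeddings are conjugate by a unitary of the ultrapower -/
def UConj (M : VonNeumannAlgebra H) (N : VonNeumannAlgebra K) (τ : (K →L[ℂ] K) → ℂ)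
    (U : Ultrafilter ℕ) (π ρ : (H →L[ℂ] H) → ℕ → K →L[ℂ] K) : Prop :=
  ∃ u, Uni N τ U u ∧ ∀ x ∈ M, Eqv τ U (fun n => u n * π x n * star (u n)) (ρ x)

/-- positivity of an operator matrix -/
def PosM {k : ℕ} (a : Fin k → Fin k → K →L[ℂ] K) : Prop :=
  ∀ ξ : Fin k → K, 0 ≤ ∑ i, ∑ j, ⟪ξ i, a i j (ξ j)⟫_ℂ

/-- `φ` restricts to a unital completely positive map from `N` to `N`. -/
structure UCP (N : VonNeumannAlgebra K) (φ : (K →L[ℂ] K) → K →L[ℂ] K) : Prop where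
  mem : ∀ x ∈ N, φ x ∈ N
  add : ∀ x ∈ N, ∀ y ∈ N, φ (x + y) = φ x + φ y
  smul : ∀ (c : ℂ), ∀ x ∈ N, φ (c • x) = c • φ x
  one : φ 1 = 1
  cp : ∀ (k : ℕ) (a : Fin k → Fin k → K →L[ℂ] K), (∀ i j, a i j ∈ N) → PosM a →
    PosM fun i j => φ (a i j)

/-- an ultraproduct of trace preserving ucp maps is well defined and carries `π` to `ρ` -/
def CPConj (M : VonNeumannAlgebra H) (N : VonNeumannAlgebra K) (τ : (K →L[ℂ] K) → ℂ)
    (U : Ultrafilter ℕ) (π ρ : (H →L[ℂ] H) → ℕ → K →L[ℂ] K) : Prop :=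
  ∃ φ : ℕ → (K →L[ℂ] K) → K →L[ℂ] K, (∀ n, UCP N (φ n)) ∧ (∀ n, ∀ x ∈ N, τ (φ n x) = τ x) ∧
    (∀ x y, Seq N x → Seq N y → Eqv τ U x y → Eqv τ U (fun n => φ n (x n)) fun n => φ n (y n)) ∧
    ∀ x ∈ M, Eqv τ U (fun n => φ n (π x n)) (ρ x)

end Pool.Agent.H75.UC
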