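import Pool.Agent.H99.GVN
import Pool.Agent.H75.UCDefs

set_option linter.unusedSectionVars false
set_option linter.deprecated false

namespace Pool.Agent.H75.UC
open Filter Topology Pool.Agent.H86.Roe Pool.Agent.H99.GVN
open scoped InnerProductSpace ComplexOrder

section gen
variable {G : Type} [Group G]

/-- the canonical trace -/
noncomputable def tau (x : H G →L[ℂ] H G) : ℂ := ⟪δ (1 : G), x (δ 1)⟫_ℂ

theorem tau_ss (x : H G →L[ℂ] H G) : tau (star x * x) = ((‖hat x‖ ^ 2 : ℝ) : ℂ) := by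
  change ⟪δ (1 : G), ContinuousLinearMap.adjoint x (x (δ 1))⟫_ℂ = _
  rw [ContinuousLinearMap.adjoint_inner_right, inner_self_eq_norm_sq_to_K]
  simp [hat]

theorem tau_mul {x : H G →L[ℂ] H G} (hx : x ∈ M G) (y : H G →L[ℂ] H G) :
    tau (x * y) = ∑' g, hat x g⁻¹ * hat y g := by
  change ⟪δ (1 : G), x (y (δ 1))⟫_ℂ = _
  rw [← ContinuousLinearMap.adjoint_inner_left, lp.inner_eq_tsum]
  refine tsum_congr fun g => ?_
  rw [adj_ent, M_δ hx, one_mul]
  simp [hat, mul_comm]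

theorem tau_comm {x y : H G →L[ℂ] H G} (hx : x ∈ M G) (hy : y ∈ M G) :
    tau (x * y) = tau (y * x) := by
  rw [tau_mul hx, tau_mul hy, ← (Equiv.inv G).tsum_eq]
  simp [mul_comm]

theorem tr_tau : Tr (M G) tau := by
  classical
  refine ⟨⟨fun i => if i = 0 then δ 1 else 0, summable_of_ne_finset_zero (s := {0})
    (by simp +contextual), fun x _ => ?_⟩, by simp [tau, norm_δ], fun x hx y hy => tau_comm hx hy,
    fun x hx h => ext_hat hx (zero_mem _) fun g => ?_⟩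
  · simpa [tau] using hasSum_single (f := fun i : ℕ => ⟪(if i = 0 then δ (1 : G) else 0),
      x (if i = 0 then δ 1 else 0)⟫_ℂ) 0 (by simp +contextual)
  · rw [tau_ss] at h
    have : hat x = 0 := by simpa using h
    rw [this]; simp [hat]

theorem hat_star {x : H G →L[ℂ] H G} (hx : x ∈ M G) : ‖hat (star x)‖ = ‖hat x‖ := by
  have := tau_comm (star_mem hx) hx
  have h2 := tau_ss (star x)
  rw [star_star] at h2
  rw [tau_ss, h2] at this
  exact ((pow_left_inj₀ (norm_nonneg _) (norm_nonneg _) two_ne_zero).1 (by exact_mod_cast this)).symm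

theorem hat_l (x y : H G →L[ℂ] H G) : ‖hat (x * y)‖ ≤ ‖x‖ * ‖hat y‖ := x.le_opNorm _

theorem hat_r {x y : H G →L[ℂ] H G} (hx : x ∈ M G) (hy : y ∈ M G) :
    ‖hat (x * y)‖ ≤ ‖y‖ * ‖hat x‖ := by
  rw [← hat_star (mul_mem hx hy), star_mul, ← hat_star hx, ← norm_star y]
  exact hat_l _ _

theorem L_le (g : G) : ‖L g‖ ≤ 1 := V_norm _

open Classical in
theorem hs (ξ : H G) (p : G → Prop) :
    HasSum (fun x => if p x then ‖ξ x‖ ^ 2 else 0) (‖Ind p ξ‖ ^ 2) := by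
  have := lp.hasSum_norm (p := 2) (by simp) (Ind p ξ)
  simp only [ENNReal.toReal_ofNat, Real.rpow_ofNat] at this
  convert this using 2 with x
  rw [Ind_apply]
  split_ifs <;> simp

theorem move (ξ η : H G) (g : G) (hη : ∀ x, η x = ξ (g⁻¹ * x * g)) {c : ℂ} (hc : ‖c‖ = 1)
    {ε : ℝ} (h : ‖η - c • ξ‖ ≤ ε) (p : G → Prop) :
    ‖Ind p ξ‖ ≤ ‖Ind (fun y => p (g * y * g⁻¹)) ξ‖ + ε := by
  classical
  have h1 : ‖Ind p η‖ = ‖Ind (fun y => p (g * y * g⁻¹)) ξ‖ := by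
    refine (pow_left_inj₀ (norm_nonneg _) (norm_nonneg _) two_ne_zero).1 ?_
    have := (MulAut.conj g).toEquiv.hasSum_iff.2 (hs η p)
    refine this.unique ?_
    convert hs ξ (fun y => p (g * y * g⁻¹)) using 2 with y
    simp [hη, mul_assoc]
  have h2 : ‖Ind p (η - c • ξ)‖ ≤ ε :=
    ((Ind p).le_opNorm _).trans ((mul_le_of_le_one_left (norm_nonneg _) (Ind_norm p)).trans h)
  have h3 := norm_sub_le (Ind p η) (Ind p (η - c • ξ))
  rw [← map_sub, sub_sub_cancel, map_smul, norm_smul, hc, one_mul, h1] at h3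
  linarith

theorem third (ξ : H G) (p q r s : G → Prop) (h1 : ∀ x, p x → s x ∧ ¬ q x ∧ ¬ r x)
    (h2 : ∀ x, q x → s x ∧ ¬ r x) (h3 : ∀ x, r x → s x) {ε : ℝ}
    (a1 : ‖Ind p ξ‖ ≤ ‖Ind q ξ‖ + ε) (a2 : ‖Ind p ξ‖ ≤ ‖Ind r ξ‖ + ε) :
    3 * ‖Ind p ξ‖ ^ 2 ≤ 5 / 4 * ‖Ind s ξ‖ ^ 2 + 10 * ε ^ 2 := by
  have h := hasSum_le (fun x => by
    have := h1 x
    have := h2 x
    have := h3 x
    have := sq_nonneg ‖ξ x‖
    by_cases hp : p x <;> by_cases hq : q x <;> by_cases hr : r x <;> by_cases hs : s x <;>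
      simp_all) (((hs ξ p).add (hs ξ q)).add (hs ξ r)) (hs ξ s)
  have b1 := pow_le_pow_left₀ (norm_nonneg _) a1 2
  have b2 := pow_le_pow_left₀ (norm_nonneg _) a2 2
  nlinarith [sq_nonneg (‖Ind q ξ‖ / 2 - 2 * ε), sq_nonneg (‖Ind r ξ‖ / 2 - 2 * ε),
    sq_nonneg ‖Ind p ξ‖]

end gen

/-- matrices `[[1+4x, 2q], [2r, 1+4y]]` of determinant one -/
@[ext] structure S where
  x : ℤ
  q : ℤ
  r : ℤ
  y : ℤ
  h : x + y + 4 * x * y = q * r

instance : Mul S := ⟨fun a b => ⟨a.x + b.x + 4 * a.x * b.x + a.q * b.r,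
  (1 + 4 * a.x) * b.q + a.q * (1 + 4 * b.y), a.r * (1 + 4 * b.x) + (1 + 4 * a.y) * b.r,
  a.r * b.q + a.y + b.y + 4 * a.y * b.y, by
    linear_combination ((1 + 4 * b.x) * (1 + 4 * b.y) - 4 * b.q * b.r) * a.h + b.h⟩⟩
instance : One S := ⟨⟨0, 0, 0, 0, by simp⟩⟩
instance : Inv S := ⟨fun a => ⟨a.y, -a.q, -a.r, a.x, by linear_combination a.h⟩⟩

@[simp] theorem mx (a b : S) : (a * b).x = a.x + b.x + 4 * a.x * b.x + a.q * b.r := rfl
@[simp] theorem mq (a b : S) : (a * b).q = (1 + 4 * a.x) * b.q + a.q * (1 + 4 * b.y) := rfl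
@[simp] theorem mr (a b : S) : (a * b).r = a.r * (1 + 4 * b.x) + (1 + 4 * a.y) * b.r := rfl
@[simp] theorem my (a b : S) : (a * b).y = a.r * b.q + a.y + b.y + 4 * a.y * b.y := rfl
@[simp] theorem ox : (1 : S).x = 0 := rfl
@[simp] theorem oq : (1 : S).q = 0 := rfl
@[simp] theorem or' : (1 : S).r = 0 := rfl
@[simp] theorem oy : (1 : S).y = 0 := rfl
@[simp] theorem ix (a : S) : a⁻¹.x = a.y := rfl
@[simp] theorem iq (a : S) : a⁻¹.q = -a.q := rfl
@[simp] theorem ir (a : S) : a⁻¹.r = -a.r := rfl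
@[simp] theorem iy (a : S) : a⁻¹.y = a.x := rfl

instance : Group S := Group.ofLeftAxioms
  (fun a b c => by ext <;> simp only [mx, mq, mr, my] <;> ring)
  (fun a => by ext <;> simp)
  (fun a => by
    ext <;> simp only [mx, mq, mr, my, ix, iq, ir, iy, ox, oq, or', oy]
    · linear_combination a.h
    · ring
    · ring
    · linear_combination a.h)

instance : Countable S :=
  Function.Injective.countable (f := fun a : S => (a.x, a.q, a.r, a.y)) fun a b h => by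
    simp only [Prod.mk.injEq] at h
    exact S.ext h.1 h.2.1 h.2.2.1 h.2.2.2

def ua (n : ℤ) : S := ⟨0, n, 0, 0, by simp⟩
def ub (n : ℤ) : S := ⟨0, 0, n, 0, by simp⟩

instance : Infinite S := Infinite.of_injective ua fun _ _ h => congrArg S.q h

theorem cover (g : S) (h : g ≠ 1) : |1 + 4 * g.y| < |2 * g.q| ∨ |1 + 4 * g.x| < |2 * g.r| := by
  by_contra hc
  rw [not_or, not_lt, not_lt] at hc
  have h1 : |2 * g.q| + 1 ≤ |1 + 4 * g.y| := by
    have := hc.1
    rcases abs_cases (2 * g.q) with a | a <;> rcases abs_cases (1 + 4 * g.y) with b | b <;> omega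
  have h2 : |2 * g.r| + 1 ≤ |1 + 4 * g.x| := by
    have := hc.2
    rcases abs_cases (2 * g.r) with a | a <;> rcases abs_cases (1 + 4 * g.x) with b | b <;> omega
  have h3 : |1 + 4 * g.x| * |1 + 4 * g.y| ≤ |2 * g.q| * |2 * g.r| + 1 := by
    rw [← abs_mul, ← abs_mul]
    have : (1 + 4 * g.x) * (1 + 4 * g.y) = 2 * g.q * (2 * g.r) + 1 := by linear_combination 4 * g.h
    rw [this]
    exact (abs_add_le _ _).trans (by simp)
  have h4 := abs_nonneg (2 * g.q)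
  have h5 := abs_nonneg (2 * g.r)
  have h6 : |2 * g.q| + |2 * g.r| ≤ 0 := by
    nlinarith [mul_le_mul h2 h1 (by positivity) (abs_nonneg _)]
  have hq : g.q = 0 := by have := abs_eq_zero.1 (show |2 * g.q| = 0 by omega); omega
  have hr : g.r = 0 := by have := abs_eq_zero.1 (show |2 * g.r| = 0 by omega); omega
  have h7 := g.h
  rw [hq, hr] at h7
  have h8 : (1 + 4 * g.x) * (1 + 4 * g.y) = 1 := by linear_combination 4 * h7
  have hx := Int.eq_one_or_neg_one_of_mul_eq_one h8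
  have hy := Int.eq_one_or_neg_one_of_mul_eq_one (mul_comm _ (1 + 4 * g.y) ▸ h8)
  exact h (S.ext (by simp; omega) hq hr (by simp; omega))

theorem gap (ξ : H S) (η : S → H S) (hη : ∀ g x, η g x = ξ (g⁻¹ * x * g)) (c : S → ℂ)
    (hc : ∀ g, ‖c g‖ = 1) {ε : ℝ} (hε : 0 ≤ ε)
    (h : ∀ g ∈ [ua 1, ua (-1), ub 1, ub (-1)], ‖η g - c g • ξ‖ ≤ ε) :
    ‖Ind (fun g => g ≠ 1) ξ‖ ≤ 7 * ε := by
  have m := fun g hg => move ξ (η g) g (hη g) (hc g) (h g hg)
  have ne : ∀ (g : S), g.q ≠ 0 ∨ g.r ≠ 0 → g ≠ 1 := fun g hg h => by simp [h] at hg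
  have t1 := third ξ (fun g => |1 + 4 * g.y| < |2 * g.q|) _ _ (fun g => g ≠ 1) (fun g hg => ?_)
    (fun g hg => ?_) (fun g hg => ?_) (m (ub 1) (by simp) _) (m (ub (-1)) (by simp) _)
  have t2 := third ξ (fun g => |1 + 4 * g.x| < |2 * g.r|) _ _ (fun g => g ≠ 1) (fun g hg => ?_)
    (fun g hg => ?_) (fun g hg => ?_) (m (ua 1) (by simp) _) (m (ua (-1)) (by simp) _)
  · have t3 := hasSum_le (fun x => by
      have := cover x
      have := sq_nonneg ‖ξ x‖
      split_ifs <;> first | linarith | tauto) (hs ξ fun g => g ≠ 1)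
        ((hs ξ fun g => |1 + 4 * g.y| < |2 * g.q|).add (hs ξ fun g => |1 + 4 * g.x| < |2 * g.r|))
    refine le_of_sq_le_sq ?_ (by positivity)
    nlinarith [sq_nonneg ε]
  all_goals
    simp only [mx, mq, mr, my, ix, iq, ir, iy, ua, ub, lt_abs, abs_lt, not_or, not_and_or,
      not_lt] at hg ⊢
    ring_nf at hg
    first | refine ⟨ne g (by omega), ?_⟩ | refine ne g ?_
    all_goals
      try ring_nf
      omega

end Pool.Agent.H75.UC
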