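import Pool.Agent.H75.QP7
import Pool.Agent.H75.UC1

set_option linter.unusedSectionVars false
set_option linter.deprecated false

namespace Pool.Agent.H75.QP
open Filter Topology Finset Equiv Pool.Agent.H86.Roe Pool.Agent.H99.GVN
open scoped InnerProductSpace ComplexOrder

variable {n : ℕ} {A : Type} [CStarAlgebra A] {u : Fin n → Fin n → A}

theorem ulim (ψ : ℕ → A →L[ℂ] ℂ) (h : ∀ m, IsTrace (ψ m)) (hb : ∀ m a, ‖ψ m a‖ ≤ ‖a‖) :
    ∃ φ, IsTrace φ ∧ ∀ a, Tendsto (fun m => ψ m a) (hyperfilter ℕ) (𝓝 (φ a)) := by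
  have : ∀ a, ∃ z, Tendsto (fun m => ψ m a) (hyperfilter ℕ) (𝓝 z) := fun a => by
    obtain ⟨z, -, hz⟩ := (isCompact_closedBall (0 : ℂ) ‖a‖).ultrafilter_le_nhds
      ((hyperfilter ℕ).map fun m => ψ m a) (le_principal_iff.2 (mem_map.2
        (univ_mem' fun m => by simpa using hb m a)))
    exact ⟨z, hz⟩
  choose f hf using this
  let l : A →ₗ[ℂ] ℂ :=
    { toFun := f
      map_add' := fun a b => tendsto_nhds_unique (hf _) (by simpa using (hf a).add (hf b))
      map_smul' := fun c a => tendsto_nhds_unique (hf _) (by simpa using (hf a).const_mul c) }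
  refine ⟨l.mkContinuous 1 fun a => by
    rw [one_mul]; exact le_of_tendsto' (hf a).norm fun m => hb m a, ⟨?_, fun a => ?_,
      fun a b => ?_⟩, hf⟩
  · exact tendsto_nhds_unique (hf 1) (by simp [(h _).one])
  · exact ge_of_tendsto' (hf _) fun m => (h m).pos a
  · exact tendsto_nhds_unique (hf _) ((hf (b * a)).congr fun m => (h m).tr b a)

theorem rep (hn : 6 ≤ n) (hu : Universal u) (G : Type) [Group G] (r : Fin 3 → G)
    (hr : ∀ i, r i * r i = 1) : ∃ ψ : A →L[ℂ] ℂ, IsTrace ψ ∧ (∀ a, ‖ψ a‖ ≤ ‖a‖) ∧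
      ∀ k (w w' : W k), ψ (star (ev (fun i : Fin 3 => (2 : ℂ) • u ⟨2 * i, by omega⟩
        ⟨2 * i, by omega⟩ - 1) w) * ev (fun i : Fin 3 => (2 : ℂ) • u ⟨2 * i, by omega⟩
          ⟨2 * i, by omega⟩ - 1) w') = δ ((ev r w)⁻¹ * ev r w') 1 := by
  let σ : Fin n → Fin n := fun i => ⟨if i.val < 6 then (if i.val % 2 = 0 then i.val + 1
    else i.val - 1) else i.val, by have := i.2; split_ifs <;> omega⟩
  have hσ : ∀ i, σ (σ i) = i := fun i => Fin.ext (by simp only [σ]; split_ifs <;> omega)
  let x : Fin n → Fin 3 := fun i => ⟨i.val / 2 % 3, by omega⟩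
  let d : Fin n → H G →L[ℂ] H G := fun i => (1 / 2 : ℂ) • (1 + L (r (x i)))
  have dp : ∀ i, IsStarProjection (d i) := fun i => by
    constructor
    · change _ * _ = _
      simp only [d]
      rw [smul_mul_smul_comm, add_mul, mul_add, mul_add, ← H99.GVN.L_mul, hr, L_one]
      simp only [one_mul, mul_one]
      module
    · change star _ = _
      simp only [d]
      rw [star_smul, star_add, L_star, inv_eq_of_mul_eq_one_right (hr _)]
      simp
  obtain ⟨π, hπ⟩ := (hu.lift _ _ (magic σ hσ d dp fun i => by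
    simp only [d]
    rw [show x (σ i) = x i from Fin.ext (by simp only [x, σ]; split_ifs <;> omega)])).exists
  have hM : ∀ a, π a ∈ M G := fun a => mem_M.2 fun g => comm_all hu π _ (fun i j => by
    have : d i ∈ M G := smul_mem (add_mem (one_mem _) (L_mem _)) _
    refine mem_M.1 ?_ g
    rw [hπ]
    refine add_mem ?_ ?_ <;> split_ifs
    exacts [this, zero_mem _, sub_mem (one_mem _) this, zero_mem _]) a
  have hb : ∀ a, ‖UC.tau (π a)‖ ≤ ‖a‖ := fun a => by
    rw [UC.tau, inner_δ]
    exact (ent_le _ _ _).trans (NonUnitalStarAlgHom.norm_apply_le π a)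
  let l : A →ₗ[ℂ] ℂ :=
    { toFun := fun a => UC.tau (π a)
      map_add' := fun a b => by simp [UC.tau, inner_add_right]
      map_smul' := fun c a => by simp [UC.tau, inner_smul_right] }
  have e : ∀ a, l.mkContinuous 1 (fun a => by rw [one_mul]; exact hb a) a = UC.tau (π a) :=
    fun _ => rfl
  refine ⟨l.mkContinuous 1 fun a => by rw [one_mul]; exact hb a, ⟨?_, fun a => ?_,
    fun a b => ?_⟩, hb, fun k w w' => ?_⟩
  · rw [e, map_one]; exact UC.tr_tau.one
  · rw [e, map_mul, map_star, UC.tau_ss]; exact Complex.zero_le_real.2 (sq_nonneg _)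
  · rw [e, e, map_mul, map_mul, UC.tau_comm (hM a) (hM b)]
  · let LH : G →* (H G →L[ℂ] H G) := ⟨⟨L, L_one⟩, H99.GVN.L_mul⟩
    have v : (fun i : Fin 3 => π ((2 : ℂ) • u ⟨2 * i, by omega⟩ ⟨2 * i, by omega⟩ - 1)) =
        fun i => LH (r i) := funext fun i => by
      have := i.2
      rw [map_sub, map_smul, map_one, hπ, if_pos rfl, if_neg (by
        simp only [σ, Fin.ext_iff]; split_ifs <;> omega), add_zero]
      simp only [d]
      rw [show x ⟨2 * i, by omega⟩ = i from Fin.ext (by simp only [x]; omega)]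
      change _ = L (r i)
      module
    rw [e, map_mul, map_star, ev_map, ev_map, v, ← ev_map LH, ← ev_map LH]
    change UC.tau (star (L _) * L _) = _
    rw [L_star, ← H99.GVN.L_mul, UC.tau, inner_δ, L_δ]

theorem mainC (hn : 6 ≤ n) (hu : Universal u) : ∃ φ, IsTrace φ ∧ ∃ c > 0, ∀ (S : Finset A),
    ∀ ε > 0, ∃ ψ, IsTrace ψ ∧ (∀ a ∈ S, ‖φ a - ψ a‖ < ε) ∧ ∀ r s, Cpl u φ ψ r s → c ≤ s := by
  classical
  choose ψ h1 h2 h3 using fun m : ℕ => rep hn hu (Perm (Fin 3 → ZMod (m + 1))) (rP _)
    fun i => Equiv.ext fun x => (rP _ i).left_inv x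
  obtain ⟨φ, hφ, hl⟩ := ulim ψ h1 h2
  have hn' : (0 : ℝ) < n := Nat.cast_pos.2 (by omega)
  refine ⟨φ, hφ, 1 / n * (1 / 48), by positivity, fun S ε hε => ?_⟩
  obtain ⟨m, hm⟩ := ((eventually_all_finset S).2 fun a _ =>
    Metric.tendsto_nhds.1 (hl a) ε hε).exists
  refine ⟨ψ m, h1 m, fun a ha => by rw [← dist_eq_norm, dist_comm]; exact hm a ha, ?_⟩
  rintro r s ⟨K, _, _, _, N, τ, α, β, C, -, rfl⟩
  let e : Fin 3 → Fin n := fun i => ⟨2 * i, by omega⟩
  set U : Fin 3 → A := fun i => (2 : ℂ) • u (e i) (e i) - 1 with hU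
  have sU : ∀ i, star (U i) = U i := fun i => by
    simp [U, (hu.magic.proj _ _).isSelfAdjoint.star_eq]
  have qU : ∀ i, U i * U i = 1 := fun i => by
    simp only [U]
    rw [sub_mul, mul_sub, mul_sub, smul_mul_smul_comm, (hu.magic.proj _ _).isIdempotentElem.eq]
    simp only [mul_one, one_mul]
    module
  have g := gapA C.tr (a := fun i => α (U i)) (b := fun i => β (U i)) (fun i => (C.mem _).1)
    (fun i => (C.mem _).2) (fun i => by rw [← map_star, sU]) (fun i => by rw [← map_star, sU])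
    (fun i => by constructor <;> rw [← map_star, sU, ← map_mul, qU, map_one])
    (fun w => ev (rP (ZMod (m + 1))) w) (fun k w w' hq => by
      rw [← ev_map β, ← ev_map β, ← sub_eq_zero, ← map_sub]
      refine C.tr.faithful _ (C.mem _).2 ?_
      rw [← map_star, ← map_mul, (C.val _).2, star_sub, sub_mul, mul_sub, mul_sub, map_sub, map_sub,
        map_sub, h3, h3, h3, h3, hq]
      ring) (ρ := 17 / 6) (by norm_num) fun k F => count F _ (fun w w' => by
        rw [← ev_map α, ← ev_map α, ← map_star, ← map_mul, (C.val _).1]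
        refine le_of_tendsto' ((Complex.continuous_re.tendsto _).comp (hl _)) fun j => ?_
        rw [Function.comp, h3, δ_apply]
        split_ifs <;> simp) fun w w' hw => by
          rw [← ev_map α, ← ev_map α, ← map_star, ← map_mul, (C.val _).1]
          obtain ⟨i, hi⟩ := Function.ne_iff.1 (Subtype.coe_ne_coe.2 hw)
          refine le_of_tendsto ((Complex.continuous_re.tendsto _).comp (hl _))
            (Eventually.filter_mono (hyperfilter_le_cofinite.trans Nat.cofinite_eq_atTop.le) ?_)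
          filter_upwards [eventually_ge_atTop ((ev sX w' x0).1 i - (ev sX w x0).1 i).natAbs]
            with j hj
          rw [Function.comp, h3, δ_apply, if_neg, Complex.zero_re]
          intro h
          have := congrArg (fun g : Perm (Fin 3 → ZMod (j + 1)) => g (fun _ => 1) i)
            (inv_mul_eq_one.1 h.symm)
          simp only [modm] at this
          have := Int.natAbs_le_of_dvd_ne_zero ((ZMod.intCast_eq_intCast_iff_dvd_sub _ _ _).1 this)
            (sub_ne_zero.2 hi.symm)
          omega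
  have b := fun i j => absB C.tr ((hu.magic.proj i j).map α) ((hu.magic.proj i j).map β)
    (C.mem _).1 (C.mem _).2
  have b2 : ∀ i, 1 - 4 * (τ (CFC.abs (α (u (e i) (e i)) - β (u (e i) (e i))))).re ≤
      (τ (α (U i) * β (U i))).re := fun i => by
    simpa only [U, map_sub, map_smul, map_one] using (b (e i) (e i)).2
  refine mul_le_mul_of_nonneg_left ?_ (one_div_pos.2 hn').le
  have he : Function.Injective e := fun i j h => Fin.ext (by simp [e, Fin.ext_iff] at h; omega)
  refine le_trans ?_ ((sum_le_sum_of_subset_of_nonneg (subset_univ (univ.image e))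
    fun x _ _ => mul_nonneg (by norm_num) (b x x).1).trans (sum_le_sum fun x _ => single_le_sum
      (f := fun y => 1 / 2 * (τ (CFC.abs (α (u x y) - β (u x y)))).re)
      (fun y _ => mul_nonneg (by norm_num) (b x y).1) (mem_univ x)))
  rw [sum_image he.injOn]
  rw [Fin.sum_univ_three] at g ⊢
  linarith [b2 0, b2 1, b2 2]

end Pool.Agent.H75.QP
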