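import Pool.Agent.H75.QP8

set_option linter.unusedSectionVars false
set_option linter.deprecated false

namespace Pool.Agent.H75.QP
open Finset Equiv Pool.Agent.H86.Wu Pool.Agent.H75.IL Pool.Agent.H75.IE
open scoped InnerProductSpace ComplexOrder

theorem magic3 {n : ℕ} {B : Type} [CStarAlgebra B] (σ : Fin 3 → Perm (Fin n))
    (d : Fin n → Fin 3 → B) (hd : ∀ i t, IsStarProjection (d i t))
    (ho : ∀ i, d i 0 * d i 1 = 0 ∧ d i 0 * d i 2 = 0 ∧ d i 1 * d i 2 = 0)
    (hs : ∀ i, ∑ t, d i t = 1) (h : ∀ t i, d (σ t i) t = d i t) :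
    Magic fun i j => ∑ t, if σ t i = j then d i t else 0 where
  proj i j := by
    have p : ∀ t, IsStarProjection (if σ t i = j then d i t else 0) := fun t => by
      split_ifs; exacts [hd i t, .zero _]
    rw [Fin.sum_univ_three]
    refine ((p 0).add (p 1) ?_).add (p 2) ?_ <;> split_ifs <;> simp [add_mul, ho i]
  row i := by rw [sum_comm]; simp [hs]
  col j := by
    rw [sum_comm, ← hs j]
    refine sum_congr rfl fun t _ => ?_
    simp only [Equiv.apply_eq_iff_eq_symm_apply, sum_ite_eq', mem_univ, if_true]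
    rw [← h t, Equiv.apply_symm_apply]

section
variable {B : Type} [CStarAlgebra B]

/-- spectral projection of an element of order three -/
noncomputable def E3 (x : B) (c : ℂ) : B := (1 / 3 : ℂ) • (1 + c • x + c ^ 2 • (x * x))

theorem E3_mul {x : B} (h : x * x * x = 1) (c e : ℂ) : E3 x c * E3 x e = (1 / 9 : ℂ) •
    ((1 + c * e ^ 2 + c ^ 2 * e) • (1 : B) + (c + e + c ^ 2 * e ^ 2) • x +
      (c ^ 2 + e ^ 2 + c * e) • (x * x)) := by
  simp only [E3, smul_mul_assoc, mul_smul_comm, add_mul, mul_add, one_mul, mul_one, ← mul_assoc, h]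
  module

theorem E3_sp {x : B} (h : x * x * x = 1) (hs : star x = x * x) {c : ℂ} (h3 : c ^ 3 = 1)
    (hc : star c = c ^ 2) : IsStarProjection (E3 x c) := by
  constructor
  · change _ * _ = _
    rw [E3_mul h, E3]
    match_scalars
    · linear_combination (2 / 9 : ℂ) * h3
    · linear_combination (c / 9) * h3
    · ring
  · change star _ = _
    simp only [E3, star_smul, star_add, star_one, star_mul, star_pow, hs, hc, ← mul_assoc, h,
      one_mul, star_div₀, star_ofNat]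
    match_scalars
    · ring
    · ring
    · linear_combination (c / 3) * h3

theorem E3_or {x : B} (h : x * x * x = 1) {c e : ℂ} (h3 : c ^ 3 = 1)
    (hc : c ^ 2 + e ^ 2 + c * e = 0) : E3 x c * E3 x e = 0 := by
  rw [E3_mul h, hc, show 1 + c * e ^ 2 + c ^ 2 * e = 0 by linear_combination c * hc - h3,
    show c + e + c ^ 2 * e ^ 2 = 0 by linear_combination c ^ 2 * hc - (c + e) * h3]
  simp

end

/-- a primitive cube root of unity -/
noncomputable def om : ℂ := ⟨-1 / 2, √3 / 2⟩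

theorem om_eq : om ^ 2 + om + 1 = 0 := by
  have := Real.mul_self_sqrt (show (0 : ℝ) ≤ 3 by norm_num)
  apply Complex.ext <;> simp [om, sq] <;> nlinarith

theorem om_star : star om = om ^ 2 := by
  rw [show om ^ 2 = -om - 1 by linear_combination om_eq]
  apply Complex.ext <;> simp [om]
  norm_num

theorem om_3 : om ^ 3 = 1 := by linear_combination (om - 1) * om_eq

variable {H : Type} [NormedAddCommGroup H] [InnerProductSpace ℂ H] [CompleteSpace H]
  {M : VonNeumannAlgebra H} {τ : (H →L[ℂ] H) → ℂ}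

theorem hold (h : UC.Tr M τ) {d w : H →L[ℂ] H} (hd : IsSelfAdjoint d) (dM : d ∈ M) (wM : w ∈ M) :
    ‖τ (w * d)‖ ≤ ‖w‖ * (τ (CFC.abs d)).re := by
  obtain ⟨ξ, hξ, h1⟩ := h.normal
  have hT : ∀ x ∈ M, τ x = tr ξ hξ x := fun x hx => (h1 x hx).tsum_eq.symm
  have p : ∀ y ∈ M, 0 ≤ y → ‖tr ξ hξ (w * y)‖ ≤ ‖w‖ * (tr ξ hξ y).re := fun y hy y0 => by
    have sM : CFC.sqrt y ∈ M := mem_of_comm M fun z hz =>
      ((comm_of_mem M hy hz).cfcₙ_nnreal _).symm
    have := tr_bound ξ hξ (CFC.sqrt y) w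
    rw [(IsSelfAdjoint.of_nonneg (CFC.sqrt_nonneg y)).star_eq, CFC.sqrt_mul_sqrt_self y y0,
      mul_assoc, ← hT _ (mul_mem sM (mul_mem wM sM)), h.trace _ sM _ (mul_mem wM sM), mul_assoc,
      CFC.sqrt_mul_sqrt_self y y0, hT _ (mul_mem wM hy)] at this
    exact this
  have pM : d⁺ ∈ M := mem_of_comm M fun z hz => ((comm_of_mem M dM hz).cfcₙ_real _).symm
  have nM : d⁻ ∈ M := mem_of_comm M fun z hz => ((comm_of_mem M dM hz).cfcₙ_real _).symm
  rw [← CFC.posPart_add_negPart d hd, hT _ (add_mem pM nM), hT _ (mul_mem wM dM), map_add,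
    Complex.add_re, mul_add]
  nth_rewrite 1 [← CFC.posPart_sub_negPart d hd]
  rw [mul_sub, map_sub]
  exact (norm_sub_le _ _).trans (add_le_add (p _ pM (CFC.posPart_nonneg d))
    (p _ nM (CFC.negPart_nonneg d)))

variable {n : ℕ} {A : Type} [CStarAlgebra A] {u : Fin n → Fin n → A}

/-- Lipschitz elements -/
def Lip (u : Fin n → Fin n → A) (a : A) : Prop := ∃ C : ℝ, 0 ≤ C ∧ ∀ (φ ψ : A →L[ℂ] ℂ) (H : Type)
  [NormedAddCommGroup H] [InnerProductSpace ℂ H] [CompleteSpace H] (M : VonNeumannAlgebra H)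
  (τ : (H →L[ℂ] H) → ℂ) (α β : A →⋆ₐ[ℂ] (H →L[ℂ] H)), Coupling φ ψ M τ α β → ∀ w ∈ M,
    ‖τ (w * (α a - β a))‖ ≤ C * ‖w‖ * costOne u τ α β

theorem cost_ge (hu : Magic u) {φ ψ : A →L[ℂ] ℂ} {α β : A →⋆ₐ[ℂ] (H →L[ℂ] H)}
    (C : Coupling φ ψ M τ α β) (i j : Fin n) : 0 ≤ costOne u τ α β ∧
      (τ (CFC.abs (α (u i j) - β (u i j)))).re ≤ 2 * n * costOne u τ α β := by
  have b := fun i j => (absB C.tr ((hu.proj i j).map α) ((hu.proj i j).map β)
    (C.mem _).1 (C.mem _).2).1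
  have hn' : (0 : ℝ) < n := Nat.cast_pos.2 i.pos
  have b1 : ∀ i j, 0 ≤ 1 / 2 * (τ (CFC.abs (α (u i j) - β (u i j)))).re := fun i j =>
    mul_nonneg (by norm_num) (b i j)
  have := (single_le_sum (fun y _ => b1 i y) (mem_univ j)).trans
    (single_le_sum (fun x _ => sum_nonneg fun y _ => b1 x y) (mem_univ i))
  unfold costOne
  refine ⟨mul_nonneg (by positivity) (sum_nonneg fun x _ => sum_nonneg fun y _ => b1 x y), ?_⟩
  rw [mul_assoc, ← mul_assoc (n : ℝ), mul_one_div_cancel hn'.ne', one_mul]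
  linarith

theorem Lip.gen (hu : Magic u) (i j : Fin n) : Lip u (u i j) :=
  ⟨2 * n, by positivity, fun _ _ _ _ _ _ _ _ α β C w hw => by
    refine (hold C.tr (((hu.proj i j).map α).isSelfAdjoint.sub ((hu.proj i j).map β).isSelfAdjoint)
      (sub_mem (C.mem _).1 (C.mem _).2) hw).trans ?_
    rw [mul_comm (2 * (n : ℝ)), mul_assoc]
    exact mul_le_mul_of_nonneg_left (cost_ge hu C i j).2 (norm_nonneg _)⟩

theorem Lip.one : Lip u 1 := ⟨0, le_rfl, fun _ _ _ _ _ _ _ _ α β C w hw => by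
  obtain ⟨T, hT, -⟩ := exlin C.tr
  rw [map_one, map_one, sub_self, mul_zero, hT _ (zero_mem _)]
  simp⟩

theorem Lip.comb {a b : A} (ha : Lip u a) (hb : Lip u b) (c e : ℂ) : Lip u (c • a + e • b) := by
  obtain ⟨x, x0, hx⟩ := ha
  obtain ⟨y, y0, hy⟩ := hb
  refine ⟨‖c‖ * x + ‖e‖ * y, by positivity, fun φ ψ H _ _ _ M τ α β C w hw => ?_⟩
  obtain ⟨T, hT, -⟩ := exlin C.tr
  have m := fun a => hT _ (mul_mem hw (sub_mem (C.mem a).1 (C.mem a).2))
  have h1 := mul_le_mul_of_nonneg_left (hx φ ψ H M τ α β C w hw) (norm_nonneg c)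
  have h2 := mul_le_mul_of_nonneg_left (hy φ ψ H M τ α β C w hw) (norm_nonneg e)
  rw [m] at h1 h2 ⊢
  rw [show w * (α (c • a + e • b) - β (c • a + e • b)) = c • (w * (α a - β a)) +
    e • (w * (α b - β b)) by simp only [map_add, map_smul, mul_sub, mul_add, mul_smul_comm]; module,
    map_add, map_smul, map_smul]
  refine (norm_add_le _ _).trans ?_
  rw [norm_smul, norm_smul]
  linarith

theorem Lip.mul (hu : Magic u) (i : Fin n) {a b : A} (ha : Lip u a) (hb : Lip u b) :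
    Lip u (a * b) := by
  obtain ⟨x, x0, hx⟩ := ha
  obtain ⟨y, y0, hy⟩ := hb
  refine ⟨x * ‖b‖ + y * ‖a‖, by positivity, fun φ ψ H _ _ _ M τ α β C w hw => ?_⟩
  obtain ⟨T, hT, -⟩ := exlin C.tr
  have s0 := (cost_ge hu C i i).1
  have m := fun a => sub_mem (C.mem a).1 (C.mem a).2
  have h1 := hx φ ψ H M τ α β C _ (mul_mem (C.mem b).1 hw)
  have h2 := hy φ ψ H M τ α β C _ (mul_mem hw (C.mem a).2)
  rw [mul_assoc (α b), C.tr.trace _ (C.mem b).1 _ (mul_mem hw (m a)),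
    hT _ (mul_mem (mul_mem hw (m a)) (C.mem b).1)] at h1
  rw [hT _ (mul_mem (mul_mem hw (C.mem a).2) (m b))] at h2
  rw [hT _ (mul_mem hw (m _)), show w * (α (a * b) - β (a * b)) = w * (α a - β a) * α b +
    w * β a * (α b - β b) by rw [map_mul, map_mul]; noncomm_ring, map_add]
  have n1 : ‖α b * w‖ ≤ ‖b‖ * ‖w‖ := (norm_mul_le _ _).trans (mul_le_mul_of_nonneg_right
    (NonUnitalStarAlgHom.norm_apply_le α b) (norm_nonneg _))
  have n2 : ‖w * β a‖ ≤ ‖w‖ * ‖a‖ := (norm_mul_le _ _).trans (mul_le_mul_of_nonneg_left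
    (NonUnitalStarAlgHom.norm_apply_le β a) (norm_nonneg _))
  have n3 := mul_le_mul_of_nonneg_right (mul_le_mul_of_nonneg_left n1 x0) s0
  have n4 := mul_le_mul_of_nonneg_right (mul_le_mul_of_nonneg_left n2 y0) s0
  refine (norm_add_le _ _).trans ?_
  nlinarith

end Pool.Agent.H75.QP
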