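import Pool.Agent.H75.UCDefs
import Pool.Agent.H75.IEDefs

namespace Pool.Agent.H75.QP
open scoped ComplexOrder

/-- a magic unitary -/
structure Magic {n : ℕ} {B : Type} [CStarAlgebra B] (v : Fin n → Fin n → B) : Prop where
  proj : ∀ i j, IsStarProjection (v i j)
  row : ∀ i, ∑ k, v i k = 1
  col : ∀ j, ∑ k, v k j = 1

variable {n : ℕ} {A : Type} [CStarAlgebra A]

/-- `(A, u)` is the universal C*-algebra of a magic unitary, `C(S_n^+)` -/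
structure Universal (u : Fin n → Fin n → A) : Prop where
  magic : Magic u
  lift : ∀ (B : Type) [CStarAlgebra B] (v : Fin n → Fin n → B), Magic v →
    ∃! π : A →⋆ₐ[ℂ] B, ∀ i j, π (u i j) = v i j

/-- a tracial state -/
structure IsTrace (φ : A →L[ℂ] ℂ) : Prop where
  one : φ 1 = 1
  pos : ∀ a, 0 ≤ φ (star a * a)
  tr : ∀ a b, φ (a * b) = φ (b * a)

variable {H : Type} [NormedAddCommGroup H] [InnerProductSpace ℂ H] [CompleteSpace H]

/-- `p ∧ q`, the projection onto the intersection of the ranges -/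
noncomputable def meet (p q : H →L[ℂ] H) : H →L[ℂ] H :=
  IE.proj (LinearMap.range (p : H →ₗ[ℂ] H) ⊓ LinearMap.range (q : H →ₗ[ℂ] H))

/-- `(M, τ, α, β)` is a tracial coupling of `φ` and `ψ` -/
structure Coupling (φ ψ : A →L[ℂ] ℂ) (M : VonNeumannAlgebra H) (τ : (H →L[ℂ] H) → ℂ)
    (α β : A →⋆ₐ[ℂ] (H →L[ℂ] H)) : Prop where
  tr : UC.Tr M τ
  mem : ∀ a, α a ∈ M ∧ β a ∈ M
  val : ∀ a, τ (α a) = φ a ∧ τ (β a) = ψ a

/-- the cost defining `d_∧` -/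
noncomputable def costMeet (u : Fin n → Fin n → A) (τ : (H →L[ℂ] H) → ℂ)
    (α β : A →⋆ₐ[ℂ] (H →L[ℂ] H)) : ℝ :=
  1 - 1 / n * ∑ i, ∑ j, (τ (meet (α (u i j)) (β (u i j)))).re

/-- the cost defining `d_1` -/
noncomputable def costOne (u : Fin n → Fin n → A) (τ : (H →L[ℂ] H) → ℂ)
    (α β : A →⋆ₐ[ℂ] (H →L[ℂ] H)) : ℝ :=
  1 / n * ∑ i, ∑ j, 1 / 2 * (τ (CFC.abs (α (u i j) - β (u i j)))).re

/-- some tracial coupling of `φ` and `ψ` has `d_∧`-cost `r` and `d_1`-cost `s` -/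
def Cpl (u : Fin n → Fin n → A) (φ ψ : A →L[ℂ] ℂ) (r s : ℝ) : Prop :=
  ∃ (H : Type) (_ : NormedAddCommGroup H) (_ : InnerProductSpace ℂ H) (_ : CompleteSpace H)
    (M : VonNeumannAlgebra H) (τ : (H →L[ℂ] H) → ℂ) (α β : A →⋆ₐ[ℂ] (H →L[ℂ] H)),
    Coupling φ ψ M τ α β ∧ r = costMeet u τ α β ∧ s = costOne u τ α β

end Pool.Agent.H75.QP
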