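import Mathlib

/-! Upper bound for the Rota-Baxter index of Grassmann algebras. -/

set_option autoImplicit false

namespace Pool.Agent.H75.RB

open ExteriorAlgebra

section General
variable {F : Type*} [Field F] [CharZero F]

theorem jordan1 {V : Type*} [AddCommGroup V] [Module F V] (T R : Module.End F V)
    (h : T * R = R * T + R * R) (j : ℕ) :
    T ^ (j + 1) * R = R * T ^ (j + 1) + ((j + 1 : ℕ) : F) • (R * T ^ j * R) := by
  induction j with
  | zero => simp [h]
  | succ j ih =>
    have e : T ^ (j + 1 + 1) * R = (T * R) * (T ^ (j + 1) + ((j + 1 : ℕ) : F) • (T ^ j * R)) := by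
      rw [pow_succ' T (j + 1), mul_assoc, ih]
      simp only [mul_add, mul_smul_comm, mul_assoc]
    have e2 : R * (T ^ (j + 1) + ((j + 1 : ℕ) : F) • (T ^ j * R)) = T ^ (j + 1) * R := by
      rw [ih]; simp only [mul_add, mul_smul_comm, mul_assoc]
    rw [e, h, add_mul, mul_assoc R R, e2]
    simp only [mul_add, mul_smul_comm, mul_assoc, pow_succ' T (j + 1), pow_succ' T j]
    push_cast
    module

theorem jordan2 {V : Type*} [AddCommGroup V] [Module F V] (T R : Module.End F V)
    (h : T * R = R * T + R * R) (k : ℕ) :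
    T * R ^ (k + 1) = R ^ (k + 1) * T + ((k + 1 : ℕ) : F) • R ^ (k + 2) := by
  induction k with
  | zero => simp [h, pow_two]
  | succ k ih =>
    rw [pow_succ R (k + 1), ← mul_assoc, ih, add_mul, mul_assoc, h]
    simp only [mul_add, smul_mul_assoc, mul_assoc, pow_succ]
    push_cast
    module

theorem jordan3 {V : Type*} [AddCommGroup V] [Module F V] (T R : Module.End F V)
    (h : T * R = R * T + R * R) (k : ℕ) :
    R ^ (k + 1) ∈ Submodule.span F {M | ∃ i j, i + j = k ∧ M = T ^ i * R * T ^ j} := by
  induction k with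
  | zero => exact Submodule.subset_span ⟨0, 0, rfl, by simp⟩
  | succ k ih =>
    have key : ∀ M ∈ Submodule.span F {M | ∃ i j, i + j = k ∧ M = T ^ i * R * T ^ j},
        T * M - M * T ∈ Submodule.span F {M | ∃ i j, i + j = k + 1 ∧ M = T ^ i * R * T ^ j} := by
      intro M hM
      induction hM using Submodule.span_induction with
      | mem M hM =>
        obtain ⟨i, j, hij, rfl⟩ := hM
        refine sub_mem (Submodule.subset_span ⟨i + 1, j, by omega, ?_⟩)
          (Submodule.subset_span ⟨i, j + 1, by omega, ?_⟩)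
        · simp only [pow_succ', mul_assoc]
        · simp only [pow_succ, mul_assoc]
      | zero => simp
      | add M M' _ _ h1 h2 =>
        have : T * (M + M') - (M + M') * T = (T * M - M * T) + (T * M' - M' * T) := by
          noncomm_ring
        rw [this]; exact add_mem h1 h2
      | smul c M _ h1 =>
        rw [mul_smul_comm, smul_mul_assoc, ← smul_sub]; exact Submodule.smul_mem _ _ h1
    have h1 := key _ ih
    rw [jordan2 T R h, add_sub_cancel_left] at h1
    have hk : ((k + 1 : ℕ) : F) ≠ 0 := Nat.cast_ne_zero.2 (by omega)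
    exact (Submodule.smul_mem_iff _ hk).1 h1

end General

section Ext
variable {F : Type*} [Field F] {M : Type*} [AddCommGroup M] [Module F M]

theorem sgn (v : M) (k : ℕ) (z : ExteriorAlgebra F M) (hz : z ∈ ⋀[F]^k M) :
    ι F v * z = (-1 : F) ^ k • (z * ι F v) := by
  induction hz using Submodule.pow_induction_on_left' with
  | algebraMap r => simp [Algebra.commutes]
  | add x y i _ _ hx hy => rw [mul_add, add_mul, smul_add, hx, hy]
  | mem_mul m hm i x _ hx =>
    obtain ⟨w, rfl⟩ := hm
    have : ι F v * ι F w = -(ι F w * ι F v) := eq_neg_of_add_eq_zero_left (ι_add_mul_swap v w)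
    rw [← mul_assoc, this, neg_mul, mul_assoc, hx, pow_succ]
    simp [mul_assoc]

variable (F M) in
/-- The filtration by powers of the augmentation ideal. -/
noncomputable def N (k : ℕ) : Submodule F (ExteriorAlgebra F M) := ⨆ i, ⋀[F]^(k + i) M

theorem mem_N {k l : ℕ} (h : k ≤ l) {z : ExteriorAlgebra F M} (hz : z ∈ ⋀[F]^l M) :
    z ∈ N F M k := by
  obtain ⟨i, rfl⟩ := Nat.exists_eq_add_of_le h
  exact Submodule.mem_iSup_of_mem i hz

theorem N_mul {k l : ℕ} {x y : ExteriorAlgebra F M} (hx : x ∈ N F M k) (hy : y ∈ N F M l) :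
    x * y ∈ N F M (k + l) := by
  induction hx using Submodule.iSup_induction' with
  | mem i x hx =>
    induction hy using Submodule.iSup_induction' with
    | mem j y hy =>
      refine mem_N (l := (k + i) + (l + j)) (by omega) ?_
      exact SetLike.mul_mem_graded (A := fun i : ℕ => ⋀[F]^i M) hx hy
    | zero => simp
    | add y y' _ _ h h' => rw [mul_add]; exact add_mem h h'
  | zero => simp
  | add x x' _ _ h h' => rw [add_mul]; exact add_mem h h'

theorem N_anti {k l : ℕ} (h : k ≤ l) : N F M l ≤ N F M k :=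
  iSup_le fun i _ hz => mem_N (by omega) hz

theorem N_zero (x : ExteriorAlgebra F M) : x ∈ N F M 0 := by
  induction x using ExteriorAlgebra.induction with
  | algebraMap r => exact mem_N le_rfl (by simp)
  | ι m => exact mem_N (l := 1) (by omega) (by simp)
  | mul a b ha hb => exact N_mul (k := 0) (l := 0) ha hb
  | add a b ha hb => exact add_mem ha hb

theorem N_split {k : ℕ} {x : ExteriorAlgebra F M} (hx : x ∈ N F M k) :
    ∃ y ∈ ⋀[F]^k M, x - y ∈ N F M (k + 1) := by
  induction hx using Submodule.iSup_induction' with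
  | mem i x hx =>
    rcases Nat.eq_zero_or_pos i with rfl | hi
    · exact ⟨x, hx, by simp⟩
    · exact ⟨0, zero_mem _, by rw [sub_zero]; exact mem_N (by omega) hx⟩
  | zero => exact ⟨0, zero_mem _, by simp⟩
  | add x x' _ _ h h' =>
    obtain ⟨y, hy, h⟩ := h
    obtain ⟨y', hy', h'⟩ := h'
    refine ⟨y + y', add_mem hy hy', ?_⟩
    rw [add_sub_add_comm]
    exact add_mem h h'

theorem N_anticomm {a y : ExteriorAlgebra F M} (ha : a ∈ N F M 1) {j : ℕ}
    (hy : y ∈ N F M (2 * j + 1)) : a * y + y * a ∈ N F M (2 * j + 3) := by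
  obtain ⟨a1, ha1, ha2⟩ := N_split ha
  obtain ⟨y1, hy1, hy2⟩ := N_split hy
  rw [exteriorPower, pow_one] at ha1
  obtain ⟨v, rfl⟩ := ha1
  have h0 : ι F v * y1 + y1 * ι F v = 0 := by
    rw [sgn v _ y1 hy1, pow_succ, pow_mul]; simp
  have e : a * y + y * a = (ι F v * y1 + y1 * ι F v) + ((a - ι F v) * y + y * (a - ι F v)) +
      (ι F v * (y - y1) + (y - y1) * ι F v) := by noncomm_ring
  have hv : ι F v ∈ N F M 1 := mem_N le_rfl (by simp)
  rw [e, h0, zero_add]
  refine add_mem (add_mem ?_ ?_) (add_mem ?_ ?_)
  · exact N_anti (by omega) (N_mul ha2 hy)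
  · exact N_anti (by omega) (N_mul hy ha2)
  · exact N_anti (by omega) (N_mul hv hy2)
  · exact N_anti (by omega) (N_mul hy2 hv)

end Ext

section Upper
variable {F : Type*} [Field F] [CharZero F] {n : ℕ}

omit [CharZero F] in
theorem N_top {k : ℕ} (hk : n < k) {x : ExteriorAlgebra F (Fin n → F)}
    (hx : x ∈ N F (Fin n → F) k) : x = 0 := by
  have : N F (Fin n → F) k ≤ ⊥ := iSup_le fun i => by
    rw [le_bot_iff, ← Submodule.finrank_eq_zero, exteriorPower.finrank_eq]
    simp only [Module.finrank_fin_fun]
    exact Nat.choose_eq_zero_of_lt (by omega)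
  exact this hx

omit [CharZero F] in
theorem N_line {y z : ExteriorAlgebra F (Fin n → F)} (hy : y ∈ N F (Fin n → F) n)
    (hz : z ∈ N F (Fin n → F) n) (h0 : z ≠ 0) : ∃ c : F, y = c • z := by
  have h : ∀ {x}, x ∈ N F (Fin n → F) n → x ∈ ⋀[F]^n (Fin n → F) := fun hx => by
    obtain ⟨y, hy, h⟩ := N_split hx
    rw [sub_eq_zero.1 (N_top (Nat.lt_succ_self n) h)]; exact hy
  have h1 : Module.finrank F (⋀[F]^n (Fin n → F)) = 1 := by
    rw [exteriorPower.finrank_eq]; simp
  obtain ⟨c, hc⟩ := (finrank_eq_one_iff_of_nonzero' (⟨z, h hz⟩ : ⋀[F]^n (Fin n → F))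
    (fun h => h0 (congrArg Subtype.val h))).1 h1 ⟨y, h hy⟩
  exact ⟨c, (congrArg Subtype.val hc).symm⟩

variable (R : Module.End F (ExteriorAlgebra F (Fin n → F)))
  (hR : ∀ x y, R x * R y = R (R x * y + x * R y))
include hR

theorem range_N (x : ExteriorAlgebra F (Fin n → F)) : R x ∈ N F (Fin n → F) 1 := by
  obtain ⟨y, hy, h⟩ := N_split (N_zero (R x))
  rw [exteriorPower, pow_zero, Submodule.one_eq_range] at hy
  obtain ⟨c, rfl⟩ := hy
  simp only [Algebra.linearMap_apply, zero_add] at h
  by_cases hc : c = 0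
  · simpa [hc] using h
  exfalso
  have hpow : ∀ k, (R x - algebraMap F _ c) ^ k ∈ N F (Fin n → F) k := by
    intro k
    induction k with
    | zero => exact N_zero _
    | succ k ih => rw [pow_succ]; exact N_mul ih h
  have hB : ∀ k, (R x - algebraMap F _ c) ^ k - (-c) ^ k • 1 ∈ LinearMap.range R := by
    intro k
    induction k with
    | zero => simp
    | succ k ih =>
      obtain ⟨u, hu⟩ := ih
      have e : (R x - algebraMap F _ c) ^ (k + 1) - (-c) ^ (k + 1) • 1 =
          R x * R u + (-c) ^ k • R x - c • R u := by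
        rw [pow_succ', hu, Algebra.algebraMap_eq_smul_one]
        simp only [sub_mul, mul_sub, smul_mul_assoc, mul_smul_comm, one_mul, mul_one, smul_sub,
          pow_succ']
        module
      rw [e, hR]
      exact sub_mem (add_mem ⟨_, rfl⟩ (Submodule.smul_mem _ _ ⟨_, rfl⟩))
        (Submodule.smul_mem _ _ ⟨_, rfl⟩)
  have h1 := hB (n + 1)
  rw [N_top (Nat.lt_succ_self n) (hpow _), zero_sub, neg_mem_iff,
    Submodule.smul_mem_iff _ (pow_ne_zero _ (neg_ne_zero.2 hc))] at h1
  obtain ⟨u, hu⟩ := h1
  have := hR u u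
  rw [hu, one_mul, one_mul, mul_one, map_add, hu] at this
  have h2 : (1 : ExteriorAlgebra F (Fin n → F)) = 0 := by
    linear_combination (norm := noncomm_ring) -this
  exact one_ne_zero h2

theorem upper : R ^ (max n 2) = 0 := by
  set a := R 1 with ha
  have haN : a ∈ N F (Fin n → F) 1 := range_N R hR 1
  let T : Module.End F (ExteriorAlgebra F (Fin n → F)) :=
    (2 : F)⁻¹ • (LinearMap.mulLeft F a + LinearMap.mulRight F a)
  have hT : ∀ y, T y = (2 : F)⁻¹ • (a * y + y * a) := fun y => rfl
  have hTR : T * R = R * T + R * R := by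
    refine LinearMap.ext fun x => ?_
    have h1 := hR 1 x
    have h2 := hR x 1
    simp only [Module.End.mul_apply, LinearMap.add_apply, hT, map_smul, map_add, ← ha, one_mul,
      mul_one] at h1 h2 ⊢
    rw [h1, h2]
    have : (2 : F)⁻¹ + (2 : F)⁻¹ = 1 := by norm_num
    linear_combination (norm := module) this • R (R x)
  have hTN : ∀ (j : ℕ) {i : ℕ} {y}, y ∈ N F (Fin n → F) (2 * i + 1) →
      (T ^ j) y ∈ N F (Fin n → F) (2 * (i + j) + 1) := by
    intro j i y hy
    induction j with
    | zero => simpa using hy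
    | succ j ih =>
      rw [pow_succ', Module.End.mul_apply, hT]
      exact Submodule.smul_mem _ _ (N_anticomm haN ih)
  have hT1 : T 1 = a := by
    rw [hT, mul_one, one_mul, ← two_smul F a, smul_smul]; simp
  obtain ⟨k, hk⟩ : ∃ k, max n 2 = k + 1 := ⟨max n 2 - 1, by omega⟩
  have hone : ∀ j, (T ^ j) 1 = ((j.factorial : ℕ) : F) • (R ^ j) 1 := by
    intro j
    induction j with
    | zero => simp
    | succ j ih =>
      rw [pow_succ, Module.End.mul_apply, hT1, ha]
      cases j with
      | zero => simp
      | succ j =>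
        have := LinearMap.congr_fun (jordan1 T R hTR j) 1
        simp only [Module.End.mul_apply, LinearMap.add_apply, LinearMap.smul_apply] at this
        have e : (T ^ j) (R 1) = (T ^ (j + 1)) 1 := by
          rw [pow_succ, Module.End.mul_apply, hT1, ha]
        rw [this, e, ih, map_smul, pow_succ' R (j + 1), Module.End.mul_apply,
          Nat.factorial_succ (j + 1)]
        push_cast
        module
  have h1 : (R ^ (k + 1)) 1 = 0 := by
    have := hone (k + 1)
    rw [pow_succ, Module.End.mul_apply, hT1,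
      N_top (by omega) (hTN k (i := 0) (by simpa using haN))] at this
    exact (smul_eq_zero.1 this.symm).resolve_left (Nat.cast_ne_zero.2 (Nat.factorial_ne_zero _))
  have h2 : ∀ x ∈ N F (Fin n → F) 1, (R ^ (k + 1)) x = 0 := by
    intro x hx
    have hx' : x ∈ N F (Fin n → F) (2 * 0 + 1) := hx
    have key : ∀ M ∈ Submodule.span F {M | ∃ i j, i + j = k ∧ M = T ^ i * R * T ^ j},
        M x = 0 := by
      intro M hM
      induction hM using Submodule.span_induction with
      | mem M hM =>
        obtain ⟨i, j, hij, rfl⟩ := hM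
        simp only [Module.End.mul_apply]
        have hy := hTN j hx'
        have hz := hTN i (i := 0) (range_N R hR ((T ^ j) x))
        by_cases h3 : n < 2 * (0 + j) + 1
        · rw [N_top h3 hy, map_zero, map_zero]
        by_cases h4 : n < 2 * (0 + i) + 1
        · exact N_top h4 hz
        have hi : 2 * (0 + i) + 1 = n := by omega
        have hj : 2 * (0 + j) + 1 = n := by omega
        rw [hi] at hz
        rw [hj] at hy
        by_contra h0
        obtain ⟨c, hc⟩ := N_line hy hz h0
        have := LinearMap.congr_fun (jordan1 T R hTR i) ((T ^ j) x)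
        simp only [Module.End.mul_apply, LinearMap.add_apply, LinearMap.smul_apply] at this
        rw [N_top (by omega) (hTN (i + 1) (i := 0) (range_N R hR ((T ^ j) x))),
          N_top (by omega) (hTN (i + 1) (hTN j hx')), map_zero, zero_add] at this
        have h5 := (smul_eq_zero.1 this.symm).resolve_left (Nat.cast_ne_zero.2 (by omega))
        have h6 : R ((T ^ j) x) = 0 := by rw [hc, map_smul, h5, smul_zero]
        exact h0 (by rw [h6, map_zero])
      | zero => rfl
      | add M M' _ _ h h' => rw [LinearMap.add_apply, h, h', add_zero]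
      | smul c M _ h => rw [LinearMap.smul_apply, h, smul_zero]
    exact key _ (jordan3 T R hTR k)
  rw [hk]
  refine LinearMap.ext fun x => ?_
  obtain ⟨y, hy, h⟩ := N_split (N_zero x)
  rw [exteriorPower, pow_zero, Submodule.one_eq_range] at hy
  obtain ⟨c, rfl⟩ := hy
  have := h2 _ h
  simp only [Algebra.linearMap_apply, Algebra.algebraMap_eq_smul_one, map_sub, map_smul, h1,
    smul_zero, sub_zero] at this
  exact this

end Upper

end Pool.Agent.H75.RB
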