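import Mathlib
import Pool.Agent.H75.RBUpper

/-! Lower bound for the Rota-Baxter index of Grassmann algebras. -/

set_option autoImplicit false

namespace Pool.Agent.H75.RB

section Abstract
variable {F : Type*} [Field F] [CharZero F] {A : Type*} [Ring A] [Algebra F A]

/-- Data for the construction. -/
structure Dat (F A : Type*) [Field F] [Ring A] [Algebra F A] where
  a : A
  g : A
  f : A
  s : ℕ
  L : A →ₗ[F] F
  cen : ∀ y, y * a = a * y
  gg : g * g = 0
  ff : f * f = 0
  fg : f * g = -(g * f)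
  as1 : a ^ (s + 2) = 0
  asg : a ^ (s + 1) * g = 0
  Lg : ∀ z, L (z * g) = -L (g * z)
  Lf : ∀ z, L (z * f) = -L (f * z)
  Ls : ∀ y, L (a ^ (s + 1) * y) = 0
  L1 : ∀ j, L (a ^ j) = 0
  L4 : ∀ j, L (a ^ j * (g * f)) = if j = s then 1 else 0

namespace Dat
variable (D : Dat F A)

/-- The four families. -/
def X (t : Fin 4) (i : ℕ) : A := D.a ^ i * ![1, D.g, D.f, D.g * D.f] t

omit [CharZero F] in
theorem cenp (y : A) (i : ℕ) : y * D.a ^ i = D.a ^ i * y :=
  ((Commute.pow_left (show Commute D.a y from (D.cen y).symm) i).eq).symm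

omit [CharZero F] in
theorem mulX (i j : ℕ) (u v : A) : D.a ^ i * u * (D.a ^ j * v) = D.a ^ (i + j) * (u * v) := by
  rw [mul_assoc, ← mul_assoc u, D.cenp u, pow_add]; simp only [mul_assoc]

omit [CharZero F] in
theorem ggf : D.g * (D.g * D.f) = 0 := by rw [← mul_assoc, D.gg, zero_mul]
omit [CharZero F] in
theorem fgf : D.f * (D.g * D.f) = 0 := by rw [← mul_assoc, D.fg, neg_mul, mul_assoc, D.ff]; simp
omit [CharZero F] in
theorem gfg : D.g * D.f * D.g = 0 := by rw [mul_assoc, D.fg, mul_neg, D.ggf, neg_zero]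
omit [CharZero F] in
theorem gff : D.g * D.f * D.f = 0 := by rw [mul_assoc, D.ff, mul_zero]
omit [CharZero F] in
theorem gfgf : D.g * D.f * (D.g * D.f) = 0 := by rw [← mul_assoc, D.gfg, zero_mul]

/-- The multiplication table: coefficient and index. -/
def tab : Fin 4 → Fin 4 → ℤ × Fin 4 :=
  ![![(1, 0), (1, 1), (1, 2), (1, 3)], ![(1, 1), (0, 0), (1, 3), (0, 0)],
    ![(1, 2), (-1, 3), (0, 0), (0, 0)], ![(1, 3), (0, 0), (0, 0), (0, 0)]]

omit [CharZero F] in
theorem X_mul (t r : Fin 4) (i j : ℕ) :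
    D.X t i * D.X r j = ((tab t r).1 : F) • D.X (tab t r).2 (i + j) := by
  simp only [X, mulX]
  fin_cases t <;> fin_cases r <;>
    simp [tab, D.gg, D.ff, D.fg, D.ggf, D.fgf, D.gfg, D.gff, D.gfgf]

theorem L_X (t : Fin 4) (j : ℕ) : D.L (D.X t j) = if t = 3 ∧ j = D.s then 1 else 0 := by
  have h2 : ∀ x : F, x = -x → x = 0 := fun x h => by linear_combination (1 / 2 : F) * h
  fin_cases t
  · simp [X, D.L1]
  · have := D.Lg (D.a ^ j)
    rw [D.cenp] at this
    simpa [X] using h2 _ this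
  · have := D.Lf (D.a ^ j)
    rw [D.cenp] at this
    simpa [X] using h2 _ this
  · simp [X, D.L4]

/-- Coefficient functionals. -/
def co (t : Fin 4) (i : ℕ) : A →ₗ[F] F :=
  (![1, -1, 1, 1] t : F) • (D.L ∘ₗ LinearMap.mulLeft F (D.X (![3, 2, 1, 0] t) (D.s - i)))

theorem co_X (t r : Fin 4) (i j : ℕ) (hi : i ≤ D.s) :
    D.co t i (D.X r j) = if t = r ∧ i = j then 1 else 0 := by
  simp only [co, LinearMap.smul_apply, LinearMap.comp_apply, LinearMap.mulLeft_apply, X_mul,
    map_smul, L_X]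
  have : (D.s - i + j = D.s) ↔ i = j := by omega
  fin_cases t <;> fin_cases r <;> simp [tab, this]

/-- Values of the operator on the families. -/
noncomputable def val (t : Fin 4) (i : ℕ) : A :=
  (![((i : F) + 1)⁻¹, ((i : F) - D.s)⁻¹, ((i : F) + 1)⁻¹, ((i : F) - D.s)⁻¹] t) • D.X t (i + 1) +
    (if t = 1 ∧ i = D.s then 1 else 0 : F) • D.X 2 0

/-- The operator. -/
noncomputable def R : A →ₗ[F] A :=
  ∑ t : Fin 4, ∑ i ∈ Finset.range (D.s + 1), (D.co t i).smulRight (D.val t i)

omit [CharZero F] in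
theorem X_big (t : Fin 4) (j : ℕ) (hj : D.s + 2 ≤ j) : D.X t j = 0 := by
  obtain ⟨k, rfl⟩ := Nat.exists_eq_add_of_le hj
  rw [X, pow_add, D.as1, zero_mul, zero_mul]

omit [CharZero F] in
theorem X1_big (j : ℕ) (hj : D.s + 1 ≤ j) : D.X 1 j = 0 := by
  obtain ⟨k, rfl⟩ := Nat.exists_eq_add_of_le hj
  change D.a ^ _ * D.g = 0
  rw [add_comm, pow_add, mul_assoc, D.asg, mul_zero]

omit [CharZero F] in
theorem X3_big (j : ℕ) (hj : D.s + 1 ≤ j) : D.X 3 j = 0 := by
  have := D.X1_big j hj
  change D.a ^ _ * D.g = 0 at this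
  change D.a ^ _ * (D.g * D.f) = 0
  rw [← mul_assoc, this, zero_mul]

theorem sum_co (v : Fin 4 → ℕ → A) (r : Fin 4) (j : ℕ) :
    ∑ t : Fin 4, ∑ i ∈ Finset.range (D.s + 1), D.co t i (D.X r j) • v t i =
      if j ≤ D.s then v r j else 0 := by
  rw [Finset.sum_eq_single r]
  · split_ifs with h
    · rw [Finset.sum_eq_single j]
      · rw [D.co_X _ _ _ _ h]; simp
      · intro i hi hij
        rw [D.co_X _ _ _ _ (by simpa [Nat.lt_succ_iff] using hi)]; simp [hij]
      · intro h'; exact absurd (Finset.mem_range.2 (by omega)) h'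
    · refine Finset.sum_eq_zero fun i hi => ?_
      have hi' : i ≤ D.s := by simpa [Nat.lt_succ_iff] using hi
      rw [D.co_X _ _ _ _ hi', if_neg (by omega), zero_smul]
  · intro t _ ht
    refine Finset.sum_eq_zero fun i hi => ?_
    rw [D.co_X _ _ _ _ (by simpa [Nat.lt_succ_iff] using hi)]; simp [ht]
  · simp

theorem R_X (r : Fin 4) (j : ℕ) : D.R (D.X r j) = D.val r j := by
  simp only [R, LinearMap.sum_apply, LinearMap.smulRight_apply]
  rw [D.sum_co]
  split_ifs with h
  · rfl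
  · rw [val, D.X_big _ _ (by omega), if_neg (by omega)]; simp

/-- The complementary bimodule. -/
def K : Submodule F A where
  carrier := {y | ∀ t k, D.L (D.X t k * y) = 0}
  zero_mem' := fun t k => by simp
  add_mem' := fun {x y} hx hy t k => by rw [mul_add, map_add, hx, hy, add_zero]
  smul_mem' := fun c x hx t k => by rw [mul_smul_comm, map_smul, hx, smul_zero]

omit [CharZero F] in
theorem R_K {y : A} (hy : y ∈ D.K) : D.R y = 0 := by
  simp only [R, LinearMap.sum_apply, LinearMap.smulRight_apply, co, LinearMap.smul_apply,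
    LinearMap.comp_apply, LinearMap.mulLeft_apply, hy _ _]
  simp

omit [CharZero F] in
theorem K_left {y : A} (hy : y ∈ D.K) (r : Fin 4) (j : ℕ) : D.X r j * y ∈ D.K := fun t k => by
  rw [← mul_assoc, X_mul, smul_mul_assoc, map_smul, hy, smul_zero]

omit [CharZero F] in
theorem K_right {y : A} (hy : y ∈ D.K) (r : Fin 4) (j : ℕ) : y * D.X r j ∈ D.K := by
  have hg : ∀ {y}, y ∈ D.K → y * D.g ∈ D.K := fun {y} hy t k => by
    have := D.X_mul 1 t 0 k
    rw [show D.X 1 0 = D.g by simp [X]] at this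
    rw [← mul_assoc, D.Lg, ← mul_assoc, this, smul_mul_assoc, map_smul, hy]; simp
  have hf : ∀ {y}, y ∈ D.K → y * D.f ∈ D.K := fun {y} hy t k => by
    have := D.X_mul 2 t 0 k
    rw [show D.X 2 0 = D.f by simp [X]] at this
    rw [← mul_assoc, D.Lf, ← mul_assoc, this, smul_mul_assoc, map_smul, hy]; simp
  have ha : y * D.a ^ j ∈ D.K := by
    have := D.K_left hy 0 j
    rw [D.cenp]
    simpa [X] using this
  rw [X, ← mul_assoc]
  fin_cases r
  · simpa using ha
  · exact hg ha
  · exact hf ha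
  · have := hf (hg ha)
    rwa [mul_assoc] at this

theorem decomp (x : A) :
    x - ∑ t : Fin 4, ∑ i ∈ Finset.range (D.s + 1), D.co t i x • D.X t i ∈ D.K := by
  intro r k
  by_cases hk : k ≤ D.s
  · simp only [mul_sub, map_sub, Finset.mul_sum, mul_smul_comm, map_sum, map_smul, X_mul, L_X]
    obtain ⟨i, hi⟩ : ∃ i, D.s = k + i := Nat.exists_eq_add_of_le hk
    have e : ∀ (t : Fin 4) (c : F) (q : Prop) [Decidable q],
        ∑ j ∈ Finset.range (D.s + 1), D.co t j x • c • (if q ∧ k + j = D.s then (1 : F) else 0) =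
          if q then D.co t i x * c else 0 := by
      intro t c q _
      rw [Finset.sum_eq_single i]
      · by_cases hq : q <;> simp [hq, hi]
      · intro j _ hj
        rw [if_neg (by omega)]; simp
      · intro h'; exact absurd (Finset.mem_range.2 (by omega)) h'
    simp only [e, Fin.sum_univ_four]
    have e2 : D.s - i = k := by omega
    fin_cases r <;> simp [tab, co, e2]
  · obtain ⟨i, rfl⟩ : ∃ i, k = D.s + 1 + i := Nat.exists_eq_add_of_le (by omega)
    rw [X, pow_add, mul_assoc, mul_assoc, D.Ls]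

theorem span_top (x : A) : x ∈ Submodule.span F ({y | ∃ t i, y = D.X t i} ∪ (D.K : Set A)) := by
  rw [← sub_add_cancel x (∑ t : Fin 4, ∑ i ∈ Finset.range (D.s + 1), D.co t i x • D.X t i)]
  refine add_mem (Submodule.subset_span (Or.inr (D.decomp x))) ?_
  exact Submodule.sum_mem _ fun t _ => Submodule.sum_mem _ fun i _ =>
    Submodule.smul_mem _ _ (Submodule.subset_span (Or.inl ⟨t, i, rfl⟩))

omit [CharZero F] in
theorem K_R {y : A} (hy : y ∈ D.K) (x : A) : y * D.R x ∈ D.K ∧ D.R x * y ∈ D.K := by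
  simp only [R, LinearMap.sum_apply, LinearMap.smulRight_apply, val, Finset.mul_sum,
    Finset.sum_mul, mul_smul_comm, smul_mul_assoc, mul_add, add_mul]
  constructor
  · exact Submodule.sum_mem _ fun t _ => Submodule.sum_mem _ fun i _ => Submodule.smul_mem _ _
      (add_mem (Submodule.smul_mem _ _ (D.K_right hy _ _))
        (Submodule.smul_mem _ _ (D.K_right hy _ _)))
  · exact Submodule.sum_mem _ fun t _ => Submodule.sum_mem _ fun i _ => Submodule.smul_mem _ _
      (add_mem (Submodule.smul_mem _ _ (D.K_left hy _ _))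
        (Submodule.smul_mem _ _ (D.K_left hy _ _)))

theorem sc1 (i j : ℕ) : ((i : F) + 1)⁻¹ * ((j : F) + 1)⁻¹ =
    (((i : F) + 1)⁻¹ + ((j : F) + 1)⁻¹) * (((i + j + 1 : ℕ) : F) + 1)⁻¹ := by
  have h1 : (i : F) + 1 ≠ 0 := Nat.cast_add_one_ne_zero i
  have h2 : (j : F) + 1 ≠ 0 := Nat.cast_add_one_ne_zero j
  have h3 : ((i + j + 1 : ℕ) : F) + 1 ≠ 0 := Nat.cast_add_one_ne_zero _
  field_simp
  push_cast; ring

theorem sc2 (i j : ℕ) (v : A) (hv : D.s + 1 ≤ i + j + 1 + 1 → v = 0) :
    (((i : F) + 1)⁻¹ * ((j : F) - D.s)⁻¹) • v =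
      ((((i : F) + 1)⁻¹ + ((j : F) - D.s)⁻¹) * (((i + j + 1 : ℕ) : F) - D.s)⁻¹) • v := by
  by_cases h : D.s + 1 ≤ i + j + 1 + 1
  · rw [hv h]; simp
  have h1 : (i : F) + 1 ≠ 0 := Nat.cast_add_one_ne_zero i
  have h2 : (j : F) - D.s ≠ 0 := sub_ne_zero.2 (Nat.cast_injective.ne (by omega))
  have h3 : ((i + j + 1 : ℕ) : F) - D.s ≠ 0 := sub_ne_zero.2 (Nat.cast_injective.ne (by omega))
  congr 1
  field_simp
  push_cast; ring

theorem sc3 (i j : ℕ) :
    (((i : F) + 1)⁻¹ + ((j : F) - D.s)⁻¹) * (if i + j + 1 = D.s then (1 : F) else 0) = 0 := by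
  split_ifs with h
  · rw [← h]; push_cast
    rw [show (j : F) - (i + j + 1) = -(i + 1) by ring, inv_neg]; ring
  · simp

theorem R0 (i : ℕ) : D.R (D.X 0 i) = ((i : F) + 1)⁻¹ • D.X 0 (i + 1) := by simp [R_X, val]
theorem R1 (i : ℕ) : D.R (D.X 1 i) = ((i : F) - D.s)⁻¹ • D.X 1 (i + 1) +
    (if i = D.s then (1 : F) else 0) • D.X 2 0 := by simp [R_X, val]
theorem R2 (i : ℕ) : D.R (D.X 2 i) = ((i : F) + 1)⁻¹ • D.X 2 (i + 1) := by simp [R_X, val]
theorem R3 (i : ℕ) : D.R (D.X 3 i) = ((i : F) - D.s)⁻¹ • D.X 3 (i + 1) := by simp [R_X, val]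

omit [CharZero F] in
theorem mtab (i j : ℕ) : (∀ t, D.X 0 i * D.X t j = D.X t (i + j)) ∧
    (∀ t, D.X t i * D.X 0 j = D.X t (i + j)) ∧ D.X 1 i * D.X 1 j = 0 ∧
    D.X 1 i * D.X 2 j = D.X 3 (i + j) ∧ D.X 1 i * D.X 3 j = 0 ∧
    D.X 2 i * D.X 1 j = -D.X 3 (i + j) ∧ D.X 2 i * D.X 2 j = 0 ∧ D.X 2 i * D.X 3 j = 0 ∧
    D.X 3 i * D.X 1 j = 0 ∧ D.X 3 i * D.X 2 j = 0 ∧ D.X 3 i * D.X 3 j = 0 := by
  refine ⟨fun t => ?_, fun t => ?_, ?_, ?_, ?_, ?_, ?_, ?_, ?_, ?_, ?_⟩
  · fin_cases t <;> simp [X_mul, tab]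
  · fin_cases t <;> simp [X_mul, tab]
  all_goals simp [X_mul, tab]

theorem rb_X (t r : Fin 4) (i j : ℕ) :
    D.R (D.X t i) * D.R (D.X r j) = D.R (D.R (D.X t i) * D.X r j + D.X t i * D.R (D.X r j)) := by
  have e1 : i + 1 + j = i + j + 1 := by omega
  have e2 : i + (j + 1) = i + j + 1 := by omega
  have e3 : i + 1 + (j + 1) = i + j + 1 + 1 := by omega
  have e4 : j + i + 1 = i + j + 1 := by omega
  have s1 := sc1 (F := F) i j
  have s21 := D.sc2 i j _ (D.X1_big _)
  have s23 := D.sc2 i j _ (D.X3_big _)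
  have s21' := D.sc2 j i _ (D.X1_big _)
  have s23' := D.sc2 j i _ (D.X3_big _)
  have s3 := D.sc3 i j
  have s3' := D.sc3 j i
  rw [e4] at s21' s23' s3'
  have ht : t = 0 ∨ t = 1 ∨ t = 2 ∨ t = 3 := by fin_cases t <;> simp
  have hr : r = 0 ∨ r = 1 ∨ r = 2 ∨ r = 3 := by fin_cases r <;> simp
  rcases ht with rfl | rfl | rfl | rfl <;> rcases hr with rfl | rfl | rfl | rfl <;>
    simp only [R0, R1, R2, R3, add_mul, mul_add, smul_mul_assoc, mul_smul_comm,
      fun i j => (D.mtab i j).1, fun i j => (D.mtab i j).2.1, fun i j => (D.mtab i j).2.2.1,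
      fun i j => (D.mtab i j).2.2.2.1, fun i j => (D.mtab i j).2.2.2.2.1,
      fun i j => (D.mtab i j).2.2.2.2.2.1, fun i j => (D.mtab i j).2.2.2.2.2.2.1,
      fun i j => (D.mtab i j).2.2.2.2.2.2.2.1, fun i j => (D.mtab i j).2.2.2.2.2.2.2.2.1,
      fun i j => (D.mtab i j).2.2.2.2.2.2.2.2.2.1, fun i j => (D.mtab i j).2.2.2.2.2.2.2.2.2.2,
      map_add, map_smul, map_neg, map_zero, e1, e2, e3, zero_add, add_zero, smul_zero]
  · linear_combination (norm := module) s1 • D.X 0 (i + j + 1 + 1)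
  · linear_combination (norm := module) s21 - s3 • D.X 2 0
  · linear_combination (norm := module) s1 • D.X 2 (i + j + 1 + 1)
  · linear_combination (norm := module) s23
  · linear_combination (norm := module) s21' - s3' • D.X 2 0
  · module
  · linear_combination (norm := module) s23'
  · linear_combination (norm := module) s1 • D.X 2 (i + j + 1 + 1)
  · linear_combination (norm := module) -s23
  · linear_combination (norm := module) s23'

theorem rb (x y : A) : D.R x * D.R y = D.R (D.R x * y + x * D.R y) := by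
  induction D.span_top x using Submodule.span_induction with
  | mem x hx =>
    rcases hx with ⟨t, i, rfl⟩ | hx
    · induction D.span_top y using Submodule.span_induction with
      | mem y hy =>
        rcases hy with ⟨r, j, rfl⟩ | hy
        · exact D.rb_X t r i j
        · rw [D.R_K hy, mul_zero, mul_zero, add_zero, D.R_K (D.K_R hy _).2]
      | zero => simp
      | add y y' _ _ h h' =>
        simp only [map_add, mul_add] at h h' ⊢
        rw [h, h']; abel
      | smul c y _ h =>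
        simp only [map_add, map_smul, mul_smul_comm] at h ⊢
        rw [h, smul_add]
    · rw [D.R_K hx, zero_mul, zero_mul, zero_add, D.R_K (D.K_R hx _).1]
  | zero => simp
  | add x x' _ _ h h' =>
    simp only [map_add, add_mul] at h h' ⊢
    rw [h, h']; abel
  | smul c x _ h =>
    simp only [map_add, map_smul, smul_mul_assoc] at h ⊢
    rw [h, smul_add]

theorem chain1 (i : ℕ) (hi : i ≤ D.s) : ∃ c : F, c ≠ 0 ∧ (D.R ^ i) (D.X 1 0) = c • D.X 1 i := by
  induction i with
  | zero => exact ⟨1, one_ne_zero, by simp⟩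
  | succ i ih =>
    obtain ⟨c, hc, h⟩ := ih (by omega)
    refine ⟨c * ((i : F) - D.s)⁻¹, mul_ne_zero hc (inv_ne_zero
      (sub_ne_zero.2 (Nat.cast_injective.ne (by omega)))), ?_⟩
    rw [pow_succ', Module.End.mul_apply, h, map_smul, R1, if_neg (by omega), mul_smul]
    simp

theorem chain2 (j : ℕ) : ∃ c : F, c ≠ 0 ∧ (D.R ^ (D.s + 1 + j)) (D.X 1 0) = c • D.X 2 j := by
  induction j with
  | zero =>
    obtain ⟨c, hc, h⟩ := D.chain1 D.s le_rfl
    refine ⟨c, hc, ?_⟩
    rw [add_zero, pow_succ', Module.End.mul_apply, h, map_smul, R1]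
    simp
  | succ j ih =>
    obtain ⟨c, hc, h⟩ := ih
    refine ⟨c * ((j : F) + 1)⁻¹, mul_ne_zero hc (inv_ne_zero (Nat.cast_add_one_ne_zero j)), ?_⟩
    rw [← add_assoc, pow_succ', Module.End.mul_apply, h, map_smul, R2, mul_smul]

theorem pow_ne (j : ℕ) (h : D.a ^ j * D.f ≠ 0) : D.R ^ (D.s + 1 + j) ≠ 0 := by
  intro h0
  obtain ⟨c, hc, h1⟩ := D.chain2 j
  rw [h0] at h1
  exact h ((smul_eq_zero.1 h1.symm).resolve_left hc)

end Dat
end Abstract

open ExteriorAlgebra

section Ext
variable {F : Type*} [Field F] [CharZero F] {M : Type*} [AddCommGroup M] [Module F M]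

omit [CharZero F] in
theorem central {a : ExteriorAlgebra F M} (ha : a ∈ ⋀[F]^2 M) (y : ExteriorAlgebra F M) :
    y * a = a * y := by
  induction y using ExteriorAlgebra.induction with
  | algebraMap r => exact Algebra.commutes r a
  | ι m => rw [sgn m 2 a ha]; simp
  | mul x y hx hy => rw [mul_assoc, hy, ← mul_assoc, hx, mul_assoc]
  | add x y hx hy => rw [add_mul, mul_add, hx, hy]

omit [CharZero F] in
theorem ι_mem (v : M) : ι F v ∈ ⋀[F]^1 M := by simp

theorem exists_op (a : ExteriorAlgebra F M) (ha : a ∈ ⋀[F]^2 M) (v w : M) (s j : ℕ)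
    (h1 : a ^ (s + 2) = 0) (h2 : a ^ (s + 1) * ι F v = 0)
    (h3 : a ^ s * (ι F v * ι F w) ∉ Submodule.span F {a ^ (s + 1)}) (h4 : a ^ j * ι F w ≠ 0) :
    ∃ R : Module.End F (ExteriorAlgebra F M), (∀ x y, R x * R y = R (R x * y + x * R y)) ∧
      R ^ (s + 1 + j) ≠ 0 := by
  classical
  obtain ⟨μ, hμ1, hμ2⟩ := Submodule.exists_dual_map_eq_bot_of_notMem h3 inferInstance
  have hμ0 : μ (a ^ (s + 1)) = 0 := by
    have : μ (a ^ (s + 1)) ∈ (Submodule.span F {a ^ (s + 1)}).map μ :=
      Submodule.mem_map_of_mem (Submodule.mem_span_singleton_self _)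
    rwa [hμ2] at this
  let 𝒜 := fun i : ℕ => ⋀[F]^i M
  let L : ExteriorAlgebra F M →ₗ[F] F :=
    (μ (a ^ s * (ι F v * ι F w)))⁻¹ • (μ ∘ₗ GradedAlgebra.proj 𝒜 (2 * s + 2))
  have hL : ∀ {k} {z}, z ∈ 𝒜 k →
      L z = if k = 2 * s + 2 then (μ (a ^ s * (ι F v * ι F w)))⁻¹ * μ z else 0 := by
    intro k z hz
    simp only [L, LinearMap.smul_apply, LinearMap.comp_apply, GradedAlgebra.proj_apply]
    split_ifs with h
    · subst h; rw [DirectSum.decompose_of_mem_same 𝒜 hz]; rfl
    · rw [DirectSum.decompose_of_mem_ne 𝒜 hz h]; simp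
  have hp : ∀ j, a ^ j ∈ 𝒜 (2 * j) := fun j => by
    have := SetLike.pow_mem_graded (A := 𝒜) j ha
    rwa [smul_eq_mul, mul_comm] at this
  have hsw : ∀ (u : M) z, L (z * ι F u) = -L (ι F u * z) := by
    intro u z
    induction z using DirectSum.Decomposition.inductionOn 𝒜 with
    | zero => simp
    | @homogeneous k z =>
      have hz : (z : ExteriorAlgebra F M) ∈ ⋀[F]^k M := z.2
      have e1 := sgn (F := F) u k (z : ExteriorAlgebra F M) hz
      have e2 : (z : ExteriorAlgebra F M) * ι F u ∈ 𝒜 (k + 1) :=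
        SetLike.mul_mem_graded (A := 𝒜) z.2 (ι_mem u)
      rw [e1, map_smul, hL e2]
      split_ifs with h
      · have e3 : (-1 : F) ^ k = -1 := by
          rw [show k = 2 * s + 1 by omega, pow_succ, pow_mul]; simp
        rw [e3]; simp
      · simp
    | add z z' h h' => rw [add_mul, mul_add, map_add, map_add, h, h']; ring
  let D : Dat F (ExteriorAlgebra F M) :=
    { a := a, g := ι F v, f := ι F w, s := s, L := L
      cen := central ha
      gg := ι_sq_zero v
      ff := ι_sq_zero w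
      fg := eq_neg_of_add_eq_zero_left (ι_add_mul_swap w v)
      as1 := h1
      asg := h2
      Lg := hsw v
      Lf := hsw w
      Ls := fun y => by
        induction y using DirectSum.Decomposition.inductionOn 𝒜 with
        | zero => simp
        | @homogeneous k z =>
          rw [hL (SetLike.mul_mem_graded (hp (s + 1)) z.2)]
          split_ifs with h
          · obtain rfl : k = 0 := by omega
            have hz : (z : ExteriorAlgebra F M) ∈ (1 : Submodule F (ExteriorAlgebra F M)) := by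
              simpa [𝒜] using z.2
            obtain ⟨c, hc⟩ := Submodule.mem_one.1 hz
            rw [← hc, Algebra.algebraMap_eq_smul_one, mul_smul_comm, mul_one, map_smul, hμ0]; simp
          · rfl
        | add z z' h h' => rw [mul_add, map_add, h, h', add_zero]
      L1 := fun j => by
        rw [hL (hp j)]
        split_ifs with h
        · rw [show j = s + 1 by omega, hμ0, mul_zero]
        · rfl
      L4 := fun j => by
        rw [hL (SetLike.mul_mem_graded (hp j) (SetLike.mul_mem_graded (ι_mem v) (ι_mem w)))]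
        by_cases h : j = s
        · subst h
          rw [if_pos (by omega), if_pos rfl, inv_mul_cancel₀ hμ1]
        · rw [if_neg (by omega), if_neg h] }
  exact ⟨D.R, D.rb, D.pow_ne j h4⟩

end Ext

section Concrete
variable {F : Type*} [Field F] [CharZero F] {n : ℕ}

variable (F n) in
/-- The standard vectors, indexed by natural numbers. -/
noncomputable def ev (j : ℕ) : Fin n → F := fun i => if (i : ℕ) = j then 1 else 0

variable (F n) in
/-- Products of the first generators. -/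
noncomputable def uu : ℕ → ExteriorAlgebra F (Fin n → F)
  | 0 => 1
  | l + 1 => ι F (ev F n l) * uu l

variable (F n) in
/-- Sums of products of pairs of generators. -/
noncomputable def aa : ℕ → ExteriorAlgebra F (Fin n → F)
  | 0 => 0
  | k + 1 => aa k + ι F (ev F n (2 * k + 1)) * ι F (ev F n (2 * k))

omit [CharZero F] in
theorem uu_contract (j : Fin n) (l : ℕ) (h : l ≤ j) :
    CliffordAlgebra.contractLeft (LinearMap.proj j : Module.Dual F (Fin n → F)) (uu F n l) = 0 := by
  induction l with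
  | zero => exact CliffordAlgebra.contractLeft_one _ _
  | succ l ih =>
    rw [uu, CliffordAlgebra.contractLeft_ι_mul, ih (by omega)]
    simp [ev, show (j : ℕ) ≠ l by omega]

omit [CharZero F] in
theorem uu_ne (l : ℕ) (h : l ≤ n) : uu F n l ≠ 0 := by
  induction l with
  | zero => exact one_ne_zero
  | succ l ih =>
    intro h0
    have := congrArg (CliffordAlgebra.contractLeft
      (LinearMap.proj (⟨l, h⟩ : Fin n) : Module.Dual F (Fin n → F))) h0
    rw [uu, CliffordAlgebra.contractLeft_ι_mul, uu_contract _ _ le_rfl] at this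
    exact ih (by omega) (by simpa [ev] using this)

omit [CharZero F] in
theorem pair_mem (v w : Fin n → F) : ι F v * ι F w ∈ ⋀[F]^2 (Fin n → F) :=
  SetLike.mul_mem_graded (A := fun i : ℕ => ⋀[F]^i (Fin n → F)) (ι_mem v) (ι_mem w)

omit [CharZero F] in
theorem aa_mem (k : ℕ) : aa F n k ∈ ⋀[F]^2 (Fin n → F) := by
  induction k with
  | zero => exact zero_mem _
  | succ k ih => exact add_mem ih (pair_mem _ _)

omit [CharZero F] in
theorem add_pow_sq {a p : ExteriorAlgebra F (Fin n → F)} (hc : p * a = a * p) (hp : p * p = 0)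
    (k : ℕ) : (a + p) ^ (k + 1) = a ^ (k + 1) + ((k + 1 : ℕ) : F) • (a ^ k * p) := by
  induction k with
  | zero => simp
  | succ k ih =>
    rw [pow_succ, ih]
    simp only [add_mul, mul_add, smul_mul_assoc, mul_assoc, hc, hp, mul_zero, smul_zero, pow_succ]
    push_cast
    module

omit [CharZero F] in
theorem pair_sq (v w : Fin n → F) : ι F v * ι F w * (ι F v * ι F w) = 0 := by
  rw [← mul_assoc, ← central (pair_mem v w), ← mul_assoc, ι_sq_zero]; simp

omit [CharZero F] in
theorem aa_pow (k : ℕ) : aa F n k ^ k = ((k.factorial : ℕ) : F) • uu F n (2 * k) ∧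
    aa F n k ^ (k + 1) = 0 := by
  induction k with
  | zero => simp [aa, uu]
  | succ k ih =>
    obtain ⟨h1, h2⟩ := ih
    have hc := central (aa_mem (F := F) (n := n) k)
      (ι F (ev F n (2 * k + 1)) * ι F (ev F n (2 * k)))
    constructor
    · rw [aa, add_pow_sq hc (pair_sq _ _), h2, h1, zero_add, smul_mul_assoc, smul_smul,
        central (pair_mem _ _), Nat.factorial_succ, show 2 * (k + 1) = 2 * k + 1 + 1 by ring, uu, uu,
        mul_assoc]
      push_cast; rfl
    · rw [aa, add_pow_sq hc (pair_sq _ _), pow_succ _ (k + 1), h2]; simp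

theorem aa_top (k : ℕ) (h : 2 * k + 1 ≤ n) : aa F n k ^ k * ι F (ev F n (2 * k)) ≠ 0 := by
  have hc : ι F (ev F n (2 * k)) * aa F n k ^ k = aa F n k ^ k * ι F (ev F n (2 * k)) :=
    (Commute.pow_right (central (aa_mem k) _) k).eq
  rw [← hc, (aa_pow k).1, mul_smul_comm]
  exact smul_ne_zero (Nat.cast_ne_zero.2 (Nat.factorial_ne_zero _)) (uu_ne (2 * k + 1) h)

theorem lower (hn : 1 ≤ n) : ∃ R : Module.End F (ExteriorAlgebra F (Fin n → F)),
    (∀ x y, R x * R y = R (R x * y + x * R y)) ∧ R ^ (max n 2 - 1) ≠ 0 := by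
  rcases eq_or_lt_of_le hn with rfl | hn
  · refine ⟨(algebraMapInv : ExteriorAlgebra F (Fin 1 → F) →ₐ[F] F).toLinearMap.smulRight
      (ι F (ev F 1 0)), fun x y => by simp [algebraMapInv], fun h => ?_⟩
    have := LinearMap.congr_fun h 1
    exact uu_ne (F := F) (n := 1) 1 le_rfl (by simpa [uu] using this)
  obtain ⟨s, hs | hs⟩ : ∃ s, n = 2 * s + 2 ∨ n = 2 * s + 3 := ⟨(n - 2) / 2, by omega⟩
  · have h0 : aa F n s ^ (s + 1) = 0 := (aa_pow s).2
    rw [show max n 2 - 1 = s + 1 + s by omega]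
    refine exists_op (aa F n s) (aa_mem s) (ev F n (2 * s + 1)) (ev F n (2 * s)) s s
      (by rw [pow_succ, h0, zero_mul]) (by rw [h0, zero_mul]) ?_ (aa_top s (by omega))
    rw [h0, Submodule.span_zero_singleton, Submodule.mem_bot, (aa_pow s).1, smul_mul_assoc,
      central (pair_mem _ _), mul_assoc]
    exact smul_ne_zero (Nat.cast_ne_zero.2 (Nat.factorial_ne_zero _))
      (uu_ne (2 * s + 1 + 1) (by omega))
  · rw [show max n 2 - 1 = s + 1 + (s + 1) by omega]
    have ht := aa_top (F := F) (n := n) (s + 1) (by omega)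
    have hc := central (aa_mem (F := F) (n := n) s)
      (ι F (ev F n (2 * s + 1)) * ι F (ev F n (2 * s)))
    have e1 : aa F n (s + 1) ^ (s + 1) = ((s + 1 : ℕ) : F) •
        (aa F n s ^ s * (ι F (ev F n (2 * s + 1)) * ι F (ev F n (2 * s)))) := by
      rw [aa, add_pow_sq hc (pair_sq _ _), (aa_pow s).2, zero_add]
    have e2 : aa F n (s + 1) ^ s * (ι F (ev F n (2 * s + 1)) * ι F (ev F n (2 * s))) =
        aa F n s ^ s * (ι F (ev F n (2 * s + 1)) * ι F (ev F n (2 * s))) := by
      cases s with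
      | zero => simp
      | succ s =>
        rw [aa, add_pow_sq hc (pair_sq _ _), add_mul, smul_mul_assoc, mul_assoc, pair_sq]; simp
    refine exists_op (aa F n (s + 1)) (aa_mem _) (ev F n (2 * s)) (ev F n (2 * (s + 1))) s (s + 1)
      (aa_pow (s + 1)).2 ?_ ?_ ht
    · rw [e1, smul_mul_assoc, mul_assoc, mul_assoc, ι_sq_zero]; simp
    · intro h
      obtain ⟨c, hc'⟩ := Submodule.mem_span_singleton.1 h
      have h1 := congrArg (· * ι F (ev F n (2 * (s + 1)))) hc'
      simp only [smul_mul_assoc, mul_assoc, ι_sq_zero, mul_zero] at h1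
      have hc0 : c = 0 := (smul_eq_zero.1 h1).resolve_right ht
      rw [hc0, zero_smul] at hc'
      apply ht
      have hcm : ι F (ev F n (2 * s + 1)) * aa F n (s + 1) ^ s =
          aa F n (s + 1) ^ s * ι F (ev F n (2 * s + 1)) :=
        (Commute.pow_right (central (aa_mem (s + 1)) _) s).eq
      rw [e1, ← e2, smul_mul_assoc, mul_assoc, mul_assoc, ← mul_assoc, ← hcm, mul_assoc, ← hc']
      simp

end Concrete

end Pool.Agent.H75.RB
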