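import Mathlib
import Pool.Agent.H75.SkewOre

/-! A division ring with an endomorphism whose image centralizes a pair `u s = 2 s u`. -/

set_option autoImplicit false

namespace Pool.Agent.H75.ShiftSkewField

open MvPolynomial nonZeroDivisors

abbrev PP : Type := MvPolynomial ℕ ℚ
abbrev GG : Type := Multiplicative (ℕ →₀ ℤ)

/-- The rational function field in countably many variables. -/
def KK : Type := FractionRing PP

noncomputable instance : Field KK := inferInstanceAs (Field (FractionRing PP))
noncomputable instance : Algebra PP KK := inferInstanceAs (Algebra PP (FractionRing PP))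
instance : IsFractionRing PP KK := inferInstanceAs (IsFractionRing PP (FractionRing PP))

theorem KK_ext {T : Type} [Semiring T] {f g : KK →+* T}
    (h1 : ∀ q : ℚ, f (algebraMap PP KK (C q)) = g (algebraMap PP KK (C q)))
    (h2 : ∀ i, f (algebraMap PP KK (X i)) = g (algebraMap PP KK (X i))) : f = g :=
  IsLocalization.ringHom_ext PP⁰ (MvPolynomial.ringHom_ext h1 h2)

/-- Scaling of the variables. -/
noncomputable def scP (g : ℕ →₀ ℤ) : PP →ₐ[ℚ] PP := aeval fun i => C ((2 : ℚ) ^ g i) * X i

theorem scP_inj (g : ℕ →₀ ℤ) : Function.Injective (scP g) := by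
  have h : (scP (-g)).comp (scP g) = AlgHom.id ℚ PP := by
    ext1 i
    simp only [scP, AlgHom.comp_apply, aeval_X, map_mul, aeval_C, algebraMap_eq, AlgHom.id_apply]
    rw [← mul_assoc, ← map_mul, Finsupp.neg_apply, zpow_neg, mul_inv_cancel₀ (by positivity)]
    simp
  exact Function.LeftInverse.injective (g := scP (-g)) fun x => AlgHom.congr_fun h x

noncomputable def scK (g : ℕ →₀ ℤ) : KK →+* KK :=
  IsFractionRing.lift (g := (algebraMap PP KK).comp (scP g).toRingHom)
    ((IsFractionRing.injective PP KK).comp (scP_inj g))

theorem scK_C (g : ℕ →₀ ℤ) (q : ℚ) : scK g (algebraMap PP KK (C q)) = algebraMap PP KK (C q) := by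
  simp [scK, scP]

theorem scK_X (g : ℕ →₀ ℤ) (i : ℕ) : scK g (algebraMap PP KK (X i)) =
    algebraMap PP KK (C ((2 : ℚ) ^ g i)) * algebraMap PP KK (X i) := by
  simp [scK, scP]

noncomputable instance : MulSemiringAction GG KK where
  smul g x := scK g.toAdd x
  one_smul x := by
    have : scK 0 = RingHom.id KK := KK_ext (fun q => scK_C _ q) (fun i => by simp [scK_X])
    exact RingHom.congr_fun this x
  mul_smul g h x := by
    have : scK (g.toAdd + h.toAdd) = (scK g.toAdd).comp (scK h.toAdd) :=
      KK_ext (fun q => by simp [scK_C]) (fun i => by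
        simp only [scK_X, scK_C, RingHom.comp_apply, map_mul, Finsupp.add_apply,
          zpow_add₀ (two_ne_zero : (2 : ℚ) ≠ 0)]
        ring)
    exact RingHom.congr_fun this x
  smul_zero g := map_zero (scK _)
  smul_add g := map_add (scK _)
  smul_one g := map_one (scK _)
  smul_mul g := map_mul (scK _)

theorem smul_def (g : GG) (x : KK) : g • x = scK g.toAdd x := rfl

noncomputable def shK : KK →+* KK :=
  IsFractionRing.lift (g := (algebraMap PP KK).comp (rename Nat.succ : PP →ₐ[ℚ] PP).toRingHom)
    ((IsFractionRing.injective PP KK).comp (rename_injective _ Nat.succ_injective))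

theorem shK_C (q : ℚ) : shK (algebraMap PP KK (C q)) = algebraMap PP KK (C q) := by
  simp [shK]

theorem shK_X (i : ℕ) : shK (algebraMap PP KK (X i)) = algebraMap PP KK (X (i + 1)) := by
  simp [shK]

noncomputable def shG : GG →* GG :=
  AddMonoidHom.toMultiplicative (Finsupp.mapDomain.addMonoidHom Nat.succ)

theorem shG_toAdd (g : GG) : (shG g).toAdd = Finsupp.mapDomain Nat.succ g.toAdd := rfl

theorem shG_inj : Function.Injective shG := fun _ _ h =>
  Multiplicative.toAdd.injective
    (Finsupp.mapDomain_injective Nat.succ_injective (congrArg Multiplicative.toAdd h))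

theorem sh_smul (g : GG) (x : KK) : shK (g • x) = shG g • shK x := by
  have : shK.comp (scK g.toAdd) = (scK (shG g).toAdd).comp shK :=
    KK_ext (fun q => by simp [scK_C, shK_C]) (fun i => by
      simp only [RingHom.comp_apply, scK_X, shK_X, map_mul, shK_C, shG_toAdd]
      rw [← Nat.succ_eq_add_one, Finsupp.mapDomain_apply Nat.succ_injective])
  exact RingHom.congr_fun this x

abbrev AA : Type := SkewMonoidAlgebra KK GG

open SkewMonoidAlgebra

noncomputable def shA : AA →+* AA :=
  liftNCRingHom (singleOneRingHom.comp shK) ((of KK GG).comp shG) (by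
    intro x y
    change single 1 (shK (y • x)) * single (shG y) 1 = single (shG y) 1 * single 1 (shK x)
    simp [single_mul_single, sh_smul])

theorem shA_single (g : GG) (a : KK) : shA (single g a) = single (shG g) (shK a) := by
  change liftNC _ _ (single g a) = _
  rw [liftNC_single]
  change single 1 (shK a) * single (shG g) 1 = _
  simp [single_mul_single]

theorem shA_coeff (f : AA) (g : GG) : (shA f).coeff (shG g) = shK (f.coeff g) := by
  classical
  induction f using SkewMonoidAlgebra.induction_on with
  | zero => simp
  | single g' a =>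
    rw [shA_single]
    simp only [coeff_single, Finsupp.single_apply, shG_inj.eq_iff]
    split_ifs <;> simp
  | add a b ha hb => simp [ha, hb]

theorem shA_inj : Function.Injective shA := by
  rw [injective_iff_map_eq_zero]
  intro f hf
  ext g
  have := shA_coeff f g
  rw [hf] at this
  simpa using this.symm

/-- The division ring. -/
abbrev HH : Type := OreLocalization AA⁰ AA

noncomputable def nu : AA →+* HH := OreLocalization.numeratorRingHom

theorem nu_inj : Function.Injective nu := Pool.Agent.H75.SkewOre.numerator_inj

theorem sh_ne (s : AA⁰) : nu (shA s) ≠ 0 := by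
  rw [ne_eq, map_eq_zero_iff _ nu_inj, map_eq_zero_iff _ shA_inj]
  exact nonZeroDivisors.coe_ne_zero s

noncomputable def shU : AA⁰ →* HHˣ where
  toFun s := Units.mk0 (nu (shA s)) (sh_ne s)
  map_one' := by ext; simp
  map_mul' a b := by ext; simp

noncomputable def shH : HH →+* HH :=
  OreLocalization.universalHom (nu.comp shA) shU fun _ => rfl

theorem comm_shH (z : AA) (hz : ∀ a, Commute (shA a) z) (h : HH) : Commute (shH h) (nu z) := by
  induction h using OreLocalization.ind with
  | _ r s =>
    rw [shH, OreLocalization.universalHom_apply]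
    apply Commute.mul_left
    · exact Commute.units_inv_left ((hz s).map nu)
    · exact (hz r).map nu

theorem comm_shA (z : AA) (hz : ∀ g a, Commute (single (shG g) (shK a)) z) (f : AA) :
    Commute (shA f) z := by
  induction f using SkewMonoidAlgebra.induction_on with
  | zero => simp
  | single g a => rw [shA_single]; exact hz g a
  | add a b ha hb => rw [map_add]; exact ha.add_left hb

theorem main : ∃ (H : Type) (_ : DivisionRing H) (ψ : H →+* H) (s u : H), CharZero H ∧
    s ≠ 0 ∧ u ≠ 0 ∧ u * s = 2 * (s * u) ∧ (∀ h, Commute (ψ h) s) ∧ ∀ h, Commute (ψ h) u := by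
  have hK : CharZero KK := by
    apply (RingHom.charZero_iff (IsFractionRing.injective PP KK)).1
    infer_instance
  refine ⟨HH, inferInstance, shH, nu (single 1 (algebraMap PP KK (X 0))),
    nu (single (Multiplicative.ofAdd (Finsupp.single 0 1)) 1), ?_, ?_, ?_, ?_, ?_, ?_⟩
  · exact (RingHom.charZero_iff ((nu.comp singleOneRingHom).injective)).1 hK
  · rw [ne_eq, map_eq_zero_iff _ nu_inj, single_eq_zero,
      map_eq_zero_iff _ (IsFractionRing.injective PP KK)]
    exact X_ne_zero 0
  · rw [ne_eq, map_eq_zero_iff _ nu_inj, single_eq_zero]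
    exact one_ne_zero
  · rw [← map_mul, ← map_mul, two_mul, ← map_add, single_mul_single, single_mul_single,
      ← single_add]
    congr 2
    · simp
    · simp only [smul_def, toAdd_ofAdd, scK_X, Finsupp.single_eq_same, zpow_one, one_mul, map_one,
        mul_one]
      rw [← two_mul]
      congr 1
      exact map_ofNat ((algebraMap PP KK).comp C) 2
  · apply comm_shH
    apply comm_shA
    intro g a
    rw [Commute, SemiconjBy, single_mul_single, single_mul_single, mul_one, one_mul, one_smul,
      smul_def, scK_X, shG_toAdd, Finsupp.mapDomain_of_notMem_range _ _ (by simp), mul_comm]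
    simp
  · apply comm_shH
    apply comm_shA
    intro g a
    have : (scK (Finsupp.single 0 1)).comp shK = shK :=
      KK_ext (fun q => by simp [scK_C, shK_C]) (fun i => by simp [scK_X, shK_X])
    rw [Commute, SemiconjBy, single_mul_single, single_mul_single, smul_one, mul_one, one_mul,
      mul_comm]
    congr 1
    exact (RingHom.congr_fun this a).symm

end Pool.Agent.H75.ShiftSkewField
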