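import Mathlib

/-! Normal form of irreducible matrix modules for the equitable basis of `sl2`. -/

set_option autoImplicit false

namespace Pool.Agent.H75.Sl2Eq

open Matrix Module

section chain
variable {K V : Type} [Field K] [AddCommGroup V] [Module K V] [Module.Finite K V]

theorem chain (T : End K V) (c : ℕ → K) (hc : Function.Injective c) (v : ℕ → V)
    (h : ∀ k, T (v k) = c k • v k) : ∃ k, v k = 0 := by
  by_contra! h0
  have := T.eigenvectors_linearIndependent' c hc v fun k =>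
    ⟨End.mem_eigenspace_iff.2 (h k), h0 k⟩
  exact absurd this.finite (not_finite_iff_infinite.2 inferInstance)

/-- A cyclic chain of eigenvectors spanning an irreducible module is a basis. -/
theorem basis_of_chain {d k : ℕ} (hd : finrank K V = d + 1) (T : End K V) (c : ℕ → K)
    (hc : Function.Injective c) (v : ℕ → V) (h : ∀ i, T (v i) = c i • v i)
    (h0 : ∀ i ≤ k, v i ≠ 0) (hs : Submodule.span K (Set.range fun i : Fin (k + 1) => v i) = ⊤) :
    k = d ∧ ∃ b : Basis (Fin (k + 1)) K V, ∀ i, b i = v i := by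
  have li : LinearIndependent K fun i : Fin (k + 1) => v i :=
    T.eigenvectors_linearIndependent' (fun i : Fin (k + 1) => c i) (hc.comp Fin.val_injective) _
      fun i => ⟨End.mem_eigenspace_iff.2 (h i), h0 i (Nat.lt_succ_iff.1 i.2)⟩
  let b := Basis.mk li hs.ge
  have := finrank_eq_card_basis b
  exact ⟨by simp at this; omega, b, fun i => by simp [b]⟩

end chain

variable {K : Type} [Field K] {n : ℕ}

theorem descend (M : Matrix (Fin n) (Fin n) K) (c : K)
    (v : Fin n → AlgebraicClosure K) (hv : v ≠ 0)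
    (h : M.map (algebraMap K _) *ᵥ v = algebraMap K (AlgebraicClosure K) c • v) :
    ∃ w : Fin n → K, w ≠ 0 ∧ M *ᵥ w = c • w := by
  have h1 : ((algebraMap K (AlgebraicClosure K)).mapMatrix (M - c • 1)).det = 0 := by
    rw [← exists_mulVec_eq_zero_iff]
    refine ⟨v, hv, ?_⟩
    have : (algebraMap K (AlgebraicClosure K)).mapMatrix (M - c • 1) =
        M.map (algebraMap K _) - algebraMap K (AlgebraicClosure K) c • 1 := by
      ext i j
      by_cases hij : i = j <;> simp [hij, one_apply, Algebra.algebraMap_eq_smul_one, sub_smul]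
    rw [this, sub_mulVec, h, smul_mulVec, one_mulVec, sub_self]
  rw [← RingHom.map_det, map_eq_zero, ← exists_mulVec_eq_zero_iff] at h1
  obtain ⟨w, hw, h1⟩ := h1
  refine ⟨w, hw, ?_⟩
  rwa [sub_mulVec, smul_mulVec, one_mulVec, sub_eq_zero] at h1

/-- Change of basis as a trace preserving algebra map. -/
noncomputable def cb (b : Basis (Fin n) K (Fin n → K)) :
    Matrix (Fin n) (Fin n) K →ₐ[K] Matrix (Fin n) (Fin n) K :=
  (LinearMap.toMatrixAlgEquiv b).toAlgHom.comp (Matrix.toLinAlgEquiv' (R := K)).toAlgHom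

theorem cb_apply (b : Basis (Fin n) K (Fin n → K)) (M : Matrix (Fin n) (Fin n) K) (i j : Fin n) :
    cb b M i j = b.repr (M *ᵥ b j) i := by
  simp [cb, LinearMap.toMatrixAlgEquiv_apply]

theorem cb_trace (b : Basis (Fin n) K (Fin n → K)) (M : Matrix (Fin n) (Fin n) K) :
    (cb b M).trace = M.trace := by
  have : cb b M = LinearMap.toMatrix b b (toLin' M) := by
    ext i j; simp [cb_apply, LinearMap.toMatrix_apply]
  rw [this, ← LinearMap.trace_eq_matrix_trace, trace_toLin'_eq]

/-- From an eigenvector of `y` to a primitive vector with natural weight. -/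
theorem prim [CharZero K] (y p m : Matrix (Fin n) (Fin n) K) (h1 : y * p = p * y - 2 • p)
    (h2 : y * m = m * y + 2 • m) (h3 : m * p = p * m - 4 • y) (w : Fin n → K) (hw : w ≠ 0) (c : K)
    (h : y *ᵥ w = c • w) : ∃ (k : ℕ) (v : ℕ → Fin n → K), (∀ i ≤ k, v i ≠ 0) ∧ v (k + 1) = 0 ∧
      (∀ i, y *ᵥ v i = ((k : K) - 2 * i) • v i) ∧ (∀ i, p *ᵥ v i = v (i + 1)) ∧ m *ᵥ v 0 = 0 ∧
        ∀ i, m *ᵥ v (i + 1) = (-4 * ((i : K) + 1) * (k - i)) • v i := by
  have up : ∀ i : ℕ, y *ᵥ ((m ^ i) *ᵥ w) = (c + 2 * i) • (m ^ i) *ᵥ w := fun i => by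
    induction i with
    | zero => simpa using h
    | succ i ih =>
      rw [pow_succ', ← mulVec_mulVec, mulVec_mulVec, h2, add_mulVec, ← mulVec_mulVec, ih,
        mulVec_smul, smul_mulVec]
      push_cast
      module
  obtain ⟨j, hj, hj0⟩ := Nat.exists_not_and_succ_of_not_zero_of_exists
    (p := fun i => (m ^ i) *ᵥ w = 0) (by simpa using hw)
    (chain (toLin' y) (fun i => c + 2 * i) (fun a b e => by simpa using e) _ up)
  set u := (m ^ j) *ᵥ w
  set μ := c + 2 * j
  have hu : y *ᵥ u = μ • u := up j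
  have hm : m *ᵥ u = 0 := by rw [mulVec_mulVec, ← pow_succ', hj0]
  have st : ∀ i, p *ᵥ ((p ^ i) *ᵥ u) = (p ^ (i + 1)) *ᵥ u := fun i => by
    rw [mulVec_mulVec, ← pow_succ']
  have dn : ∀ i : ℕ, y *ᵥ ((p ^ i) *ᵥ u) = (μ - 2 * i) • (p ^ i) *ᵥ u := fun i => by
    induction i with
    | zero => simpa using hu
    | succ i ih =>
      rw [← st, mulVec_mulVec, h1, sub_mulVec, ← mulVec_mulVec, ih, mulVec_smul, smul_mulVec]
      push_cast
      module
  have bk : ∀ i : ℕ, m *ᵥ ((p ^ (i + 1)) *ᵥ u) = (-4 * ((i : K) + 1) * (μ - i)) • (p ^ i) *ᵥ u :=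
    fun i => by
    induction i with
    | zero =>
      rw [← st, mulVec_mulVec, h3, sub_mulVec, ← mulVec_mulVec, smul_mulVec, dn]
      simp only [pow_zero, one_mulVec, hm, mulVec_zero]
      push_cast
      module
    | succ i ih =>
      rw [← st, mulVec_mulVec, h3, sub_mulVec, ← mulVec_mulVec, ih, smul_mulVec, dn, mulVec_smul,
        st]
      push_cast
      module
  obtain ⟨k, hk, hk0⟩ := Nat.exists_not_and_succ_of_not_zero_of_exists
    (p := fun i => (p ^ i) *ᵥ u = 0) (by simpa using hj)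
    (chain (toLin' y) (fun i => μ - 2 * i) (fun a b e => by simpa using e) _ dn)
  have e : μ = k := by
    have := bk k
    rw [hk0, mulVec_zero, eq_comm, smul_eq_zero_iff_left hk] at this
    have h4 : (k : K) + 1 ≠ 0 := Nat.cast_add_one_ne_zero k
    simpa [h4, sub_eq_zero] using this
  refine ⟨k, fun i => (p ^ i) *ᵥ u, fun i hi h0 => hk ?_, hk0, e ▸ dn, st, by simpa using hm,
    e ▸ bk⟩
  obtain ⟨t, rfl⟩ := Nat.exists_eq_add_of_le hi
  rw [add_comm, pow_add, ← mulVec_mulVec]
  simp only at h0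
  rw [h0, mulVec_zero]

/-- Normal form of an irreducible module in the equitable basis. -/
theorem normal_form [CharZero K] {d : ℕ} (x y z : Matrix (Fin (d + 1)) (Fin (d + 1)) K)
    (h1 : x * y - y * x = 2 • x + 2 • y) (h2 : y * z - z * y = 2 • y + 2 • z)
    (h3 : z * x - x * z = 2 • z + 2 • x)
    (irr : ∀ W : Submodule K (Fin (d + 1) → K),
      (∀ w ∈ W, x *ᵥ w ∈ W ∧ y *ᵥ w ∈ W ∧ z *ᵥ w ∈ W) → W = ⊥ ∨ W = ⊤) :
    ∃ F : Matrix (Fin (d + 1)) (Fin (d + 1)) K →ₐ[K] Matrix (Fin (d + 1)) (Fin (d + 1)) K,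
      (∀ M, (F M).trace = M.trace) ∧ (∀ i j, F y i j = if i = j then (d : K) - 2 * (j : ℕ) else 0) ∧
        (∀ i j, F (x + y) i j = if (i : ℕ) = j + 1 then 1 else 0) ∧
          ∀ i j, F (y + z) i j =
            if (j : ℕ) = i + 1 then -4 * (((i : ℕ) : K) + 1) * (d - (i : ℕ)) else 0 := by
  have g1 : y * (x + y) = (x + y) * y - 2 • (x + y) := by
    rw [smul_add, ← h1]; noncomm_ring
  have g2 : y * (y + z) = (y + z) * y + 2 • (y + z) := by
    rw [smul_add, ← h2]; noncomm_ring
  have g3 : (y + z) * (x + y) = (x + y) * (y + z) - 4 • y := by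
    have : (y + z) * (x + y) = (x + y) * (y + z) - (x * y - y * x) - (y * z - z * y) +
      (z * x - x * z) := by noncomm_ring
    rw [this, h1, h2, h3]; module
  obtain ⟨w, hw, c, hc⟩ : ∃ w : Fin (d + 1) → K, w ≠ 0 ∧ ∃ c : K, y *ᵥ w = c • w := by
    let f := (algebraMap K (AlgebraicClosure K)).mapMatrix (m := Fin (d + 1))
    obtain ⟨c, hc⟩ := End.exists_eigenvalue (toLin' (f y))
    obtain ⟨w, hw⟩ := hc.exists_hasEigenvector
    obtain ⟨k, v, a1, -, a2, -⟩ := prim (f y) (f (x + y)) (f (y + z))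
      (by simpa only [map_mul, map_sub, map_nsmul] using congrArg f g1)
      (by simpa only [map_mul, map_add f (_ * _), map_nsmul] using congrArg f g2)
      (by simpa only [map_mul, map_sub, map_nsmul] using congrArg f g3) w hw.2 c
      (by simpa using hw.apply_eq_smul)
    obtain ⟨u, hu, e⟩ := descend y k (v 0) (a1 0 k.zero_le) (by simpa [f] using a2 0)
    exact ⟨u, hu, k, e⟩
  obtain ⟨k, v, a1, a0, a2, a3, a4, a5⟩ := prim y (x + y) (y + z) g1 g2 g3 w hw c hc
  set W := Submodule.span K (Set.range fun i : Fin (k + 1) => v i) with hW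
  have mem : ∀ i ≤ k + 1, v i ∈ W := fun i hi => by
    rcases hi.eq_or_lt with rfl | hi
    · rw [a0]; exact W.zero_mem
    · exact Submodule.subset_span ⟨⟨i, hi⟩, rfl⟩
  have inv : ∀ M : Matrix (Fin (d + 1)) (Fin (d + 1)) K, (∀ i ≤ k, M *ᵥ v i ∈ W) →
      ∀ w ∈ W, M *ᵥ w ∈ W := fun M hM w hw => by
    have : W ≤ W.comap (toLin' M) := Submodule.span_le.2 (by
      rintro _ ⟨i, rfl⟩; exact hM i (Nat.lt_succ_iff.1 i.2))
    exact this hw
  have iy := inv y fun i hi => a2 i ▸ W.smul_mem _ (mem i (by omega))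
  have ip := inv (x + y) fun i hi => a3 i ▸ mem _ (by omega)
  have im := inv (y + z) fun i hi => by
    rcases i with _ | i
    · rw [a4]; exact W.zero_mem
    · rw [a5]; exact W.smul_mem _ (mem i (by omega))
  have hs : W = ⊤ := by
    refine (irr W fun w hw => ⟨?_, iy w hw, ?_⟩).resolve_left fun h0 => a1 0 k.zero_le ?_
    · simpa [add_mulVec] using W.sub_mem (ip w hw) (iy w hw)
    · simpa [add_mulVec] using W.sub_mem (im w hw) (iy w hw)
    · simpa [h0] using mem 0 (by omega)
  obtain ⟨rfl, b, hb⟩ := basis_of_chain (d := d) (by simp) (toLin' y) (fun i => (k : K) - 2 * i)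
    (fun a b e => by simpa using e) v a2 a1 hs
  refine ⟨cb b, cb_trace b, fun i j => ?_, fun i j => ?_, fun i j => ?_⟩
  · rw [cb_apply, hb, a2, ← hb]
    by_cases e : i = j <;> simp [e, Finsupp.single_apply, eq_comm]
  · rw [cb_apply, hb, a3]
    by_cases hj : (j : ℕ) = k
    · rw [hj, a0, if_neg (by omega)]; simp
    · rw [← hb ⟨j + 1, by omega⟩]
      simp [Finsupp.single_apply, Fin.ext_iff, eq_comm]
  · rw [cb_apply, hb]
    obtain ⟨_ | j, hj⟩ := j
    · simp [a4]
    · simp only [a5]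
      rw [← hb ⟨j, by omega⟩]
      by_cases e : j = i
      · simp [Finsupp.single_apply, Fin.ext_iff, e]
      · simp [Finsupp.single_apply, Fin.ext_iff, e]

end Pool.Agent.H75.Sl2Eq
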