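import Mathlib

/-! A bound on the derived subgroup of a finite group generated by one conjugacy class, in terms
of the index of any term of the upper central series. -/

set_option autoImplicit false

namespace Pool.Agent.H75.Stem

open Subgroup hiding map_eq_bot_iff
open scoped commutatorElement

theorem top_of {G : Type} [Group G] {r : G} (hr : normalClosure {r} = ⊤) (T : Subgroup G)
    (h1 : commutator G ≤ T) (h2 : r ∈ T) : T = ⊤ := by
  haveI := Subgroup.Normal.of_commutator_le G h1
  rw [eq_top_iff, ← hr]
  exact normalClosure_le_normal (by simpa using h2)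

theorem step1 {G : Type} [Group G] {r : G} (hr : normalClosure {r} = ⊤) :
    ⁅commutator G, (⊤ : Subgroup G)⁆ = commutator G := by
  refine le_antisymm (commutator_mono le_top le_rfl) ?_
  set N := ⁅commutator G, (⊤ : Subgroup G)⁆ with hN
  haveI : N.Normal := by rw [hN]; infer_instance
  have h1 : comap (QuotientGroup.mk' N) (centralizer {(r : G ⧸ N)}) = ⊤ := by
    refine top_of hr _ (fun d hd => ?_) ?_
    · rw [mem_comap, mem_centralizer_singleton_iff, ← commutatorElement_eq_one_iff_mul_comm]
      change (QuotientGroup.mk' N) ⁅d, r⁆ = 1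
      exact (QuotientGroup.eq_one_iff _).2 (commutator_mem_commutator hd (mem_top _))
    · rw [mem_comap, mem_centralizer_singleton_iff]; rfl
  have h2 : comap (QuotientGroup.mk' N) (center (G ⧸ N)) = ⊤ := by
    rw [eq_top_iff, ← hr]
    refine normalClosure_le_normal ?_
    intro s hs
    obtain rfl : r = s := hs.symm
    rw [SetLike.mem_coe, mem_comap, mem_center_iff]
    intro g
    obtain ⟨g, rfl⟩ := QuotientGroup.mk'_surjective N g
    have : g ∈ comap (QuotientGroup.mk' N) (centralizer {(r : G ⧸ N)}) := by rw [h1]; trivial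
    rwa [mem_comap, mem_centralizer_singleton_iff] at this
  rw [_root_.commutator_def, commutator_le]
  intro a _ b _
  have : b ∈ comap (QuotientGroup.mk' N) (center (G ⧸ N)) := by rw [h2]; trivial
  rw [mem_comap, mem_center_iff] at this
  rw [← QuotientGroup.eq_one_iff]
  change (QuotientGroup.mk' N) ⁅a, b⁆ = 1
  rw [map_commutatorElement, commutatorElement_eq_one_iff_mul_comm]
  exact this _

theorem map_comm {G H : Type} [Group G] [Group H] (f : G →* H) (hf : Function.Surjective f) :
    map f (commutator G) = commutator H := by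
  rw [_root_.commutator_def, _root_.commutator_def, map_commutator, map_top_of_surjective f hf]

theorem step2 (m : ℕ) : ∀ (G : Type) [Group G],
    ⁅commutator G, (⊤ : Subgroup G)⁆ = commutator G →
    ⁅Subgroup.upperCentralSeries G m, commutator G⁆ = ⊥ := by
  induction m with
  | zero => intro G _ _; simp
  | succ m ih =>
    intro G _ h
    have hs := QuotientGroup.mk'_surjective (center G)
    have h1 := ih (G ⧸ center G) (by
      rw [← map_comm _ hs, ← map_top_of_surjective _ hs, ← map_commutator, h])
    have h2 : ⁅Subgroup.upperCentralSeries G (m + 1), commutator G⁆ ≤ center G := by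
      rw [← QuotientGroup.ker_mk' (center G), ← Subgroup.map_eq_bot_iff, map_commutator, map_comm _ hs,
        eq_bot_iff, ← h1, ← Subgroup.comap_upperCentralSeries_quotient_center]
      exact commutator_mono (map_comap_le _ _) le_rfl
    rw [commutator_comm, ← h]
    refine commutator_commutator_eq_bot_of_rotate ?_ ?_
    · rw [eq_bot_iff, ← ih G h]
      refine commutator_mono ?_ le_rfl
      rw [commutator_comm, commutator_le]
      exact fun a ha b _ => ha b
    · rw [commutator_top_right_eq_bot_iff_le_center]; exact h2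

theorem step3 {G : Type} [Group G] [Finite G] {r : G} (hr : normalClosure {r} = ⊤)
    (hab : ∀ a ∈ commutator G, ∀ b ∈ commutator G, a * b = b * a) (m : ℕ) :
    ∀ z ∈ Subgroup.upperCentralSeries G m, z ∈ commutator G → z = 1 := by
  have hc : ∀ a g : G, ⁅a, g⁆ ∈ commutator G := fun a g => commutator_mem_commutator (mem_top _) (mem_top _)
  have hn : ∀ a ∈ commutator G, ∀ g, g * a * g⁻¹ ∈ commutator G := fun a ha g =>
    (inferInstance : (commutator G).Normal).conj_mem a ha g
  let T : Subgroup G :=
    { carrier := {t | ∃ a ∈ commutator G, t = ⁅a, r⁆}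
      one_mem' := ⟨1, one_mem _, by simp⟩
      mul_mem' := by
        rintro _ _ ⟨a, ha, rfl⟩ ⟨b, hb, rfl⟩
        refine ⟨a * b, mul_mem ha hb, ?_⟩
        have := hab _ (hn _ (inv_mem ha) r) _ (hc b r)
        calc ⁅a, r⁆ * ⁅b, r⁆ = a * (r * a⁻¹ * r⁻¹ * ⁅b, r⁆) := by
              simp only [commutatorElement_def]; group
          _ = _ := by rw [this]; simp only [commutatorElement_def]; group
      inv_mem' := by
        rintro _ ⟨a, ha, rfl⟩
        refine ⟨a⁻¹, inv_mem ha, ?_⟩
        have := hab _ (hn _ ha r) _ (inv_mem ha)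
        calc ⁅a, r⁆⁻¹ = r * a * r⁻¹ * a⁻¹ := by simp only [commutatorElement_def]; group
          _ = _ := by rw [this]; simp only [commutatorElement_def]; group }
  have hT : T ≤ commutator G := by rintro _ ⟨a, _, rfl⟩; exact hc _ _
  let S : Subgroup G :=
    { carrier := {g | ∀ a ∈ commutator G, ⁅a, g⁆ ∈ T}
      one_mem' := fun a _ => by simp
      mul_mem' := by
        intro g h hg hh a ha
        have : ⁅a, g * h⁆ = ⁅a, g⁆ * (⁅⁅a, h⁆, g⁆⁻¹ * ⁅a, h⁆) := by
          simp only [commutatorElement_def]; group
        rw [this]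
        exact mul_mem (hg a ha) (mul_mem (inv_mem (hg _ (hc _ _))) (hh a ha))
      inv_mem' := by
        intro g hg a ha
        have : ⁅a, g⁻¹⁆ = ⁅g⁻¹ * a * g⁻¹⁻¹, g⁆⁻¹ := by simp only [commutatorElement_def]; group
        rw [this]
        exact inv_mem (hg _ (hn a ha _)) }
  have hS : S = ⊤ := top_of hr S (fun d hd a ha => by
    rw [commutatorElement_eq_one_iff_mul_comm.2 (hab a ha d hd)]; exact one_mem _)
    (fun a ha => ⟨a, ha, rfl⟩)
  have hT2 : commutator G ≤ T := by
    rw [← step1 hr, commutator_le]
    intro a ha g _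
    exact (show g ∈ S by rw [hS]; trivial) a ha
  let ψ : commutator G → commutator G := fun a => ⟨⁅(a : G), r⁆, hc _ _⟩
  have hψ : Function.Injective ψ := Finite.injective_iff_surjective.2 fun t => by
    obtain ⟨a, ha, h⟩ := hT2 t.2
    exact ⟨⟨a, ha⟩, Subtype.ext h.symm⟩
  induction m with
  | zero => intro z hz _; simpa using hz
  | succ m ih =>
    intro z hz hz'
    have h1 := ih _ (hz r) (hc _ _)
    have : ψ ⟨z, hz'⟩ = ψ 1 := Subtype.ext (by simp [ψ, h1])
    exact congrArg Subtype.val (hψ this)

/-- The bound. -/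
def B (N : ℕ) : ℕ := N * (Finset.range (N * N + 1)).sup cardCommutatorBound

theorem bound {G : Type} [Group G] [Finite G] {r : G} (hr : normalClosure {r} = ⊤) (m N : ℕ)
    (hN : (Subgroup.upperCentralSeries G m).index ≤ N) : Nat.card (commutator G) ≤ B N := by
  set D := commutator G with hD
  set W := (Subgroup.upperCentralSeries G m).subgroupOf D with hW
  have hWi : W.index ≤ N :=
    le_trans (Nat.le_of_dvd (Nat.pos_of_ne_zero index_ne_zero_of_finite)
      (relIndex_dvd_index_of_normal _ _)) hN
  have hcen : ∀ w ∈ W, ∀ d : D, w * d = d * w := by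
    intro w hw d
    have := step2 m G (step1 hr)
    rw [eq_bot_iff, commutator_le] at this
    exact Subtype.ext (commutatorElement_eq_one_iff_mul_comm.1 (this _ hw _ d.2))
  have h1 : Nat.card (commutatorSet D) ≤ N * N := by
    let f : (D ⧸ W) × (D ⧸ W) → commutatorSet D := fun p => ⟨⁅p.1.out, p.2.out⁆, _, _, rfl⟩
    have hf : Function.Surjective f := by
      rintro ⟨_, a, b, rfl⟩
      refine ⟨(a, b), Subtype.ext ?_⟩
      obtain ⟨u, hu⟩ := QuotientGroup.mk_out_eq_mul W a
      obtain ⟨v, hv⟩ := QuotientGroup.mk_out_eq_mul W b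
      change ⁅(a : D ⧸ W).out, (b : D ⧸ W).out⁆ = _
      rw [hu, hv]
      have e1 := hcen _ u.2 (b * v)
      have e2 := hcen _ v.2 a⁻¹
      calc ⁅a * u, b * v⁆ = a * (u * (b * v)) * (u : D)⁻¹ * a⁻¹ * (b * v)⁻¹ := by
            simp only [commutatorElement_def]; group
        _ = a * b * (v * a⁻¹) * (b * v)⁻¹ := by rw [e1]; group
        _ = _ := by rw [e2]; simp only [commutatorElement_def]; group
    have := Nat.card_le_card_of_surjective f hf
    rw [Nat.card_prod] at this
    exact this.trans (Nat.mul_le_mul hWi hWi)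
  have h2 : W ≤ commutator D := by
    intro w hw
    let E : Subgroup G := ⁅D, D⁆
    haveI : E.Normal := commutator_normal (_root_.commutator G) (_root_.commutator G)
    have hs := QuotientGroup.mk'_surjective E
    have hr' : normalClosure {(QuotientGroup.mk' E) r} = ⊤ := by
      rw [← Set.image_singleton, ← map_normalClosure _ _ hs, hr, map_top_of_surjective _ hs]
    have := step3 hr' (by
      rw [← map_comm _ hs]
      rintro _ ⟨a, ha, rfl⟩ _ ⟨b, hb, rfl⟩
      rw [← commutatorElement_eq_one_iff_mul_comm, ← map_commutatorElement]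
      exact (QuotientGroup.eq_one_iff _).2 (commutator_mem_commutator ha hb)) m
      (QuotientGroup.mk' E w) (Subgroup.upperCentralSeries.map hs m ⟨_, hw, rfl⟩)
      (by rw [← map_comm _ hs]; exact ⟨_, w.2, rfl⟩)
    have h3 : (w : G) ∈ E := (QuotientGroup.eq_one_iff _).1 this
    have h4 : E = map D.subtype (commutator D) := by
      rw [_root_.commutator_def, map_commutator, ← MonoidHom.range_eq_map, range_subtype]
    rw [h4] at h3
    obtain ⟨w', h5, h6⟩ := h3
    rwa [← Subtype.ext h6]
  rw [← W.index_mul_card]
  refine Nat.mul_le_mul hWi ((card_le_of_le h2).trans ?_)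
  exact (card_commutator_le_of_finite_commutatorSet D).trans
    (Finset.le_sup (f := cardCommutatorBound) (Finset.mem_range.2 (Nat.lt_succ_of_le h1)))

end Pool.Agent.H75.Stem
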