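import Mathlib

/-! Tridiagonal pairs. -/

set_option autoImplicit false

namespace Pool.Agent.H75.TD

variable {K V : Type} [Field K] [AddCommGroup V] [Module K V]

/-- `θ 0, …, θ d` lists the eigenvalues of the diagonalizable map `A` without repetition, and `B`
maps the `i`-th eigenspace of `A` into the sum of the eigenspaces number `i - 1`, `i`, `i + 1`. -/
def Tri (A B : Module.End K V) {d : ℕ} (θ : Fin (d + 1) → K) : Prop :=
  Function.Injective θ ∧ (∀ i, A.eigenspace (θ i) ≠ ⊥) ∧ (⨆ i, A.eigenspace (θ i)) = ⊤ ∧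
    ∀ i, (A.eigenspace (θ i)).map B ≤
      ⨆ (j : Fin (d + 1)) (_ : j.val ≤ i.val + 1 ∧ i.val ≤ j.val + 1), A.eigenspace (θ j)

/-- `A, B` is a tridiagonal pair with the standard orderings `θ`, `η` of the eigenvalues. -/
def IsTD (A B : Module.End K V) {d δ : ℕ} (θ : Fin (d + 1) → K) (η : Fin (δ + 1) → K) : Prop :=
  Tri A B θ ∧ Tri B A η ∧ ∀ W : Submodule K V, W.map A ≤ W → W.map B ≤ W → W = ⊥ ∨ W = ⊤

theorem mem_sup2 {ι : Type} {p : ι → Prop} (f : ι → Submodule K V) (a b : ι) (ha : p a)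
    (hb : p b) {x y : V} (hx : x ∈ f a) (hy : y ∈ f b) :
    x + y ∈ ⨆ (j) (_ : p j), f j :=
  Submodule.add_mem _ (Submodule.mem_iSup_of_mem a (Submodule.mem_iSup_of_mem ha hx))
    (Submodule.mem_iSup_of_mem b (Submodule.mem_iSup_of_mem hb hy))

theorem mem_sup3 {ι : Type} {p : ι → Prop} (f : ι → Submodule K V) (a b c : ι) (ha : p a)
    (hb : p b) (hc : p c) {x y z : V} (hx : x ∈ f a) (hy : y ∈ f b) (hz : z ∈ f c) :
    x + y + z ∈ ⨆ (j) (_ : p j), f j :=
  Submodule.add_mem _ (mem_sup2 f a b ha hb hx hy)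
    (Submodule.mem_iSup_of_mem c (Submodule.mem_iSup_of_mem hc hz))

end Pool.Agent.H75.TD
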