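import Mathlib

/-! Transposed Poisson algebras, free objects, generated subalgebras and ideals. -/

set_option autoImplicit false

namespace Pool.Agent.H75.TP

universe u

/-- The identities of transposed Poisson algebras for a product `m` and a bracket `b`. -/
def TPLaws {L : Type u} [AddCommGroup L] (m b : L → L → L) : Prop :=
  (∀ x y, m x y = m y x) ∧ (∀ x y z, m (m x y) z = m x (m y z)) ∧ (∀ x, b x x = 0) ∧
    (∀ x y z, b (b x y) z + b (b y z) x + b (b z x) y = 0) ∧
    ∀ x y z, m z (b x y) + m z (b x y) = b (m z x) y + b x (m z y)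

/-- A transposed Poisson algebra over `F`. -/
structure TPAlg (F : Type u) [Field F] where
  carrier : Type u
  [grp : AddCommGroup carrier]
  [mod : Module F carrier]
  mul : carrier →ₗ[F] carrier →ₗ[F] carrier
  br : carrier →ₗ[F] carrier →ₗ[F] carrier
  laws : TPLaws (fun x y => mul x y) (fun x y => br x y)

attribute [instance] TPAlg.grp TPAlg.mod

variable {F : Type u} [Field F]

/-- A linear map preserving both products. -/
def IsHom (T L : TPAlg F) (φ : T.carrier →ₗ[F] L.carrier) : Prop :=
  ∀ a b, φ (T.mul a b) = L.mul (φ a) (φ b) ∧ φ (T.br a b) = L.br (φ a) (φ b)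

/-- `T` is the free transposed Poisson algebra on the free generators `x i`. -/
def IsFree (T : TPAlg F) {n : ℕ} (x : Fin n → T.carrier) : Prop :=
  ∀ (L : TPAlg F) (y : Fin n → L.carrier),
    ∃! φ : T.carrier →ₗ[F] L.carrier, IsHom T L φ ∧ ∀ i, φ (x i) = y i

/-- The subalgebra generated by a set. -/
def genSub (T : TPAlg F) (s : Set T.carrier) : Submodule F T.carrier :=
  sInf {S | s ⊆ S ∧ ∀ a ∈ S, ∀ b ∈ S, T.mul a b ∈ S ∧ T.br a b ∈ S}

/-- The ideal generated by an element. -/
def genIdeal (T : TPAlg F) (f : T.carrier) : Submodule F T.carrier :=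
  sInf {I | f ∈ I ∧ ∀ a, ∀ v ∈ I, T.mul a v ∈ I ∧ T.br a v ∈ I}

end Pool.Agent.H75.TP
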