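import Mathlib
import Pool.Agent.H75.TPDefs

/-! The Freiheitssatz fails for transposed Poisson algebras. -/

set_option autoImplicit false

namespace Pool.Agent.H75.TP

universe u

variable {F : Type u} [Field F]

theorem TPAlg.mul_comm (T : TPAlg F) (x y : T.carrier) : T.mul x y = T.mul y x := T.laws.1 x y
theorem TPAlg.mul_assoc (T : TPAlg F) (x y z : T.carrier) :
    T.mul (T.mul x y) z = T.mul x (T.mul y z) := T.laws.2.1 x y z
theorem TPAlg.br_self (T : TPAlg F) (x : T.carrier) : T.br x x = 0 := T.laws.2.2.1 x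
theorem TPAlg.jacobi (T : TPAlg F) (x y z : T.carrier) :
    T.br (T.br x y) z + T.br (T.br y z) x + T.br (T.br z x) y = 0 := T.laws.2.2.2.1 x y z
theorem TPAlg.tp (T : TPAlg F) (x y z : T.carrier) :
    (2 : F) • T.mul z (T.br x y) = T.br (T.mul z x) y + T.br x (T.mul z y) := by
  rw [two_smul]; exact T.laws.2.2.2.2 x y z

/-- Words in two binary operations. -/
inductive Wd (n : ℕ) : Type
  | var : Fin n → Wd n
  | mul : Wd n → Wd n → Wd n
  | br : Wd n → Wd n → Wd n

/-- Value of a word. -/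
def evW {n : ℕ} (L : TPAlg F) (y : Fin n → L.carrier) : Wd n → L.carrier
  | .var i => y i
  | .mul a b => L.mul (evW L y a) (evW L y b)
  | .br a b => L.br (evW L y a) (evW L y b)

/-- Value of a linear combination of words. -/
noncomputable def ev {n : ℕ} (L : TPAlg F) (y : Fin n → L.carrier) : (Wd n →₀ F) →ₗ[F] L.carrier :=
  Finsupp.linearCombination F (evW L y)

/-- Bilinear extension of an operation on words. -/
noncomputable def ext2 {n : ℕ} (op : Wd n → Wd n → Wd n) :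
    (Wd n →₀ F) →ₗ[F] (Wd n →₀ F) →ₗ[F] (Wd n →₀ F) :=
  Finsupp.linearCombination F fun a => Finsupp.lmapDomain F F (op a)

theorem ext2_single {n : ℕ} (op : Wd n → Wd n → Wd n) (a b : Wd n) :
    ext2 op (Finsupp.single a (1 : F)) (Finsupp.single b 1) = Finsupp.single (op a b) 1 := by
  simp [ext2]

theorem ev_ext2 {n : ℕ} (L : TPAlg F) (y : Fin n → L.carrier) (op : Wd n → Wd n → Wd n)
    (B : L.carrier →ₗ[F] L.carrier →ₗ[F] L.carrier)
    (h : ∀ a b, evW L y (op a b) = B (evW L y a) (evW L y b)) (p q : Wd n →₀ F) :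
    ev L y (ext2 op p q) = B (ev L y p) (ev L y q) := by
  have : (ext2 op).compr₂ (ev L y) = B.compl₁₂ (ev L y) (ev L y) := by
    ext a b
    simp [ext2, ev, h]
  exact LinearMap.congr_fun₂ this p q

theorem ev_mul {n : ℕ} (L : TPAlg F) (y : Fin n → L.carrier) (p q : Wd n →₀ F) :
    ev L y (ext2 Wd.mul p q) = L.mul (ev L y p) (ev L y q) := ev_ext2 L y _ _ (fun _ _ => rfl) p q

theorem ev_br {n : ℕ} (L : TPAlg F) (y : Fin n → L.carrier) (p q : Wd n →₀ F) :
    ev L y (ext2 Wd.br p q) = L.br (ev L y p) (ev L y q) := ev_ext2 L y _ _ (fun _ _ => rfl) p q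

variable (F) in
/-- The identities of the variety. -/
def Kid (n : ℕ) : Submodule F (Wd n →₀ F) where
  carrier := {p | ∀ (L : TPAlg F) (y : Fin n → L.carrier), ev L y p = 0}
  zero_mem' := fun L y => map_zero _
  add_mem' := fun {p q} hp hq L y => by rw [map_add, hp, hq, add_zero]
  smul_mem' := fun r p hp L y => by rw [map_smul, hp, smul_zero]

/-- An operation on the quotient. -/
noncomputable def opQ {n : ℕ} (B : (Wd n →₀ F) →ₗ[F] (Wd n →₀ F) →ₗ[F] (Wd n →₀ F))
    (h : ∀ p ∈ Kid F n, ∀ q, B p q ∈ Kid F n ∧ B q p ∈ Kid F n) :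
    ((Wd n →₀ F) ⧸ Kid F n) →ₗ[F] ((Wd n →₀ F) ⧸ Kid F n) →ₗ[F] ((Wd n →₀ F) ⧸ Kid F n) :=
  (Kid F n).liftQ (LinearMap.flip ((Kid F n).liftQ (B.flip.compr₂ (Kid F n).mkQ)
    (fun x hx => by
      refine LinearMap.ext fun y => ?_
      exact (Submodule.Quotient.mk_eq_zero _).2 (h x hx y).2)))
    (fun x hx => by
      refine LinearMap.ext fun y => ?_
      obtain ⟨y, rfl⟩ := (Kid F n).mkQ_surjective y
      exact (Submodule.Quotient.mk_eq_zero _).2 (h x hx y).1)

theorem opQ_mk {n : ℕ} (B : (Wd n →₀ F) →ₗ[F] (Wd n →₀ F) →ₗ[F] (Wd n →₀ F))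
    (h : ∀ p ∈ Kid F n, ∀ q, B p q ∈ Kid F n ∧ B q p ∈ Kid F n) (p q : Wd n →₀ F) :
    opQ B h ((Kid F n).mkQ p) ((Kid F n).mkQ q) = (Kid F n).mkQ (B p q) := rfl

theorem mul_Kid {n : ℕ} : ∀ p ∈ Kid F n, ∀ q, ext2 Wd.mul p q ∈ Kid F n ∧ ext2 Wd.mul q p ∈ Kid F n :=
  fun p hp q => ⟨fun L y => by rw [ev_mul, hp]; simp, fun L y => by rw [ev_mul, hp]; simp⟩

theorem br_Kid {n : ℕ} : ∀ p ∈ Kid F n, ∀ q, ext2 Wd.br p q ∈ Kid F n ∧ ext2 Wd.br q p ∈ Kid F n :=
  fun p hp q => ⟨fun L y => by rw [ev_br, hp]; simp, fun L y => by rw [ev_br, hp]; simp⟩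

theorem mk_eq {n : ℕ} {p q : Wd n →₀ F}
    (h : ∀ (L : TPAlg F) (y : Fin n → L.carrier), ev L y p = ev L y q) :
    (Kid F n).mkQ p = (Kid F n).mkQ q :=
  (Submodule.Quotient.eq _).2 fun L y => by rw [map_sub, h, sub_self]

variable (F) in
/-- The free transposed Poisson algebra. -/
noncomputable def freeTP (n : ℕ) : TPAlg F where
  carrier := (Wd n →₀ F) ⧸ Kid F n
  mul := opQ _ mul_Kid
  br := opQ _ br_Kid
  laws := by
    refine ⟨fun x y => ?_, fun x y z => ?_, fun x => ?_, fun x y z => ?_, fun x y z => ?_⟩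
    · obtain ⟨x, rfl⟩ := (Kid F n).mkQ_surjective x
      obtain ⟨y, rfl⟩ := (Kid F n).mkQ_surjective y
      simp only [opQ_mk]
      exact mk_eq fun L v => by simp only [ev_mul, L.mul_comm (ev L v x)]
    · obtain ⟨x, rfl⟩ := (Kid F n).mkQ_surjective x
      obtain ⟨y, rfl⟩ := (Kid F n).mkQ_surjective y
      obtain ⟨z, rfl⟩ := (Kid F n).mkQ_surjective z
      simp only [opQ_mk]
      exact mk_eq fun L v => by simp only [ev_mul, L.mul_assoc]
    · obtain ⟨x, rfl⟩ := (Kid F n).mkQ_surjective x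
      simp only [opQ_mk]
      rw [← map_zero (Kid F n).mkQ]
      exact mk_eq fun L v => by simp only [ev_br, L.br_self, map_zero]
    · obtain ⟨x, rfl⟩ := (Kid F n).mkQ_surjective x
      obtain ⟨y, rfl⟩ := (Kid F n).mkQ_surjective y
      obtain ⟨z, rfl⟩ := (Kid F n).mkQ_surjective z
      simp only [opQ_mk, ← map_add]
      rw [← map_zero (Kid F n).mkQ]
      exact mk_eq fun L v => by simp only [ev_br, map_add, L.jacobi, map_zero]
    · obtain ⟨x, rfl⟩ := (Kid F n).mkQ_surjective x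
      obtain ⟨y, rfl⟩ := (Kid F n).mkQ_surjective y
      obtain ⟨z, rfl⟩ := (Kid F n).mkQ_surjective z
      simp only [opQ_mk]
      rw [← map_add, ← map_add]
      exact mk_eq fun L v => by simp only [ev_br, ev_mul, map_add, ← L.tp, two_smul]

/-- The free generators. -/
noncomputable def gen (n : ℕ) (i : Fin n) : (freeTP F n).carrier :=
  (Kid F n).mkQ (Finsupp.single (Wd.var i) 1)

theorem isFree (n : ℕ) : IsFree (freeTP F n) (gen n) := by
  intro L y
  have hφ : IsHom (freeTP F n) L ((Kid F n).liftQ (ev L y) fun p hp => hp L y) ∧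
      ∀ i, ((Kid F n).liftQ (ev L y) fun p hp => hp L y) (gen n i) = y i := by
    refine ⟨fun a b => ?_, fun i => ?_⟩
    · obtain ⟨a, rfl⟩ := (Kid F n).mkQ_surjective a
      obtain ⟨b, rfl⟩ := (Kid F n).mkQ_surjective b
      exact ⟨ev_mul L y a b, ev_br L y a b⟩
    · change ev L y (Finsupp.single (Wd.var i) 1) = y i
      simp [ev, evW]
  have key : ∀ ψ : (freeTP F n).carrier →ₗ[F] L.carrier,
      IsHom (freeTP F n) L ψ ∧ (∀ i, ψ (gen n i) = y i) →
      ∀ w : Wd n, ψ ((Kid F n).mkQ (Finsupp.single w 1)) = evW L y w := by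
    rintro ψ ⟨h1, h2⟩ w
    induction w with
    | var i => exact h2 i
    | mul a b ha hb =>
      rw [← ext2_single, evW, ← ha, ← hb]
      exact (h1 ((Kid F n).mkQ (Finsupp.single a 1)) ((Kid F n).mkQ (Finsupp.single b 1))).1
    | br a b ha hb =>
      rw [← ext2_single, evW, ← ha, ← hb]
      exact (h1 ((Kid F n).mkQ (Finsupp.single a 1)) ((Kid F n).mkQ (Finsupp.single b 1))).2
  refine ⟨_, hφ, fun ψ hψ => ?_⟩
  refine Submodule.linearMap_qext _ (Finsupp.lhom_ext' fun w => LinearMap.ext_ring ?_)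
  exact (key ψ hψ w).trans (key _ hφ w).symm

namespace TPAlg
variable (T : TPAlg F)

theorem anti (x y : T.carrier) : T.br x y = -T.br y x := by
  have := T.br_self (x + y)
  simp only [map_add, LinearMap.add_apply, T.br_self] at this
  linear_combination (norm := module) this

theorem leib (x y z : T.carrier) : T.br x (T.br y z) = T.br (T.br x y) z + T.br y (T.br x z) := by
  have := T.jacobi x y z
  rw [T.anti (T.br y z) x, T.anti z x, map_neg, LinearMap.neg_apply, T.anti (T.br x z) y] at this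
  linear_combination (norm := module) -this

theorem id1 (x y z : T.carrier) :
    (2 : F) • (T.mul x (T.br y z) + T.mul y (T.br z x) + T.mul z (T.br x y)) = 0 := by
  have h1 := T.tp x y z
  have h2 := T.tp y z x
  have h3 := T.tp z x y
  rw [T.anti y (T.mul x z), T.mul_comm x z] at h2
  rw [T.anti z (T.mul y x), T.mul_comm y x, T.anti (T.mul y z) x, T.mul_comm y z] at h3
  linear_combination (norm := module) h1 + h2 + h3

theorem id2 (h x y z : T.carrier) :
    T.br (T.mul h (T.br x y)) z + T.br (T.mul h (T.br y z)) x + T.br (T.mul h (T.br z x)) y = 0 := by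
  have a1 := T.tp (T.br x y) z h
  have a2 := T.tp (T.br y z) x h
  have a3 := T.tp (T.br z x) y h
  have j := congrArg (T.mul h) (T.jacobi x y z)
  have b1 := congrArg (fun t => T.br t z) (T.tp x y h)
  have b2 := congrArg (fun t => T.br t x) (T.tp y z h)
  have b3 := congrArg (fun t => T.br t y) (T.tp z x h)
  have j1 := T.jacobi (T.mul h x) y z
  have j2 := T.jacobi (T.mul h y) z x
  have j3 := T.jacobi (T.mul h z) x y
  simp only [map_add, map_smul, LinearMap.add_apply, LinearMap.smul_apply, map_zero] at j b1 b2 b3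
  linear_combination (norm := module) b1 + b2 + b3 + j1 + j2 + j3 + a1 + a2 + a3 - (2 : F) • j

variable [CharZero F]

theorem id4 (h u v w : T.carrier) :
    T.mul (T.br v w) (T.br u h) - T.mul (T.br u w) (T.br v h) + T.mul (T.br u v) (T.br w h) = 0 := by
  have a1 := T.tp u h (T.br v w)
  have a2 := T.tp v h (T.br w u)
  have a3 := T.tp w h (T.br u v)
  have b := T.id2 h u v w
  have c := congrArg (fun t => T.br t h) (T.id1 u v w)
  simp only [map_add, map_smul, LinearMap.add_apply, LinearMap.smul_apply, map_zero,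
    LinearMap.zero_apply] at c
  rw [T.mul_comm (T.br v w) u, T.mul_comm (T.br v w) h, T.anti u (T.mul h _)] at a1
  rw [T.mul_comm (T.br w u) v, T.mul_comm (T.br w u) h, T.anti v (T.mul h _)] at a2
  rw [T.mul_comm (T.br u v) w, T.mul_comm (T.br u v) h, T.anti w (T.mul h _)] at a3
  have e : T.mul (T.br u w) (T.br v h) = -T.mul (T.br w u) (T.br v h) := by
    rw [T.anti u w, map_neg, LinearMap.neg_apply]
  rw [e]
  linear_combination (norm := module) (1 / 2 : F) • (a1 + a2 + a3 - b) + (1 / 4 : F) • c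

theorem expand (y y' a : T.carrier) :
    T.br y (T.br y' (T.mul a a)) =
      (4 : F) • T.mul (T.br y a) (T.br y' a) - (2 : F) • T.br (T.mul y (T.br y' a)) a -
        (3 : F) • T.br (T.mul y' (T.br y a)) a + T.br (T.br (T.mul y y') a) a -
        (2 : F) • T.mul y' (T.br a (T.br y a)) := by
  have h1 := congrArg (T.br y) (T.tp y' a a)
  have h2 := T.tp y a (T.br y' a)
  have h3 := T.leib y (T.mul a y') a
  have h4 := congrArg (fun t => T.br t a) (T.tp y a y')
  have h5 := T.tp a (T.br y a) y'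
  simp only [map_add, map_smul, LinearMap.add_apply, LinearMap.smul_apply] at h1 h4
  rw [T.mul_comm (T.br y' a) a, T.mul_comm (T.br y' a) y, T.mul_comm (T.br y' a)] at h2
  rw [T.mul_comm y' a, T.mul_comm y' y] at h4
  rw [T.mul_comm y' a, T.anti a (T.mul y' _)] at h5
  linear_combination (norm := module) -h1 - (2 : F) • h2 - h3 + h4 + h5

/-- The standard polynomial of degree four in the operators `ad x_i`. -/
def st4 (x1 x2 x3 x4 z : T.carrier) : T.carrier :=
  T.br (T.br x1 x2) (T.br (T.br x3 x4) z) - T.br (T.br x1 x3) (T.br (T.br x2 x4) z) +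
    T.br (T.br x1 x4) (T.br (T.br x2 x3) z) + T.br (T.br x2 x3) (T.br (T.br x1 x4) z) -
    T.br (T.br x2 x4) (T.br (T.br x1 x3) z) + T.br (T.br x3 x4) (T.br (T.br x1 x2) z)

theorem st4_sq (x1 x2 x3 x4 a : T.carrier) : T.st4 x1 x2 x3 x4 (T.mul a a) = 0 := by
  have hb : ∀ u v, T.br (T.br u v) a = T.br u (T.br v a) - T.br v (T.br u a) := fun u v => by
    linear_combination (norm := module) -T.leib u v a
  have P0 : T.mul (T.br x1 x2) (T.br x3 x4) - T.mul (T.br x1 x3) (T.br x2 x4) +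
      T.mul (T.br x1 x4) (T.br x2 x3) + T.mul (T.br x2 x3) (T.br x1 x4) -
      T.mul (T.br x2 x4) (T.br x1 x3) + T.mul (T.br x3 x4) (T.br x1 x2) = 0 := by
    have := T.id4 x4 x1 x2 x3
    rw [T.mul_comm (T.br x1 x4), T.mul_comm (T.br x2 x4), T.mul_comm (T.br x3 x4)]
    linear_combination (norm := module) (2 : F) • this
  have G : ∀ g : T.carrier →ₗ[F] T.carrier,
      T.mul (T.br x1 x2) (T.br x3 (g x4) - T.br x4 (g x3)) -
      T.mul (T.br x1 x3) (T.br x2 (g x4) - T.br x4 (g x2)) +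
      T.mul (T.br x1 x4) (T.br x2 (g x3) - T.br x3 (g x2)) +
      T.mul (T.br x2 x3) (T.br x1 (g x4) - T.br x4 (g x1)) -
      T.mul (T.br x2 x4) (T.br x1 (g x3) - T.br x3 (g x1)) +
      T.mul (T.br x3 x4) (T.br x1 (g x2) - T.br x2 (g x1)) = 0 := by
    intro g
    have e4 := T.id4 (g x4) x1 x2 x3
    have e3 := T.id4 (g x3) x1 x2 x4
    have e2 := T.id4 (g x2) x1 x3 x4
    have e1 := T.id4 (g x1) x2 x3 x4
    simp only [map_sub]
    linear_combination (norm := module) e4 - e3 + e2 - e1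
  have P1 := G (T.br.flip a)
  simp only [LinearMap.flip_apply, ← hb] at P1
  have P4 : T.mul (T.br x1 x2) (T.br (T.br x3 a) (T.br x4 a)) -
      T.mul (T.br x1 x3) (T.br (T.br x2 a) (T.br x4 a)) +
      T.mul (T.br x1 x4) (T.br (T.br x2 a) (T.br x3 a)) +
      T.mul (T.br x2 x3) (T.br (T.br x1 a) (T.br x4 a)) -
      T.mul (T.br x2 x4) (T.br (T.br x1 a) (T.br x3 a)) +
      T.mul (T.br x3 x4) (T.br (T.br x1 a) (T.br x2 a)) = 0 := by
    have t : ∀ y c d, (2 : F) • T.mul y (T.br c d) = T.br (T.mul y c) d - T.br (T.mul y d) c :=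
      fun y c d => by rw [T.tp, T.anti c, sub_eq_add_neg]
    have e4 := congrArg (fun t => T.br t (T.br x4 a)) (T.id4 a x1 x2 x3)
    have e3 := congrArg (fun t => T.br t (T.br x3 a)) (T.id4 a x1 x2 x4)
    have e2 := congrArg (fun t => T.br t (T.br x2 a)) (T.id4 a x1 x3 x4)
    have e1 := congrArg (fun t => T.br t (T.br x1 a)) (T.id4 a x2 x3 x4)
    simp only [map_add, map_sub, LinearMap.add_apply, LinearMap.sub_apply, map_zero,
      LinearMap.zero_apply] at e1 e2 e3 e4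
    linear_combination (norm := module) (1 / 2 : F) • (e4 - e3 + e2 - e1 +
      t (T.br x1 x2) (T.br x3 a) (T.br x4 a) - t (T.br x1 x3) (T.br x2 a) (T.br x4 a) +
      t (T.br x1 x4) (T.br x2 a) (T.br x3 a) + t (T.br x2 x3) (T.br x1 a) (T.br x4 a) -
      t (T.br x2 x4) (T.br x1 a) (T.br x3 a) + t (T.br x3 x4) (T.br x1 a) (T.br x2 a))
  have P3 := G (T.br a ∘ₗ T.br.flip a)
  have hd : ∀ u v, T.br u (T.br a (T.br v a)) - T.br v (T.br a (T.br u a)) =
      T.br a (T.br (T.br u v) a) + (2 : F) • T.br (T.br u a) (T.br v a) := fun u v => by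
    have h1 := T.leib u a (T.br v a)
    have h2 := T.leib v a (T.br u a)
    rw [T.anti (T.br v a) (T.br u a)] at h2
    rw [hb, map_sub]
    linear_combination (norm := module) h1 - h2
  simp only [LinearMap.comp_apply, LinearMap.flip_apply, hd, map_add, map_smul] at P3
  have q : ∀ i k j l, T.mul (T.br i (T.br j a)) (T.br k (T.br l a)) -
      T.mul (T.br k (T.br j a)) (T.br i (T.br l a)) =
      -T.mul (T.br i k) (T.br (T.br l a) (T.br j a)) := fun i k j l => by
    have := T.id4 (T.br j a) i k (T.br l a)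
    rw [T.mul_comm (T.br k (T.br l a)), T.mul_comm (T.br i (T.br l a))] at this
    linear_combination (norm := module) this
  have P2 : T.mul (T.br (T.br x1 x2) a) (T.br (T.br x3 x4) a) -
      T.mul (T.br (T.br x1 x3) a) (T.br (T.br x2 x4) a) +
      T.mul (T.br (T.br x1 x4) a) (T.br (T.br x2 x3) a) = 0 := by
    have q1 := q x1 x3 x2 x4
    have q2 := q x1 x4 x2 x3
    have q3 := q x2 x3 x1 x4
    have q4 := q x2 x4 x1 x3
    have q5 := q x1 x2 x3 x4
    have q6 := q x3 x4 x1 x2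
    rw [T.anti (T.br x4 a) (T.br x2 a)] at q1
    rw [T.anti (T.br x3 a) (T.br x2 a)] at q2
    rw [T.anti (T.br x4 a) (T.br x1 a)] at q3
    rw [T.anti (T.br x3 a) (T.br x1 a)] at q4
    rw [T.anti (T.br x4 a) (T.br x3 a)] at q5
    rw [T.anti (T.br x2 a) (T.br x1 a)] at q6
    rw [T.mul_comm (T.br x3 (T.br x2 a))] at q1
    rw [T.mul_comm (T.br x4 (T.br x2 a))] at q2
    rw [T.mul_comm (T.br x2 (T.br x3 a))] at q5
    simp only [hb, map_sub, LinearMap.sub_apply, map_neg] at q1 q2 q3 q4 q5 q6 ⊢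
    linear_combination (norm := module) q1 - q2 - q3 + q4 - q5 - q6 - P4
  have R1 := congrArg (fun t => T.br t a) P1
  have R0 := congrArg (fun t => T.br (T.br t a) a) P0
  simp only [map_add, map_sub, LinearMap.add_apply, LinearMap.sub_apply, map_zero,
    LinearMap.zero_apply] at R0 R1
  simp only [st4, expand]
  rw [T.mul_comm (T.br (T.br x2 x3) a), T.mul_comm (T.br (T.br x2 x4) a),
    T.mul_comm (T.br (T.br x3 x4) a)]
  linear_combination (norm := module) (8 : F) • P2 - (5 : F) • R1 + R0 - (2 : F) • P3 +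
    (4 : F) • P4

omit [CharZero F] in
theorem st4_sub (x1 x2 x3 x4 y z : T.carrier) :
    T.st4 x1 x2 x3 x4 (y - z) = T.st4 x1 x2 x3 x4 y - T.st4 x1 x2 x3 x4 z := by
  simp only [st4, map_sub]; abel

end TPAlg

theorem IsHom.st4 {T L : TPAlg F} {φ : T.carrier →ₗ[F] L.carrier} (h : IsHom T L φ)
    (x1 x2 x3 x4 z : T.carrier) :
    φ (T.st4 x1 x2 x3 x4 z) = L.st4 (φ x1) (φ x2) (φ x3) (φ x4) (φ z) := by
  simp only [TPAlg.st4, map_add, map_sub, fun a b => (h a b).2]

variable (F) in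
/-- Matrices with the commutator and zero product. -/
noncomputable def matTP : TPAlg F where
  carrier := Matrix (Fin 3) (Fin 3) F
  mul := 0
  br := LinearMap.mul F _ - (LinearMap.mul F _).flip
  laws := by
    refine ⟨fun _ _ => rfl, fun _ _ _ => rfl, fun x => sub_self (x * x), fun x y z => ?_,
      fun x y z => by simp⟩
    change ((x * y - y * x) * z - z * (x * y - y * x)) + ((y * z - z * y) * x - x * (y * z - z * y)) +
      ((z * x - x * z) * y - y * (z * x - x * z)) = 0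
    noncomm_ring

variable (F) in
/-- The field with zero bracket. -/
noncomputable def lineTP : TPAlg F where
  carrier := F
  mul := LinearMap.mul F F
  br := 0
  laws := ⟨mul_comm, mul_assoc, fun _ => rfl, fun _ _ _ => by simp, fun _ _ _ => by simp⟩

theorem main_aux [CharZero F] (T : TPAlg F) (x : Fin 6 → T.carrier) (hx : IsFree T x) :
    ∃ f g : T.carrier, f ∉ genSub T (Set.range fun i : Fin 5 => x i.castSucc) ∧
      g ∈ genIdeal T f ∧ g ∈ genSub T (Set.range fun i : Fin 5 => x i.castSucc) ∧ g ≠ 0 := by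
  refine ⟨x 0 - T.mul (x 5) (x 5), T.st4 (x 1) (x 2) (x 3) (x 4) (x 0), ?_, ?_, ?_, ?_⟩
  · intro hf
    obtain ⟨φ, ⟨h1, h2⟩, -⟩ := hx (lineTP F) (![0, 0, 0, 0, 0, 1] : Fin 6 → F)
    have := Submodule.mem_sInf.1 hf (LinearMap.ker φ) ⟨?_, ?_⟩
    · rw [LinearMap.mem_ker, map_sub, (h1 _ _).1, h2, h2] at this
      change (0 : F) - 1 * 1 = 0 at this
      simp at this
    · rintro _ ⟨i, rfl⟩
      change φ _ = 0
      rw [h2]
      fin_cases i <;> rfl
    · intro a ha b hb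
      rw [LinearMap.mem_ker] at ha
      simp only [LinearMap.mem_ker, (h1 _ _).1, (h1 _ _).2, ha, map_zero, LinearMap.zero_apply,
        and_self]
  · have : T.st4 (x 1) (x 2) (x 3) (x 4) (x 0) =
        T.st4 (x 1) (x 2) (x 3) (x 4) (x 0 - T.mul (x 5) (x 5)) := by
      rw [T.st4_sub, T.st4_sq, sub_zero]
    rw [this]
    refine Submodule.mem_sInf.2 fun I ⟨hf, hI⟩ => ?_
    have h : ∀ a b, T.br a (T.br b (x 0 - T.mul (x 5) (x 5))) ∈ I :=
      fun a b => (hI _ _ (hI _ _ hf).2).2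
    exact add_mem (sub_mem (add_mem (add_mem (sub_mem (h _ _) (h _ _)) (h _ _)) (h _ _)) (h _ _))
      (h _ _)
  · refine Submodule.mem_sInf.2 fun S ⟨hs, hS⟩ => ?_
    have h0 : x 0 ∈ S := hs ⟨0, rfl⟩
    have h1 : x 1 ∈ S := hs ⟨1, rfl⟩
    have h2 : x 2 ∈ S := hs ⟨2, rfl⟩
    have h3 : x 3 ∈ S := hs ⟨3, rfl⟩
    have h4 : x 4 ∈ S := hs ⟨4, rfl⟩
    have h : ∀ {a b c d}, a ∈ S → b ∈ S → c ∈ S → d ∈ S →
        T.br (T.br a b) (T.br (T.br c d) (x 0)) ∈ S :=
      fun ha hb hc hd => (hS _ (hS _ ha _ hb).2 _ (hS _ (hS _ hc _ hd).2 _ h0).2).2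
    exact add_mem (sub_mem (add_mem (add_mem (sub_mem (h h1 h2 h3 h4) (h h1 h3 h2 h4))
      (h h1 h4 h2 h3)) (h h2 h3 h1 h4)) (h h2 h4 h1 h3)) (h h3 h4 h1 h2)
  · intro hg
    obtain ⟨φ, ⟨h1, h2⟩, -⟩ := hx (matTP F)
      (![!![0, 0, 0; 0, 1, 0; 0, 0, 0], !![1, 0, 0; 0, 0, 0; 0, 0, 0], !![0, 1, 0; 0, 0, 0; 0, 0, 0],
        !![0, 0, 1; 0, 0, 0; 0, 0, 0], !![0, 0, 0; 1, 0, 0; 0, 0, 0], 0] :
          Fin 6 → Matrix (Fin 3) (Fin 3) F)
    have h := h1.st4 (x 1) (x 2) (x 3) (x 4) (x 0)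
    rw [hg, map_zero, h2, h2, h2, h2, h2] at h
    have hb : ∀ a b c d z : Matrix (Fin 3) (Fin 3) F, (matTP F).st4 a b c d z =
        (⁅⁅a, b⁆, ⁅⁅c, d⁆, z⁆⁆ - ⁅⁅a, c⁆, ⁅⁅b, d⁆, z⁆⁆ + ⁅⁅a, d⁆, ⁅⁅b, c⁆, z⁆⁆ +
          ⁅⁅b, c⁆, ⁅⁅a, d⁆, z⁆⁆ - ⁅⁅b, d⁆, ⁅⁅a, c⁆, z⁆⁆ + ⁅⁅c, d⁆, ⁅⁅a, b⁆, z⁆⁆ :
          Matrix (Fin 3) (Fin 3) F) := fun _ _ _ _ _ => rfl
    rw [hb] at h
    have h' := congrFun (congrFun h 0) 2
    change (0 : F) = _ at h'
    simp [Ring.lie_def, Matrix.mul_apply, Fin.sum_univ_three] at h'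
    norm_num at h'

end Pool.Agent.H75.TP
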