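import Pool.Agent.H75.UC1

set_option linter.unusedSectionVars false
set_option linter.deprecated false

namespace Pool.Agent.H75.UC
open Filter Topology Pool.Agent.H86.Roe Pool.Agent.H99.GVN
open scoped InnerProductSpace ComplexOrder

noncomputable def chi (g : S) : ℂ := (-1) ^ g.q

theorem chi_mul (g h : S) : chi (g * h) = chi g * chi h := by
  have : (g * h).q = g.q + h.q + 2 * (2 * g.x * h.q + 2 * g.q * h.y) := by rw [mq]; ring
  simp [chi, this, zpow_add₀, zpow_mul]

theorem chi_sq (g : S) : chi g * chi g = 1 := by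
  rw [chi, ← mul_zpow]; simp

theorem chi_one : chi 1 = 1 := by simp [chi]

theorem chi_inv (g : S) : chi g⁻¹ = chi g := by
  have := chi_mul g⁻¹ g
  rw [inv_mul_cancel, chi_one] at this
  linear_combination (-chi g) * this - chi g⁻¹ * chi_sq g

theorem chi_norm (g : S) : ‖chi g‖ = 1 := by simp [chi]

theorem chi_star (g : S) : star (chi g) = chi g := by simp [chi]

noncomputable def W : H S →L[ℂ] H S := D chi

theorem W_apply (ξ : H S) (x : S) : W ξ x = chi x * ξ x :=
  D_apply zero_le_one (fun x => (chi_norm x).le) ξ x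

theorem W_star : star W = W := by
  refine ext_ent fun x y => ?_
  rw [ContinuousLinearMap.star_eq_adjoint, adj_ent, W_apply, W_apply, δ_apply, δ_apply]
  by_cases h : x = y
  · subst h; simp [chi_star]
  · simp [h, Ne.symm h]

theorem W_W : W * W = 1 := ext_pt fun ξ x => by
  simp [W_apply, ← mul_assoc, chi_sq]

theorem W_δ : W (δ 1) = δ 1 := lp.ext (funext fun x => by
  rw [W_apply, δ_apply]
  split_ifs with h <;> simp [h, chi_one])

theorem R_W (g : S) : R g * W = chi g • (W * R g) := ext_pt fun ξ x => by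
  simp [W_apply, H99.GVN.R_apply, chi_mul]; ring

theorem W_mem {x : H S →L[ℂ] H S} (hx : x ∈ M S) : W * x * W ∈ M S := mem_M.2 fun g => by
  rw [← mul_assoc, ← mul_assoc, R_W, smul_mul_assoc, smul_mul_assoc, mul_assoc W, mem_M.1 hx,
    mul_assoc, mul_assoc, R_W, mul_smul_comm, mul_smul_comm, smul_smul, chi_sq, one_smul]
  simp only [mul_assoc]

theorem W_L (g : S) : W * L g * W = chi g • L g := ext_pt fun ξ x => by
  simp only [ContinuousLinearMap.mul_apply, W_apply, H99.GVN.L_apply, chi_mul, chi_inv,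
    ContinuousLinearMap.smul_apply, lp.coeFn_smul, Pi.smul_apply, smul_eq_mul]
  linear_combination (chi g * ξ (g⁻¹ * x)) * chi_sq x

theorem W_inner (u v : H S) : ⟪u, W v⟫_ℂ = ⟪W u, v⟫_ℂ := by
  rw [← ContinuousLinearMap.adjoint_inner_left, ← ContinuousLinearMap.star_eq_adjoint, W_star]

theorem tau_W (x : H S →L[ℂ] H S) : tau (W * x * W) = tau x := by
  simp only [tau, ContinuousLinearMap.mul_apply, W_δ, W_inner]

theorem hat_conj {u : H S →L[ℂ] H S} (hu : u ∈ M S) (g x : S) :
    hat (L g * u * L g⁻¹) x = hat u (g⁻¹ * x * g) := by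
  rw [mul_assoc, hat_L_mul, hat_mul_L hu, inv_inv]

theorem two : II1 (M S) tau := by
  refine ⟨tr_tau, fun z hz h => ⟨hat z 1, ext_hat hz (smul_mem (one_mem _) _) fun g => ?_⟩,
    fun h => ?_⟩
  · have h1 := gap (hat z) (fun g => hat (L g * z * L g⁻¹)) (hat_conj hz) (fun _ => 1) (by simp)
      le_rfl fun g _ => by
        rw [← h _ (L_mem g), mul_assoc, ← H99.GVN.L_mul, mul_inv_cancel, L_one, mul_one, one_smul, sub_self,
          norm_zero]
    have h2 : Ind (fun g => g ≠ 1) (hat z) g = 0 := by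
      rw [norm_le_zero_iff.1 (h1.trans_eq (mul_zero _))]; rfl
    rw [Ind_apply] at h2
    by_cases hg : g = 1
    · simp [hg, hat, δ_apply]
    · rw [if_pos hg] at h2
      rw [h2]
      simp [hg, hat, δ_apply]
  · let f : (M S).toStarSubalgebra →ₗ[ℂ] H S :=
      { toFun := fun x => hat x.1, map_add' := fun _ _ => rfl, map_smul' := fun _ _ => rfl }
    have h1 : LinearIndependent ℂ (fun g : S => (⟨L g, L_mem g⟩ : (M S).toStarSubalgebra)) := by
      refine LinearIndependent.of_comp f (Orthonormal.linearIndependent ?_)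
      classical
      rw [orthonormal_iff_ite]
      intro i j
      change ⟪hat (L i), hat (L j)⟫_ℂ = _
      rw [hat_L, hat_L, inner_δ, δ_apply]
    exact not_finite_iff_infinite.2 inferInstance h1.finite

theorem eqv_refl (U : Ultrafilter ℕ) {x y : ℕ → H S →L[ℂ] H S} (h : ∀ n, x n = y n) :
    Eqv tau U x y := by
  simp [Eqv, h, tau]

theorem eqv_hat {U : Ultrafilter ℕ} {x y : ℕ → H S →L[ℂ] H S} (h : Eqv tau U x y) :
    Tendsto (fun n => ‖hat (x n - y n)‖) U (𝓝 0) := by
  have := (Real.continuous_sqrt.tendsto _).comp ((Complex.continuous_re.tendsto _).comp h)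
  simp only [Function.comp_def, tau_ss, Complex.ofReal_re, Complex.zero_re, Real.sqrt_zero,
    Real.sqrt_sq (norm_nonneg _)] at this
  exact this

theorem nonconj (U : Ultrafilter ℕ) (u : ℕ → H S →L[ℂ] H S) (hu : Seq (M S) u)
    (h1 : Eqv tau U (star u * u) 1)
    (h2 : ∀ x ∈ M S, Eqv tau U (u * (fun _ => x) * star u) fun _ => W * x * W) : False := by
  obtain ⟨hu, C, hC⟩ := hu
  have e1 := eqv_hat h1
  have key : ∀ g, Tendsto (fun n => ‖hat (L g * u n * L g⁻¹) - chi g • hat (u n)‖) U (𝓝 0) := by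
    intro g
    have e2 := eqv_hat (h2 _ (L_mem g))
    have e3 := (e2.const_mul C).add (e1.const_mul C)
    simp only [mul_zero, add_zero] at e3
    refine squeeze_zero (fun _ => norm_nonneg _) (fun n => ?_) e3
    simp only [Pi.mul_apply, Pi.star_apply, Pi.one_apply, W_L]
    set A := u n * L g * star (u n) - chi g • L g with hA
    set B := star (u n) * u n - 1 with hB
    have hAM : A ∈ M S := sub_mem (mul_mem (mul_mem (hu n) (L_mem g)) (star_mem (hu n)))
      (smul_mem (L_mem g) _)
    have hBM : B ∈ M S := sub_mem (mul_mem (star_mem (hu n)) (hu n)) (one_mem _)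
    have hY : A * u n - u n * (L g * B) ∈ M S :=
      sub_mem (mul_mem hAM (hu n)) (mul_mem (hu n) (mul_mem (L_mem g) hBM))
    have hLL : L g * L g⁻¹ = 1 := by rw [← H99.GVN.L_mul, mul_inv_cancel, L_one]
    have e4 : L g * u n * L g⁻¹ - chi g • u n = (-chi g) • ((A * u n - u n * (L g * B)) * L g⁻¹) := by
      have : A * u n - u n * (L g * B) = u n * L g - chi g • (L g * u n) := by
        simp only [hA, hB, sub_mul, mul_sub, mul_assoc, smul_mul_assoc, mul_one]; abel
      rw [this, sub_mul, mul_assoc (u n), hLL, mul_one, smul_mul_assoc, smul_sub, smul_smul,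
        neg_mul, chi_sq]
      module
    change ‖hat (L g * u n * L g⁻¹ - chi g • u n)‖ ≤ _
    rw [e4]
    change ‖(-chi g) • hat ((A * u n - u n * (L g * B)) * L g⁻¹)‖ ≤ _
    rw [norm_smul, norm_neg, chi_norm, one_mul]
    refine (hat_r hY (L_mem _)).trans ((mul_le_of_le_one_left (norm_nonneg _) (L_le _)).trans ?_)
    refine (norm_sub_le (hat (A * u n)) (hat (u n * (L g * B)))).trans (add_le_add ?_ ?_)
    · exact (hat_r hAM (hu n)).trans (mul_le_mul_of_nonneg_right (hC n) (norm_nonneg _))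
    · refine (hat_l _ _).trans (mul_le_mul (hC n) ((hat_l _ _).trans
        (mul_le_of_le_one_left (norm_nonneg _) (L_le _))) (norm_nonneg _)
        ((norm_nonneg _).trans (hC n)))
  have h10 : (0 : ℝ) < 1 / 10 := by norm_num
  obtain ⟨n, a1, a2, a3, a4, a5⟩ := (((key (ua 1)).eventually (ge_mem_nhds h10)).and
    (((key (ua (-1))).eventually (ge_mem_nhds h10)).and
    (((key (ub 1)).eventually (ge_mem_nhds h10)).and
    (((key (ub (-1))).eventually (ge_mem_nhds h10)).and (e1.eventually (ge_mem_nhds h10)))))).exists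
  have b1 := gap (hat (u n)) (fun g => hat (L g * u n * L g⁻¹)) (hat_conj (hu n)) chi chi_norm
    h10.le (by simpa using ⟨by simpa using a1, by simpa using a2, by simpa using a3,
      by simpa using a4⟩)
  have b2 := (lp.norm_apply_le_norm (by simp) _ (1 : S)).trans a1
  have b3 : (hat (L (ua 1) * u n * L (ua 1)⁻¹) - chi (ua 1) • hat (u n) : H S) 1 =
      2 * hat (u n) 1 := by
    simp only [lp.coeFn_sub, lp.coeFn_smul, Pi.sub_apply, Pi.smul_apply, hat_conj (hu n), chi, ua]
    simp; ring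
  rw [b3, norm_mul] at b2
  have b4 : hat (u n) = Ind (fun g => g ≠ 1) (hat (u n)) + hat (u n) 1 • δ 1 :=
    lp.ext (funext fun x => by
      simp only [lp.coeFn_add, lp.coeFn_smul, Pi.add_apply, Pi.smul_apply, Ind_apply, δ_apply]
      by_cases h : x = 1 <;> simp [h])
  have b5 : ‖hat (u n)‖ ≤ 3 / 4 := by
    rw [b4]
    refine (norm_add_le _ _).trans ?_
    rw [norm_smul, norm_δ]
    simp only [Complex.norm_ofNat] at b2
    linarith
  have b6 := (lp.norm_apply_le_norm (by simp) _ (1 : S)).trans a5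
  have b7 : hat (star (u n) * u n - 1) 1 = ((‖hat (u n)‖ ^ 2 - 1 : ℝ) : ℂ) := by
    rw [← inner_δ, Complex.ofReal_sub, ← tau_ss]
    simp [hat, tau, inner_sub_right, norm_δ]
  simp only [Pi.mul_apply, Pi.star_apply, Pi.one_apply] at b6
  rw [b7, Complex.norm_real, Real.norm_eq_abs] at b6
  nlinarith [(abs_le.1 b6).1, norm_nonneg (hat (u n))]

theorem main : ∃ (H : Type) (_ : NormedAddCommGroup H) (_ : InnerProductSpace ℂ H)
    (_ : CompleteSpace H) (M : VonNeumannAlgebra H) (τ : (H →L[ℂ] H) → ℂ),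
    TopologicalSpace.SeparableSpace H ∧ II1 M τ ∧ ∀ U : Ultrafilter ℕ,
      ∃ π₁ π₂ : (H →L[ℂ] H) → ℕ → H →L[ℂ] H,
        Emb M τ M τ U π₁ ∧ Emb M τ M τ U π₂ ∧ CPConj M M τ U π₁ π₂ ∧ ¬ UConj M M τ U π₁ π₂ := by
  have hm : ∀ x y : H S →L[ℂ] H S, W * (x * y) * W = W * x * W * (W * y * W) := fun x y => by
    simp only [mul_assoc]
    rw [← mul_assoc W W, W_W, one_mul]
  have hs : ∀ x : H S →L[ℂ] H S, W * star x * W = star (W * x * W) := fun x => by
    simp only [star_mul, W_star, mul_assoc]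
  refine ⟨H S, inferInstance, inferInstance, inferInstance, M S, tau, inferInstance, two, fun U =>
    ⟨fun x _ => x, fun x _ => W * x * W,
      ⟨fun x hx => ⟨fun _ => hx, _, fun _ => le_rfl⟩, ⟨fun x _ y _ => eqv_refl U fun _ => rfl,
        fun c x _ => eqv_refl U fun _ => rfl⟩, ⟨fun x _ y _ => eqv_refl U fun _ => rfl,
        fun x _ => eqv_refl U fun _ => rfl, eqv_refl U fun _ => rfl⟩,
        fun x _ => tendsto_const_nhds⟩,
      ⟨fun x hx => ⟨fun _ => W_mem hx, _, fun _ => le_rfl⟩,
        ⟨fun x _ y _ => eqv_refl U fun _ => by simp [mul_add, add_mul],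
        fun c x _ => eqv_refl U fun _ => by simp⟩, ⟨fun x _ y _ => eqv_refl U fun _ => hm x y,
        fun x _ => eqv_refl U fun _ => hs x, eqv_refl U fun _ => by simp [W_W]⟩,
        fun x _ => by simp [tau_W]⟩, ⟨fun _ x => W * x * W,
      fun _ => ⟨fun x hx => W_mem hx, fun x _ y _ => by simp [mul_add, add_mul],
        fun c x _ => by simp, by simp [W_W], fun k a _ ha ξ => ?_⟩, fun _ x _ => tau_W x,
      fun x y _ _ h => ?_, fun x _ => eqv_refl U fun _ => rfl⟩,
      fun ⟨u, hu, h2⟩ => nonconj U u hu.seq hu.left h2⟩⟩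
  · simpa [W_inner] using ha fun i => W (ξ i)
  · refine Tendsto.congr (fun n => ?_) h
    rw [← sub_mul, ← mul_sub, ← hs, ← hm, tau_W]

end Pool.Agent.H75.UC
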