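import Mathlib
import Pool.Agent.H75.LGroup

/-! Iterated ultrapowers of chains and their automorphisms. -/

set_option autoImplicit false
set_option linter.unusedSectionVars false

namespace Pool.Agent.H75.UltraChain

open Filter Pool.Agent.H75.LGroup

/-- `f` is the identity outside `[t1, t2]`. -/
def BdBy {T : Type} [LinearOrder T] (f : T ≃o T) (t1 t2 : T) : Prop :=
  ∀ s, s < t1 ∨ t2 < s → f s = s

/-- Double transitivity through automorphisms of bounded support. -/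
def Tr2 (T : Type) [LinearOrder T] : Prop :=
  ∀ r1 r2 s1 s2 : T, r1 < r2 → s1 < s2 →
    ∃ f : T ≃o T, (∃ t1 t2, BdBy f t1 t2) ∧ f r1 = s1 ∧ f r2 = s2

/-- An increasing affine map of the rationals. -/
noncomputable def aff (a b : ℚ) (ha : 0 < a) : ℚ ≃o ℚ :=
  StrictMono.orderIsoOfSurjective (fun x => a * x + b)
    (fun x y h => by dsimp only; nlinarith)
    (fun y => ⟨(y - b) / a, by dsimp only; field_simp; ring⟩)

@[simp] theorem aff_apply (a b : ℚ) (ha : 0 < a) (x : ℚ) : aff a b ha x = a * x + b := rfl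

theorem tr2_rat : Tr2 ℚ := by
  intro r1 r2 s1 s2 hr hs
  have hr' : 0 < r2 - r1 := sub_pos.2 hr
  have hs' : 0 < s2 - s1 := sub_pos.2 hs
  obtain ⟨c, hc⟩ : ∃ c : ℚ, c = 2 * (|r1| + |r2|) + |s1| + |s2| := ⟨_, rfl⟩
  have a1 := abs_nonneg r1
  have a2 := abs_nonneg r2
  have a3 := abs_nonneg s1
  have a4 := abs_nonneg s2
  have b1 := le_abs_self r1
  have b2 := le_abs_self r2
  have b3 := le_abs_self s1
  have b4 := le_abs_self s2
  have c1 := neg_abs_le r1
  have c2 := neg_abs_le r2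
  have c3 := neg_abs_le s1
  have c4 := neg_abs_le s2
  let A := aff ((s2 - s1) / (r2 - r1)) (s1 - (s2 - s1) / (r2 - r1) * r1) (div_pos hs' hr')
  have hA1 : A r1 = s1 := by simp [A]
  have hA2 : A r2 = s2 := by
    simp only [A, aff_apply]
    field_simp
    ring
  let up := supIso (OrderIso.refl ℚ) (infIso (aff 2 c two_pos) (aff (1 / 2) c one_half_pos))
  let lo := infIso (OrderIso.refl ℚ) (supIso (aff 2 (-c) two_pos) (aff (1 / 2) (-c) one_half_pos))
  have hup : ∀ r s : ℚ, s ≤ 2 * r + c → s ≤ 1 / 2 * r + c → s ≤ up r := fun r s h1 h2 =>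
    le_max_of_le_right (le_min h1 h2)
  have hlo : ∀ r s : ℚ, 2 * r + -c ≤ s → 1 / 2 * r + -c ≤ s → lo r ≤ s := fun r s h1 h2 =>
    min_le_of_right_le (max_le h1 h2)
  refine ⟨infIso (supIso A lo) up, ⟨-(2 * c), 2 * c, fun s hs => ?_⟩, ?_, ?_⟩
  · have h1 : up s = s := by
      apply max_eq_left
      rcases hs with hs | hs
      · exact min_le_of_left_le (by simp only [aff_apply, OrderIso.refl_apply]; linarith)
      · exact min_le_of_right_le (by simp only [aff_apply, OrderIso.refl_apply]; linarith)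
    have h2 : lo s = s := by
      apply min_eq_left
      rcases hs with hs | hs
      · exact le_max_of_le_right (by simp only [aff_apply, OrderIso.refl_apply]; linarith)
      · exact le_max_of_le_left (by simp only [aff_apply, OrderIso.refl_apply]; linarith)
    rw [infIso_apply, supIso_apply, h1, h2]
    exact min_eq_right (le_max_right _ _)
  · rw [infIso_apply, supIso_apply, hA1, max_eq_left (hlo _ _ (by linarith) (by linarith)),
      min_eq_left (hup _ _ (by linarith) (by linarith))]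
  · rw [infIso_apply, supIso_apply, hA2, max_eq_left (hlo _ _ (by linarith) (by linarith)),
      min_eq_left (hup _ _ (by linarith) (by linarith))]

section Ultra

variable {T : Type} [LinearOrder T]

/-- Gluing two automorphisms along a common invariant lower set. -/
theorem exists_glue (D : Set T) (hD : ∀ x y, x ≤ y → y ∈ D → x ∈ D) (F G : T ≃o T)
    (hF : ∀ x, F x ∈ D ↔ x ∈ D) (hG : ∀ x, G x ∈ D ↔ x ∈ D) :
    ∃ H : T ≃o T, (∀ x ∈ D, H x = F x) ∧ ∀ x, x ∉ D → H x = G x := by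
  classical
  refine ⟨StrictMono.orderIsoOfSurjective (fun x => if x ∈ D then F x else G x) ?_ ?_,
    fun x hx => if_pos hx, fun x hx => if_neg hx⟩
  · intro x y h
    dsimp only
    by_cases hx : x ∈ D <;> by_cases hy : y ∈ D
    · rw [if_pos hx, if_pos hy]; exact F.strictMono h
    · rw [if_pos hx, if_neg hy]
      exact lt_of_not_ge fun h1 => hy ((hG y).1 (hD _ _ h1 ((hF x).2 hx)))
    · exact absurd (hD _ _ h.le hy) hx
    · rw [if_neg hx, if_neg hy]; exact G.strictMono h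
  · intro y
    by_cases hy : y ∈ D
    · refine ⟨F.symm y, ?_⟩
      have : F.symm y ∈ D := (hF _).1 (by simpa using hy)
      simp [this]
    · refine ⟨G.symm y, ?_⟩
      have : G.symm y ∉ D := fun h => hy (by simpa using (hG _).2 h)
      simp [this]

/-- The ultrapower. -/
abbrev Up (T : Type) : Type := Germ (hyperfilter ℕ : Filter ℕ) T

noncomputable def mapF (f : ℕ → T ≃o T) : Up T → Up T :=
  Germ.map' (fun x n => f n (x n)) fun _ _ h => h.mono fun n hn => congrArg (f n) hn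

/-- The ultraproduct of a sequence of automorphisms. -/
noncomputable def extF (f : ℕ → T ≃o T) : Up T ≃o Up T where
  toFun := mapF f
  invFun := mapF fun n => (f n).symm
  left_inv x := Germ.inductionOn x fun x => Germ.coe_eq.2 (Eventually.of_forall fun n => by simp)
  right_inv x := Germ.inductionOn x fun x => Germ.coe_eq.2 (Eventually.of_forall fun n => by simp)
  map_rel_iff' {x y} := Germ.inductionOn₂ x y fun x y =>
    eventually_congr (Eventually.of_forall fun n => (f n).le_iff_le)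

theorem extF_coe (f : ℕ → T ≃o T) (x : ℕ → T) :
    extF f (x : Up T) = ((fun n => f n (x n) : ℕ → T) : Up T) := rfl

/-- The diagonal embedding. -/
noncomputable def dg : T ↪o Up T :=
  OrderEmbedding.ofMapLEIff (fun x => (x : Up T)) fun _ _ => Germ.const_le_iff

/-- The ultrapower of an automorphism. -/
noncomputable def ex : (T ≃o T) →* (Up T ≃o Up T) where
  toFun f := extF fun _ => f
  map_one' := by
    ext x
    exact Germ.inductionOn x fun x => rfl
  map_mul' f g := by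
    ext x
    exact Germ.inductionOn x fun x => rfl

theorem ex_dg (f : T ≃o T) (x : T) : ex f (dg x) = dg (f x) := rfl

theorem ex_sup (f g : T ≃o T) : ex (supIso f g) = supIso (ex f) (ex g) := by
  ext x
  refine Germ.inductionOn x fun x => ?_
  rw [supIso_apply, Germ.max_def]
  rfl

theorem ex_inf (f g : T ≃o T) : ex (infIso f g) = infIso (ex f) (ex g) := by
  ext x
  refine Germ.inductionOn x fun x => ?_
  rw [infIso_apply, Germ.min_def]
  rfl

theorem extF_bd (f : ℕ → T ≃o T) (t1 t2 : ℕ → T)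
    (h : ∀ᶠ n in (hyperfilter ℕ : Filter ℕ), BdBy (f n) (t1 n) (t2 n)) :
    BdBy (extF f) (t1 : Up T) (t2 : Up T) := by
  intro s
  refine Germ.inductionOn s fun s hs => Germ.coe_eq.2 ?_
  rcases hs with hs | hs
  · filter_upwards [h, Germ.coe_lt.1 hs] with n h1 h2 using h1 _ (Or.inl h2)
  · filter_upwards [h, Germ.coe_lt.1 hs] with n h1 h2 using h1 _ (Or.inr h2)

theorem ex_bd (f : T ≃o T) (t1 t2 : T) (h : BdBy f t1 t2) : BdBy (ex f) (dg t1) (dg t2) :=
  extF_bd _ (fun _ => t1) (fun _ => t2) (Eventually.of_forall fun _ => h)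

theorem tr2_up (h : Tr2 T) : Tr2 (Up T) := by
  intro r1 r2 s1 s2
  refine Germ.inductionOn₂ r1 r2 fun r1 r2 => Germ.inductionOn₂ s1 s2 fun s1 s2 hr hs => ?_
  have key : ∀ n, ∃ (f : T ≃o T) (t1 t2 : T), r1 n < r2 n → s1 n < s2 n →
      BdBy f t1 t2 ∧ f (r1 n) = s1 n ∧ f (r2 n) = s2 n := by
    intro n
    by_cases h1 : r1 n < r2 n ∧ s1 n < s2 n
    · obtain ⟨f, ⟨t1, t2, h2⟩, h3⟩ := h _ _ _ _ h1.1 h1.2
      exact ⟨f, t1, t2, fun _ _ => ⟨h2, h3⟩⟩
    · exact ⟨1, r1 n, r1 n, fun h2 h3 => absurd ⟨h2, h3⟩ h1⟩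
  choose f t1 t2 hf using key
  have h1 := ((Germ.coe_lt.1 hr).and (Germ.coe_lt.1 hs)).mono fun n hn => hf n hn.1 hn.2
  exact ⟨extF f, ⟨_, _, extF_bd f t1 t2 (h1.mono fun n hn => hn.1)⟩,
    Germ.coe_eq.2 (h1.mono fun n hn => hn.2.1), Germ.coe_eq.2 (h1.mono fun n hn => hn.2.2)⟩

theorem split_up (f : T ≃o T) (hf : ∀ t, t ≤ f t) (t0 : T) (h0 : f t0 ≠ t0) :
    ∃ g1 g2 : Up T ≃o Up T, (∃ x, g1 x ≠ x) ∧ (∃ x, g2 x ≠ x) ∧ infIso g1 g2 = 1 ∧
      supIso g1 g2 = ex f := by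
  have hF : ∀ y, y ≤ ex f y := fun y =>
    Germ.inductionOn y fun y => Germ.coe_le.2 (Eventually.of_forall fun n => hf _)
  have hlt : StrictMono fun m => f^[m] t0 := by
    apply strictMono_nat_of_lt_succ
    intro m
    induction m with
    | zero => exact lt_of_le_of_ne (hf t0) h0.symm
    | succ m ih =>
      rw [Function.iterate_succ_apply' f (m + 1), Function.iterate_succ_apply' f m]
      rw [Function.iterate_succ_apply' f m] at ih
      exact f.strictMono ih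
  let D : Set (Up T) := {y | ∃ m, y ≤ dg (f^[m] t0)}
  have hD : ∀ x y, x ≤ y → y ∈ D → x ∈ D := fun x y h ⟨m, hm⟩ => ⟨m, h.trans hm⟩
  have hFD : ∀ x, ex f x ∈ D ↔ x ∈ D := by
    intro x
    refine ⟨hD _ _ (hF x), fun ⟨m, hm⟩ => ⟨m + 1, ?_⟩⟩
    rw [Function.iterate_succ_apply', ← ex_dg]
    exact (ex f).monotone hm
  obtain ⟨g1, h1, h1'⟩ := exists_glue D hD (ex f) 1 hFD fun _ => Iff.rfl
  obtain ⟨g2, h2, h2'⟩ := exists_glue D hD 1 (ex f) (fun _ => Iff.rfl) hFD
  refine ⟨g1, g2, ⟨dg t0, ?_⟩, ⟨((fun n => f^[n] t0 : ℕ → T) : Up T), ?_⟩, ?_, ?_⟩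
  · rw [h1 (dg t0) ⟨0, le_rfl⟩, ex_dg]
    exact fun h => h0 (dg.injective h)
  · rw [h2']
    · apply ne_of_gt
      refine Germ.coe_lt.2 (Eventually.of_forall fun n => ?_)
      have := hlt (Nat.lt_succ_self n)
      simpa only [Function.iterate_succ_apply'] using this
    · rintro ⟨m, hm⟩
      refine not_lt.2 hm (Germ.coe_lt.2 ?_)
      filter_upwards [Nat.hyperfilter_le_atTop (eventually_gt_atTop m)] with n hn using hlt hn
  · ext x
    rw [infIso_apply]
    by_cases hx : x ∈ D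
    · rw [h1 x hx, h2 x hx]; exact min_eq_right (hF x)
    · rw [h1' x hx, h2' x hx]; exact min_eq_left (hF x)
  · ext x
    rw [supIso_apply]
    by_cases hx : x ∈ D
    · rw [h1 x hx, h2 x hx]; exact max_eq_left (hF x)
    · rw [h1' x hx, h2' x hx]; exact max_eq_right (hF x)

end Ultra

theorem exists_seq {A : ℕ → Type} (d : ∀ n, A n) (i : ∀ n, A n → A (n + 1)) (N : ℕ) (x : A N) :
    ∃ s : ∀ n, A n, s N = x ∧ ∀ n, N ≤ n → s (n + 1) = i n (s n) := by
  refine ⟨fun n => Nat.rec (motive := A) (if h : N = 0 then cast (congrArg A h) x else d 0)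
    (fun n y => if h : N = n + 1 then cast (congrArg A h) x else i n y) n, ?_, fun n hn => ?_⟩
  · cases N with
    | zero => simp
    | succ N => simp
  · exact dif_neg (by omega)

theorem persist {p : ℕ → Prop} {N : ℕ} (h : ∀ n, N ≤ n → p n → p (n + 1)) (h0 : p N) :
    ∀ᶠ n in atTop, p n :=
  eventually_atTop.2 ⟨N, fun n hn => Nat.le_induction h0 h n hn⟩

theorem persist_back {p : ℕ → Prop} {N : ℕ} (h : ∀ n, N ≤ n → p (n + 1) → p n)
    (h0 : ∀ᶠ n in atTop, p n) : p N := by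
  by_contra hc
  have := persist (p := fun n => ¬ p n) (fun n hn h1 h2 => h1 (h n hn h2)) hc
  obtain ⟨n, h1, h2⟩ := (h0.and this).exists
  exact h2 h1

/-- Bundled chains. -/
structure Chain : Type 1 where
  T : Type
  inst : LinearOrder T

/-- The iterated ultrapowers of the rationals. -/
noncomputable def Ch : ℕ → Chain
  | 0 => ⟨ℚ, inferInstance⟩
  | n + 1 => ⟨Up (Ch n).T, @Germ.instLinearOrder _ _ _ (Ch n).inst⟩

/-- The `n`-th chain. -/
def TT (n : ℕ) : Type := (Ch n).T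

noncomputable instance (n : ℕ) : LinearOrder (TT n) := (Ch n).inst

noncomputable def ii (n : ℕ) : TT n ↪o TT (n + 1) := dg
noncomputable def ee (n : ℕ) : (TT n ≃o TT n) →* (TT (n + 1) ≃o TT (n + 1)) := ex

theorem tr2_TT (n : ℕ) : Tr2 (TT n) := by
  induction n with
  | zero => exact tr2_rat
  | succ n ih => exact tr2_up (T := TT n) ih

noncomputable def dd : ∀ n, TT n
  | 0 => (0 : ℚ)
  | n + 1 => ii n (dd n)

/-- Eventually coherent sequences. -/
def CC : Type := {x : ∀ n, TT n // ∀ᶠ n in atTop, x (n + 1) = ii n (x n)}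

instance : Preorder CC where
  le x y := ∀ᶠ n in atTop, x.1 n ≤ y.1 n
  le_refl _ := Eventually.of_forall fun _ => le_rfl
  le_trans _ _ _ h1 h2 := (h1.and h2).mono fun _ h => h.1.trans h.2

theorem CC_le (x y : CC) : x ≤ y ↔ ∀ᶠ n in atTop, x.1 n ≤ y.1 n := Iff.rfl

instance : @Std.Total CC (· ≤ ·) := ⟨fun x y => by
  obtain ⟨N, hN⟩ := eventually_atTop.1 (x.2.and y.2)
  rcases le_total (x.1 N) (y.1 N) with h | h
  · exact Or.inl (persist (fun n hn h1 => by
      rw [(hN n hn).1, (hN n hn).2]; exact (ii n).monotone h1) h)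
  · exact Or.inr (persist (fun n hn h1 => by
      rw [(hN n hn).1, (hN n hn).2]; exact (ii n).monotone h1) h)⟩

/-- The direct limit chain. -/
def TW : Type := Antisymmetrization CC (· ≤ ·)

open Classical in
noncomputable instance : LinearOrder TW :=
  inferInstanceAs (LinearOrder (Antisymmetrization CC (· ≤ ·)))

/-- The class of a sequence. -/
def mk (x : CC) : TW := toAntisymmetrization (· ≤ ·) x

theorem mk_surj (t : TW) : ∃ x, mk x = t := Quotient.exists_rep t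

theorem mk_le (x y : CC) : mk x ≤ mk y ↔ ∀ᶠ n in atTop, x.1 n ≤ y.1 n := Iff.rfl

theorem mk_eq (x y : CC) : mk x = mk y ↔ ∀ᶠ n in atTop, x.1 n = y.1 n := by
  rw [le_antisymm_iff, mk_le, mk_le, ← eventually_and]
  simp only [← le_antisymm_iff]

theorem mk_lt {x y : CC} (h : mk x < mk y) : ∀ᶠ n in atTop, x.1 n < y.1 n := by
  obtain ⟨N, hN⟩ := eventually_atTop.1 (x.2.and y.2)
  refine persist (N := N) (fun n hn h1 => by
    rw [(hN n hn).1, (hN n hn).2]; exact (ii n).strictMono h1) ?_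
  by_contra hc
  refine not_le.2 h ((mk_le _ _).2 (persist (N := N) (fun n hn h1 => ?_) (not_lt.1 hc)))
  rw [(hN n hn).1, (hN n hn).2]
  exact (ii n).monotone h1

theorem mk_max {x y z : CC} (h : ∀ᶠ n in atTop, z.1 n = max (x.1 n) (y.1 n)) :
    mk z = max (mk x) (mk y) := by
  rcases le_total (mk x) (mk y) with h1 | h1
  · rw [max_eq_right h1, mk_eq]
    filter_upwards [h, (mk_le _ _).1 h1] with n h2 h3 using h2.trans (max_eq_right h3)
  · rw [max_eq_left h1, mk_eq]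
    filter_upwards [h, (mk_le _ _).1 h1] with n h2 h3 using h2.trans (max_eq_left h3)

theorem mk_min {x y z : CC} (h : ∀ᶠ n in atTop, z.1 n = min (x.1 n) (y.1 n)) :
    mk z = min (mk x) (mk y) := by
  rcases le_total (mk x) (mk y) with h1 | h1
  · rw [min_eq_left h1, mk_eq]
    filter_upwards [h, (mk_le _ _).1 h1] with n h2 h3 using h2.trans (min_eq_left h3)
  · rw [min_eq_right h1, mk_eq]
    filter_upwards [h, (mk_le _ _).1 h1] with n h2 h3 using h2.trans (min_eq_right h3)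

/-- Eventually coherent sequences of automorphisms. -/
def Coh (f : ∀ n, TT n ≃o TT n) : Prop := ∀ᶠ n in atTop, f (n + 1) = ee n (f n)

noncomputable def act (f : ∀ n, TT n ≃o TT n) (hf : Coh f) : CC →o CC where
  toFun x := ⟨fun n => f n (x.1 n), by
    filter_upwards [hf, x.2] with n h1 h2
    rw [h1, h2]
    rfl⟩
  monotone' _ _ h := Eventually.mono h fun n hn => (f n).monotone hn

theorem Coh.inv {f : ∀ n, TT n ≃o TT n} (hf : Coh f) : Coh fun n => (f n)⁻¹ :=
  Eventually.mono hf fun n hn => by simp only [hn, map_inv]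

theorem Coh.mul {f g : ∀ n, TT n ≃o TT n} (hf : Coh f) (hg : Coh g) : Coh fun n => f n * g n :=
  (Eventually.and hf hg).mono fun n hn => by simp only [hn.1, hn.2, map_mul]

theorem Coh.sup {f g : ∀ n, TT n ≃o TT n} (hf : Coh f) (hg : Coh g) :
    Coh fun n => supIso (f n) (g n) :=
  (Eventually.and hf hg).mono fun n hn => by
    simp only [hn.1, hn.2]
    exact (ex_sup _ _).symm

theorem Coh.inf {f g : ∀ n, TT n ≃o TT n} (hf : Coh f) (hg : Coh g) :
    Coh fun n => infIso (f n) (g n) :=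
  (Eventually.and hf hg).mono fun n hn => by
    simp only [hn.1, hn.2]
    exact (ex_inf _ _).symm

/-- The automorphism of the limit chain induced by a coherent sequence. -/
noncomputable def lim (f : ∀ n, TT n ≃o TT n) (hf : Coh f) : TW ≃o TW where
  toFun := (act f hf).antisymmetrization
  invFun := (act _ hf.inv).antisymmetrization
  left_inv t := by
    obtain ⟨x, rfl⟩ := mk_surj t
    exact (mk_eq _ _).2 (Eventually.of_forall fun n => (f n).symm_apply_apply _)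
  right_inv t := by
    obtain ⟨x, rfl⟩ := mk_surj t
    exact (mk_eq _ _).2 (Eventually.of_forall fun n => (f n).apply_symm_apply _)
  map_rel_iff' {s t} := by
    obtain ⟨x, rfl⟩ := mk_surj s
    obtain ⟨y, rfl⟩ := mk_surj t
    exact eventually_congr (Eventually.of_forall fun n => (f n).le_iff_le)

theorem lim_mk (f : ∀ n, TT n ≃o TT n) (hf : Coh f) (x : CC) :
    lim f hf (mk x) = mk (act f hf x) := rfl

/-- The group of bounded automorphisms coming from a finite stage. -/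
def LL : Subgroup (TW ≃o TW) where
  carrier := {F | (∃ f hf, F = lim f hf) ∧ ∃ t1 t2, BdBy F t1 t2}
  one_mem' := ⟨⟨fun _ => 1, Eventually.of_forall fun n => (map_one _).symm, by
    ext t
    obtain ⟨x, rfl⟩ := mk_surj t
    rfl⟩, mk ⟨dd, Eventually.of_forall fun _ => rfl⟩, mk ⟨dd, Eventually.of_forall fun _ => rfl⟩,
    fun _ _ => rfl⟩
  mul_mem' := by
    rintro _ _ ⟨⟨f, hf, rfl⟩, t1, t2, h1⟩ ⟨⟨g, hg, rfl⟩, u1, u2, h2⟩
    refine ⟨⟨_, hf.mul hg, ?_⟩, min t1 u1, max t2 u2, fun s hs => ?_⟩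
    · ext t
      obtain ⟨x, rfl⟩ := mk_surj t
      rfl
    · rw [lt_min_iff, max_lt_iff] at hs
      change lim f hf (lim g hg s) = s
      rw [h2 s (hs.imp And.right And.right), h1 s (hs.imp And.left And.left)]
  inv_mem' := by
    rintro _ ⟨⟨f, hf, rfl⟩, t1, t2, h1⟩
    refine ⟨⟨_, hf.inv, ?_⟩, t1, t2, fun s hs => ?_⟩
    · ext t
      rfl
    · exact (lim f hf).symm_apply_eq.2 (h1 s hs).symm

theorem LL_lattice (F G : TW ≃o TW) (hF : F ∈ LL) (hG : G ∈ LL) :
    supIso F G ∈ LL ∧ infIso F G ∈ LL := by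
  obtain ⟨⟨f, hf, rfl⟩, t1, t2, h1⟩ := hF
  obtain ⟨⟨g, hg, rfl⟩, u1, u2, h2⟩ := hG
  refine ⟨⟨⟨_, hf.sup hg, ?_⟩, min t1 u1, max t2 u2, fun s hs => ?_⟩,
    ⟨⟨_, hf.inf hg, ?_⟩, min t1 u1, max t2 u2, fun s hs => ?_⟩⟩
  · ext t
    obtain ⟨x, rfl⟩ := mk_surj t
    exact (mk_max (Eventually.of_forall fun _ => rfl)).symm
  · rw [lt_min_iff, max_lt_iff] at hs
    rw [supIso_apply, h2 s (hs.imp And.right And.right), h1 s (hs.imp And.left And.left), max_self]
  · ext t
    obtain ⟨x, rfl⟩ := mk_surj t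
    exact (mk_min (Eventually.of_forall fun _ => rfl)).symm
  · rw [lt_min_iff, max_lt_iff] at hs
    rw [infIso_apply, h2 s (hs.imp And.right And.right), h1 s (hs.imp And.left And.left), min_self]

theorem exists_CC (N : ℕ) (x : TT N) :
    ∃ s : CC, s.1 N = x ∧ ∀ n, N ≤ n → s.1 (n + 1) = ii n (s.1 n) := by
  obtain ⟨s, h1, h2⟩ := exists_seq dd (fun n => ii n) N x
  exact ⟨⟨s, eventually_atTop.2 ⟨N, h2⟩⟩, h1, h2⟩

theorem exists_Coh (N : ℕ) (g : TT N ≃o TT N) :
    ∃ f : ∀ n, TT n ≃o TT n, Coh f ∧ f N = g ∧ ∀ n, N ≤ n → f (n + 1) = ee n (f n) := by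
  obtain ⟨s, h1, h2⟩ := exists_seq (A := fun n => TT n ≃o TT n) (fun _ => 1) (fun n => ee n) N g
  exact ⟨s, eventually_atTop.2 ⟨N, h2⟩, h1, h2⟩

theorem LL_trans (r1 r2 s1 s2 : TW) (hr : r1 < r2) (hs : s1 < s2) :
    ∃ F ∈ LL, F r1 = s1 ∧ F r2 = s2 := by
  obtain ⟨r1, rfl⟩ := mk_surj r1
  obtain ⟨r2, rfl⟩ := mk_surj r2
  obtain ⟨s1, rfl⟩ := mk_surj s1
  obtain ⟨s2, rfl⟩ := mk_surj s2
  obtain ⟨N, hN⟩ := eventually_atTop.1
    (((mk_lt hr).and (mk_lt hs)).and ((r1.2.and r2.2).and (s1.2.and s2.2)))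
  obtain ⟨g, ⟨t1, t2, hb⟩, e1, e2⟩ := tr2_TT N _ _ _ _ (hN N le_rfl).1.1 (hN N le_rfl).1.2
  obtain ⟨f, hf, rfl, hf'⟩ := exists_Coh N g
  obtain ⟨u1, rfl, hu1⟩ := exists_CC N t1
  obtain ⟨u2, rfl, hu2⟩ := exists_CC N t2
  have hb' : ∀ᶠ n in atTop, BdBy (f n) (u1.1 n) (u2.1 n) := persist (fun n hn h => by
    rw [hf' n hn, hu1 n hn, hu2 n hn]
    exact ex_bd _ _ _ h) hb
  refine ⟨lim f hf, ⟨⟨f, hf, rfl⟩, mk u1, mk u2, fun s hs => ?_⟩, ?_, ?_⟩
  · obtain ⟨s, rfl⟩ := mk_surj s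
    rw [lim_mk, mk_eq]
    rcases hs with hs | hs
    · filter_upwards [hb', mk_lt hs] with n h1 h2 using h1 _ (Or.inl h2)
    · filter_upwards [hb', mk_lt hs] with n h1 h2 using h1 _ (Or.inr h2)
  · rw [lim_mk, mk_eq]
    refine persist (p := fun n => f n (r1.1 n) = s1.1 n) (fun n hn h => ?_) e1
    rw [hf' n hn, (hN n hn).2.1.1, (hN n hn).2.2.1, ← h]
    rfl
  · rw [lim_mk, mk_eq]
    refine persist (p := fun n => f n (r2.1 n) = s2.1 n) (fun n hn h => ?_) e2
    rw [hf' n hn, (hN n hn).2.1.2, (hN n hn).2.2.2, ← h]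
    rfl

theorem lim_ne_one (f : ∀ n, TT n ≃o TT n) (hf : Coh f) (N : ℕ)
    (hf' : ∀ n, N ≤ n → f (n + 1) = ee n (f n)) (x : TT N) (hx : f N x ≠ x) : lim f hf ≠ 1 := by
  intro h
  obtain ⟨s, rfl, hs⟩ := exists_CC N x
  have h1 : lim f hf (mk s) = mk s := by rw [h]; rfl
  rw [lim_mk, mk_eq] at h1
  refine hx (persist_back (p := fun n => f n (s.1 n) = s.1 n) (fun n hn h2 => ?_) h1)
  rw [hf' n hn, hs n hn] at h2
  exact (ii n).injective h2

theorem LL_split (F : TW ≃o TW) (hF : F ∈ LL) (h0 : ∀ t, t ≤ F t) (h1 : F ≠ 1) :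
    ∃ F1 ∈ LL, ∃ F2 ∈ LL, F1 ≠ 1 ∧ F2 ≠ 1 ∧ (∀ t, min (F1 t) (F2 t) = t) ∧
      ∀ t, max (F1 t) (F2 t) = F t := by
  obtain ⟨⟨f, hf, rfl⟩, t1, t2, hb⟩ := hF
  obtain ⟨x, hx⟩ : ∃ x, lim f hf (mk x) ≠ mk x := by
    by_contra hc
    push Not at hc
    apply h1
    ext t
    obtain ⟨x, rfl⟩ := mk_surj t
    exact hc x
  obtain ⟨N, hN⟩ := eventually_atTop.1 (Eventually.and hf x.2)
  have h2 : f N (x.1 N) ≠ x.1 N := by
    intro h
    apply hx
    rw [lim_mk, mk_eq]
    refine persist (p := fun n => f n (x.1 n) = x.1 n) (fun n hn h3 => ?_) h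
    rw [(hN n hn).1, (hN n hn).2]
    exact congrArg (ii n) h3
  have h3 : ∀ t, t ≤ f N t := by
    intro t
    obtain ⟨s, rfl, hs⟩ := exists_CC N t
    have h4 := h0 (mk s)
    rw [lim_mk, mk_le] at h4
    refine persist_back (p := fun n => s.1 n ≤ f n (s.1 n)) (fun n hn h5 => ?_) h4
    rw [(hN n hn).1, hs n hn] at h5
    exact (ii n).le_iff_le.1 h5
  obtain ⟨g1, g2, ⟨x1, hx1⟩, ⟨x2, hx2⟩, e1, e2⟩ := split_up (f N) h3 _ h2
  obtain ⟨f1, hf1, k1, hf1'⟩ := exists_Coh (N + 1) g1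
  obtain ⟨f2, hf2, k2, hf2'⟩ := exists_Coh (N + 1) g2
  have e1' : ∀ᶠ n in atTop, infIso (f1 n) (f2 n) = 1 := persist (N := N + 1) (fun n hn h => by
    rw [hf1' n hn, hf2' n hn, ← map_one (ee n), ← h]
    exact (ex_inf _ _).symm) (by rw [k1, k2]; exact e1)
  have e2' : ∀ᶠ n in atTop, supIso (f1 n) (f2 n) = f n := persist (N := N + 1) (fun n hn h => by
    rw [hf1' n hn, hf2' n hn, (hN n (by omega)).1, ← h]
    exact (ex_sup _ _).symm) (by rw [k1, k2, (hN N le_rfl).1]; exact e2)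
  have m1 : ∀ t, min (lim f1 hf1 t) (lim f2 hf2 t) = t := by
    intro t
    obtain ⟨s, rfl⟩ := mk_surj t
    exact (mk_min (e1'.mono fun n hn => (congrArg (fun g => g (s.1 n)) hn).symm)).symm
  have m2 : ∀ t, max (lim f1 hf1 t) (lim f2 hf2 t) = lim f hf t := by
    intro t
    obtain ⟨s, rfl⟩ := mk_surj t
    exact (mk_max (e2'.mono fun n hn => (congrArg (fun g => g (s.1 n)) hn).symm)).symm
  refine ⟨lim f1 hf1, ⟨⟨f1, hf1, rfl⟩, t1, t2, fun s hs => ?_⟩, lim f2 hf2,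
    ⟨⟨f2, hf2, rfl⟩, t1, t2, fun s hs => ?_⟩, lim_ne_one f1 hf1 _ hf1' x1 (by rw [k1]; exact hx1),
    lim_ne_one f2 hf2 _ hf2' x2 (by rw [k2]; exact hx2), m1, m2⟩
  · exact le_antisymm ((le_max_left _ _).trans ((m2 s).trans (hb s hs)).le)
      ((m1 s).ge.trans (min_le_left _ _))
  · exact le_antisymm ((le_max_right _ _).trans ((m2 s).trans (hb s hs)).le)
      ((m1 s).ge.trans (min_le_right _ _))

theorem three : ∃ a b c : TW, a < b ∧ b < c := by
  have key : ∀ a b : CC, (∀ n, 0 ≤ n → a.1 (n + 1) = ii n (a.1 n)) →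
      (∀ n, 0 ≤ n → b.1 (n + 1) = ii n (b.1 n)) → a.1 0 < b.1 0 → mk a < mk b := by
    intro a b ha hb h
    refine lt_of_not_ge fun h1 => not_le.2 h ?_
    refine persist_back (p := fun n => b.1 n ≤ a.1 n) (fun n hn h2 => ?_) ((mk_le _ _).1 h1)
    rw [ha n hn, hb n hn] at h2
    exact (ii n).le_iff_le.1 h2
  obtain ⟨a, ha, ha'⟩ := exists_CC 0 (0 : ℚ)
  obtain ⟨b, hb, hb'⟩ := exists_CC 0 (1 : ℚ)
  obtain ⟨c, hc, hc'⟩ := exists_CC 0 (2 : ℚ)
  refine ⟨mk a, mk b, mk c, key a b ha' hb' ?_, key b c hb' hc' ?_⟩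
  · rw [ha, hb]
    exact (zero_lt_one : (0 : ℚ) < 1)
  · rw [hb, hc]
    exact (one_lt_two : (1 : ℚ) < 2)

end Pool.Agent.H75.UltraChain
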