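import Mathlib
import Pool.Agent.H75.Sl2Eq

/-! Normal form of irreducible matrix modules for the equitable presentation of `U_q(sl2)`. -/

set_option autoImplicit false

namespace Pool.Agent.H75.UqEq

open Matrix Module Pool.Agent.H75.Sl2Eq

variable {K : Type} [Field K] {n : ℕ}

theorem pinj {q : K} (q0 : q ≠ 0) (hq : ∀ m : ℕ, 0 < m → q ^ m ≠ 1) :
    Function.Injective fun i : ℕ => (q ^ 2) ^ i := by
  have : ∀ a b : ℕ, a < b → (q ^ 2) ^ a ≠ (q ^ 2) ^ b := fun a b h e => by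
    obtain ⟨t, rfl⟩ := Nat.exists_eq_add_of_lt h
    rw [add_assoc, pow_add, left_eq_mul₀ (by positivity), ← pow_mul] at e
    exact hq _ (by omega) e
  intro a b e
  rcases lt_trichotomy a b with h | h | h
  exacts [absurd e (this _ _ h), h, absurd e.symm (this _ _ h)]

theorem prim {q : K} (q0 : q ≠ 0) (hq : ∀ m : ℕ, 0 < m → q ^ m ≠ 1)
    (y p m : Matrix (Fin n) (Fin n) K) (h1 : y * p = q ^ 2 • (p * y))
    (h2 : y * m = (q ^ 2)⁻¹ • (m * y)) (h3 : m * p = q ^ 2 • (p * m) + (1 - (q ^ 2)⁻¹) • (y * y - 1))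
    (w : Fin n → K) (hw : w ≠ 0) (c : K) (c0 : c ≠ 0)
    (h : y *ᵥ w = c • w) : ∃ (k : ℕ) (l : K) (v : ℕ → Fin n → K), l ^ 2 * (q ^ 2) ^ k = 1 ∧
      (∀ i ≤ k, v i ≠ 0) ∧ v (k + 1) = 0 ∧
      (∀ i, y *ᵥ v i = (l * (q ^ 2) ^ i) • v i) ∧ (∀ i, p *ᵥ v i = v (i + 1)) ∧ m *ᵥ v 0 = 0 ∧
        ∀ i, m *ᵥ v (i + 1) =
          ((q ^ 2)⁻¹ * ((q ^ 2) ^ (i + 1) - 1) * (l ^ 2 * (q ^ 2) ^ i - 1)) • v i := by
  have up : ∀ i : ℕ, y *ᵥ ((m ^ i) *ᵥ w) = (c * ((q ^ 2) ^ i)⁻¹) • (m ^ i) *ᵥ w := fun i => by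
    induction i with
    | zero => simpa using h
    | succ i ih =>
      rw [pow_succ' m, ← mulVec_mulVec, mulVec_mulVec, h2, smul_mulVec, ← mulVec_mulVec, ih,
        mulVec_smul, smul_smul]
      congr 1
      field_simp
      ring
  obtain ⟨j, hj, hj0⟩ := Nat.exists_not_and_succ_of_not_zero_of_exists
    (p := fun i => (m ^ i) *ᵥ w = 0) (by simpa using hw)
    (chain (toLin' y) (fun i => c * ((q ^ 2) ^ i)⁻¹)
      (fun a b e => pinj q0 hq (by simpa [c0] using e)) _ up)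
  set u := (m ^ j) *ᵥ w
  set l := c * ((q ^ 2) ^ j)⁻¹ with hl
  have l0 : l ≠ 0 := by rw [hl]; positivity
  have hu : y *ᵥ u = l • u := up j
  have hm : m *ᵥ u = 0 := by rw [mulVec_mulVec, ← pow_succ', hj0]
  have st : ∀ i, p *ᵥ ((p ^ i) *ᵥ u) = (p ^ (i + 1)) *ᵥ u := fun i => by
    rw [mulVec_mulVec, ← pow_succ']
  have dn : ∀ i : ℕ, y *ᵥ ((p ^ i) *ᵥ u) = (l * (q ^ 2) ^ i) • (p ^ i) *ᵥ u := fun i => by
    induction i with
    | zero => simpa using hu
    | succ i ih =>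
      rw [← st, mulVec_mulVec, h1, smul_mulVec, ← mulVec_mulVec, ih, mulVec_smul, smul_smul]
      congr 1
      ring
  have bk : ∀ i : ℕ, m *ᵥ ((p ^ (i + 1)) *ᵥ u) =
      ((q ^ 2)⁻¹ * ((q ^ 2) ^ (i + 1) - 1) * (l ^ 2 * (q ^ 2) ^ i - 1)) • (p ^ i) *ᵥ u :=
    fun i => by
    have g : ∀ i, (y * y - 1) *ᵥ ((p ^ i) *ᵥ u) = ((l * (q ^ 2) ^ i) ^ 2 - 1) • (p ^ i) *ᵥ u :=
      fun i => by
        rw [sub_mulVec, ← mulVec_mulVec, dn, mulVec_smul, dn, one_mulVec]; module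
    induction i with
    | zero =>
      rw [← st, mulVec_mulVec, h3, add_mulVec, smul_mulVec, smul_mulVec, ← mulVec_mulVec, g]
      simp only [pow_zero, one_mulVec, hm, mulVec_zero, smul_zero, zero_add, smul_smul]
      congr 1
      field_simp
    | succ i ih =>
      rw [← st, mulVec_mulVec, h3, add_mulVec, smul_mulVec, smul_mulVec, ← mulVec_mulVec, ih, g,
        mulVec_smul, st, smul_smul, smul_smul, ← add_smul]
      congr 1
      field_simp
      ring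
  obtain ⟨k, hk, hk0⟩ := Nat.exists_not_and_succ_of_not_zero_of_exists
    (p := fun i => (p ^ i) *ᵥ u = 0) (by simpa using hj)
    (chain (toLin' y) (fun i => l * (q ^ 2) ^ i)
      (fun a b e => pinj q0 hq (by simpa [l0] using e)) _ dn)
  have e : l ^ 2 * (q ^ 2) ^ k = 1 := by
    have := bk k
    rw [hk0, mulVec_zero, eq_comm, smul_eq_zero_iff_left hk] at this
    have h4 : (q ^ 2) ^ (k + 1) - 1 ≠ 0 := by
      rw [← pow_mul]; exact sub_ne_zero.2 (hq _ (by omega))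
    simpa [h4, q0, sub_eq_zero] using this
  refine ⟨k, l, fun i => (p ^ i) *ᵥ u, e, fun i hi h0 => hk ?_, hk0, dn, st, by simpa using hm, bk⟩
  obtain ⟨t, rfl⟩ := Nat.exists_eq_add_of_le hi
  rw [add_comm, pow_add, ← mulVec_mulVec]
  simp only at h0
  rw [h0, mulVec_zero]

theorem eig_ne {q : K} (q0 : q ≠ 0) (hq : ∀ m : ℕ, 0 < m → q ^ m ≠ 1)
    (x xi y : Matrix (Fin n) (Fin n) K) (hx : xi * x = 1)
    (h : 1 - y * x = q ^ 2 • (1 - x * y)) (w : Fin n → K) (hw : w ≠ 0) : y *ᵥ w ≠ 0 := fun h0 => by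
  have e : (1 - x * y) * x = (q ^ 2) • (x * (1 - x * y)) := by
    rw [← mul_smul_comm, ← h]; noncomm_ring
  have g : ∀ k : ℕ, (1 - x * y) *ᵥ ((x ^ k) *ᵥ w) = (q ^ 2) ^ k • (x ^ k) *ᵥ w := fun k => by
    induction k with
    | zero => simp [sub_mulVec, ← mulVec_mulVec, h0]
    | succ k ih =>
      rw [pow_succ' x, ← mulVec_mulVec, mulVec_mulVec, e, smul_mulVec, ← mulVec_mulVec, ih,
        mulVec_smul, smul_smul, pow_succ' (q ^ 2)]
  obtain ⟨k, hk⟩ := chain (toLin' (1 - x * y)) _ (pinj q0 hq) _ g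
  have : (xi ^ k * x ^ k) = 1 := by
    rw [← (Commute.mul_pow (show xi * x = x * xi by rw [hx, mul_eq_one_comm.1 hx])), hx, one_pow]
  exact hw (by rw [← one_mulVec w, ← this, ← mulVec_mulVec, hk, mulVec_zero])

theorem rel {q : K} (q0 : q ≠ 0) (hq : ∀ m : ℕ, 0 < m → q ^ m ≠ 1) (s t : Matrix (Fin n) (Fin n) K)
    (h : (q - q⁻¹)⁻¹ • (q • (s * t) - q⁻¹ • (t * s)) = 1) : 1 - t * s = q ^ 2 • (1 - s * t) := by
  have h2 : q - q⁻¹ ≠ 0 := fun e => hq 2 two_pos (by field_simp at e; linear_combination e)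
  have h3 : t * s = q ^ 2 • (s * t) - (q * (q - q⁻¹)) • (1 : Matrix (Fin n) (Fin n) K) := by
    rw [← h, smul_smul, mul_inv_cancel_right₀ h2]
    match_scalars <;> field_simp <;> ring
  rw [h3]
  match_scalars <;> field_simp <;> ring

theorem normal_form {q : K} (q0 : q ≠ 0) (hq : ∀ m : ℕ, 0 < m → q ^ m ≠ 1) {d : ℕ}
    (x xi y z : Matrix (Fin (d + 1)) (Fin (d + 1)) K) (hx : xi * x = 1)
    (h1 : 1 - y * x = q ^ 2 • (1 - x * y)) (h2 : 1 - z * y = q ^ 2 • (1 - y * z))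
    (h3 : 1 - x * z = q ^ 2 • (1 - z * x))
    (irr : ∀ W : Submodule K (Fin (d + 1) → K),
      (∀ w ∈ W, x *ᵥ w ∈ W ∧ xi *ᵥ w ∈ W ∧ y *ᵥ w ∈ W ∧ z *ᵥ w ∈ W) → W = ⊥ ∨ W = ⊤) :
    ∃ (F : Matrix (Fin (d + 1)) (Fin (d + 1)) K →ₐ[K] Matrix (Fin (d + 1)) (Fin (d + 1)) K) (l : K),
      l ^ 2 * (q ^ 2) ^ d = 1 ∧ (∀ M, (F M).trace = M.trace) ∧
        (∀ i j, F y i j = if i = j then l * (q ^ 2) ^ (j : ℕ) else 0) ∧
        (∀ i j, F (1 - x * y) i j = if (i : ℕ) = j + 1 then 1 else 0) ∧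
          ∀ i j, F (1 - y * z) i j = if (j : ℕ) = i + 1 then
            (q ^ 2)⁻¹ * ((q ^ 2) ^ ((i : ℕ) + 1) - 1) * (l ^ 2 * (q ^ 2) ^ (i : ℕ) - 1) else 0 := by
  have g1 : y * (1 - x * y) = q ^ 2 • ((1 - x * y) * y) := by
    rw [← smul_mul_assoc, ← h1]; noncomm_ring
  have g2 : y * (1 - y * z) = (q ^ 2)⁻¹ • ((1 - y * z) * y) := by
    rw [eq_inv_smul_iff₀ (by positivity), ← mul_smul_comm, ← h2]; noncomm_ring
  have g3 : (1 - y * z) * (1 - x * y) = q ^ 2 • ((1 - x * y) * (1 - y * z)) +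
      (1 - (q ^ 2)⁻¹) • (y * y - 1) := by
    have e1 : (1 - y * z) * (1 - x * y) =
        (1 - y * z) + (1 - x * y) - 1 + y * y - y * (1 - z * x) * y := by noncomm_ring
    have e2 : (q ^ 2 • (1 - x * y)) * (q ^ 2 • (1 - y * z)) =
        q ^ 2 • (1 - x * y) + q ^ 2 • (1 - y * z) - 1 + y * y - y * (q ^ 2 • (1 - z * x)) * y := by
      rw [← h1, ← h2, ← h3]; noncomm_ring
    have e3 : q ^ 2 • ((1 - x * y) * (1 - y * z)) =
        (q ^ 2)⁻¹ • ((q ^ 2 • (1 - x * y)) * (q ^ 2 • (1 - y * z))) := by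
      rw [smul_mul_smul_comm, smul_smul, inv_mul_cancel_left₀ (by positivity)]
    rw [e3, e2, e1, mul_smul_comm, smul_mul_assoc]
    generalize y * (1 - z * x) * y = r
    match_scalars <;> field_simp <;> ring
  obtain ⟨w, hw, c, hc⟩ : ∃ w : Fin (d + 1) → K, w ≠ 0 ∧ ∃ c : K, y *ᵥ w = c • w := by
    let f := (Algebra.ofId K (AlgebraicClosure K)).mapMatrix (m := Fin (d + 1))
    let a := algebraMap K (AlgebraicClosure K)
    have sm : ∀ (c : K) (M : Matrix (Fin (d + 1)) (Fin (d + 1)) (AlgebraicClosure K)),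
      c • M = a c • M := fun c M => (algebraMap_smul _ c M).symm
    obtain ⟨c, hc⟩ := End.exists_eigenvalue (toLin' (f y))
    obtain ⟨w, hw⟩ := hc.exists_hasEigenvector
    have q1 : a q ≠ 0 := by simpa using q0
    have q2 : ∀ m : ℕ, 0 < m → a q ^ m ≠ 1 := fun m hm e =>
      hq m hm (a.injective (by simpa using e))
    have hw' : f y *ᵥ w = c • w := by simpa using hw.apply_eq_smul
    obtain ⟨k, l, v, a0, a1, -, a2, -⟩ := prim q1 q2 (f y) (f (1 - x * y)) (f (1 - y * z))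
      (by simpa only [map_mul, map_smul, sm, map_pow] using congrArg f g1)
      (by simpa only [map_mul, map_smul, sm, map_pow, map_inv₀] using congrArg f g2)
      (by simpa only [map_mul, map_smul, sm, map_pow, map_inv₀, map_add, map_sub a, map_one,
        map_sub f (y * y)] using congrArg f g3) w hw.2 c
      (fun e => eig_ne q1 q2 (f x) (f xi) (f y) (by rw [← map_mul, hx, map_one])
        (by simpa only [map_mul, map_smul, sm, map_pow, map_sub, map_one] using congrArg f h1)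
        w hw.2 (by rw [hw', e, zero_smul])) hw'
    have : l = a (q ^ k)⁻¹ ∨ l = a (-(q ^ k)⁻¹) := by
      rw [map_neg, ← sq_eq_sq_iff_eq_or_eq_neg, eq_inv_of_mul_eq_one_left a0]
      simp [← pow_mul, mul_comm]
    rcases this with e | e <;>
    · obtain ⟨u, hu, e⟩ := descend y _ (v 0) (a1 0 k.zero_le) (by
        have := a2 0
        rw [pow_zero, mul_one, e] at this
        exact this)
      exact ⟨u, hu, _, e⟩
  obtain ⟨k, l, v, e0, a1, a0, a2, a3, a4, a5⟩ := prim q0 hq y _ _ g1 g2 g3 w hw c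
    (fun e => eig_ne q0 hq x xi y hx h1 w hw (by rw [hc, e, zero_smul])) hc
  have l0 : l ≠ 0 := fun e => by simp [e] at e0
  set W := Submodule.span K (Set.range fun i : Fin (k + 1) => v i) with hW
  have mem : ∀ i ≤ k + 1, v i ∈ W := fun i hi => by
    rcases hi.eq_or_lt with rfl | hi
    · rw [a0]; exact W.zero_mem
    · exact Submodule.subset_span ⟨⟨i, hi⟩, rfl⟩
  have inv : ∀ M : Matrix (Fin (d + 1)) (Fin (d + 1)) K, (∀ i ≤ k, M *ᵥ v i ∈ W) →
      ∀ w ∈ W, M *ᵥ w ∈ W := fun M hM w hw => by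
    have : W ≤ W.comap (toLin' M) := Submodule.span_le.2 (by
      rintro _ ⟨i, rfl⟩; exact hM i (Nat.lt_succ_iff.1 i.2))
    exact this hw
  have iy := inv y fun i hi => a2 i ▸ W.smul_mem _ (mem i (by omega))
  have ip := inv (1 - x * y) fun i hi => a3 i ▸ mem _ (by omega)
  have im := inv (1 - y * z) fun i hi => by
    rcases i with _ | i
    · rw [a4]; exact W.zero_mem
    · rw [a5]; exact W.smul_mem _ (mem i (by omega))
  have cancel : ∀ M : Matrix (Fin (d + 1)) (Fin (d + 1)) K, (∀ w ∈ W, (M * y) *ᵥ w ∈ W) →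
      ∀ w ∈ W, M *ᵥ w ∈ W := fun M hM => inv M fun i hi => by
    have := hM _ (mem i (by omega))
    rwa [← mulVec_mulVec, a2, mulVec_smul, W.smul_mem_iff (by positivity)] at this
  have ix := cancel x fun w hw => by simpa [sub_mulVec] using W.sub_mem hw (ip w hw)
  have iz := cancel z fun w hw => by
    have := W.sub_mem hw (W.smul_mem (q ^ 2) (im w hw))
    rw [← smul_mulVec, ← h2] at this
    simpa [sub_mulVec] using this
  have ixi : ∀ w ∈ W, xi *ᵥ w ∈ W := fun w hw => by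
    have : Function.Injective ((toLin' x).restrict (p := W) (q := W) ix) := fun a b e => by
      have := congrArg (fun u : W => xi *ᵥ (u : Fin (d + 1) → K)) e
      simpa [hx] using this
    obtain ⟨u, hu⟩ := LinearMap.injective_iff_surjective.1 this ⟨w, hw⟩
    have hu' : x *ᵥ u = w := congrArg Subtype.val hu
    rw [← hu', mulVec_mulVec, hx, one_mulVec]
    exact u.2
  have hs : W = ⊤ := by
    refine (irr W fun w hw => ⟨ix w hw, ixi w hw, iy w hw, iz w hw⟩).resolve_left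
      fun h0 => a1 0 k.zero_le ?_
    simpa [h0] using mem 0 (by omega)
  obtain ⟨rfl, b, hb⟩ := basis_of_chain (d := d) (by simp) (toLin' y) (fun i => l * (q ^ 2) ^ i)
    (fun a b e => pinj q0 hq (by simpa [l0] using e)) v a2 a1 hs
  refine ⟨cb b, l, e0, cb_trace b, fun i j => ?_, fun i j => ?_, fun i j => ?_⟩
  · rw [cb_apply, hb, a2, ← hb]
    by_cases e : i = j <;> simp [e, Finsupp.single_apply, eq_comm]
  · rw [cb_apply, hb, a3]
    by_cases hj : (j : ℕ) = k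
    · rw [hj, a0, if_neg (by omega)]; simp
    · rw [← hb ⟨j + 1, by omega⟩]
      simp [Finsupp.single_apply, Fin.ext_iff, eq_comm]
  · rw [cb_apply, hb]
    obtain ⟨_ | j, hj⟩ := j
    · simp [a4]
    · simp only [a5]
      rw [← hb ⟨j, by omega⟩]
      by_cases e : j = i
      · simp [Finsupp.single_apply, Fin.ext_iff, e]
      · simp [Finsupp.single_apply, Fin.ext_iff, e]

end Pool.Agent.H75.UqEq
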